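import Pool.Agent.Lib.H82OT.CI7
import Pool.Agent.Lib.H82T.D1
import Pool.Agent.Lib.H82T.SC

/-!
# Project H82OT, chunk CI8: the central inequality for finite rank modules
-/

open MeasureTheory Filter Topology Finset ProbabilityTheory
open scoped ENNReal ComplexConjugate Matrix

namespace Pool.Agent.Lib.H82OT

open Pool.Agent.Lib.H22M Pool.Agent.Lib.H82T

private theorem ci8_entry {d : ℕ} (P : Matrix (Fin d) (Fin d) ℂ) (h1 : P * Pᴴ = 1)
    (i j : Fin d) : ‖P i j‖ ≤ 1 := by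
  have key : ((∑ k, ‖P i k‖ ^ 2 : ℝ) : ℂ) = 1 := by
    have h3 : (P * Pᴴ) i i = 1 := by rw [h1, Matrix.one_apply_eq]
    rw [← h3, Matrix.mul_apply]
    push_cast
    refine Finset.sum_congr rfl fun k _ => ?_
    rw [Matrix.conjTranspose_apply, Complex.star_def, Complex.mul_conj']
  have hkey : (∑ k, ‖P i k‖ ^ 2 : ℝ) = 1 := by exact_mod_cast key
  have hle : ‖P i j‖ ^ 2 ≤ ∑ k, ‖P i k‖ ^ 2 :=
    Finset.single_le_sum (f := fun k => ‖P i k‖ ^ 2) (fun k _ => sq_nonneg _) (Finset.mem_univ j)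
  rw [hkey] at hle
  exact (sq_le_one_iff₀ (norm_nonneg _)).mp hle

private theorem ci8_meas {Ω : Type*} [MeasurableSpace Ω] {d : ℕ} (a b : Fin d → Ω → ℂ)
    (ha : ∀ i, Measurable (a i)) (hb : ∀ i, Measurable (b i)) :
    Measurable fun ω => ∑ i, a i ω * b i ω :=
  Finset.measurable_fun_sum _ fun i _ => (ha i).mul (hb i)

private theorem ci8_mconj {Ω : Type*} [MeasurableSpace Ω] (a b : Ω → ℂ)
    (ha : Measurable a) (hb : Measurable b) : Measurable fun ω => a ω * conj (b ω) :=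
  ha.mul (Complex.continuous_conj.measurable.comp hb)

private theorem ci8_sum {K : Type*} [CommSemiring K] {d : ℕ} (a b : Fin d → K) :
    ∑ k : Fin d × Fin d, a k.1 * b k.2 = (∑ i, a i) * ∑ j, b j := by
  rw [Fintype.sum_prod_type, Finset.sum_mul_sum]

/-- The rows `evr^n F` are bounded and `ℬ`-measurable. Proof. Induction on `n`: entries of `F (R y) ᵥ* Φ y`
are finite sums of products of bounded `ℬ`-measurable functions (`‖Φ y i j‖ ≤ 1` for unitary matrices). -/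
theorem evr_rowB {Y : Type*} {d : ℕ} (ℬ : MeasurableSpace Y) (R : Y → Y) (hinv : ℬ.comap R = ℬ)
    (Φ : Y → Matrix (Fin d) (Fin d) ℂ) (hΦ : ∀ i j, Measurable[ℬ] fun y => Φ y i j)
    (hu : ∀ y, Φ y * (Φ y)ᴴ = 1) (F : Y → Fin d → ℂ) (hF : RowB ℬ F) (n : ℕ) :
    RowB ℬ ((evr R Φ)^[n] F) := by
  have hR : Measurable[ℬ, ℬ] R := measurable_iff_comap_le.mpr hinv.le
  induction n with
  | zero => exact hF
  | succ n ih =>
    rw [Function.iterate_succ_apply']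
    obtain ⟨h1, C, hC⟩ := ih
    refine ⟨fun j => ?_, ∑ _i : Fin d, C * 1, fun y j => ?_⟩
    · refine @ci8_meas Y ℬ d (fun i y => ((evr R Φ)^[n] F) (R y) i) (fun i y => Φ y i j)
        (fun i => ?_) (fun i => hΦ i j)
      intro s hs
      exact hR (h1 i hs)
    · show ‖∑ i, ((evr R Φ)^[n] F) (R y) i * Φ y i j‖ ≤ _
      refine (norm_sum_le _ _).trans (Finset.sum_le_sum fun i _ => ?_)
      rw [norm_mul]
      exact mul_le_mul (hC _ i) (ci8_entry _ (hu y) i j) (norm_nonneg _)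
        ((norm_nonneg _).trans (hC y i))

/-- Proof. `central_inequality` (CI7) for `Ω = Y × Y`, `S = sqE R` (whose underlying function is
`Prod.map R R`), `𝒜 = DD ℬ ν R`, `ν = avg σ (Prod.map R R) q` (`DD_le`, `DD_comap` in `H82T/D1.lean`;
`ℬ`-measurable functions of `z.1` or `z.2` are `DD`-measurable), `κ = Fin d × Fin d`,
`E (i, j) z = E z.1 i * conj (E z.2 j)`, whose squares sum up to `(∑ ‖E z.1 i‖²)(∑ ‖E z.2 j‖²) ≤ C²`,
`W z (i, j) (k, l) = Φ z.1 i k * conj (Φ z.2 j l)` (`(Φ y)ᴴ * Φ y = 1` follows from `hu`: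
`Matrix.mul_eq_one_comm`), `Hn n (i, j) z = ((evr R Φ)^[n] F) z.1 i * conj (((evr R Φ)^[n] G) z.2 j)`.
The relation for `E` holds `ν`-a.e. because `ν` has marginals `m` (`avg_isSelf` in `H82T/SC.lean`). -/
theorem central_module {Y : Type*} {d : ℕ} (ℬ : MeasurableSpace Y) [mY : MeasurableSpace Y]
    {m : Measure Y} [IsProbabilityMeasure m] (R : Y ≃ᵐ Y) (hR : MeasurePreserving R m m)
    (hle : ℬ ≤ mY) (hinv : ℬ.comap R = ℬ) {p q : ℕ} (hq : 1 ≤ q) {ρ σ : Measure (Y × Y)}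
    (hσ : RelSq m R p q ρ σ)
    (hN : NoRoot (DD ℬ (avg σ (Prod.map R R) q) R) (avg σ (Prod.map R R) q) (Prod.map R R) q)
    (Φ : Y → Matrix (Fin d) (Fin d) ℂ) (hΦ : ∀ i j, Measurable[ℬ] fun y => Φ y i j)
    (hu : ∀ y, Φ y * (Φ y)ᴴ = 1) (E : Y → Fin d → ℂ) (hE : ∀ i, BM fun y => E y i)
    (hrel : ∀ᵐ y ∂m, E (R y) = Φ y *ᵥ E y) (C : ℝ) (hC0 : 0 ≤ C)
    (hC : ∀ y, ∑ i, ‖E y i‖ ^ 2 ≤ C)
    (F G : Y → Fin d → ℂ) (hF : RowB ℬ F) (hG : RowB ℬ G) :
    ∃ J : ℕ → ℕ → Y × Y → ℂ, (∀ n j, BM (J n j) ∧ (∀ z, ‖J n j z‖ ≤ (d : ℝ) ^ 2) ∧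
        ∀ᵐ z ∂(avg σ (Prod.map R R) q), J n j (Prod.map R R z) = J n j z) ∧
      ∀ N : ℕ, 1 ≤ N →
        ‖∫ z, (F z.1 ⬝ᵥ E z.1) * conj (G z.2 ⬝ᵥ E z.2) ∂σ‖ ^ 2 * (N : ℝ) ^ 2 ≤
          C ^ 2 * ∑ n ∈ range N, ∑ j ∈ range N,
            ‖∫ z, J n j z * (aa R Φ F n j z.1 * conj (aa R Φ G n j z.2))
              ∂(avg σ (Prod.map R R) q)‖ := by
  have hσp := hσ.prob
  have hself := avg_isSelf hR hq hσ
  have hSit : (⇑(sqE R))^[q] = Prod.map (R^[q]) (R^[q]) := by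
    rw [← Prod.map_iterate]
    rfl
  have hσinv : MeasurePreserving ((⇑(sqE R))^[q]) σ σ := by
    rw [hSit]
    exact hσ.inv
  have hfst : ∀ a : Y → ℂ, Measurable[ℬ] a →
      Measurable[DD ℬ (avg σ (Prod.map R R) q) R] fun z : Y × Y => a z.1 := by
    intro a ha
    have h1 : Measurable[DD ℬ (avg σ (Prod.map R R) q) R, ℬ] (Prod.fst : Y × Y → Y) :=
      measurable_iff_comap_le.mpr (le_sup_left.trans le_sup_left)
    intro s hs
    exact h1 (ha hs)
  have hsnd : ∀ a : Y → ℂ, Measurable[ℬ] a →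
      Measurable[DD ℬ (avg σ (Prod.map R R) q) R] fun z : Y × Y => a z.2 := by
    intro a ha
    have h1 : Measurable[DD ℬ (avg σ (Prod.map R R) q) R, ℬ] (Prod.snd : Y × Y → Y) :=
      measurable_iff_comap_le.mpr (le_sup_right.trans le_sup_left)
    intro s hs
    exact h1 (ha hs)
  have hpr : ∀ a b : Y → ℂ, Measurable[ℬ] a → Measurable[ℬ] b →
      Measurable[DD ℬ (avg σ (Prod.map R R) q) R] fun z : Y × Y => a z.1 * conj (b z.2) :=
    fun a b ha hb => @ci8_mconj (Y × Y) (DD ℬ (avg σ (Prod.map R R) q) R) _ _ (hfst a ha) (hsnd b hb)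
  have hu' : ∀ y (l l' : Fin d), ∑ k, Φ y k l * conj (Φ y k l') = if l = l' then 1 else 0 := by
    intro y l l'
    have h1 : (Φ y)ᴴ * Φ y = 1 := mul_eq_one_comm.mp (hu y)
    have h2 := congrFun (congrFun h1 l') l
    rw [Matrix.mul_apply, Matrix.one_apply] at h2
    calc ∑ k, Φ y k l * conj (Φ y k l') = ∑ k, (Φ y)ᴴ l' k * Φ y k l :=
          Finset.sum_congr rfl fun k _ => by
            rw [Matrix.conjTranspose_apply, Complex.star_def, mul_comm]
      _ = if l = l' then 1 else 0 := by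
          rw [h2]
          by_cases h : l = l'
          · rw [if_pos h, if_pos h.symm]
          · rw [if_neg h, if_neg (Ne.symm h)]
  obtain ⟨J, hJ1, hJ2⟩ := central_inequality (κ := Fin d × Fin d) (DD ℬ (avg σ (Prod.map R R) q) R) σ
    (sqE R) q hq hσinv (DD_le ℬ (avg σ (Prod.map R R) q) R hle)
    (DD_comap ℬ (avg σ (Prod.map R R) q) R hself.inv hinv) hN
    (fun k z => E z.1 k.1 * conj (E z.2 k.2))
    (fun k => ((hE k.1).comp measurable_fst).mul ((hE k.2).comp measurable_snd).conj) C hC0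
    (fun z => by
      have h1 : ∀ k : Fin d × Fin d, ‖E z.1 k.1 * conj (E z.2 k.2)‖ ^ 2 =
          ‖E z.1 k.1‖ ^ 2 * ‖E z.2 k.2‖ ^ 2 := fun k => by
        rw [norm_mul, RCLike.norm_conj, mul_pow]
      simp_rw [h1]
      rw [ci8_sum (fun i => ‖E z.1 i‖ ^ 2) fun j => ‖E z.2 j‖ ^ 2, pow_two C]
      exact mul_le_mul (hC z.1) (hC z.2) (Finset.sum_nonneg fun _ _ => sq_nonneg _) hC0)
    (fun z k l => Φ z.1 k.1 l.1 * conj (Φ z.2 k.2 l.2))
    (fun k l => hpr _ _ (hΦ k.1 l.1) (hΦ k.2 l.2))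
    ⟨1, fun z k l => by
      rw [norm_mul, RCLike.norm_conj]
      exact mul_le_one₀ (ci8_entry _ (hu z.1) k.1 l.1) (norm_nonneg _)
        (ci8_entry _ (hu z.2) k.2 l.2)⟩
    (fun z l l' => by
      have h1 : ∀ k : Fin d × Fin d, Φ z.1 k.1 l.1 * conj (Φ z.2 k.2 l.2) *
          conj (Φ z.1 k.1 l'.1 * conj (Φ z.2 k.2 l'.2)) =
          (Φ z.1 k.1 l.1 * conj (Φ z.1 k.1 l'.1)) * (Φ z.2 k.2 l'.2 * conj (Φ z.2 k.2 l.2)) := by
        intro k
        rw [map_mul, Complex.conj_conj]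
        ring
      simp_rw [h1]
      rw [ci8_sum (fun k => Φ z.1 k l.1 * conj (Φ z.1 k l'.1))
        fun k => Φ z.2 k l'.2 * conj (Φ z.2 k l.2), hu', hu']
      by_cases ha : l.1 = l'.1
      · by_cases hb : l.2 = l'.2
        · rw [if_pos ha, if_pos hb.symm, if_pos (Prod.ext ha hb), mul_one]
        · rw [if_neg (show ¬ l'.2 = l.2 from fun h => hb h.symm),
            if_neg (show ¬ l = l' from fun h => hb (congrArg Prod.snd h)), mul_zero]
      · rw [if_neg ha, if_neg (show ¬ l = l' from fun h => ha (congrArg Prod.fst h)), zero_mul])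
    (by
      have h1 : ∀ᵐ z ∂(avg σ (Prod.map R R) q), E (R z.1) = Φ z.1 *ᵥ E z.1 := by
        have h2 := hrel
        rw [← hself.fst] at h2
        exact ae_of_ae_map measurable_fst.aemeasurable h2
      have h3 : ∀ᵐ z ∂(avg σ (Prod.map R R) q), E (R z.2) = Φ z.2 *ᵥ E z.2 := by
        have h2 := hrel
        rw [← hself.snd] at h2
        exact ae_of_ae_map measurable_snd.aemeasurable h2
      have h4 : ∀ᵐ z ∂(avg σ (Prod.map R R) q), ∀ k : Fin d × Fin d,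
          E (R z.1) k.1 * conj (E (R z.2) k.2) =
          ∑ l : Fin d × Fin d, (Φ z.1 k.1 l.1 * conj (Φ z.2 k.2 l.2)) *
            (E z.1 l.1 * conj (E z.2 l.2)) := by
        filter_upwards [h1, h3] with z h5 h6
        intro k
        rw [h5, h6]
        have h7 : ∀ l : Fin d × Fin d, (Φ z.1 k.1 l.1 * conj (Φ z.2 k.2 l.2)) *
            (E z.1 l.1 * conj (E z.2 l.2)) =
            (Φ z.1 k.1 l.1 * E z.1 l.1) * conj (Φ z.2 k.2 l.2 * E z.2 l.2) := by
          intro l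
          rw [map_mul]
          ring
        simp_rw [h7]
        rw [ci8_sum (fun l => Φ z.1 k.1 l * E z.1 l) fun l => conj (Φ z.2 k.2 l * E z.2 l),
          ← map_sum]
        rfl
      exact h4)
    (fun n k z => ((evr R Φ)^[n] F) z.1 k.1 * conj (((evr R Φ)^[n] G) z.2 k.2))
    (fun n k => hpr _ _ ((evr_rowB ℬ R hinv Φ hΦ hu F hF n).1 k.1)
      ((evr_rowB ℬ R hinv Φ hΦ hu G hG n).1 k.2))
    (fun n => by
      obtain ⟨-, C1, hC1⟩ := evr_rowB ℬ R hinv Φ hΦ hu F hF n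
      obtain ⟨-, C2, hC2⟩ := evr_rowB ℬ R hinv Φ hΦ hu G hG n
      refine ⟨C1 * C2, fun k z => ?_⟩
      rw [norm_mul, RCLike.norm_conj]
      exact mul_le_mul (hC1 _ _) (hC2 _ _) (norm_nonneg _) ((norm_nonneg _).trans (hC1 z.1 k.1)))
    (fun n z l => by
      have h1 : ∀ k : Fin d × Fin d,
          (((evr R Φ)^[n] F) (R z.1) k.1 * conj (((evr R Φ)^[n] G) (R z.2) k.2)) *
            (Φ z.1 k.1 l.1 * conj (Φ z.2 k.2 l.2)) =
          (((evr R Φ)^[n] F) (R z.1) k.1 * Φ z.1 k.1 l.1) *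
            conj (((evr R Φ)^[n] G) (R z.2) k.2 * Φ z.2 k.2 l.2) := by
        intro k
        rw [map_mul]
        ring
      have h2 : ((evr R Φ)^[n + 1] F) z.1 l.1 * conj (((evr R Φ)^[n + 1] G) z.2 l.2) =
          ∑ k : Fin d × Fin d,
          (((evr R Φ)^[n] F) (R z.1) k.1 * conj (((evr R Φ)^[n] G) (R z.2) k.2)) *
            (Φ z.1 k.1 l.1 * conj (Φ z.2 k.2 l.2)) := by
        simp_rw [h1]
        rw [ci8_sum (fun k => ((evr R Φ)^[n] F) (R z.1) k * Φ z.1 k l.1)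
          fun k => conj (((evr R Φ)^[n] G) (R z.2) k * Φ z.2 k l.2), ← map_sum,
          Function.iterate_succ_apply', Function.iterate_succ_apply']
        rfl
      exact h2)
  refine ⟨J, fun n j => ⟨(hJ1 n j).1, fun z => ?_, (hJ1 n j).2.2⟩, fun N hN => ?_⟩
  · refine ((hJ1 n j).2.1 z).trans_eq ?_
    rw [Fintype.card_prod, Fintype.card_fin]
    push_cast
    ring
  · have h2 := hJ2 N hN
    have h3 : ∀ z : Y × Y, ∑ k : Fin d × Fin d, (((evr R Φ)^[0] F) z.1 k.1 *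
        conj (((evr R Φ)^[0] G) z.2 k.2)) * (E z.1 k.1 * conj (E z.2 k.2)) =
        (F z.1 ⬝ᵥ E z.1) * conj (G z.2 ⬝ᵥ E z.2) := by
      intro z
      have h4 : ∀ k : Fin d × Fin d, (((evr R Φ)^[0] F) z.1 k.1 *
          conj (((evr R Φ)^[0] G) z.2 k.2)) * (E z.1 k.1 * conj (E z.2 k.2)) =
          (F z.1 k.1 * E z.1 k.1) * conj (G z.2 k.2 * E z.2 k.2) := by
        intro k
        show (F z.1 k.1 * conj (G z.2 k.2)) * (E z.1 k.1 * conj (E z.2 k.2)) = _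
        rw [map_mul]
        ring
      simp_rw [h4]
      rw [ci8_sum (fun k => F z.1 k * E z.1 k) fun k => conj (G z.2 k * E z.2 k), ← map_sum]
      rfl
    have h5 : ∀ (n j : ℕ) (z : Y × Y), ∑ k : Fin d × Fin d,
        (((evr R Φ)^[n] F) z.1 k.1 * conj (((evr R Φ)^[n] G) z.2 k.2)) *
        conj (((evr R Φ)^[j] F) z.1 k.1 * conj (((evr R Φ)^[j] G) z.2 k.2)) =
        aa R Φ F n j z.1 * conj (aa R Φ G n j z.2) := by
      intro n j z
      have h6 : ∀ k : Fin d × Fin d,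
          (((evr R Φ)^[n] F) z.1 k.1 * conj (((evr R Φ)^[n] G) z.2 k.2)) *
          conj (((evr R Φ)^[j] F) z.1 k.1 * conj (((evr R Φ)^[j] G) z.2 k.2)) =
          (((evr R Φ)^[n] F) z.1 k.1 * conj (((evr R Φ)^[j] F) z.1 k.1)) *
          conj (((evr R Φ)^[n] G) z.2 k.2 * conj (((evr R Φ)^[j] G) z.2 k.2)) := by
        intro k
        simp only [map_mul, Complex.conj_conj]
        ring
      simp_rw [h6]
      rw [ci8_sum (fun k => ((evr R Φ)^[n] F) z.1 k * conj (((evr R Φ)^[j] F) z.1 k))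
        fun k => conj (((evr R Φ)^[n] G) z.2 k * conj (((evr R Φ)^[j] G) z.2 k)), ← map_sum]
      rfl
    simp_rw [h3, h5] at h2
    exact h2

end Pool.Agent.Lib.H82OT
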