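import Pool.Agent.Lib.H82OT.EV1
import Pool.Agent.Lib.H82OT.CI8

/-!
# Project H82OT, chunk EV3: the functions aa
-/

open MeasureTheory Filter Topology Finset ProbabilityTheory
open scoped ENNReal ComplexConjugate Matrix

namespace Pool.Agent.Lib.H82OT

open Pool.Agent.Lib.H22M Pool.Agent.Lib.H82T

private theorem ev3_unit {d : ℕ} (U : Matrix (Fin d) (Fin d) ℂ) (hU : U * Uᴴ = 1) (v : Fin d → ℂ) :
    ∑ i, ‖(v ᵥ* U) i‖ ^ 2 = ∑ i, ‖v i‖ ^ 2 := by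
  have key : ∀ w : Fin d → ℂ, ((∑ i, ‖w i‖ ^ 2 : ℝ) : ℂ) = w ⬝ᵥ star w := by
    intro w
    push_cast
    unfold dotProduct
    refine Finset.sum_congr rfl fun i _ => ?_
    exact (Complex.mul_conj' (w i)).symm
  have h : (v ᵥ* U) ⬝ᵥ star (v ᵥ* U) = v ⬝ᵥ star v := by
    rw [Matrix.star_vecMul, Matrix.dotProduct_mulVec, Matrix.vecMul_vecMul, hU, Matrix.vecMul_one]
  have h2 := (key (v ᵥ* U)).trans (h.trans (key v).symm)
  exact_mod_cast h2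

private theorem ev3_iter {Y : Type*} {d : ℕ} (R : Y → Y) (Φ : Y → Matrix (Fin d) (Fin d) ℂ)
    (hu : ∀ y, Φ y * (Φ y)ᴴ = 1) (T : ℝ) (n : ℕ) : ∀ F : Y → Fin d → ℂ,
    (∀ y, ∑ i, ‖F y i‖ ^ 2 ≤ T ^ 2) → ∀ y, ∑ i, ‖((evr R Φ)^[n] F) y i‖ ^ 2 ≤ T ^ 2 := by
  induction n with
  | zero => intro F hF y; exact hF y
  | succ n ih =>
    intro F hF y
    rw [Function.iterate_succ_apply]
    refine ih (evr R Φ F) (fun z => ?_) y
    have h : ∑ i, ‖(evr R Φ F) z i‖ ^ 2 = ∑ i, ‖F (R z) i‖ ^ 2 := ev3_unit (Φ z) (hu z) (F (R z))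
    rw [h]
    exact hF (R z)

/-- Proof. `‖(evr^n F) y‖ = ‖F (R^n y)‖` in `ℂ^d` (a unitary matrix preserves the norm of rows) and
Cauchy-Schwarz. -/
theorem aa_bound {Y : Type*} {d : ℕ} (R : Y → Y) (Φ : Y → Matrix (Fin d) (Fin d) ℂ)
    (hu : ∀ y, Φ y * (Φ y)ᴴ = 1) (F : Y → Fin d → ℂ) (T : ℝ) (hT0 : 0 ≤ T)
    (hT : ∀ y, ∑ i, ‖F y i‖ ^ 2 ≤ T ^ 2) (n j : ℕ) (y : Y) : ‖aa R Φ F n j y‖ ≤ T ^ 2 := by
  have h1 := ev3_iter R Φ hu T n F hT y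
  have h2 := ev3_iter R Φ hu T j F hT y
  unfold aa dotProduct
  calc ‖∑ i, ((evr R Φ)^[n] F) y i * star (((evr R Φ)^[j] F) y) i‖
      ≤ ∑ i, ‖((evr R Φ)^[n] F) y i * star (((evr R Φ)^[j] F) y) i‖ := norm_sum_le _ _
    _ = ∑ i, ‖((evr R Φ)^[n] F) y i‖ * ‖((evr R Φ)^[j] F) y i‖ := by
        refine Finset.sum_congr rfl fun i _ => ?_
        rw [norm_mul, Pi.star_apply, norm_star]
    _ ≤ ∑ i, (‖((evr R Φ)^[n] F) y i‖ ^ 2 + ‖((evr R Φ)^[j] F) y i‖ ^ 2) / 2 := by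
        refine Finset.sum_le_sum fun i _ => ?_
        nlinarith [sq_nonneg (‖((evr R Φ)^[n] F) y i‖ - ‖((evr R Φ)^[j] F) y i‖)]
    _ = ((∑ i, ‖((evr R Φ)^[n] F) y i‖ ^ 2) + ∑ i, ‖((evr R Φ)^[j] F) y i‖ ^ 2) / 2 := by
        rw [← Finset.sum_div, Finset.sum_add_distrib]
    _ ≤ T ^ 2 := by linarith

/-- Proof. `evr_rowB` (CI8), finite sums of products. -/
theorem aa_meas {Y : Type*} {d : ℕ} (ℬ : MeasurableSpace Y) (R : Y → Y) (hinv : ℬ.comap R = ℬ)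
    (Φ : Y → Matrix (Fin d) (Fin d) ℂ) (hΦ : ∀ i j, Measurable[ℬ] fun y => Φ y i j)
    (hu : ∀ y, Φ y * (Φ y)ᴴ = 1) (F : Y → Fin d → ℂ) (hF : RowB ℬ F) (n j : ℕ) :
    Measurable[ℬ] (aa R Φ F n j) := by
  have hA := evr_rowB ℬ R hinv Φ hΦ hu F hF n
  have hB := evr_rowB ℬ R hinv Φ hΦ hu F hF j
  have h : ∀ i, Measurable[ℬ] fun y => ((evr R Φ)^[n] F) y i * star (((evr R Φ)^[j] F) y i) :=
    fun i => (hA.1 i).mul (Complex.continuous_conj.measurable.comp (hB.1 i))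
  have h2 : Measurable[ℬ] fun y =>
      ∑ i, ((evr R Φ)^[n] F) y i * star (((evr R Φ)^[j] F) y i) :=
    Finset.measurable_sum _ fun i _ => h i
  exact h2

private theorem ev3_rel {Y : Type*} {d : ℕ} [mY : MeasurableSpace Y] {m : Measure Y} {R : Y → Y}
    (hR : MeasurePreserving R m m) {Φ : Y → Matrix (Fin d) (Fin d) ℂ} {E : Y → Fin d → ℂ}
    (hrel : ∀ᵐ y ∂m, E (R y) = Φ y *ᵥ E y) (n : ℕ) : ∀ F : Y → Fin d → ℂ,
    ∀ᵐ y ∂m, F (R^[n] y) ⬝ᵥ E (R^[n] y) = ((evr R Φ)^[n] F) y ⬝ᵥ E y := by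
  induction n with
  | zero => intro F; exact Eventually.of_forall fun y => rfl
  | succ n ih =>
    intro F
    have h1 := ih (evr R Φ F)
    have h2 : ∀ᵐ z ∂m, (evr R Φ F) z ⬝ᵥ E z = F (R z) ⬝ᵥ E (R z) := by
      filter_upwards [hrel] with z hz
      rw [hz, Matrix.dotProduct_mulVec]
      rfl
    have h3 := (hR.iterate n).quasiMeasurePreserving.ae h2
    filter_upwards [h1, h3] with y h1 h3
    rw [Function.iterate_succ_apply' R n y, Function.iterate_succ_apply, ← h1, h3]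

private theorem ev3_gam {Y : Type*} {d : ℕ} [mY : MeasurableSpace Y] {m : Measure Y} {R : Y → Y}
    (hR : MeasurePreserving R m m) {Φ Γ : Y → Matrix (Fin d) (Fin d) ℂ}
    (hu : ∀ y, Φ y * (Φ y)ᴴ = 1) (hrel : ∀ᵐ y ∂m, Γ (R y) = Φ y * Γ y * (Φ y)ᴴ)
    (F : Y → Fin d → ℂ) (hF : ∀ y, F y ᵥ* Γ y = F y) (n : ℕ) :
    ∀ᵐ y ∂m, ((evr R Φ)^[n] F) y ᵥ* Γ y = ((evr R Φ)^[n] F) y := by
  induction n with
  | zero => exact Eventually.of_forall fun y => hF y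
  | succ n ih =>
    have h1 := hR.quasiMeasurePreserving.ae ih
    filter_upwards [h1, hrel] with y h1 h2
    rw [Function.iterate_succ_apply']
    have hu' : (Φ y)ᴴ * Φ y = 1 := mul_eq_one_comm.1 (hu y)
    have h3 : Γ (R y) * Φ y = Φ y * Γ y := by
      rw [h2, Matrix.mul_assoc, hu', Matrix.mul_one]
    change (((evr R Φ)^[n] F) (R y) ᵥ* Φ y) ᵥ* Γ y = ((evr R Φ)^[n] F) (R y) ᵥ* Φ y
    rw [Matrix.vecMul_vecMul, ← h3, ← Matrix.vecMul_vecMul, h1]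

private theorem ev3_pull {Y : Type*} (ℬ : MeasurableSpace Y) [mY : MeasurableSpace Y]
    {m : Measure Y} [IsProbabilityMeasure m] (hle : ℬ ≤ mY) {a g γ : Y → ℂ}
    (ha : Measurable[ℬ] a) (hab : ∃ C : ℝ, ∀ y, ‖a y‖ ≤ C) (hg : BM g)
    (hγ : m[g|ℬ] =ᵐ[m] γ) : m[fun y => a y * g y|ℬ] =ᵐ[m] fun y => a y * γ y := by
  have haB : BM a := ⟨ha.mono hle le_rfl, hab⟩
  have hfs : StronglyMeasurable[ℬ] a := ha.stronglyMeasurable
  have h := condExp_bilin_of_stronglyMeasurable_left (μ := m) (ContinuousLinearMap.mul ℝ ℂ) hfs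
    (haB.mul hg).integrable hg.integrable
  refine EventuallyEq.trans (EventuallyEq.of_eq rfl) (h.trans ?_)
  filter_upwards [hγ] with y hy
  rw [hy]
  rfl

/-- Proof. By induction on `n`, for almost every `y`: `F(R^n y) ⬝ᵥ E(R^n y) = (evr^n F) y ⬝ᵥ E y`
(`hM.rel`; `R` preserves `m`) and `(evr^n F) y ᵥ* Γ y = (evr^n F) y`: from `hM.relΓ`,
`Γ (R y) Φ y = Φ y Γ y Φᴴ Φ = Φ y Γ y`, so `(G(R y) ᵥ* Φ y) ᵥ* Γ y = (G(R y) ᵥ* Γ(R y)) ᵥ* Φ y`. With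
`A = evr^n F`, `B = evr^j F` (bounded, `ℬ`-measurable: `evr_rowB`),
`m[(A ⬝ᵥ E) conj (B ⬝ᵥ E)|ℬ] = ∑_{i,k} A_i conj B_k m[E_i conj E_k|ℬ] = ∑ A_i Γ_ik conj B_k =
(A ᵥ* Γ) ⬝ᵥ star B = A ⬝ᵥ star B` a.e. -/
theorem aa_condExp {Y : Type*} {d : ℕ} (ℬ : MeasurableSpace Y) [mY : MeasurableSpace Y]
    {m : Measure Y} [IsProbabilityMeasure m] (hle : ℬ ≤ mY) {R : Y → Y}
    (hR : MeasurePreserving R m m) (hinv : ℬ.comap R = ℬ)
    {Φ Γ : Y → Matrix (Fin d) (Fin d) ℂ} {E : Y → Fin d → ℂ} (hM : IsMod ℬ m R Φ Γ E)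
    (F : Y → Fin d → ℂ) (hF : RowB ℬ F) (hFΓ : ∀ y, F y ᵥ* Γ y = F y) (n j : ℕ) :
    m[fun y => (F (R^[n] y) ⬝ᵥ E (R^[n] y)) * conj (F (R^[j] y) ⬝ᵥ E (R^[j] y))|ℬ] =ᵐ[m]
      aa R Φ F n j := by
  obtain ⟨hAm, CA, hCA⟩ := evr_rowB ℬ R hinv Φ hM.measΦ hM.unit F hF n
  obtain ⟨hBm, CB, hCB⟩ := evr_rowB ℬ R hinv Φ hM.measΦ hM.unit F hF j
  set A := (evr R Φ)^[n] F with hA
  set B := (evr R Φ)^[j] F with hB
  have hrn := ev3_rel hR hM.rel n F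
  have hrj := ev3_rel hR hM.rel j F
  have hgn := ev3_gam hR hM.unit hM.relΓ F hFΓ n
  have h1 : (fun y => (F (R^[n] y) ⬝ᵥ E (R^[n] y)) * conj (F (R^[j] y) ⬝ᵥ E (R^[j] y))) =ᵐ[m]
      ∑ p : Fin d × Fin d,
        fun y => (A y p.1 * conj (B y p.2)) * (E y p.1 * conj (E y p.2)) := by
    filter_upwards [hrn, hrj] with y hn hj
    rw [hn, hj, Finset.sum_apply, Fintype.sum_prod_type]
    simp only [dotProduct, map_sum, map_mul]
    rw [Finset.sum_mul_sum]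
    refine Finset.sum_congr rfl fun i _ => Finset.sum_congr rfl fun k _ => ?_
    ring
  have hint : ∀ p ∈ (Finset.univ : Finset (Fin d × Fin d)),
      Integrable (fun y => (A y p.1 * conj (B y p.2)) * (E y p.1 * conj (E y p.2))) m := by
    intro p _
    have hBA : BM fun y => A y p.1 := ⟨(hAm p.1).mono hle le_rfl, CA, fun y => hCA y p.1⟩
    have hBB : BM fun y => B y p.2 := ⟨(hBm p.2).mono hle le_rfl, CB, fun y => hCB y p.2⟩
    exact ((hBA.mul hBB.conj).mul ((hM.bmE p.1).mul (hM.bmE p.2).conj)).integrable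
  have hterm : ∀ p : Fin d × Fin d,
      m[fun y => (A y p.1 * conj (B y p.2)) * (E y p.1 * conj (E y p.2))|ℬ] =ᵐ[m]
        fun y => (A y p.1 * conj (B y p.2)) * Γ y p.1 p.2 := by
    intro p
    refine ev3_pull ℬ hle ?_ ?_ ((hM.bmE p.1).mul (hM.bmE p.2).conj) (hM.gram p.1 p.2)
    · exact (hAm p.1).mul (Complex.continuous_conj.measurable.comp (hBm p.2))
    · refine ⟨CA * CB, fun y => ?_⟩
      rw [norm_mul, RCLike.norm_conj]
      exact mul_le_mul (hCA y p.1) (hCB y p.2) (norm_nonneg _)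
        ((norm_nonneg _).trans (hCA y p.1))
  have hall : ∀ᵐ y ∂m, ∀ p : Fin d × Fin d,
      (m[fun y => (A y p.1 * conj (B y p.2)) * (E y p.1 * conj (E y p.2))|ℬ]) y =
        (A y p.1 * conj (B y p.2)) * Γ y p.1 p.2 := ae_all_iff.2 hterm
  refine (condExp_congr_ae h1).trans ((condExp_finsetSum hint ℬ).trans ?_)
  filter_upwards [hall, hgn] with y hy hg
  rw [Finset.sum_apply, Finset.sum_congr rfl fun p _ => hy p, Fintype.sum_prod_type,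
    Finset.sum_comm]
  have h2 : aa R Φ F n j y = (A y ᵥ* Γ y) ⬝ᵥ star (B y) := by
    rw [hg]
    rfl
  rw [h2]
  unfold dotProduct Matrix.vecMul dotProduct
  refine Finset.sum_congr rfl fun k _ => ?_
  rw [Finset.sum_mul]
  refine Finset.sum_congr rfl fun i _ => ?_
  change A y i * conj (B y k) * Γ y i k = A y i * Γ y i k * conj (B y k)
  ring

end Pool.Agent.Lib.H82OT
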