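import Pool.Agent.Lib.H82OT.Defs
import Pool.Agent.Lib.H82T.S1

/-!
# Project H82OT, chunk LT1: elementary facts on l2
-/

open MeasureTheory Filter Topology Finset ProbabilityTheory
open scoped ENNReal ComplexConjugate Matrix

namespace Pool.Agent.Lib.H82OT

open Pool.Agent.Lib.H22M Pool.Agent.Lib.H82T

/-- Proof. `l2 m f = √(∫ ‖f‖²)` is the norm of the class of `f` in `Lp ℂ 2 m` (`MemLp.toLp`,
`BM.memLp`), see `p4_l2` in `H22M/P4.lean`, `H22M/P6.lean` (`p6_l2_sum` has the triangle inequality). -/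
theorem l2_triangle {Y : Type*} [MeasurableSpace Y] (m : Measure Y) [IsFiniteMeasure m]
    (f g h : Y → ℂ) (hf : BM f) (hg : BM g) (hh : BM h) :
    l2 m (fun y => f y - h y) ≤ l2 m (fun y => f y - g y) + l2 m (fun y => g y - h y) := by
  have h1 := Pool.Agent.Lib.H22M.l2_add_le (m := m) (hf.sub hg) (hg.sub hh)
  have e : (fun y => f y - h y) = fun y => (f y - g y) + (g y - h y) := by
    funext y
    ring
  rw [e]
  exact h1

/-- Proof. As `l2_triangle`. -/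
theorem l2_add_le {Y : Type*} [MeasurableSpace Y] (m : Measure Y) [IsFiniteMeasure m]
    (f g : Y → ℂ) (hf : BM f) (hg : BM g) :
    l2 m (fun y => f y + g y) ≤ l2 m f + l2 m g :=
  Pool.Agent.Lib.H22M.l2_add_le hf hg

/-- Proof. `integral_congr_ae`. -/
theorem l2_congr {Y : Type*} [MeasurableSpace Y] (m : Measure Y) (f g : Y → ℂ)
    (h : ∀ᵐ y ∂m, f y = g y) : l2 m f = l2 m g :=
  Pool.Agent.Lib.H22M.l2_congr h

/-- Proof. Cauchy-Schwarz in `L²(m)`: with the classes in `Lp ℂ 2 m`, `norm_inner_le_norm`. -/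
theorem norm_integral_mul_le {Y : Type*} [MeasurableSpace Y] (m : Measure Y) [IsFiniteMeasure m]
    (f g : Y → ℂ) (hf : BM f) (hg : BM g) : ‖∫ y, f y * g y ∂m‖ ≤ l2 m f * l2 m g := by
  have h1 := Pool.Agent.Lib.H22M.norm_integral_mul_conj_le (m := m) hf hg.conj
  have h2 : l2 m (fun y => conj (g y)) = l2 m g := by
    unfold l2
    simp only [RCLike.norm_conj]
  rw [h2] at h1
  simpa only [Complex.conj_conj] using h1

/-- Proof. `Real.sq_sqrt`. -/
theorem l2_sq {Y : Type*} [MeasurableSpace Y] (m : Measure Y) (f : Y → ℂ) :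
    l2 m f ^ 2 = ∫ y, ‖f y‖ ^ 2 ∂m :=
  Pool.Agent.Lib.H22M.l2_sq f

/-- Proof. `conj z * z = ‖z‖²` (`Complex.conj_mul'` or `Complex.mul_conj`), `integral_ofReal`. -/
theorem integral_mul_conj {Y : Type*} [MeasurableSpace Y] (m : Measure Y) (f : Y → ℂ) :
    ∫ y, f y * conj (f y) ∂m = ((l2 m f ^ 2 : ℝ) : ℂ) := by
  rw [l2_sq, ← integral_complex_ofReal]
  refine integral_congr_ae (Eventually.of_forall fun y => ?_)
  simp only
  rw [Complex.mul_conj, Complex.normSq_eq_norm_sq]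

/-- Proof. `‖c f‖² = ‖c‖² ‖f‖²`, `integral_const_mul`, `Real.sqrt_mul`. -/
theorem l2_smul {Y : Type*} [MeasurableSpace Y] (m : Measure Y) (c : ℂ) (f : Y → ℂ) :
    l2 m (fun y => c * f y) = ‖c‖ * l2 m f := by
  unfold l2
  have h1 : (fun y => ‖c * f y‖ ^ 2) = fun y => ‖c‖ ^ 2 * ‖f y‖ ^ 2 := by
    funext y
    rw [norm_mul, mul_pow]
  rw [h1, integral_const_mul, Real.sqrt_mul (by positivity), Real.sqrt_sq (norm_nonneg c)]

/-- Proof. `∫ ‖f‖² ≤ C²`, `Real.sqrt_le_left` or `Real.sqrt_le_sqrt`. -/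
theorem l2_le_of_bound {Y : Type*} [MeasurableSpace Y] (m : Measure Y) [IsProbabilityMeasure m]
    (f : Y → ℂ) (C : ℝ) (hC0 : 0 ≤ C) (hC : ∀ᵐ y ∂m, ‖f y‖ ≤ C) : l2 m f ≤ C :=
  Pool.Agent.Lib.H22M.l2_le_of_bound C hC0 hC

end Pool.Agent.Lib.H82OT
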