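import Pool.Agent.Lib.H82OT.QS1
import Pool.Agent.Lib.H82T.F3

/-!
# Project H82OT, chunk FN5: Moebius disjointness from QS
-/

open MeasureTheory Filter Topology Finset ProbabilityTheory
open scoped ENNReal ComplexConjugate Matrix

namespace Pool.Agent.Lib.H82OT

open Pool.Agent.Lib.H22M Pool.Agent.Lib.H82T

/-- Proof. Let `P0, m0, F0` be as in `QS m R F` for `ε₀`. Given `p` and `Q` with more than `m0` elements, some
`q ∈ Q` is not bad. For a joining `ρ` take `σ` from `exists_relSq` (`H22M/JJ.lean`; used in the same way at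
the end of `tower_bound` in `H82T/F2.lean`): `qf σ (F - ∫ F) = qf σ F ≤ ε₀`, and
`RelSq.join` gives `‖∫ F(z.1) conj F(z.2) dρ‖ ≤ l2 m F * qf σ F ≤ ε₀`. -/
theorem bound_of_QS {Y : Type*} [mY : MeasurableSpace Y] [StandardBorelSpace Y]
    {m : Measure Y} [IsProbabilityMeasure m] (R : Y ≃ᵐ Y) (hR : Ergodic R m)
    (hroot : ∀ c : ℂ, IsEigenvalue m R c → ∀ n : ℕ, 1 ≤ n → c ^ n = 1 → c = 1)
    (F : Y → ℂ) (hF : Measurable F) (hF1 : ∀ y, ‖F y‖ ≤ 1) (hF0 : ∫ y, F y ∂m = 0)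
    (hQ : QS m R F) (ε₀ : ℝ) (hε : 0 < ε₀) :
    ∃ F0 : Finset ℂ, 1 ∉ F0 ∧ ∃ (P0 : Finset ℕ) (m0 : ℕ), ∀ p ∈ goodPrimes m R F0, p ∉ P0 →
      ∀ Q : Finset ℕ, (∀ q ∈ Q, q.Prime ∧ q ≠ p) → m0 < Q.card →
        ∃ q ∈ Q, ∀ ρ : Measure (Y × Y), IsJoin m R p q ρ →
          ‖∫ z, F z.1 * conj (F z.2) ∂ρ‖ ≤ ε₀ := by
  obtain ⟨F0, hF0', P0, m0, h1⟩ := hQ ε₀ hε
  refine ⟨F0, hF0', P0, m0, fun p hp hpP Q hQp hcard => ?_⟩
  have hFBM : BM F := ⟨hF, 1, hF1⟩
  have h2 : ∃ q ∈ Q, ¬ BadQ m R F ε₀ p q := by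
    by_contra hcon
    push Not at hcon
    have h3 := h1 p hp hpP Q fun q hq => ⟨(hQp q hq).1, (hQp q hq).2, hcon q hq⟩
    omega
  obtain ⟨q, hq, hbad⟩ := h2
  refine ⟨q, hq, fun ρ hρ => ?_⟩
  have hpp : p.Prime := hp.1
  have hqp : q.Prime := (hQp q hq).1
  have hcop : p.Coprime q := (Nat.coprime_primes hpp hqp).2 (hQp q hq).2.symm
  obtain ⟨σ, hσ⟩ := exists_relSq R hR p q (ergodic_iterate hR hroot p hpp.one_le) hcop ρ hρ
  have h4 : qf σ F ≤ ε₀ := by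
    by_contra hcon
    refine hbad ⟨ρ, σ, hρ, hσ, ?_⟩
    rw [hF0]
    simp only [sub_zero]
    exact not_le.1 hcon
  calc ‖∫ z, F z.1 * conj (F z.2) ∂ρ‖ ≤ l2 m F * qf σ F := hσ.join F F hFBM hFBM
    _ ≤ 1 * ε₀ :=
        mul_le_mul (Pool.Agent.Lib.H22M.l2_le_of_bound 1 zero_le_one (Eventually.of_forall hF1)) h4
          (qf_nonneg _ _) zero_le_one
    _ = ε₀ := one_mul _

/-- Removing finitely many primes does not change the divergence. -/
private theorem FN5_not_summable_diff (P : Set ℕ) (P0 : Finset ℕ)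
    (h : ¬ Summable (P.indicator fun p : ℕ => 1 / (p : ℝ))) :
    ¬ Summable ((P \ (P0 : Set ℕ)).indicator fun p : ℕ => 1 / (p : ℝ)) := by
  intro h1
  apply h
  refine (summable_congr_cofinite ?_).1 h1
  have h2 : ∀ᶠ p : ℕ in cofinite, p ∉ (P0 : Set ℕ) := P0.finite_toSet.compl_mem_cofinite
  filter_upwards [h2] with p hp
  by_cases hpP : p ∈ P
  · rw [Set.indicator_of_mem (show p ∈ P \ (P0 : Set ℕ) from ⟨hpP, hp⟩), Set.indicator_of_mem hpP]
  · rw [Set.indicator_of_notMem (fun h3 : p ∈ P \ (P0 : Set ℕ) => hpP h3.1),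
      Set.indicator_of_notMem hpP]

/-- Proof. Port of `main` in `H82T/F3.lean` with `bound_of_QS` instead of `tower_bound`; the set of primes is
`goodPrimes m R F0 \ P0` (a divergent sum stays divergent after removing finitely many terms, compare
`not_summable_diff`). -/
theorem main_of_QS {Y : Type*} [mY : MeasurableSpace Y]
    [StandardBorelSpace Y] {m : Measure Y} [IsProbabilityMeasure m]
    (R : Y ≃ᵐ Y) (hR : Ergodic R m) (hD : ManyGoodPrimes m R)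
    (hQ : ∀ F : Y → ℂ, BM F → QS m R F)
    {X : Type*} [MetricSpace X] [CompactSpace X] [MeasurableSpace X] [BorelSpace X]
    (T : X ≃ₜ X) (ν : Measure X) (θ : X → Y) (ψ : Y → X)
    (hmodel : IsUEModel T ν m R θ ψ) (f : C(X, ℂ)) (x : X) :
    Tendsto (fun N : ℕ => (1 / (N : ℂ)) *
      ∑ n ∈ Icc 1 N, f ((⇑T)^[n] x) * (ArithmeticFunction.moebius n : ℂ)) atTop (𝓝 0) := by
  have hergR : Ergodic (⇑R) m := hR
  have hroot : ∀ c : ℂ, IsEigenvalue m R c → ∀ n : ℕ, 1 ≤ n → c ^ n = 1 → c = 1 :=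
    fun c hc n hn h => eq_one_of_root hD c hc n hn h
  have hergn : ∀ n : ℕ, 1 ≤ n → Ergodic ((⇑R)^[n]) m := ergodic_iterate hergR hroot
  have hνp : IsProbabilityMeasure ν := hmodel.prob
  set c₀ : ℂ := ∫ x, f x ∂ν with hc₀
  set L : ℝ := 2 * ‖f‖ + 1 with hL
  have hL0 : 0 < L := by positivity
  have hLC : (L : ℂ) ≠ 0 := by exact_mod_cast hL0.ne'
  set g : C(X, ℂ) := (L : ℂ)⁻¹ • (f - ContinuousMap.const X c₀) with hg
  have hgx : ∀ x, g x = (L : ℂ)⁻¹ * (f x - c₀) := fun x => rfl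
  have hc₀n : ‖c₀‖ ≤ ‖f‖ := by
    have h1 := norm_integral_le_of_norm_le_const (μ := ν) (f := fun x => f x) (C := ‖f‖)
      (Eventually.of_forall fun x => f.norm_coe_le_norm x)
    simpa using h1
  have hg1 : ∀ x, ‖g x‖ ≤ 1 := by
    intro x
    rw [hgx, norm_mul, norm_inv, Complex.norm_real, Real.norm_of_nonneg hL0.le,
      inv_mul_le_iff₀ hL0, mul_one]
    calc ‖f x - c₀‖ ≤ ‖f x‖ + ‖c₀‖ := norm_sub_le _ _
      _ ≤ ‖f‖ + ‖f‖ := add_le_add (f.norm_coe_le_norm x) hc₀n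
      _ ≤ L := by rw [hL]; linarith
  have hF0 : ∫ y, g (ψ y) ∂m = 0 := by
    have h1 : ∫ y, g (ψ y) ∂m = ∫ x, g x ∂ν := by
      rw [← hmodel.map_psi, integral_map hmodel.meas_psi.aemeasurable]
      exact g.continuous.measurable.aestronglyMeasurable
    have hfi : Integrable (fun x => f x) ν :=
      Integrable.of_bound f.continuous.measurable.aestronglyMeasurable ‖f‖
        (Eventually.of_forall fun x => f.norm_coe_le_norm x)
    rw [h1]
    simp_rw [hgx]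
    rw [integral_const_mul, integral_sub hfi (integrable_const _), integral_const]
    simp [hc₀]
  have hgm : Measurable fun y => g (ψ y) := g.continuous.measurable.comp hmodel.meas_psi
  have hmain : Tendsto (fun N : ℕ =>
      (∑ n ∈ Icc 1 N, (ArithmeticFunction.moebius n : ℂ) * g ((⇑T)^[n] x)) / N) atTop (𝓝 0) := by
    apply katai_average (fun n => g ((⇑T)^[n] x)) (fun n => hg1 _)
    intro ε hε
    obtain ⟨F0, h1, P0, m0, hm0⟩ := bound_of_QS R hR hroot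
      (fun y => g (ψ y)) hgm (fun y => hg1 _) hF0
      (hQ _ ⟨hgm, 1, fun y => hg1 _⟩) (ε / 2) (by positivity)
    refine ⟨goodPrimes m R F0 \ (P0 : Set ℕ), fun p hp => hp.1.1,
      FN5_not_summable_diff _ P0 (hD F0 h1), m0, fun p hp Q hQ' hcard => ?_⟩
    obtain ⟨q, hq, hbound⟩ := hm0 p hp.1 (fun h => hp.2 (Finset.mem_coe.2 h)) Q hQ' hcard
    refine ⟨q, hq, ?_⟩
    exact eventually_le_of_join T.continuous hergR.measurable hmodel hergn p q hp.1.1.one_le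
      (hQ' q hq).1.one_le g x (ε / 2) ε (by linarith) hbound
  have h2 := (hmain.const_mul (L : ℂ)).add (moebius_mean.const_mul c₀)
  rw [mul_zero, mul_zero, add_zero] at h2
  refine h2.congr fun N => ?_
  have h3 : ∀ n, f ((⇑T)^[n] x) = (L : ℂ) * g ((⇑T)^[n] x) + c₀ := by
    intro n
    rw [hgx]
    field_simp
    ring
  simp_rw [h3, div_eq_mul_inv, one_mul]
  rw [Finset.sum_mul, Finset.mul_sum, Finset.sum_mul, Finset.mul_sum, Finset.mul_sum,
    ← Finset.sum_add_distrib]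
  refine Finset.sum_congr rfl fun n _ => ?_
  ring

end Pool.Agent.Lib.H82OT
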