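import Pool.Agent.Lib.H82OT.LT1

/-!
# Project H82OT, chunk QS1: the property QS: sums and limits
-/

open MeasureTheory Filter Topology Finset ProbabilityTheory
open scoped ENNReal ComplexConjugate Matrix

namespace Pool.Agent.Lib.H82OT

open Pool.Agent.Lib.H22M Pool.Agent.Lib.H82T

/-- `|∫ f dm| ≤ qf σ f`. Proof. `RelSq.join` with the functions `1` and `conj ∘ f`... more directly:
`join 1 f`: `‖∫ conj (f z.2) dρ‖ ≤ l2 m 1 * qf σ f = qf σ f`, and `∫ conj (f z.2) dρ = conj (∫ f dm)`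
(`IsJoin.snd`, `integral_map`, `integral_conj`). -/
theorem norm_integral_le_qf {Y : Type*} [MeasurableSpace Y] {m : Measure Y}
    [IsProbabilityMeasure m] {R : Y → Y} {p q : ℕ} {ρ σ : Measure (Y × Y)}
    (hρ : IsJoin m R p q ρ) (hσ : RelSq m R p q ρ σ) (f : Y → ℂ) (hf : BM f) :
    ‖∫ y, f y ∂m‖ ≤ qf σ f := by
  have h1 := hσ.join (fun _ => 1) f (BM.const 1) hf
  rw [l2_const, norm_one, one_mul] at h1
  have h2 : ∫ z, (1 : ℂ) * conj (f z.2) ∂ρ = conj (∫ y, f y ∂m) := by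
    have h3 : ∫ y, f y ∂m = ∫ z, f z.2 ∂ρ := by
      conv_lhs => rw [← hρ.snd]
      exact integral_map measurable_snd.aemeasurable hf.1.aestronglyMeasurable
    rw [h3, ← integral_conj]
    refine integral_congr_ae (Eventually.of_forall fun z => ?_)
    exact one_mul _
  rw [h2, RCLike.norm_conj] at h1
  exact h1

/-- Proof. `σ` has marginals `m` (`RelSq.fst`, `RelSq.snd`) and `qf σ f` is defined by the integral of
`f(z.1) conj f(z.2)`, which depends only on the class of `f` modulo `m`-null sets. -/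
theorem qf_congr {Y : Type*} [MeasurableSpace Y] {m : Measure Y} {R : Y → Y} {p q : ℕ}
    {ρ σ : Measure (Y × Y)} (hσ : RelSq m R p q ρ σ) (f f' : Y → ℂ)
    (h : ∀ᵐ y ∂m, f y = f' y) : qf σ f = qf σ f' := by
  have h1 : ∀ᵐ z ∂σ, f z.1 = f' z.1 := by
    have : ∀ᵐ y ∂(σ.map Prod.fst), f y = f' y := by rw [hσ.fst]; exact h
    exact ae_of_ae_map measurable_fst.aemeasurable this
  have h2 : ∀ᵐ z ∂σ, f z.2 = f' z.2 := by
    have : ∀ᵐ y ∂(σ.map Prod.snd), f y = f' y := by rw [hσ.snd]; exact h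
    exact ae_of_ae_map measurable_snd.aemeasurable this
  unfold qf
  rw [integral_congr_ae (g := fun z => f' z.1 * conj (f' z.2)) (by
    filter_upwards [h1, h2] with z hz1 hz2
    rw [hz1, hz2])]

/-- Proof. `∫ (c f)(z.1) conj ((c f)(z.2)) = ‖c‖² ∫ ...`, `Real.sqrt_mul`. -/
theorem qf_smul {Y : Type*} [MeasurableSpace Y] (σ : Measure (Y × Y)) (c : ℂ) (f : Y → ℂ) :
    qf σ (fun y => c * f y) = ‖c‖ * qf σ f := by
  unfold qf
  have h1 : ∫ z, (c * f z.1) * conj (c * f z.2) ∂σ =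
      ((‖c‖ ^ 2 : ℝ) : ℂ) * ∫ z, f z.1 * conj (f z.2) ∂σ := by
    rw [← integral_const_mul]
    refine integral_congr_ae (Eventually.of_forall fun z => ?_)
    change (c * f z.1) * conj (c * f z.2) = ((‖c‖ ^ 2 : ℝ) : ℂ) * (f z.1 * conj (f z.2))
    rw [map_mul, show (c * f z.1) * (conj c * conj (f z.2)) = (c * conj c) * (f z.1 * conj (f z.2)) by
      ring, Complex.mul_conj, Complex.normSq_eq_norm_sq]
  rw [h1, Complex.re_ofReal_mul, Real.sqrt_mul (sq_nonneg _), Real.sqrt_sq (norm_nonneg _)]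

private theorem QS1_sub {Y : Type*} [MeasurableSpace Y] {m : Measure Y} [IsProbabilityMeasure m]
    {R : Y → Y} {p q : ℕ} {ρ σ : Measure (Y × Y)} (hσ : RelSq m R p q ρ σ) (f : Y → ℂ)
    (hf : BM f) (c : ℂ) : qf σ (fun y => f y - c) ≤ qf σ f + ‖c‖ := by
  have h1 := hσ.add f (fun _ => -c) hf (BM.const _)
  have h2 := hσ.le_l2 (fun _ => -c) (BM.const _)
  rw [l2_const, norm_neg] at h2
  simp only [← sub_eq_add_neg] at h1
  linarith

/-- A criterion without subtracting the integral. Proof. `BadQ m R f ε p q` implies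
`ε / 2 < qf σ f` for the same `ρ, σ`: `qf σ (f - ∫ f) ≤ qf σ f + ‖∫ f‖ ≤ 2 qf σ f` (`RelSq.add`,
`qf_smul` or `RelSq.le_l2` for the constant function, `norm_integral_le_qf`). Use the hypothesis for
`ε / 2`. -/
theorem QS_of_qf {Y : Type*} [MeasurableSpace Y] {m : Measure Y} [IsProbabilityMeasure m]
    {R : Y → Y} (f : Y → ℂ) (hf : BM f)
    (h : ∀ ε : ℝ, 0 < ε → ∃ F0 : Finset ℂ, (1 : ℂ) ∉ F0 ∧ ∃ (P0 : Finset ℕ) (m0 : ℕ),
      ∀ p ∈ goodPrimes m R F0, p ∉ P0 → ∀ Q : Finset ℕ,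
        (∀ q ∈ Q, q.Prime ∧ q ≠ p ∧ ∃ ρ σ : Measure (Y × Y), IsJoin m R p q ρ ∧
          RelSq m R p q ρ σ ∧ ε < qf σ f) → Q.card ≤ m0) : QS m R f := by
  intro ε hε
  obtain ⟨F0, hF0, P0, m0, h1⟩ := h (ε / 2) (half_pos hε)
  refine ⟨F0, hF0, P0, m0, fun p hp hpP Q hQ => h1 p hp hpP Q fun q hq => ?_⟩
  obtain ⟨h2, h3, ρ, σ, hρ, hσ, h4⟩ := hQ q hq
  refine ⟨h2, h3, ρ, σ, hρ, hσ, ?_⟩
  have h5 := QS1_sub hσ f hf (∫ x, f x ∂m)
  have h6 := norm_integral_le_qf hρ hσ f hf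
  linarith

/-- Proof. For `ε` use both hypotheses with `ε / 2`: `F0 ∪ F0'`, `P0 ∪ P0'`, `m0 + m0'`. If `q` is bad for
`f + g` and `ε` then for the same `ρ, σ` it is bad for `f` and `ε/2` or for `g` and `ε/2`
(`RelSq.add` for `f - ∫ f`, `g - ∫ g`, `integral_add`); split `Q` (`Finset.filter_card_add_filter_neg_card_eq_card`
or `Finset.card_le_card` of a union of two filters). `goodPrimes` is antitone in the finset. -/
theorem QS.add {Y : Type*} [MeasurableSpace Y] {m : Measure Y} [IsProbabilityMeasure m]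
    {R : Y → Y} (f g : Y → ℂ) (hf : BM f) (hg : BM g) (h : QS m R f) (h' : QS m R g) :
    QS m R (fun y => f y + g y) := by
  classical
  intro ε hε
  obtain ⟨F0, hF0, P0, m0, h1⟩ := h (ε / 2) (half_pos hε)
  obtain ⟨F0', hF0', P0', m0', h1'⟩ := h' (ε / 2) (half_pos hε)
  refine ⟨F0 ∪ F0', ?_, P0 ∪ P0', m0 + m0', fun p hp hpP Q hQ => ?_⟩
  · rw [Finset.mem_union]
    exact fun hh => hh.elim hF0 hF0'
  have hp1 : p ∈ goodPrimes m R F0 := ⟨hp.1, fun c hc => hp.2 c (Finset.mem_union_left _ hc)⟩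
  have hp2 : p ∈ goodPrimes m R F0' := ⟨hp.1, fun c hc => hp.2 c (Finset.mem_union_right _ hc)⟩
  have hq1 : p ∉ P0 := fun hh => hpP (Finset.mem_union_left _ hh)
  have hq2 : p ∉ P0' := fun hh => hpP (Finset.mem_union_right _ hh)
  have c1 := h1 p hp1 hq1 (Q.filter fun q => BadQ m R f (ε / 2) p q) fun q hq => by
    rw [Finset.mem_filter] at hq
    exact ⟨(hQ q hq.1).1, (hQ q hq.1).2.1, hq.2⟩
  have c2 := h1' p hp2 hq2 (Q.filter fun q => BadQ m R g (ε / 2) p q) fun q hq => by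
    rw [Finset.mem_filter] at hq
    exact ⟨(hQ q hq.1).1, (hQ q hq.1).2.1, hq.2⟩
  have hsub : Q ⊆ (Q.filter fun q => BadQ m R f (ε / 2) p q) ∪
      (Q.filter fun q => BadQ m R g (ε / 2) p q) := by
    intro q hq
    obtain ⟨_, _, ρ, σ, hρ, hσ, h4⟩ := hQ q hq
    have hf' : BM (fun y => f y - ∫ x, f x ∂m) := hf.sub (BM.const _)
    have hg' : BM (fun y => g y - ∫ x, g x ∂m) := hg.sub (BM.const _)
    have h5 := hσ.add _ _ hf' hg'
    have h6 : (fun y => f y - ∫ x, f x ∂m + (g y - ∫ x, g x ∂m)) =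
        fun y => f y + g y - ∫ x, (f x + g x) ∂m := by
      funext y
      rw [integral_add hf.integrable hg.integrable]
      ring
    rw [h6] at h5
    rw [Finset.mem_union, Finset.mem_filter, Finset.mem_filter]
    by_cases h7 : ε / 2 < qf σ (fun y => f y - ∫ x, f x ∂m)
    · exact Or.inl ⟨hq, ρ, σ, hρ, hσ, h7⟩
    · exact Or.inr ⟨hq, ρ, σ, hρ, hσ, by linarith⟩
  have c3 := (Finset.card_le_card hsub).trans (Finset.card_union_le _ _)
  omega

private theorem QS1_qf_zero {Y : Type*} [MeasurableSpace Y] (σ : Measure (Y × Y)) :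
    qf σ (fun _ => (0 : ℂ)) = 0 := by
  unfold qf
  simp

private theorem QS1_zero {Y : Type*} [MeasurableSpace Y] {m : Measure Y} {R : Y → Y} :
    QS m R (fun _ => (0 : ℂ)) := by
  intro ε hε
  refine ⟨∅, Finset.notMem_empty _, ∅, 0, fun p _ _ Q hQ => ?_⟩
  rw [Nat.le_zero, Finset.card_eq_zero, Finset.eq_empty_iff_forall_notMem]
  intro q hq
  obtain ⟨_, _, ρ, σ, _, _, h4⟩ := hQ q hq
  simp only [integral_zero, sub_zero] at h4
  rw [QS1_qf_zero] at h4
  linarith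

/-- Proof. `c = 0`: `qf σ 0 = 0`, no bad `q`. `c ≠ 0`: use `ε / ‖c‖`, `qf_smul`,
`integral_const_mul`. -/
theorem QS.smul {Y : Type*} [MeasurableSpace Y] {m : Measure Y} [IsProbabilityMeasure m]
    {R : Y → Y} (c : ℂ) (f : Y → ℂ) (hf : BM f) (h : QS m R f) : QS m R (fun y => c * f y) := by
  by_cases hc : c = 0
  · subst hc
    simp only [zero_mul]
    exact QS1_zero
  intro ε hε
  have hc0 : 0 < ‖c‖ := norm_pos_iff.2 hc
  obtain ⟨F0, hF0, P0, m0, h1⟩ := h (ε / ‖c‖) (div_pos hε hc0)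
  refine ⟨F0, hF0, P0, m0, fun p hp hpP Q hQ => h1 p hp hpP Q fun q hq => ?_⟩
  obtain ⟨h2, h3, ρ, σ, hρ, hσ, h4⟩ := hQ q hq
  refine ⟨h2, h3, ρ, σ, hρ, hσ, ?_⟩
  have h5 : (fun y => c * f y - ∫ x, c * f x ∂m) = fun y => c * (f y - ∫ x, f x ∂m) := by
    funext y
    rw [integral_const_mul, mul_sub]
  rw [h5, qf_smul] at h4
  rw [div_lt_iff₀ hc0, mul_comm]
  exact h4

/-- Proof. Given `ε` take `f'` with `δ = ε / 4` and use `QS m R f'` with `ε / 2`: if `q` is bad for `f`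
and `ε` then `ε < qf σ (f - ∫ f) ≤ qf σ (f' - ∫ f') + l2 m ((f - f') - ∫ (f - f'))`, and the last term is
at most `2 l2 m (f - f') ≤ ε / 2` (`RelSq.add`, `RelSq.le_l2`, `‖∫ h‖ ≤ l2 m h`:
`norm_integral_mul_le` with `g = 1`). -/
theorem QS.approx {Y : Type*} [MeasurableSpace Y] {m : Measure Y} [IsProbabilityMeasure m]
    {R : Y → Y} (f : Y → ℂ) (hf : BM f)
    (h : ∀ δ : ℝ, 0 < δ → ∃ f' : Y → ℂ, BM f' ∧ QS m R f' ∧ l2 m (fun y => f y - f' y) ≤ δ) :
    QS m R f := by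
  intro ε hε
  obtain ⟨f', hf', hQS, hl⟩ := h (ε / 4) (by linarith)
  obtain ⟨F0, hF0, P0, m0, h1⟩ := hQS (ε / 2) (half_pos hε)
  refine ⟨F0, hF0, P0, m0, fun p hp hpP Q hQ => h1 p hp hpP Q fun q hq => ?_⟩
  obtain ⟨h2, h3, ρ, σ, hρ, hσ, h4⟩ := hQ q hq
  refine ⟨h2, h3, ρ, σ, hρ, hσ, ?_⟩
  have hd : BM (fun y => f y - f' y) := hf.sub hf'
  have h5 := hσ.add (fun y => f' y - ∫ x, f' x ∂m) (fun y => (f y - f' y) - ∫ x, (f x - f' x) ∂m)
    (hf'.sub (BM.const _)) (hd.sub (BM.const _))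
  have h6 : (fun y => f' y - ∫ x, f' x ∂m + (f y - f' y - ∫ x, (f x - f' x) ∂m)) =
      fun y => f y - ∫ x, f x ∂m := by
    funext y
    rw [integral_sub hf.integrable hf'.integrable]
    ring
  rw [h6] at h5
  have h7 := QS1_sub hσ (fun y => f y - f' y) hd (∫ x, (f x - f' x) ∂m)
  have h8 := hσ.le_l2 _ hd
  have h9 := norm_integral_le_l2 (m := m) hd
  linarith

/-- Proof. `QS.approx` with `f' = f₀` (`l2 m (f - f₀) = 0`). -/
theorem QS.congr {Y : Type*} [MeasurableSpace Y] {m : Measure Y} [IsProbabilityMeasure m]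
    {R : Y → Y} (f f₀ : Y → ℂ) (hf : BM f) (hf₀ : BM f₀) (h : ∀ᵐ y ∂m, f y = f₀ y)
    (h₀ : QS m R f₀) : QS m R f := by
  refine QS.approx f hf fun δ hδ => ⟨f₀, hf₀, h₀, ?_⟩
  have h1 : l2 m (fun y => f y - f₀ y) = l2 m (fun _ => (0 : ℂ)) := by
    refine l2_congr m _ _ ?_
    filter_upwards [h] with y hy
    rw [hy, sub_self]
  rw [h1, l2_const, norm_zero]
  exact hδ.le

/-- Proof. Induction on the finset with `QS.add`; the empty sum: `QS.smul 0`-like, directly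
`qf σ 0 = 0`. -/
theorem QS.sum {Y ι : Type*} [MeasurableSpace Y] {m : Measure Y} [IsProbabilityMeasure m]
    {R : Y → Y} (s : Finset ι) (f : ι → Y → ℂ) (hf : ∀ i ∈ s, BM (f i))
    (h : ∀ i ∈ s, QS m R (f i)) : QS m R (fun y => ∑ i ∈ s, f i y) := by
  classical
  induction s using Finset.induction_on with
  | empty =>
    simp only [Finset.sum_empty]
    exact QS1_zero
  | insert a s ha ih =>
    simp_rw [Finset.sum_insert ha]
    exact QS.add (f a) (fun y => ∑ i ∈ s, f i y) (hf a (Finset.mem_insert_self _ _))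
      (BM.sum s fun i hi => hf i (Finset.mem_insert_of_mem hi)) (h a (Finset.mem_insert_self _ _))
      (ih (fun i hi => hf i (Finset.mem_insert_of_mem hi)) fun i hi => h i (Finset.mem_insert_of_mem hi))

end Pool.Agent.Lib.H82OT
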