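import Pool.Agent.Lib.H82OT.FN1
import Pool.Agent.Lib.H22M.P6

/-!
# Project H82OT, chunk FN2: approximation by functions of finite type
-/

open MeasureTheory Filter Topology Finset ProbabilityTheory
open scoped ENNReal ComplexConjugate Matrix

namespace Pool.Agent.Lib.H82OT

open Pool.Agent.Lib.H22M Pool.Agent.Lib.H82T

/-- Proof. A bounded measurable function on the compact metric space `M` is approximated in `L²(muM)` by a
continuous one (`MemLp.exists_boundedContinuous_eLpNorm_sub_le`, used in `H22M/P6.lean`), and this one by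
`exists_invariant_subspace` (`H22M/P4.lean`). -/
theorem exists_invariant_approx {K M : Type*} [Group K] [TopologicalSpace K]
    [IsTopologicalGroup K] [CompactSpace K] [T2Space K] [SecondCountableTopology K]
    [MeasurableSpace K] [BorelSpace K]
    [TopologicalSpace M] [CompactSpace M] [T2Space M] [SecondCountableTopology M]
    [MeasurableSpace M] [BorelSpace M]
    [MulAction K M] [ContinuousSMul K M] [MulAction.IsPretransitive K M]
    (muM : Measure M) [IsProbabilityMeasure muM] [SMulInvariantMeasure K M muM]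
    (r : M → ℂ) (hr : BM r) (δ : ℝ) (hδ : 0 < δ) :
    ∃ V : Submodule ℂ C(M, ℂ), FiniteDimensional ℂ V ∧
      (∀ (g : K), ∀ h ∈ V, ∃ h' ∈ V, ∀ u, h' u = h (g • u)) ∧
      ∃ h ∈ V, l2 muM (fun u => r u - h u) ≤ δ := by
  let _ : MetricSpace M := TopologicalSpace.metrizableSpaceMetric M
  have hmem : MemLp r 2 muM := hr.memLp 2
  obtain ⟨g, hg, hgm⟩ := hmem.exists_boundedContinuous_eLpNorm_sub_le (by norm_num)
    (ε := ENNReal.ofReal (δ / 2)) (by simpa using hδ)
  have hgB : BM (g : M → ℂ) := ⟨g.continuous.measurable, ‖g‖, g.norm_coe_le_norm⟩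
  have h1 : l2 muM (fun y => r y - g y) ≤ δ / 2 := by
    have h2 := l2_eq_norm_toLp (hmem.sub hgm)
    have h3 : l2 muM (fun y => r y - g y) = l2 muM (r - (g : M → ℂ)) := rfl
    rw [h3, h2, Lp.norm_toLp]
    exact ENNReal.toReal_le_of_le_ofReal (by positivity) hg
  obtain ⟨V, hfin, hinv, h, hh, hl⟩ :=
    exists_invariant_subspace K muM g.toContinuousMap (δ / 2) (by positivity)
  refine ⟨V, hfin, hinv, h, hh, ?_⟩
  calc l2 muM (fun u => r u - h u)
      ≤ l2 muM (fun y => r y - g y) + l2 muM (fun y => g y - h y) :=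
        l2_triangle muM r g h hr hgB (p6_BM h)
    _ ≤ δ / 2 + δ / 2 := add_le_add h1 hl
    _ = δ := by ring

/-- Proof. Take `n, a, r` from `exists_product_approx` for `δ / 2`; let `C ≥ 1` bound all the `a k`; for
every `k` take `V k, h k` from `exists_invariant_approx` for `r k` and `δ / (2 n C)`-like. `V = ⨆ k, V k` is
finite dimensional and `K`-invariant (`Submodule.finiteDimensional_iSup`; invariance by
`Submodule.iSup_induction`), `exists_ftd` (`H22M/P5.lean`) gives `d, G, D` and coefficients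
`h k = ∑_i x_{k,i} G_i`. Put `F y i = ∑_k a k y * x_{k,i}`. Then `∑_i F y i * G i (v y) =
∑_k a k y * h k (v y)` and the error is at most `δ / 2 + ∑_k C l2 muM (r k - h k) ≤ δ` (`hv`). -/
theorem exists_finite_type {Y K M : Type*} (ℬ : MeasurableSpace Y) [mY : MeasurableSpace Y]
    [Group K] [TopologicalSpace K]
    [IsTopologicalGroup K] [CompactSpace K] [T2Space K] [SecondCountableTopology K]
    [MeasurableSpace K] [BorelSpace K]
    [TopologicalSpace M] [CompactSpace M] [T2Space M] [SecondCountableTopology M]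
    [MeasurableSpace M] [BorelSpace M]
    [MulAction K M] [ContinuousSMul K M] [MulAction.IsPretransitive K M]
    (muM : Measure M) [IsProbabilityMeasure muM] [SMulInvariantMeasure K M muM]
    (m : Measure Y) [IsProbabilityMeasure m] (hle : ℬ ≤ mY) (v : Y → M)
    (hv : MeasurePreserving v m muM) (f : Y → ℂ)
    (hf : Measurable[ℬ ⊔ MeasurableSpace.comap v inferInstance] f)
    (hb : ∃ C : ℝ, ∀ y, ‖f y‖ ≤ C) (δ : ℝ) (hδ : 0 < δ) :
    ∃ (d : ℕ) (G : Fin d → M → ℂ) (D : K → Fin d → Fin d → ℂ) (F : Y → Fin d → ℂ),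
      FTD muM G D ∧ RowB ℬ F ∧ l2 m (fun y => f y - ∑ i, F y i * G i (v y)) ≤ δ := by
  obtain ⟨n, a, r, ha, hr, hap⟩ :=
    exists_product_approx ℬ m hle v hv.measurable f hf hb (δ / 2) (by positivity)
  choose ham Ca hCa using ha
  obtain ⟨C, hC1, hC⟩ : ∃ C : ℝ, 1 ≤ C ∧ ∀ k y, ‖a k y‖ ≤ C := by
    refine ⟨1 + ∑ k, |Ca k|, ?_, fun k y => ?_⟩
    · have : 0 ≤ ∑ k, |Ca k| := Finset.sum_nonneg fun _ _ => abs_nonneg _
      linarith
    · have h2 : |Ca k| ≤ ∑ k, |Ca k| :=
        Finset.single_le_sum (f := fun k => |Ca k|) (fun _ _ => abs_nonneg _) (Finset.mem_univ k)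
      have h3 := hCa k y
      have h4 := le_abs_self (Ca k)
      linarith
  have hCpos : 0 < C := by linarith
  choose V hVfin hVinv h hhV hhl using fun k : Fin n =>
    exists_invariant_approx (K := K) muM (r k) (hr k) (δ / (2 * C * (n + 1))) (by positivity)
  have hfinV : FiniteDimensional ℂ (⨆ j, V j : Submodule ℂ C(M, ℂ)) :=
    Submodule.finiteDimensional_iSup V
  have hinvV : ∀ (g : K), ∀ h ∈ (⨆ j, V j : Submodule ℂ C(M, ℂ)),
      ∃ h' ∈ (⨆ j, V j : Submodule ℂ C(M, ℂ)), ∀ u, h' u = h (g • u) := by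
    intro g h hh
    induction hh using Submodule.iSup_induction' with
    | mem j x hx =>
      obtain ⟨h', hh', hh''⟩ := hVinv j g x hx
      exact ⟨h', Submodule.mem_iSup_of_mem j hh', hh''⟩
    | zero => exact ⟨0, Submodule.zero_mem _, fun u => rfl⟩
    | add x y _ _ hx hy =>
      obtain ⟨x', hx', hx''⟩ := hx
      obtain ⟨y', hy', hy''⟩ := hy
      exact ⟨x' + y', Submodule.add_mem _ hx' hy', fun u => by
        rw [ContinuousMap.add_apply, ContinuousMap.add_apply, hx'', hy'']⟩
  obtain ⟨d, G, D, hFTD, hspan⟩ := exists_ftd K muM (⨆ j, V j) hfinV hinvV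
  choose x hx using fun j => hspan (h j) (Submodule.mem_iSup_of_mem j (hhV j))
  have haB : ∀ k, BM (a k) := fun k => ⟨(ham k).mono hle le_rfl, C, hC k⟩
  have hfB : BM f := ⟨hf.mono (sup_le hle hv.measurable.comap_le) le_rfl, hb⟩
  refine ⟨d, G, D, fun y i => ∑ k, a k y * x k i, hFTD, ⟨fun i => ?_, ?_⟩, ?_⟩
  · exact Finset.measurable_fun_sum _ fun k _ => (ham k).mul_const _
  · refine ⟨∑ i, ∑ k, C * ‖x k i‖, fun y i => ?_⟩
    calc ‖∑ k, a k y * x k i‖ ≤ ∑ k, ‖a k y * x k i‖ := norm_sum_le _ _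
      _ ≤ ∑ k, C * ‖x k i‖ := Finset.sum_le_sum fun k _ => by
          rw [norm_mul]
          exact mul_le_mul_of_nonneg_right (hC k y) (norm_nonneg _)
      _ ≤ ∑ i, ∑ k, C * ‖x k i‖ :=
          Finset.single_le_sum (f := fun i => ∑ k, C * ‖x k i‖)
            (fun i _ => Finset.sum_nonneg fun k _ => mul_nonneg hCpos.le (norm_nonneg _))
            (Finset.mem_univ i)
  have hft : ∀ y : Y, ∑ i, (∑ k, a k y * x k i) * G i (v y) = ∑ k, a k y * h k (v y) := by
    intro y
    simp_rw [hx, Finset.sum_mul, Finset.mul_sum]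
    rw [Finset.sum_comm]
    refine Finset.sum_congr rfl fun j _ => Finset.sum_congr rfl fun i _ => ?_
    ring
  have hrewr : (fun y : Y => f y - ∑ i, (∑ k, a k y * x k i) * G i (v y))
      = fun y => (f y - ∑ k, a k y * r k (v y)) + ∑ k, a k y * (r k (v y) - h k (v y)) := by
    funext y
    rw [hft]
    simp_rw [mul_sub]
    rw [Finset.sum_sub_distrib]
    ring
  have hB1 : BM (fun y : Y => ∑ k, a k y * r k (v y)) :=
    BM.sum _ fun k _ => (haB k).mul ((hr k).comp hv.measurable)
  have hB2 : ∀ k : Fin n, BM (fun y : Y => a k y * (r k (v y) - h k (v y))) := fun k =>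
    (haB k).mul (((hr k).sub (p6_BM (h k))).comp hv.measurable)
  have h5 : ∀ k : Fin n, l2 m (fun y => a k y * (r k (v y) - h k (v y)))
      ≤ C * (δ / (2 * C * (n + 1))) := by
    intro k
    have hd : BM (fun u => r k u - h k u) := (hr k).sub (p6_BM (h k))
    have h6 : l2 m (fun y => a k y * (r k (v y) - h k (v y)))
        ≤ l2 m (fun y => (C : ℂ) * (r k (v y) - h k (v y))) := by
      apply p6_l2_mono
      · exact (BM.const _).mul (hd.comp hv.measurable)
      · intro y
        rw [norm_mul, norm_mul, Complex.norm_real, Real.norm_of_nonneg hCpos.le]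
        exact mul_le_mul_of_nonneg_right (hC k y) (norm_nonneg _)
    have h7 : l2 m (fun y => r k (v y) - h k (v y)) = l2 muM (fun u => r k u - h k u) := by
      have h8 := l2_map (ρ := m) hv.measurable hd.1
      rw [hv.map_eq] at h8
      exact h8.symm
    rw [p6_l2_const_mul C hCpos.le, h7] at h6
    exact h6.trans (mul_le_mul_of_nonneg_left (hhl k) hCpos.le)
  have h9 : l2 m (fun y => ∑ k, a k y * (r k (v y) - h k (v y))) ≤ δ / 2 := by
    calc l2 m (fun y => ∑ k, a k y * (r k (v y) - h k (v y)))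
        ≤ ∑ k, l2 m (fun y => a k y * (r k (v y) - h k (v y))) :=
          p6_l2_sum Finset.univ _ hB2
      _ ≤ ∑ _k : Fin n, C * (δ / (2 * C * (n + 1))) := Finset.sum_le_sum fun k _ => h5 k
      _ = n * (C * (δ / (2 * C * (n + 1)))) := by simp
      _ = (n / (n + 1)) * (δ / 2) := by field_simp
      _ ≤ 1 * (δ / 2) := by
          gcongr
          rw [div_le_one (by positivity)]
          linarith
      _ = δ / 2 := one_mul _
  rw [hrewr]
  calc l2 m (fun y => (f y - ∑ k, a k y * r k (v y)) + ∑ k, a k y * (r k (v y) - h k (v y)))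
      ≤ l2 m (fun y => f y - ∑ k, a k y * r k (v y)) + l2 m
        (fun y => ∑ k, a k y * (r k (v y) - h k (v y))) :=
        Pool.Agent.Lib.H22M.l2_add_le (hfB.sub hB1) (BM.sum _ fun j _ => hB2 j)
    _ ≤ δ / 2 + δ / 2 := add_le_add hap h9
    _ = δ := by ring

end Pool.Agent.Lib.H82OT
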