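import Pool.Agent.Lib.H82OT.KP1
import Pool.Agent.Lib.H22M.SQ
import Pool.Agent.Lib.H22M.CE

/-!
# Project H82OT, chunk KP2: the measure mh: marginals, invariance, diagonal
-/

open MeasureTheory Filter Topology Finset ProbabilityTheory
open scoped ENNReal ComplexConjugate Matrix

namespace Pool.Agent.Lib.H82OT

open Pool.Agent.Lib.H22M Pool.Agent.Lib.H82T

variable {Y : Type*} {𝒵 : MeasurableSpace Y} [mY : MeasurableSpace Y] [StandardBorelSpace Y]

/-- Proof. `Measure.fst_compProd` (`mh = m ⊗ₘ kernel`, `Measure.fst`). -/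
theorem mh_fst (m : Measure Y) [IsProbabilityMeasure m] (h𝒵 : 𝒵 ≤ mY) :
    (mh m h𝒵).map Prod.fst = m := by
  unfold mh
  exact Measure.fst_compProd _ _

/-- Proof. For measurable `A`: `∫ 1 * 1_A(z.2) dmh = ∫ m[1_A|𝒵] dm = m A` (`integral_mh_mul`,
`integral_condExp`); compare the measures on measurable sets. -/
theorem mh_snd (m : Measure Y) [IsProbabilityMeasure m] (h𝒵 : 𝒵 ≤ mY) :
    (mh m h𝒵).map Prod.snd = m := by
  refine Measure.ext fun A hA => ?_
  rw [Measure.map_apply measurable_snd hA]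
  have hb : BM (A.indicator (fun _ : Y => (1 : ℂ))) := sq_bm_indicator hA
  have h1 := integral_mh_mul m h𝒵 (fun _ => 1) (A.indicator fun _ => 1) (BM.const 1) hb
  have e1 : (fun z : Y × Y => (1 : ℂ) * A.indicator (fun _ => (1 : ℂ)) z.2) =
      (Prod.snd ⁻¹' A).indicator (fun _ => (1 : ℂ)) := by
    funext z
    rw [one_mul]
    rfl
  have e2 : (fun y : Y => (1 : ℂ) * (m[A.indicator fun _ => (1 : ℂ)|𝒵]) y) =
      m[A.indicator fun _ => (1 : ℂ)|𝒵] := by
    funext y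
    rw [one_mul]
  rw [e1, e2, integral_condExp h𝒵, integral_indicator hA,
    integral_indicator (measurable_snd hA)] at h1
  have h2 : ((mh m h𝒵 (Prod.snd ⁻¹' A)).toReal : ℂ) = ((m A).toReal : ℂ) := by
    simpa [Measure.real] using h1
  have h3 : (mh m h𝒵 (Prod.snd ⁻¹' A)).toReal = (m A).toReal := by exact_mod_cast h2
  exact (ENNReal.toReal_eq_toReal_iff' (measure_ne_top _ _) (measure_ne_top _ _)).1 h3

/-- Proof. Compare `(mh m h𝒵).map (Prod.map R R)` and `mh m h𝒵` by `prod_ext_of_BM` (`H22M/SQ.lean`):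
for bounded measurable `f, g`: `∫ f(R z.1) g(R z.2) dmh = ∫ f(R y) m[g ∘ R|𝒵](y) dm`
(`integral_mh_mul`) `= ∫ f(R y) m[g|𝒵](R y) dm` (`condExp_comp_equiv` in `H22M/CE.lean`; `𝒵` is invariant
under `R` and `R.symm` by `hinv`) `= ∫ f m[g|𝒵] dm` as `R` preserves `m`. -/
theorem mh_inv (m : Measure Y) [IsProbabilityMeasure m] (h𝒵 : 𝒵 ≤ mY) (R : Y ≃ᵐ Y)
    (hR : MeasurePreserving R m m) (hinv : 𝒵.comap R = 𝒵) :
    MeasurePreserving (Prod.map R R) (mh m h𝒵) (mh m h𝒵) := by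
  have hm : Measurable (Prod.map R R) := R.measurable.prodMap R.measurable
  refine ⟨hm, ?_⟩
  have hP : IsProbabilityMeasure ((mh m h𝒵).map (Prod.map R R)) :=
    Measure.isProbabilityMeasure_map hm.aemeasurable
  have h1 : ∀ s, MeasurableSet[𝒵] s → MeasurableSet[𝒵] (R ⁻¹' s) := by
    intro s hs
    have h2 : MeasurableSet[𝒵.comap R] (R ⁻¹' s) := ⟨s, hs, rfl⟩
    rwa [hinv] at h2
  have h2 : ∀ s, MeasurableSet[𝒵] s → MeasurableSet[𝒵] (R.symm ⁻¹' s) := by
    intro s hs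
    rw [← hinv] at hs
    obtain ⟨t, ht, rfl⟩ := hs
    have h3 : R.symm ⁻¹' (R ⁻¹' t) = t := by
      rw [← Set.preimage_comp]
      simp
    rw [h3]
    exact ht
  refine prod_ext_of_BM _ _ fun f g hf hg => ?_
  have hfg : BM (fun z : Y × Y => f z.1 * g z.2) :=
    (hf.comp measurable_fst).mul (hg.comp measurable_snd)
  rw [integral_map hm.aemeasurable hfg.1.aestronglyMeasurable]
  have e1 := integral_mh_mul m h𝒵 (fun y => f (R y)) (fun y => g (R y)) (hf.comp R.measurable)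
    (hg.comp R.measurable)
  have e2 := integral_mh_mul m h𝒵 f g hf hg
  have e3 := condExp_comp_equiv 𝒵 m h𝒵 R hR h1 h2 g hg.integrable
  rw [e2]
  change ∫ z, f (R z.1) * g (R z.2) ∂(mh m h𝒵) = _
  rw [e1]
  have e4 : ∫ y, f (R y) * (m[fun y => g (R y)|𝒵]) y ∂m =
      ∫ y, f (R y) * (m[g|𝒵]) (R y) ∂m := by
    refine integral_congr_ae ?_
    filter_upwards [e3] with y hy
    rw [hy]
  rw [e4]
  exact hR.integral_comp R.measurableEmbedding (fun y => f y * (m[g|𝒵]) y)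

/-- Proof. `∫ |χ(z.1) - χ(z.2)|² dmh = ∫ |χ|² + ∫ |χ|² - 2 re ∫ χ(z.1) conj χ(z.2) dmh = 0`, since
`∫ χ(z.1) conj (χ z.2) dmh = ∫ χ m[conj χ|𝒵] dm = ∫ |χ|² dm` (`integral_mh_mul`,
`condExp_of_stronglyMeasurable`), with the marginals `mh_fst`, `mh_snd`; then
`integral_eq_zero_iff_of_nonneg`. -/
theorem mh_diag (m : Measure Y) [IsProbabilityMeasure m] (h𝒵 : 𝒵 ≤ mY) (χ : Y → ℂ)
    (hχ : Measurable[𝒵] χ) (hb : ∃ C : ℝ, ∀ y, ‖χ y‖ ≤ C) :
    ∀ᵐ z ∂(mh m h𝒵), χ z.1 = χ z.2 := by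
  have hχm : Measurable χ := hχ.mono h𝒵 le_rfl
  have hB : BM χ := ⟨hχm, hb⟩
  have hBc : BM (fun y => conj (χ y)) := hB.conj
  have hBB : BM (fun y => χ y * conj (χ y)) := hB.mul hBc
  set I : ℂ := ∫ y, χ y * conj (χ y) ∂m with hI
  have hsm : StronglyMeasurable[𝒵] χ := hχ.stronglyMeasurable
  have hsmc : StronglyMeasurable[𝒵] (fun y => conj (χ y)) :=
    (Complex.continuous_conj.measurable.comp hχ).stronglyMeasurable
  -- the four integrals
  have i1 : ∫ z, χ z.1 * conj (χ z.1) ∂(mh m h𝒵) = I := by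
    have h := integral_map (μ := mh m h𝒵) (φ := Prod.fst) measurable_fst.aemeasurable
      (f := fun y => χ y * conj (χ y)) hBB.1.aestronglyMeasurable
    rw [mh_fst] at h
    exact h.symm
  have i2 : ∫ z, χ z.2 * conj (χ z.2) ∂(mh m h𝒵) = I := by
    have h := integral_map (μ := mh m h𝒵) (φ := Prod.snd) measurable_snd.aemeasurable
      (f := fun y => χ y * conj (χ y)) hBB.1.aestronglyMeasurable
    rw [mh_snd] at h
    exact h.symm
  have i3 : ∫ z, χ z.1 * conj (χ z.2) ∂(mh m h𝒵) = I := by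
    rw [integral_mh_mul m h𝒵 χ (fun y => conj (χ y)) hB hBc,
      condExp_of_stronglyMeasurable h𝒵 hsmc hBc.integrable]
  have i4 : ∫ z, conj (χ z.1) * χ z.2 ∂(mh m h𝒵) = I := by
    rw [integral_mh_mul m h𝒵 (fun y => conj (χ y)) χ hBc hB,
      condExp_of_stronglyMeasurable h𝒵 hsm hB.integrable, hI]
    refine integral_congr_ae (Eventually.of_forall fun y => ?_)
    exact mul_comm _ _
  have b1 : BM (fun z : Y × Y => χ z.1 * conj (χ z.1)) := hBB.comp measurable_fst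
  have b2 : BM (fun z : Y × Y => χ z.2 * conj (χ z.2)) := hBB.comp measurable_snd
  have b3 : BM (fun z : Y × Y => χ z.1 * conj (χ z.2)) :=
    (hB.comp measurable_fst).mul (hBc.comp measurable_snd)
  have b4 : BM (fun z : Y × Y => conj (χ z.1) * χ z.2) :=
    (hBc.comp measurable_fst).mul (hB.comp measurable_snd)
  have hF : BM (fun z : Y × Y => χ z.1 - χ z.2) :=
    (hB.comp measurable_fst).sub (hB.comp measurable_snd)
  have hkey : ∫ z, (((‖χ z.1 - χ z.2‖ ^ 2 : ℝ)) : ℂ) ∂(mh m h𝒵) = 0 := by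
    have e : ∀ z : Y × Y, (((‖χ z.1 - χ z.2‖ ^ 2 : ℝ)) : ℂ) =
        (χ z.1 * conj (χ z.1) + χ z.2 * conj (χ z.2)) -
          (χ z.1 * conj (χ z.2) + conj (χ z.1) * χ z.2) := by
      intro z
      rw [Complex.ofReal_pow, ← Complex.mul_conj' (χ z.1 - χ z.2), map_sub]
      ring
    rw [integral_congr_ae (Eventually.of_forall e), integral_sub (b1.add b2).integrable
      (b3.add b4).integrable, integral_add b1.integrable b2.integrable,
      integral_add b3.integrable b4.integrable, i1, i2, i3, i4, sub_self]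
  have hkey2 : ∫ z, ‖χ z.1 - χ z.2‖ ^ 2 ∂(mh m h𝒵) = 0 := by
    have h := integral_complex_ofReal (f := fun z : Y × Y => ‖χ z.1 - χ z.2‖ ^ 2)
      (μ := mh m h𝒵)
    have h' := h.symm.trans hkey
    exact_mod_cast h'
  have hint : Integrable (fun z : Y × Y => ‖χ z.1 - χ z.2‖ ^ 2) (mh m h𝒵) := by
    obtain ⟨hFm, C, hC⟩ := hF
    refine Integrable.of_bound (hFm.norm.pow_const 2).aestronglyMeasurable (C ^ 2)
      (Eventually.of_forall fun z => ?_)
    rw [Real.norm_eq_abs, abs_of_nonneg (by positivity)]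
    exact pow_le_pow_left₀ (norm_nonneg _) (hC z) 2
  have h0 := (integral_eq_zero_iff_of_nonneg (fun z => by positivity) hint).1 hkey2
  filter_upwards [h0] with z hz
  have h1 : ‖χ z.1 - χ z.2‖ ^ 2 = 0 := hz
  have h2 : ‖χ z.1 - χ z.2‖ = 0 := pow_eq_zero_iff (two_ne_zero) |>.1 h1
  exact sub_eq_zero.1 (norm_eq_zero.1 h2)

end Pool.Agent.Lib.H82OT
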