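import Pool.Agent.Lib.H82OT.KP3
import Pool.Agent.Lib.H82OT.KP2

/-!
# Project H82OT, chunk KP5: Kop, the map R and multiplication
-/

open MeasureTheory Filter Topology Finset ProbabilityTheory
open scoped ENNReal ComplexConjugate Matrix

namespace Pool.Agent.Lib.H82OT

open Pool.Agent.Lib.H22M Pool.Agent.Lib.H82T

variable {Y : Type*} {𝒵 : MeasurableSpace Y} [mY : MeasurableSpace Y] [StandardBorelSpace Y]

/-- Two bounded measurable functions with the same integrals against all bounded measurable functions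
agree almost everywhere. Proof. Take `g = conj (f - f')`: `∫ |f - f'|² dm = 0`. -/
theorem ae_eq_of_pair (m : Measure Y) [IsProbabilityMeasure m] (f f' : Y → ℂ) (hf : BM f)
    (hf' : BM f') (h : ∀ g : Y → ℂ, BM g → ∫ y, g y * f y ∂m = ∫ y, g y * f' y ∂m) :
    ∀ᵐ y ∂m, f y = f' y := by
  have h1 := h (fun y => conj (f y - f' y)) (hf.sub hf').conj
  have h2 : ∫ y, ‖f y - f' y‖ ^ 2 ∂m = 0 := by
    have h3 : ∫ y, (conj (f y - f' y) * f y - conj (f y - f' y) * f' y) ∂m = 0 := by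
      rw [integral_sub, h1, sub_self]
      · exact ((hf.sub hf').conj.mul hf).integrable
      · exact ((hf.sub hf').conj.mul hf').integrable
    have h4 : ∫ y, ((‖f y - f' y‖ ^ 2 : ℝ) : ℂ) ∂m = 0 := by
      rw [← h3]
      refine integral_congr_ae (Eventually.of_forall fun y => ?_)
      dsimp only
      rw [← mul_sub, ← Complex.normSq_eq_norm_sq, ← Complex.normSq_eq_conj_mul_self]
    have h5 : ((∫ y, ‖f y - f' y‖ ^ 2 ∂m : ℝ) : ℂ) = ∫ y, ((‖f y - f' y‖ ^ 2 : ℝ) : ℂ) ∂m :=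
      integral_ofReal.symm
    rw [h4] at h5
    exact_mod_cast h5
  have hint : Integrable (fun y => ‖f y - f' y‖ ^ 2) m := by
    obtain ⟨h3, D, hD⟩ := hf.sub hf'
    refine Integrable.of_bound (h3.norm.pow_const 2).aestronglyMeasurable (D ^ 2)
      (Eventually.of_forall fun z => ?_)
    rw [Real.norm_of_nonneg (by positivity)]
    exact pow_le_pow_left₀ (norm_nonneg _) (hD z) 2
  rw [integral_eq_zero_iff_of_nonneg (fun y => by positivity) hint] at h2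
  filter_upwards [h2] with y hy
  have h5 : ‖f y - f' y‖ ^ 2 = 0 := hy
  exact sub_eq_zero.1 (norm_eq_zero.1 (pow_eq_zero_iff (two_ne_zero)|>.1 h5))

/-- Proof. `ae_eq_of_pair`: for bounded `g`, with `g' = g ∘ R.symm`, so `g = g' ∘ R`:
`∫ g (Kop K h)(R y) dm = ∫ g' Kop K h dm = ∫ g'(z.1) K(z) h(z.2) dmh` (`integral_Kop`)
`= ∫ g'(R z.1) K(R z.1, R z.2) h(R z.2) dmh` (`mh_inv`) `= ∫ g(z.1) K(z) h(R z.2) dmh`
(invariance of `K`) `= ∫ g Kop K (h ∘ R) dm`. -/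
theorem Kop_comp (m : Measure Y) [IsProbabilityMeasure m] (h𝒵 : 𝒵 ≤ mY) (R : Y ≃ᵐ Y)
    (hR : MeasurePreserving R m m) (hinv : 𝒵.comap R = 𝒵) (K : Y × Y → ℂ)
    (hK : IsKer m h𝒵 R K) (h : Y → ℂ) (hh : BM h) :
    ∀ᵐ y ∂m, Kop m h𝒵 K h (R y) = Kop m h𝒵 K (fun x => h (R x)) y := by
  have hR' : Measurable R := R.measurable
  have hhR : BM fun x => h (R x) := hh.comp hR'
  refine ae_eq_of_pair m _ _ ((Kop_BM m h𝒵 K h hK.1 hh).comp hR') (Kop_BM m h𝒵 K _ hK.1 hhR) ?_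
  intro g hg
  have hg' : BM fun y => g (R.symm y) := hg.comp R.symm.measurable
  have e1 : ∫ y, g y * Kop m h𝒵 K h (R y) ∂m = ∫ y, g (R.symm y) * Kop m h𝒵 K h y ∂m := by
    rw [← hR.integral_comp' (fun y => g (R.symm y) * Kop m h𝒵 K h y)]
    simp only [MeasurableEquiv.symm_apply_apply]
  rw [e1, integral_Kop m h𝒵 K h _ hK.1 hh hg', integral_Kop m h𝒵 K _ g hK.1 hhR hg]
  have hinvm := mh_inv m h𝒵 R hR hinv
  have hF : BM fun z : Y × Y => g (R.symm z.1) * (K z * h z.2) :=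
    (hg'.comp measurable_fst).mul (hK.1.mul (hh.comp measurable_snd))
  have e2 : ∫ z, g (R.symm z.1) * (K z * h z.2) ∂(mh m h𝒵) =
      ∫ z, g (R.symm (Prod.map R R z).1) * (K (Prod.map R R z) * h (Prod.map R R z).2)
        ∂(mh m h𝒵) := by
    conv_lhs => rw [← hinvm.map_eq]
    exact integral_map hinvm.measurable.aemeasurable hF.1.aestronglyMeasurable
  rw [e2]
  refine integral_congr_ae ?_
  filter_upwards [hK.2] with z hz
  rw [hz]
  simp only [Prod.map_fst, Prod.map_snd, MeasurableEquiv.symm_apply_apply]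

/-- Proof. `ae_eq_of_pair` and `integral_Kop`, `mh_diag`:
`∫ g Kop K (χ h) dm = ∫ g(z.1) K(z) χ(z.2) h(z.2) dmh = ∫ g(z.1) χ(z.1) K(z) h(z.2) dmh`. -/
theorem Kop_mul (m : Measure Y) [IsProbabilityMeasure m] (h𝒵 : 𝒵 ≤ mY) (K : Y × Y → ℂ)
    (hK : BM K) (h : Y → ℂ) (hh : BM h) (χ : Y → ℂ) (hχ : Measurable[𝒵] χ)
    (hb : ∃ C : ℝ, ∀ y, ‖χ y‖ ≤ C) :
    ∀ᵐ y ∂m, Kop m h𝒵 K (fun x => χ x * h x) y = χ y * Kop m h𝒵 K h y := by
  have hχ' : BM χ := ⟨hχ.mono h𝒵 le_rfl, hb⟩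
  refine ae_eq_of_pair m _ _ (Kop_BM m h𝒵 K _ hK (hχ'.mul hh)) (hχ'.mul (Kop_BM m h𝒵 K h hK hh)) ?_
  intro g hg
  rw [integral_Kop m h𝒵 K _ g hK (hχ'.mul hh) hg]
  have e1 : ∫ y, g y * (χ y * Kop m h𝒵 K h y) ∂m = ∫ y, (g y * χ y) * Kop m h𝒵 K h y ∂m := by
    refine integral_congr_ae (Eventually.of_forall fun y => ?_)
    dsimp only
    rw [mul_assoc]
  rw [e1, integral_Kop m h𝒵 K h _ hK hh (hg.mul hχ')]
  refine integral_congr_ae ?_
  filter_upwards [mh_diag m h𝒵 χ hχ hb] with z hz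
  rw [hz]
  ring

/-- An eigenfunction is mapped to an eigenfunction. Proof. `Kop_comp` and `e ∘ R = c e` a.e. (use
`integral_Kop`/`ae_eq_of_pair` to replace `e ∘ R` by `c e`: `mh_snd`), `Kop_add_smul` with `c' = 0`. -/
theorem Kop_eigen (m : Measure Y) [IsProbabilityMeasure m] (h𝒵 : 𝒵 ≤ mY) (R : Y ≃ᵐ Y)
    (hR : MeasurePreserving R m m) (hinv : 𝒵.comap R = 𝒵) (K : Y × Y → ℂ)
    (hK : IsKer m h𝒵 R K) (e : Y → ℂ) (he : BM e) (c : ℂ) (hc : ∀ᵐ y ∂m, e (R y) = c * e y) :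
    ∀ᵐ y ∂m, Kop m h𝒵 K e (R y) = c * Kop m h𝒵 K e y := by
  have hR' : Measurable R := R.measurable
  have heR : BM fun x => e (R x) := he.comp hR'
  have h1 := Kop_comp m h𝒵 R hR hinv K hK e he
  have h2 : ∀ᵐ y ∂m, Kop m h𝒵 K (fun x => e (R x)) y = c * Kop m h𝒵 K e y := by
    refine ae_eq_of_pair m _ _ (Kop_BM m h𝒵 K _ hK.1 heR)
      ((BM.const c).mul (Kop_BM m h𝒵 K e hK.1 he)) ?_
    intro g hg
    rw [integral_Kop m h𝒵 K _ g hK.1 heR hg]
    have e1 : ∫ y, g y * (c * Kop m h𝒵 K e y) ∂m = c * ∫ y, g y * Kop m h𝒵 K e y ∂m := by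
      rw [← integral_const_mul]
      refine integral_congr_ae (Eventually.of_forall fun y => ?_)
      dsimp only
      ring
    rw [e1, integral_Kop m h𝒵 K e g hK.1 he hg, ← integral_const_mul]
    have h3 : ∀ᵐ z ∂(mh m h𝒵), e (R z.2) = c * e z.2 := by
      rw [← mh_snd m h𝒵] at hc
      exact ae_of_ae_map measurable_snd.aemeasurable hc
    refine integral_congr_ae ?_
    filter_upwards [h3] with z hz
    rw [hz]
    ring
  filter_upwards [h1, h2] with y hy1 hy2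
  rw [hy1, hy2]

end Pool.Agent.Lib.H82OT
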