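import Pool.Agent.Lib.H82OT.Defs
import Pool.Agent.Lib.H82T.DG
import Pool.Agent.Lib.H82T.S1B

/-!
# Project H82OT, chunk WN1: functions orthogonal to the eigenfunctions have small correlations
-/

open MeasureTheory Filter Topology Finset ProbabilityTheory
open scoped ENNReal ComplexConjugate Matrix

namespace Pool.Agent.Lib.H82OT

open Pool.Agent.Lib.H22M Pool.Agent.Lib.H82T

/-- Proof. `H = Lp ℂ 2 m`, `U` = composition with `R` (`Lp.compMeasurePreservingₗᵢ`), `x` the class of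
`a`. If `U w = c • w` then `⟪w, x⟫ = 0`: for `w = 0` clear; otherwise `‖c‖ = 1` and `w` is almost
everywhere equal to a bounded eigenfunction (`norm_const_of_eigen` in `H22M/EG.lean`, used in the same way
in the proof of `exists_uncorrelated` in `H82T/DG.lean`), so `ha` applies. By `wiener_aux`
(`H22M/W2.lean`) with `δ² / 4` and `dg_double` (`H82T/DG.lean`) the double sum of the
`‖⟪U^j x, U^n x⟫‖` is at most `δ N²`; these are the absolute values of the integrals (`dg_iter`,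
`L2.inner_def`). The end of the proof of `exists_uncorrelated` is the model. -/
theorem exists_small_corr {Y : Type*} [MeasurableSpace Y] {m : Measure Y}
    [IsProbabilityMeasure m] {R : Y → Y} (hR : Ergodic R m) (a : Y → ℂ) (ha : BM a)
    (ho : ∀ (e : Y → ℂ) (l : ℂ), BM e → (∀ᵐ y ∂m, e (R y) = l * e y) →
      ∫ y, a y * conj (e y) ∂m = 0) (δ : ℝ) (hδ : 0 < δ) :
    ∃ N : ℕ, 1 ≤ N ∧ ∑ n ∈ range N, ∑ j ∈ range N,
      ‖∫ y, a (R^[n] y) * conj (a (R^[j] y)) ∂m‖ ≤ δ * (N : ℝ) ^ 2 := by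
  classical
  obtain ⟨ham, C, hC⟩ := ha
  have hMP := hR.toMeasurePreserving
  set U : Lp ℂ 2 m →ₗᵢ[ℂ] Lp ℂ 2 m := Lp.compMeasurePreservingₗᵢ ℂ R hMP with hU
  have ha0 : MemLp a 2 m :=
    MemLp.of_bound ham.aestronglyMeasurable C (Eventually.of_forall hC)
  set x : Lp ℂ 2 m := ha0.toLp _ with hx
  have hxa : x =ᵐ[m] a := ha0.coeFn_toLp
  have hUc : ∀ z : Lp ℂ 2 m, (U z : Y → ℂ) =ᵐ[m] fun y => (z : Y → ℂ) (R y) := fun z =>
    Lp.coeFn_compMeasurePreserving z hMP
  have horth : ∀ (c : ℂ) (w : Lp ℂ 2 m), U w = c • w → inner ℂ w x = 0 := by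
    intro c w hw
    by_cases hw0 : w = 0
    · rw [hw0, inner_zero_left]
    have hc : ‖c‖ = 1 := by
      have h1 : ‖w‖ = ‖c‖ * ‖w‖ := by
        rw [← norm_smul, ← hw, U.norm_map]
      have h2 : ‖w‖ ≠ 0 := norm_ne_zero_iff.2 hw0
      field_simp at h1
      exact h1.symm
    have hwR : ∀ᵐ y ∂m, (w : Y → ℂ) (R y) = c * (w : Y → ℂ) y := by
      have h2 := hUc w
      rw [hw] at h2
      filter_upwards [h2, Lp.coeFn_smul c w] with y e1 e2
      rw [← e1, e2]
      rfl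
    have hwm : Measurable (w : Y → ℂ) := (Lp.stronglyMeasurable w).measurable
    obtain ⟨β, hβ0, hβ⟩ := norm_const_of_eigen hR _ hwm c hc hwR
    obtain ⟨e, he⟩ : ∃ e : Y → ℂ, ∀ y, e y =
      if ‖(w : Y → ℂ) y‖ ≤ β then (w : Y → ℂ) y else 0 := ⟨_, fun _ => rfl⟩
    have hew : ∀ᵐ y ∂m, e y = (w : Y → ℂ) y := by
      filter_upwards [hβ] with y hy
      rw [he, if_pos hy.le]
    have hem : Measurable e := by
      have h1 : e = fun y => if ‖(w : Y → ℂ) y‖ ≤ β then (w : Y → ℂ) y else 0 := by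
        funext y
        exact he y
      rw [h1]
      exact Measurable.ite (measurableSet_le hwm.norm measurable_const) hwm measurable_const
    have hebd : ∀ y, ‖e y‖ ≤ β := by
      intro y
      rw [he]
      split_ifs with h
      · exact h
      · rw [norm_zero]
        exact hβ0
    have heR : ∀ᵐ y ∂m, e (R y) = c * e y := by
      have h1 : ∀ᵐ y ∂m, e (R y) = (w : Y → ℂ) (R y) :=
        hMP.quasiMeasurePreserving.ae hew
      filter_upwards [h1, hew, hwR] with y e1 e2 e3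
      rw [e1, e3, e2]
    rw [← ho e c ⟨hem, β, hebd⟩ heR, L2.inner_def]
    apply integral_congr_ae
    filter_upwards [hxa, hew] with y e1 e2
    rw [RCLike.inner_apply, e1, e2]
  obtain ⟨N, hN1, hN⟩ := wiener_aux U x horth (δ ^ 2 / 4) (by positivity)
  refine ⟨N, hN1, ?_⟩
  have hint : ∀ n j : ℕ, ∫ y, a (R^[n] y) * conj (a (R^[j] y)) ∂m =
      inner ℂ ((⇑U)^[j] x) ((⇑U)^[n] x) := by
    intro n j
    rw [L2.inner_def]
    apply integral_congr_ae
    filter_upwards [dg_iter hMP U hUc x _ hxa n, dg_iter hMP U hUc x _ hxa j] with y e1 e2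
    rw [RCLike.inner_apply, e1, e2]
  have := dg_double U x N δ hδ hN
  refine le_trans (le_of_eq ?_) this
  refine Finset.sum_congr rfl fun n _ => Finset.sum_congr rfl fun j _ => ?_
  rw [hint n j]

/-- Proof. `e = e'` almost everywhere with `e'` bounded and `𝒵`-measurable (`hk.all`), and
`∫ a conj e' = ∫ a₀ conj e'` by `h` with `f = conj ∘ e'`. -/
theorem sub_version_orth {Y : Type*} {𝒵 : MeasurableSpace Y} [mY : MeasurableSpace Y]
    {m : Measure Y} [IsProbabilityMeasure m] {R : Y → Y} (hk : KronAlg 𝒵 m R) (a a₀ : Y → ℂ)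
    (ha : BM a) (ha₀ : BM a₀)
    (h : ∀ f : Y → ℂ, Measurable[𝒵] f → (∃ C' : ℝ, ∀ᵐ y ∂m, ‖f y‖ ≤ C') →
      ∫ y, f y * a y ∂m = ∫ y, f y * a₀ y ∂m)
    (e : Y → ℂ) (l : ℂ) (he : BM e) (hl : ∀ᵐ y ∂m, e (R y) = l * e y) :
    ∫ y, (a y - a₀ y) * conj (e y) ∂m = 0 := by
  obtain ⟨e', he'm, ⟨C, hC⟩, hee⟩ := hk.all e l he hl
  have hem : Measurable e' := he'm.mono hk.le le_rfl
  obtain ⟨ham, Ca, hCa⟩ := ha
  obtain ⟨ha₀m, Ca₀, hCa₀⟩ := ha₀
  have hc : Measurable[𝒵] (fun y => conj (e' y)) := by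
    exact (Complex.continuous_conj.measurable).comp he'm
  have hcY : Measurable (fun y => conj (e' y)) := Complex.continuous_conj.measurable.comp hem
  have h1 := h (fun y => conj (e' y)) hc ⟨C, Eventually.of_forall fun y => by
    rw [RCLike.norm_conj]
    exact hC y⟩
  have hC0 : ∀ y : Y, 0 ≤ C := fun y => (norm_nonneg _).trans (hC y)
  have hi : ∀ (b : Y → ℂ), Measurable b → ∀ D : ℝ, (∀ y, ‖b y‖ ≤ D) →
      Integrable (fun y => conj (e' y) * b y) m := by
    intro b hb D hD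
    refine Integrable.of_bound (hcY.mul hb).aestronglyMeasurable (C * D)
      (Eventually.of_forall fun y => ?_)
    rw [norm_mul, RCLike.norm_conj]
    exact mul_le_mul (hC y) (hD y) (norm_nonneg _) (hC0 y)
  have h2 : ∫ y, (a y - a₀ y) * conj (e y) ∂m =
      ∫ y, (conj (e' y) * a y - conj (e' y) * a₀ y) ∂m := by
    apply integral_congr_ae
    filter_upwards [hee] with y hy
    rw [hy]
    ring
  rw [h2, integral_sub (hi a ham Ca hCa) (hi a₀ ha₀m Ca₀ hCa₀), h1, sub_self]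

/-- Proof. `small_of_approx` (`H82T/S1.lean`) with the approximations of `hk.dense`; finite sums of
eigenfunctions are `Small` (`small_sum` in `H82T/S1B.lean` with `t = 1`, `small_eigen` in `S1.lean`). -/
theorem small_kron {Y : Type*} {𝒵 : MeasurableSpace Y} [mY : MeasurableSpace Y]
    {m : Measure Y} [IsProbabilityMeasure m] {R : Y → Y} (hR : Ergodic R m)
    (hk : KronAlg 𝒵 m R) (f : Y → ℂ) (hf : Measurable[𝒵] f) (hb : ∃ C : ℝ, ∀ y, ‖f y‖ ≤ C) :
    Small m R f := by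
  obtain ⟨C, hC⟩ := hb
  refine small_of_approx f ⟨hf.mono hk.le le_rfl, C, hC⟩ fun δ hδ => ?_
  obtain ⟨k, l, e, he, hl⟩ := hk.dense f hf ⟨C, hC⟩ δ hδ
  refine ⟨fun y => ∑ i, e i y, ?_, ?_, hl⟩
  · choose D hD using fun i => (he i).1.2
    refine ⟨Finset.measurable_sum _ fun i _ => (he i).1.1, ∑ i, D i, fun y => ?_⟩
    exact (norm_sum_le _ _).trans (Finset.sum_le_sum fun i _ => hD i y)
  · have h1 := small_sum (m := m) (R := R) (Finset.univ : Finset (Fin k)) (fun _ => (1 : ℂ)) e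
      (fun i _ => (he i).1) (fun i _ => small_eigen hR (e i) (he i).1 (l i) (he i).2.1 (he i).2.2)
    simpa using h1

end Pool.Agent.Lib.H82OT
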