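import Pool.Agent.Lib.H82OT.Defs
import Pool.Agent.Lib.H82T.S4

/-!
# Project H82OT, chunk KR3: from the Kronecker map to the Kronecker algebra
-/

open MeasureTheory Filter Topology Finset ProbabilityTheory
open scoped ENNReal ComplexConjugate Matrix

namespace Pool.Agent.Lib.H82OT

open Pool.Agent.Lib.H22M Pool.Agent.Lib.H82T

/-- Proof. `le`, `inv`: `hk.meas`, `hk.inv`. `all`: `e = g ∘ P` a.e. `dense`: a bounded `comap P`-measurable
`f` is `F ∘ P` with `F` bounded measurable (`Measurable.exists_eq_measurable_comp`, truncate as in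
`H82T/S4.lean`); trigonometric polynomials are dense in `L²(m.map P)` (used in the proof of
`small_rotation` in `H82T/S4.lean`, from `Pool.Agent.Lib.CompactAbelian.Parseval`; `s4_l2`), and
`e y = t * χ (P y)` is an eigenfunction: `χ (P (R y)) = χ c * χ (P y)` a.e. -/
theorem Kron.kronAlg {Y W : Type*} [mY : MeasurableSpace Y] {m : Measure Y}
    [IsProbabilityMeasure m] [CommGroup W] [TopologicalSpace W] [IsTopologicalGroup W]
    [CompactSpace W] [T2Space W] [SecondCountableTopology W] [MeasurableSpace W] [BorelSpace W]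
    {R : Y → Y} {P : Y → W} {c : W} (hk : Kron m R P c) :
    KronAlg (MeasurableSpace.comap P inferInstance) m R := by
  refine ⟨hk.meas.comap_le, hk.inv, fun e l he hel => ?_, fun f hf hb δ hδ => ?_⟩
  · obtain ⟨g, hg, hge⟩ := hk.all e l he hel
    obtain ⟨hg1, C, hC⟩ := hg
    exact ⟨fun y => g (P y), hg1.comp (comap_measurable P), ⟨C, fun y => hC _⟩, hge⟩
  · obtain ⟨F₀, hF₀, hfF⟩ := hf.exists_eq_measurable_comp
    obtain ⟨C, hC⟩ := hb
    have hset : MeasurableSet {w : W | ‖F₀ w‖ ≤ C} := measurableSet_le hF₀.norm measurable_const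
    classical
    set F : W → ℂ := fun w => if ‖F₀ w‖ ≤ C then F₀ w else 0 with hFdef
    have hF : BM F := by
      refine ⟨Measurable.ite hset hF₀ measurable_const, |C|, fun w => ?_⟩
      simp only [hFdef]
      split_ifs with h
      · exact h.trans (le_abs_self C)
      · simp
    have hff : f = fun y => F (P y) := by
      funext y
      have h1 : f y = F₀ (P y) := by rw [hfF]; rfl
      have h2 : ‖F₀ (P y)‖ ≤ C := h1 ▸ hC y
      simp only [hFdef]
      rw [if_pos h2, h1]
    have hpr : IsProbabilityMeasure (m.map P) :=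
      Measure.isProbabilityMeasure_map hk.meas.aemeasurable
    obtain ⟨S, t, hS⟩ := tg_approx (m.map P) F hF δ hδ
    have hχ : ∀ χ : PontryaginDual W, BM fun y => ((χ (P y) : Circle) : ℂ) := fun χ =>
      (s4_char χ).comp hk.meas
    refine ⟨S.card, fun i => (((S.equivFin.symm i : PontryaginDual W) c : Circle) : ℂ),
      fun i y => t (S.equivFin.symm i) * (((S.equivFin.symm i : PontryaginDual W) (P y) : Circle) : ℂ),
      fun i => ⟨(BM.const _).mul (hχ _), Circle.norm_coe _, ?_⟩, ?_⟩
    · filter_upwards [hk.equi] with y hy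
      rw [hy, map_mul, Circle.coe_mul]
      ring
    · have h1 := s4_l2 hk.meas F hF S t δ hδ hS
      have h2 : (fun y => f y - ∑ i : Fin S.card, t (S.equivFin.symm i) *
          (((S.equivFin.symm i : PontryaginDual W) (P y) : Circle) : ℂ)) =
          fun y => F (P y) - ∑ χ ∈ S, t χ * ((χ (P y) : Circle) : ℂ) := by
        funext y
        rw [hff, Equiv.sum_comp S.equivFin.symm
          (fun χ : S => t χ * (((χ : PontryaginDual W) (P y) : Circle) : ℂ)),
          Finset.sum_coe_sort S (fun χ => t χ * ((χ (P y) : Circle) : ℂ))]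
      rw [h2]
      exact h1

end Pool.Agent.Lib.H82OT
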