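import Pool.Agent.Lib.H82OT.LT1
import Pool.Agent.Lib.H82T.CV

/-!
# Project H82OT, chunk EV1: coefficient rows of a module
-/

open MeasureTheory Filter Topology Finset ProbabilityTheory
open scoped ENNReal ComplexConjugate Matrix

namespace Pool.Agent.Lib.H82OT

open Pool.Agent.Lib.H22M Pool.Agent.Lib.H82T

/-- The entries of a projection are bounded by one. -/
private theorem ev1_entry {d : ℕ} (P : Matrix (Fin d) (Fin d) ℂ) (h1 : P * P = P) (h2 : Pᴴ = P)
    (i j : Fin d) : ‖P i j‖ ≤ 1 := by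
  have key : ∀ i : Fin d, ((∑ k, ‖P i k‖ ^ 2 : ℝ) : ℂ) = P i i := by
    intro i
    have h3 : P i i = (P * Pᴴ) i i := by rw [h2, h1]
    rw [h3, Matrix.mul_apply]
    push_cast
    refine Finset.sum_congr rfl fun k _ => ?_
    rw [Matrix.conjTranspose_apply, Complex.star_def, Complex.mul_conj']
  have hle : ∀ i k : Fin d, ‖P i k‖ ^ 2 ≤ ∑ k, ‖P i k‖ ^ 2 := fun i k =>
    Finset.single_le_sum (f := fun k => ‖P i k‖ ^ 2) (fun k _ => sq_nonneg _) (Finset.mem_univ k)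
  have hii : (∑ k, ‖P i k‖ ^ 2) ≤ 1 := by
    have h4 : ‖P i i‖ = ∑ k, ‖P i k‖ ^ 2 := by
      rw [← key i, Complex.norm_real, Real.norm_of_nonneg (Finset.sum_nonneg fun k _ => sq_nonneg _)]
    have h5 := hle i i
    have h6 : 0 ≤ ‖P i i‖ := norm_nonneg _
    rw [← h4] at h5 ⊢
    nlinarith
  have h7 := (hle i j).trans hii
  exact (sq_le_one_iff₀ (norm_nonneg _)).mp h7

/-- Pull-out of a bounded factor. -/
private theorem ev1_pull {Y : Type*} (ℬ : MeasurableSpace Y) [mY : MeasurableSpace Y]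
    {m : Measure Y} [IsProbabilityMeasure m] (hle : ℬ ≤ mY) {χ h : Y → ℂ}
    (hχ : Measurable[ℬ] χ) (hb : ∃ C : ℝ, ∀ y, ‖χ y‖ ≤ C) (hh : BM h) :
    m[fun y => χ y * h y|ℬ] =ᵐ[m] fun y => χ y * (m[h|ℬ]) y := by
  obtain ⟨C, hC⟩ := hb
  have h1 : BM χ := bm_mono hle hχ hC
  exact condExp_bilin_of_stronglyMeasurable_left (ContinuousLinearMap.mul ℝ ℂ)
    (@cv_sm Y ℬ χ hχ) (h1.mul hh).integrable hh.integrable

private theorem ev1_int {Y : Type*} (ℬ : MeasurableSpace Y) [mY : MeasurableSpace Y]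
    {m : Measure Y} [IsProbabilityMeasure m] (hle : ℬ ≤ mY) {χ h g : Y → ℂ}
    (hχ : Measurable[ℬ] χ) (hb : ∃ C : ℝ, ∀ y, ‖χ y‖ ≤ C) (hh : BM h)
    (hg : m[h|ℬ] =ᵐ[m] g) : ∫ y, χ y * h y ∂m = ∫ y, χ y * g y ∂m := by
  rw [← integral_condExp hle (f := fun y => χ y * h y)]
  refine integral_congr_ae ?_
  filter_upwards [ev1_pull ℬ hle hχ hb hh, hg] with y h1 h2
  rw [h1, h2]

private theorem ev1_meas {Ω : Type*} [MeasurableSpace Ω] {d : ℕ} (a b : Fin d → Ω → ℂ)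
    (ha : ∀ i, Measurable (a i)) (hb : ∀ i, Measurable (b i)) :
    Measurable fun ω => ∑ i, a i ω * b i ω :=
  Finset.measurable_fun_sum _ fun i _ => (ha i).mul (hb i)

private theorem ev1_mconj {Ω : Type*} [MeasurableSpace Ω] (a b : Ω → ℂ)
    (ha : Measurable a) (hb : Measurable b) : Measurable fun ω => a ω * conj (b ω) :=
  ha.mul (Complex.continuous_conj.measurable.comp hb)

private theorem ev1_msub {Ω : Type*} [MeasurableSpace Ω] (c : ℂ) (a : Ω → ℂ)
    (ha : Measurable a) : Measurable fun ω => c - a ω :=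
  measurable_const.sub ha

private theorem ev1_row {Y : Type*} {d : ℕ} (ℬ : MeasurableSpace Y) (F : Y → Fin d → ℂ)
    (hF : RowB ℬ F) (A : Y → Matrix (Fin d) (Fin d) ℂ) (hA : ∀ i j, Measurable[ℬ] fun y => A y i j)
    (hb : ∀ y i j, ‖A y i j‖ ≤ 1) : RowB ℬ fun y => F y ᵥ* A y := by
  obtain ⟨h1, C, hC⟩ := hF
  refine ⟨fun j => ?_, ∑ _i : Fin d, C * 1, fun y j => ?_⟩
  · exact @ev1_meas Y ℬ d (fun i y => F y i) (fun i y => A y i j) h1 (fun i => hA i j)
  · show ‖∑ i, F y i * A y i j‖ ≤ _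
    refine (norm_sum_le _ _).trans (Finset.sum_le_sum fun i _ => ?_)
    rw [norm_mul]
    exact mul_le_mul (hC y i) (hb y i j) (norm_nonneg _) ((norm_nonneg _).trans (hC y i))

/-- Proof. `∫ ∑_i |(E - Γ E)_i|² dm = ∫ tr ((1 - Γ) Gram (1 - Γ)ᴴ) dm = ∫ tr ((1 - Γ) Γ (1 - Γ)) dm = 0`:
expand `∑_i |∑_j (1 - Γ)_ij E_j|² = ∑_i ∑_{j,j'} (1 - Γ)_ij conj (1 - Γ)_ij' E_j conj E_j'`, replace
`E_j conj E_j'` by its conditional expectation `Γ_jj'` (the other factors are bounded and `ℬ`-measurable: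
the entries of a projection are bounded by `1`), and `(1 - Γ) Γ = 0`. -/
theorem mod_proj {Y : Type*} {d : ℕ} (ℬ : MeasurableSpace Y) [mY : MeasurableSpace Y]
    {m : Measure Y} [IsProbabilityMeasure m] (hle : ℬ ≤ mY) {R : Y → Y}
    {Φ Γ : Y → Matrix (Fin d) (Fin d) ℂ} {E : Y → Fin d → ℂ} (hM : IsMod ℬ m R Φ Γ E) :
    ∀ᵐ y ∂m, Γ y *ᵥ E y = E y := by
  have hP1 : ∀ y, (1 - Γ y) * (1 - Γ y) = 1 - Γ y := by
    intro y
    rw [sub_mul, mul_sub, mul_sub, (hM.proj y).1]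
    simp
  have hP2 : ∀ y, (1 - Γ y)ᴴ = 1 - Γ y := by
    intro y
    rw [Matrix.conjTranspose_sub, (hM.proj y).2, Matrix.conjTranspose_one]
  have hPΓ : ∀ y, (1 - Γ y) * Γ y = 0 := by
    intro y
    rw [sub_mul, (hM.proj y).1]
    simp
  have hPb : ∀ y i j, ‖(1 - Γ y) i j‖ ≤ 1 := fun y i j => ev1_entry _ (hP1 y) (hP2 y) i j
  have hPm : ∀ i j, Measurable[ℬ] fun y => (1 - Γ y) i j := by
    intro i j
    exact @ev1_msub Y ℬ ((1 : Matrix (Fin d) (Fin d) ℂ) i j) _ (hM.measΓ i j)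
  have hBM : ∀ i, BM fun y => ∑ j, (1 - Γ y) i j * E y j := fun i =>
    BM.sum _ fun j _ => (bm_mono hle (hPm i j) fun y => hPb y i j).mul (hM.bmE j)
  have key : ∀ i, ∀ᵐ y ∂m, ∑ j, (1 - Γ y) i j * E y j = 0 := by
    intro i
    have h1 : ∫ y, (∑ j, (1 - Γ y) i j * E y j) * conj (∑ j, (1 - Γ y) i j * E y j) ∂m = 0 := by
      have h2 : ∀ y, (∑ j, (1 - Γ y) i j * E y j) * conj (∑ j, (1 - Γ y) i j * E y j) =
          ∑ j, ∑ k, ((1 - Γ y) i j * conj ((1 - Γ y) i k)) * (E y j * conj (E y k)) := by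
        intro y
        rw [map_sum, Finset.sum_mul_sum]
        refine Finset.sum_congr rfl fun j _ => Finset.sum_congr rfl fun k _ => ?_
        rw [map_mul]
        ring
      have hχm : ∀ j k, Measurable[ℬ] fun y => (1 - Γ y) i j * conj ((1 - Γ y) i k) := fun j k =>
        @ev1_mconj Y ℬ _ _ (hPm i j) (hPm i k)
      have hχb : ∀ j k y, ‖(1 - Γ y) i j * conj ((1 - Γ y) i k)‖ ≤ 1 := by
        intro j k y
        rw [norm_mul, RCLike.norm_conj]
        exact mul_le_one₀ (hPb y i j) (norm_nonneg _) (hPb y i k)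
      have hχ : ∀ j k, BM fun y => (1 - Γ y) i j * conj ((1 - Γ y) i k) := fun j k =>
        bm_mono hle (hχm j k) (hχb j k)
      have hEE : ∀ j k, BM fun y => E y j * conj (E y k) := fun j k =>
        (hM.bmE j).mul (hM.bmE k).conj
      have hΓb : ∀ j k, BM fun y => Γ y j k := fun j k =>
        bm_mono hle (hM.measΓ j k) fun y => ev1_entry _ (hM.proj y).1 (hM.proj y).2 j k
      simp_rw [h2]
      rw [integral_finsetSum _ fun j _ =>
        (BM.sum _ fun k _ => (hχ j k).mul (hEE j k)).integrable]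
      simp_rw [fun j => integral_finsetSum (μ := m) (univ : Finset (Fin d))
        (f := fun k y => ((1 - Γ y) i j * conj ((1 - Γ y) i k)) * (E y j * conj (E y k)))
        fun k _ => ((hχ j k).mul (hEE j k)).integrable]
      simp_rw [fun j k => ev1_int ℬ hle (hχm j k) ⟨1, hχb j k⟩ (hEE j k) (hM.gram j k)]
      simp_rw [fun j => (integral_finsetSum (μ := m) (univ : Finset (Fin d))
        (f := fun k y => ((1 - Γ y) i j * conj ((1 - Γ y) i k)) * Γ y j k)
        fun k _ => ((hχ j k).mul (hΓb j k)).integrable).symm]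
      rw [← integral_finsetSum _ fun j _ =>
        (BM.sum _ fun k _ => (hχ j k).mul (hΓb j k)).integrable]
      have h3 : ∀ y, ∑ j, ∑ k, ((1 - Γ y) i j * conj ((1 - Γ y) i k)) * Γ y j k = 0 := by
        intro y
        rw [Finset.sum_comm]
        refine Finset.sum_eq_zero fun k _ => ?_
        have h4 : ∑ j, (1 - Γ y) i j * Γ y j k = 0 := by
          have h5 := congrFun (congrFun (hPΓ y) i) k
          rw [Matrix.mul_apply] at h5
          exact h5
        calc ∑ j, ((1 - Γ y) i j * conj ((1 - Γ y) i k)) * Γ y j k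
            = conj ((1 - Γ y) i k) * ∑ j, (1 - Γ y) i j * Γ y j k := by
              rw [Finset.mul_sum]
              exact Finset.sum_congr rfl fun j _ => by ring
          _ = 0 := by rw [h4, mul_zero]
      simp_rw [h3]
      exact integral_zero _ _
    have h6 : ∫ y, ‖∑ j, (1 - Γ y) i j * E y j‖ ^ 2 ∂m = 0 := by
      have h7 : ∀ y, (∑ j, (1 - Γ y) i j * E y j) * conj (∑ j, (1 - Γ y) i j * E y j) =
          ((‖∑ j, (1 - Γ y) i j * E y j‖ ^ 2 : ℝ) : ℂ) := by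
        intro y
        rw [Complex.mul_conj']
        push_cast
        rfl
      simp_rw [h7] at h1
      rw [integral_complex_ofReal] at h1
      exact_mod_cast h1
    have h8 : Integrable (fun y => ‖∑ j, (1 - Γ y) i j * E y j‖ ^ 2) m := by
      obtain ⟨g1, C, hC⟩ := hBM i
      refine Integrable.of_bound (g1.norm.pow_const 2).aestronglyMeasurable (C ^ 2)
        (Eventually.of_forall fun y => ?_)
      rw [Real.norm_of_nonneg (sq_nonneg _)]
      exact pow_le_pow_left₀ (norm_nonneg _) (hC y) 2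
    have h9 := (integral_eq_zero_iff_of_nonneg (fun y => sq_nonneg _) h8).mp h6
    filter_upwards [h9] with y hy
    have h10 : ‖∑ j, (1 - Γ y) i j * E y j‖ ^ 2 = 0 := hy
    exact norm_eq_zero.mp (pow_eq_zero_iff (two_ne_zero)|>.mp h10)
  filter_upwards [ae_all_iff.mpr key] with y hy
  have h11 : (1 - Γ y) *ᵥ E y = 0 := by
    funext i
    exact hy i
  rw [Matrix.sub_mulVec, Matrix.one_mulVec, sub_eq_zero] at h11
  exact h11.symm

/-- Proof. Replace `F` by `F ᵥ* Γ` (`mod_proj`, `Matrix.dotProduct_mulVec`, `Γ * Γ = Γ`, entries of a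
projection are bounded by `1`). -/
theorem ModV.normal {Y : Type*} {d : ℕ} (ℬ : MeasurableSpace Y) [mY : MeasurableSpace Y]
    {m : Measure Y} [IsProbabilityMeasure m] (hle : ℬ ≤ mY) {R : Y → Y}
    {Φ Γ : Y → Matrix (Fin d) (Fin d) ℂ} {E : Y → Fin d → ℂ} (hM : IsMod ℬ m R Φ Γ E)
    (f : Y → ℂ) (hf : ModV ℬ m E f) :
    ∃ F : Y → Fin d → ℂ, RowB ℬ F ∧ (∀ y, F y ᵥ* Γ y = F y) ∧ ∀ᵐ y ∂m, f y = F y ⬝ᵥ E y := by
  obtain ⟨-, F, hF, hfF⟩ := hf
  refine ⟨fun y => F y ᵥ* Γ y, ev1_row ℬ F hF Γ hM.measΓ fun y i j =>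
    ev1_entry _ (hM.proj y).1 (hM.proj y).2 i j, fun y => ?_, ?_⟩
  · rw [Matrix.vecMul_vecMul, (hM.proj y).1]
  · filter_upwards [hfF, mod_proj ℬ hle hM] with y h1 h2
    rw [h1, ← Matrix.dotProduct_mulVec, h2]

/-- The coefficients are conditional expectations. Proof. `m[f conj E_j|ℬ] = ∑_i F_i m[E_i conj E_j|ℬ]
= ∑_i F_i Γ_ij = F_j` (pull-out of bounded `ℬ`-measurable functions, linearity). -/
theorem coeff_condExp {Y : Type*} {d : ℕ} (ℬ : MeasurableSpace Y) [mY : MeasurableSpace Y]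
    {m : Measure Y} [IsProbabilityMeasure m] (hle : ℬ ≤ mY) {R : Y → Y}
    {Φ Γ : Y → Matrix (Fin d) (Fin d) ℂ} {E : Y → Fin d → ℂ} (hM : IsMod ℬ m R Φ Γ E)
    (F : Y → Fin d → ℂ) (hF : RowB ℬ F) (hFΓ : ∀ y, F y ᵥ* Γ y = F y) (j : Fin d) :
    m[fun y => (F y ⬝ᵥ E y) * conj (E y j)|ℬ] =ᵐ[m] fun y => F y j := by
  obtain ⟨hF1, C, hC⟩ := hF
  have h1 : (fun y => (F y ⬝ᵥ E y) * conj (E y j)) =
      ∑ i : Fin d, fun y => F y i * (E y i * conj (E y j)) := by
    funext y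
    rw [Finset.sum_apply, dotProduct, Finset.sum_mul]
    exact Finset.sum_congr rfl fun i _ => mul_assoc _ _ _
  have hEE : ∀ i, BM fun y => E y i * conj (E y j) := fun i =>
    (hM.bmE i).mul (hM.bmE j).conj
  have hFb : ∀ i, BM fun y => F y i := fun i => bm_mono hle (hF1 i) fun y => hC y i
  have h2 := condExp_finsetSum (μ := m) (s := (univ : Finset (Fin d)))
    (f := fun i y => F y i * (E y i * conj (E y j)))
    (fun i _ => ((hFb i).mul (hEE i)).integrable) ℬ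
  have h3 : ∀ i : Fin d, m[fun y => F y i * (E y i * conj (E y j))|ℬ] =ᵐ[m]
      fun y => F y i * Γ y i j := by
    intro i
    filter_upwards [ev1_pull ℬ hle (hF1 i) ⟨C, fun y => hC y i⟩ (hEE i), hM.gram i j] with y a b
    rw [a, b]
  rw [h1]
  filter_upwards [h2, ae_all_iff.mpr h3] with y a b
  rw [a, Finset.sum_apply, Finset.sum_congr rfl fun i _ => b i]
  have h4 := congrFun (hFΓ y) j
  exact h4

end Pool.Agent.Lib.H82OT
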