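import Pool.Agent.Lib.H82OT.KP2
import Pool.Agent.Lib.H82OT.LT1

/-!
# Project H82OT, chunk DC5: correlations over the Kronecker algebra
-/

open MeasureTheory Filter Topology Finset ProbabilityTheory
open scoped ENNReal ComplexConjugate Matrix

namespace Pool.Agent.Lib.H82OT

open Pool.Agent.Lib.H22M Pool.Agent.Lib.H82T

variable {Y : Type*} {𝒵 : MeasurableSpace Y} [mY : MeasurableSpace Y] [StandardBorelSpace Y]

private theorem DC5_term (m : Measure Y) [IsProbabilityMeasure m] (h𝒵 : 𝒵 ≤ mY) (f : Y → ℂ)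
    (hf : BM f) :
    ∫ z, f z.1 * conj (f z.2) ∂(mh m h𝒵) =
      ((∫ y, ‖(m[f|𝒵]) y‖ ^ 2 ∂m : ℝ) : ℂ) := by
  rw [integral_mh_condExp m h𝒵 f (fun x => conj (f x)) hf hf.conj, ← integral_complex_ofReal]
  refine integral_congr_ae ?_
  have h := ContinuousLinearMap.comp_condExp_comm (m := 𝒵) (μ := m) hf.integrable
    (Complex.conjCLE : ℂ →L[ℝ] ℂ)
  filter_upwards [h] with y hy
  have h2 : (m[fun x => conj (f x)|𝒵]) y = conj ((m[f|𝒵]) y) := hy.symm
  rw [h2, Complex.mul_conj, Complex.normSq_eq_norm_sq]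

/-- Proof. Expand the square of the absolute value of the sum:
`l2 mh (∑ G_n)² = ∑_{n,j} ∫ G_n conj G_j dmh` with `G_n z = g_n(z.1) conj g_n(z.2)`, and
`G_n conj G_j = (g_n conj g_j)(z.1) * conj ((g_n conj g_j)(z.2))`, so by `integral_mh_condExp` the term is
`∫ m[g_n conj g_j|𝒵] * m[conj (g_n conj g_j)|𝒵] dm = ∫ |m[g_n conj g_j|𝒵]|² dm`
(`condExp` commutes with `conj`: `ContinuousLinearMap.comp_condExp_comm`-type lemma, or by
`exists_version` and uniqueness; see `H22M` for uses of the real-linear map `conj`). -/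
theorem corr_eq (m : Measure Y) [IsProbabilityMeasure m] (h𝒵 : 𝒵 ≤ mY) (g : ℕ → Y → ℂ)
    (hg : ∀ n, BM (g n)) (N : ℕ) :
    l2 (mh m h𝒵) (fun z => ∑ n ∈ range N, g n z.1 * conj (g n z.2)) ^ 2 =
      ∑ n ∈ range N, ∑ j ∈ range N,
        ∫ y, ‖(m[fun x => g n x * conj (g j x)|𝒵]) y‖ ^ 2 ∂m := by
  have hb : ∀ n j, BM (fun x => g n x * conj (g j x)) := fun n j => (hg n).mul (hg j).conj
  have hbb : ∀ n j, BM (fun z : Y × Y =>
      (g n z.1 * conj (g j z.1)) * conj (g n z.2 * conj (g j z.2))) := fun n j =>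
    ((hb n j).comp measurable_fst).mul ((hb n j).conj.comp measurable_snd)
  have key : (((l2 (mh m h𝒵) (fun z => ∑ n ∈ range N, g n z.1 * conj (g n z.2)) ^ 2 : ℝ)) : ℂ) =
      ((∑ n ∈ range N, ∑ j ∈ range N,
        ∫ y, ‖(m[fun x => g n x * conj (g j x)|𝒵]) y‖ ^ 2 ∂m : ℝ) : ℂ) := by
    rw [← integral_mul_conj]
    have e1 : ∀ z : Y × Y, (∑ n ∈ range N, g n z.1 * conj (g n z.2)) *
        conj (∑ n ∈ range N, g n z.1 * conj (g n z.2)) =
        ∑ n ∈ range N, ∑ j ∈ range N,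
          (g n z.1 * conj (g j z.1)) * conj (g n z.2 * conj (g j z.2)) := by
      intro z
      rw [map_sum, Finset.sum_mul_sum]
      refine Finset.sum_congr rfl fun n _ => Finset.sum_congr rfl fun j _ => ?_
      simp only [map_mul, Complex.conj_conj]
      ring
    rw [integral_congr_ae (Eventually.of_forall e1), integral_finsetSum]
    · rw [Complex.ofReal_sum]
      refine Finset.sum_congr rfl fun n _ => ?_
      rw [integral_finsetSum, Complex.ofReal_sum]
      · refine Finset.sum_congr rfl fun j _ => ?_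
        exact DC5_term m h𝒵 _ (hb n j)
      · intro j _
        exact (hbb n j).integrable
    · intro n _
      exact integrable_finsetSum _ fun j _ => (hbb n j).integrable
  exact_mod_cast key

/-- Proof. For each pair `∫ ‖E_nj‖ dm ≤ (∫ ‖E_nj‖² dm)^(1/2)` (probability measure), then Cauchy-Schwarz
for the double sum over `N²` pairs: `(∑∑ x_nj^(1/2))² ≤ N² ∑∑ x_nj` (`sq_sum_le_card_mul_sum_sq`), and
`corr_eq`. -/
theorem corr_le (m : Measure Y) [IsProbabilityMeasure m] (h𝒵 : 𝒵 ≤ mY) (g : ℕ → Y → ℂ)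
    (hg : ∀ n, BM (g n)) (N : ℕ) :
    ∑ n ∈ range N, ∑ j ∈ range N,
        ∫ y, ‖(m[fun x => g n x * conj (g j x)|𝒵]) y‖ ∂m ≤
      N * l2 (mh m h𝒵) (fun z => ∑ n ∈ range N, g n z.1 * conj (g n z.2)) := by
  have hb : ∀ n j, BM (fun x => g n x * conj (g j x)) := fun n j => (hg n).mul (hg j).conj
  set L := l2 (mh m h𝒵) (fun z => ∑ n ∈ range N, g n z.1 * conj (g n z.2)) with hL
  have hL0 : 0 ≤ L := Real.sqrt_nonneg _
  -- each term
  have h1 : ∀ n j, (∫ y, ‖(m[fun x => g n x * conj (g j x)|𝒵]) y‖ ∂m) ^ 2 ≤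
      ∫ y, ‖(m[fun x => g n x * conj (g j x)|𝒵]) y‖ ^ 2 ∂m := by
    intro n j
    have h2 : MemLp (fun x => g n x * conj (g j x)) 2 m := (hb n j).memLp 2
    have h3 : MemLp (m[fun x => g n x * conj (g j x)|𝒵]) 2 m := h2.condExp (by norm_num)
    have h4 : MemLp (fun y => ‖(m[fun x => g n x * conj (g j x)|𝒵]) y‖) 2 m := h3.norm
    have h5 := ProbabilityTheory.variance_nonneg
      (fun y => ‖(m[fun x => g n x * conj (g j x)|𝒵]) y‖) m
    rw [ProbabilityTheory.variance_eq_sub h4] at h5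
    have h6 : ∫ y, ((fun y => ‖(m[fun x => g n x * conj (g j x)|𝒵]) y‖) ^ 2) y ∂m =
        ∫ y, ‖(m[fun x => g n x * conj (g j x)|𝒵]) y‖ ^ 2 ∂m := rfl
    linarith
  have h2 : (∑ n ∈ range N, ∑ j ∈ range N,
        ∫ y, ‖(m[fun x => g n x * conj (g j x)|𝒵]) y‖ ∂m) ^ 2 ≤ (N * L) ^ 2 := by
    rw [← Finset.sum_product' (range N) (range N)
      (fun n j => ∫ y, ‖(m[fun x => g n x * conj (g j x)|𝒵]) y‖ ∂m)]
    refine (sq_sum_le_card_mul_sum_sq (s := range N ×ˢ range N)).trans ?_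
    rw [Finset.card_product, card_range, mul_pow, hL, corr_eq m h𝒵 g hg N,
      ← Finset.sum_product' (range N) (range N)
      (fun n j => ∫ y, ‖(m[fun x => g n x * conj (g j x)|𝒵]) y‖ ^ 2 ∂m)]
    have h3 : ((N * N : ℕ) : ℝ) = (N : ℝ) ^ 2 := by
      push_cast
      ring
    rw [h3]
    exact mul_le_mul_of_nonneg_left (Finset.sum_le_sum fun x _ => h1 x.1 x.2) (by positivity)
  exact (sq_le_sq₀ (Finset.sum_nonneg fun n _ => Finset.sum_nonneg fun j _ =>
    integral_nonneg fun y => norm_nonneg _) (by positivity)).1 h2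

end Pool.Agent.Lib.H82OT
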