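import Pool.Agent.Lib.H82OT.DC4
import Pool.Agent.Lib.H82OT.DC5

/-!
# Project H82OT, chunk DC6: the decomposition
-/

open MeasureTheory Filter Topology Finset ProbabilityTheory
open scoped ENNReal ComplexConjugate Matrix

namespace Pool.Agent.Lib.H82OT

open Pool.Agent.Lib.H22M Pool.Agent.Lib.H82T

variable {Y : Type*} {𝒵 : MeasurableSpace Y} [mY : MeasurableSpace Y] [StandardBorelSpace Y]

private theorem DC6_l2_le (m : Measure Y) [IsProbabilityMeasure m] (h𝒵 : 𝒵 ≤ mY) (g : Y → ℂ)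
    (hg : BM g) (C : ℝ) (hC0 : 0 ≤ C)
    (hS : ∀ᵐ y ∂m, ∫ x, ‖g x‖ ^ 2 ∂(kap m h𝒵 y) ≤ C ^ 2) : l2 m g ≤ C := by
  have hB : BM (fun y : Y => ((‖g y‖ ^ 2 : ℝ) : ℂ)) := by
    obtain ⟨hm, c, hc⟩ := hg
    refine ⟨Complex.measurable_ofReal.comp (hm.norm.pow_const 2), c ^ 2, fun y => ?_⟩
    rw [Complex.norm_real, Real.norm_eq_abs, abs_of_nonneg (by positivity)]
    exact pow_le_pow_left₀ (norm_nonneg _) (hc y) 2
  have hB2 : BM (fun z : Y × Y => ((‖g z.2‖ ^ 2 : ℝ) : ℂ)) := by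
    obtain ⟨hm, c, hc⟩ := hB
    exact ⟨hm.comp measurable_snd, c, fun z => hc z.2⟩
  have h1 : ∫ y, ((‖g y‖ ^ 2 : ℝ) : ℂ) ∂m = ∫ z, ((‖g z.2‖ ^ 2 : ℝ) : ℂ) ∂(mh m h𝒵) := by
    have h2 := integral_map (μ := mh m h𝒵) (φ := Prod.snd) measurable_snd.aemeasurable
      (f := fun y : Y => ((‖g y‖ ^ 2 : ℝ) : ℂ)) hB.1.aestronglyMeasurable
    rw [mh_snd] at h2
    exact h2
  rw [integral_mh m h𝒵 _ hB2] at h1
  have h3 : ∀ y, ∫ x, (((‖g ((y, x) : Y × Y).2‖ ^ 2 : ℝ)) : ℂ) ∂(kap m h𝒵 y) =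
      ((∫ x, ‖g x‖ ^ 2 ∂(kap m h𝒵 y) : ℝ) : ℂ) := fun y => integral_complex_ofReal
  simp only [h3] at h1
  rw [integral_complex_ofReal, integral_complex_ofReal] at h1
  have h4 : ∫ y, ‖g y‖ ^ 2 ∂m = ∫ y, ∫ x, ‖g x‖ ^ 2 ∂(kap m h𝒵 y) ∂m := by
    exact_mod_cast h1
  have h5 : ∫ y, ∫ x, ‖g x‖ ^ 2 ∂(kap m h𝒵 y) ∂m ≤ ∫ _, C ^ 2 ∂m := by
    refine integral_mono_of_nonneg (Eventually.of_forall fun y => ?_) (integrable_const _) hS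
    exact integral_nonneg fun x => sq_nonneg _
  rw [integral_const, probReal_univ, one_smul, ← h4] at h5
  unfold l2
  exact Real.sqrt_le_iff.2 ⟨hC0, h5⟩

private theorem le_of_sq_le_sq {a b : ℝ} (h : a ^ 2 ≤ b ^ 2) (hb : 0 ≤ b) : a ≤ b :=
  le_of_abs_le (abs_le_of_sq_le_sq h hb)

/-- Proof. WLOG `C ≥ 1` is used (`C` positive). Let `d₀ = d₁² / 4` and let `w₁` be a near minimizer
(`exists_near_min`) for `δ = d₀`. Given `d`, let `w₂` be a near minimizer for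
`δ' = min d₀ (d² / (4 C²))`. By `near_min_close` `l2 m (w₁ - w₂)² ≤ 2 (d₀ + δ') ≤ 4 d₀ = d₁²`. Let
`g = f - w₂` (in `V`), `K` its limit kernel (`exists_limit_kernel`); `l2 mh K ≤ C √δ' ≤ d/2`
(`near_min_kernel`). Take `N ≥ 1` with `l2 mh (N⁻¹ ∑ G_n - K) ≤ d/2`, so
`l2 mh (∑ G_n) ≤ N d` (`l2_add_le`, `l2_smul`), and apply `corr_le` with `g n = g ∘ R^n`:
the sum is at most `N * (N d)`. The bound `l2 m (f - w₂) ≤ C`: `∫ |f - w₂|² dm = ∫ ∫ |f-w₂|² dκ_y dm ≤ C²`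
(`integral_mh`, `mh_snd`). -/
theorem exists_decomp (m : Measure Y) [IsProbabilityMeasure m] (h𝒵 : 𝒵 ≤ mY) (R : Y ≃ᵐ Y)
    (hR : MeasurePreserving R m m) (hinv : 𝒵.comap R = 𝒵) {V : (Y → ℂ) → Prop}
    (hV : VClass 𝒵 m R V) (f : Y → ℂ) (hf : V f) (C : ℝ) (hC0 : 0 < C)
    (hC : ∀ y, ‖f y‖ ≤ C) (d₁ : ℝ) (hd₁ : 0 < d₁) :
    ∃ w₁ : Y → ℂ, AP m h𝒵 R V w₁ ∧ ∀ d : ℝ, 0 < d → ∃ w₂ : Y → ℂ, AP m h𝒵 R V w₂ ∧
      l2 m (fun y => w₁ y - w₂ y) ≤ d₁ ∧ l2 m (fun y => f y - w₂ y) ≤ C ∧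
      ∃ N : ℕ, 1 ≤ N ∧ ∑ n ∈ range N, ∑ j ∈ range N,
        ∫ y, ‖(m[fun x => (f (R^[n] x) - w₂ (R^[n] x)) *
          conj (f (R^[j] x) - w₂ (R^[j] x))|𝒵]) y‖ ∂m ≤ d * (N : ℝ) ^ 2 := by
  have hd₀ : 0 < d₁ ^ 2 / 4 := by positivity
  obtain ⟨w₁, hw₁, -, hm₁⟩ := exists_near_min m h𝒵 hV f hf C hC0.le hC (d₁ ^ 2 / 4) hd₀
  refine ⟨w₁, hw₁, fun d hd => ?_⟩
  have hδ : 0 < min (d₁ ^ 2 / 4) (d ^ 2 / (4 * C ^ 2)) := lt_min hd₀ (by positivity)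
  obtain ⟨w₂, hw₂, hS₂, hm₂⟩ := exists_near_min m h𝒵 hV f hf C hC0.le hC _ hδ
  have hgV : V (fun y => f y - w₂ y) := by
    have h1 := hV.add f (fun y => (-1 : ℂ) * w₂ y) hf (hV.smul (-1) w₂ (AP.mem m h𝒵 hV f w₂ hf hw₂))
    have h2 : (fun y => f y - w₂ y) = fun y => f y + (-1 : ℂ) * w₂ y := by
      funext y
      ring
    rw [h2]
    exact h1
  have hgB : BM (fun y => f y - w₂ y) := hV.bm _ hgV
  refine ⟨w₂, hw₂, ?_, ?_, ?_⟩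
  · have h1 := near_min_close m h𝒵 hV f hf w₁ w₂ hw₁ hw₂ _ _ hm₁ hm₂
    have h2 : l2 m (fun y => w₁ y - w₂ y) ^ 2 ≤ d₁ ^ 2 := by
      have h3 := min_le_left (d₁ ^ 2 / 4) (d ^ 2 / (4 * C ^ 2))
      linarith
    exact le_of_sq_le_sq h2 hd₁.le
  · exact DC6_l2_le m h𝒵 _ hgB C hC0.le hS₂
  · obtain ⟨K, hK, hKV, hKg, hlim⟩ := exists_limit_kernel m h𝒵 R hR hinv hV _ hgV
    have h1 := near_min_kernel m h𝒵 hV f hf C hC0 _ w₂ hw₂ hS₂ hm₂ K hK (hKV _ hgB) hKg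
    have h2 : l2 (mh m h𝒵) K ≤ d / 2 := by
      have h3 := min_le_right (d₁ ^ 2 / 4) (d ^ 2 / (4 * C ^ 2))
      have h4 : C ^ 2 * min (d₁ ^ 2 / 4) (d ^ 2 / (4 * C ^ 2)) ≤ (d / 2) ^ 2 := by
        refine (mul_le_mul_of_nonneg_left h3 (sq_nonneg C)).trans (le_of_eq ?_)
        field_simp
        ring
      exact le_of_sq_le_sq (h1.trans h4) (by linarith)
    obtain ⟨N₀, hN₀⟩ := hlim (d / 2) (by linarith)
    refine ⟨max N₀ 1, le_max_right _ _, ?_⟩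
    set N := max N₀ 1 with hN
    have hN1 : 1 ≤ N := le_max_right _ _
    have hNpos : (0 : ℝ) < N := by exact_mod_cast hN1
    have h3 := hN₀ N (le_max_left _ _)
    have hRn : ∀ n : ℕ, Measurable (R^[n]) := fun n => R.measurable.iterate n
    have hgn : ∀ n : ℕ, BM (fun y => f (R^[n] y) - w₂ (R^[n] y)) := by
      intro n
      obtain ⟨hm, c, hc⟩ := hgB
      exact ⟨hm.comp (hRn n), c, fun y => hc (R^[n] y)⟩
    have hG : BM (fun z : Y × Y => ∑ n ∈ range N, ((f (R^[n] z.1) - w₂ (R^[n] z.1)) *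
        conj (f (R^[n] z.2) - w₂ (R^[n] z.2)))) := by
      obtain ⟨hm, c, hc⟩ := hgB
      refine ⟨?_, N * (c * c), fun z => ?_⟩
      · refine Finset.measurable_sum _ fun n _ => ?_
        refine ((hm.comp (hRn n)).comp measurable_fst).mul ?_
        exact Complex.continuous_conj.measurable.comp ((hm.comp (hRn n)).comp measurable_snd)
      · refine (norm_sum_le _ _).trans ?_
        refine (sum_le_sum (g := fun _ => c * c) fun n _ => ?_).trans (le_of_eq ?_)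
        · rw [norm_mul, Complex.norm_conj]
          exact mul_le_mul (hc _) (hc _) (norm_nonneg _) ((norm_nonneg _).trans (hc z.1))
        · rw [sum_const, card_range, nsmul_eq_mul]
    have hcG : ∀ c : ℂ, BM (fun z : Y × Y => c * ∑ n ∈ range N,
        ((f (R^[n] z.1) - w₂ (R^[n] z.1)) * conj (f (R^[n] z.2) - w₂ (R^[n] z.2)))) := by
      intro c
      obtain ⟨hm, b, hb⟩ := hG
      refine ⟨hm.const_mul c, ‖c‖ * b, fun z => ?_⟩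
      rw [norm_mul]
      exact mul_le_mul_of_nonneg_left (hb z) (norm_nonneg _)
    have hKB : BM K := hK.1
    have hsub : BM (fun z : Y × Y => (N : ℂ)⁻¹ * ∑ n ∈ range N,
        ((f (R^[n] z.1) - w₂ (R^[n] z.1)) * conj (f (R^[n] z.2) - w₂ (R^[n] z.2))) - K z) := by
      obtain ⟨hm, b, hb⟩ := hcG ((N : ℂ)⁻¹)
      obtain ⟨hm', b', hb'⟩ := hKB
      refine ⟨hm.sub hm', b + b', fun z => ?_⟩
      exact (norm_sub_le _ _).trans (add_le_add (hb z) (hb' z))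
    have h4 := l2_add_le (mh m h𝒵) _ _ hsub hKB
    have h5 : (fun z : Y × Y => (N : ℂ)⁻¹ * ∑ n ∈ range N,
        ((f (R^[n] z.1) - w₂ (R^[n] z.1)) * conj (f (R^[n] z.2) - w₂ (R^[n] z.2))) - K z + K z) =
        fun z : Y × Y => (N : ℂ)⁻¹ * ∑ n ∈ range N,
        ((f (R^[n] z.1) - w₂ (R^[n] z.1)) * conj (f (R^[n] z.2) - w₂ (R^[n] z.2))) := by
      funext z
      ring
    rw [h5, l2_smul, norm_inv, Complex.norm_natCast] at h4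
    have h6 : (N : ℝ)⁻¹ * l2 (mh m h𝒵) (fun z : Y × Y => ∑ n ∈ range N,
        ((f (R^[n] z.1) - w₂ (R^[n] z.1)) * conj (f (R^[n] z.2) - w₂ (R^[n] z.2)))) ≤ d := by
      linarith
    rw [inv_mul_le_iff₀ hNpos] at h6
    have h7 := corr_le m h𝒵 (fun n y => f (R^[n] y) - w₂ (R^[n] y)) hgn N
    refine h7.trans ?_
    have h8 := mul_le_mul_of_nonneg_left h6 hNpos.le
    refine h8.trans (le_of_eq ?_)
    ring

end Pool.Agent.Lib.H82OT
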