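import Pool.Agent.Lib.H82OT.EV1

/-!
# Project H82OT, chunk EV2: the class ModV
-/

open MeasureTheory Filter Topology Finset ProbabilityTheory
open scoped ENNReal ComplexConjugate Matrix

namespace Pool.Agent.Lib.H82OT

open Pool.Agent.Lib.H22M Pool.Agent.Lib.H82T

private theorem ev2_l2_mul {Y : Type*} [MeasurableSpace Y] {m : Measure Y} [IsFiniteMeasure m]
    {h e : Y → ℂ} (hh : BM h) (he : BM e) {C : ℝ} (hC0 : 0 ≤ C) (hC : ∀ y, ‖e y‖ ≤ C) :
    l2 m (fun y => h y * e y) ≤ C * l2 m h := by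
  have h1 : l2 m (fun y => h y * e y) ^ 2 ≤ (C * l2 m h) ^ 2 := by
    rw [mul_pow, Pool.Agent.Lib.H22M.l2_sq, Pool.Agent.Lib.H22M.l2_sq, ← integral_const_mul]
    obtain ⟨hm, K, hK⟩ := hh
    have hi : Integrable (fun y => C ^ 2 * ‖h y‖ ^ 2) m := by
      refine Integrable.of_bound ((hm.norm.pow_const 2).const_mul _).aestronglyMeasurable
        (C ^ 2 * K ^ 2) (Eventually.of_forall fun y => ?_)
      rw [Real.norm_of_nonneg (by positivity)]
      exact mul_le_mul_of_nonneg_left (pow_le_pow_left₀ (norm_nonneg _) (hK y) 2) (sq_nonneg _)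
    refine integral_mono_of_nonneg (Eventually.of_forall fun y => by positivity) hi
      (Eventually.of_forall fun y => ?_)
    show ‖h y * e y‖ ^ 2 ≤ C ^ 2 * ‖h y‖ ^ 2
    rw [norm_mul, mul_pow, mul_comm]
    exact mul_le_mul_of_nonneg_right (pow_le_pow_left₀ (norm_nonneg _) (hC y) 2) (sq_nonneg _)
  exact (sq_le_sq₀ (l2_nonneg _ _) (mul_nonneg hC0 (l2_nonneg _ _))).mp h1

private theorem ev2_l2_sum {Y ι : Type*} [MeasurableSpace Y] {m : Measure Y}
    [IsProbabilityMeasure m] (s : Finset ι) (f : ι → Y → ℂ) (hf : ∀ i ∈ s, BM (f i)) :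
    l2 m (fun y => ∑ i ∈ s, f i y) ≤ ∑ i ∈ s, l2 m (f i) := by
  classical
  induction s using Finset.induction_on with
  | empty =>
    simp only [Finset.sum_empty]
    rw [Pool.Agent.Lib.H22M.l2_const]
    simp
  | insert a s ha ih =>
    simp_rw [Finset.sum_insert ha]
    refine (Pool.Agent.Lib.H22M.l2_add_le (hf a (Finset.mem_insert_self a s))
      (BM.sum s fun i hi => hf i (Finset.mem_insert_of_mem hi))).trans ?_
    have h1 := ih fun i hi => hf i (Finset.mem_insert_of_mem hi)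
    linarith

private theorem ev2_zero {Y : Type*} [MeasurableSpace Y] {m : Measure Y} [IsFiniteMeasure m]
    {h : Y → ℂ} (hh : BM h) (h0 : l2 m h = 0) : ∀ᵐ y ∂m, h y = 0 := by
  have h1 : ∫ y, ‖h y‖ ^ 2 ∂m = 0 := by
    rw [← Pool.Agent.Lib.H22M.l2_sq, h0]
    simp
  obtain ⟨hm, K, hK⟩ := hh
  have hi : Integrable (fun y => ‖h y‖ ^ 2) m := by
    refine Integrable.of_bound (hm.norm.pow_const 2).aestronglyMeasurable
      (K ^ 2) (Eventually.of_forall fun y => ?_)
    rw [Real.norm_of_nonneg (by positivity)]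
    exact pow_le_pow_left₀ (norm_nonneg _) (hK y) 2
  have h2 := (integral_eq_zero_iff_of_nonneg (fun y => sq_nonneg _) hi).mp h1
  filter_upwards [h2] with y hy
  have h3 : ‖h y‖ ^ 2 = 0 := hy
  exact norm_eq_zero.mp ((pow_eq_zero_iff two_ne_zero).mp h3)

/-- Closedness under bounded limits in `L²`. Proof. Let `C ≥ 0` bound all `‖E y j‖`, and for every `j` let
`c_j` be a bounded `ℬ`-measurable version of `m[f conj E_j|ℬ]` (`exists_version` in `H82T/CV.lean`). Claim
`f = ∑ c_j E_j` a.e. For `δ > 0` take `g` in `ModV` with `l2 m (f - g) ≤ δ` and its normal form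
`g = G ⬝ᵥ E` (`ModV.normal`), so `G_j = m[g conj E_j|ℬ]` (`coeff_condExp`) and
`l2 m (c_j - G_j) ≤ l2 m ((f - g) conj E_j) ≤ C δ` (`l2_condExp_le` in `H22M/JB.lean`). Hence
`l2 m (f - ∑ c_j E_j) ≤ l2 m (f - g) + ∑_j l2 m ((c_j - G_j) E_j) ≤ (1 + d C²) δ`. Let `δ → 0`. -/
theorem ModV.lim {Y : Type*} {d : ℕ} (ℬ : MeasurableSpace Y) [mY : MeasurableSpace Y]
    {m : Measure Y} [IsProbabilityMeasure m] (hle : ℬ ≤ mY) {R : Y → Y}
    {Φ Γ : Y → Matrix (Fin d) (Fin d) ℂ} {E : Y → Fin d → ℂ} (hM : IsMod ℬ m R Φ Γ E)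
    (f : Y → ℂ) (hf : BM f)
    (h : ∀ δ : ℝ, 0 < δ → ∃ g, ModV ℬ m E g ∧ l2 m (fun y => f y - g y) ≤ δ) :
    ModV ℬ m E f := by
  classical
  choose CE hCE using fun j => (hM.bmE j).2
  obtain ⟨C, hC0, hC⟩ : ∃ C : ℝ, 0 ≤ C ∧ ∀ y j, ‖E y j‖ ≤ C := by
    refine ⟨∑ j, |CE j|, Finset.sum_nonneg fun j _ => abs_nonneg _, fun y j => ?_⟩
    refine (hCE j y).trans ((le_abs_self _).trans ?_)
    exact Finset.single_le_sum (f := fun j => |CE j|) (fun j _ => abs_nonneg _) (Finset.mem_univ j)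
  obtain ⟨Cf, hCf⟩ := hf.2
  have hver : ∀ j, ∃ g : Y → ℂ, Measurable[ℬ] g ∧ (∀ y, ‖g y‖ ≤ |Cf| * C) ∧
      g =ᵐ[m] m[fun y => f y * conj (E y j)|ℬ] := by
    intro j
    have hb : BM fun y => f y * conj (E y j) := hf.mul (hM.bmE j).conj
    obtain ⟨g, g1, g2, g3, -⟩ := exists_version ℬ m hle (fun y => f y * conj (E y j)) hb.1
      (|Cf| * C) (mul_nonneg (abs_nonneg _) hC0) (Eventually.of_forall fun y => by
        rw [norm_mul, RCLike.norm_conj]
        exact mul_le_mul ((hCf y).trans (le_abs_self _)) (hC y j) (norm_nonneg _) (abs_nonneg _))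
    exact ⟨g, g1, g2, g3⟩
  choose c hc1 hc2 hc3 using hver
  have hcB : ∀ j, BM (c j) := fun j => bm_mono hle (hc1 j) (hc2 j)
  have hcE : ∀ j, BM fun y => c j y * E y j := fun j => (hcB j).mul (hM.bmE j)
  have hcS : BM fun y => ∑ j, c j y * E y j := BM.sum _ fun j _ => hcE j
  refine ⟨hf, fun y j => c j y, ⟨fun j => hc1 j, |Cf| * C, fun y j => hc2 j y⟩, ?_⟩
  have hmain : ∀ δ : ℝ, 0 < δ → l2 m (fun y => f y - ∑ j, c j y * E y j) ≤
      (1 + ∑ _j : Fin d, C * C) * δ := by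
    intro δ hδ
    obtain ⟨g, hg, hgδ⟩ := h δ hδ
    obtain ⟨G, hG, hGΓ, hgG⟩ := ModV.normal ℬ hle hM g hg
    have hgB : BM g := hg.1
    have hGB : ∀ j, BM fun y => G y j := by
      obtain ⟨hG1, K, hK⟩ := hG
      exact fun j => bm_mono hle (hG1 j) fun y => hK y j
    have hfg : BM fun y => f y - g y := hf.sub hgB
    have hj : ∀ j, l2 m (fun y => G y j - c j y) ≤ C * δ := by
      intro j
      have e1 := coeff_condExp ℬ hle hM G hG hGΓ j
      have e2 : m[fun y => (G y ⬝ᵥ E y) * conj (E y j)|ℬ] =ᵐ[m]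
          m[fun y => g y * conj (E y j)|ℬ] := by
        refine condExp_congr_ae ?_
        filter_upwards [hgG] with y hy
        rw [hy]
      have e3 := condExp_sub (μ := m) (f := fun y => f y * conj (E y j))
        (g := fun y => g y * conj (E y j)) (hf.mul (hM.bmE j).conj).integrable
        (hgB.mul (hM.bmE j).conj).integrable ℬ
      have e4 : ((fun y => f y * conj (E y j)) - fun y => g y * conj (E y j)) =
          fun y => (f y - g y) * conj (E y j) := by
        funext y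
        simp only [Pi.sub_apply]
        ring
      rw [e4] at e3
      have e5 : l2 m (fun y => G y j - c j y) =
          l2 m (m[fun y => (f y - g y) * conj (E y j)|ℬ]) := by
        have e6 : l2 m (fun y => G y j - c j y) = l2 m (fun y => c j y - G y j) := by
          unfold l2
          simp_rw [norm_sub_rev]
        rw [e6]
        refine Pool.Agent.Lib.H22M.l2_congr ?_
        filter_upwards [e1, e2, e3, hc3 j] with y a1 a2 a3 a4
        rw [a3, Pi.sub_apply, ← a2, a1, a4]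
      rw [e5]
      have e7 := Pool.Agent.Lib.H22M.l2_condExp_le ℬ m hle (fun y => (f y - g y) * conj (E y j))
        (hfg.mul (hM.bmE j).conj)
      have e8 := ev2_l2_mul (m := m) hfg (hM.bmE j).conj hC0 (fun y => by
        rw [RCLike.norm_conj]; exact hC y j)
      exact e7.trans (e8.trans (mul_le_mul_of_nonneg_left hgδ hC0))
    have e9 : l2 m (fun y => f y - ∑ j, c j y * E y j) =
        l2 m (fun y => (f y - g y) + ∑ j, (G y j - c j y) * E y j) := by
      refine Pool.Agent.Lib.H22M.l2_congr ?_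
      filter_upwards [hgG] with y hy
      have e10 : g y = ∑ j, G y j * E y j := hy
      simp_rw [sub_mul, Finset.sum_sub_distrib, ← e10]
      ring
    have hGc : ∀ j, BM fun y => (G y j - c j y) * E y j := fun j =>
      ((hGB j).sub (hcB j)).mul (hM.bmE j)
    rw [e9]
    refine (Pool.Agent.Lib.H22M.l2_add_le hfg (BM.sum _ fun j _ => hGc j)).trans ?_
    have e11 := ev2_l2_sum (m := m) (univ : Finset (Fin d))
      (fun j y => (G y j - c j y) * E y j) fun j _ => hGc j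
    have e12 : ∑ j, l2 m (fun y => (G y j - c j y) * E y j) ≤ ∑ _j : Fin d, C * (C * δ) := by
      refine Finset.sum_le_sum fun j _ => ?_
      exact (ev2_l2_mul ((hGB j).sub (hcB j)) (hM.bmE j) hC0 fun y => hC y j).trans
        (mul_le_mul_of_nonneg_left (hj j) hC0)
    have e13 : ∑ _j : Fin d, C * (C * δ) = (∑ _j : Fin d, C * C) * δ := by
      rw [Finset.sum_mul]
      exact Finset.sum_congr rfl fun _ _ => by ring
    rw [e13] at e12
    calc l2 m (fun y => f y - g y) + l2 m (fun y => ∑ j, (G y j - c j y) * E y j)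
        ≤ δ + (∑ _j : Fin d, C * C) * δ := add_le_add hgδ (e11.trans e12)
      _ = (1 + ∑ _j : Fin d, C * C) * δ := by ring
  have hKpos : 0 < 1 + ∑ _j : Fin d, C * C := by
    have : 0 ≤ ∑ _j : Fin d, C * C := Finset.sum_nonneg fun _ _ => mul_nonneg hC0 hC0
    linarith
  have hz : l2 m (fun y => f y - ∑ j, c j y * E y j) = 0 := by
    refine le_antisymm ?_ (l2_nonneg _ _)
    refine le_of_forall_pos_le_add fun ε hε => ?_
    have h1 := hmain (ε / (1 + ∑ _j : Fin d, C * C)) (div_pos hε hKpos)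
    rw [mul_div_cancel₀ _ hKpos.ne'] at h1
    linarith
  have h2 := ev2_zero (hf.sub hcS) hz
  filter_upwards [h2] with y hy
  exact sub_eq_zero.mp hy

private theorem ev2_meas_add {Ω : Type*} [MeasurableSpace Ω] (a b : Ω → ℂ)
    (ha : Measurable a) (hb : Measurable b) : Measurable fun ω => a ω + b ω := ha.add hb

private theorem ev2_meas_mul {Ω : Type*} [MeasurableSpace Ω] (a b : Ω → ℂ)
    (ha : Measurable a) (hb : Measurable b) : Measurable fun ω => a ω * b ω := ha.mul hb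

private theorem ev2_meas_smul {Ω : Type*} [MeasurableSpace Ω] (c : ℂ) (b : Ω → ℂ)
    (hb : Measurable b) : Measurable fun ω => c * b ω := measurable_const.mul hb

private theorem ev2_meas_sum {Ω : Type*} [MeasurableSpace Ω] {d : ℕ} (a b : Fin d → Ω → ℂ)
    (ha : ∀ i, Measurable (a i)) (hb : ∀ i, Measurable (b i)) :
    Measurable fun ω => ∑ i, a i ω * b i ω :=
  Finset.measurable_fun_sum _ fun i _ => (ha i).mul (hb i)

private theorem ev2_unit {d : ℕ} (P : Matrix (Fin d) (Fin d) ℂ) (h1 : P * Pᴴ = 1)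
    (i j : Fin d) : ‖P i j‖ ≤ 1 := by
  have key : ((∑ k, ‖P i k‖ ^ 2 : ℝ) : ℂ) = 1 := by
    have h3 : (P * Pᴴ) i i = 1 := by rw [h1, Matrix.one_apply_eq]
    rw [← h3, Matrix.mul_apply]
    push_cast
    refine Finset.sum_congr rfl fun k _ => ?_
    rw [Matrix.conjTranspose_apply, Complex.star_def, Complex.mul_conj']
  have hle : ‖P i j‖ ^ 2 ≤ ∑ k, ‖P i k‖ ^ 2 :=
    Finset.single_le_sum (f := fun k => ‖P i k‖ ^ 2) (fun k _ => sq_nonneg _) (Finset.mem_univ j)
  have h4 : (∑ k, ‖P i k‖ ^ 2 : ℝ) = 1 := by exact_mod_cast key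
  rw [h4] at hle
  exact (sq_le_one_iff₀ (norm_nonneg _)).mp hle

/-- Proof. Sums and multiples: of the rows. Composition: `f (R y) = F (R y) ⬝ᵥ (Φ y *ᵥ E y) =
(F (R y) ᵥ* Φ y) ⬝ᵥ E y` a.e. (`R` preserves `m`; the row `evr R Φ F` is in `RowB`, as `ℬ` is invariant and
the entries of unitary matrices are bounded by `1`). Multiplication by a bounded `𝒵`-measurable (hence
`ℬ`-measurable) function. Limits: `ModV.lim`. -/
theorem modV_class {Y : Type*} {d : ℕ} (𝒵 ℬ : MeasurableSpace Y) [mY : MeasurableSpace Y]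
    {m : Measure Y} [IsProbabilityMeasure m] (h𝒵 : 𝒵 ≤ ℬ) (hle : ℬ ≤ mY) {R : Y → Y}
    (hR : MeasurePreserving R m m) (hinv : ℬ.comap R = ℬ)
    {Φ Γ : Y → Matrix (Fin d) (Fin d) ℂ} {E : Y → Fin d → ℂ} (hM : IsMod ℬ m R Φ Γ E) :
    VClass 𝒵 m R (ModV ℬ m E) := by
  refine ⟨fun f hf => hf.1, ?_, ?_, ?_, ?_, fun f hf h => ModV.lim ℬ hle hM f hf h⟩
  · rintro f g ⟨hf, F, ⟨hF1, C, hC⟩, hfF⟩ ⟨hg, G, ⟨hG1, C', hC'⟩, hgG⟩
    refine ⟨hf.add hg, fun y => F y + G y, ⟨fun j => ?_, C + C', fun y j => ?_⟩, ?_⟩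
    · exact @ev2_meas_add Y ℬ _ _ (hF1 j) (hG1 j)
    · exact (norm_add_le _ _).trans (add_le_add (hC y j) (hC' y j))
    · filter_upwards [hfF, hgG] with y h1 h2
      rw [h1, h2, add_dotProduct]
  · rintro c f ⟨hf, F, ⟨hF1, C, hC⟩, hfF⟩
    refine ⟨(BM.const c).mul hf, fun y => c • F y, ⟨fun j => ?_, ‖c‖ * C, fun y j => ?_⟩, ?_⟩
    · exact @ev2_meas_smul Y ℬ c _ (hF1 j)
    · show ‖c * F y j‖ ≤ _
      rw [norm_mul]
      exact mul_le_mul_of_nonneg_left (hC y j) (norm_nonneg _)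
    · filter_upwards [hfF] with y h1
      rw [h1, smul_dotProduct, smul_eq_mul]
  · rintro f ⟨hf, F, ⟨hF1, C, hC⟩, hfF⟩
    have hRm : Measurable R := hR.measurable
    refine ⟨hf.comp hRm, fun y => F (R y) ᵥ* Φ y,
      ⟨fun j => ?_, ∑ _i : Fin d, C * 1, fun y j => ?_⟩, ?_⟩
    · have h1 : ∀ i, Measurable[ℬ] fun y => F (R y) i := by
        intro i
        have h2 : Measurable[ℬ.comap R] fun y => F (R y) i := by
          intro s hs
          exact ⟨(fun y => F y i) ⁻¹' s, hF1 i hs, rfl⟩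
        rwa [hinv] at h2
      exact @ev2_meas_sum Y ℬ d (fun i y => F (R y) i) (fun i y => Φ y i j) h1
        (fun i => hM.measΦ i j)
    · show ‖∑ i, F (R y) i * Φ y i j‖ ≤ _
      refine (norm_sum_le _ _).trans (Finset.sum_le_sum fun i _ => ?_)
      rw [norm_mul]
      exact mul_le_mul (hC (R y) i) (ev2_unit _ (hM.unit y) i j) (norm_nonneg _)
        ((norm_nonneg _).trans (hC (R y) i))
    · have h3 : ∀ᵐ y ∂m, f (R y) = F (R y) ⬝ᵥ E (R y) := hR.quasiMeasurePreserving.ae hfF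
      filter_upwards [h3, hM.rel] with y h1 h2
      rw [h1, h2, Matrix.dotProduct_mulVec]
  · rintro χ f hχ ⟨K, hK⟩ ⟨hf, F, ⟨hF1, C, hC⟩, hfF⟩
    have hχℬ : Measurable[ℬ] χ := hχ.mono h𝒵 le_rfl
    have hχB : BM χ := bm_mono hle hχℬ hK
    refine ⟨hχB.mul hf, fun y => χ y • F y, ⟨fun j => ?_, K * C, fun y j => ?_⟩, ?_⟩
    · exact @ev2_meas_mul Y ℬ _ _ hχℬ (hF1 j)
    · show ‖χ y * F y j‖ ≤ _
      rw [norm_mul]
      exact mul_le_mul (hK y) (hC y j) (norm_nonneg _) ((norm_nonneg _).trans (hK y))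
    · filter_upwards [hfF] with y h1
      rw [h1, smul_dotProduct, smul_eq_mul]

end Pool.Agent.Lib.H82OT
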