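import Pool.Agent.Lib.H82OT.DC1

/-!
# Project H82OT, chunk DC2: the class AP
-/

open MeasureTheory Filter Topology Finset ProbabilityTheory
open scoped ENNReal ComplexConjugate Matrix

namespace Pool.Agent.Lib.H82OT

open Pool.Agent.Lib.H22M Pool.Agent.Lib.H82T

variable {Y : Type*} {𝒵 : MeasurableSpace Y} [mY : MeasurableSpace Y] [StandardBorelSpace Y]

private theorem dc2_smul (m : Measure Y) [IsProbabilityMeasure m] (h𝒵 : 𝒵 ≤ mY) {R : Y → Y}
    {V : (Y → ℂ) → Prop} (hV : VClass 𝒵 m R V) (w : Y → ℂ) (c : ℂ) (hw : AP m h𝒵 R V w) :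
    AP m h𝒵 R V (fun y => c * w y) := by
  obtain ⟨hB, k, K, h, h1, h2⟩ := hw
  have key : ∀ i y, Kop m h𝒵 (K i) (fun x => c * h i x + 0 * h i x) y =
      c * Kop m h𝒵 (K i) (h i) y := by
    intro i y
    rw [Kop_add_smul m h𝒵 (K i) (h i) (h i) c 0 (h1 i).1.1 (h1 i).2.1 (h1 i).2.1 y, zero_mul,
      add_zero]
  refine ⟨(BM.const c).mul hB, k, K, fun i x => c * h i x + 0 * h i x, fun i => ⟨(h1 i).1, ?_, ?_⟩,
    ?_⟩
  · have e : (fun x => c * h i x + 0 * h i x) = fun x => c * h i x := by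
      funext x
      ring
    show BM (fun x => c * h i x + 0 * h i x)
    rw [e]
    exact (BM.const c).mul (h1 i).2.1
  · have e : Kop m h𝒵 (K i) (fun x => c * h i x + 0 * h i x) =
        fun y => c * Kop m h𝒵 (K i) (h i) y := funext (key i)
    show V (Kop m h𝒵 (K i) (fun x => c * h i x + 0 * h i x))
    rw [e]
    exact hV.smul c _ (h1 i).2.2
  · filter_upwards [h2] with y hy
    rw [hy, Finset.mul_sum]
    exact Finset.sum_congr rfl fun i _ => (key i y).symm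

private theorem dc2_add (m : Measure Y) [IsProbabilityMeasure m] (h𝒵 : 𝒵 ≤ mY) {R : Y → Y}
    {V : (Y → ℂ) → Prop} (w w' : Y → ℂ) (hw : AP m h𝒵 R V w) (hw' : AP m h𝒵 R V w') :
    AP m h𝒵 R V (fun y => w y + w' y) := by
  obtain ⟨hB, k, K, h, h1, h2⟩ := hw
  obtain ⟨hB', k', K', h', h1', h2'⟩ := hw'
  refine ⟨hB.add hB', k + k', Fin.append K K', Fin.append h h', fun i => ?_, ?_⟩
  · refine Fin.addCases (fun i => ?_) (fun i => ?_) i
    · rw [Fin.append_left, Fin.append_left]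
      exact h1 i
    · rw [Fin.append_right, Fin.append_right]
      exact h1' i
  · filter_upwards [h2, h2'] with y hy hy'
    rw [Fin.sum_univ_add, hy, hy']
    simp only [Fin.append_left, Fin.append_right]

/-- Proof. Concatenate the two families (`Fin.append`, `Fin.sum_univ_add`, see `w3_span` in
`H22M/W3.lean`); for the multiples use `Kop_add_smul` with `c' = 0` and `hV.smul`. -/
theorem AP.add_smul (m : Measure Y) [IsProbabilityMeasure m] (h𝒵 : 𝒵 ≤ mY) {R : Y → Y}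
    {V : (Y → ℂ) → Prop} (hV : VClass 𝒵 m R V) (w w' : Y → ℂ) (c c' : ℂ)
    (hw : AP m h𝒵 R V w) (hw' : AP m h𝒵 R V w') :
    AP m h𝒵 R V (fun y => c * w y + c' * w' y) := by
  exact dc2_add m h𝒵 _ _ (dc2_smul m h𝒵 hV w c hw) (dc2_smul m h𝒵 hV w' c' hw')

/-- Proof. `k = 0`. -/
theorem AP.zero (m : Measure Y) [IsProbabilityMeasure m] (h𝒵 : 𝒵 ≤ mY) (R : Y → Y)
    (V : (Y → ℂ) → Prop) : AP m h𝒵 R V (fun _ => 0) := by
  exact ⟨BM.const 0, 0, Fin.elim0, Fin.elim0, fun i => i.elim0, Eventually.of_forall fun y => by simp⟩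

/-- Proof. `k = 1`. -/
theorem AP.kernel (m : Measure Y) [IsProbabilityMeasure m] (h𝒵 : 𝒵 ≤ mY) (R : Y → Y)
    (V : (Y → ℂ) → Prop) (K : Y × Y → ℂ) (hK : IsKer m h𝒵 R K) (h : Y → ℂ) (hh : BM h)
    (hV : V (Kop m h𝒵 K h)) : AP m h𝒵 R V (Kop m h𝒵 K h) := by
  refine ⟨Kop_BM m h𝒵 K h hK.1 hh, 1, fun _ => K, fun _ => h, fun _ => ⟨hK, hh, hV⟩,
    Eventually.of_forall fun y => ?_⟩
  simp

/-- Proof. Replace `h i` by `χ * h i`: `Kop_mul`, `hV.mul`, `VClass.congr`. -/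
theorem AP.mul (m : Measure Y) [IsProbabilityMeasure m] (h𝒵 : 𝒵 ≤ mY) {R : Y → Y}
    {V : (Y → ℂ) → Prop} (hV : VClass 𝒵 m R V) (w χ : Y → ℂ) (hw : AP m h𝒵 R V w)
    (hχ : Measurable[𝒵] χ) (hb : ∃ C : ℝ, ∀ y, ‖χ y‖ ≤ C) :
    AP m h𝒵 R V (fun y => χ y * w y) := by
  obtain ⟨hB, k, K, h, h1, h2⟩ := hw
  have hχ' : BM χ := ⟨hχ.mono h𝒵 le_rfl, hb⟩
  have key : ∀ i, ∀ᵐ y ∂m, Kop m h𝒵 (K i) (fun x => χ x * h i x) y =
      χ y * Kop m h𝒵 (K i) (h i) y := fun i =>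
    Kop_mul m h𝒵 (K i) (h1 i).1.1 (h i) (h1 i).2.1 χ hχ hb
  refine ⟨hχ'.mul hB, k, K, fun i x => χ x * h i x, fun i => ⟨(h1 i).1, hχ'.mul (h1 i).2.1, ?_⟩, ?_⟩
  · exact hV.congr m _ _ (hV.mul χ _ hχ hb (h1 i).2.2)
      (Kop_BM m h𝒵 (K i) _ (h1 i).1.1 (hχ'.mul (h1 i).2.1)) (key i)
  · filter_upwards [h2, ae_all_iff.2 key] with y hy hk
    rw [hy, Finset.mul_sum]
    exact Finset.sum_congr rfl fun i _ => (hk i).symm

/-- Proof. `V` of the finite sum by `hV.add` (for `k = 0`: `hV.smul 0 f`), then `VClass.congr`. -/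
theorem AP.mem (m : Measure Y) [IsProbabilityMeasure m] (h𝒵 : 𝒵 ≤ mY) {R : Y → Y}
    {V : (Y → ℂ) → Prop} (hV : VClass 𝒵 m R V) (f w : Y → ℂ) (hf : V f)
    (hw : AP m h𝒵 R V w) : V w := by
  obtain ⟨hB, k, K, h, h1, h2⟩ := hw
  have hs : ∀ s : Finset (Fin k), V (fun y => ∑ i ∈ s, Kop m h𝒵 (K i) (h i) y) := by
    classical
    intro s
    induction s using Finset.induction_on with
    | empty =>
      have e : (fun y : Y => ∑ i ∈ (∅ : Finset (Fin k)), Kop m h𝒵 (K i) (h i) y) =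
          fun y => 0 * f y := by
        funext y
        rw [Finset.sum_empty, zero_mul]
      rw [e]
      exact hV.smul 0 f hf
    | insert a s ha ih =>
      have e : (fun y : Y => ∑ i ∈ insert a s, Kop m h𝒵 (K i) (h i) y) =
          fun y => Kop m h𝒵 (K a) (h a) y + ∑ i ∈ s, Kop m h𝒵 (K i) (h i) y := by
        funext y
        rw [Finset.sum_insert ha]
      rw [e]
      exact hV.add _ _ (h1 a).2.2 ih
  exact hV.congr m _ _ (hs Finset.univ) hB h2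

end Pool.Agent.Lib.H82OT
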