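import Pool.Agent.Lib.H82OT.HT7
import Pool.Agent.Lib.H82OT.DC2

/-!
# Project H82OT, chunk HT8: functions in AP have the property QS
-/

open MeasureTheory Filter Topology Finset ProbabilityTheory
open scoped ENNReal ComplexConjugate Matrix

namespace Pool.Agent.Lib.H82OT

open Pool.Agent.Lib.H22M Pool.Agent.Lib.H82T

variable {Y : Type*} {𝒵 : MeasurableSpace Y} [mY : MeasurableSpace Y] [StandardBorelSpace Y]

/-- Proof. `QS.approx`: given `δ`, let `C` bound `K` and take eigenfunctions `e i` with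
`l2 m (h₀ - ∑ e i) ≤ δ / (C + 1)` (`hk.dense`). `Kop K (∑ e i) = ∑ Kop K (e i)` (`Kop_sum`), each
`Kop K (e i)` is a bounded eigenfunction (`Kop_eigen`, `Kop_BM`), so `QS` (`QS_eigen`, `QS.sum`), and
`l2 m (Kop K h₀ - Kop K (∑ e i)) = l2 m (Kop K (h₀ - ∑ e i)) ≤ C δ / (C + 1) ≤ δ` (`l2_Kop_le_right`). -/
theorem QS_Kop_kron (m : Measure Y) [IsProbabilityMeasure m] (h𝒵 : 𝒵 ≤ mY) (R : Y ≃ᵐ Y)
    (hR : Ergodic R m) (hk : KronAlg 𝒵 m R) (K : Y × Y → ℂ) (hK : IsKer m h𝒵 R K) (h₀ : Y → ℂ)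
    (hh : Measurable[𝒵] h₀) (hb : ∃ C : ℝ, ∀ y, ‖h₀ y‖ ≤ C) : QS m R (Kop m h𝒵 K h₀) := by
  have hBM : BM h₀ := ⟨hh.mono h𝒵 le_rfl, hb⟩
  refine QS.approx (Kop m h𝒵 K h₀) (Kop_BM m h𝒵 K h₀ hK.1 hBM) ?_
  intro δ hδ
  obtain ⟨C₀, hC₀⟩ := hK.1.2
  have hC0 : (0 : ℝ) ≤ max C₀ 0 := le_max_right _ _
  have hC : ∀ z, ‖K z‖ ≤ max C₀ 0 := fun z => (hC₀ z).trans (le_max_left _ _)
  generalize max C₀ 0 = C at hC0 hC
  obtain ⟨k, l, e, he, hl2⟩ := hk.dense h₀ hh hb (δ / (C + 1)) (by positivity)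
  have hs : BM (fun y => ∑ i, e i y) := BM.sum univ (fun i _ => (he i).1)
  refine ⟨Kop m h𝒵 K (fun y => ∑ i, e i y), Kop_BM m h𝒵 K _ hK.1 hs, ?_, ?_⟩
  · have h1 : Kop m h𝒵 K (fun y => ∑ i, e i y) = fun y => ∑ i, Kop m h𝒵 K (e i) y := by
      funext y
      exact Kop_sum m h𝒵 K hK.1 univ e (fun i _ => (he i).1) y
    rw [h1]
    refine QS.sum univ (fun i => Kop m h𝒵 K (e i))
      (fun i _ => Kop_BM m h𝒵 K (e i) hK.1 (he i).1) (fun i _ => ?_)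
    exact QS_eigen hR (Kop m h𝒵 K (e i)) (Kop_BM m h𝒵 K (e i) hK.1 (he i).1) (l i) (he i).2.1
      (Kop_eigen m h𝒵 R hR.toMeasurePreserving hk.inv K hK (e i) (he i).1 (l i) (he i).2.2)
  · have h2 : (fun y => Kop m h𝒵 K h₀ y - Kop m h𝒵 K (fun y => ∑ i, e i y) y) =
        Kop m h𝒵 K (fun y => h₀ y - ∑ i, e i y) := by
      funext y
      have h3 := Kop_add_smul m h𝒵 K h₀ (fun y => ∑ i, e i y) 1 (-1) hK.1 hBM hs y
      have h4 : (fun x => (1 : ℂ) * h₀ x + (-1) * (fun y => ∑ i, e i y) x) =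
          fun y => h₀ y - ∑ i, e i y := by
        funext x
        ring
      rw [h4] at h3
      rw [h3]
      ring
    rw [h2]
    refine (l2_Kop_le_right m h𝒵 K _ hK.1 (hBM.sub hs) C hC0 hC).trans ?_
    calc C * l2 m (fun y => h₀ y - ∑ i, e i y) ≤ C * (δ / (C + 1)) :=
          mul_le_mul_of_nonneg_left hl2 hC0
      _ = δ * (C / (C + 1)) := by ring
      _ ≤ δ * 1 := by
          refine mul_le_mul_of_nonneg_left ?_ hδ.le
          rw [div_le_one (by positivity)]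
          linarith
      _ = δ := mul_one δ

/-- Proof. Let `h₀` be a bounded `𝒵`-measurable version of `m[h|𝒵]` (`exists_version` in
`H82T/CV.lean`). `Kop K h = Kop K h₀ + Kop K (h - h₀)` (`Kop_add_smul`): `QS_Kop_kron`, and
`QS_Kop_orth` with `sub_version_orth` (`WN1.lean`); `QS.add`, `QS.congr`. -/
theorem QS_Kop (m : Measure Y) [IsProbabilityMeasure m] (h𝒵 : 𝒵 ≤ mY) (R : Y ≃ᵐ Y)
    (hR : Ergodic R m) (hk : KronAlg 𝒵 m R) (K : Y × Y → ℂ) (hK : IsKer m h𝒵 R K) (h : Y → ℂ)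
    (hh : BM h) : QS m R (Kop m h𝒵 K h) := by
  obtain ⟨C₀, hC₀⟩ := hh.2
  obtain ⟨g, hgm, hgC, -, hver⟩ := exists_version 𝒵 m h𝒵 h hh.1 (max C₀ 0) (le_max_right _ _)
    (Filter.Eventually.of_forall fun y => (hC₀ y).trans (le_max_left _ _))
  have hg : BM g := ⟨hgm.mono h𝒵 le_rfl, max C₀ 0, hgC⟩
  have hd : BM (fun y => h y - g y) := hh.sub hg
  have h1 : QS m R (Kop m h𝒵 K g) := QS_Kop_kron m h𝒵 R hR hk K hK g hgm ⟨max C₀ 0, hgC⟩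
  have h2 : QS m R (Kop m h𝒵 K (fun y => h y - g y)) :=
    QS_Kop_orth m h𝒵 R hR hk K hK (fun y => h y - g y) hd
      (fun e l he hl => sub_version_orth hk h g hh hg hver e l he hl)
  have h3 : ∀ y, Kop m h𝒵 K h y = Kop m h𝒵 K g y + Kop m h𝒵 K (fun y => h y - g y) y := by
    intro y
    have h4 := Kop_add_smul m h𝒵 K g (fun y => h y - g y) 1 1 hK.1 hg hd y
    have h5 : (fun x => (1 : ℂ) * g x + 1 * (fun y => h y - g y) x) = h := by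
      funext x
      ring
    rw [h5] at h4
    rw [h4]
    ring
  exact QS.congr (Kop m h𝒵 K h) (fun y => Kop m h𝒵 K g y + Kop m h𝒵 K (fun y => h y - g y) y)
    (Kop_BM m h𝒵 K h hK.1 hh)
    ((Kop_BM m h𝒵 K g hK.1 hg).add (Kop_BM m h𝒵 K _ hK.1 hd))
    (Filter.Eventually.of_forall h3)
    (QS.add _ _ (Kop_BM m h𝒵 K g hK.1 hg) (Kop_BM m h𝒵 K _ hK.1 hd) h1 h2)

/-- Proof. `QS.sum`, `QS.congr`, `QS_Kop`, `Kop_BM`. -/
theorem QS_AP (m : Measure Y) [IsProbabilityMeasure m] (h𝒵 : 𝒵 ≤ mY) (R : Y ≃ᵐ Y)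
    (hR : Ergodic R m) (hk : KronAlg 𝒵 m R) (V : (Y → ℂ) → Prop) (w : Y → ℂ)
    (hw : AP m h𝒵 R V w) : QS m R w := by
  obtain ⟨hwB, k, K, h, hi, hae⟩ := hw
  have hB : ∀ i ∈ (univ : Finset (Fin k)), BM (Kop m h𝒵 (K i) (h i)) := fun i _ =>
    Kop_BM m h𝒵 (K i) (h i) (hi i).1.1 (hi i).2.1
  exact QS.congr w (fun y => ∑ i, Kop m h𝒵 (K i) (h i) y) hwB (BM.sum univ hB) hae
    (QS.sum univ (fun i => Kop m h𝒵 (K i) (h i)) hB
      (fun i _ => QS_Kop m h𝒵 R hR hk (K i) (hi i).1 (h i) (hi i).2.1))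

end Pool.Agent.Lib.H82OT
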