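import Pool.Agent.Lib.H82OT.GR2
import Pool.Agent.Lib.H82OT.EV1

/-!
# Project H82OT, chunk GR3: reduction to a projection
-/

open MeasureTheory Filter Topology Finset ProbabilityTheory
open scoped ENNReal ComplexConjugate Matrix ComplexOrder

namespace Pool.Agent.Lib.H82OT

open Pool.Agent.Lib.H22M Pool.Agent.Lib.H82T

private theorem gr3_sm {Ω : Type*} [MeasurableSpace Ω] (g : Ω → ℂ) (hg : Measurable g) :
    StronglyMeasurable g := hg.stronglyMeasurable

private theorem gr3_mul {Ω : Type*} [MeasurableSpace Ω] (f g : Ω → ℂ) (hf : Measurable f)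
    (hg : Measurable g) : Measurable fun ω => f ω * g ω := hf.mul hg

private theorem gr3_conj {Ω : Type*} [MeasurableSpace Ω] (f : Ω → ℂ) (hf : Measurable f) :
    Measurable fun ω => conj (f ω) := Complex.continuous_conj.measurable.comp hf

private theorem gr3_sum {Ω ι : Type*} [MeasurableSpace Ω] (s : Finset ι) (f : ι → Ω → ℂ)
    (hf : ∀ i ∈ s, Measurable (f i)) : Measurable fun ω => ∑ i ∈ s, f i ω :=
  Finset.measurable_fun_sum s hf

private theorem gr3_sub {Ω : Type*} [MeasurableSpace Ω] (c : ℂ) (f : Ω → ℂ) (hf : Measurable f) :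
    Measurable fun ω => c - f ω := hf.const_sub c

private theorem gr3_bm_mul {Y : Type*} [MeasurableSpace Y] {f g : Y → ℂ} (hf : BM f) (hg : BM g) :
    BM fun y => f y * g y := by
  obtain ⟨C, hC⟩ := hf.2
  obtain ⟨D, hD⟩ := hg.2
  refine ⟨hf.1.mul hg.1, C * D, fun y => ?_⟩
  rw [norm_mul]
  exact mul_le_mul (hC y) (hD y) (norm_nonneg _) ((norm_nonneg _).trans (hC y))

private theorem gr3_bm_conj {Y : Type*} [MeasurableSpace Y] {f : Y → ℂ} (hf : BM f) :
    BM fun y => conj (f y) := by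
  obtain ⟨C, hC⟩ := hf.2
  refine ⟨gr3_conj f hf.1, C, fun y => ?_⟩
  rw [RCLike.norm_conj]
  exact hC y

private theorem gr3_bm_sum {Y ι : Type*} [MeasurableSpace Y] (s : Finset ι) {f : ι → Y → ℂ}
    (hf : ∀ i ∈ s, BM (f i)) : BM fun y => ∑ i ∈ s, f i y := by
  classical
  refine ⟨Finset.measurable_fun_sum s fun i hi => (hf i hi).1, ?_⟩
  have h1 : ∀ i : ι, ∃ C : ℝ, i ∈ s → ∀ y, ‖f i y‖ ≤ C := by
    intro i
    by_cases h : i ∈ s
    · obtain ⟨C, hC⟩ := (hf i h).2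
      exact ⟨C, fun _ => hC⟩
    · exact ⟨0, fun h' => absurd h' h⟩
  choose C hC using h1
  refine ⟨∑ i ∈ s, C i, fun y => ?_⟩
  exact (norm_sum_le _ _).trans (Finset.sum_le_sum fun i hi => hC i hi y)

private theorem gr3_bm_int {Y : Type*} [MeasurableSpace Y] {m : Measure Y} [IsProbabilityMeasure m]
    {f : Y → ℂ} (hf : BM f) : Integrable f m := by
  obtain ⟨C, hC⟩ := hf.2
  exact Integrable.of_bound hf.1.aestronglyMeasurable C (Eventually.of_forall hC)

/-- The Gram matrix of `C E`. -/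
private theorem gr3_gram {Y : Type*} {d : ℕ} (ℬ : MeasurableSpace Y)
    [mY : MeasurableSpace Y] {m : Measure Y} [IsProbabilityMeasure m] (hle : ℬ ≤ mY)
    (E : Y → Fin d → ℂ) (hE : ∀ i, BM fun y => E y i) (G C : Y → Matrix (Fin d) (Fin d) ℂ)
    (hG : ∀ i j, m[fun y => E y i * conj (E y j)|ℬ] =ᵐ[m] fun y => G y i j)
    (hC : ∀ i j, Measurable[ℬ] fun y => C y i j) (hb : ∀ i j, ∃ D : ℝ, ∀ y, ‖C y i j‖ ≤ D)
    (i j : Fin d) :
    m[fun y => (C y *ᵥ E y) i * conj ((C y *ᵥ E y) j)|ℬ] =ᵐ[m]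
      fun y => (C y * G y * (C y)ᴴ) i j := by
  have hCb : ∀ i j, BM fun y => C y i j := fun i j => ⟨(hC i j).mono hle le_rfl, hb i j⟩
  have hEE : ∀ k l, BM fun y => E y k * conj (E y l) := fun k l =>
    gr3_bm_mul (hE k) (gr3_bm_conj (hE l))
  have hcc : ∀ k l, BM fun y => C y i k * conj (C y j l) := fun k l =>
    gr3_bm_mul (hCb i k) (gr3_bm_conj (hCb j l))
  have h1 : (fun y => (C y *ᵥ E y) i * conj ((C y *ᵥ E y) j)) =
      ∑ p : Fin d × Fin d, fun y => (C y i p.1 * conj (C y j p.2)) * (E y p.1 * conj (E y p.2)) := by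
    funext y
    rw [Finset.sum_apply, Fintype.sum_prod_type]
    simp only [Matrix.mulVec, dotProduct, map_sum, map_mul]
    rw [Finset.sum_mul_sum]
    refine Finset.sum_congr rfl fun k _ => Finset.sum_congr rfl fun l _ => ?_
    ring
  rw [h1]
  have h2 := condExp_finsetSum (μ := m) (s := Finset.univ)
    (f := fun p : Fin d × Fin d => fun y => (C y i p.1 * conj (C y j p.2)) * (E y p.1 * conj (E y p.2)))
    (fun p _ => gr3_bm_int (gr3_bm_mul (hcc p.1 p.2) (hEE p.1 p.2))) ℬ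
  have h3 : ∀ p : Fin d × Fin d,
      m[fun y => (C y i p.1 * conj (C y j p.2)) * (E y p.1 * conj (E y p.2))|ℬ] =ᵐ[m]
        fun y => (C y i p.1 * conj (C y j p.2)) * G y p.1 p.2 := by
    intro p
    have hfs : StronglyMeasurable[ℬ] fun y => C y i p.1 * conj (C y j p.2) :=
      @gr3_sm Y ℬ _ (@gr3_mul Y ℬ _ _ (hC i p.1) (@gr3_conj Y ℬ _ (hC j p.2)))
    have hpull : m[fun y => (C y i p.1 * conj (C y j p.2)) * (E y p.1 * conj (E y p.2))|ℬ] =ᵐ[m]
        fun y => (C y i p.1 * conj (C y j p.2)) * (m[fun y => E y p.1 * conj (E y p.2)|ℬ]) y :=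
      condExp_bilin_of_stronglyMeasurable_left (ContinuousLinearMap.mul ℝ ℂ) hfs
        (gr3_bm_int (gr3_bm_mul (hcc p.1 p.2) (hEE p.1 p.2))) (gr3_bm_int (hEE p.1 p.2))
    filter_upwards [hpull, hG p.1 p.2] with y e1 e2
    rw [e1, e2]
  have h4 : ∀ᵐ y ∂m, ∀ p : Fin d × Fin d,
      (m[fun y => (C y i p.1 * conj (C y j p.2)) * (E y p.1 * conj (E y p.2))|ℬ]) y =
        (C y i p.1 * conj (C y j p.2)) * G y p.1 p.2 := ae_all_iff.2 h3
  filter_upwards [h2, h4] with y e1 e2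
  rw [e1, Finset.sum_apply, Finset.sum_congr rfl fun p _ => e2 p, Fintype.sum_prod_type,
    Finset.sum_comm, Matrix.mul_apply]
  refine Finset.sum_congr rfl fun l _ => ?_
  rw [Matrix.mul_apply, Finset.sum_mul, Matrix.conjTranspose_apply]
  refine Finset.sum_congr rfl fun k _ => ?_
  rw [RCLike.star_def]
  ring

/-- Proof. Let `G, χ` be as in `exists_gram` and `A, B` as in `exists_sqrt_polys`; `a y = aeval (G y) A`,
`b y = aeval (G y) B` (`ℬ`-measurable, bounded entries: `aeval_entries`), `Γ = a b`, `E' y = b y *ᵥ E y`.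
`E'(R y) = b(R y) E(R y) = Φ b Φᴴ Φ E = Φ E'` (`aeval_conj`; `Φᴴ Φ = 1`: `Matrix.mul_eq_one_comm`).
Gram matrix of `E'`: `b G bᴴ = b G b = Γ` (pull-out). `Γ(R y) = Φ Γ Φᴴ`. `E = a *ᵥ E'` a.e.: the Gram matrix
of `(1 - Γ) E` is `(1 - Γ) G (1 - Γ)ᴴ = 0`, so `E = Γ E = a E'` a.e. (as in `mod_proj`). -/
theorem exists_normal_module {Y : Type*} {d : ℕ} (ℬ : MeasurableSpace Y)
    [mY : MeasurableSpace Y] {m : Measure Y} [IsProbabilityMeasure m] (hle : ℬ ≤ mY) (R : Y ≃ᵐ Y)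
    (hR : Ergodic R m) (hinv : ℬ.comap R = ℬ) (Φ : Y → Matrix (Fin d) (Fin d) ℂ)
    (hΦ : ∀ i j, Measurable[ℬ] fun y => Φ y i j) (hu : ∀ y, Φ y * (Φ y)ᴴ = 1)
    (E : Y → Fin d → ℂ) (hE : ∀ i, BM fun y => E y i)
    (hrel : ∀ᵐ y ∂m, E (R y) = Φ y *ᵥ E y) :
    ∃ (Γ A : Y → Matrix (Fin d) (Fin d) ℂ) (E' : Y → Fin d → ℂ), IsMod ℬ m R Φ Γ E' ∧
      (∀ i j, Measurable[ℬ] fun y => A y i j) ∧ (∃ C : ℝ, ∀ y i j, ‖A y i j‖ ≤ C) ∧
      ∀ᵐ y ∂m, E y = A y *ᵥ E' y := by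
  obtain ⟨G, χ, hGm, hGb, hGp, hG, hGR⟩ := exists_gram ℬ hle R hR hinv Φ hΦ hu E hE hrel
  obtain ⟨A, B, hAB⟩ := exists_sqrt_polys (d := d) χ
  have hy := fun y => hAB (G y) (hGp y).1 (hGp y).2
  obtain ⟨haM, Ca, hCa⟩ := aeval_entries ℬ G hGm hGb A
  obtain ⟨hbM, Cb, hCb⟩ := aeval_entries ℬ G hGm hGb B
  set a : Y → Matrix (Fin d) (Fin d) ℂ := fun y => Polynomial.aeval (G y) A with ha
  set b : Y → Matrix (Fin d) (Fin d) ℂ := fun y => Polynomial.aeval (G y) B with hb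
  have hu' : ∀ y, (Φ y)ᴴ * Φ y = 1 := fun y => mul_eq_one_comm.1 (hu y)
  have haR : ∀ᵐ y ∂m, a (R y) = Φ y * a y * (Φ y)ᴴ := by
    filter_upwards [hGR] with y h
    show Polynomial.aeval (G (R y)) A = Φ y * Polynomial.aeval (G y) A * (Φ y)ᴴ
    rw [h, aeval_conj A (G y) (Φ y) (hu y)]
  have hbR : ∀ᵐ y ∂m, b (R y) = Φ y * b y * (Φ y)ᴴ := by
    filter_upwards [hGR] with y h
    show Polynomial.aeval (G (R y)) B = Φ y * Polynomial.aeval (G y) B * (Φ y)ᴴ
    rw [h, aeval_conj B (G y) (Φ y) (hu y)]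
  have haBM : ∀ i j, BM fun y => a y i j := fun i j =>
    ⟨(haM i j).mono hle le_rfl, Ca, fun y => hCa y i j⟩
  have hbBM : ∀ i j, BM fun y => b y i j := fun i j =>
    ⟨(hbM i j).mono hle le_rfl, Cb, fun y => hCb y i j⟩
  have hΓM : ∀ i j, Measurable[ℬ] fun y => (a y * b y) i j := by
    intro i j
    have h1 : (fun y => (a y * b y) i j) = fun y => ∑ k ∈ (Finset.univ : Finset (Fin d)), a y i k * b y k j := by
      funext y
      rw [Matrix.mul_apply]
    rw [h1]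
    exact @gr3_sum Y (Fin d) ℬ Finset.univ (fun k y => a y i k * b y k j) fun k _ =>
      @gr3_mul Y ℬ _ _ (haM i k) (hbM k j)
  have hΓBM : ∀ i j, BM fun y => (a y * b y) i j := by
    intro i j
    have h1 : (fun y => (a y * b y) i j) = fun y => ∑ k ∈ (Finset.univ : Finset (Fin d)), a y i k * b y k j := by
      funext y
      rw [Matrix.mul_apply]
    rw [h1]
    exact gr3_bm_sum _ fun k _ => gr3_bm_mul (haBM i k) (hbBM k j)
  refine ⟨fun y => a y * b y, a, fun y => b y *ᵥ E y, ⟨hΦ, hu, ?_, ?_, hΓM, ?_, ?_, ?_⟩, haM,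
    ⟨Ca, hCa⟩, ?_⟩
  · intro i
    have h1 : (fun y => (b y *ᵥ E y) i) = fun y => ∑ k ∈ (Finset.univ : Finset (Fin d)), b y i k * E y k := by
      funext y
      rfl
    rw [h1]
    exact gr3_bm_sum _ fun k _ => gr3_bm_mul (hbBM i k) (hE k)
  · filter_upwards [hbR, hrel] with y e1 e2
    rw [e1, e2, Matrix.mulVec_mulVec, Matrix.mulVec_mulVec, Matrix.mul_assoc, hu', Matrix.mul_one]
  · intro y
    exact ⟨(hy y).2.2.1, (hy y).2.2.2.1⟩
  · filter_upwards [haR, hbR] with y e1 e2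
    rw [e1, e2]
    calc Φ y * a y * (Φ y)ᴴ * (Φ y * b y * (Φ y)ᴴ) = Φ y * a y * ((Φ y)ᴴ * Φ y) * b y * (Φ y)ᴴ := by
          simp only [Matrix.mul_assoc]
      _ = Φ y * (a y * b y) * (Φ y)ᴴ := by
          rw [hu', Matrix.mul_one]
          simp only [Matrix.mul_assoc]
  · intro i j
    have h1 := gr3_gram ℬ hle E hE G b hG hbM (fun i j => ⟨Cb, fun y => hCb y i j⟩) i j
    filter_upwards [h1] with y e1
    rw [e1]
    have h2 : (b y)ᴴ = b y := (hy y).1
    have h3 : b y * G y * b y = a y * b y := (hy y).2.1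
    rw [h2, h3]
  · -- `E = Γ E`
    have hCM : ∀ i j, Measurable[ℬ] fun y => (1 - a y * b y) i j := by
      intro i j
      have h1 : (fun y => (1 - a y * b y) i j) = fun y => (1 : Matrix (Fin d) (Fin d) ℂ) i j - (a y * b y) i j := by
        funext y
        rw [Matrix.sub_apply]
      rw [h1]
      exact @gr3_sub Y ℬ _ _ (hΓM i j)
    have hCb' : ∀ i j, ∃ D : ℝ, ∀ y, ‖(1 - a y * b y) i j‖ ≤ D := by
      intro i j
      obtain ⟨D, hD⟩ := (hΓBM i j).2
      refine ⟨‖(1 : Matrix (Fin d) (Fin d) ℂ) i j‖ + D, fun y => ?_⟩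
      rw [Matrix.sub_apply]
      exact (norm_sub_le _ _).trans (by linarith [hD y])
    have hvBM : ∀ i, BM fun y => ((1 - a y * b y) *ᵥ E y) i := by
      intro i
      have h1 : (fun y => ((1 - a y * b y) *ᵥ E y) i) =
          fun y => ∑ k ∈ (Finset.univ : Finset (Fin d)), (1 - a y * b y) i k * E y k := by
        funext y
        rfl
      rw [h1]
      exact gr3_bm_sum _ fun k _ => gr3_bm_mul ⟨(hCM i k).mono hle le_rfl, hCb' i k⟩ (hE k)
    have hz : ∀ i, ∀ᵐ y ∂m, ((1 - a y * b y) *ᵥ E y) i = 0 := by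
      intro i
      have h1 := gr3_gram ℬ hle E hE G (fun y => 1 - a y * b y) hG hCM hCb' i i
      have h2 : (m[fun y => ((1 - a y * b y) *ᵥ E y) i * conj (((1 - a y * b y) *ᵥ E y) i)|ℬ]) =ᵐ[m]
          fun _ => 0 := by
        filter_upwards [h1] with y e1
        rw [e1]
        have h3 : (1 - a y * b y) * G y = 0 := (hy y).2.2.2.2
        rw [h3, Matrix.zero_mul, Matrix.zero_apply]
      have h4 : ∫ y, ((1 - a y * b y) *ᵥ E y) i * conj (((1 - a y * b y) *ᵥ E y) i) ∂m = 0 := by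
        rw [← integral_condExp hle]
        rw [integral_congr_ae h2, integral_zero]
      have h5 : ∫ y, ‖((1 - a y * b y) *ᵥ E y) i‖ ^ 2 ∂m = 0 := by
        have h6 := integral_mul_conj m fun y => ((1 - a y * b y) *ᵥ E y) i
        rw [h4, l2_sq] at h6
        exact_mod_cast h6.symm
      have h7 : Integrable (fun y => ‖((1 - a y * b y) *ᵥ E y) i‖ ^ 2) m := by
        obtain ⟨D, hD⟩ := (hvBM i).2
        refine Integrable.of_bound ((hvBM i).1.norm.pow_const 2).aestronglyMeasurable (D ^ 2)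
          (Eventually.of_forall fun y => ?_)
        rw [norm_pow, norm_norm]
        exact pow_le_pow_left₀ (norm_nonneg _) (hD y) 2
      have h8 := (integral_eq_zero_iff_of_nonneg (fun y => sq_nonneg _) h7).1 h5
      filter_upwards [h8] with y e1
      have h9 : ‖((1 - a y * b y) *ᵥ E y) i‖ ^ 2 = 0 := e1
      exact norm_eq_zero.1 (pow_eq_zero_iff two_ne_zero |>.1 h9)
    have hz' : ∀ᵐ y ∂m, ∀ i, ((1 - a y * b y) *ᵥ E y) i = 0 := ae_all_iff.2 hz
    filter_upwards [hz'] with y e1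
    have h1 : (1 - a y * b y) *ᵥ E y = 0 := funext e1
    rw [Matrix.sub_mulVec, Matrix.one_mulVec, sub_eq_zero] at h1
    rw [Matrix.mulVec_mulVec]
    exact h1

end Pool.Agent.Lib.H82OT
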