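import Pool.Agent.Lib.H82OT.Defs
import Pool.Agent.Lib.H82T.CV

/-!
# Project H82OT, chunk KP1: the conditional kernel and the measure mh
-/

open MeasureTheory Filter Topology Finset ProbabilityTheory
open scoped ENNReal ComplexConjugate Matrix

namespace Pool.Agent.Lib.H82OT

open Pool.Agent.Lib.H22M Pool.Agent.Lib.H82T

variable {Y : Type*} {𝒵 : MeasurableSpace Y} [mY : MeasurableSpace Y] [StandardBorelSpace Y]

instance kap_markov (m : Measure Y) [IsProbabilityMeasure m] (h𝒵 : 𝒵 ≤ mY) :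
    IsMarkovKernel (kap m h𝒵) := by
  unfold kap
  infer_instance

instance mh_prob (m : Measure Y) [IsProbabilityMeasure m] (h𝒵 : 𝒵 ≤ mY) :
    IsProbabilityMeasure (mh m h𝒵) := by
  unfold mh
  infer_instance

/-- Proof. `condExp_ae_eq_integral_condExpKernel` (see `H22M/SQ.lean`): `(kap m h𝒵) y` is by definition
`condExpKernel m 𝒵 y` (`Kernel.comap_apply`, or `rfl`). -/
theorem kap_condExp (m : Measure Y) [IsProbabilityMeasure m] (h𝒵 : 𝒵 ≤ mY) (g : Y → ℂ)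
    (hg : BM g) : ∀ᵐ y ∂m, ∫ x, g x ∂(kap m h𝒵 y) = (m[g|𝒵]) y := by
  have h := condExp_ae_eq_integral_condExpKernel (μ := m) h𝒵 (hg.integrable (m := m))
  filter_upwards [h] with y hy
  rw [hy]
  rfl

/-- Proof. `Measure.integral_compProd` (`BM.integrable`). -/
theorem integral_mh (m : Measure Y) [IsProbabilityMeasure m] (h𝒵 : 𝒵 ≤ mY) (F : Y × Y → ℂ)
    (hF : BM F) : ∫ z, F z ∂(mh m h𝒵) = ∫ y, (∫ x, F (y, x) ∂(kap m h𝒵 y)) ∂m := by
  unfold mh
  rw [Measure.integral_compProd hF.integrable]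

/-- Proof. By `integral_mh`, `integral_const_mul` and `kap_condExp` the left side is
`∫ f * m[g|𝒵] dm`. -/
theorem integral_mh_mul (m : Measure Y) [IsProbabilityMeasure m] (h𝒵 : 𝒵 ≤ mY) (f g : Y → ℂ)
    (hf : BM f) (hg : BM g) :
    ∫ z, f z.1 * g z.2 ∂(mh m h𝒵) = ∫ y, f y * (m[g|𝒵]) y ∂m := by
  have hfg : BM (fun z : Y × Y => f z.1 * g z.2) :=
    (hf.comp measurable_fst).mul (hg.comp measurable_snd)
  rw [integral_mh m h𝒵 _ hfg]
  refine integral_congr_ae ?_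
  filter_upwards [kap_condExp m h𝒵 g hg] with y hy
  show ∫ x, f y * g x ∂(kap m h𝒵 y) = _
  rw [integral_const_mul, hy]

/-- Proof. By `integral_mh_mul` it is `∫ f * m[g|𝒵] dm`; choose a bounded `𝒵`-measurable version of
`m[g|𝒵]` and `m[f|𝒵]` (`exists_version` in `H82T/CV.lean`, which also gives
`∫ F * f = ∫ F * (version of m[f|𝒵])` for bounded `𝒵`-measurable `F`). -/
theorem integral_mh_condExp (m : Measure Y) [IsProbabilityMeasure m] (h𝒵 : 𝒵 ≤ mY) (f g : Y → ℂ)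
    (hf : BM f) (hg : BM g) :
    ∫ z, f z.1 * g z.2 ∂(mh m h𝒵) = ∫ y, (m[f|𝒵]) y * (m[g|𝒵]) y ∂m := by
  rw [integral_mh_mul m h𝒵 f g hf hg]
  obtain ⟨Cf, hCf⟩ := hf.2
  obtain ⟨Cg, hCg⟩ := hg.2
  have hY : Nonempty Y := (inferInstance : NeZero m).ne |> fun h => by
    by_contra hne
    rw [not_nonempty_iff] at hne
    exact h (Measure.eq_zero_of_isEmpty m)
  have hCf0 : 0 ≤ Cf := (norm_nonneg _).trans (hCf hY.some)
  have hCg0 : 0 ≤ Cg := (norm_nonneg _).trans (hCg hY.some)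
  obtain ⟨F, hF1, hF2, hF3, hF4⟩ := exists_version 𝒵 m h𝒵 f hf.1 Cf hCf0
    (Filter.Eventually.of_forall hCf)
  obtain ⟨G, hG1, hG2, hG3, hG4⟩ := exists_version 𝒵 m h𝒵 g hg.1 Cg hCg0
    (Filter.Eventually.of_forall hCg)
  have e1 : ∫ y, f y * (m[g|𝒵]) y ∂m = ∫ y, G y * f y ∂m := by
    refine integral_congr_ae ?_
    filter_upwards [hG3] with y hy
    rw [hy]
    ring
  have e2 : ∫ y, (m[f|𝒵]) y * (m[g|𝒵]) y ∂m = ∫ y, G y * F y ∂m := by
    refine integral_congr_ae ?_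
    filter_upwards [hG3, hF3] with y hy hy2
    rw [hy, hy2]
    ring
  rw [e1, e2]
  exact hF4 G hG1 ⟨Cg, Filter.Eventually.of_forall hG2⟩

end Pool.Agent.Lib.H82OT
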