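import Pool.Agent.Lib.H82OT.KR1

/-!
# Project H82OT, chunk KR2: the Kronecker map
-/

open MeasureTheory Filter Topology Finset ProbabilityTheory
open scoped ENNReal ComplexConjugate Matrix

namespace Pool.Agent.Lib.H82OT

open Pool.Agent.Lib.H22M Pool.Agent.Lib.H82T

private theorem KR2_inv {Y : Type*} [MeasurableSpace Y] (R : Y ≃ᵐ Y) (G : Set Y) (y : Y) :
    ((∀ k, R^[k] (R y) ∈ G) ∧ (∀ k, R.symm^[k + 1] (R y) ∈ G)) ↔
      ((∀ k, R^[k] y ∈ G) ∧ (∀ k, R.symm^[k + 1] y ∈ G)) := by
  have hs : ∀ k, R.symm^[k + 1] (R y) = R.symm^[k] y := by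
    intro k
    rw [Function.iterate_succ_apply, MeasurableEquiv.symm_apply_apply]
  have hr : ∀ k, R^[k] (R y) = R^[k + 1] y := by
    intro k
    rw [Function.iterate_succ_apply]
  simp only [hs, hr]
  constructor
  · rintro ⟨h1, h2⟩
    refine ⟨fun k => ?_, fun k => h2 (k + 1)⟩
    cases k with
    | zero => exact h2 0
    | succ k => exact h1 k
  · rintro ⟨h1, h2⟩
    refine ⟨fun k => h1 (k + 1), fun k => ?_⟩
    cases k with
    | zero => exact h1 0
    | succ k => exact h2 k

/-- Proof. Take `c', e'` from `exists_eigen_seq`. Let `Y₀` be the set of the `y` with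
`e' n (R^[k+1] y) = c' n * e' n (R^[k] y)` and `e' n (R.symm^[k] y) = c' n * e' n (R.symm^[k+1] y)` for all
`n, k`: measurable, of full measure, `y ∈ Y₀ ↔ R y ∈ Y₀`. Let `P y 0 = 1` on `Y₀` and `-1` outside,
`P y (n+1) = e' n y` on `Y₀` and `1` outside; `c 0 = 1`, `c (n+1) = c' n`. Everywhere `P (R y) = T (P y)` with
`T w = c * w` if `w 0 = 1` and `T w = w` otherwise, and `P y = T' (P (R y))` with
`T' w = c⁻¹ * w` if `w 0 = 1`, `T' w = w` otherwise (note `(T w) 0 = w 0`); `T, T'` are measurable, so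
`(comap P).comap R = comap (P ∘ R) = comap P`. Eigenfunctions: `eigen_eq_smul` gives
`f y = κ e' n y = κ P y (n+1)` a.e. -/
theorem exists_kron {Y : Type*} [MeasurableSpace Y] [StandardBorelSpace Y]
    {m : Measure Y} [IsProbabilityMeasure m] [MeasurableSpace Circle] [BorelSpace Circle]
    (R : Y ≃ᵐ Y) (hR : Ergodic R m) :
    ∃ (c : ℕ → Circle) (P : Y → ℕ → Circle), Kron m R P c := by
  classical
  obtain ⟨c', e', he, heR, hall⟩ := exists_eigen_seq (m := m) R hR
  let G : Set Y := {y | ∀ n, e' n (R y) = c' n * e' n y}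
  have hGm : MeasurableSet G := by
    have : G = ⋂ n, {y | e' n (R y) = c' n * e' n y} := by
      ext y; simp [G]
    rw [this]
    refine MeasurableSet.iInter fun n => ?_
    exact measurableSet_eq_fun ((he n).comp R.measurable) ((he n).const_mul (c' n))
  let Y₀ : Set Y := {y | (∀ k, R^[k] y ∈ G) ∧ (∀ k, R.symm^[k + 1] y ∈ G)}
  have hYm : MeasurableSet Y₀ := by
    have : Y₀ = (⋂ k, R^[k] ⁻¹' G) ∩ (⋂ k, R.symm^[k + 1] ⁻¹' G) := by
      ext y; simp [Y₀]
    rw [this]
    refine MeasurableSet.inter (MeasurableSet.iInter fun k => ?_) (MeasurableSet.iInter fun k => ?_)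
    · exact (R.measurable.iterate k) hGm
    · exact (R.symm.measurable.iterate (k + 1)) hGm
  have hGae : ∀ᵐ y ∂m, y ∈ G := by
    have : ∀ᵐ y ∂m, ∀ n, e' n (R y) = c' n * e' n y := ae_all_iff.2 heR
    exact this
  have hmp : MeasurePreserving (⇑R) m m := hR.toMeasurePreserving
  have hmps : MeasurePreserving (⇑R.symm) m m := MeasurePreserving.symm R hmp
  have hYae : ∀ᵐ y ∂m, y ∈ Y₀ := by
    have h1 : ∀ᵐ y ∂m, ∀ k, R^[k] y ∈ G :=
      ae_all_iff.2 fun k => (hmp.iterate k).quasiMeasurePreserving.ae hGae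
    have h2 : ∀ᵐ y ∂m, ∀ k, R.symm^[k + 1] y ∈ G :=
      ae_all_iff.2 fun k => (hmps.iterate (k + 1)).quasiMeasurePreserving.ae hGae
    filter_upwards [h1, h2] with y a b
    exact ⟨a, b⟩
  have hYinv : ∀ y, R y ∈ Y₀ ↔ y ∈ Y₀ := fun y => KR2_inv R G y
  have hYe : ∀ y ∈ Y₀, ∀ n, e' n (R y) = c' n * e' n y := fun y hy n => hy.1 0 n
  let c : ℕ → Circle := fun n => Nat.casesOn n 1 c'
  let P : Y → ℕ → Circle := fun y n =>
    Nat.casesOn n (if y ∈ Y₀ then 1 else -1) (fun n => if y ∈ Y₀ then e' n y else 1)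
  have hP0 : ∀ y, P y 0 = if y ∈ Y₀ then 1 else -1 := fun y => rfl
  have hPs : ∀ y n, P y (n + 1) = if y ∈ Y₀ then e' n y else 1 := fun y n => rfl
  have hc0 : c 0 = 1 := rfl
  have hcs : ∀ n, c (n + 1) = c' n := fun n => rfl
  have hne : (-1 : Circle) ≠ 1 := by
    intro h
    have h2 : ((-1 : Circle) : ℂ) = ((1 : Circle) : ℂ) := by rw [h]
    rw [Circle.coe_neg, Circle.coe_one] at h2
    norm_num at h2
  have hPm : Measurable P := by
    refine measurable_pi_iff.2 fun n => ?_
    cases n with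
    | zero => exact Measurable.ite hYm measurable_const measurable_const
    | succ n => exact Measurable.ite hYm (he n) measurable_const
  have hPin : ∀ y, y ∈ Y₀ → P (R y) = c * P y := by
    intro y hy
    funext n
    cases n with
    | zero =>
      rw [Pi.mul_apply, hc0, hP0, hP0, if_pos hy, if_pos ((hYinv y).2 hy), one_mul]
    | succ n =>
      rw [Pi.mul_apply, hcs, hPs, hPs, if_pos hy, if_pos ((hYinv y).2 hy), hYe y hy n]
  have hPout : ∀ y, y ∉ Y₀ → P (R y) = P y := by
    intro y hy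
    have hy' : R y ∉ Y₀ := fun h => hy ((hYinv y).1 h)
    funext n
    cases n with
    | zero => rw [hP0, hP0, if_neg hy, if_neg hy']
    | succ n => rw [hPs, hPs, if_neg hy, if_neg hy']
  have hSm : MeasurableSet {w : ℕ → Circle | w 0 = 1} :=
    measurableSet_eq_fun (measurable_pi_apply 0) measurable_const
  have hmul : ∀ d : ℕ → Circle, Measurable fun w : ℕ → Circle => d * w := by
    intro d
    refine measurable_pi_iff.2 fun n => ?_
    have h0 : Measurable fun w : ℕ → Circle => w n := measurable_pi_apply n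
    exact h0.const_mul (d n)
  have hcc : c⁻¹ * c = 1 := inv_mul_cancel c
  let T : (ℕ → Circle) → (ℕ → Circle) := fun w => if w 0 = 1 then c * w else w
  let T' : (ℕ → Circle) → (ℕ → Circle) := fun w => if w 0 = 1 then c⁻¹ * w else w
  have hTm : Measurable T := Measurable.ite hSm (hmul c) measurable_id
  have hTm' : Measurable T' := Measurable.ite hSm (hmul c⁻¹) measurable_id
  have hTp : ∀ w : ℕ → Circle, w 0 = 1 → T w = c * w := fun w h => if_pos h
  have hTn : ∀ w : ℕ → Circle, w 0 ≠ 1 → T w = w := fun w h => if_neg h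
  have hTp' : ∀ w : ℕ → Circle, w 0 = 1 → T' w = c⁻¹ * w := fun w h => if_pos h
  have hTn' : ∀ w : ℕ → Circle, w 0 ≠ 1 → T' w = w := fun w h => if_neg h
  have hT : P ∘ R = T ∘ P := by
    funext y
    rw [Function.comp_apply, Function.comp_apply]
    by_cases hy : y ∈ Y₀
    · rw [hTp _ (by rw [hP0, if_pos hy]), hPin y hy]
    · rw [hTn _ (by rw [hP0, if_neg hy]; exact hne), hPout y hy]
  have hT' : P = T' ∘ (P ∘ R) := by
    funext y
    rw [Function.comp_apply, Function.comp_apply]
    by_cases hy : y ∈ Y₀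
    · rw [hTp' _ (by rw [hP0, if_pos ((hYinv y).2 hy)]), hPin y hy, ← mul_assoc, hcc, one_mul]
    · have hy' : R y ∉ Y₀ := fun h => hy ((hYinv y).1 h)
      rw [hTn' _ (by rw [hP0, if_neg hy']; exact hne), hPout y hy]
  refine ⟨c, P, ⟨hPm, ?_, ?_, ?_⟩⟩
  · filter_upwards [hYae] with y hy
    exact hPin y hy
  · rw [MeasurableSpace.comap_comp]
    apply le_antisymm
    · rw [hT, ← MeasurableSpace.comap_comp]
      exact MeasurableSpace.comap_mono (measurable_iff_comap_le.1 hTm)
    · have h1 : MeasurableSpace.comap P inferInstance =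
          MeasurableSpace.comap (T' ∘ (P ∘ R)) inferInstance := by
        rw [← hT']
      rw [h1, ← MeasurableSpace.comap_comp]
      exact MeasurableSpace.comap_mono (measurable_iff_comap_le.1 hTm')
  · intro f l hf hfR
    obtain ⟨n, κ, hk⟩ := eigen_eq_smul hR c' e' he heR hall f l hf hfR
    refine ⟨fun w => κ * (w (n + 1) : ℂ), ?_, ?_⟩
    · refine ⟨?_, ‖κ‖, fun w => ?_⟩
      · have h0 : Measurable fun w : ℕ → Circle => w (n + 1) := measurable_pi_apply (n + 1)
        have hc1 : Continuous fun z : Circle => (z : ℂ) := continuous_subtype_val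
        have h1 : Measurable fun z : Circle => (z : ℂ) := hc1.measurable
        exact (h1.comp h0).const_mul κ
      · show ‖κ * (w (n + 1) : ℂ)‖ ≤ ‖κ‖
        rw [norm_mul, Circle.norm_coe, mul_one]
    · filter_upwards [hk, hYae] with y h1 h2
      rw [h1, hPs, if_pos h2]

end Pool.Agent.Lib.H82OT
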