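import Pool.Agent.Lib.H82OT.LT1
import Pool.Agent.Lib.H82T.AV
import Pool.Agent.Lib.H82T.AV2

/-!
# Project H82OT, chunk CI1: the density of sigma with respect to its average
-/

open MeasureTheory Filter Topology Finset ProbabilityTheory
open scoped ENNReal ComplexConjugate Matrix

namespace Pool.Agent.Lib.H82OT

open Pool.Agent.Lib.H22M Pool.Agent.Lib.H82T

/-- Proof. `ν = avg σ S q` (a probability measure, `avg_prob`). `σ ≤ q • ν` as measures (the term `n = 0` of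
the sum is `σ`), so `σ ≪ ν`, and `D₀ = (σ.rnDeriv ν).toReal ≤ q` `ν`-almost everywhere; let
`D = min D₀ q`. `σ = ν.withDensity (rnDeriv)` gives the integral formula
(`integral_rnDeriv_smul`-type lemma or `withDensity` and `integral_withDensity_eq_integral_toReal_smul`).
Invariance: let `T = S^[q]`, which preserves `σ` and `ν` (`avg_inv`: `S` preserves `ν`). For bounded
measurable `F`, with the inverse `T⁻¹` (`S` is an equivalence): `∫ F (D ∘ T) dν = ∫ (F ∘ T⁻¹) D dν =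
∫ F ∘ T⁻¹ dσ = ∫ F dσ = ∫ F D dν`; take `F = conj (D ∘ T - D)`. -/
theorem exists_density {Ω : Type*} [MeasurableSpace Ω] (σ : Measure Ω) [IsProbabilityMeasure σ]
    (S : Ω ≃ᵐ Ω) (q : ℕ) (hq : 1 ≤ q) (hσ : MeasurePreserving ((⇑S)^[q]) σ σ) :
    ∃ D : Ω → ℝ, Measurable D ∧ (∀ ω, 0 ≤ D ω ∧ D ω ≤ q) ∧
      (∀ᵐ ω ∂(avg σ S q), D ((⇑S)^[q] ω) = D ω) ∧
      ∀ F : Ω → ℂ, BM F → ∫ ω, F ω ∂σ = ∫ ω, F ω * (D ω : ℂ) ∂(avg σ S q) := by
  obtain ⟨D, hDm, hD0, hDq, hD⟩ :=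
    Pool.Agent.Lib.H82T.exists_density σ (⇑S) S.measurable q hq
  refine ⟨D, hDm, fun ω => ⟨hD0 ω, hDq ω⟩, ?_, hD⟩
  have hprob : IsProbabilityMeasure (avg σ S q) := avg_prob σ S S.measurable q hq
  have hSν : MeasurePreserving (⇑S) (avg σ S q) (avg σ S q) := avg_inv σ S S.measurable q hσ
  have hTν : MeasurePreserving ((⇑S)^[q]) (avg σ S q) (avg σ S q) := hSν.iterate q
  have hTm : Measurable ((⇑S)^[q]) := S.measurable.iterate q
  have hUm : Measurable ((⇑S.symm)^[q]) := S.symm.measurable.iterate q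
  have hUT : ∀ ω, ((⇑S.symm)^[q]) (((⇑S)^[q]) ω) = ω := fun ω =>
    (Function.LeftInverse.iterate (fun x => S.symm_apply_apply x) q) ω
  -- the function `F`
  have hDbm : BM fun ω => (D ω : ℂ) :=
    ⟨Complex.measurable_ofReal.comp hDm, q, fun ω => by
      rw [Complex.norm_real, Real.norm_eq_abs, abs_of_nonneg (hD0 ω)]; exact hDq ω⟩
  have hDTbm : BM fun ω => (D (((⇑S)^[q]) ω) : ℂ) := hDbm.comp hTm
  have hF : BM fun ω => (D (((⇑S)^[q]) ω) : ℂ) - (D ω : ℂ) := hDTbm.sub hDbm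
  set F : Ω → ℂ := fun ω => (D (((⇑S)^[q]) ω) : ℂ) - (D ω : ℂ) with hFdef
  have hFU : BM fun ω => F (((⇑S.symm)^[q]) ω) := hF.comp hUm
  have h1 : ∫ ω, F ω * (D (((⇑S)^[q]) ω) : ℂ) ∂(avg σ S q) =
      ∫ ω, F ω * (D ω : ℂ) ∂(avg σ S q) := by
    have e1 : ∫ ω, F ω * (D (((⇑S)^[q]) ω) : ℂ) ∂(avg σ S q) =
        ∫ ω, F (((⇑S.symm)^[q]) ω) * (D ω : ℂ) ∂(avg σ S q) := by
      have hG : BM fun ω => F (((⇑S.symm)^[q]) ω) * (D ω : ℂ) := hFU.mul hDbm
      have := integral_map hTm.aemeasurable (μ := avg σ S q)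
        (f := fun ω => F (((⇑S.symm)^[q]) ω) * (D ω : ℂ)) hG.1.aestronglyMeasurable
      rw [hTν.map_eq] at this
      rw [this]
      refine integral_congr_ae (Eventually.of_forall fun ω => ?_)
      simp only [hUT]
    have e2 : ∫ ω, F (((⇑S.symm)^[q]) ω) ∂σ = ∫ ω, F ω ∂σ := by
      have := integral_map hTm.aemeasurable (μ := σ)
        (f := fun ω => F (((⇑S.symm)^[q]) ω)) hFU.1.aestronglyMeasurable
      rw [hσ.map_eq] at this
      rw [this]
      refine integral_congr_ae (Eventually.of_forall fun ω => ?_)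
      simp only [hUT]
    rw [e1, ← hD _ hFU, e2, hD _ hF]
  have h2 : ∫ ω, (D (((⇑S)^[q]) ω) - D ω) ^ 2 ∂(avg σ S q) = 0 := by
    have h3 : ∫ ω, F ω * F ω ∂(avg σ S q) = 0 := by
      have h4 : (fun ω => F ω * F ω) =
          fun ω => F ω * (D (((⇑S)^[q]) ω) : ℂ) - F ω * (D ω : ℂ) := by
        funext ω
        rw [← mul_sub]
      rw [h4, integral_sub (hF.mul hDTbm).integrable (hF.mul hDbm).integrable, h1, sub_self]
    have h5 : ∫ ω, F ω * F ω ∂(avg σ S q) =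
        ((∫ ω, (D (((⇑S)^[q]) ω) - D ω) ^ 2 ∂(avg σ S q) : ℝ) : ℂ) := by
      have h6 : ((∫ ω, (D (((⇑S)^[q]) ω) - D ω) ^ 2 ∂(avg σ S q) : ℝ) : ℂ) =
          ∫ ω, (((D (((⇑S)^[q]) ω) - D ω) ^ 2 : ℝ) : ℂ) ∂(avg σ S q) :=
        (integral_ofReal (𝕜 := ℂ)).symm
      rw [h6]
      refine integral_congr_ae (Eventually.of_forall fun ω => ?_)
      simp only [hFdef]
      push_cast
      ring
    rw [h3] at h5
    exact_mod_cast h5.symm
  have hint : Integrable (fun ω => (D (((⇑S)^[q]) ω) - D ω) ^ 2) (avg σ S q) := by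
    have hm : Measurable fun ω => (D (((⇑S)^[q]) ω) - D ω) ^ 2 :=
      ((hDm.comp hTm).sub hDm).pow_const 2
    refine Integrable.of_bound hm.aestronglyMeasurable (q ^ 2 : ℝ)
      (Eventually.of_forall fun ω => ?_)
    rw [Real.norm_eq_abs, abs_of_nonneg (sq_nonneg _)]
    have a1 := hD0 ω
    have a2 := hDq ω
    have a3 := hD0 (((⇑S)^[q]) ω)
    have a4 := hDq (((⇑S)^[q]) ω)
    nlinarith
  rw [integral_eq_zero_iff_of_nonneg (fun ω => sq_nonneg _) hint] at h2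
  filter_upwards [h2] with ω hω
  have h6 : (D (((⇑S)^[q]) ω) - D ω) ^ 2 = 0 := hω
  have h7 := pow_eq_zero_iff (two_ne_zero) |>.1 h6
  linarith

end Pool.Agent.Lib.H82OT
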