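import Pool.Agent.Lib.H82OT.Defs

/-!
# Project H82OT, chunk CI2: components for the roots of unity
-/

open MeasureTheory Filter Topology Finset ProbabilityTheory
open scoped ENNReal ComplexConjugate Matrix

namespace Pool.Agent.Lib.H82OT

open Pool.Agent.Lib.H22M Pool.Agent.Lib.H82T

private theorem CI2_sum_zero (q : ℕ) (hq : 1 ≤ q) (n : ℕ) (hn : 0 < n) (hnq : n < q) :
    ∑ ζ ∈ Polynomial.nthRootsFinset q (1 : ℂ), (ζ⁻¹) ^ n = 0 := by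
  have hq0 : 0 < q := hq
  set ξ : ℂ := Complex.exp (2 * Real.pi * Complex.I / q) with hξd
  have hξ : IsPrimitiveRoot ξ q := Complex.isPrimitiveRoot_exp q hq0.ne'
  have hξ0 : ξ ≠ 0 := Complex.exp_ne_zero _
  have hne : (ξ⁻¹) ^ n ≠ 1 := by
    rw [inv_pow]
    intro h
    exact hξ.pow_ne_one_of_pos_of_lt hn.ne' hnq (inv_eq_one.mp h)
  have hT : ∑ ζ ∈ Polynomial.nthRootsFinset q (1 : ℂ), (ζ⁻¹) ^ n =
      ∑ ζ ∈ Polynomial.nthRootsFinset q (1 : ℂ), ((ξ * ζ)⁻¹) ^ n := by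
    symm
    refine Finset.sum_nbij' (fun ζ => ξ * ζ) (fun ζ => ξ⁻¹ * ζ) ?_ ?_ ?_ ?_ ?_
    · intro ζ hζ
      rw [Polynomial.mem_nthRootsFinset hq0] at hζ ⊢
      rw [mul_pow, hζ, hξ.pow_eq_one, one_mul]
    · intro ζ hζ
      rw [Polynomial.mem_nthRootsFinset hq0] at hζ ⊢
      rw [mul_pow, hζ, inv_pow, hξ.pow_eq_one, inv_one, one_mul]
    · intro ζ _
      exact inv_mul_cancel_left₀ hξ0 ζ
    · intro ζ _
      exact mul_inv_cancel_left₀ hξ0 ζ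
    · intro ζ _
      rfl
  have hT2 : ∑ ζ ∈ Polynomial.nthRootsFinset q (1 : ℂ), ((ξ * ζ)⁻¹) ^ n =
      (ξ⁻¹) ^ n * ∑ ζ ∈ Polynomial.nthRootsFinset q (1 : ℂ), (ζ⁻¹) ^ n := by
    rw [Finset.mul_sum]
    refine Finset.sum_congr rfl fun ζ _ => ?_
    rw [mul_inv, mul_pow]
  rw [hT2] at hT
  have h3 : (1 - (ξ⁻¹) ^ n) * ∑ ζ ∈ Polynomial.nthRootsFinset q (1 : ℂ), (ζ⁻¹) ^ n = 0 := by
    rw [sub_mul, one_mul, sub_eq_zero]
    exact hT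
  exact (mul_eq_zero.mp h3).resolve_left (sub_ne_zero.mpr (Ne.symm hne))

private theorem CI2_card (q : ℕ) (hq : 1 ≤ q) : (Polynomial.nthRootsFinset q (1 : ℂ)).card = q :=
  (Complex.isPrimitiveRoot_exp q (by omega)).card_nthRootsFinset

/-- Proof. `Dz ζ ω = q⁻¹ ∑_{n<q} (ζ⁻¹)^n D(S^n ω)` for `ζ^q = 1` (and `0` for the other `ζ`). Measurable,
bounded by `q` (for `ζ^q = 1`: `‖ζ‖ = 1`). `Dz ζ (S ω) = q⁻¹ ∑_{n<q} (ζ⁻¹)^n D(S^{n+1} ω)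
= ζ q⁻¹ ∑_{n<q} (ζ⁻¹)^{n+1} D(S^{n+1} ω) = ζ Dz ζ ω` where `D (S^q ω) = D ω` (`Finset.sum_range_succ'`,
compare `hl_fix` in `H22M/HL.lean`). The sum over the roots: for `0 < n < q` the sum of `(ζ⁻¹)^n` over the
`q`-th roots of unity is `0`, for `n = 0` it is `q` (a primitive root `e(1/q)`: `Complex.isPrimitiveRoot_exp`,
`IsPrimitiveRoot.nthRoots_one_eq_biUnion_primitiveRoots`-free way: `IsPrimitiveRoot` and
`Polynomial.nthRootsFinset` is the image of `range q` under `ξ ^ ·`; `IsPrimitiveRoot.geom_sum_eq_zero`;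
see also `fourier_point` in `H82T/NI.lean`). -/
theorem exists_components {Ω : Type*} [MeasurableSpace Ω] (ν : Measure Ω)
    (S : Ω → Ω) (hS : Measurable S) (q : ℕ) (hq : 1 ≤ q) (D : Ω → ℝ)
    (hD : Measurable D) (hD1 : ∀ ω, 0 ≤ D ω ∧ D ω ≤ q) (hinv : ∀ᵐ ω ∂ν, D (S^[q] ω) = D ω) :
    ∃ Dz : ℂ → Ω → ℂ, (∀ ζ, BM (Dz ζ)) ∧
      (∀ ζ : ℂ, ζ ^ q = 1 → ∀ᵐ ω ∂ν, Dz ζ (S ω) = ζ * Dz ζ ω) ∧
      ∀ ω, ∑ ζ ∈ Polynomial.nthRootsFinset q (1 : ℂ), Dz ζ ω = (D ω : ℂ) := by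
  classical
  have hq0 : 0 < q := hq
  have hqC : (q : ℂ) ≠ 0 := Nat.cast_ne_zero.2 hq0.ne'
  let Dz : ℂ → Ω → ℂ := fun ζ ω =>
    if ζ ^ q = 1 then (q : ℂ)⁻¹ * ∑ n ∈ range q, (ζ⁻¹) ^ n * ((D (S^[n] ω) : ℝ) : ℂ) else 0
  have hDz : ∀ ζ ω, Dz ζ ω =
    if ζ ^ q = 1 then (q : ℂ)⁻¹ * ∑ n ∈ range q, (ζ⁻¹) ^ n * ((D (S^[n] ω) : ℝ) : ℂ) else 0 :=
    fun _ _ => rfl
  refine ⟨Dz, ?_, ?_, ?_⟩
  · intro ζ
    by_cases h : ζ ^ q = 1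
    · have he : Dz ζ = fun ω => (q : ℂ)⁻¹ * ∑ n ∈ range q, (ζ⁻¹) ^ n * ((D (S^[n] ω) : ℝ) : ℂ) := by
        funext ω
        rw [hDz, if_pos h]
      rw [he]
      refine ⟨?_, ‖(q : ℂ)⁻¹‖ * ∑ n ∈ range q, ‖(ζ⁻¹) ^ n‖ * q, fun ω => ?_⟩
      · refine Measurable.const_mul ?_ _
        refine Finset.measurable_fun_sum _ fun n _ => ?_
        exact (Complex.measurable_ofReal.comp (hD.comp (hS.iterate n))).const_mul _
      · rw [norm_mul]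
        refine mul_le_mul_of_nonneg_left ?_ (norm_nonneg _)
        refine (norm_sum_le _ _).trans (Finset.sum_le_sum fun n _ => ?_)
        rw [norm_mul]
        refine mul_le_mul_of_nonneg_left ?_ (norm_nonneg _)
        rw [Complex.norm_real, Real.norm_of_nonneg (hD1 _).1]
        exact (hD1 _).2
    · have he : Dz ζ = fun _ => 0 := by
        funext ω
        rw [hDz, if_neg h]
      rw [he]
      exact ⟨measurable_const, 0, fun ω => by rw [norm_zero]⟩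
  · intro ζ hζ
    have hζ0 : ζ ≠ 0 := by
      rintro rfl
      rw [zero_pow hq0.ne'] at hζ
      exact zero_ne_one hζ
    filter_upwards [hinv] with ω hω
    rw [hDz, hDz, if_pos hζ, if_pos hζ]
    have h1 : ∀ n, (ζ⁻¹) ^ n * ((D (S^[n] (S ω)) : ℝ) : ℂ) =
        ζ * ((ζ⁻¹) ^ (n + 1) * ((D (S^[n + 1] ω) : ℝ) : ℂ)) := by
      intro n
      rw [Function.iterate_succ_apply, pow_succ]
      have h2 : ζ * ((ζ⁻¹) ^ n * ζ⁻¹ * ((D (S^[n] (S ω)) : ℝ) : ℂ)) =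
          (ζ * ζ⁻¹) * ((ζ⁻¹) ^ n * ((D (S^[n] (S ω)) : ℝ) : ℂ)) := by ring
      rw [h2, mul_inv_cancel₀ hζ0, one_mul]
    rw [Finset.sum_congr rfl fun n _ => h1 n, ← Finset.mul_sum]
    have h3 : ∑ n ∈ range q, (ζ⁻¹) ^ (n + 1) * ((D (S^[n + 1] ω) : ℝ) : ℂ) =
        ∑ n ∈ range q, (ζ⁻¹) ^ n * ((D (S^[n] ω) : ℝ) : ℂ) := by
      have e1 := Finset.sum_range_succ' (fun n => (ζ⁻¹) ^ n * ((D (S^[n] ω) : ℝ) : ℂ)) q
      have e2 := Finset.sum_range_succ (fun n => (ζ⁻¹) ^ n * ((D (S^[n] ω) : ℝ) : ℂ)) q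
      have e3 : (ζ⁻¹) ^ q * ((D (S^[q] ω) : ℝ) : ℂ) = (ζ⁻¹) ^ 0 * ((D (S^[0] ω) : ℝ) : ℂ) := by
        rw [hω, inv_pow, hζ, inv_one, pow_zero]
        rfl
      rw [e3] at e2
      exact add_right_cancel (e1.symm.trans e2)
    rw [h3]
    ring
  · intro ω
    have h1 : ∀ ζ ∈ Polynomial.nthRootsFinset q (1 : ℂ), Dz ζ ω =
        (q : ℂ)⁻¹ * ∑ n ∈ range q, (ζ⁻¹) ^ n * ((D (S^[n] ω) : ℝ) : ℂ) := by
      intro ζ hζ
      rw [Polynomial.mem_nthRootsFinset hq0] at hζ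
      rw [hDz, if_pos hζ]
    rw [Finset.sum_congr rfl h1, ← Finset.mul_sum, Finset.sum_comm]
    have h2 : ∀ n ∈ range q, ∑ ζ ∈ Polynomial.nthRootsFinset q (1 : ℂ),
        (ζ⁻¹) ^ n * ((D (S^[n] ω) : ℝ) : ℂ) = if n = 0 then (q : ℂ) * ((D ω : ℝ) : ℂ) else 0 := by
      intro n hn
      rw [← Finset.sum_mul]
      by_cases h0 : n = 0
      · subst h0
        rw [if_pos rfl]
        simp only [pow_zero, Finset.sum_const, CI2_card q hq, nsmul_eq_mul, mul_one,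
          Function.iterate_zero, id_eq]
      · rw [if_neg h0, CI2_sum_zero q hq n (Nat.pos_of_ne_zero h0) (mem_range.1 hn), zero_mul]
    rw [Finset.sum_congr rfl h2, Finset.sum_ite_eq' (range q) 0, if_pos (mem_range.2 hq0),
      ← mul_assoc, inv_mul_cancel₀ hqC, one_mul]

end Pool.Agent.Lib.H82OT
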