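import Pool.Agent.Lib.H82OT.Defs
import Pool.Agent.Lib.H82T.CV

/-!
# Project H82OT, chunk CI3: conditional coefficients
-/

open MeasureTheory Filter Topology Finset ProbabilityTheory
open scoped ENNReal ComplexConjugate Matrix

namespace Pool.Agent.Lib.H82OT

open Pool.Agent.Lib.H22M Pool.Agent.Lib.H82T

private theorem ci3_mul {Ω : Type*} (𝒜 : MeasurableSpace Ω) {f : Ω → ℂ} (c : ℂ)
    (hf : Measurable[𝒜] f) : Measurable[𝒜] (fun ω => c * f ω) := hf.const_mul c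

/-- Proof. For every `k` let `X k` be the bounded `𝒜`-measurable version of `ν[E k * δ|𝒜]`
(`exists_version` in `H82T/CV.lean` for `h = E k * δ`). For the equivariance:
`X k ∘ S = ν[E k * δ|𝒜] ∘ S = ν[(E k ∘ S) (δ ∘ S)|𝒜]` (`condExp_comp_equiv` in `H22M/CE.lean`; `𝒜` is invariant
under `S` and `S.symm` by `hinv`, see `exists_eigen_version` in `H82T/CV.lean`)
`= ν[∑_l W_kl E_l ζ δ|𝒜] = ζ ∑_l W_kl ν[E_l δ|𝒜]` (linearity, pull-out of the bounded `𝒜`-measurable `W_kl`: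
`condExp_bilin_of_stronglyMeasurable_left` as in `H82T/CV.lean`). Alternatively compare the integrals
against all bounded `𝒜`-measurable functions (`ni_zero` in `H82T/NI.lean`). -/
theorem exists_coeff {Ω κ : Type*} [Fintype κ] (𝒜 : MeasurableSpace Ω) [mΩ : MeasurableSpace Ω]
    (ν : Measure Ω) [IsProbabilityMeasure ν] (S : Ω ≃ᵐ Ω) (hS : MeasurePreserving S ν ν)
    (hle : 𝒜 ≤ mΩ) (hinv : 𝒜.comap S = 𝒜) (E : κ → Ω → ℂ) (hE : ∀ k, BM (E k))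
    (W : Ω → κ → κ → ℂ) (hW : ∀ k l, Measurable[𝒜] fun ω => W ω k l)
    (hWb : ∃ C : ℝ, ∀ ω k l, ‖W ω k l‖ ≤ C)
    (hEW : ∀ᵐ ω ∂ν, ∀ k, E k (S ω) = ∑ l, W ω k l * E l ω)
    (δ : Ω → ℂ) (hδ : BM δ) (ζ : ℂ) (hδS : ∀ᵐ ω ∂ν, δ (S ω) = ζ * δ ω) :
    ∃ X : κ → Ω → ℂ, (∀ k, Measurable[𝒜] (X k)) ∧ (∃ C : ℝ, ∀ k ω, ‖X k ω‖ ≤ C) ∧
      (∀ᵐ ω ∂ν, ∀ k, X k (S ω) = ζ * ∑ l, W ω k l * X l ω) ∧
      ∀ (k : κ) (H : Ω → ℂ), Measurable[𝒜] H → (∃ C : ℝ, ∀ ω, ‖H ω‖ ≤ C) →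
        ∫ ω, H ω * (E k ω * δ ω) ∂ν = ∫ ω, H ω * X k ω ∂ν := by
  obtain ⟨CW, hCW⟩ := hWb
  obtain ⟨hδm, Cδ, hCδ⟩ := hδ
  have hEm : ∀ k, Measurable (E k) := fun k => (hE k).1
  choose CE hCE using fun k => (hE k).2
  have hCE' : ∀ k ω, ‖E k ω‖ ≤ ∑ k, |CE k| := by
    intro k ω
    refine ((hCE k ω).trans (le_abs_self _)).trans ?_
    exact Finset.single_le_sum (f := fun k => |CE k|) (fun i _ => abs_nonneg _) (Finset.mem_univ k)
  have hmd : ∀ k, Measurable (fun ω => E k ω * δ ω) := fun k => (hEm k).mul hδm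
  have hs0 : 0 ≤ ∑ k, |CE k| := Finset.sum_nonneg fun i _ => abs_nonneg _
  have hEd : ∀ k ω, ‖E k ω * δ ω‖ ≤ (∑ k, |CE k|) * |Cδ| := by
    intro k ω
    rw [norm_mul]
    exact mul_le_mul (hCE' k ω) ((hCδ ω).trans (le_abs_self _)) (norm_nonneg _) hs0
  have hC0 : 0 ≤ (∑ k, |CE k|) * |Cδ| := mul_nonneg hs0 (abs_nonneg _)
  choose X hXm hXb hXe hXi using fun k => exists_version 𝒜 ν hle (fun ω => E k ω * δ ω) (hmd k)
    ((∑ k, |CE k|) * |Cδ|) hC0 (Eventually.of_forall (hEd k))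
  refine ⟨X, hXm, ⟨_, hXb⟩, ?_, fun k H hH hb => ?_⟩
  · have h1 : ∀ s, MeasurableSet[𝒜] s → MeasurableSet[𝒜] (S ⁻¹' s) := by
      intro s hs
      have h2 : MeasurableSet[𝒜.comap S] (S ⁻¹' s) := ⟨s, hs, rfl⟩
      rwa [hinv] at h2
    have h2 : ∀ s, MeasurableSet[𝒜] s → MeasurableSet[𝒜] (S.symm ⁻¹' s) := by
      intro s hs
      have h3 : MeasurableSet[𝒜.comap S] s := by rwa [hinv]
      obtain ⟨t, ht, rfl⟩ := h3
      have h4 : S.symm ⁻¹' (S ⁻¹' t) = t := by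
        rw [← Set.preimage_comp]
        simp
      rwa [h4]
    have hint : ∀ l, Integrable (fun ω => E l ω * δ ω) ν := fun l =>
      Integrable.of_bound (hmd l).aestronglyMeasurable _ (Eventually.of_forall (hEd l))
    have hWm : ∀ k l, Measurable[𝒜] (fun ω => ζ * W ω k l) := fun k l =>
      ci3_mul 𝒜 ζ (hW k l)
    have hint2 : ∀ k l, Integrable (fun ω => ζ * W ω k l * (E l ω * δ ω)) ν := by
      intro k l
      refine Integrable.of_bound (((hWm k l).mono hle le_rfl).mul (hmd l)).aestronglyMeasurable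
        (‖ζ‖ * CW * ((∑ k, |CE k|) * |Cδ|)) (Eventually.of_forall fun ω => ?_)
      rw [norm_mul]
      refine mul_le_mul ?_ (hEd l ω) (norm_nonneg _) ?_
      · rw [norm_mul]
        exact mul_le_mul_of_nonneg_left (hCW ω k l) (norm_nonneg _)
      · exact mul_nonneg (norm_nonneg _) ((norm_nonneg _).trans (hCW ω k l))
    have hXS : ∀ᵐ ω ∂ν, ∀ k, X k (S ω) = (ν[fun ω => E k ω * δ ω|𝒜]) (S ω) := by
      have h3 : ∀ᵐ ω ∂ν, ∀ k, X k ω = (ν[fun ω => E k ω * δ ω|𝒜]) ω :=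
        ae_all_iff.2 fun k => hXe k
      exact hS.quasiMeasurePreserving.ae h3
    have hX : ∀ᵐ ω ∂ν, ∀ k, X k ω = (ν[fun ω => E k ω * δ ω|𝒜]) ω :=
      ae_all_iff.2 fun k => hXe k
    rw [ae_all_iff]
    intro k
    have h5 := condExp_comp_equiv 𝒜 ν hle S hS h1 h2 (fun ω => E k ω * δ ω) (hint k)
    have h6 : ν[fun ω => E k (S ω) * δ (S ω)|𝒜] =ᵐ[ν]
        ν[fun ω => ∑ l, ζ * W ω k l * (E l ω * δ ω)|𝒜] := by
      refine condExp_congr_ae ?_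
      filter_upwards [hEW, hδS] with ω a b
      rw [a k, b, Finset.sum_mul]
      refine Finset.sum_congr rfl fun l _ => by ring
    have h7 : ν[fun ω => ∑ l, ζ * W ω k l * (E l ω * δ ω)|𝒜] =ᵐ[ν]
        fun ω => ∑ l, (ν[fun ω => ζ * W ω k l * (E l ω * δ ω)|𝒜]) ω := by
      have h8 := condExp_finsetSum (μ := ν) (s := Finset.univ)
        (f := fun l ω => ζ * W ω k l * (E l ω * δ ω)) (fun l _ => hint2 k l) 𝒜
      have h9 : (∑ l, fun ω => ζ * W ω k l * (E l ω * δ ω)) =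
          fun ω => ∑ l, ζ * W ω k l * (E l ω * δ ω) := by
        funext ω
        simp
      rw [h9] at h8
      refine h8.trans (Eventually.of_forall fun ω => ?_)
      simp
    have h8 : ∀ᵐ ω ∂ν, ∀ l, (ν[fun ω => ζ * W ω k l * (E l ω * δ ω)|𝒜]) ω =
        ζ * W ω k l * (ν[fun ω => E l ω * δ ω|𝒜]) ω := by
      rw [ae_all_iff]
      intro l
      exact condExp_bilin_of_stronglyMeasurable_left (ContinuousLinearMap.mul ℝ ℂ)
        (@cv_sm Ω 𝒜 _ (hWm k l)) (hint2 k l) (hint l)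
    filter_upwards [hX, hXS, h5, h6, h7, h8] with ω e1 e2 e3 e4 e5 e6
    rw [e2 k, ← e3, e4, e5, Finset.mul_sum]
    refine Finset.sum_congr rfl fun l _ => ?_
    rw [e6 l, e1 l, mul_assoc]
  · obtain ⟨C', hC'⟩ := hb
    exact hXi k H hH ⟨C', Eventually.of_forall hC'⟩

end Pool.Agent.Lib.H82OT
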