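import Pool.Agent.Lib.H82OT.Defs

/-!
# Project H82OT, chunk CI4: orthogonality of the components
-/

open MeasureTheory Filter Topology Finset ProbabilityTheory
open scoped ENNReal ComplexConjugate Matrix

namespace Pool.Agent.Lib.H82OT

open Pool.Agent.Lib.H22M Pool.Agent.Lib.H82T

/-- The sesquilinear computation. -/
theorem CI4_sum {κ : Type*} [Fintype κ] [DecidableEq κ] (W : κ → κ → ℂ)
    (hu : ∀ l l', ∑ k, W k l * conj (W k l') = if l = l' then 1 else 0) (ζ ξ : ℂ)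
    (x x' y y' : κ → ℂ) (hy : ∀ k, y k = ζ * ∑ l, W k l * x l)
    (hy' : ∀ k, y' k = ξ * ∑ l, W k l * x' l) :
    ∑ k, y k * conj (y' k) = ζ * conj ξ * ∑ l, x l * conj (x' l) := by
  calc ∑ k, y k * conj (y' k)
      = ∑ k, ∑ l, ∑ l', (ζ * conj ξ) * (x l * conj (x' l')) * (W k l * conj (W k l')) := by
        refine Finset.sum_congr rfl fun k _ => ?_
        rw [hy, hy', map_mul, map_sum]
        simp only [map_mul]
        rw [show ζ * (∑ l, W k l * x l) * (conj ξ * ∑ l', conj (W k l') * conj (x' l')) =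
          (ζ * conj ξ) * ((∑ l, W k l * x l) * ∑ l', conj (W k l') * conj (x' l')) by ring]
        rw [Finset.sum_mul_sum, Finset.mul_sum]
        refine Finset.sum_congr rfl fun l _ => ?_
        rw [Finset.mul_sum]
        refine Finset.sum_congr rfl fun l' _ => ?_
        ring
    _ = ∑ l, ∑ l', (ζ * conj ξ) * (x l * conj (x' l')) * (∑ k, W k l * conj (W k l')) := by
        rw [Finset.sum_comm]
        refine Finset.sum_congr rfl fun l _ => ?_
        rw [Finset.sum_comm]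
        refine Finset.sum_congr rfl fun l' _ => ?_
        rw [Finset.mul_sum]
    _ = ∑ l, (ζ * conj ξ) * (x l * conj (x' l)) := by
        refine Finset.sum_congr rfl fun l _ => ?_
        simp only [hu, mul_ite, mul_one, mul_zero, Finset.sum_ite_eq, Finset.mem_univ, if_true]
    _ = ζ * conj ξ * ∑ l, x l * conj (x' l) := by rw [Finset.mul_sum]

/-- Proof. Let `g ω = ∑_k X k ω * conj (X' k ω)`: `𝒜`-measurable, bounded, and for almost every `ω`
`g (S ω) = ζ conj ξ ∑_k ∑_l ∑_l' W_kl conj W_kl' X_l conj X'_l' = ζ conj ξ g ω` by `hu`. `ζ conj ξ = ζ ξ⁻¹`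
is a `q`-th root of unity different from `1`. `NoRoot` gives `g = 0` a.e. -/
theorem coeff_orth {Ω κ : Type*} [Fintype κ] [DecidableEq κ] (𝒜 : MeasurableSpace Ω)
    [mΩ : MeasurableSpace Ω] (ν : Measure Ω) (S : Ω → Ω) (q : ℕ) (hq : 1 ≤ q)
    (hN : NoRoot 𝒜 ν S q) (W : Ω → κ → κ → ℂ)
    (hu : ∀ ω l l', ∑ k, W ω k l * conj (W ω k l') = if l = l' then 1 else 0)
    (ζ ξ : ℂ) (hζ : ζ ^ q = 1) (hξ : ξ ^ q = 1) (hne : ζ ≠ ξ) (X X' : κ → Ω → ℂ)
    (hX : ∀ k, Measurable[𝒜] (X k)) (hXb : ∃ C : ℝ, ∀ k ω, ‖X k ω‖ ≤ C)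
    (hX' : ∀ k, Measurable[𝒜] (X' k)) (hXb' : ∃ C : ℝ, ∀ k ω, ‖X' k ω‖ ≤ C)
    (hXS : ∀ᵐ ω ∂ν, ∀ k, X k (S ω) = ζ * ∑ l, W ω k l * X l ω)
    (hXS' : ∀ᵐ ω ∂ν, ∀ k, X' k (S ω) = ξ * ∑ l, W ω k l * X' l ω) :
    ∀ᵐ ω ∂ν, ∑ k, X k ω * conj (X' k ω) = 0 := by
  obtain ⟨C, hC⟩ := hXb
  obtain ⟨C', hC'⟩ := hXb'
  have hξn : ‖ξ‖ = 1 := Complex.norm_eq_one_of_pow_eq_one hξ (by omega)
  have hξc : conj ξ * ξ = 1 := by
    rw [Complex.conj_mul', hξn]
    norm_num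
  refine hN (ζ * conj ξ) ?_ ?_ (fun ω => ∑ k, X k ω * conj (X' k ω)) ?_
    ⟨∑ _k : κ, |C| * |C'|, ?_⟩ ?_
  · rw [mul_pow, hζ, ← map_pow, hξ, map_one, one_mul]
  · intro h1
    apply hne
    calc ζ = ζ * (conj ξ * ξ) := by rw [hξc, mul_one]
      _ = (ζ * conj ξ) * ξ := by ring
      _ = ξ := by rw [h1, one_mul]
  · refine Finset.measurable_sum _ fun k _ => ?_
    exact (hX k).mul (Complex.continuous_conj.measurable.comp (hX' k))
  · refine Eventually.of_forall fun ω => (norm_sum_le _ _).trans (Finset.sum_le_sum fun k _ => ?_)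
    rw [norm_mul, RCLike.norm_conj]
    exact mul_le_mul ((hC k ω).trans (le_abs_self C)) ((hC' k ω).trans (le_abs_self C'))
      (norm_nonneg _) (abs_nonneg _)
  · filter_upwards [hXS, hXS'] with ω h1 h2
    exact CI4_sum (W ω) (hu ω) ζ ξ (fun k => X k ω) (fun k => X' k ω) (fun k => X k (S ω))
      (fun k => X' k (S ω)) h1 h2

/-- Pairwise orthogonal nonzero vectors of `ℂ^κ` are at most `Fintype.card κ` many. Proof. In
`EuclideanSpace ℂ κ` they are linearly independent (`linearIndependent_of_ne_zero_of_inner_eq_zero`),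
`LinearIndependent.fintype_card_le_finrank` or `finset_card_le_finrank`. -/
theorem card_orth_le {κ : Type*} [Fintype κ] (Z : Finset ℂ) (x : ℂ → κ → ℂ)
    (h : ∀ ζ ∈ Z, ∀ ξ ∈ Z, ζ ≠ ξ → ∑ k, x ζ k * conj (x ξ k) = 0) :
    (Z.filter fun ζ => x ζ ≠ 0).card ≤ Fintype.card κ := by
  classical
  set T := Z.filter fun ζ => x ζ ≠ 0 with hT
  let v : T → EuclideanSpace ℂ κ := fun ζ => WithLp.toLp 2 (x ζ.1)
  have hli : LinearIndependent ℂ v := by
    apply linearIndependent_of_ne_zero_of_inner_eq_zero (𝕜 := ℂ)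
    · intro ζ h0
      have h1 : x ζ.1 ≠ 0 := (Finset.mem_filter.mp ζ.2).2
      apply h1
      funext k
      have h2 := congrArg (fun z : EuclideanSpace ℂ κ => z k) h0
      exact h2
    · intro ζ ξ hζξ
      have h1 : ξ.1 ≠ ζ.1 := fun h0 => hζξ (Subtype.ext h0).symm
      have h2 := h ξ.1 (Finset.mem_filter.mp ξ.2).1 ζ.1 (Finset.mem_filter.mp ζ.2).1 h1
      rw [PiLp.inner_apply]
      rw [← h2]
      refine Finset.sum_congr rfl fun k _ => ?_
      exact RCLike.inner_apply _ _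
  have h3 := hli.fintype_card_le_finrank
  rw [finrank_euclideanSpace, Fintype.card_coe] at h3
  exact h3

/-- The norm is invariant. Proof. `∑_k |X_k(S ω)|² = |ζ|² ∑_k |∑_l W_kl X_l|² = ∑_l |X_l|²` by `hu`. -/
theorem coeff_norm_inv {Ω κ : Type*} [Fintype κ] [DecidableEq κ] (W : κ → κ → ℂ)
    (hu : ∀ l l', ∑ k, W k l * conj (W k l') = if l = l' then 1 else 0)
    (ζ : ℂ) (hζ : ‖ζ‖ = 1) (x y : κ → ℂ) (h : ∀ k, y k = ζ * ∑ l, W k l * x l) :
    (y ≠ 0 ↔ x ≠ 0) ∧ ∑ k, ‖y k‖ ^ 2 = ∑ k, ‖x k‖ ^ 2 := by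
  have h1 := CI4_sum W hu ζ ζ x x y y h h
  have h2 : ∀ z : κ → ℂ, ∑ k, z k * conj (z k) = ((∑ k, ‖z k‖ ^ 2 : ℝ) : ℂ) := by
    intro z
    rw [Complex.ofReal_sum]
    refine Finset.sum_congr rfl fun k _ => ?_
    rw [Complex.mul_conj']
    norm_num
  have h3 : ζ * conj ζ = 1 := by
    rw [Complex.mul_conj', hζ]
    norm_num
  rw [h2, h2, h3, one_mul] at h1
  have h4 : ∑ k, ‖y k‖ ^ 2 = ∑ k, ‖x k‖ ^ 2 := by exact_mod_cast h1
  have h5 : ∀ z : κ → ℂ, z = 0 ↔ ∑ k, ‖z k‖ ^ 2 = 0 := by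
    intro z
    rw [Finset.sum_eq_zero_iff_of_nonneg fun k _ => by positivity]
    constructor
    · rintro rfl k _
      simp
    · intro hz
      funext k
      have := hz k (Finset.mem_univ k)
      simpa using this
  refine ⟨?_, h4⟩
  rw [ne_eq, ne_eq, h5 y, h5 x, h4]

end Pool.Agent.Lib.H82OT
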