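import Pool.Agent.Lib.H82OT.LT1

/-!
# Project H82OT, chunk CI5: the sum of the squares of the components
-/

open MeasureTheory Filter Topology Finset ProbabilityTheory
open scoped ENNReal ComplexConjugate Matrix

namespace Pool.Agent.Lib.H82OT

open Pool.Agent.Lib.H22M Pool.Agent.Lib.H82T

private theorem ci5_mono {Ω : Type*} (𝒜 : MeasurableSpace Ω) [mΩ : MeasurableSpace Ω] (hle : 𝒜 ≤ mΩ)
    {F : Ω → ℂ} (h : @BM Ω 𝒜 F) : BM F :=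
  ⟨h.1.mono hle le_rfl, h.2⟩

private theorem ci5_norm {Ω κ : Type*} [Fintype κ] [MeasurableSpace Ω] (X : κ → Ω → ℂ)
    (hX : ∀ k, BM (X k)) : BM (fun ω => ((Real.sqrt (∑ k, ‖X k ω‖ ^ 2) : ℝ) : ℂ)) := by
  have hm : ∀ k, Measurable (X k) := fun k => (hX k).1
  refine ⟨by fun_prop, ?_⟩
  choose C hC using fun k => (hX k).2
  refine ⟨Real.sqrt (∑ k, C k ^ 2), fun ω => ?_⟩
  rw [Complex.norm_real, Real.norm_eq_abs, abs_of_nonneg (Real.sqrt_nonneg _)]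
  exact Real.sqrt_le_sqrt (Finset.sum_le_sum fun k _ => pow_le_pow_left₀ (norm_nonneg _) (hC k ω) 2)

private theorem ci5_cs {κ : Type*} [Fintype κ] (a b : κ → ℂ) (C : ℝ) (hC0 : 0 ≤ C)
    (hC : ∑ k, ‖b k‖ ^ 2 ≤ C ^ 2) :
    ‖∑ k, conj (a k) * b k‖ ≤ Real.sqrt (∑ k, ‖a k‖ ^ 2) * C := by
  calc ‖∑ k, conj (a k) * b k‖ ≤ ∑ k, ‖a k‖ * ‖b k‖ := by
        refine (norm_sum_le _ _).trans (le_of_eq (Finset.sum_congr rfl fun k _ => ?_))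
        rw [norm_mul, Complex.norm_conj]
    _ ≤ Real.sqrt (∑ k, ‖a k‖ ^ 2) * Real.sqrt (∑ k, ‖b k‖ ^ 2) :=
        Real.sum_mul_le_sqrt_mul_sqrt _ _ _
    _ ≤ Real.sqrt (∑ k, ‖a k‖ ^ 2) * C := by
        refine mul_le_mul_of_nonneg_left ?_ (Real.sqrt_nonneg _)
        calc Real.sqrt (∑ k, ‖b k‖ ^ 2) ≤ Real.sqrt (C ^ 2) := Real.sqrt_le_sqrt hC
          _ = C := Real.sqrt_sq hC0

/-- Proof. Put `X k = ∑_{ζ ∈ Z} Xz ζ k` (`𝒜`-measurable, bounded). By `horth`,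
`∑_k |X k|² = ∑_ζ ∑_k |Xz ζ k|²` a.e. Let `n(ω) = (∑_k |X k ω|²)^(1/2)` (`𝒜`-measurable, bounded) and
`I = ∫ n² dν`. Summing `hdef` over `ζ` with `H = conj (X k)` (`𝒜`-measurable) and `k`, and using `hsum`,
`hD`: `I = ∑_k ∫ conj (X k) X k dν = ∑_k ∑_ζ ∫ conj (X k) E k Dz ζ dν = ∫ (∑_k conj (X k) E k) D dν
= ∫ ∑_k conj (X k) E k dσ ≤ ∫ n C dσ = C ∫ n dν ≤ C I^(1/2)` (pointwise Cauchy-Schwarz; `hσν` for `n`;
`∫ n dν ≤ (∫ n² dν)^(1/2)`). So `I ≤ C²`. -/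
theorem sum_sq_le {Ω κ : Type*} [Fintype κ] (𝒜 : MeasurableSpace Ω) [mΩ : MeasurableSpace Ω]
    (ν σ : Measure Ω) [IsProbabilityMeasure ν] [IsProbabilityMeasure σ] (hle : 𝒜 ≤ mΩ)
    (hσν : ∀ F : Ω → ℂ, Measurable[𝒜] F → (∃ C : ℝ, ∀ ω, ‖F ω‖ ≤ C) →
      ∫ ω, F ω ∂σ = ∫ ω, F ω ∂ν)
    (D : Ω → ℝ) (hD : ∀ F : Ω → ℂ, BM F → ∫ ω, F ω ∂σ = ∫ ω, F ω * (D ω : ℂ) ∂ν)
    (Z : Finset ℂ) (Dz : ℂ → Ω → ℂ) (hDz : ∀ ζ, BM (Dz ζ))
    (hsum : ∀ ω, ∑ ζ ∈ Z, Dz ζ ω = (D ω : ℂ))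
    (E : κ → Ω → ℂ) (hE : ∀ k, BM (E k)) (C : ℝ) (hC0 : 0 ≤ C)
    (hC : ∀ ω, ∑ k, ‖E k ω‖ ^ 2 ≤ C ^ 2)
    (Xz : ℂ → κ → Ω → ℂ) (hX : ∀ ζ ∈ Z, ∀ k, Measurable[𝒜] (Xz ζ k))
    (hXb : ∀ ζ ∈ Z, ∃ C : ℝ, ∀ k ω, ‖Xz ζ k ω‖ ≤ C)
    (hdef : ∀ ζ ∈ Z, ∀ (k : κ) (H : Ω → ℂ), Measurable[𝒜] H → (∃ C : ℝ, ∀ ω, ‖H ω‖ ≤ C) →
      ∫ ω, H ω * (E k ω * Dz ζ ω) ∂ν = ∫ ω, H ω * Xz ζ k ω ∂ν)
    (horth : ∀ᵐ ω ∂ν, ∀ ζ ∈ Z, ∀ ξ ∈ Z, ζ ≠ ξ → ∑ k, Xz ζ k ω * conj (Xz ξ k ω) = 0) :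
    ∫ ω, ∑ ζ ∈ Z, ∑ k, ‖Xz ζ k ω‖ ^ 2 ∂ν ≤ C ^ 2 := by
  classical
  have hXzA : ∀ ζ ∈ Z, ∀ k, @BM Ω 𝒜 (Xz ζ k) := fun ζ hζ k =>
    ⟨hX ζ hζ k, let ⟨C, hC⟩ := hXb ζ hζ; ⟨C, fun ω => hC k ω⟩⟩
  have hXz : ∀ ζ ∈ Z, ∀ k, BM (Xz ζ k) := fun ζ hζ k => ci5_mono 𝒜 hle (hXzA ζ hζ k)
  obtain ⟨X, hXd⟩ : ∃ X : κ → Ω → ℂ, X = fun k ω => ∑ ζ ∈ Z, Xz ζ k ω := ⟨_, rfl⟩
  have hXA : ∀ k, @BM Ω 𝒜 (X k) := by
    intro k
    rw [hXd]
    exact @BM.sum Ω ℂ 𝒜 Z (fun ζ => Xz ζ k) fun ζ hζ => hXzA ζ hζ k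
  have hXm : ∀ k, BM (X k) := fun k => ci5_mono 𝒜 hle (hXA k)
  have hXcA : ∀ k, @BM Ω 𝒜 (fun ω => conj (X k ω)) := fun k => @BM.conj Ω 𝒜 _ (hXA k)
  have hXc : ∀ k, BM (fun ω => conj (X k ω)) := fun k => ci5_mono 𝒜 hle (hXcA k)
  -- the norm
  have hnA := @ci5_norm Ω κ _ 𝒜 X hXA
  have hn := ci5_norm X hXm
  obtain ⟨n, hnd⟩ : ∃ n : Ω → ℝ, n = fun ω => Real.sqrt (∑ k, ‖X k ω‖ ^ 2) := ⟨_, rfl⟩
  have hnn : ∀ ω, ((n ω : ℝ) : ℂ) = ((Real.sqrt (∑ k, ‖X k ω‖ ^ 2) : ℝ) : ℂ) := fun ω => by rw [hnd]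
  simp only [← hnn] at hnA hn
  have hn0 : ∀ ω, 0 ≤ n ω := fun ω => by rw [hnd]; exact Real.sqrt_nonneg _
  have hn2 : ∀ ω, n ω ^ 2 = ∑ k, ‖X k ω‖ ^ 2 := fun ω => by
    rw [hnd]
    exact Real.sq_sqrt (Finset.sum_nonneg fun k _ => by positivity)
  have hnint : ∀ μ : Measure Ω, IsProbabilityMeasure μ → Integrable n μ := by
    intro μ _
    have h := (hn.integrable (m := μ)).re
    simpa using h
  have hn2int : Integrable (fun ω => n ω ^ 2) ν := by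
    have h := ((hn.mul hn).integrable (m := ν)).re
    refine h.congr (Filter.Eventually.of_forall fun ω => ?_)
    change ((n ω : ℂ) * (n ω : ℂ)).re = n ω ^ 2
    rw [← Complex.ofReal_mul, Complex.ofReal_re, sq]
  -- orthogonality
  have hae : ∀ᵐ ω ∂ν, ∑ ζ ∈ Z, ∑ k, ‖Xz ζ k ω‖ ^ 2 = n ω ^ 2 := by
    filter_upwards [horth] with ω hω
    have h1 : (((∑ k, ‖X k ω‖ ^ 2 : ℝ)) : ℂ) = ∑ k, X k ω * conj (X k ω) := by
      rw [Complex.ofReal_sum]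
      refine Finset.sum_congr rfl fun k _ => ?_
      rw [Complex.mul_conj, Complex.normSq_eq_norm_sq]
    have h2 : ∑ k, X k ω * conj (X k ω) = ∑ ζ ∈ Z, ∑ ξ ∈ Z, ∑ k, Xz ζ k ω * conj (Xz ξ k ω) := by
      have h3 : ∀ k, X k ω * conj (X k ω) = ∑ ζ ∈ Z, ∑ ξ ∈ Z, Xz ζ k ω * conj (Xz ξ k ω) := by
        intro k
        rw [hXd]
        simp only [map_sum]
        rw [Finset.sum_mul_sum]
      rw [Finset.sum_congr rfl fun k _ => h3 k, Finset.sum_comm]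
      refine Finset.sum_congr rfl fun ζ _ => ?_
      rw [Finset.sum_comm]
    have h4 : ∑ ζ ∈ Z, ∑ ξ ∈ Z, ∑ k, Xz ζ k ω * conj (Xz ξ k ω) =
        ∑ ζ ∈ Z, ∑ k, Xz ζ k ω * conj (Xz ζ k ω) := by
      refine Finset.sum_congr rfl fun ζ hζ => ?_
      rw [Finset.sum_eq_single ζ]
      · intro ξ hξ hne
        exact hω ζ hζ ξ hξ (Ne.symm hne)
      · intro h
        exact absurd hζ h
    have h5 : ∑ ζ ∈ Z, ∑ k, Xz ζ k ω * conj (Xz ζ k ω) = ((∑ ζ ∈ Z, ∑ k, ‖Xz ζ k ω‖ ^ 2 : ℝ) : ℂ) := by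
      rw [Complex.ofReal_sum]
      refine Finset.sum_congr rfl fun ζ _ => ?_
      rw [Complex.ofReal_sum]
      refine Finset.sum_congr rfl fun k _ => ?_
      rw [Complex.mul_conj, Complex.normSq_eq_norm_sq]
    rw [h2, h4, h5] at h1
    rw [hn2]
    exact (Complex.ofReal_injective h1).symm
  rw [integral_congr_ae hae]
  obtain ⟨I, hI⟩ : ∃ I : ℝ, I = ∫ ω, n ω ^ 2 ∂ν := ⟨_, rfl⟩
  obtain ⟨m, hm⟩ : ∃ m : ℝ, m = ∫ ω, n ω ∂ν := ⟨_, rfl⟩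
  rw [← hI]
  have hm0 : 0 ≤ m := by
    rw [hm]
    exact integral_nonneg hn0
  -- `m ^ 2 ≤ I`
  have hmI : m ^ 2 ≤ I := by
    have h1 : 0 ≤ ∫ ω, (n ω - m) ^ 2 ∂ν := integral_nonneg fun ω => sq_nonneg _
    have h2 : ∫ ω, (n ω - m) ^ 2 ∂ν = I - 2 * m * m + m ^ 2 := by
      have e : ∀ ω, (n ω - m) ^ 2 = n ω ^ 2 - 2 * m * n ω + m ^ 2 := fun ω => by ring
      simp only [e]
      have i1 : Integrable (fun ω => 2 * m * n ω) ν := (hnint ν inferInstance).const_mul _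
      have i2 : Integrable (fun ω => n ω ^ 2 - 2 * m * n ω) ν := hn2int.sub i1
      rw [integral_add i2 (integrable_const _), integral_sub hn2int i1,
        integral_const_mul, ← hI, ← hm, integral_const]
      simp
    rw [h2] at h1
    nlinarith
  -- the identity
  have hEX : BM (fun ω => ∑ k, conj (X k ω) * E k ω) :=
    BM.sum Finset.univ fun k _ => (hXc k).mul (hE k)
  have hid : (I : ℂ) = ∫ ω, ∑ k, conj (X k ω) * E k ω ∂σ := by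
    have h1 : (I : ℂ) = ∫ ω, ∑ k, conj (X k ω) * X k ω ∂ν := by
      rw [hI, ← integral_complex_ofReal]
      refine integral_congr_ae (Filter.Eventually.of_forall fun ω => ?_)
      change ((n ω ^ 2 : ℝ) : ℂ) = ∑ k, conj (X k ω) * X k ω
      rw [hn2, Complex.ofReal_sum]
      refine Finset.sum_congr rfl fun k _ => ?_
      rw [mul_comm, Complex.mul_conj, Complex.normSq_eq_norm_sq]
    have h2 : ∀ k, ∫ ω, conj (X k ω) * X k ω ∂ν = ∫ ω, conj (X k ω) * E k ω * (D ω : ℂ) ∂ν := by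
      intro k
      have h3 : ∀ ω, conj (X k ω) * X k ω = ∑ ζ ∈ Z, conj (X k ω) * Xz ζ k ω := by
        intro ω
        rw [← Finset.mul_sum]
        congr 1
        rw [hXd]
      have h4 : ∀ ω, conj (X k ω) * E k ω * (D ω : ℂ) = ∑ ζ ∈ Z, conj (X k ω) * (E k ω * Dz ζ ω) := by
        intro ω
        rw [← hsum, Finset.mul_sum]
        exact Finset.sum_congr rfl fun ζ _ => by ring
      simp only [h3, h4]
      rw [integral_finsetSum _ fun ζ hζ => ((hXc k).mul (hXz ζ hζ k)).integrable,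
        integral_finsetSum _ fun ζ _ => ((hXc k).mul ((hE k).mul (hDz ζ))).integrable]
      refine Finset.sum_congr rfl fun ζ hζ => ?_
      exact (hdef ζ hζ k _ (hXcA k).1 (hXcA k).2).symm
    have hDm : BM (fun ω => (D ω : ℂ)) := by
      have := BM.sum Z (f := Dz) fun ζ _ => hDz ζ
      simpa only [hsum] using this
    rw [h1, hD _ hEX, integral_finsetSum _ fun k _ => ((hXc k).mul (hXm k)).integrable,
      Finset.sum_congr rfl fun k _ => h2 k,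
      ← integral_finsetSum _ fun k _ => (((hXc k).mul (hE k)).mul hDm).integrable]
    refine integral_congr_ae (Filter.Eventually.of_forall fun ω => ?_)
    change ∑ k, conj (X k ω) * E k ω * (D ω : ℂ) = (∑ k, conj (X k ω) * E k ω) * (D ω : ℂ)
    rw [Finset.sum_mul]
  have hσ : ∫ ω, n ω ∂σ = m := by
    have h1 := hσν _ hnA.1 hnA.2
    rw [integral_complex_ofReal, integral_complex_ofReal, ← hm] at h1
    exact_mod_cast h1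
  have hI0 : 0 ≤ I := by
    rw [hI]
    exact integral_nonneg fun ω => sq_nonneg _
  have hIC : I ≤ C * m := by
    have h1 : I = ‖(I : ℂ)‖ := by rw [Complex.norm_real, Real.norm_eq_abs, abs_of_nonneg hI0]
    rw [h1, hid]
    calc ‖∫ ω, ∑ k, conj (X k ω) * E k ω ∂σ‖ ≤ ∫ ω, ‖∑ k, conj (X k ω) * E k ω‖ ∂σ :=
          norm_integral_le_integral_norm _
      _ ≤ ∫ ω, n ω * C ∂σ := by
          refine integral_mono hEX.integrable.norm ((hnint σ inferInstance).mul_const C) fun ω => ?_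
          have h2 := ci5_cs (fun k => X k ω) (fun k => E k ω) C hC0 (hC ω)
          rw [hnd]
          exact h2
      _ = C * m := by
          rw [integral_mul_const, hσ, mul_comm]
  rcases hI0.eq_or_lt with h0 | h0
  · rw [← h0]
    positivity
  · have h1 : I * I ≤ C ^ 2 * I := by
      calc I * I ≤ (C * m) * (C * m) := mul_self_le_mul_self hI0 hIC
        _ = C ^ 2 * m ^ 2 := by ring
        _ ≤ C ^ 2 * I := mul_le_mul_of_nonneg_left hmI (by positivity)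
    exact le_of_mul_le_mul_right h1 h0

end Pool.Agent.Lib.H82OT
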