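import Pool.Agent.Lib.H82OT.CI4
import Pool.Agent.Lib.H82OT.LT1

/-!
# Project H82OT, chunk CI6: Cauchy-Schwarz
-/

open MeasureTheory Filter Topology Finset ProbabilityTheory
open scoped ENNReal ComplexConjugate Matrix

namespace Pool.Agent.Lib.H82OT

open Pool.Agent.Lib.H22M Pool.Agent.Lib.H82T

/-- Transport along `S`. Proof. Induction on `n`: by the invariance of `ν` and `hXS`
`∫ ∑_k Hn n k X k dν = ∫ ∑_k Hn n k (S ω) X k (S ω) dν = ζ ∫ ∑_l (∑_k Hn n k (S ω) W_kl) X_l dν =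
ζ ∫ ∑_l Hn (n+1) l X l dν`. -/
theorem transport {Ω κ : Type*} [Fintype κ] [mΩ : MeasurableSpace Ω] (ν : Measure Ω)
    [IsProbabilityMeasure ν] (S : Ω → Ω) (hS : MeasurePreserving S ν ν) (W : Ω → κ → κ → ℂ)
    (ζ : ℂ) (X : κ → Ω → ℂ) (hX : ∀ k, BM (X k))
    (hXS : ∀ᵐ ω ∂ν, ∀ k, X k (S ω) = ζ * ∑ l, W ω k l * X l ω)
    (Hn : ℕ → κ → Ω → ℂ) (hH : ∀ n k, BM (Hn n k))
    (hstep : ∀ n ω l, Hn (n + 1) l ω = ∑ k, Hn n k (S ω) * W ω k l) (n : ℕ) :
    ∫ ω, ∑ k, Hn 0 k ω * X k ω ∂ν = ζ ^ n * ∫ ω, ∑ k, Hn n k ω * X k ω ∂ν := by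
  induction n with
  | zero => rw [pow_zero, one_mul]
  | succ n ih =>
    have hBM : BM fun ω => ∑ k, Hn n k ω * X k ω := BM.sum _ fun k _ => (hH n k).mul (hX k)
    have h1 : ∫ ω, ∑ k, Hn n k ω * X k ω ∂ν = ∫ ω, ∑ k, Hn n k (S ω) * X k (S ω) ∂ν := by
      have h2 := integral_map (μ := ν) hS.measurable.aemeasurable
        (f := fun ω => ∑ k, Hn n k ω * X k ω) hBM.1.aestronglyMeasurable
      rw [hS.map_eq] at h2
      exact h2
    have h3 : ∫ ω, ∑ k, Hn n k (S ω) * X k (S ω) ∂ν =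
        ∫ ω, ζ * ∑ l, Hn (n + 1) l ω * X l ω ∂ν := by
      apply integral_congr_ae
      filter_upwards [hXS] with ω hω
      calc ∑ k, Hn n k (S ω) * X k (S ω)
          = ∑ k, ∑ l, ζ * (Hn n k (S ω) * W ω k l * X l ω) := by
            refine Finset.sum_congr rfl fun k _ => ?_
            rw [hω k, Finset.mul_sum, Finset.mul_sum]
            refine Finset.sum_congr rfl fun l _ => ?_
            ring
        _ = ∑ l, ∑ k, ζ * (Hn n k (S ω) * W ω k l * X l ω) := Finset.sum_comm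
        _ = ζ * ∑ l, Hn (n + 1) l ω * X l ω := by
            rw [Finset.mul_sum]
            refine Finset.sum_congr rfl fun l _ => ?_
            rw [hstep, Finset.sum_mul, Finset.mul_sum]
    rw [ih, h1, h3, integral_const_mul, pow_succ]
    ring

/-- Proof. `J n j ω = ∑_{ζ ∈ Z, Xz ζ (ω) ≠ 0} ζ^n (conj ζ)^j` if the number of these `ζ` is at most
`card κ`, and `0` otherwise (the second case is a null set by `horth` and `card_orth_le`). Measurable
(finite case distinctions on the measurable sets `{Xz ζ · ω ≠ 0}`), bounded by `card κ` (`‖ζ‖ = 1`),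
invariant a.e. by `coeff_norm_inv`. For fixed `N ≥ 1`: `I = N⁻¹ ∑_n ∑_ζ ζ^n ∫ ∑_k Hn n k Xz ζ k =
∫ ∑_ζ ∑_k (N⁻¹ ∑_n ζ^n Hn n k) Xz ζ k`, so by Cauchy-Schwarz in `L²(ν; ℂ^(Z × κ))` (only the `ζ` with
`Xz ζ ω ≠ 0` contribute) `‖I‖² ≤ C² ∫ ∑_ζ 1[Xz ζ ω ≠ 0] ∑_k ‖N⁻¹ ∑_n ζ^n Hn n k‖² dν`, and the last integral
is `N⁻² ∑_{n,j} ∫ J n j ∑_k Hn n k conj (Hn j k) dν`. -/
theorem cs_final {Ω κ : Type*} [Fintype κ] [DecidableEq κ] [mΩ : MeasurableSpace Ω]
    (ν : Measure Ω) [IsProbabilityMeasure ν] (S : Ω → Ω) (W : Ω → κ → κ → ℂ)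
    (hu : ∀ ω l l', ∑ k, W ω k l * conj (W ω k l') = if l = l' then 1 else 0)
    (Z : Finset ℂ) (hZ : ∀ ζ ∈ Z, ‖ζ‖ = 1) (C : ℝ) (hC0 : 0 ≤ C) (Xz : ℂ → κ → Ω → ℂ)
    (hX : ∀ ζ ∈ Z, ∀ k, BM (Xz ζ k))
    (hXS : ∀ ζ ∈ Z, ∀ᵐ ω ∂ν, ∀ k, Xz ζ k (S ω) = ζ * ∑ l, W ω k l * Xz ζ l ω)
    (horth : ∀ᵐ ω ∂ν, ∀ ζ ∈ Z, ∀ ξ ∈ Z, ζ ≠ ξ → ∑ k, Xz ζ k ω * conj (Xz ξ k ω) = 0)
    (hsq : ∫ ω, ∑ ζ ∈ Z, ∑ k, ‖Xz ζ k ω‖ ^ 2 ∂ν ≤ C ^ 2)
    (Hn : ℕ → κ → Ω → ℂ) (hH : ∀ n k, BM (Hn n k)) (I : ℂ)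
    (hI : ∀ n, I = ∑ ζ ∈ Z, ζ ^ n * ∫ ω, ∑ k, Hn n k ω * Xz ζ k ω ∂ν) :
    ∃ J : ℕ → ℕ → Ω → ℂ, (∀ n j, BM (J n j) ∧ (∀ ω, ‖J n j ω‖ ≤ Fintype.card κ) ∧
        ∀ᵐ ω ∂ν, J n j (S ω) = J n j ω) ∧
      ∀ N : ℕ, 1 ≤ N → ‖I‖ ^ 2 * (N : ℝ) ^ 2 ≤ C ^ 2 * ∑ n ∈ range N, ∑ j ∈ range N,
        ‖∫ ω, J n j ω * ∑ k, Hn n k ω * conj (Hn j k ω) ∂ν‖ := by
  have hA : ∀ ζ ∈ Z, MeasurableSet {ω | (fun k => Xz ζ k ω) ≠ 0} := by
    intro ζ hζ
    have h1 : {ω | (fun k => Xz ζ k ω) ≠ 0} = (⋂ k, {ω | Xz ζ k ω = 0})ᶜ := by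
      ext ω
      simp [funext_iff]
    rw [h1]
    exact (MeasurableSet.iInter fun k => (hX ζ hζ k).1 (measurableSet_singleton 0)).compl
  have hcard : Measurable fun ω => (Z.filter fun ζ => (fun k => Xz ζ k ω) ≠ 0).card := by
    have h1 : (fun ω => (Z.filter fun ζ => (fun k => Xz ζ k ω) ≠ 0).card) =
        fun ω => ∑ ζ ∈ Z, if (fun k => Xz ζ k ω) ≠ 0 then 1 else 0 := by
      funext ω
      exact Finset.card_filter _ _
    rw [h1]
    exact Finset.measurable_sum _ fun ζ hζ =>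
      Measurable.ite (hA ζ hζ) measurable_const measurable_const
  have hsumm : ∀ c : ℂ → ℂ, Measurable fun ω =>
      ∑ ζ ∈ Z.filter (fun ζ => (fun k => Xz ζ k ω) ≠ 0), c ζ := by
    intro c
    have h1 : (fun ω => ∑ ζ ∈ Z.filter (fun ζ => (fun k => Xz ζ k ω) ≠ 0), c ζ) =
        fun ω => ∑ ζ ∈ Z, if (fun k => Xz ζ k ω) ≠ 0 then c ζ else 0 := by
      funext ω
      exact Finset.sum_filter _ _
    rw [h1]
    exact Finset.measurable_sum _ fun ζ hζ =>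
      Measurable.ite (hA ζ hζ) measurable_const measurable_const
  obtain ⟨J, hJdef⟩ : ∃ J : ℕ → ℕ → Ω → ℂ, ∀ n j ω, J n j ω =
      if (Z.filter fun ζ => (fun k => Xz ζ k ω) ≠ 0).card ≤ Fintype.card κ then
        ∑ ζ ∈ Z.filter (fun ζ => (fun k => Xz ζ k ω) ≠ 0), ζ ^ n * (conj ζ) ^ j else 0 :=
    ⟨_, fun _ _ _ => rfl⟩
  have hJ : ∀ n j, BM (J n j) ∧ (∀ ω, ‖J n j ω‖ ≤ Fintype.card κ) ∧
      ∀ᵐ ω ∂ν, J n j (S ω) = J n j ω := by
    intro n j
    have hbd : ∀ ω, ‖J n j ω‖ ≤ Fintype.card κ := by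
      intro ω
      rw [hJdef]
      split_ifs with h
      · refine (norm_sum_le _ _).trans ?_
        calc ∑ ζ ∈ Z.filter (fun ζ => (fun k => Xz ζ k ω) ≠ 0), ‖ζ ^ n * (conj ζ) ^ j‖
            ≤ ∑ ζ ∈ Z.filter (fun ζ => (fun k => Xz ζ k ω) ≠ 0), (1 : ℝ) := by
              refine Finset.sum_le_sum fun ζ hζ => ?_
              have h1 := hZ ζ (Finset.mem_filter.mp hζ).1
              rw [norm_mul, norm_pow, norm_pow, RCLike.norm_conj, h1, one_pow, one_pow, one_mul]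
          _ = ((Z.filter fun ζ => (fun k => Xz ζ k ω) ≠ 0).card : ℝ) := by
              rw [Finset.sum_const, nsmul_eq_mul, mul_one]
          _ ≤ Fintype.card κ := by exact_mod_cast h
      · rw [norm_zero]
        positivity
    refine ⟨⟨?_, _, hbd⟩, hbd, ?_⟩
    · have h1 : J n j = fun ω =>
          if (Z.filter fun ζ => (fun k => Xz ζ k ω) ≠ 0).card ≤ Fintype.card κ then
          ∑ ζ ∈ Z.filter (fun ζ => (fun k => Xz ζ k ω) ≠ 0), ζ ^ n * (conj ζ) ^ j else 0 :=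
        funext fun ω => hJdef n j ω
      rw [h1]
      exact Measurable.ite (measurableSet_le hcard measurable_const) (hsumm _) measurable_const
    · have h1 : ∀ᵐ ω ∂ν, ∀ ζ ∈ Z, ((fun k => Xz ζ k (S ω)) ≠ 0 ↔ (fun k => Xz ζ k ω) ≠ 0) := by
        rw [Filter.eventually_all_finset]
        intro ζ hζ
        filter_upwards [hXS ζ hζ] with ω hω
        exact (coeff_norm_inv (Ω := Ω) (W ω) (hu ω) ζ (hZ ζ hζ) (fun k => Xz ζ k ω)
          (fun k => Xz ζ k (S ω)) hω).1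
      filter_upwards [h1] with ω hω
      have h2 : (Z.filter fun ζ => (fun k => Xz ζ k (S ω)) ≠ 0) =
          Z.filter fun ζ => (fun k => Xz ζ k ω) ≠ 0 := Finset.filter_congr hω
      rw [hJdef, hJdef, h2]
  refine ⟨J, hJ, ?_⟩
  · intro N hN
    -- the averaged coefficients
    set A : ℂ × κ → Ω → ℂ := fun p ω => ∑ n ∈ range N, p.1 ^ n * Hn n p.2 ω with hAdef
    have hABM : ∀ p, BM (A p) := fun p => BM.sum _ fun n _ => (BM.const _).mul (hH n p.2)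
    set A' : ℂ × κ → Ω → ℂ := fun p ω => if (fun k => Xz p.1 k ω) ≠ 0 then A p ω else 0 with hA'def
    set P : Finset (ℂ × κ) := Z ×ˢ (Finset.univ : Finset κ) with hP
    have hPm : ∀ p ∈ P, p.1 ∈ Z := fun p hp => (Finset.mem_product.mp hp).1
    have hA'BM : ∀ p ∈ P, BM (A' p) := by
      intro p hp
      obtain ⟨c, hc⟩ := (hABM p).2
      refine ⟨Measurable.ite (hA p.1 (hPm p hp)) (hABM p).1 measurable_const, |c|, fun ω => ?_⟩
      rw [hA'def]
      dsimp only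
      split_ifs
      · exact (hc ω).trans (le_abs_self c)
      · rw [norm_zero]
        exact abs_nonneg c
    -- step 1
    have h1 : (N : ℂ) * I = ∑ p ∈ P, ∫ ω, A p ω * Xz p.1 p.2 ω ∂ν := by
      have e1 : ∀ n, I = ∑ ζ ∈ Z, ∑ k, ζ ^ n * ∫ ω, Hn n k ω * Xz ζ k ω ∂ν := by
        intro n
        rw [hI n]
        refine Finset.sum_congr rfl fun ζ hζ => ?_
        rw [integral_finset_sum _ fun k _ => ((hH n k).mul (hX ζ hζ k)).integrable, Finset.mul_sum]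
      have e2 : ∀ p ∈ P, ∫ ω, A p ω * Xz p.1 p.2 ω ∂ν =
          ∑ n ∈ range N, p.1 ^ n * ∫ ω, Hn n p.2 ω * Xz p.1 p.2 ω ∂ν := by
        intro p hp
        have e3 : ∀ ω, A p ω * Xz p.1 p.2 ω =
            ∑ n ∈ range N, p.1 ^ n * (Hn n p.2 ω * Xz p.1 p.2 ω) := by
          intro ω
          rw [hAdef]
          dsimp only
          rw [Finset.sum_mul]
          refine Finset.sum_congr rfl fun n _ => ?_
          ring
        simp only [e3]
        rw [integral_finset_sum _ fun n _ =>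
          (((hH n p.2).mul (hX p.1 (hPm p hp) p.2)).integrable).const_mul _]
        refine Finset.sum_congr rfl fun n _ => ?_
        rw [integral_const_mul]
      rw [Finset.sum_congr rfl e2, Finset.sum_comm]
      calc (N : ℂ) * I = ∑ n ∈ range N, I := by
            rw [Finset.sum_const, Finset.card_range, nsmul_eq_mul]
        _ = ∑ n ∈ range N, ∑ p ∈ P, p.1 ^ n * ∫ ω, Hn n p.2 ω * Xz p.1 p.2 ω ∂ν := by
            refine Finset.sum_congr rfl fun n _ => ?_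
            rw [hP, Finset.sum_product]
            exact e1 n
    -- step 2
    have h2 : ∀ p ∈ P, ∫ ω, A p ω * Xz p.1 p.2 ω ∂ν = ∫ ω, A' p ω * Xz p.1 p.2 ω ∂ν := by
      intro p _
      refine integral_congr_ae (Eventually.of_forall fun ω => ?_)
      dsimp only
      rw [hA'def]
      dsimp only
      split_ifs with h
      · rfl
      · have h3 : (fun k => Xz p.1 k ω) = 0 := not_not.mp h
        have h4 : Xz p.1 p.2 ω = 0 := congrFun h3 p.2
        rw [h4, mul_zero, mul_zero]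
    have h3 : ‖(N : ℂ) * I‖ ≤ ∑ p ∈ P, l2 ν (A' p) * l2 ν (Xz p.1 p.2) := by
      rw [h1]
      refine (norm_sum_le _ _).trans (Finset.sum_le_sum fun p hp => ?_)
      rw [h2 p hp]
      exact norm_integral_mul_le ν _ _ (hA'BM p hp) (hX p.1 (hPm p hp) p.2)
    have h4 : ‖(N : ℂ) * I‖ ^ 2 ≤ (∑ p ∈ P, l2 ν (A' p) ^ 2) * ∑ p ∈ P, l2 ν (Xz p.1 p.2) ^ 2 := by
      refine (pow_le_pow_left₀ (norm_nonneg _) h3 2).trans ?_
      exact Finset.sum_mul_sq_le_sq_mul_sq P _ _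
    have h5 : ∑ p ∈ P, l2 ν (Xz p.1 p.2) ^ 2 ≤ C ^ 2 := by
      have e1 : ∀ p ∈ P, Integrable (fun ω => ‖Xz p.1 p.2 ω‖ ^ 2) ν := by
        intro p hp
        obtain ⟨hm, c, hc⟩ := hX p.1 (hPm p hp) p.2
        refine Integrable.of_bound ((hm.norm.pow_const 2).aestronglyMeasurable) (|c| ^ 2)
          (Eventually.of_forall fun ω => ?_)
        rw [norm_pow, norm_norm]
        exact pow_le_pow_left₀ (norm_nonneg _) ((hc ω).trans (le_abs_self c)) 2
      have e2 : ∑ p ∈ P, l2 ν (Xz p.1 p.2) ^ 2 = ∫ ω, ∑ p ∈ P, ‖Xz p.1 p.2 ω‖ ^ 2 ∂ν := by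
        rw [integral_finset_sum _ e1]
        exact Finset.sum_congr rfl fun p _ => l2_sq ν _
      rw [e2]
      have e3 : (fun ω => ∑ p ∈ P, ‖Xz p.1 p.2 ω‖ ^ 2) = fun ω => ∑ ζ ∈ Z, ∑ k, ‖Xz ζ k ω‖ ^ 2 := by
        funext ω
        rw [hP, Finset.sum_product]
      rw [e3]
      exact hsq
    -- step 3
    have h6 : ∑ p ∈ P, l2 ν (A' p) ^ 2 ≤ ∑ n ∈ range N, ∑ j ∈ range N,
        ‖∫ ω, J n j ω *
          ∑ k, Hn n k ω * conj (Hn j k ω) ∂ν‖ := by
      have e1 : ((∑ p ∈ P, l2 ν (A' p) ^ 2 : ℝ) : ℂ) = ∫ ω, ∑ p ∈ P, A' p ω * conj (A' p ω) ∂ν := by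
        rw [integral_finset_sum _ fun p hp => ((hA'BM p hp).mul (hA'BM p hp).conj).integrable,
          Complex.ofReal_sum]
        exact Finset.sum_congr rfl fun p _ => (integral_mul_conj ν _).symm
      have e2 : ∫ ω, ∑ p ∈ P, A' p ω * conj (A' p ω) ∂ν = ∫ ω, ∑ n ∈ range N, ∑ j ∈ range N,
          J n j ω *
            ∑ k, Hn n k ω * conj (Hn j k ω) ∂ν := by
        apply integral_congr_ae
        filter_upwards [horth] with ω hω
        have e3 : (Z.filter fun ζ => (fun k => Xz ζ k ω) ≠ 0).card ≤ Fintype.card κ :=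
          card_orth_le Z (fun ζ k => Xz ζ k ω) hω
        have e7 : ∀ n j, J n j ω = ∑ ζ ∈ Z.filter (fun ζ => (fun k => Xz ζ k ω) ≠ 0),
            ζ ^ n * (conj ζ) ^ j := fun n j => by rw [hJdef, if_pos e3]
        simp only [e7]
        calc ∑ p ∈ P, A' p ω * conj (A' p ω)
            = ∑ ζ ∈ Z.filter (fun ζ => (fun k => Xz ζ k ω) ≠ 0), ∑ k,
                A (ζ, k) ω * conj (A (ζ, k) ω) := by
              rw [hP, Finset.sum_product, Finset.sum_filter]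
              refine Finset.sum_congr rfl fun ζ _ => ?_
              rw [hA'def]
              dsimp only
              split_ifs with h
              · rfl
              · simp
          _ = ∑ ζ ∈ Z.filter (fun ζ => (fun k => Xz ζ k ω) ≠ 0), ∑ k, ∑ n ∈ range N,
                ∑ j ∈ range N, (ζ ^ n * (conj ζ) ^ j) * (Hn n k ω * conj (Hn j k ω)) := by
              refine Finset.sum_congr rfl fun ζ _ => Finset.sum_congr rfl fun k _ => ?_
              rw [hAdef]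
              dsimp only
              rw [map_sum, Finset.sum_mul_sum]
              refine Finset.sum_congr rfl fun n _ => Finset.sum_congr rfl fun j _ => ?_
              rw [map_mul, map_pow]
              ring
          _ = ∑ ζ ∈ Z.filter (fun ζ => (fun k => Xz ζ k ω) ≠ 0), ∑ n ∈ range N,
                ∑ j ∈ range N, ∑ k, (ζ ^ n * (conj ζ) ^ j) * (Hn n k ω * conj (Hn j k ω)) := by
              refine Finset.sum_congr rfl fun ζ _ => ?_
              rw [Finset.sum_comm]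
              refine Finset.sum_congr rfl fun n _ => ?_
              rw [Finset.sum_comm]
          _ = ∑ n ∈ range N, ∑ j ∈ range N,
                ∑ ζ ∈ Z.filter (fun ζ => (fun k => Xz ζ k ω) ≠ 0), ∑ k,
                (ζ ^ n * (conj ζ) ^ j) * (Hn n k ω * conj (Hn j k ω)) := by
              rw [Finset.sum_comm]
              refine Finset.sum_congr rfl fun n _ => ?_
              rw [Finset.sum_comm]
          _ = ∑ n ∈ range N, ∑ j ∈ range N,
                (∑ ζ ∈ Z.filter (fun ζ => (fun k => Xz ζ k ω) ≠ 0), ζ ^ n * (conj ζ) ^ j) *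
                ∑ k, Hn n k ω * conj (Hn j k ω) := by
              refine Finset.sum_congr rfl fun n _ => Finset.sum_congr rfl fun j _ => ?_
              rw [Finset.sum_mul]
              refine Finset.sum_congr rfl fun ζ _ => ?_
              rw [Finset.mul_sum]
      have e4 : ∀ n j, BM fun ω => J n j ω * ∑ k, Hn n k ω * conj (Hn j k ω) := fun n j =>
        (hJ n j).1.mul (BM.sum _ fun k _ => (hH n k).mul (hH j k).conj)
      have e5 : ((∑ p ∈ P, l2 ν (A' p) ^ 2 : ℝ) : ℂ) = ∑ n ∈ range N, ∑ j ∈ range N,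
          ∫ ω, J n j ω *
            ∑ k, Hn n k ω * conj (Hn j k ω) ∂ν := by
        rw [e1, e2, integral_finset_sum _ fun n _ => integrable_finset_sum _ fun j _ =>
          (e4 n j).integrable]
        refine Finset.sum_congr rfl fun n _ => ?_
        rw [integral_finset_sum _ fun j _ => (e4 n j).integrable]
      have e6 : ∑ p ∈ P, l2 ν (A' p) ^ 2 = ‖((∑ p ∈ P, l2 ν (A' p) ^ 2 : ℝ) : ℂ)‖ := by
        rw [Complex.norm_real, Real.norm_of_nonneg]
        exact Finset.sum_nonneg fun p _ => sq_nonneg _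
      rw [e6, e5]
      refine (norm_sum_le _ _).trans (Finset.sum_le_sum fun n _ => ?_)
      exact norm_sum_le _ _
    have h7 : ‖I‖ ^ 2 * (N : ℝ) ^ 2 = ‖(N : ℂ) * I‖ ^ 2 := by
      rw [norm_mul, Complex.norm_natCast]
      ring
    rw [h7]
    calc ‖(N : ℂ) * I‖ ^ 2 ≤ (∑ p ∈ P, l2 ν (A' p) ^ 2) * ∑ p ∈ P, l2 ν (Xz p.1 p.2) ^ 2 := h4
      _ ≤ (∑ p ∈ P, l2 ν (A' p) ^ 2) * C ^ 2 :=
          mul_le_mul_of_nonneg_left h5 (Finset.sum_nonneg fun p _ => sq_nonneg _)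
      _ = C ^ 2 * ∑ p ∈ P, l2 ν (A' p) ^ 2 := mul_comm _ _
      _ ≤ _ := mul_le_mul_of_nonneg_left h6 (sq_nonneg _)

end Pool.Agent.Lib.H82OT
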