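import Pool.Agent.Lib.H82OT.CI1
import Pool.Agent.Lib.H82OT.CI2
import Pool.Agent.Lib.H82OT.CI3
import Pool.Agent.Lib.H82OT.CI4
import Pool.Agent.Lib.H82OT.CI5
import Pool.Agent.Lib.H82OT.CI6
import Pool.Agent.Lib.H82T.NI

/-!
# Project H82OT, chunk CI7: the central inequality on a probability space
-/

open MeasureTheory Filter Topology Finset ProbabilityTheory
open scoped ENNReal ComplexConjugate Matrix

namespace Pool.Agent.Lib.H82OT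

open Pool.Agent.Lib.H22M Pool.Agent.Lib.H82T

/-- The central inequality. Proof. Assembly: `ν = avg σ S q` (`avg_prob`, `avg_inv`), `D` from CI1, `Dz` from
CI2 (for `S`), `Xz ζ` from CI3 for every `ζ` in `Z = Polynomial.nthRootsFinset q 1` (choose `0` for the
other `ζ`), orthogonality a.e. from CI4 (finitely many pairs), `sum_sq_le` (CI5) with `hσν` from
`integral_eq_avg` in `H82T/NI.lean`, then with `I = ∫ ∑_k H k E k dσ`: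
`I = ∫ ∑_k H k E k D dν = ∑_ζ ∫ ∑_k H k (E k Dz ζ) dν = ∑_ζ ∫ ∑_k H k Xz ζ k dν` and `transport` for
`Hn 0 = H`; `cs_final`. -/
theorem central_inequality {Ω κ : Type*} [Fintype κ] [DecidableEq κ] (𝒜 : MeasurableSpace Ω)
    [mΩ : MeasurableSpace Ω] (σ : Measure Ω) [IsProbabilityMeasure σ] (S : Ω ≃ᵐ Ω) (q : ℕ)
    (hq : 1 ≤ q) (hσ : MeasurePreserving ((⇑S)^[q]) σ σ) (hle : 𝒜 ≤ mΩ)
    (hinv : 𝒜.comap S = 𝒜) (hN : NoRoot 𝒜 (avg σ S q) S q)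
    (E : κ → Ω → ℂ) (hE : ∀ k, BM (E k)) (C : ℝ) (hC0 : 0 ≤ C)
    (hC : ∀ ω, ∑ k, ‖E k ω‖ ^ 2 ≤ C ^ 2)
    (W : Ω → κ → κ → ℂ) (hW : ∀ k l, Measurable[𝒜] fun ω => W ω k l)
    (hWb : ∃ C : ℝ, ∀ ω k l, ‖W ω k l‖ ≤ C)
    (hu : ∀ ω l l', ∑ k, W ω k l * conj (W ω k l') = if l = l' then 1 else 0)
    (hEW : ∀ᵐ ω ∂(avg σ S q), ∀ k, E k (S ω) = ∑ l, W ω k l * E l ω)
    (Hn : ℕ → κ → Ω → ℂ) (hH : ∀ n k, Measurable[𝒜] (Hn n k))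
    (hHb : ∀ n, ∃ C : ℝ, ∀ k ω, ‖Hn n k ω‖ ≤ C)
    (hstep : ∀ n ω l, Hn (n + 1) l ω = ∑ k, Hn n k (S ω) * W ω k l) :
    ∃ J : ℕ → ℕ → Ω → ℂ, (∀ n j, BM (J n j) ∧ (∀ ω, ‖J n j ω‖ ≤ Fintype.card κ) ∧
        ∀ᵐ ω ∂(avg σ S q), J n j (S ω) = J n j ω) ∧
      ∀ N : ℕ, 1 ≤ N → ‖∫ ω, ∑ k, Hn 0 k ω * E k ω ∂σ‖ ^ 2 * (N : ℝ) ^ 2 ≤
        C ^ 2 * ∑ n ∈ range N, ∑ j ∈ range N,
          ‖∫ ω, J n j ω * ∑ k, Hn n k ω * conj (Hn j k ω) ∂(avg σ S q)‖ := by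
  classical
  have hq0 : 0 < q := hq
  have hνp : IsProbabilityMeasure (avg σ S q) := avg_prob σ S S.measurable q hq
  have hS : MeasurePreserving S (avg σ S q) (avg σ S q) := avg_inv σ S S.measurable q hσ
  obtain ⟨D, hDm, hD1, hDinv, hD⟩ := Pool.Agent.Lib.H82OT.exists_density σ S q hq hσ
  obtain ⟨Dz, hDz, hDzS, hDsum⟩ :=
    exists_components (avg σ S q) S S.measurable q hq D hDm hD1 hDinv
  have key : ∀ ζ : ℂ, ∃ X : κ → Ω → ℂ, ζ ^ q = 1 →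
      ((∀ k, Measurable[𝒜] (X k)) ∧ (∃ C : ℝ, ∀ k ω, ‖X k ω‖ ≤ C) ∧
      (∀ᵐ ω ∂(avg σ S q), ∀ k, X k (S ω) = ζ * ∑ l, W ω k l * X l ω) ∧
      ∀ (k : κ) (H : Ω → ℂ), Measurable[𝒜] H → (∃ C : ℝ, ∀ ω, ‖H ω‖ ≤ C) →
        ∫ ω, H ω * (E k ω * Dz ζ ω) ∂(avg σ S q) = ∫ ω, H ω * X k ω ∂(avg σ S q)) := by
    intro ζ
    by_cases hζ : ζ ^ q = 1
    · obtain ⟨X, h1, h2, h3, h4⟩ := exists_coeff 𝒜 (avg σ S q) S hS hle hinv E hE W hW hWb hEW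
        (Dz ζ) (hDz ζ) ζ (hDzS ζ hζ)
      exact ⟨X, fun _ => ⟨h1, h2, h3, h4⟩⟩
    · exact ⟨fun _ _ => 0, fun h => absurd h hζ⟩
  choose Xz hXz using key
  have hmem : ∀ ζ ∈ Polynomial.nthRootsFinset q (1 : ℂ), ζ ^ q = 1 := fun ζ hζ =>
    (Polynomial.mem_nthRootsFinset hq0 (1 : ℂ)).1 hζ
  have hbm : ∀ ζ ∈ Polynomial.nthRootsFinset q (1 : ℂ), ∀ k, BM (Xz ζ k) := by
    intro ζ hζ k
    obtain ⟨h1, ⟨C', h2⟩, -, -⟩ := hXz ζ (hmem ζ hζ)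
    exact ⟨(h1 k).mono hle le_rfl, C', fun ω => h2 k ω⟩
  have hHbm : ∀ n k, BM (Hn n k) := by
    intro n k
    obtain ⟨C', h2⟩ := hHb n
    exact ⟨(hH n k).mono hle le_rfl, C', fun ω => h2 k ω⟩
  have horth : ∀ᵐ ω ∂(avg σ S q), ∀ ζ ∈ Polynomial.nthRootsFinset q (1 : ℂ),
      ∀ ξ ∈ Polynomial.nthRootsFinset q (1 : ℂ), ζ ≠ ξ →
        ∑ k, Xz ζ k ω * conj (Xz ξ k ω) = 0 := by
    refine (Finset.eventually_all _).2 fun ζ hζ => (Finset.eventually_all _).2 fun ξ hξ => ?_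
    by_cases hne : ζ = ξ
    · exact Eventually.of_forall fun ω h => absurd hne h
    · obtain ⟨a1, a2, a3, -⟩ := hXz ζ (hmem ζ hζ)
      obtain ⟨b1, b2, b3, -⟩ := hXz ξ (hmem ξ hξ)
      filter_upwards [coeff_orth 𝒜 (avg σ S q) S q hq hN W hu ζ ξ (hmem ζ hζ) (hmem ξ hξ) hne
        (Xz ζ) (Xz ξ) a1 a2 b1 b2 a3 b3] with ω hω _
      exact hω
  have hsq := sum_sq_le 𝒜 (avg σ S q) σ hle
    (fun F hF hb => integral_eq_avg 𝒜 σ S q hq hσ hle hinv hN F hF hb) D hD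
    (Polynomial.nthRootsFinset q (1 : ℂ)) Dz hDz hDsum E hE C hC0 hC Xz
    (fun ζ hζ => (hXz ζ (hmem ζ hζ)).1) (fun ζ hζ => (hXz ζ (hmem ζ hζ)).2.1)
    (fun ζ hζ => (hXz ζ (hmem ζ hζ)).2.2.2) horth
  refine cs_final (avg σ S q) S W hu (Polynomial.nthRootsFinset q (1 : ℂ)) ?_ C hC0 Xz hbm
    (fun ζ hζ => (hXz ζ (hmem ζ hζ)).2.2.1) horth hsq Hn hHbm _ ?_
  · intro ζ hζ
    exact Complex.norm_eq_one_of_pow_eq_one (hmem ζ hζ) hq0.ne'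
  · intro n
    have hF : BM (fun ω => ∑ k, Hn 0 k ω * E k ω) :=
      BM.sum _ fun k _ => (hHbm 0 k).mul (hE k)
    rw [hD _ hF]
    have h1 : ∀ ω, (∑ k, Hn 0 k ω * E k ω) * (D ω : ℂ) =
        ∑ ζ ∈ Polynomial.nthRootsFinset q (1 : ℂ), ∑ k, Hn 0 k ω * (E k ω * Dz ζ ω) := by
      intro ω
      rw [← hDsum ω, Finset.mul_sum]
      refine Finset.sum_congr rfl fun ζ _ => ?_
      rw [Finset.sum_mul]
      exact Finset.sum_congr rfl fun k _ => mul_assoc _ _ _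
    simp only [h1]
    rw [integral_finset_sum _ fun ζ _ => (BM.sum _ fun k _ =>
      (hHbm 0 k).mul ((hE k).mul (hDz ζ))).integrable]
    refine Finset.sum_congr rfl fun ζ hζ => ?_
    have h2 : ∫ ω, ∑ k, Hn 0 k ω * (E k ω * Dz ζ ω) ∂(avg σ S q) =
        ∫ ω, ∑ k, Hn 0 k ω * Xz ζ k ω ∂(avg σ S q) := by
      rw [integral_finset_sum _ fun k _ => ((hHbm 0 k).mul ((hE k).mul (hDz ζ))).integrable,
        integral_finset_sum _ fun k _ => ((hHbm 0 k).mul (hbm ζ hζ k)).integrable]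
      refine Finset.sum_congr rfl fun k _ => ?_
      obtain ⟨C', h3⟩ := hHb 0
      exact (hXz ζ (hmem ζ hζ)).2.2.2 k (Hn 0 k) (hH 0 k) ⟨C', fun ω => h3 k ω⟩
    rw [h2]
    exact transport (avg σ S q) S hS W ζ (Xz ζ) (hbm ζ hζ) (hXz ζ (hmem ζ hζ)).2.2.1 Hn hHbm
      hstep n

end Pool.Agent.Lib.H82OT
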