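import Pool.Agent.Lib.H82OT.KP3
import Pool.Agent.Lib.H82OT.KP2

/-!
# Project H82OT, chunk KP4: norms of Kop
-/

open MeasureTheory Filter Topology Finset ProbabilityTheory
open scoped ENNReal ComplexConjugate Matrix

namespace Pool.Agent.Lib.H82OT

open Pool.Agent.Lib.H22M Pool.Agent.Lib.H82T

variable {Y : Type*} {𝒵 : MeasurableSpace Y} [mY : MeasurableSpace Y] [StandardBorelSpace Y]

private theorem KP4_intg (m : Measure Y) [IsProbabilityMeasure m] (h𝒵 : 𝒵 ≤ mY) (K : Y × Y → ℂ)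
    (hK : BM K) : Integrable (fun z => ‖K z‖ ^ 2) (mh m h𝒵) := by
  obtain ⟨h1, C, hC⟩ := hK
  refine Integrable.of_bound (h1.norm.pow_const 2).aestronglyMeasurable (C ^ 2)
    (Eventually.of_forall fun z => ?_)
  rw [Real.norm_of_nonneg (by positivity)]
  exact pow_le_pow_left₀ (norm_nonneg _) (hC z) 2

private theorem KP4_sq (m : Measure Y) [IsProbabilityMeasure m] (h𝒵 : 𝒵 ≤ mY) (K : Y × Y → ℂ)
    (hK : BM K) : ∫ z, ‖K z‖ ^ 2 ∂(mh m h𝒵) =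
      ∫ y, (∫ x, ‖K (y, x)‖ ^ 2 ∂(kap m h𝒵 y)) ∂m :=
  Measure.integral_compProd (KP4_intg m h𝒵 K hK)

private theorem KP4_int2 (m : Measure Y) [IsProbabilityMeasure m] (h𝒵 : 𝒵 ≤ mY) (K : Y × Y → ℂ)
    (hK : BM K) : Integrable (fun y => ∫ x, ‖K (y, x)‖ ^ 2 ∂(kap m h𝒵 y)) m :=
  (KP4_intg m h𝒵 K hK).integral_compProd

private theorem KP4_fin (m : Measure Y) [IsProbabilityMeasure m] (h𝒵 : 𝒵 ≤ mY) (K L : Y × Y → ℂ)
    (g : Y → ℂ) (hL : BM L) (S : ℝ) (hS : 0 ≤ S)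
    (h : ∀ᵐ y ∂m, ‖Kop m h𝒵 K g y‖ ^ 2 ≤ S ^ 2 * ∫ x, ‖L (y, x)‖ ^ 2 ∂(kap m h𝒵 y)) :
    l2 m (Kop m h𝒵 K g) ≤ S * l2 (mh m h𝒵) L := by
  unfold l2
  rw [KP4_sq m h𝒵 L hL]
  have h1 : ∫ y, ‖Kop m h𝒵 K g y‖ ^ 2 ∂m ≤
      S ^ 2 * ∫ y, (∫ x, ‖L (y, x)‖ ^ 2 ∂(kap m h𝒵 y)) ∂m := by
    rw [← integral_const_mul]
    exact integral_mono_of_nonneg (Eventually.of_forall fun y => by positivity)
      ((KP4_int2 m h𝒵 L hL).const_mul _) h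
  refine (Real.sqrt_le_sqrt h1).trans (le_of_eq ?_)
  rw [Real.sqrt_mul (by positivity), Real.sqrt_sq hS]

/-- Cauchy-Schwarz in the fibre, squared and integrated. Let `S ≥ 0` with
`∫ |g|² dκ_y ≤ S²` for almost every `y`. Then `‖K g‖_2 ≤ S ‖K‖_{L²(mh)}`.
Proof. `|Kop K g (y)|² ≤ (∫ |K(y,x)|² κ_y(dx)) (∫ |g|² dκ_y) ≤ S² ∫ |K(y,x)|² κ_y(dx)` (Cauchy-Schwarz:
e.g. `integral_mul_norm_le_Lp_mul_Lq` or expand `0 ≤ ∫ |a K - b conj g|²`, see `IsSelf.norm_le` in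
`H82T/S1.lean` for a way to do it); integrate over `m` and use `integral_mh` for
`F z = ((‖K z‖ ^ 2 : ℝ) : ℂ)` (or `Measure.integral_compProd` directly for the real function), then take
square roots. -/
theorem l2_Kop_fibre (m : Measure Y) [IsProbabilityMeasure m] (h𝒵 : 𝒵 ≤ mY) (K : Y × Y → ℂ)
    (g : Y → ℂ) (hK : BM K) (hg : BM g) (S : ℝ) (hS : 0 ≤ S)
    (h : ∀ᵐ y ∂m, ∫ x, ‖g x‖ ^ 2 ∂(kap m h𝒵 y) ≤ S ^ 2) :
    l2 m (Kop m h𝒵 K g) ≤ S * l2 (mh m h𝒵) K := by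
  refine KP4_fin m h𝒵 K K g hK S hS ?_
  filter_upwards [h] with y hy
  have hKy : BM fun x => K (y, x) := hK.comp (by fun_prop)
  have h1 := norm_integral_mul_conj_le (m := kap m h𝒵 y) hKy hg.conj
  have e1 : (∫ x, K (y, x) * conj (conj (g x)) ∂(kap m h𝒵 y)) = Kop m h𝒵 K g y := by
    unfold Kop
    simp only [Complex.conj_conj]
  rw [e1] at h1
  have h2 : l2 (kap m h𝒵 y) (fun x => conj (g x)) ≤ S := by
    unfold l2
    rw [Real.sqrt_le_left hS]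
    simpa only [RCLike.norm_conj] using hy
  have h3 := h1.trans (mul_le_mul_of_nonneg_left h2 (l2_nonneg _ _))
  calc ‖Kop m h𝒵 K g y‖ ^ 2 ≤ (l2 (kap m h𝒵 y) (fun x => K (y, x)) * S) ^ 2 :=
        pow_le_pow_left₀ (norm_nonneg _) h3 2
    _ = S ^ 2 * ∫ x, ‖K (y, x)‖ ^ 2 ∂(kap m h𝒵 y) := by
        rw [mul_pow, l2_sq, mul_comm]

/-- Proof. `l2_Kop_fibre` with `S = C` (the integral of a function bounded by `C²` with respect to a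
probability measure is at most `C²`). -/
theorem l2_Kop_le_left (m : Measure Y) [IsProbabilityMeasure m] (h𝒵 : 𝒵 ≤ mY) (K : Y × Y → ℂ)
    (g : Y → ℂ) (hK : BM K) (hg : BM g) (C : ℝ) (hC0 : 0 ≤ C) (hC : ∀ y, ‖g y‖ ≤ C) :
    l2 m (Kop m h𝒵 K g) ≤ C * l2 (mh m h𝒵) K := by
  refine l2_Kop_fibre m h𝒵 K g hK hg C hC0 (Eventually.of_forall fun y => ?_)
  have h1 := l2_le_of_bound (m := kap m h𝒵 y) C hC0 (Eventually.of_forall hC)
  rw [← l2_sq]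
  exact pow_le_pow_left₀ (l2_nonneg _ _) h1 2

/-- Proof. `|Kop K g (y)|² ≤ ∫ |K(y,x) g(x)|² κ_y(dx) ≤ C² ∫ |g|² dκ_y` (Jensen or Cauchy-Schwarz), and
`∫∫ |g|² dκ_y dm = ∫ |g(z.2)|² dmh = ∫ |g|² dm` by `mh_snd`. -/
theorem l2_Kop_le_right (m : Measure Y) [IsProbabilityMeasure m] (h𝒵 : 𝒵 ≤ mY) (K : Y × Y → ℂ)
    (g : Y → ℂ) (hK : BM K) (hg : BM g) (C : ℝ) (hC0 : 0 ≤ C) (hC : ∀ z, ‖K z‖ ≤ C) :
    l2 m (Kop m h𝒵 K g) ≤ C * l2 m g := by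
  have hL : BM fun z : Y × Y => g z.2 := hg.comp measurable_snd
  have e : l2 m g = l2 (mh m h𝒵) (fun z : Y × Y => g z.2) := by
    conv_lhs => rw [← mh_snd m h𝒵]
    exact l2_map measurable_snd hg.1
  rw [e]
  refine KP4_fin m h𝒵 K _ g hL C hC0 (Eventually.of_forall fun y => ?_)
  have hKy : BM fun x => K (y, x) := hK.comp (by fun_prop)
  have h1 := norm_integral_le_l2 (m := kap m h𝒵 y) (hKy.mul hg)
  have h2 : ‖Kop m h𝒵 K g y‖ ^ 2 ≤ ∫ x, ‖K (y, x) * g x‖ ^ 2 ∂(kap m h𝒵 y) := by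
    rw [← l2_sq]
    exact pow_le_pow_left₀ (norm_nonneg _) h1 2
  refine h2.trans ?_
  rw [← integral_const_mul]
  have hgi : Integrable (fun x => C ^ 2 * ‖g x‖ ^ 2) (kap m h𝒵 y) := by
    refine Integrable.const_mul ?_ _
    obtain ⟨h3, D, hD⟩ := hg
    refine Integrable.of_bound (h3.norm.pow_const 2).aestronglyMeasurable (D ^ 2)
      (Eventually.of_forall fun z => ?_)
    rw [Real.norm_of_nonneg (by positivity)]
    exact pow_le_pow_left₀ (norm_nonneg _) (hD z) 2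
  refine integral_mono_of_nonneg (Eventually.of_forall fun x => by positivity) hgi
    (Eventually.of_forall fun x => ?_)
  dsimp only
  rw [norm_mul, mul_pow]
  exact mul_le_mul_of_nonneg_right (pow_le_pow_left₀ (norm_nonneg _) (hC _) 2) (by positivity)

end Pool.Agent.Lib.H82OT
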