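import Pool.Agent.Lib.H82OT.ME1
import Pool.Agent.Lib.H82OT.KP4
import Pool.Agent.Lib.H82OT.KP5
import Pool.Agent.Lib.H82OT.LT1

/-!
# Project H82OT, chunk DC1: limit kernels
-/

open MeasureTheory Filter Topology Finset ProbabilityTheory
open scoped ENNReal ComplexConjugate Matrix

namespace Pool.Agent.Lib.H82OT

open Pool.Agent.Lib.H22M Pool.Agent.Lib.H82T

variable {Y : Type*} {𝒵 : MeasurableSpace Y} [mY : MeasurableSpace Y] [StandardBorelSpace Y]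

private theorem dc1_l2_sub_comm {Ω : Type*} [MeasurableSpace Ω] (ν : Measure Ω) (a b : Ω → ℂ) :
    l2 ν (fun y => a y - b y) = l2 ν (fun y => b y - a y) := by
  unfold l2
  simp only [norm_sub_rev]

omit [StandardBorelSpace Y] in
private theorem dc1_iter (m : Measure Y) {R : Y → Y}
    {V : (Y → ℂ) → Prop} (hV : VClass 𝒵 m R V) (f : Y → ℂ) (hf : V f) :
    ∀ n : ℕ, V (fun y => f (R^[n] y)) := by
  intro n
  induction n with
  | zero => exact hf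
  | succ n ih => exact hV.comp _ ih

omit [StandardBorelSpace Y] in
private theorem dc1_iter_meas (R : Y ≃ᵐ Y) : ∀ n : ℕ, Measurable (R^[n]) := by
  intro n
  exact R.measurable.iterate n

private theorem dc1_iter1 {Ω : Type*} (R : Ω → Ω) (n : ℕ) (z : Ω × Ω) :
    ((Prod.map R R)^[n] z) = (R^[n] z.1, R^[n] z.2) := by
  rw [Prod.map_iterate]
  rfl

private theorem dc1_int (m : Measure Y) [IsProbabilityMeasure m] (h𝒵 : 𝒵 ≤ mY) (R : Y ≃ᵐ Y)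
    (g : Y → ℂ) (hg : BM g) (h : Y → ℂ) (hh : BM h) (N : ℕ) (y : Y) :
    Kop m h𝒵 (fun z => (N : ℂ)⁻¹ *
      ∑ n ∈ range N, (g (R^[n] z.1) * conj (g (R^[n] z.2)))) h y =
      (N : ℂ)⁻¹ * ∑ n ∈ range N, g (R^[n] y) *
        ∫ x, conj (g (R^[n] x)) * h x ∂(kap m h𝒵 y) := by
  unfold Kop
  have h1 : ∀ x : Y, ((N : ℂ)⁻¹ * ∑ n ∈ range N, (g (R^[n] (y, x).1) *
      conj (g (R^[n] (y, x).2)))) * h x = (N : ℂ)⁻¹ * ∑ n ∈ range N, g (R^[n] y) *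
        (conj (g (R^[n] x)) * h x) := by
    intro x
    rw [mul_assoc, Finset.sum_mul]
    congr 1
    refine Finset.sum_congr rfl fun n _ => ?_
    exact mul_assoc _ _ _
  simp only [h1]
  rw [integral_const_mul, integral_finsetSum]
  · congr 1
    refine Finset.sum_congr rfl fun n _ => ?_
    rw [integral_const_mul]
  · intro n _
    exact ((BM.const (g (R^[n] y))).mul
      ((hg.comp (dc1_iter_meas R n)).conj.mul hh)).integrable

/-- Proof. `lim` with the constant sequence `f`: `l2 m (f' - f) = 0`. -/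
theorem VClass.congr (m : Measure Y) {R : Y → Y}
    {V : (Y → ℂ) → Prop} (hV : VClass 𝒵 m R V) (f f' : Y → ℂ) (hf : V f) (hf' : BM f')
    (h : ∀ᵐ y ∂m, f' y = f y) : V f' := by
  refine hV.lim f' hf' fun δ hδ => ⟨f, hf, ?_⟩
  have h1 : l2 m (fun y => f' y - f y) = l2 m (fun _ => (0 : ℂ)) := by
    refine l2_congr m _ _ ?_
    filter_upwards [h] with y hy
    rw [hy, sub_self]
  have h2 : l2 m (fun _ => (0 : ℂ)) = 0 := by
    unfold l2
    simp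
  rw [h1, h2]
  exact hδ.le

/-- Proof. Induction on `N` for the sum (`comp` iterated for `f ∘ R^n`, `mul`, `add`; the empty sum is
`0 * f` up to equality of functions, use `smul 0 f`), then `smul`. -/
theorem VClass.avg (m : Measure Y) {R : Y → Y}
    {V : (Y → ℂ) → Prop} (hV : VClass 𝒵 m R V) (f : Y → ℂ) (hf : V f) (χ : ℕ → Y → ℂ)
    (hχ : ∀ n, Measurable[𝒵] (χ n)) (hb : ∀ n, ∃ C : ℝ, ∀ y, ‖χ n y‖ ≤ C) (N : ℕ) :
    V (fun y => (N : ℂ)⁻¹ * ∑ n ∈ range N, χ n y * f (R^[n] y)) := by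
  refine hV.smul _ _ ?_
  induction N with
  | zero =>
    have h0 := hV.smul 0 f hf
    have h1 : (fun y : Y => ∑ n ∈ range 0, χ n y * f (R^[n] y)) = fun y => 0 * f y := by
      funext y
      rw [Finset.sum_range_zero, zero_mul]
    rw [h1]
    exact h0
  | succ N ih =>
    have h1 : (fun y : Y => ∑ n ∈ range (N + 1), χ n y * f (R^[n] y)) =
        fun y => (∑ n ∈ range N, χ n y * f (R^[n] y)) + χ N y * f (R^[N] y) := by
      funext y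
      rw [Finset.sum_range_succ]
    rw [h1]
    exact hV.add _ _ ih (hV.mul (χ N) _ (hχ N) (hb N) (dc1_iter m hV f hf N))

/-- The limit kernel of `g`. Proof. `exists_limit` (ME1) for `Ω = Y × Y`, `ν = mh m h𝒵`,
`S = Prod.map R R` (`mh_inv`; `(Prod.map R R)^[n] z = (R^[n] z.1, R^[n] z.2)`, `sc_iter1` in
`H82T/SC.lean` or `Prod.map_iterate`), `G z = g z.1 * conj (g z.2)`. It remains to show
`V (Kop K h)` for bounded `h` (bounded by `c ≥ 0`): use `hV.lim`. Given `δ`, take `N` with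
`l2 mh (K_N - K) ≤ δ / (c + 1)`, `K_N z = N⁻¹ ∑ G ((R × R)^n z)`. Let `χ n` be a bounded
`𝒵`-measurable version of `m[conj (g ∘ R^n) * h|𝒵]` (`exists_version` in `H82T/CV.lean`). For almost
every `y`: `Kop K_N h y = N⁻¹ ∑ g(R^n y) ∫ conj (g (R^n x)) h x κ_y(dx) = N⁻¹ ∑ χ n y * g (R^n y)`
(`kap_condExp`, linearity of the integral), which is in `V` by `VClass.avg`; and
`l2 m (Kop K h - Kop K_N h) = l2 m (Kop (K - K_N) h) ≤ c * l2 mh (K - K_N) ≤ δ`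
(`Kop_add_smul_left`, `l2_Kop_le_left`). -/
theorem exists_limit_kernel (m : Measure Y) [IsProbabilityMeasure m] (h𝒵 : 𝒵 ≤ mY) (R : Y ≃ᵐ Y)
    (hR : MeasurePreserving R m m) (hinv : 𝒵.comap R = 𝒵) {V : (Y → ℂ) → Prop}
    (hV : VClass 𝒵 m R V) (g : Y → ℂ) (hg : V g) :
    ∃ K : Y × Y → ℂ, IsKer m h𝒵 R K ∧ (∀ h : Y → ℂ, BM h → V (Kop m h𝒵 K h)) ∧
      ∫ z, K z * conj (g z.1 * conj (g z.2)) ∂(mh m h𝒵) = ((l2 (mh m h𝒵) K ^ 2 : ℝ) : ℂ) ∧
      ∀ δ : ℝ, 0 < δ → ∃ N₀ : ℕ, ∀ N : ℕ, N₀ ≤ N →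
        l2 (mh m h𝒵) (fun z => (N : ℂ)⁻¹ *
          ∑ n ∈ range N, (g (R^[n] z.1) * conj (g (R^[n] z.2))) - K z) ≤ δ := by
  have hgB : BM g := hV.bm g hg
  have hGB : BM (fun z : Y × Y => g z.1 * conj (g z.2)) :=
    (hgB.comp measurable_fst).mul (hgB.comp measurable_snd).conj
  obtain ⟨hGm, C, hC⟩ := hGB
  obtain ⟨K, hKm, hKb, hKi, hKl, hKn⟩ := exists_limit (mh m h𝒵) (Prod.map R R)
    (mh_inv m h𝒵 R hR hinv) (fun z : Y × Y => g z.1 * conj (g z.2)) hGm (max C 0)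
    (le_max_right _ _) (fun z => (hC z).trans (le_max_left _ _))
  have hKB : BM K := ⟨hKm, max C 0, hKb⟩
  have hlim : ∀ δ : ℝ, 0 < δ → ∃ N₀ : ℕ, ∀ N : ℕ, N₀ ≤ N →
        l2 (mh m h𝒵) (fun z => (N : ℂ)⁻¹ *
          ∑ n ∈ range N, (g (R^[n] z.1) * conj (g (R^[n] z.2))) - K z) ≤ δ := by
    intro δ hδ
    obtain ⟨N₀, hN₀⟩ := hKl δ hδ
    refine ⟨N₀, fun N hN => ?_⟩
    have h1 := hN₀ N hN
    simp only [dc1_iter1] at h1
    exact h1
  refine ⟨K, ⟨hKB, hKi⟩, ?_, hKn, hlim⟩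
  intro h hh
  obtain ⟨c, hc⟩ := hh.2
  have hc0 : (0 : ℝ) ≤ max c 0 := le_max_right _ _
  refine hV.lim _ (Kop_BM m h𝒵 K h hKB hh) fun δ hδ => ?_
  obtain ⟨N, hN⟩ := hlim (δ / (max c 0 + 1)) (by positivity)
  have hN' := hN N le_rfl
  have hHB : ∀ n : ℕ, BM (fun x => conj (g (R^[n] x)) * h x) := fun n =>
    (hgB.comp (dc1_iter_meas R n)).conj.mul hh
  have hver : ∀ n : ℕ, ∃ χ : Y → ℂ, Measurable[𝒵] χ ∧ (∃ C : ℝ, ∀ y, ‖χ y‖ ≤ C) ∧
      χ =ᵐ[m] m[fun x => conj (g (R^[n] x)) * h x|𝒵] := by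
    intro n
    obtain ⟨h1, C', hC'⟩ := hHB n
    obtain ⟨χ, c1, c2, c3, -⟩ := exists_version 𝒵 m h𝒵 (fun x => conj (g (R^[n] x)) * h x) h1
      (max C' 0) (le_max_right _ _)
      (Eventually.of_forall fun y => (hC' y).trans (le_max_left _ _))
    exact ⟨χ, c1, ⟨_, c2⟩, c3⟩
  choose χ hχ1 hχ2 hχ3 using hver
  refine ⟨_, hV.avg m g hg χ hχ1 hχ2 N, ?_⟩
  have hKNB : BM (fun z : Y × Y => (N : ℂ)⁻¹ *
      ∑ n ∈ range N, (g (R^[n] z.1) * conj (g (R^[n] z.2)))) :=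
    (BM.const _).mul (BM.sum _ fun n _ =>
      (hgB.comp ((dc1_iter_meas R n).comp measurable_fst)).mul
        (hgB.comp ((dc1_iter_meas R n).comp measurable_snd)).conj)
  have hae : ∀ᵐ y ∂m, Kop m h𝒵 (fun z => (N : ℂ)⁻¹ *
      ∑ n ∈ range N, (g (R^[n] z.1) * conj (g (R^[n] z.2)))) h y =
      (N : ℂ)⁻¹ * ∑ n ∈ range N, χ n y * g (R^[n] y) := by
    have e1 : ∀ᵐ y ∂m, ∀ n : ℕ, ∫ x, conj (g (R^[n] x)) * h x ∂(kap m h𝒵 y) =
        (m[fun x => conj (g (R^[n] x)) * h x|𝒵]) y :=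
      ae_all_iff.2 fun n => kap_condExp m h𝒵 _ (hHB n)
    have e2 : ∀ᵐ y ∂m, ∀ n : ℕ, χ n y = (m[fun x => conj (g (R^[n] x)) * h x|𝒵]) y :=
      ae_all_iff.2 fun n => hχ3 n
    filter_upwards [e1, e2] with y h1 h2
    rw [dc1_int m h𝒵 R g hgB h hh N y]
    congr 1
    refine Finset.sum_congr rfl fun n _ => ?_
    rw [h1 n, h2 n, mul_comm]
  have s1 : l2 m (fun y => Kop m h𝒵 K h y - (N : ℂ)⁻¹ * ∑ n ∈ range N, χ n y * g (R^[n] y)) =
      l2 m (Kop m h𝒵 (fun z => 1 * ((N : ℂ)⁻¹ *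
        ∑ n ∈ range N, (g (R^[n] z.1) * conj (g (R^[n] z.2)))) + (-1) * K z) h) := by
    rw [dc1_l2_sub_comm]
    refine l2_congr m _ _ ?_
    filter_upwards [hae] with y hy
    rw [Kop_add_smul_left m h𝒵 _ K h 1 (-1) hKNB hKB hh y, hy]
    ring
  have s2 := l2_Kop_le_left m h𝒵 (fun z => 1 * ((N : ℂ)⁻¹ *
        ∑ n ∈ range N, (g (R^[n] z.1) * conj (g (R^[n] z.2)))) + (-1) * K z) h
    (((BM.const 1).mul hKNB).add ((BM.const (-1)).mul hKB)) hh (max c 0) hc0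
    (fun y => (hc y).trans (le_max_left _ _))
  have s3 : l2 (mh m h𝒵) (fun z => 1 * ((N : ℂ)⁻¹ *
        ∑ n ∈ range N, (g (R^[n] z.1) * conj (g (R^[n] z.2)))) + (-1) * K z) =
      l2 (mh m h𝒵) (fun z => (N : ℂ)⁻¹ *
        ∑ n ∈ range N, (g (R^[n] z.1) * conj (g (R^[n] z.2))) - K z) := by
    congr 1
    funext z
    ring
  rw [s1]
  refine s2.trans ?_
  rw [s3]
  calc max c 0 * l2 (mh m h𝒵) (fun z => (N : ℂ)⁻¹ *
        ∑ n ∈ range N, (g (R^[n] z.1) * conj (g (R^[n] z.2))) - K z)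
      ≤ max c 0 * (δ / (max c 0 + 1)) := mul_le_mul_of_nonneg_left hN' hc0
    _ ≤ δ := by
      rw [← mul_div_assoc, div_le_iff₀ (by positivity)]
      nlinarith

end Pool.Agent.Lib.H82OT
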