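import Pool.Agent.Lib.H82OT.DC2

/-!
# Project H82OT, chunk DC3: near minimizers
-/

open MeasureTheory Filter Topology Finset ProbabilityTheory
open scoped ENNReal ComplexConjugate Matrix

namespace Pool.Agent.Lib.H82OT

open Pool.Agent.Lib.H22M Pool.Agent.Lib.H82T

variable {Y : Type*} {𝒵 : MeasurableSpace Y} [mY : MeasurableSpace Y] [StandardBorelSpace Y]

private theorem DC3_bm {f : Y → ℂ} (hf : BM f) : BM (fun y => ((‖f y‖ ^ 2 : ℝ) : ℂ)) := by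
  obtain ⟨h1, C, hC⟩ := hf
  refine ⟨Complex.measurable_ofReal.comp (h1.norm.pow_const 2), C ^ 2, fun y => ?_⟩
  rw [Complex.norm_real, Real.norm_of_nonneg (by positivity)]
  exact pow_le_pow_left₀ (norm_nonneg _) (hC y) 2

private theorem DC3_int {m : Measure Y} [IsFiniteMeasure m] {f : Y → ℂ} (hf : BM f) :
    Integrable (fun y => ‖f y‖ ^ 2) m := by
  have h := (DC3_bm hf).integrable (m := m)
  have h1 := h.re
  refine h1.congr (Eventually.of_forall fun y => ?_)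
  simp only [RCLike.re_to_complex, Complex.ofReal_re]

private theorem DC3_fibre (m : Measure Y) [IsProbabilityMeasure m] (h𝒵 : 𝒵 ≤ mY) (f : Y → ℂ)
    (hf : BM f) : ∀ᵐ y ∂m, ((∫ x, ‖f x‖ ^ 2 ∂(kap m h𝒵 y) : ℝ) : ℂ) =
      (m[fun x => ((‖f x‖ ^ 2 : ℝ) : ℂ)|𝒵]) y := by
  filter_upwards [kap_condExp m h𝒵 _ (DC3_bm hf)] with y hy
  rw [← hy]
  exact integral_ofReal.symm

private theorem DC3_re (m : Measure Y) [IsProbabilityMeasure m] (h𝒵 : 𝒵 ≤ mY) (f : Y → ℂ)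
    (hf : BM f) : ∀ᵐ y ∂m, ∫ x, ‖f x‖ ^ 2 ∂(kap m h𝒵 y) =
      ((m[fun x => ((‖f x‖ ^ 2 : ℝ) : ℂ)|𝒵]) y).re := by
  filter_upwards [DC3_fibre m h𝒵 f hf] with y hy
  rw [← hy, Complex.ofReal_re]

private theorem DC3_fint (m : Measure Y) [IsProbabilityMeasure m] (h𝒵 : 𝒵 ≤ mY) (f : Y → ℂ)
    (hf : BM f) : Integrable (fun y => ∫ x, ‖f x‖ ^ 2 ∂(kap m h𝒵 y)) m := by
  have h1 : Integrable (m[fun x => ((‖f x‖ ^ 2 : ℝ) : ℂ)|𝒵]) m := integrable_condExp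
  refine h1.re.congr ?_
  filter_upwards [DC3_re m h𝒵 f hf] with y hy
  rw [hy]
  rfl

private theorem DC3_l2 (m : Measure Y) [IsProbabilityMeasure m] (h𝒵 : 𝒵 ≤ mY) (f : Y → ℂ)
    (hf : BM f) : ∫ y, (∫ x, ‖f x‖ ^ 2 ∂(kap m h𝒵 y)) ∂m = l2 m f ^ 2 := by
  have h1 : ∫ y, ((∫ x, ‖f x‖ ^ 2 ∂(kap m h𝒵 y) : ℝ) : ℂ) ∂m =
      ∫ y, ((‖f y‖ ^ 2 : ℝ) : ℂ) ∂m := by
    rw [integral_congr_ae (DC3_fibre m h𝒵 f hf)]
    exact integral_condExp h𝒵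
  rw [l2_sq]
  have h2 : ((∫ y, (∫ x, ‖f x‖ ^ 2 ∂(kap m h𝒵 y)) ∂m : ℝ) : ℂ) = ((∫ y, ‖f y‖ ^ 2 ∂m : ℝ) : ℂ) := by
    calc ((∫ y, (∫ x, ‖f x‖ ^ 2 ∂(kap m h𝒵 y)) ∂m : ℝ) : ℂ)
        = ∫ y, ((∫ x, ‖f x‖ ^ 2 ∂(kap m h𝒵 y) : ℝ) : ℂ) ∂m := integral_ofReal.symm
      _ = ∫ y, ((‖f y‖ ^ 2 : ℝ) : ℂ) ∂m := h1
      _ = ((∫ y, ‖f y‖ ^ 2 ∂m : ℝ) : ℂ) := integral_ofReal
  exact_mod_cast h2

/-- The cut-off. Proof. Let `Ψ y = ∫ |f - w|² dκ_y`; it is `𝒵`-measurable up to a null set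
(`(kap m h𝒵) = condExpKernel m 𝒵`, whose integrals are `𝒵`-measurable; or take a `𝒵`-measurable version
of `m[|f - w|²|𝒵]`, `kap_condExp`), let `A = {Ψ > C²}` (in `𝒵`) and `χ = 1 - 1_A`, `w' = χ w` (`AP.mul`).
By `mh_diag` for `1_A`, for almost every `y`: `1_A(x) = 1_A(y)` for `κ_y`-almost every `x` (`ae` for
`m ⊗ₘ κ`: `Measure.ae_compProd_iff` or `ae_ae_of_ae_compProd`), so
`∫ |f - w'|² dκ_y = ∫ |f|² dκ_y ≤ C²` for `y ∈ A` and `= Ψ y ≤ C²` for `y ∉ A`. Hence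
`∫ |f - w'|² dκ_y ≤ Ψ y` for almost every `y`, and integrating over `y` (`integral_mh` and `mh_snd`:
`∫ ∫ F(x) κ_y(dx) dm(y) = ∫ F dm`) `l2 m (f - w') ≤ l2 m (f - w)`. -/
theorem exists_cut (m : Measure Y) [IsProbabilityMeasure m] (h𝒵 : 𝒵 ≤ mY) {R : Y → Y}
    {V : (Y → ℂ) → Prop} (hV : VClass 𝒵 m R V) (f : Y → ℂ) (hf : V f) (C : ℝ) (hC0 : 0 ≤ C)
    (hC : ∀ y, ‖f y‖ ≤ C) (w : Y → ℂ) (hw : AP m h𝒵 R V w) :
    ∃ w' : Y → ℂ, AP m h𝒵 R V w' ∧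
      (∀ᵐ y ∂m, ∫ x, ‖f x - w' x‖ ^ 2 ∂(kap m h𝒵 y) ≤ C ^ 2) ∧
      l2 m (fun y => f y - w' y) ≤ l2 m (fun y => f y - w y) := by
  classical
  have hfB : BM f := hV.bm f hf
  have hwB : BM w := hw.1
  have hb : BM (fun x => f x - w x) := hfB.sub hwB
  obtain ⟨Ψ, hΨm, hΨ⟩ : ∃ Ψ : Y → ℝ, Measurable[𝒵] Ψ ∧
      ∀ᵐ y ∂m, ∫ x, ‖f x - w x‖ ^ 2 ∂(kap m h𝒵 y) = Ψ y := by
    refine ⟨fun y => ((m[fun x => ((‖f x - w x‖ ^ 2 : ℝ) : ℂ)|𝒵]) y).re, ?_, DC3_re m h𝒵 _ hb⟩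
    exact Complex.measurable_re.comp stronglyMeasurable_condExp.measurable
  obtain ⟨χ, hχm, hχ0, hχ1⟩ : ∃ χ : Y → ℂ, Measurable[𝒵] χ ∧
      (∀ y, C ^ 2 < Ψ y → χ y = 0) ∧ ∀ y, ¬ C ^ 2 < Ψ y → χ y = 1 := by
    refine ⟨fun y => if C ^ 2 < Ψ y then 0 else 1, ?_, fun y hy => if_pos hy, fun y hy => if_neg hy⟩
    exact Measurable.ite (hΨm measurableSet_Ioi) measurable_const measurable_const
  have hχb : ∃ D : ℝ, ∀ y, ‖χ y‖ ≤ D := by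
    refine ⟨1, fun y => ?_⟩
    by_cases hy : C ^ 2 < Ψ y
    · rw [hχ0 y hy, norm_zero]
      exact zero_le_one
    · rw [hχ1 y hy, norm_one]
  have hAP : AP m h𝒵 R V (fun y => χ y * w y) := AP.mul m h𝒵 hV w χ hw hχm hχb
  have hb' : BM (fun x => f x - χ x * w x) := hfB.sub hAP.1
  have hdiag : ∀ᵐ y ∂m, ∀ᵐ x ∂(kap m h𝒵 y), χ y = χ x := by
    have h1 := mh_diag m h𝒵 χ hχm hχb
    unfold mh at h1
    exact Measure.ae_ae_of_ae_compProd h1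
  -- the fibre integrals
  have hfib : ∀ᵐ y ∂m, (∫ x, ‖f x - χ x * w x‖ ^ 2 ∂(kap m h𝒵 y) ≤ C ^ 2) ∧
      ∫ x, ‖f x - χ x * w x‖ ^ 2 ∂(kap m h𝒵 y) ≤ ∫ x, ‖f x - w x‖ ^ 2 ∂(kap m h𝒵 y) := by
    filter_upwards [hdiag, hΨ] with y hy1 hy2
    by_cases hy : C ^ 2 < Ψ y
    · have h1 : ∫ x, ‖f x - χ x * w x‖ ^ 2 ∂(kap m h𝒵 y) = ∫ x, ‖f x‖ ^ 2 ∂(kap m h𝒵 y) := by
        refine integral_congr_ae ?_
        filter_upwards [hy1] with x hx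
        rw [← hx, hχ0 y hy, zero_mul, sub_zero]
      have h2 : ∫ x, ‖f x‖ ^ 2 ∂(kap m h𝒵 y) ≤ C ^ 2 := by
        have h3 : ∫ x, ‖f x‖ ^ 2 ∂(kap m h𝒵 y) ≤ ∫ _x, C ^ 2 ∂(kap m h𝒵 y) :=
          integral_mono_of_nonneg (Eventually.of_forall fun _ => by positivity)
            (integrable_const _)
            (Eventually.of_forall fun x => pow_le_pow_left₀ (norm_nonneg _) (hC x) 2)
        rw [integral_const, probReal_univ, one_smul] at h3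
        exact h3
      rw [h1, hy2]
      exact ⟨h2, h2.trans hy.le⟩
    · have h1 : ∫ x, ‖f x - χ x * w x‖ ^ 2 ∂(kap m h𝒵 y) =
          ∫ x, ‖f x - w x‖ ^ 2 ∂(kap m h𝒵 y) := by
        refine integral_congr_ae ?_
        filter_upwards [hy1] with x hx
        rw [← hx, hχ1 y hy, one_mul]
      rw [h1, hy2]
      exact ⟨not_lt.1 hy, le_rfl⟩
  refine ⟨fun y => χ y * w y, hAP, ?_, ?_⟩
  · filter_upwards [hfib] with y hy
    exact hy.1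
  · have h1 : l2 m (fun y => f y - χ y * w y) ^ 2 ≤ l2 m (fun y => f y - w y) ^ 2 := by
      rw [← DC3_l2 m h𝒵 _ hb', ← DC3_l2 m h𝒵 _ hb]
      refine integral_mono_ae (DC3_fint m h𝒵 _ hb') (DC3_fint m h𝒵 _ hb) ?_
      filter_upwards [hfib] with y hy
      exact hy.2
    exact (pow_le_pow_iff_left₀ (l2_nonneg _ _) (l2_nonneg _ _) two_ne_zero).1 h1

/-- Proof. Let `I` be the infimum of `l2 m (f - w) ^ 2` over `w` in `AP` (nonempty: `AP.zero`, bounded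
below by `0`). Choose `w₀` in `AP` with `l2 m (f - w₀) ^ 2 ≤ I + δ` (`exists_lt_of_csInf_lt` /
`Real.sInf`-lemmas) and apply `exists_cut`. For `u` in `AP`, `w + u` is in `AP` (`AP.add_smul`), so
`I ≤ l2 m (f - w - u) ^ 2`. -/
theorem exists_near_min (m : Measure Y) [IsProbabilityMeasure m] (h𝒵 : 𝒵 ≤ mY) {R : Y → Y}
    {V : (Y → ℂ) → Prop} (hV : VClass 𝒵 m R V) (f : Y → ℂ) (hf : V f) (C : ℝ) (hC0 : 0 ≤ C)
    (hC : ∀ y, ‖f y‖ ≤ C) (δ : ℝ) (hδ : 0 < δ) :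
    ∃ w : Y → ℂ, AP m h𝒵 R V w ∧
      (∀ᵐ y ∂m, ∫ x, ‖f x - w x‖ ^ 2 ∂(kap m h𝒵 y) ≤ C ^ 2) ∧
      ∀ u : Y → ℂ, AP m h𝒵 R V u →
        l2 m (fun y => f y - w y) ^ 2 ≤ l2 m (fun y => f y - w y - u y) ^ 2 + δ := by
  have hbdd : BddBelow {r : ℝ | ∃ w : Y → ℂ, AP m h𝒵 R V w ∧ l2 m (fun y => f y - w y) ^ 2 = r} := by
    refine ⟨0, ?_⟩
    rintro r ⟨w, -, rfl⟩
    positivity
  have hne : {r : ℝ | ∃ w : Y → ℂ, AP m h𝒵 R V w ∧ l2 m (fun y => f y - w y) ^ 2 = r}.Nonempty :=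
    ⟨_, _, AP.zero m h𝒵 R V, rfl⟩
  obtain ⟨r, ⟨w₀, hw₀, rfl⟩, hr⟩ := exists_lt_of_csInf_lt hne
    (show sInf {r : ℝ | ∃ w : Y → ℂ, AP m h𝒵 R V w ∧ l2 m (fun y => f y - w y) ^ 2 = r} <
      sInf {r : ℝ | ∃ w : Y → ℂ, AP m h𝒵 R V w ∧ l2 m (fun y => f y - w y) ^ 2 = r} + δ by linarith)
  obtain ⟨w, hw, h1, h2⟩ := exists_cut m h𝒵 hV f hf C hC0 hC w₀ hw₀
  refine ⟨w, hw, h1, fun u hu => ?_⟩
  have h3 : AP m h𝒵 R V (fun y => 1 * w y + 1 * u y) := AP.add_smul m h𝒵 hV w u 1 1 hw hu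
  have h4 := csInf_le hbdd ⟨_, h3, rfl⟩
  have h5 : l2 m (fun y => f y - (1 * w y + 1 * u y)) = l2 m (fun y => f y - w y - u y) := by
    congr 1
    funext y
    ring
  rw [h5] at h4
  have h6 : l2 m (fun y => f y - w y) ^ 2 ≤ l2 m (fun y => f y - w₀ y) ^ 2 :=
    pow_le_pow_left₀ (l2_nonneg _ _) h2 2
  linarith

/-- Two near minimizers are close. Proof. `u = (w' - w)/2` in `AP`: with `a = f - w`, `b = f - w'`,
`f - w - u = (a + b)/2 = f - w' + u`. By hypothesis `‖a‖² ≤ ‖(a+b)/2‖² + δ`,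
`‖b‖² ≤ ‖(a+b)/2‖² + δ'`; parallelogram identity `‖a - b‖² = 2‖a‖² + 2‖b‖² - 4 ‖(a+b)/2‖²`
(pointwise in `ℂ`, integrated), so `‖a - b‖² ≤ 2(δ + δ')`; and `a - b = w' - w`. -/
theorem near_min_close (m : Measure Y) [IsProbabilityMeasure m] (h𝒵 : 𝒵 ≤ mY) {R : Y → Y}
    {V : (Y → ℂ) → Prop} (hV : VClass 𝒵 m R V) (f : Y → ℂ) (hf : V f) (w w' : Y → ℂ)
    (hw : AP m h𝒵 R V w) (hw' : AP m h𝒵 R V w') (δ δ' : ℝ)
    (h : ∀ u : Y → ℂ, AP m h𝒵 R V u →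
      l2 m (fun y => f y - w y) ^ 2 ≤ l2 m (fun y => f y - w y - u y) ^ 2 + δ)
    (h' : ∀ u : Y → ℂ, AP m h𝒵 R V u →
      l2 m (fun y => f y - w' y) ^ 2 ≤ l2 m (fun y => f y - w' y - u y) ^ 2 + δ') :
    l2 m (fun y => w y - w' y) ^ 2 ≤ 2 * (δ + δ') := by
  have hfB : BM f := hV.bm f hf
  have hwB : BM w := hw.1
  have hwB' : BM w' := hw'.1
  have h1 := h _ (AP.add_smul m h𝒵 hV w' w (1 / 2) (-(1 / 2)) hw' hw)
  have h2 := h' _ (AP.add_smul m h𝒵 hV w w' (1 / 2) (-(1 / 2)) hw hw')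
  have e1 : l2 m (fun y => f y - w y - (1 / 2 * w' y + -(1 / 2) * w y)) =
      l2 m (fun y => (1 / 2) * ((f y - w y) + (f y - w' y))) := by
    congr 1
    funext y
    ring
  have e2 : l2 m (fun y => f y - w' y - (1 / 2 * w y + -(1 / 2) * w' y)) =
      l2 m (fun y => (1 / 2) * ((f y - w y) + (f y - w' y))) := by
    congr 1
    funext y
    ring
  rw [e1] at h1
  rw [e2] at h2
  have ha : BM (fun y => f y - w y) := hfB.sub hwB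
  have hb : BM (fun y => f y - w' y) := hfB.sub hwB'
  have hc : BM (fun y => (1 / 2 : ℂ) * ((f y - w y) + (f y - w' y))) :=
    (BM.const _).mul (ha.add hb)
  have key : l2 m (fun y => w y - w' y) ^ 2 = 2 * l2 m (fun y => f y - w y) ^ 2 +
      2 * l2 m (fun y => f y - w' y) ^ 2 -
      4 * l2 m (fun y => (1 / 2 : ℂ) * ((f y - w y) + (f y - w' y))) ^ 2 := by
    have hI : Integrable (fun y => 2 * ‖f y - w y‖ ^ 2 + 2 * ‖f y - w' y‖ ^ 2) m :=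
      ((DC3_int ha).const_mul 2).add ((DC3_int hb).const_mul 2)
    rw [l2_sq, l2_sq, l2_sq, l2_sq, ← integral_const_mul, ← integral_const_mul,
      ← integral_const_mul, ← integral_add ((DC3_int ha).const_mul 2) ((DC3_int hb).const_mul 2),
      ← integral_sub hI ((DC3_int hc).const_mul 4)]
    refine integral_congr_ae (Eventually.of_forall fun y => ?_)
    have h3 : ∀ a b : ℂ, ‖b - a‖ ^ 2 = 2 * ‖a‖ ^ 2 + 2 * ‖b‖ ^ 2 - 4 * ‖(1 / 2 : ℂ) * (a + b)‖ ^ 2 := by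
      intro a b
      have h4 : ‖(1 / 2 : ℂ) * (a + b)‖ ^ 2 = ‖a + b‖ ^ 2 / 4 := by
        rw [norm_mul, mul_pow]
        norm_num
        ring
      rw [h4, Complex.sq_norm, Complex.sq_norm, Complex.sq_norm, Complex.sq_norm,
        Complex.normSq_apply, Complex.normSq_apply, Complex.normSq_apply, Complex.normSq_apply]
      simp only [Complex.sub_re, Complex.sub_im, Complex.add_re, Complex.add_im]
      ring
    have h5 := h3 (f y - w y) (f y - w' y)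
    have h6 : f y - w' y - (f y - w y) = w y - w' y := by ring
    rw [h6] at h5
    exact h5
  rw [key]
  linarith

end Pool.Agent.Lib.H82OT
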