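import Pool.Agent.Lib.H82OT.DC3

/-!
# Project H82OT, chunk DC4: the limit kernel of a near minimizer is small
-/

open MeasureTheory Filter Topology Finset ProbabilityTheory
open scoped ENNReal ComplexConjugate Matrix

namespace Pool.Agent.Lib.H82OT

open Pool.Agent.Lib.H22M Pool.Agent.Lib.H82T

variable {Y : Type*} {𝒵 : MeasurableSpace Y} [mY : MeasurableSpace Y] [StandardBorelSpace Y]

/-- Proof. Let `g = f - w` (in `V`: `AP.mem`, `hV.add`, `hV.smul`), `u = Kop K g`, which is in `AP` by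
`hKV` and `AP.kernel`, `a = l2 mh K ^ 2`. By `integral_Kop` (with `conj ∘ g`) and `hKg`,
`∫ u conj g dm = ∫ K conj (g z.1 conj g z.2) dmh = a`. By `l2_Kop_fibre`, `l2 m u ≤ C * l2 mh K`, so
`‖u‖² ≤ C² a`. Apply the near minimality with `u' = C⁻² u` (`AP.add_smul`): expanding
`‖g - C⁻² u‖² = ‖g‖² - 2 C⁻² re ∫ u conj g + C⁻⁴ ‖u‖² ≤ ‖g‖² - 2 C⁻² a + C⁻² a`, so
`‖g‖² ≤ ‖g‖² - C⁻² a + δ`, i.e. `a ≤ C² δ`. -/
theorem near_min_kernel (m : Measure Y) [IsProbabilityMeasure m] (h𝒵 : 𝒵 ≤ mY) {R : Y → Y}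
    {V : (Y → ℂ) → Prop} (hV : VClass 𝒵 m R V) (f : Y → ℂ) (hf : V f) (C : ℝ) (hC0 : 0 < C)
    (δ : ℝ) (w : Y → ℂ) (hw : AP m h𝒵 R V w)
    (hS : ∀ᵐ y ∂m, ∫ x, ‖f x - w x‖ ^ 2 ∂(kap m h𝒵 y) ≤ C ^ 2)
    (hmin : ∀ u : Y → ℂ, AP m h𝒵 R V u →
      l2 m (fun y => f y - w y) ^ 2 ≤ l2 m (fun y => f y - w y - u y) ^ 2 + δ)
    (K : Y × Y → ℂ) (hK : IsKer m h𝒵 R K)
    (hKV : V (Kop m h𝒵 K (fun y => f y - w y)))
    (hKg : ∫ z, K z * conj ((f z.1 - w z.1) * conj (f z.2 - w z.2)) ∂(mh m h𝒵) =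
      ((l2 (mh m h𝒵) K ^ 2 : ℝ) : ℂ)) :
    l2 (mh m h𝒵) K ^ 2 ≤ C ^ 2 * δ := by
  have hg : BM (fun y => f y - w y) := (hV.bm f hf).sub hw.1
  have hu : BM (Kop m h𝒵 K (fun y => f y - w y)) := hV.bm _ hKV
  obtain ⟨g, hgdef⟩ : ∃ g : Y → ℂ, g = fun y => f y - w y := ⟨_, rfl⟩
  obtain ⟨u, hudef⟩ : ∃ u : Y → ℂ, u = Kop m h𝒵 K (fun y => f y - w y) := ⟨_, rfl⟩
  obtain ⟨a, hadef⟩ : ∃ a : ℝ, a = l2 (mh m h𝒵) K ^ 2 := ⟨_, rfl⟩
  have hfib : l2 m u ≤ C * l2 (mh m h𝒵) K := by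
    rw [hudef]
    exact l2_Kop_fibre m h𝒵 K _ hK.1 hg C hC0.le hS
  have hpair : ∫ y, conj (g y) * u y ∂m = (a : ℂ) := by
    rw [hudef, hgdef, integral_Kop m h𝒵 K (fun y => f y - w y) (fun y => conj (f y - w y)) hK.1 hg
      hg.conj, hadef, ← hKg]
    refine integral_congr_ae (Eventually.of_forall fun z => ?_)
    simp only [map_mul, Complex.conj_conj]
    ring
  have hAPu : AP m h𝒵 R V u := by
    rw [hudef]
    exact AP.kernel m h𝒵 R V K hK _ hg hKV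
  have hAPc : ∀ c : ℂ, AP m h𝒵 R V (fun y => c * u y) := by
    intro c
    have h := AP.add_smul m h𝒵 hV u u c 0 hAPu hAPu
    have e : (fun y => c * u y + 0 * u y) = fun y => c * u y := by
      funext y
      ring
    rwa [e] at h
  rw [← hgdef] at hg
  rw [← hudef] at hu
  rw [← hadef]
  have hexp : ∀ c : ℝ, l2 m (fun y => g y - (c : ℂ) * u y) ^ 2 =
      l2 m g ^ 2 - 2 * c * a + c ^ 2 * l2 m u ^ 2 := by
    intro c
    have b1 : BM (fun y => g y * conj (g y)) := hg.mul hg.conj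
    have b2 : BM (fun y => conj (g y) * u y) := hg.conj.mul hu
    have b3 : BM (fun y => conj (conj (g y) * u y)) := b2.conj
    have b4 : BM (fun y => u y * conj (u y)) := hu.mul hu.conj
    have i3 : ∫ y, conj (conj (g y) * u y) ∂m = (a : ℂ) := by
      rw [integral_conj, hpair, Complex.conj_ofReal]
    have e : ∀ y, (g y - (c : ℂ) * u y) * conj (g y - (c : ℂ) * u y) =
        (g y * conj (g y) - (c : ℂ) * (conj (g y) * u y)) -
          ((c : ℂ) * conj (conj (g y) * u y) - (c : ℂ) ^ 2 * (u y * conj (u y))) := by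
      intro y
      simp only [map_sub, map_mul, Complex.conj_ofReal, Complex.conj_conj]
      ring
    have h := integral_mul_conj m (fun y => g y - (c : ℂ) * u y)
    have h' : ∫ y, (g y - (c : ℂ) * u y) * conj (g y - (c : ℂ) * u y) ∂m =
        ((l2 m g ^ 2 : ℝ) : ℂ) - (c : ℂ) * (a : ℂ) -
          ((c : ℂ) * (a : ℂ) - (c : ℂ) ^ 2 * ((l2 m u ^ 2 : ℝ) : ℂ)) := by
      have j1 : Integrable (fun y => g y * conj (g y) - (c : ℂ) * (conj (g y) * u y)) m :=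
        b1.integrable.sub (b2.integrable.const_mul _)
      have j2 : Integrable (fun y => (c : ℂ) * conj (conj (g y) * u y) -
          (c : ℂ) ^ 2 * (u y * conj (u y))) m :=
        (b3.integrable.const_mul _).sub (b4.integrable.const_mul _)
      rw [integral_congr_ae (Eventually.of_forall e), integral_sub j1 j2,
        integral_sub b1.integrable (b2.integrable.const_mul _),
        integral_sub (b3.integrable.const_mul _) (b4.integrable.const_mul _),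
        integral_const_mul, integral_const_mul, integral_const_mul, hpair, i3,
        integral_mul_conj, integral_mul_conj]
    rw [h'] at h
    have h2 : l2 m g ^ 2 - c * a - (c * a - c ^ 2 * l2 m u ^ 2) =
        l2 m (fun y => g y - (c : ℂ) * u y) ^ 2 := by
      exact_mod_cast h
    linarith
  have hC2 : (0 : ℝ) < C ^ 2 := by positivity
  have hm := hmin _ (hAPc ((((C ^ 2)⁻¹ : ℝ)) : ℂ))
  have hm' : l2 m g ^ 2 ≤ l2 m (fun y => g y - (((C ^ 2)⁻¹ : ℝ) : ℂ) * u y) ^ 2 + δ := by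
    rw [hgdef]
    exact hm
  rw [hexp] at hm'
  have hu2 : l2 m u ^ 2 ≤ C ^ 2 * a := by
    rw [hadef, ← mul_pow]
    exact pow_le_pow_left₀ (Real.sqrt_nonneg _) hfib 2
  have h3 : ((C ^ 2)⁻¹) ^ 2 * l2 m u ^ 2 ≤ (C ^ 2)⁻¹ * a := by
    calc ((C ^ 2)⁻¹) ^ 2 * l2 m u ^ 2 ≤ ((C ^ 2)⁻¹) ^ 2 * (C ^ 2 * a) :=
          mul_le_mul_of_nonneg_left hu2 (by positivity)
      _ = (C ^ 2)⁻¹ * a := by
          field_simp
  have h4 : (C ^ 2)⁻¹ * a ≤ δ := by linarith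
  calc a = C ^ 2 * ((C ^ 2)⁻¹ * a) := by
        field_simp
    _ ≤ C ^ 2 * δ := mul_le_mul_of_nonneg_left h4 hC2.le

end Pool.Agent.Lib.H82OT
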