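import Pool.Agent.Lib.H82T.Defs

/-!
# Project H82OT (MP_10e165_an): definitions

Moebius disjointness in order three: one isometric step with arbitrary fibre over towers of finite
extensions over a finite dimensional torus extension of a rotation. The paper proof is `PROOF.md` in
this folder.
-/

open MeasureTheory Filter Topology Finset ProbabilityTheory
open scoped ENNReal ComplexConjugate Matrix

namespace Pool.Agent.Lib.H82OT

open Pool.Agent.Lib.H22M Pool.Agent.Lib.H82T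

/-! ## The property `QS` -/

/-- `q` is a bad prime for `f`, `p`, `ε`: there are a joining of `R^p` and `R^q` and its relative square
for which the projection of `f - ∫ f` has norm larger than `ε`. -/
def BadQ {Y : Type*} [MeasurableSpace Y] (m : Measure Y) (R : Y → Y) (f : Y → ℂ) (ε : ℝ)
    (p q : ℕ) : Prop :=
  ∃ ρ σ : Measure (Y × Y), IsJoin m R p q ρ ∧ RelSq m R p q ρ σ ∧
    ε < qf σ (fun y => f y - ∫ x, f x ∂m)

/-- For every `ε` and every good prime `p` (for a suitable finite set `F0` of eigenvalues different from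
`1`, and outside a finite set `P0`), at most `m0` primes `q` are bad. -/
def QS {Y : Type*} [MeasurableSpace Y] (m : Measure Y) (R : Y → Y) (f : Y → ℂ) : Prop :=
  ∀ ε : ℝ, 0 < ε → ∃ F0 : Finset ℂ, (1 : ℂ) ∉ F0 ∧ ∃ (P0 : Finset ℕ) (m0 : ℕ),
    ∀ p ∈ goodPrimes m R F0, p ∉ P0 → ∀ Q : Finset ℕ,
      (∀ q ∈ Q, q.Prime ∧ q ≠ p ∧ BadQ m R f ε p q) → Q.card ≤ m0

/-! ## The Kronecker σ-algebra -/

/-- `𝒵` is the Kronecker σ-algebra: invariant, all bounded eigenfunctions are `𝒵`-measurable up to null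
sets, and finite sums of eigenfunctions approximate the bounded `𝒵`-measurable functions in `L²`. -/
structure KronAlg {Y : Type*} (𝒵 : MeasurableSpace Y) [mY : MeasurableSpace Y] (m : Measure Y)
    (R : Y → Y) : Prop where
  le : 𝒵 ≤ mY
  inv : 𝒵.comap R = 𝒵
  all : ∀ (e : Y → ℂ) (l : ℂ), BM e → (∀ᵐ y ∂m, e (R y) = l * e y) →
    ∃ e' : Y → ℂ, Measurable[𝒵] e' ∧ (∃ C : ℝ, ∀ y, ‖e' y‖ ≤ C) ∧ ∀ᵐ y ∂m, e y = e' y
  dense : ∀ f : Y → ℂ, Measurable[𝒵] f → (∃ C : ℝ, ∀ y, ‖f y‖ ≤ C) → ∀ δ : ℝ, 0 < δ →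
    ∃ (k : ℕ) (l : Fin k → ℂ) (e : Fin k → Y → ℂ),
      (∀ i, BM (e i) ∧ ‖l i‖ = 1 ∧ ∀ᵐ y ∂m, e i (R y) = l i * e i y) ∧
      l2 m (fun y => f y - ∑ i, e i y) ≤ δ

/-- A concrete Kronecker factor: a measurable map `P` into a compact abelian group, equivariant almost
everywhere, generating an exactly invariant σ-algebra, such that all bounded eigenfunctions are
functions of `P`. -/
structure Kron {Y W : Type*} [MeasurableSpace Y] [Mul W] [MeasurableSpace W] (m : Measure Y)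
    (R : Y → Y) (P : Y → W) (c : W) : Prop where
  meas : Measurable P
  equi : ∀ᵐ y ∂m, P (R y) = c * P y
  inv : (MeasurableSpace.comap P inferInstance).comap R = MeasurableSpace.comap P inferInstance
  all : ∀ (e : Y → ℂ) (l : ℂ), BM e → (∀ᵐ y ∂m, e (R y) = l * e y) →
    ∃ g : W → ℂ, BM g ∧ ∀ᵐ y ∂m, e y = g (P y)

/-! ## Good levels -/

/-- A good level: an invariant σ-algebra `ℬ` containing the Kronecker σ-algebra `𝒵`, whose bounded
functions are `Small` and such that `DD ℬ ν R` contains no eigenfunction of `R × R` whose eigenvalue is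
a `q`-th root of unity different from `1`, `ν` the average of a relative square, for all `p` outside a
finite set and all `q` larger than `M₀`. -/
structure Good {Y : Type*} (𝒵 ℬ : MeasurableSpace Y) [mY : MeasurableSpace Y] (m : Measure Y)
    (R : Y ≃ᵐ Y) : Prop where
  le : ℬ ≤ mY
  inv : ℬ.comap R = ℬ
  kron : 𝒵 ≤ ℬ
  small : ∀ f : Y → ℂ, Measurable[ℬ] f → (∃ C : ℝ, ∀ y, ‖f y‖ ≤ C) → Small m R f
  noRoot : ∃ (M₀ : ℕ) (P0 : Finset ℕ), ∀ p q : ℕ, p.Prime → p ∉ P0 → q.Prime → q ≠ p → M₀ < q →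
    ∀ ρ σ : Measure (Y × Y), IsJoin m R p q ρ → RelSq m R p q ρ σ →
      NoRoot (DD ℬ (avg σ (Prod.map R R) q) R) (avg σ (Prod.map R R) q) (Prod.map R R) q

/-! ## Kernels over the Kronecker factor -/

/-- The conditional measures of `m` over `𝒵`, as a kernel from `Y` to `Y`. -/
noncomputable def kap {Y : Type*} {𝒵 : MeasurableSpace Y} [mY : MeasurableSpace Y]
    [StandardBorelSpace Y] (m : Measure Y) [IsFiniteMeasure m] (h𝒵 : 𝒵 ≤ mY) : Kernel Y Y :=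
  (condExpKernel m 𝒵).comap id (measurable_id'' h𝒵)

/-- The relatively independent product of `m` with itself over `𝒵`. -/
noncomputable def mh {Y : Type*} {𝒵 : MeasurableSpace Y} [mY : MeasurableSpace Y]
    [StandardBorelSpace Y] (m : Measure Y) [IsFiniteMeasure m] (h𝒵 : 𝒵 ≤ mY) : Measure (Y × Y) :=
  m ⊗ₘ kap m h𝒵

/-- The operator with kernel `K`: `(K h)(y) = ∫ K(y, y') h(y') κ_y(dy')`. -/
noncomputable def Kop {Y : Type*} {𝒵 : MeasurableSpace Y} [mY : MeasurableSpace Y]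
    [StandardBorelSpace Y] (m : Measure Y) [IsFiniteMeasure m] (h𝒵 : 𝒵 ≤ mY) (K : Y × Y → ℂ)
    (h : Y → ℂ) (y : Y) : ℂ :=
  ∫ y', K (y, y') * h y' ∂(kap m h𝒵 y)

/-- `K` is a bounded kernel invariant under `R × R`. -/
def IsKer {Y : Type*} {𝒵 : MeasurableSpace Y} [mY : MeasurableSpace Y]
    [StandardBorelSpace Y] (m : Measure Y) [IsFiniteMeasure m] (h𝒵 : 𝒵 ≤ mY) (R : Y → Y)
    (K : Y × Y → ℂ) : Prop :=
  BM K ∧ ∀ᵐ z ∂(mh m h𝒵), K (Prod.map R R z) = K z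

/-- The kernel `κ_y ⊗ κ_y'` from `Y × Y` to `Y × Y`. -/
noncomputable def kap2 {Y : Type*} {𝒵 : MeasurableSpace Y} [mY : MeasurableSpace Y]
    [StandardBorelSpace Y] (m : Measure Y) [IsFiniteMeasure m] (h𝒵 : 𝒵 ≤ mY) :
    Kernel (Y × Y) (Y × Y) :=
  ((kap m h𝒵).comap Prod.fst measurable_fst) ×ₖ ((kap m h𝒵).comap Prod.snd measurable_snd)

/-- The measure `σ(dy, dy') κ_y(dx) κ_y'(dx')` of `((y, y'), (x, x'))`. -/
noncomputable def tau {Y : Type*} {𝒵 : MeasurableSpace Y} [mY : MeasurableSpace Y]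
    [StandardBorelSpace Y] (m : Measure Y) [IsFiniteMeasure m] (h𝒵 : 𝒵 ≤ mY)
    (σ : Measure (Y × Y)) : Measure ((Y × Y) × (Y × Y)) :=
  σ ⊗ₘ kap2 m h𝒵

/-- The law of `(x, x')` under `tau`. -/
noncomputable def hat {Y : Type*} {𝒵 : MeasurableSpace Y} [mY : MeasurableSpace Y]
    [StandardBorelSpace Y] (m : Measure Y) [IsFiniteMeasure m] (h𝒵 : 𝒵 ≤ mY)
    (σ : Measure (Y × Y)) : Measure (Y × Y) :=
  (tau m h𝒵 σ).map Prod.snd

/-! ## Classes of functions for the decomposition -/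

/-- A class of bounded functions closed under sums, multiples, composition with `R`, multiplication by
bounded `𝒵`-measurable functions and bounded limits in `L²`. -/
structure VClass {Y : Type*} (𝒵 : MeasurableSpace Y) [mY : MeasurableSpace Y] (m : Measure Y)
    (R : Y → Y) (V : (Y → ℂ) → Prop) : Prop where
  bm : ∀ f, V f → BM f
  add : ∀ f g, V f → V g → V (fun y => f y + g y)
  smul : ∀ (c : ℂ) (f : Y → ℂ), V f → V (fun y => c * f y)
  comp : ∀ f, V f → V (fun y => f (R y))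
  mul : ∀ χ f : Y → ℂ, Measurable[𝒵] χ → (∃ C : ℝ, ∀ y, ‖χ y‖ ≤ C) → V f →
    V (fun y => χ y * f y)
  lim : ∀ f, BM f → (∀ δ : ℝ, 0 < δ → ∃ g, V g ∧ l2 m (fun y => f y - g y) ≤ δ) → V f

/-- Finite sums of functions `K_i h_i`, `K_i` a bounded invariant kernel, `h_i` bounded, `K_i h_i` in the
class `V`. -/
def AP {Y : Type*} {𝒵 : MeasurableSpace Y} [mY : MeasurableSpace Y]
    [StandardBorelSpace Y] (m : Measure Y) [IsFiniteMeasure m] (h𝒵 : 𝒵 ≤ mY) (R : Y → Y)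
    (V : (Y → ℂ) → Prop) (w : Y → ℂ) : Prop :=
  BM w ∧ ∃ (k : ℕ) (K : Fin k → Y × Y → ℂ) (h : Fin k → Y → ℂ),
    (∀ i, IsKer m h𝒵 R (K i) ∧ BM (h i) ∧ V (Kop m h𝒵 (K i) (h i))) ∧
    ∀ᵐ y ∂m, w y = ∑ i, Kop m h𝒵 (K i) (h i) y

/-! ## Finite rank modules over a level -/

/-- Evolution of coefficient rows: `F ↦ (F ∘ R) Φ`. -/
def evr {Y : Type*} {d : ℕ} (R : Y → Y) (Φ : Y → Matrix (Fin d) (Fin d) ℂ) (F : Y → Fin d → ℂ) :
    Y → Fin d → ℂ :=
  fun y => F (R y) ᵥ* Φ y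

/-- Bounded `ℬ`-measurable rows. -/
def RowB {Y : Type*} {d : ℕ} (ℬ : MeasurableSpace Y) (F : Y → Fin d → ℂ) : Prop :=
  (∀ i, Measurable[ℬ] fun y => F y i) ∧ ∃ C : ℝ, ∀ y i, ‖F y i‖ ≤ C

/-- `E` generates a finite rank module over `ℬ`: `E ∘ R = Φ E` with `Φ` unitary and `ℬ`-measurable, and
the Gram matrix of `E` over `ℬ` is the projection `Γ`. -/
structure IsMod {Y : Type*} {d : ℕ} (ℬ : MeasurableSpace Y) [mY : MeasurableSpace Y]
    (m : Measure Y) (R : Y → Y) (Φ Γ : Y → Matrix (Fin d) (Fin d) ℂ) (E : Y → Fin d → ℂ) : Prop where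
  measΦ : ∀ i j, Measurable[ℬ] fun y => Φ y i j
  unit : ∀ y, Φ y * (Φ y)ᴴ = 1
  bmE : ∀ i, BM fun y => E y i
  rel : ∀ᵐ y ∂m, E (R y) = Φ y *ᵥ E y
  measΓ : ∀ i j, Measurable[ℬ] fun y => Γ y i j
  proj : ∀ y, Γ y * Γ y = Γ y ∧ (Γ y)ᴴ = Γ y
  relΓ : ∀ᵐ y ∂m, Γ (R y) = Φ y * Γ y * (Φ y)ᴴ
  gram : ∀ i j, m[fun y => E y i * conj (E y j)|ℬ] =ᵐ[m] fun y => Γ y i j

/-- The bounded functions of the module. -/
def ModV {Y : Type*} {d : ℕ} (ℬ : MeasurableSpace Y) [mY : MeasurableSpace Y]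
    (m : Measure Y) (E : Y → Fin d → ℂ) (f : Y → ℂ) : Prop :=
  BM f ∧ ∃ F : Y → Fin d → ℂ, RowB ℬ F ∧ ∀ᵐ y ∂m, f y = F y ⬝ᵥ E y

/-- The functions `F^(n) (F^(j))^*`. -/
def aa {Y : Type*} {d : ℕ} (R : Y → Y) (Φ : Y → Matrix (Fin d) (Fin d) ℂ) (F : Y → Fin d → ℂ)
    (n j : ℕ) (y : Y) : ℂ :=
  ((evr R Φ)^[n] F) y ⬝ᵥ star (((evr R Φ)^[j] F) y)

end Pool.Agent.Lib.H82OT
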