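import Pool.Agent.Lib.H82OT.WN1
import Pool.Agent.Lib.H82OT.LT1
import Pool.Agent.Lib.H82T.S2

/-!
# Project H82OT, chunk SJ1: SmallJ
-/

open MeasureTheory Filter Topology Finset ProbabilityTheory
open scoped ENNReal ComplexConjugate Matrix

namespace Pool.Agent.Lib.H82OT

open Pool.Agent.Lib.H22M Pool.Agent.Lib.H82T

private theorem sj1_iter {Y : Type*} [MeasurableSpace Y] {ν : Measure (Y × Y)}
    {T : Y × Y → Y × Y} (hT : MeasurePreserving T ν ν) (J : Y × Y → ℂ)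
    (hJ : ∀ᵐ z ∂ν, J (T z) = J z) (n : ℕ) : ∀ᵐ z ∂ν, J (T^[n] z) = J z := by
  induction n with
  | zero => exact Eventually.of_forall fun z => rfl
  | succ n ih =>
    have h1 : ∀ᵐ z ∂ν, J (T^[n] (T z)) = J (T z) := hT.quasiMeasurePreserving.ae ih
    filter_upwards [h1, hJ] with z e1 e2
    rw [Function.iterate_succ_apply, e1, e2]

private theorem sj1_meas {Y : Type*} (ℬ : MeasurableSpace Y) {R : Y → Y}
    (hinv : ℬ.comap R = ℬ) (a : Y → ℂ) (ha : Measurable[ℬ] a) (n j : ℕ) :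
    Measurable[ℬ] fun y => a (R^[n] y) * conj (a (R^[j] y)) := by
  have hR : Measurable[ℬ, ℬ] R := measurable_iff_comap_le.2 hinv.le
  have hn : ∀ n : ℕ, Measurable[ℬ] fun y => a (R^[n] y) := fun n =>
    ha.comp (@Measurable.iterate Y ℬ R hR n)
  exact (hn n).mul (Complex.continuous_conj.measurable.comp (hn j))

/-- Proof. Let `A, B` be bounds of `a, b`. WLOG `c > 0`. Choose `N` by `exists_small_corr` for `a` with
`δ = ε² / (2 (c B)² + 1)`-like (see below), and for every pair `n, j < N` the finite set `F_nj` of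
`Small m R (a_n conj a_j)` for `g = b_n conj b_j` and `ε' = ε² / (2 c²)`, `a_n = a ∘ R^n`
(`a_n conj a_j` is `ℬ`-measurable since `ℬ.comap R = ℬ`, and bounded); `F` their union. For `ν`, `J`:
`∫ J (a ⊗ b) dν = ∫ J (a_n ⊗ b_n) dν` for all `n` (invariance of `ν` and `J`), so
`N ∫ J (a ⊗ b) = ∫ J ∑_n a_n ⊗ b_n`, and by Cauchy-Schwarz (`norm_integral_mul_le`, `‖J‖ ≤ c`)
`(N |∫ J (a ⊗ b)|)² ≤ c² l2 ν (∑ a_n ⊗ b_n)² ≤ c² ∑_{n,j} ‖∫ (a_n conj a_j) ⊗ (b_n conj b_j) dν‖`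
(`s2_sum` in `H82T/S2.lean`), and each term is at most `‖∫ a_n conj a_j dm‖ ‖∫ b_n conj b_j dm‖ + ε' ≤
B² ‖∫ a_n conj a_j dm‖ + ε'`. The total is at most `c² (B² δ + ε') N² ≤ ε² N²`. -/
theorem small_J {Y : Type*} (ℬ : MeasurableSpace Y) [mY : MeasurableSpace Y] {m : Measure Y}
    [IsProbabilityMeasure m] {R : Y → Y} (hR : Ergodic R m) (hle : ℬ ≤ mY)
    (hinv : ℬ.comap R = ℬ)
    (hS : ∀ f : Y → ℂ, Measurable[ℬ] f → (∃ C : ℝ, ∀ y, ‖f y‖ ≤ C) → Small m R f)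
    (a : Y → ℂ) (ha : Measurable[ℬ] a) (hab : ∃ C : ℝ, ∀ y, ‖a y‖ ≤ C)
    (ho : ∀ (e : Y → ℂ) (l : ℂ), BM e → (∀ᵐ y ∂m, e (R y) = l * e y) →
      ∫ y, a y * conj (e y) ∂m = 0)
    (b : Y → ℂ) (hb : BM b) (c : ℝ) (hc : 0 ≤ c) (ε : ℝ) (hε : 0 < ε) :
    ∃ F : Finset ℂ, (1 : ℂ) ∉ F ∧ ∀ ν : Measure (Y × Y), IsSelf m R ν → Kills m R F ν →
      ∀ J : Y × Y → ℂ, BM J → (∀ᵐ z ∂ν, J (Prod.map R R z) = J z) → (∀ z, ‖J z‖ ≤ c) →
        ‖∫ z, J z * (a z.1 * b z.2) ∂ν‖ ≤ ε := by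
  classical
  obtain ⟨A, hA⟩ := hab
  have haB : BM a := bm_mono hle ha hA
  obtain ⟨hbm, B, hB⟩ := hb
  have hbB : BM b := ⟨hbm, B, hB⟩
  have hRm : Measurable R := hR.toMeasurePreserving.measurable
  have hRn : ∀ n, Measurable (R^[n]) := fun n => hRm.iterate n
  have hY : Nonempty Y := nonempty_of_isProbabilityMeasure m
  have hB0 : 0 ≤ B := (norm_nonneg _).trans (hB (Classical.arbitrary Y))
  have hA0 : 0 ≤ A := (norm_nonneg _).trans (hA (Classical.arbitrary Y))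
  obtain ⟨c', hc'⟩ : ∃ c' : ℝ, c' = c + 1 := ⟨_, rfl⟩
  have hc'0 : 0 < c' := by rw [hc']; linarith
  set ε' : ℝ := (ε / c') ^ 2 / 2 with hε'
  have hε'0 : 0 < ε' := by positivity
  set δ : ℝ := ε' / (B ^ 2 + 1) with hδ
  have hδ0 : 0 < δ := by positivity
  obtain ⟨N, hN, hcorr⟩ := exists_small_corr hR a haB ho δ hδ0
  have hga : ∀ n, BM fun y => a (R^[n] y) := fun n => haB.comp (hRn n)
  have hgb : ∀ n, BM fun y => b (R^[n] y) := fun n => hbB.comp (hRn n)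
  have hsm : ∀ n j : ℕ, Small m R fun y => a (R^[n] y) * conj (a (R^[j] y)) := by
    intro n j
    refine hS _ (sj1_meas ℬ hinv a ha n j) ⟨A * A, fun y => ?_⟩
    rw [norm_mul, RCLike.norm_conj]
    exact mul_le_mul (hA _) (hA _) (norm_nonneg _) hA0
  choose F hF1 hF using fun (n j : ℕ) =>
    hsm n j (fun y => b (R^[n] y) * conj (b (R^[j] y))) ((hgb n).mul (hgb j).conj) ε' hε'0
  refine ⟨(Finset.range N ×ˢ Finset.range N).biUnion fun t => F t.1 t.2, ?_, ?_⟩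
  · rw [Finset.mem_biUnion]
    rintro ⟨t, _, ht⟩
    exact hF1 _ _ ht
  intro ν hν hK J hJB hJ hJc
  haveI := hν.prob
  have hKF : ∀ n ∈ Finset.range N, ∀ j ∈ Finset.range N, Kills m R (F n j) ν := by
    intro n hn j hj x hx
    refine hK x ?_
    rw [Finset.mem_biUnion]
    exact ⟨(n, j), by simp only [Finset.mem_product]; exact ⟨hn, hj⟩, hx⟩
  set S : Y × Y → ℂ := fun z => ∑ n ∈ Finset.range N, a (R^[n] z.1) * b (R^[n] z.2) with hSdef
  have hSB : BM S := BM.sum _ fun n _ =>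
    ((hga n).comp measurable_fst).mul ((hgb n).comp measurable_snd)
  -- step 1 : averaging
  have hstep1 : (N : ℂ) * ∫ z, J z * (a z.1 * b z.2) ∂ν = ∫ z, J z * S z ∂ν := by
    have e1 : ∀ n : ℕ, ∫ z, J z * (a z.1 * b z.2) ∂ν =
        ∫ z, J z * (a (R^[n] z.1) * b (R^[n] z.2)) ∂ν := by
      intro n
      have h1 : MeasurePreserving ((Prod.map R R)^[n]) ν ν := hν.inv.iterate n
      have h2 : Measurable fun z : Y × Y => J z * (a z.1 * b z.2) :=
        hJB.1.mul ((haB.1.comp measurable_fst).mul (hbm.comp measurable_snd))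
      conv_lhs => rw [← h1.map_eq]
      rw [integral_map h1.measurable.aemeasurable h2.aestronglyMeasurable]
      refine integral_congr_ae ?_
      filter_upwards [sj1_iter hν.inv J hJ n] with z hz
      rw [hz]
      simp only [Prod.map_iterate, Prod.map_fst, Prod.map_snd]
    have e2 : (N : ℂ) * ∫ z, J z * (a z.1 * b z.2) ∂ν =
        ∑ n ∈ Finset.range N, ∫ z, J z * (a z.1 * b z.2) ∂ν := by
      rw [Finset.sum_const, Finset.card_range, nsmul_eq_mul]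
    rw [e2, Finset.sum_congr rfl fun n _ => e1 n, ← integral_finsetSum]
    · refine integral_congr_ae (Eventually.of_forall fun z => ?_)
      simp only [hSdef]
      rw [Finset.mul_sum]
    · intro n _
      exact (hJB.mul (((hga n).comp measurable_fst).mul
        ((hgb n).comp measurable_snd))).integrable
  -- step 2 : the norm of `S`
  have hN0 : (0 : ℝ) < N := by exact_mod_cast hN
  have hstep2 : l2 ν S ≤ N * (ε / c') := by
    have hterm : ∀ n ∈ Finset.range N, ∀ j ∈ Finset.range N,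
        ‖∫ z, ((fun n y => a (R^[n] y)) n z.1 * conj ((fun n y => a (R^[n] y)) j z.1)) *
          ((fun n y => b (R^[n] y)) n z.2 * conj ((fun n y => b (R^[n] y)) j z.2)) ∂ν‖ ≤
        ε' + B ^ 2 * ‖∫ y, a (R^[n] y) * conj (a (R^[j] y)) ∂m‖ := by
      intro n hn j hj
      have h1 := hF n j ν hν (hKF n hn j hj)
      have h2 : ‖∫ y, b (R^[n] y) * conj (b (R^[j] y)) ∂m‖ ≤ B ^ 2 := by
        refine (norm_integral_le_of_norm_le_const (C := B ^ 2)
          (Eventually.of_forall fun y => ?_)).trans ?_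
        · rw [norm_mul, RCLike.norm_conj, sq]
          exact mul_le_mul (hB _) (hB _) (norm_nonneg _) hB0
        · simp
      have h3 : ‖(∫ y, a (R^[n] y) * conj (a (R^[j] y)) ∂m) *
          ∫ y, b (R^[n] y) * conj (b (R^[j] y)) ∂m‖ ≤
          B ^ 2 * ‖∫ y, a (R^[n] y) * conj (a (R^[j] y)) ∂m‖ := by
        rw [norm_mul, mul_comm]
        exact mul_le_mul_of_nonneg_right h2 (norm_nonneg _)
      have h4 := norm_add_le
        (∫ z, (a (R^[n] z.1) * conj (a (R^[j] z.1))) *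
            (b (R^[n] z.2) * conj (b (R^[j] z.2))) ∂ν -
          (∫ y, a (R^[n] y) * conj (a (R^[j] y)) ∂m) *
            ∫ y, b (R^[n] y) * conj (b (R^[j] y)) ∂m)
        ((∫ y, a (R^[n] y) * conj (a (R^[j] y)) ∂m) *
          ∫ y, b (R^[n] y) * conj (b (R^[j] y)) ∂m)
      rw [sub_add_cancel] at h4
      exact h4.trans (add_le_add h1 h3)
    have h5 := s2_sum (ν := ν) (Finset.range N) (fun n y => a (R^[n] y))
      (fun n y => b (R^[n] y)) hga hgb
      (fun n j => ε' + B ^ 2 * ‖∫ y, a (R^[n] y) * conj (a (R^[j] y)) ∂m‖) hterm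
    have h6 : ∑ n ∈ Finset.range N, ∑ j ∈ Finset.range N,
        (ε' + B ^ 2 * ‖∫ y, a (R^[n] y) * conj (a (R^[j] y)) ∂m‖) ≤
        (N : ℝ) ^ 2 * (ε' + B ^ 2 * δ) := by
      have e1 : ∑ n ∈ Finset.range N, ∑ j ∈ Finset.range N,
          (ε' + B ^ 2 * ‖∫ y, a (R^[n] y) * conj (a (R^[j] y)) ∂m‖) =
          (N : ℝ) ^ 2 * ε' + B ^ 2 * ∑ n ∈ Finset.range N, ∑ j ∈ Finset.range N,
            ‖∫ y, a (R^[n] y) * conj (a (R^[j] y)) ∂m‖ := by
        simp_rw [Finset.sum_add_distrib, Finset.mul_sum, Finset.sum_const, Finset.card_range,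
          nsmul_eq_mul]
        ring
      rw [e1]
      have e2 : B ^ 2 * ∑ n ∈ Finset.range N, ∑ j ∈ Finset.range N,
            ‖∫ y, a (R^[n] y) * conj (a (R^[j] y)) ∂m‖ ≤ B ^ 2 * (δ * (N : ℝ) ^ 2) :=
        mul_le_mul_of_nonneg_left hcorr (sq_nonneg B)
      linarith
    have h7 : B ^ 2 * δ ≤ ε' := by
      rw [hδ, ← mul_div_assoc, div_le_iff₀ (by positivity)]
      nlinarith [sq_nonneg B]
    have h8 : l2 ν S ^ 2 ≤ (N * (ε / c')) ^ 2 := by
      refine (h5.trans h6).trans ?_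
      have h9 : ε' + B ^ 2 * δ ≤ (ε / c') ^ 2 := by
        have : ε' + ε' = (ε / c') ^ 2 := by rw [hε']; ring
        linarith
      rw [mul_pow]
      exact mul_le_mul_of_nonneg_left h9 (by positivity)
    exact le_of_sq_le_sq h8 (by positivity)
  -- step 3
  have hstep3 : ‖∫ z, J z * S z ∂ν‖ ≤ N * ε := by
    have h1 := norm_integral_mul_le ν J S hJB hSB
    have h2 : l2 ν J ≤ c' := l2_le_of_bound ν J c' hc'0.le
      (Eventually.of_forall fun z => (hJc z).trans (by rw [hc']; linarith))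
    calc ‖∫ z, J z * S z ∂ν‖ ≤ l2 ν J * l2 ν S := h1
      _ ≤ c' * (N * (ε / c')) := mul_le_mul h2 hstep2 (l2_nonneg _ _) hc'0.le
      _ = N * ε := by field_simp
  have hstep4 : (N : ℝ) * ‖∫ z, J z * (a z.1 * b z.2) ∂ν‖ ≤ N * ε := by
    have e1 : (N : ℝ) * ‖∫ z, J z * (a z.1 * b z.2) ∂ν‖ =
        ‖(N : ℂ) * ∫ z, J z * (a z.1 * b z.2) ∂ν‖ := by
      rw [norm_mul, Complex.norm_natCast]
    rw [e1, hstep1]
    exact hstep3
  exact le_of_mul_le_mul_left hstep4 hN0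

end Pool.Agent.Lib.H82OT
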