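import Pool.Agent.Lib.H82OT.EV3
import Pool.Agent.Lib.H82OT.SJ1

/-!
# Project H82OT, chunk EV4: the pairing of two functions of the module
-/

open MeasureTheory Filter Topology Finset ProbabilityTheory
open scoped ENNReal ComplexConjugate Matrix

namespace Pool.Agent.Lib.H82OT

open Pool.Agent.Lib.H22M Pool.Agent.Lib.H82T

/-- Square sums of bounded rows. -/
private theorem ev4_row {Y : Type*} {d : ℕ} {ℬ : MeasurableSpace Y} {F : Y → Fin d → ℂ}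
    (hF : RowB ℬ F) : ∃ TF : ℝ, 0 ≤ TF ∧ ∀ y, ∑ i, ‖F y i‖ ^ 2 ≤ TF ^ 2 := by
  obtain ⟨-, C', hC'⟩ := hF
  refine ⟨Real.sqrt (d * C' ^ 2), Real.sqrt_nonneg _, fun y => ?_⟩
  rw [Real.sq_sqrt (by positivity)]
  calc ∑ i, ‖F y i‖ ^ 2 ≤ ∑ _i : Fin d, C' ^ 2 :=
        Finset.sum_le_sum fun i _ => pow_le_pow_left₀ (norm_nonneg _) (hC' y i) 2
    _ = d * C' ^ 2 := by
        rw [Finset.sum_const, Finset.card_univ, Fintype.card_fin, nsmul_eq_mul]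

/-- Differences of measurable functions. -/
private theorem ev4_sub {Y : Type*} {ℬ : MeasurableSpace Y} {a b : Y → ℂ} (ha : Measurable[ℬ] a)
    (hb : Measurable[ℬ] b) : Measurable[ℬ] fun y => a y - b y :=
  ha.sub hb

/-- One term. -/
private theorem ev4_term {Y : Type*} [mY : MeasurableSpace Y] {m : Measure Y}
    [IsProbabilityMeasure m] {R : Y → Y} {ν : Measure (Y × Y)} (hν : IsSelf m R ν)
    (J : Y × Y → ℂ) (hJ : BM J) (c : ℝ) (hc : ∀ z, ‖J z‖ ≤ c) (a a₀ b : Y → ℂ)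
    (ha : BM a) (ha₀ : BM a₀) (hb : BM b) (B : ℝ) (hB : ∀ y, ‖b y‖ ≤ B) (η : ℝ)
    (h : ‖∫ z, J z * ((a z.1 - a₀ z.1) * b z.2) ∂ν‖ ≤ η) :
    ‖∫ z, J z * (a z.1 * b z.2) ∂ν‖ ≤ η + c * B * ∫ y, ‖a₀ y‖ ∂m := by
  have := hν.prob
  have hY : Nonempty Y := nonempty_of_isProbabilityMeasure m
  have hc0 : 0 ≤ c := (norm_nonneg _).trans (hc (Classical.arbitrary Y, Classical.arbitrary Y))
  have hB0 : 0 ≤ B := (norm_nonneg _).trans (hB (Classical.arbitrary Y))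
  have hbz : BM fun z : Y × Y => b z.2 := hb.comp measurable_snd
  have h1 : BM fun z : Y × Y => J z * ((a z.1 - a₀ z.1) * b z.2) :=
    hJ.mul (((ha.sub ha₀).comp measurable_fst).mul hbz)
  have h2 : BM fun z : Y × Y => J z * (a₀ z.1 * b z.2) :=
    hJ.mul ((ha₀.comp measurable_fst).mul hbz)
  have h3 : ∫ z, J z * (a z.1 * b z.2) ∂ν =
      ∫ z, J z * ((a z.1 - a₀ z.1) * b z.2) ∂ν + ∫ z, J z * (a₀ z.1 * b z.2) ∂ν := by
    rw [← integral_add h1.integrable h2.integrable]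
    refine integral_congr_ae (Eventually.of_forall fun z => ?_)
    show J z * (a z.1 * b z.2) = J z * ((a z.1 - a₀ z.1) * b z.2) + J z * (a₀ z.1 * b z.2)
    ring
  have h4 : ‖∫ z, J z * (a₀ z.1 * b z.2) ∂ν‖ ≤ c * B * ∫ y, ‖a₀ y‖ ∂m := by
    have h5 : ∫ y, ‖a₀ y‖ ∂m = ∫ z, ‖a₀ z.1‖ ∂ν := by
      rw [← hν.fst, integral_map measurable_fst.aemeasurable]
      exact ha₀.1.norm.aestronglyMeasurable
    rw [h5, ← integral_const_mul]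
    refine (norm_integral_le_integral_norm _).trans ?_
    refine integral_mono h2.integrable.norm ?_ fun z => ?_
    · exact ((ha₀.comp measurable_fst).integrable (m := ν)).norm.const_mul _
    · show ‖J z * (a₀ z.1 * b z.2)‖ ≤ c * B * ‖a₀ z.1‖
      rw [norm_mul, norm_mul]
      calc ‖J z‖ * (‖a₀ z.1‖ * ‖b z.2‖) ≤ c * (‖a₀ z.1‖ * B) :=
            mul_le_mul (hc z) (mul_le_mul_of_nonneg_left (hB _) (norm_nonneg _))
              (mul_nonneg (norm_nonneg _) (norm_nonneg _)) hc0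
        _ = c * B * ‖a₀ z.1‖ := by ring
  rw [h3]
  exact (norm_add_le _ _).trans (add_le_add h h4)

/-- Proof. WLOG `T, C > 0`. Let `F` be a normal row of `f₂` (`ModV.normal`). For `n, j < N` put
`a = aa R Φ F n j`, `b = conj ∘ aa R Φ G n j` (`‖b‖ ≤ T²`: `aa_bound`), let `a₀` be a bounded `𝒵`-measurable
version of `m[a|𝒵]` (`exists_version`), `a' = a - a₀`: bounded, `ℬ`-measurable, orthogonal to the
eigenfunctions (`sub_version_orth` in `WN1.lean`). By `small_J` (constant `c = d²`) there is a finite set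
`F_nj` for `a'`, `b`, `ε' / (C² + 1)`; `F0` = the union. Now let `p` be good for `F0`. `ν = avg σ _ q` is a
self-coupling killing `F0` (`avg_isSelf`, `avg_kills` in `H82T/SC.lean`). By `central_module`
`‖∫ f₂(z.1) conj g(z.2) dσ‖² N² ≤ C² ∑_{n,j} ‖∫ J (a ⊗ b) dν‖` (the functions `f₂, g` may be replaced by
`F ⬝ᵥ E`, `G ⬝ᵥ E`: marginals of `σ`), and
`‖∫ J (a ⊗ b) dν‖ ≤ ‖∫ J (a' ⊗ b) dν‖ + ∫ d² |a₀(z.1)| T² dν ≤ ε' / (C² + 1) + d² T² ∫ |a₀| dm`. Finally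
`a₀ = m[a|𝒵] = m[m[f₂_n conj f₂_j|ℬ]|𝒵] = m[f₂_n conj f₂_j|𝒵]` a.e. (`aa_condExp`,
`condExp_condExp_of_le`), so the sum of the `∫ |a₀| dm` is at most `δ N²`. -/
theorem mod_pair {Y : Type*} {d : ℕ} (𝒵 ℬ : MeasurableSpace Y) [mY : MeasurableSpace Y]
    {m : Measure Y} [IsProbabilityMeasure m] (R : Y ≃ᵐ Y) (hR : Ergodic R m)
    (hk : KronAlg 𝒵 m R) (hgood : Good 𝒵 ℬ m R)
    {Φ Γ : Y → Matrix (Fin d) (Fin d) ℂ} {E : Y → Fin d → ℂ} (hM : IsMod ℬ m R Φ Γ E)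
    (C : ℝ) (hC0 : 0 ≤ C) (hC : ∀ y, ∑ i, ‖E y i‖ ^ 2 ≤ C)
    (f₂ : Y → ℂ) (hf₂ : ModV ℬ m E f₂) (g : Y → ℂ) (hg : BM g) (G : Y → Fin d → ℂ)
    (hG : RowB ℬ G) (hgG : ∀ᵐ y ∂m, g y = G y ⬝ᵥ E y) (T : ℝ) (hT0 : 0 ≤ T)
    (hT : ∀ y, ∑ i, ‖G y i‖ ^ 2 ≤ T ^ 2) (δ : ℝ) (hδ : 0 ≤ δ) (N : ℕ) (hN : 1 ≤ N)
    (hcorr : ∑ n ∈ range N, ∑ j ∈ range N,
      ∫ y, ‖(m[fun x => f₂ (R^[n] x) * conj (f₂ (R^[j] x))|𝒵]) y‖ ∂m ≤ δ * (N : ℝ) ^ 2)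
    (ε' : ℝ) (hε' : 0 < ε') :
    ∃ F0 : Finset ℂ, (1 : ℂ) ∉ F0 ∧ ∀ p q : ℕ, ∀ ρ σ : Measure (Y × Y), IsJoin m R p q ρ →
      RelSq m R p q ρ σ → p ∈ goodPrimes m R F0 → 1 ≤ q →
      NoRoot (DD ℬ (avg σ (Prod.map R R) q) R) (avg σ (Prod.map R R) q) (Prod.map R R) q →
        ‖∫ z, f₂ z.1 * conj (g z.2) ∂σ‖ ^ 2 ≤ C ^ 2 * ((d : ℝ) ^ 2 * T ^ 2 * δ) + ε' := by
  classical
  have hMP : MeasurePreserving R m m := hR.toMeasurePreserving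
  obtain ⟨F, hF, hFΓ, hfF⟩ := ModV.normal ℬ hgood.le hM f₂ hf₂
  obtain ⟨TF, hTF0, hTF⟩ := ev4_row hF
  have haam : ∀ n j, Measurable[ℬ] (aa R Φ F n j) := fun n j =>
    aa_meas ℬ R hgood.inv Φ hM.measΦ hM.unit F hF n j
  have haab : ∀ n j y, ‖aa R Φ F n j y‖ ≤ TF ^ 2 := fun n j y =>
    aa_bound R Φ hM.unit F TF hTF0 hTF n j y
  have hbbm : ∀ n j, Measurable[ℬ] (aa R Φ G n j) := fun n j =>
    aa_meas ℬ R hgood.inv Φ hM.measΦ hM.unit G hG n j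
  have hbbb : ∀ n j y, ‖aa R Φ G n j y‖ ≤ T ^ 2 := fun n j y =>
    aa_bound R Φ hM.unit G T hT0 hT n j y
  have haaB : ∀ n j, BM (aa R Φ F n j) := fun n j =>
    ⟨(haam n j).mono hgood.le le_rfl, TF ^ 2, haab n j⟩
  have hbbB : ∀ n j, BM (fun y => conj (aa R Φ G n j y)) := fun n j =>
    BM.conj ⟨(hbbm n j).mono hgood.le le_rfl, T ^ 2, hbbb n j⟩
  choose a₀ ha₀m ha₀b ha₀e ha₀i using fun n j : ℕ =>
    exists_version 𝒵 m hk.le (aa R Φ F n j) (haaB n j).1 (TF ^ 2) (by positivity)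
      (Eventually.of_forall (haab n j))
  have ha₀B : ∀ n j, BM (a₀ n j) := fun n j =>
    ⟨(ha₀m n j).mono hk.le le_rfl, TF ^ 2, ha₀b n j⟩
  have hη : 0 < ε' / (C ^ 2 + 1) := by positivity
  choose FF hFF1 hFF using fun n j : ℕ =>
    small_J ℬ hR hgood.le hgood.inv hgood.small (fun y => aa R Φ F n j y - a₀ n j y)
      (ev4_sub (haam n j) ((ha₀m n j).mono hgood.kron le_rfl))
      ⟨TF ^ 2 + TF ^ 2, fun y => (norm_sub_le _ _).trans (add_le_add (haab n j y) (ha₀b n j y))⟩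
      (sub_version_orth hk _ _ (haaB n j) (ha₀B n j) (ha₀i n j))
      (fun y => conj (aa R Φ G n j y)) (hbbB n j) ((d : ℝ) ^ 2) (by positivity)
      (ε' / (C ^ 2 + 1)) hη
  refine ⟨(range N ×ˢ range N).biUnion fun t => FF t.1 t.2, ?_, ?_⟩
  · rw [Finset.mem_biUnion]
    rintro ⟨t, _, ht⟩
    exact hFF1 _ _ ht
  intro p q ρ σ hρ hσ hp hq hNR
  have hself := avg_isSelf hMP hq hσ
  have hK : ∀ n ∈ range N, ∀ j ∈ range N, Kills m R (FF n j) (avg σ (Prod.map R R) q) := by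
    intro n hn j hj
    refine avg_kills hMP hσ (FF n j) fun c hc e he => hp.2 c ?_ e he
    rw [Finset.mem_biUnion]
    exact ⟨(n, j), Finset.mem_product.2 ⟨hn, hj⟩, hc⟩
  obtain ⟨J, hJ, hJN⟩ := central_module ℬ R hMP hgood.le hgood.inv hq hσ hNR Φ hM.measΦ hM.unit E
    hM.bmE hM.rel C hC0 hC F G hF hG
  have h1 := hJN N hN
  have hI : ∫ z, f₂ z.1 * conj (g z.2) ∂σ =
      ∫ z, (F z.1 ⬝ᵥ E z.1) * conj (G z.2 ⬝ᵥ E z.2) ∂σ := by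
    have e1 : ∀ᵐ z ∂σ, f₂ z.1 = F z.1 ⬝ᵥ E z.1 := by
      have h2 := hfF
      rw [← hσ.fst] at h2
      exact ae_of_ae_map measurable_fst.aemeasurable h2
    have e2 : ∀ᵐ z ∂σ, g z.2 = G z.2 ⬝ᵥ E z.2 := by
      have h2 := hgG
      rw [← hσ.snd] at h2
      exact ae_of_ae_map measurable_snd.aemeasurable h2
    refine integral_congr_ae ?_
    filter_upwards [e1, e2] with z h2 h3
    rw [h2, h3]
  rw [← hI] at h1
  have hint : ∀ n j, ∫ y, ‖a₀ n j y‖ ∂m =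
      ∫ y, ‖(m[fun x => f₂ (R^[n] x) * conj (f₂ (R^[j] x))|𝒵]) y‖ ∂m := by
    intro n j
    have hn := (hMP.iterate n).quasiMeasurePreserving.ae hfF
    have hj := (hMP.iterate j).quasiMeasurePreserving.ae hfF
    have e0 : (fun y => (F (R^[n] y) ⬝ᵥ E (R^[n] y)) * conj (F (R^[j] y) ⬝ᵥ E (R^[j] y))) =ᵐ[m]
        fun x => f₂ (R^[n] x) * conj (f₂ (R^[j] x)) := by
      filter_upwards [hn, hj] with y h2 h3
      rw [h2, h3]
    have e1 : aa R Φ F n j =ᵐ[m] m[fun x => f₂ (R^[n] x) * conj (f₂ (R^[j] x))|ℬ] :=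
      (aa_condExp ℬ hgood.le hMP hgood.inv hM F hF hFΓ n j).symm.trans (condExp_congr_ae e0)
    have e2 := (ha₀e n j).trans ((condExp_congr_ae e1).trans
      (condExp_condExp_of_le hgood.kron hgood.le))
    refine integral_congr_ae ?_
    filter_upwards [e2] with y h2
    rw [h2]
  have hterm : ∀ n ∈ range N, ∀ j ∈ range N,
      ‖∫ z, J n j z * (aa R Φ F n j z.1 * conj (aa R Φ G n j z.2)) ∂(avg σ (Prod.map R R) q)‖ ≤
      ε' / (C ^ 2 + 1) + (d : ℝ) ^ 2 * T ^ 2 *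
        ∫ y, ‖(m[fun x => f₂ (R^[n] x) * conj (f₂ (R^[j] x))|𝒵]) y‖ ∂m := by
    intro n hn j hj
    have h := ev4_term hself (J n j) (hJ n j).1 ((d : ℝ) ^ 2) (hJ n j).2.1 (aa R Φ F n j) (a₀ n j)
      (fun y => conj (aa R Φ G n j y)) (haaB n j) (ha₀B n j) (hbbB n j) (T ^ 2)
      (fun y => by rw [RCLike.norm_conj]; exact hbbb n j y) _
      (hFF n j _ hself (hK n hn j hj) (J n j) (hJ n j).1 (hJ n j).2.2 (hJ n j).2.1)
    rw [hint n j] at h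
    exact h
  have hsum : ∑ n ∈ range N, ∑ j ∈ range N,
      ‖∫ z, J n j z * (aa R Φ F n j z.1 * conj (aa R Φ G n j z.2)) ∂(avg σ (Prod.map R R) q)‖ ≤
      (N : ℝ) ^ 2 * (ε' / (C ^ 2 + 1) + (d : ℝ) ^ 2 * T ^ 2 * δ) := by
    refine (Finset.sum_le_sum fun n hn => Finset.sum_le_sum fun j hj => hterm n hn j hj).trans ?_
    simp_rw [Finset.sum_add_distrib, ← Finset.mul_sum]
    rw [Finset.sum_const, Finset.sum_const, Finset.card_range, nsmul_eq_mul, nsmul_eq_mul]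
    have h2 := mul_le_mul_of_nonneg_left hcorr
      (show (0 : ℝ) ≤ (d : ℝ) ^ 2 * T ^ 2 by positivity)
    calc (N : ℝ) * (N * (ε' / (C ^ 2 + 1))) + (d : ℝ) ^ 2 * T ^ 2 * _
        ≤ (N : ℝ) * (N * (ε' / (C ^ 2 + 1))) + (d : ℝ) ^ 2 * T ^ 2 * (δ * (N : ℝ) ^ 2) :=
          add_le_add le_rfl h2
      _ = (N : ℝ) ^ 2 * (ε' / (C ^ 2 + 1) + (d : ℝ) ^ 2 * T ^ 2 * δ) := by ring
  have hN0 : (0 : ℝ) < (N : ℝ) ^ 2 := by
    have : (0 : ℝ) < N := by exact_mod_cast hN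
    positivity
  have h3 := h1.trans (mul_le_mul_of_nonneg_left hsum (sq_nonneg C))
  have h4 : C ^ 2 * (ε' / (C ^ 2 + 1)) ≤ ε' := by
    rw [mul_div_assoc', div_le_iff₀ (by positivity)]
    nlinarith
  refine le_of_mul_le_mul_right ?_ hN0
  calc ‖∫ z, f₂ z.1 * conj (g z.2) ∂σ‖ ^ 2 * (N : ℝ) ^ 2
      ≤ C ^ 2 * ((N : ℝ) ^ 2 * (ε' / (C ^ 2 + 1) + (d : ℝ) ^ 2 * T ^ 2 * δ)) := h3
    _ = (C ^ 2 * ((d : ℝ) ^ 2 * T ^ 2 * δ) + C ^ 2 * (ε' / (C ^ 2 + 1))) * (N : ℝ) ^ 2 := by ring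
    _ ≤ (C ^ 2 * ((d : ℝ) ^ 2 * T ^ 2 * δ) + ε') * (N : ℝ) ^ 2 :=
        mul_le_mul_of_nonneg_right (add_le_add le_rfl h4) hN0.le

end Pool.Agent.Lib.H82OT
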