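import Pool.Agent.Lib.H82OT.EV4
import Pool.Agent.Lib.H82OT.EV2
import Pool.Agent.Lib.H82OT.DC6
import Pool.Agent.Lib.H82OT.HT8

/-!
# Project H82OT, chunk EV5: functions of a finite rank module have the property QS
-/

open MeasureTheory Filter Topology Finset ProbabilityTheory
open scoped ENNReal ComplexConjugate Matrix

namespace Pool.Agent.Lib.H82OT

open Pool.Agent.Lib.H22M Pool.Agent.Lib.H82T

/-- Proof. Given `ε`, take `w` for `ε / 4`, and `F0', P0', m0'` from `QS m R w` with `ε / 2`. If `q` is bad for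
`f` and `ε` then `ε < qf σ (f - ∫ f) ≤ qf σ (w - ∫ w) + qf σ ((f - w) - ∫ (f - w))` and the last term is
at most `2 qf σ (f - w)` (`norm_integral_le_qf`), so `ε / 2 < qf σ (w - ∫ w)` or `ε / 4 < qf σ (f - w)`.
Take unions of the finite sets and `m0 + m0'` (compare `QS.add`). -/
theorem QS_of_split {Y : Type*} [MeasurableSpace Y] {m : Measure Y} [IsProbabilityMeasure m]
    {R : Y → Y} (f : Y → ℂ) (hf : BM f)
    (h : ∀ ε : ℝ, 0 < ε → ∃ w : Y → ℂ, BM w ∧ QS m R w ∧ ∃ F0 : Finset ℂ, (1 : ℂ) ∉ F0 ∧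
      ∃ (P0 : Finset ℕ) (m0 : ℕ), ∀ p ∈ goodPrimes m R F0, p ∉ P0 → ∀ Q : Finset ℕ,
        (∀ q ∈ Q, q.Prime ∧ q ≠ p ∧ ∃ ρ σ : Measure (Y × Y), IsJoin m R p q ρ ∧
          RelSq m R p q ρ σ ∧ ε < qf σ (fun y => f y - w y)) → Q.card ≤ m0) : QS m R f := by
  classical
  intro ε hε
  obtain ⟨w, hw, hQw, F0, hF0, P0, m0, h0⟩ := h (ε / 4) (by linarith)
  obtain ⟨F1, hF1, P1, m1, h1⟩ := hQw (ε / 2) (by linarith)
  refine ⟨F0 ∪ F1, by simp [hF0, hF1], P0 ∪ P1, m0 + m1, ?_⟩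
  intro p hp hpP Q hQ
  have hp0 : p ∈ goodPrimes m R F0 :=
    ⟨hp.1, fun c hc => hp.2 c (Finset.mem_union_left _ hc)⟩
  have hp1 : p ∈ goodPrimes m R F1 :=
    ⟨hp.1, fun c hc => hp.2 c (Finset.mem_union_right _ hc)⟩
  have hpP0 : p ∉ P0 := fun h' => hpP (Finset.mem_union_left _ h')
  have hpP1 : p ∉ P1 := fun h' => hpP (Finset.mem_union_right _ h')
  have h2 := h1 p hp1 hpP1 (Q.filter fun q => BadQ m R w (ε / 2) p q) (by
    intro q hq
    rw [Finset.mem_filter] at hq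
    exact ⟨(hQ q hq.1).1, (hQ q hq.1).2.1, hq.2⟩)
  have h3 := h0 p hp0 hpP0 (Q.filter fun q => ¬ BadQ m R w (ε / 2) p q) (by
    intro q hq
    rw [Finset.mem_filter] at hq
    obtain ⟨hq1, hq2⟩ := hq
    obtain ⟨hqp, hqne, ρ, σ, hρ, hσ, hb⟩ := hQ q hq1
    refine ⟨hqp, hqne, ρ, σ, hρ, hσ, ?_⟩
    have h4 : qf σ (fun y => w y - ∫ x, w x ∂m) ≤ ε / 2 := by
      by_contra hcon
      exact hq2 ⟨ρ, σ, hρ, hσ, not_le.mp hcon⟩
    have hfw : BM (fun y => f y - w y) := hf.sub hw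
    have h5 : (fun y => f y - ∫ x, f x ∂m) = fun y => (w y - ∫ x, w x ∂m) +
        ((f y - w y) + (-(∫ x, (f x - w x) ∂m))) := by
      funext y
      rw [integral_sub hf.integrable hw.integrable]
      ring
    have h6 : qf σ (fun y => (w y - ∫ x, w x ∂m) +
        ((f y - w y) + (-(∫ x, (f x - w x) ∂m)))) ≤ qf σ (fun y => w y - ∫ x, w x ∂m) +
        qf σ (fun y => (f y - w y) + (-(∫ x, (f x - w x) ∂m))) :=
      hσ.add _ _ (hw.sub (BM.const _)) (hfw.add (BM.const _))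
    have h7 : qf σ (fun y => (f y - w y) + (-(∫ x, (f x - w x) ∂m))) ≤
        qf σ (fun y => f y - w y) + qf σ (fun _ => -(∫ x, (f x - w x) ∂m)) :=
      hσ.add _ _ hfw (BM.const _)
    have h8 : qf σ (fun _ => -(∫ x, (f x - w x) ∂m)) ≤ ‖∫ x, (f x - w x) ∂m‖ := by
      have h9 := hσ.le_l2 (fun _ => -(∫ x, (f x - w x) ∂m)) (BM.const _)
      rwa [l2_const, norm_neg] at h9
    have h9 := norm_integral_le_qf hρ hσ _ hfw
    rw [h5] at hb
    linarith)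
  have h4 := Finset.card_filter_add_card_filter_not (s := Q) (fun q => BadQ m R w (ε / 2) p q)
  omega

private theorem ev5_bound {Y : Type*} [MeasurableSpace Y] (f : Y → ℂ) (hf : BM f) :
    ∃ C : ℝ, 0 < C ∧ ∀ y, ‖f y‖ ≤ C := by
  obtain ⟨-, C, hC⟩ := hf
  exact ⟨max C 1, lt_max_of_lt_right one_pos, fun y => (hC y).trans (le_max_left _ _)⟩

private theorem ev5_rowBound {Y : Type*} {d : ℕ} [MeasurableSpace Y] (E : Y → Fin d → ℂ)
    (hE : ∀ i, BM fun y => E y i) : ∃ C : ℝ, 0 ≤ C ∧ ∀ y, ∑ i, ‖E y i‖ ^ 2 ≤ C := by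
  choose hm C hC using hE
  refine ⟨∑ i, C i ^ 2, Finset.sum_nonneg fun i _ => sq_nonneg _, fun y => ?_⟩
  exact Finset.sum_le_sum fun i _ => pow_le_pow_left₀ (norm_nonneg _) (hC i y) 2

private theorem ev5_rowBound' {Y : Type*} {d : ℕ} {ℬ : MeasurableSpace Y} (G : Y → Fin d → ℂ)
    (hG : RowB ℬ G) : ∃ T : ℝ, 0 ≤ T ∧ ∀ y, ∑ i, ‖G y i‖ ^ 2 ≤ T ^ 2 := by
  obtain ⟨-, C, hC⟩ := hG
  refine ⟨Real.sqrt (d * C ^ 2), Real.sqrt_nonneg _, fun y => ?_⟩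
  rw [Real.sq_sqrt (by positivity)]
  calc ∑ i, ‖G y i‖ ^ 2 ≤ ∑ _i : Fin d, C ^ 2 :=
        Finset.sum_le_sum fun i _ => pow_le_pow_left₀ (norm_nonneg _) (hC y i) 2
    _ = d * C ^ 2 := by simp

private theorem ev5_delta (A e : ℝ) (hA : 0 ≤ A) (he : 0 < e) : ∃ δ : ℝ, 0 < δ ∧ A * δ ≤ e := by
  refine ⟨e / (A + 1), by positivity, ?_⟩
  rw [mul_div_assoc', div_le_iff₀ (by positivity)]
  nlinarith

private theorem ev5_sub {Y : Type*} {𝒵 : MeasurableSpace Y} [mY : MeasurableSpace Y]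
    {m : Measure Y} {R : Y → Y} {V : (Y → ℂ) → Prop} (hV : VClass 𝒵 m R V) (f w : Y → ℂ)
    (hf : V f) (hw : V w) : V (fun y => f y - w y) := by
  have h1 := hV.add f (fun y => (-1) * w y) hf (hV.smul (-1) w hw)
  have h2 : (fun y => f y + (-1) * w y) = fun y => f y - w y := by
    funext y
    ring
  rwa [h2] at h1

private theorem ev5_qf {Y : Type*} [MeasurableSpace Y] {m : Measure Y} {R : Y → Y} {p q : ℕ}
    {ρ σ : Measure (Y × Y)} (hσ : RelSq m R p q ρ σ) (u g : Y → ℂ) (hu : BM u) (hg : BM g) :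
    qf σ u ^ 2 ≤ ‖∫ z, u z.1 * conj (g z.2) ∂σ‖ + l2 m u * l2 m (fun y => u y - g y) := by
  have := hσ.prob
  have hug : BM (fun y => u y - g y) := hu.sub hg
  have h1 := hσ.sq u hu
  have h2 : ∫ z, u z.1 * conj (u z.2) ∂σ = ∫ z, u z.1 * conj (g z.2) ∂σ +
      ∫ z, u z.1 * conj (u z.2 - g z.2) ∂σ := by
    rw [← integral_add]
    · refine integral_congr_ae (Eventually.of_forall fun z => ?_)
      simp only [map_sub]
      ring
    · exact ((hu.comp measurable_fst).mul (hg.comp measurable_snd).conj).integrable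
    · exact ((hu.comp measurable_fst).mul (hug.comp measurable_snd).conj).integrable
  have h3 : ‖∫ z, u z.1 * conj (u z.2 - g z.2) ∂σ‖ ≤ l2 m u * l2 m (fun y => u y - g y) := by
    have h4 := norm_integral_mul_conj_le (m := σ) (hu.comp measurable_fst)
      (hug.comp measurable_snd)
    have h5 : l2 σ (fun z => u z.1) = l2 m u := by
      have h6 := l2_map (ρ := σ) measurable_fst hu.1
      rw [hσ.fst] at h6
      exact h6.symm
    have h7 : l2 σ (fun z => u z.2 - g z.2) = l2 m (fun y => u y - g y) := by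
      have h6 := l2_map (ρ := σ) measurable_snd hug.1
      rw [hσ.snd] at h6
      exact h6.symm
    rw [h5, h7] at h4
    exact h4
  have h4 : qf σ u ^ 2 = ‖∫ z, u z.1 * conj (u z.2) ∂σ‖ := by
    rw [h1, Complex.norm_real, Real.norm_of_nonneg (by positivity)]
  rw [h4, h2]
  exact (norm_add_le _ _).trans (by linarith)

/-- Proof. `QS_of_split`. Let `C > 0` be larger than the bound of `f` and `C_E > 0` with
`∑ ‖E y i‖² ≤ C_E`. Given `ε`, apply `exists_decomp` (DC6) with `V = ModV ℬ m E` (`modV_class`) and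
`d₁ = ε² / (4 C)`: `w₁`, `g = f - w₁` in `ModV` (`AP.mem`, `VClass.add`, `smul`) with row `G`, choose
`T > 0` with `∑ ‖G y i‖² ≤ T²`; `δ` with `C_E² d² T² δ ≤ ε⁴ / 16`; `w₂, N`; `f₂ = f - w₂` in `ModV`; `F0` from
`mod_pair` with `ε' = ε⁴ / 16`; `M₀, P0` from `hgood.noRoot`; `m0 = M₀ + 1`. `QS m R w₂` by `QS_AP`. For
`q > M₀`: `qf σ f₂² = ∫ f₂(z.1) conj (f₂ z.2) dσ ≤ ‖∫ f₂(z.1) conj (g z.2) dσ‖ + l2 m f₂ * l2 m (f₂ - g)`
(`RelSq.sq`; Cauchy-Schwarz in `L²(σ)` and the marginals; `f₂ - g = w₁ - w₂`)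
`≤ (ε⁴ / 8)^(1/2) + C ε² / (4 C) < ε²`. So the bad `q` are at most `M₀` and their number is at most
`M₀ + 1`. -/
theorem QS_mod {Y : Type*} {d : ℕ} (𝒵 ℬ : MeasurableSpace Y) [mY : MeasurableSpace Y]
    [StandardBorelSpace Y] {m : Measure Y} [IsProbabilityMeasure m] (R : Y ≃ᵐ Y)
    (hR : Ergodic R m) (hk : KronAlg 𝒵 m R) (hgood : Good 𝒵 ℬ m R)
    {Φ Γ : Y → Matrix (Fin d) (Fin d) ℂ} {E : Y → Fin d → ℂ} (hM : IsMod ℬ m R Φ Γ E)
    (f : Y → ℂ) (hf : ModV ℬ m E f) : QS m R f := by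
  have hRm : MeasurePreserving R m m := hR.toMeasurePreserving
  have hV : VClass 𝒵 m R (ModV ℬ m E) := modV_class 𝒵 ℬ hgood.kron hgood.le hRm hgood.inv hM
  obtain ⟨C, hC0, hC⟩ := ev5_bound f hf.1
  obtain ⟨CE, hCE0, hCE⟩ := ev5_rowBound E hM.bmE
  refine QS_of_split f hf.1 fun ε hε => ?_
  obtain ⟨w₁, hw₁, hdec⟩ := exists_decomp m hk.le R hRm hk.inv hV f hf C hC0 hC
    (ε ^ 2 / (4 * C)) (by positivity)
  have hw₁V : ModV ℬ m E w₁ := AP.mem m hk.le hV f w₁ hf hw₁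
  have hgV : ModV ℬ m E (fun y => f y - w₁ y) := ev5_sub hV f w₁ hf hw₁V
  obtain ⟨G, hG, hgG⟩ := hgV.2
  obtain ⟨T, hT0, hT⟩ := ev5_rowBound' G hG
  obtain ⟨δ, hδ0, hδ⟩ := ev5_delta (CE ^ 2 * ((d : ℝ) ^ 2 * T ^ 2)) (ε ^ 4 / 16)
    (by positivity) (by positivity)
  obtain ⟨w₂, hw₂, hw12, hfw2, N, hN, hcorr⟩ := hdec δ hδ0
  have hw₂V : ModV ℬ m E w₂ := AP.mem m hk.le hV f w₂ hf hw₂
  have hf₂V : ModV ℬ m E (fun y => f y - w₂ y) := ev5_sub hV f w₂ hf hw₂V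
  obtain ⟨F0, hF0, hpair⟩ := mod_pair 𝒵 ℬ R hR hk hgood hM CE hCE0 hCE (fun y => f y - w₂ y) hf₂V
    (fun y => f y - w₁ y) hgV.1 G hG hgG T hT0 hT δ hδ0.le N hN hcorr (ε ^ 4 / 16) (by positivity)
  obtain ⟨M₀, P0, hroot⟩ := hgood.noRoot
  refine ⟨w₂, hw₂V.1, QS_AP m hk.le R hR hk _ w₂ hw₂, F0, hF0, P0, M₀ + 1, ?_⟩
  intro p hp hpP Q hQ
  have hsub : Q ⊆ Finset.range (M₀ + 1) := by
    intro q hq
    obtain ⟨hqp, hqne, ρ, σ, hρ, hσ, hb⟩ := hQ q hq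
    rw [Finset.mem_range]
    by_contra hcon
    have hM0 : M₀ < q := by omega
    have h1 := hpair p q ρ σ hρ hσ hp hqp.one_lt.le
      (hroot p q hp.1 hpP hqp hqne hM0 ρ σ hρ hσ)
    have h2 := ev5_qf hσ (fun y => f y - w₂ y) (fun y => f y - w₁ y) hf₂V.1 hgV.1
    have h3 : l2 m (fun y => (f y - w₂ y) - (f y - w₁ y)) ≤ ε ^ 2 / (4 * C) := by
      have h4 : (fun y => (f y - w₂ y) - (f y - w₁ y)) = fun y => w₁ y - w₂ y := by
        funext y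
        ring
      rw [h4]
      exact hw12
    have h5 : l2 m (fun y => f y - w₂ y) * l2 m (fun y => (f y - w₂ y) - (f y - w₁ y)) ≤
        C * (ε ^ 2 / (4 * C)) :=
      mul_le_mul hfw2 h3 (l2_nonneg _ _) hC0.le
    have h6 : C * (ε ^ 2 / (4 * C)) = ε ^ 2 / 4 := by
      field_simp
    have h7 : ‖∫ z, (f z.1 - w₂ z.1) * conj (f z.2 - w₁ z.2) ∂σ‖ ≤ ε ^ 2 / 2 := by
      refine abs_le_of_sq_le_sq' ?_ (by positivity) |>.2
      have h8 : CE ^ 2 * ((d : ℝ) ^ 2 * T ^ 2 * δ) = CE ^ 2 * ((d : ℝ) ^ 2 * T ^ 2) * δ := by ring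
      rw [h8] at h1
      have h9 : (ε ^ 2 / 2) ^ 2 = ε ^ 4 / 4 := by ring
      have h10 : 0 < ε ^ 4 := by positivity
      rw [h9]
      refine h1.trans ?_
      linarith
    have h8 : qf σ (fun y => f y - w₂ y) ^ 2 ≤ 3 * ε ^ 2 / 4 := by
      rw [h6] at h5
      linarith
    have h9 : ε ^ 2 < qf σ (fun y => f y - w₂ y) ^ 2 := by
      exact pow_lt_pow_left₀ hb hε.le (by norm_num)
    have h10 : 0 < ε ^ 2 := by positivity
    linarith
  have h1 := Finset.card_le_card hsub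
  rwa [Finset.card_range] at h1

end Pool.Agent.Lib.H82OT
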