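import Pool.Agent.Lib.H82OT.Defs

/-!
# Project H82OT, chunk FL1: roots of unity of different prime orders are independent
-/

open MeasureTheory Filter Topology Finset ProbabilityTheory
open scoped ENNReal ComplexConjugate Matrix

namespace Pool.Agent.Lib.H82OT

open Pool.Agent.Lib.H22M Pool.Agent.Lib.H82T

/-- Proof. Let `n = ∏_{r ∈ s} r` (squarefree, coprime to `p`) and `ζ_n` a primitive `n`-th root of unity
(`Complex.isPrimitiveRoot_exp`). Every `z r` is a power of `ζ_n` (`IsPrimitiveRoot.eq_pow_of_pow_eq_one`, since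
`(z r)^n = 1`), so `ℚ⟮z '' s⟯ ≤ ℚ⟮ζ_n⟯`, of degree `φ(n)` (`IsPrimitiveRoot.minpoly_eq_cyclotomic_of_irreducible`
/ `Polynomial.cyclotomic_eq_minpoly_rat`, `IntermediateField.adjoin.finrank`,
`Polynomial.natDegree_cyclotomic`). If `w` were in it, then `w * ζ_n`, a primitive root of order `p n`
(`IsPrimitiveRoot` of coprime orders: `IsPrimitiveRoot.mul_of_coprime`-like, or `orderOf_mul...`), would be in
it, with minimal polynomial of degree `φ(p n) = (p - 1) φ(n) ≥ 2 φ(n)`; but the degree of an element divides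
(is at most) the degree of the field. Contradiction as `p ≥ 3`. -/
theorem notMem_adjoin (s : Finset ℕ) (hs : ∀ r ∈ s, r.Prime) (z : ℕ → ℂ)
    (hz : ∀ r ∈ s, IsPrimitiveRoot (z r) r) (p : ℕ) (hp : p.Prime) (hp2 : p ≠ 2) (hps : p ∉ s)
    (w : ℂ) (hw : IsPrimitiveRoot w p) :
    w ∉ IntermediateField.adjoin ℚ (z '' (s : Set ℕ)) := by
  intro hmem
  obtain ⟨n, hn⟩ : ∃ n : ℕ, n = ∏ r ∈ s, r := ⟨_, rfl⟩
  have hn0 : 0 < n := by
    rw [hn]
    exact Finset.prod_pos fun r hr => (hs r hr).pos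
  have hcop : Nat.Coprime p n := by
    rw [hn]
    refine Nat.Coprime.prod_right fun r hr => ?_
    rw [Nat.coprime_primes hp (hs r hr)]
    rintro rfl
    exact hps hr
  obtain ⟨ζ, hζ⟩ : ∃ ζ : ℂ, IsPrimitiveRoot ζ n := ⟨_, Complex.isPrimitiveRoot_exp n hn0.ne'⟩
  have hζi : IsIntegral ℚ ζ := (hζ.isIntegral hn0).tower_top
  have hle : IntermediateField.adjoin ℚ (z '' (s : Set ℕ)) ≤
      IntermediateField.adjoin ℚ ({ζ} : Set ℂ) := by
    rw [IntermediateField.adjoin_le_iff]
    rintro _ ⟨r, hr, rfl⟩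
    have hr' : r ∈ s := hr
    have h1 : z r ^ n = 1 := by
      have h2 : r ∣ n := by
        rw [hn]
        exact Finset.dvd_prod_of_mem _ hr'
      obtain ⟨c, hc⟩ := h2
      rw [hc, pow_mul, (hz r hr').pow_eq_one, one_pow]
    haveI : NeZero n := ⟨hn0.ne'⟩
    obtain ⟨i, -, hi⟩ := hζ.eq_pow_of_pow_eq_one h1
    rw [← hi]
    exact pow_mem (IntermediateField.mem_adjoin_simple_self ℚ ζ) i
  have hw1 : w ∈ IntermediateField.adjoin ℚ ({ζ} : Set ℂ) := hle hmem
  have hw2 : w * ζ ∈ IntermediateField.adjoin ℚ ({ζ} : Set ℂ) :=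
    mul_mem hw1 (IntermediateField.mem_adjoin_simple_self ℚ ζ)
  have hord : orderOf (w * ζ) = p * n := by
    rw [(Commute.all w ζ).orderOf_mul_eq_mul_orderOf_of_coprime, ← hw.eq_orderOf, ← hζ.eq_orderOf]
    rw [← hw.eq_orderOf, ← hζ.eq_orderOf]
    exact hcop
  have hprim : IsPrimitiveRoot (w * ζ) (p * n) := by
    rw [← hord]
    exact IsPrimitiveRoot.orderOf _
  have hpn : 0 < p * n := Nat.mul_pos hp.pos hn0
  have hi2 : IsIntegral ℚ (w * ζ) := (hprim.isIntegral hpn).tower_top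
  haveI : FiniteDimensional ℚ (IntermediateField.adjoin ℚ ({ζ} : Set ℂ)) :=
    IntermediateField.adjoin.finiteDimensional hζi
  have hle2 : IntermediateField.adjoin ℚ ({w * ζ} : Set ℂ) ≤
      IntermediateField.adjoin ℚ ({ζ} : Set ℂ) := by
    rw [IntermediateField.adjoin_le_iff]
    rintro _ rfl
    exact hw2
  have hdim := IntermediateField.finrank_le_of_le_right hle2
  rw [IntermediateField.adjoin.finrank hi2, IntermediateField.adjoin.finrank hζi,
    ← Polynomial.cyclotomic_eq_minpoly_rat hprim hpn, ← Polynomial.cyclotomic_eq_minpoly_rat hζ hn0,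
    Polynomial.natDegree_cyclotomic, Polynomial.natDegree_cyclotomic, Nat.totient_mul hcop,
    Nat.totient_prime hp] at hdim
  have h3 : 0 < n.totient := Nat.totient_pos.2 hn0
  have h4 : 3 ≤ p := by
    have := hp.two_le
    omega
  have h5 : 2 * n.totient ≤ (p - 1) * n.totient := Nat.mul_le_mul_right _ (by omega)
  omega

end Pool.Agent.Lib.H82OT
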