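import Pool.Agent.Lib.H82OT.FL1

/-!
# Project H82OT, chunk FL2: a determinant
-/

open MeasureTheory Filter Topology Finset ProbabilityTheory
open scoped ENNReal ComplexConjugate Matrix

namespace Pool.Agent.Lib.H82OT

open Pool.Agent.Lib.H22M Pool.Agent.Lib.H82T

private theorem FL2_det_mem {k : ℕ} (K : IntermediateField ℚ ℂ) (M : Matrix (Fin k) (Fin k) ℂ)
    (hM : ∀ i j, M i j ∈ K) : M.det ∈ K := by
  rw [Matrix.det_apply]
  refine sum_mem fun σ _ => ?_
  rw [Units.smul_def]
  exact zsmul_mem (prod_mem fun i _ => hM _ _) _

/-- Proof. Replace the rows `C j` by `B j - z j A j` one by one: let `D_i` be the determinant of the matrix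
whose rows `j < i` are `B j - z j A j` and whose rows `j ≥ i` are `C j`. `D_0 ≠ 0` (the rational determinant
cast to `ℂ`). The determinant is linear in row `i` (`Matrix.det_updateRow_add`, `det_updateRow_smul`):
`D_{i+1} = D_B - z i D_A`, where `D_A, D_B` are the determinants with the row `i` of `D_i` replaced by `A i`,
`B i`; one of the two is `D_i ≠ 0`, and both are in the field `ℚ(z 0, …, z (i-1))` (determinants of matrices
with entries in the field: `Matrix.det_apply`, `sum_mem`, `prod_mem`). If `D_{i+1} = 0` then, if
`D_A ≠ 0`, `z i = D_B / D_A` is in the field, contradiction to `notMem_adjoin` (FL1; with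
`s = {p j | j < i}` and the function `ℕ → ℂ` sending `p j` to `z j`), and if `D_A = 0` then
`D_B ≠ 0` and `D_{i+1} = D_B ≠ 0`. -/
theorem det_ne_zero_of_transversal {k : ℕ} (p : Fin k → ℕ) (hpi : Function.Injective p)
    (hp : ∀ j, (p j).Prime ∧ p j ≠ 2) (z : Fin k → ℂ) (hz : ∀ j, IsPrimitiveRoot (z j) (p j))
    (A B C : Matrix (Fin k) (Fin k) ℚ) (hC : ∀ j, C j = A j ∨ C j = B j) (hdet : C.det ≠ 0) :
    (Matrix.of fun j l => (B j l : ℂ) - z j * (A j l : ℂ)).det ≠ 0 := by
  classical
  set M : ℕ → Matrix (Fin k) (Fin k) ℂ := fun i => Matrix.of fun j l =>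
    if (j : ℕ) < i then (B j l : ℂ) - z j * (A j l : ℂ) else (C j l : ℂ) with hMdef
  have key : ∀ i : ℕ, i ≤ k → (M i).det ≠ 0 := by
    intro i
    induction i with
    | zero =>
      intro _
      have h0 : M 0 = C.map (algebraMap ℚ ℂ) := by
        ext j l
        simp [hMdef]
      rw [h0, ← RingHom.mapMatrix_apply, ← RingHom.map_det]
      simpa using hdet
    | succ i ih =>
      intro hi
      have hik : i < k := hi
      have ih' := ih hik.le
      set r : Fin k := ⟨i, hik⟩ with hr
      set DA := ((M i).updateRow r (fun l => (A r l : ℂ))).det with hDA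
      set DB := ((M i).updateRow r (fun l => (B r l : ℂ))).det with hDB
      have hstep : M (i + 1) = (M i).updateRow r
          ((fun l => (B r l : ℂ)) + (-z r) • (fun l => (A r l : ℂ))) := by
        ext j l
        by_cases hj : j = r
        · rw [hj, Matrix.updateRow_self]
          simp only [hMdef, Matrix.of_apply, Pi.add_apply, Pi.smul_apply, smul_eq_mul]
          rw [if_pos (by rw [hr]; exact Nat.lt_succ_self i)]
          ring
        · rw [Matrix.updateRow_ne hj]
          simp only [hMdef, Matrix.of_apply]
          have hne : (j : ℕ) ≠ i := fun h => hj (Fin.ext h)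
          by_cases h1 : (j : ℕ) < i
          · rw [if_pos h1, if_pos (by omega)]
          · rw [if_neg h1, if_neg (by omega)]
      have hdet' : (M (i + 1)).det = DB - z r * DA := by
        rw [hstep, Matrix.det_updateRow_add, Matrix.det_updateRow_smul]
        ring
      have hMi : (M i).det = ((M i).updateRow r (fun l => (C r l : ℂ))).det := by
        congr 1
        ext j l
        by_cases hj : j = r
        · rw [hj, Matrix.updateRow_self]
          simp only [hMdef, Matrix.of_apply]
          rw [if_neg (by rw [hr]; exact lt_irrefl i)]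
        · rw [Matrix.updateRow_ne hj]
      have hcase : (M i).det = DA ∨ (M i).det = DB := by
        rcases hC r with h | h
        · left
          rw [hMi, h]
        · right
          rw [hMi, h]
      rw [hdet']
      intro hzero
      set s : Finset ℕ := (Finset.univ.filter (fun j : Fin k => (j : ℕ) < i)).image p with hs
      set zz : ℕ → ℂ := Function.extend p z 0 with hzz
      have hzzp : ∀ j, zz (p j) = z j := fun j => hpi.extend_apply z 0 j
      set K := IntermediateField.adjoin ℚ (zz '' (s : Set ℕ)) with hK
      have hzK : ∀ j : Fin k, (j : ℕ) < i → z j ∈ K := by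
        intro j hj
        rw [← hzzp j]
        refine IntermediateField.subset_adjoin ℚ _ ⟨p j, ?_, rfl⟩
        rw [hs]
        exact Finset.mem_coe.mpr (Finset.mem_image_of_mem p (Finset.mem_filter.mpr ⟨Finset.mem_univ _, hj⟩))
      have hq : ∀ q : ℚ, (q : ℂ) ∈ K := fun q => K.algebraMap_mem q
      have hent : ∀ (v : Fin k → ℚ) (j l : Fin k),
          ((M i).updateRow r (fun l => (v l : ℂ))) j l ∈ K := by
        intro v j l
        by_cases hj : j = r
        · rw [hj, Matrix.updateRow_self]
          exact hq _
        · rw [Matrix.updateRow_ne hj]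
          simp only [hMdef, Matrix.of_apply]
          by_cases h1 : (j : ℕ) < i
          · rw [if_pos h1]
            exact sub_mem (hq _) (mul_mem (hzK j h1) (hq _))
          · rw [if_neg h1]
            exact hq _
      have hDAK : DA ∈ K := FL2_det_mem K _ (hent (A r))
      have hDBK : DB ∈ K := FL2_det_mem K _ (hent (B r))
      by_cases hA : DA = 0
      · rw [hA, mul_zero, sub_zero] at hzero
        rcases hcase with h | h
        · exact ih' (h.trans hA)
        · exact ih' (h.trans hzero)
      · have hzr : z r = DB / DA := by
          rw [eq_div_iff hA]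
          exact (sub_eq_zero.mp hzero).symm
        have hmem : z r ∈ K := by
          rw [hzr]
          exact div_mem hDBK hDAK
        refine notMem_adjoin s ?_ zz ?_ (p r) (hp r).1 (hp r).2 ?_ (z r) (hz r) hmem
        · intro q hq'
          rw [hs, Finset.mem_image] at hq'
          obtain ⟨j, _, rfl⟩ := hq'
          exact (hp j).1
        · intro q hq'
          rw [hs, Finset.mem_image] at hq'
          obtain ⟨j, _, rfl⟩ := hq'
          rw [hzzp]
          exact hz j
        · intro hmem'
          rw [hs, Finset.mem_image] at hmem'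
          obtain ⟨j, hj, hjr⟩ := hmem'
          have hjr' := hpi hjr
          rw [hjr', hr] at hj
          exact lt_irrefl i (Finset.mem_filter.mp hj).2
  have hfin := key k le_rfl
  have hlast : M k = Matrix.of fun j l => (B j l : ℂ) - z j * (A j l : ℂ) := by
    ext j l
    simp only [hMdef, Matrix.of_apply]
    rw [if_pos j.isLt]
  rw [← hlast]
  exact hfin

end Pool.Agent.Lib.H82OT
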