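import Pool.Agent.Lib.H82OT.FL2

/-!
# Project H82OT, chunk FL3: the ratio lemma
-/

open MeasureTheory Filter Topology Finset ProbabilityTheory
open scoped ENNReal ComplexConjugate Matrix

namespace Pool.Agent.Lib.H82OT

open Pool.Agent.Lib.H22M Pool.Agent.Lib.H82T

/-- Greedy choice. Proof. Induction on `j ≤ k`: there are distinct `p_1, …, p_j` in `PP` and
`t_i ∈ {x (p_i), z (p_i) x (p_i)}` linearly independent over `ℚ`. Step: `V_j = span (t_1, …, t_j)` has
dimension `j < k`; by `hind` the set of the `p ∈ PP` with `x p, z p * x p ∈ V_j` has at most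
`j (j - 1) / 2` elements, so with the `j` used primes at most `j (j + 1) / 2 ≤ k (k - 1) / 2 < PP.card`;
choose another `p`, for which one of `x p, z p * x p` is not in `V_j`. -/
theorem exists_transversal (k : ℕ) (V : Submodule ℚ ℂ) (hV : Module.finrank ℚ V = k)
    (hfin : FiniteDimensional ℚ V) (PP : Finset ℕ) (x z : ℕ → ℂ)
    (hx : ∀ p ∈ PP, x p ∈ V ∧ x p ≠ 0 ∧ z p * x p ∈ V)
    (hcard : k * (k - 1) / 2 < PP.card)
    (hind : ∀ j < k, ∀ V' : Submodule ℚ ℂ, FiniteDimensional ℚ V' → Module.finrank ℚ V' = j →
      ∀ PP' : Finset ℕ, PP' ⊆ PP → (∀ p ∈ PP', x p ∈ V' ∧ z p * x p ∈ V') →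
        PP'.card ≤ j * (j - 1) / 2) :
    ∃ (p : Fin k → ℕ) (t : Fin k → ℂ), Function.Injective p ∧ (∀ j, p j ∈ PP) ∧
      (∀ j, t j = x (p j) ∨ t j = z (p j) * x (p j)) ∧ LinearIndependent ℚ t := by
  classical
  have key : ∀ j : ℕ, j ≤ k → ∃ (p : Fin j → ℕ) (t : Fin j → ℂ), Function.Injective p ∧
      (∀ i, p i ∈ PP) ∧ (∀ i, t i = x (p i) ∨ t i = z (p i) * x (p i)) ∧
      LinearIndependent ℚ t := by
    intro j
    induction j with
    | zero =>
      intro _
      exact ⟨fun i => i.elim0, fun i => i.elim0, fun i => i.elim0, fun i => i.elim0,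
        fun i => i.elim0, linearIndependent_empty_type⟩
    | succ j ih =>
      intro hj
      obtain ⟨p, t, hpi, hpP, htx, hli⟩ := ih (by omega)
      have hfin' : FiniteDimensional ℚ (Submodule.span ℚ (Set.range t)) :=
        FiniteDimensional.span_of_finite ℚ (Set.finite_range t)
      have hrk : Module.finrank ℚ (Submodule.span ℚ (Set.range t)) = j := by
        rw [finrank_span_eq_card hli, Fintype.card_fin]
      have h1 := hind j (by omega) (Submodule.span ℚ (Set.range t)) hfin' hrk
        (PP.filter fun q => x q ∈ Submodule.span ℚ (Set.range t) ∧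
          z q * x q ∈ Submodule.span ℚ (Set.range t)) (Finset.filter_subset _ _)
        (fun q hq => (Finset.mem_filter.1 hq).2)
      have h2 : (Finset.univ.image p).card ≤ j := by
        refine Finset.card_image_le.trans ?_
        rw [Finset.card_univ, Fintype.card_fin]
      have h3 : j * (j - 1) / 2 + j ≤ k * (k - 1) / 2 := by
        have h4 : j * (j - 1) / 2 + j = (j * (j - 1) + j * 2) / 2 := by
          rw [Nat.add_mul_div_right _ _ (by norm_num)]
        rw [h4]
        refine Nat.div_le_div_right ?_
        have h5 : j * (j - 1) + j * 2 = (j + 1) * j := by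
          rcases j with _ | j
          · rfl
          · rw [Nat.add_sub_cancel]
            ring
        rw [h5]
        exact Nat.mul_le_mul hj (by omega)
      have h6 : ∃ q ∈ PP, q ∉ (PP.filter fun q => x q ∈ Submodule.span ℚ (Set.range t) ∧
          z q * x q ∈ Submodule.span ℚ (Set.range t)) ∪ Finset.univ.image p := by
        by_contra hcon
        push Not at hcon
        have h7 := Finset.card_le_card (fun q hq => hcon q hq)
        have h8 := Finset.card_union_le (PP.filter fun q =>
          x q ∈ Submodule.span ℚ (Set.range t) ∧ z q * x q ∈ Submodule.span ℚ (Set.range t))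
          (Finset.univ.image p)
        omega
      obtain ⟨q, hqP, hq⟩ := h6
      rw [Finset.mem_union, not_or, Finset.mem_filter] at hq
      obtain ⟨hq1, hq2⟩ := hq
      have hq3 : q ∉ Set.range p := by
        rintro ⟨i, hi⟩
        exact hq2 (Finset.mem_image.2 ⟨i, Finset.mem_univ _, hi⟩)
      have hq4 : ∃ s : ℂ, (s = x q ∨ s = z q * x q) ∧ s ∉ Submodule.span ℚ (Set.range t) := by
        by_cases hxq : x q ∈ Submodule.span ℚ (Set.range t)
        · exact ⟨z q * x q, Or.inr rfl, fun h => hq1 ⟨hqP, hxq, h⟩⟩
        · exact ⟨x q, Or.inl rfl, hxq⟩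
      obtain ⟨s, hs, hsn⟩ := hq4
      refine ⟨Fin.cons q p, Fin.cons s t, Fin.cons_injective_iff.2 ⟨hq3, hpi⟩, ?_, ?_,
        linearIndependent_fin_cons.2 ⟨hli, hsn⟩⟩
      · intro i
        refine Fin.cases ?_ (fun i => ?_) i
        · rw [Fin.cons_zero]
          exact hqP
        · rw [Fin.cons_succ]
          exact hpP i
      · intro i
        refine Fin.cases ?_ (fun i => ?_) i
        · rw [Fin.cons_zero, Fin.cons_zero]
          exact hs
        · rw [Fin.cons_succ, Fin.cons_succ]
          exact htx i
  exact key k le_rfl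

/-- Proof. Strong induction on `k` with `exists_transversal`. If `PP.card > k (k-1)/2`, take `p, t`; `t` is a
basis of `V` (all `t j` are in `V`, `k` independent vectors). Write `x (p j) = ∑_l A j l • t l`,
`z (p j) x (p j) = ∑_l B j l • t l` with rational `A, B`; `t j` has the coordinate row `C j = e_j`,
which is `A j` or `B j`, and `C = 1`, `det = 1`. The vector `(t l)_l ∈ ℂ^k` is in the kernel of the matrix
`B j l - z j A j l`, whose determinant is not `0` (`det_ne_zero_of_transversal`), so `t = 0`
(`Matrix.eq_zero_of_mulVec_eq_zero`), impossible for `k ≥ 1` (independent vectors are not `0`); for `k = 0`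
`V = ⊥`, but `x p ≠ 0`, so `PP` is empty. -/
theorem ratio_lemma (k : ℕ) : ∀ (V : Submodule ℚ ℂ), FiniteDimensional ℚ V →
    Module.finrank ℚ V = k → ∀ (PP : Finset ℕ) (x z : ℕ → ℂ),
      (∀ p ∈ PP, p.Prime ∧ p ≠ 2 ∧ IsPrimitiveRoot (z p) p ∧ x p ∈ V ∧ x p ≠ 0 ∧
        z p * x p ∈ V) → PP.card ≤ k * (k - 1) / 2 := by
  classical
  induction k using Nat.strong_induction_on with
  | _ k ih =>
    intro V hfin hV PP x z hall
    by_contra hlt
    push Not at hlt
    obtain ⟨p, t, hpi, hpP, htx, hli⟩ := exists_transversal k V hV hfin PP x z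
      (fun p hp => ⟨(hall p hp).2.2.2.1, (hall p hp).2.2.2.2.1, (hall p hp).2.2.2.2.2⟩) hlt
      (fun j hj V' hfin' hV' PP' hsub h => ih j hj V' hfin' hV' PP' x z fun p hp =>
        ⟨(hall p (hsub hp)).1, (hall p (hsub hp)).2.1, (hall p (hsub hp)).2.2.1, (h p hp).1,
          (hall p (hsub hp)).2.2.2.2.1, (h p hp).2⟩)
    rcases Nat.eq_zero_or_pos k with hk | hk
    · subst hk
      have hVbot : V = ⊥ := Submodule.finrank_eq_zero.1 hV
      have hne : PP.Nonempty := by
        rw [← Finset.card_pos]
        omega
      obtain ⟨q, hq⟩ := hne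
      have h1 := (hall q hq).2.2.2.1
      rw [hVbot, Submodule.mem_bot] at h1
      exact (hall q hq).2.2.2.2.1 h1
    · have htV : ∀ j, t j ∈ V := by
        intro j
        rcases htx j with h | h
        · rw [h]
          exact (hall _ (hpP j)).2.2.2.1
        · rw [h]
          exact (hall _ (hpP j)).2.2.2.2.2
      have hspan : Submodule.span ℚ (Set.range t) = V := by
        refine Submodule.eq_of_le_of_finrank_eq ?_ ?_
        · rw [Submodule.span_le]
          rintro _ ⟨j, rfl⟩
          exact htV j
        · rw [finrank_span_eq_card hli, Fintype.card_fin, hV]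
      have hco : ∀ v ∈ V, ∃ c : Fin k → ℚ, ∑ l, c l • t l = v := by
        intro v hv
        rw [← hspan] at hv
        exact (Submodule.mem_span_range_iff_exists_fun ℚ).1 hv
      choose A hA using fun j => hco (x (p j)) (hall _ (hpP j)).2.2.2.1
      choose B hB using fun j => hco (z (p j) * x (p j)) (hall _ (hpP j)).2.2.2.2.2
      obtain ⟨C, hC⟩ : ∃ C : Matrix (Fin k) (Fin k) ℚ,
          ∀ j, C j = if t j = x (p j) then A j else B j := ⟨fun j =>
            if t j = x (p j) then A j else B j, fun _ => rfl⟩
      have hCt : ∀ j, ∑ l, C j l • t l = t j := by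
        intro j
        rw [hC]
        split_ifs with h
        · rw [hA, h]
        · rw [hB]
          exact ((htx j).resolve_left h).symm
      have hC1 : C = 1 := by
        ext j l
        have h1 : ∑ i, (C j i - (1 : Matrix (Fin k) (Fin k) ℚ) j i) • t i = 0 := by
          simp only [sub_smul, Finset.sum_sub_distrib]
          rw [hCt j]
          simp [Matrix.one_apply]
        have h2 := (Fintype.linearIndependent_iff.1 hli) _ h1 l
        linarith
      have hdet : C.det ≠ 0 := by
        rw [hC1, Matrix.det_one]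
        exact one_ne_zero
      have hM := det_ne_zero_of_transversal p hpi
        (fun j => ⟨(hall _ (hpP j)).1, (hall _ (hpP j)).2.1⟩) (fun j => z (p j))
        (fun j => (hall _ (hpP j)).2.2.1) (Matrix.of A) (Matrix.of B) C (by
          intro j
          rw [hC]
          split_ifs with h
          · exact Or.inl rfl
          · exact Or.inr rfl) hdet
      have hz0 : (Matrix.of fun j l => (((Matrix.of B) j l : ℚ) : ℂ) -
          z (p j) * (((Matrix.of A) j l : ℚ) : ℂ)) *ᵥ t = 0 := by
        funext j
        have h1 : ∑ l, ((B j l : ℚ) : ℂ) * t l = z (p j) * x (p j) := by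
          rw [← hB j]
          exact Finset.sum_congr rfl fun l _ => (Rat.smul_def _ _).symm
        have h2 : ∑ l, ((A j l : ℚ) : ℂ) * t l = x (p j) := by
          rw [← hA j]
          exact Finset.sum_congr rfl fun l _ => (Rat.smul_def _ _).symm
        rw [Matrix.mulVec, dotProduct]
        simp only [Matrix.of_apply, sub_mul, Finset.sum_sub_distrib, mul_assoc, Pi.zero_apply]
        rw [← Finset.mul_sum, h1, h2, sub_self]
      have ht0 := Matrix.eq_zero_of_mulVec_eq_zero hM hz0
      have h3 := hli.ne_zero (⟨0, hk⟩ : Fin k)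
      apply h3
      rw [ht0]
      rfl

end Pool.Agent.Lib.H82OT
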