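import Pool.Agent.Lib.H82OT.Defs

/-!
# Project H82OT, chunk FL4: additive functionals
-/

open MeasureTheory Filter Topology Finset ProbabilityTheory
open scoped ENNReal ComplexConjugate Matrix

namespace Pool.Agent.Lib.H82OT

open Pool.Agent.Lib.H22M Pool.Agent.Lib.H82T

/-- Proof. Let `Q = Additive (𝒜 ⧸ N)`; the class of `w` has infinite order, so `ℤ → Q`, `n ↦ n • w`, is
injective and `n • w ↦ (n : ℂ)` extends to a homomorphism `Q →+ ℂ` because `ℂ` is divisible (an injective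
`ℤ`-module: `Module.Baer.of_divisible`, `Module.Baer.injective`/`Module.Injective.out`, or the extension
lemma `AddMonoidHom` in `Mathlib/Algebra/Category/Grp/Injective.lean`;
`Mathlib/Algebra/Module/Injective.lean`). Compose with `𝒜 → 𝒜 ⧸ N`. -/
theorem exists_functional_ne_zero {A : Type*} [CommGroup A] (N : Subgroup A) (w : A)
    (hw : ∀ M : ℕ, 1 ≤ M → w ^ M ∉ N) :
    ∃ L : Additive A →+ ℂ, (∀ n ∈ N, L (Additive.ofMul n) = 0) ∧ L (Additive.ofMul w) ≠ 0 := by
  let f : ℤ →+ Additive (A ⧸ N) :=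
    zmultiplesHom (Additive (A ⧸ N)) (Additive.ofMul (QuotientGroup.mk w : A ⧸ N))
  have hfv : ∀ n : ℤ, f n = Additive.ofMul (QuotientGroup.mk (w ^ n) : A ⧸ N) := by
    intro n
    rfl
  have hf : Function.Injective f := by
    rw [injective_iff_map_eq_zero]
    intro n hn
    rw [hfv] at hn
    have h1 : (QuotientGroup.mk (w ^ n) : A ⧸ N) = 1 := hn
    rw [QuotientGroup.eq_one_iff] at h1
    by_contra h0
    have h2 : 1 ≤ n.natAbs := Nat.one_le_iff_ne_zero.mpr (Int.natAbs_ne_zero.mpr h0)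
    refine hw n.natAbs h2 ?_
    rcases Int.natAbs_eq n with h | h
    · rw [h, zpow_natCast] at h1
      exact h1
    · rw [h, zpow_neg, zpow_natCast] at h1
      simpa using N.inv_mem h1
  obtain ⟨g, hg⟩ := (Module.Baer.of_divisible ℂ).extension_property_addMonoidHom f hf
    (Int.castAddHom ℂ)
  refine ⟨g.comp (MonoidHom.toAdditive (QuotientGroup.mk' N)), ?_, ?_⟩
  · intro n hn
    have h1 : (QuotientGroup.mk' N) n = 1 := (QuotientGroup.eq_one_iff n).mpr hn
    show g (Additive.ofMul ((QuotientGroup.mk' N) n)) = 0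
    rw [h1, ofMul_one, map_zero]
  · show g (Additive.ofMul ((QuotientGroup.mk' N) w)) ≠ 0
    have h1 : g (f 1) = ((1 : ℤ) : ℂ) := by
      have := DFunLike.congr_fun hg (1 : ℤ)
      exact this
    rw [hfv, zpow_one] at h1
    have h2 : g (Additive.ofMul ((QuotientGroup.mk' N) w)) = ((1 : ℤ) : ℂ) := h1
    rw [h2]
    simp

private theorem FL4_avg {A : Type*} [CommGroup A] (T : A →* A) (L : Additive A →+ ℂ) (p : ℕ)
    (ξ : ℂ) : ∃ L' : Additive A →+ ℂ, ∀ a : A,
      L' (Additive.ofMul a) = ∑ j ∈ range p, ξ ^ j * L (Additive.ofMul ((⇑T)^[j] a)) := by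
  refine ⟨AddMonoidHom.mk' (fun a : Additive A =>
    ∑ j ∈ range p, ξ ^ j * L (Additive.ofMul ((⇑T)^[j] (Additive.toMul a)))) ?_, ?_⟩
  · intro a b
    rw [← Finset.sum_add_distrib]
    refine Finset.sum_congr rfl fun j _ => ?_
    rw [toMul_add, iterate_map_mul, ofMul_mul, map_add, mul_add]
  · intro a
    rfl

private theorem FL4_eig {A : Type*} [CommGroup A] (T : A →* A) (L L' : Additive A →+ ℂ) (p : ℕ)
    (ξ : ℂ) (hξ : ξ ^ p = 1) (hT : ∀ a, (⇑T)^[p] a = a)
    (hL' : ∀ a : A, L' (Additive.ofMul a) =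
      ∑ j ∈ range p, ξ ^ j * L (Additive.ofMul ((⇑T)^[j] a))) (a : A) :
    ξ * L' (Additive.ofMul (T a)) = L' (Additive.ofMul a) := by
  have key : ∀ G : ℕ → ℂ, G p = G 0 → ∑ j ∈ range p, G (j + 1) = ∑ j ∈ range p, G j := by
    intro G hG
    have h2 := Finset.sum_range_succ' G p
    have h3 := Finset.sum_range_succ G p
    rw [h3, hG] at h2
    exact (add_right_cancel h2).symm
  have h4 := key (fun i => ξ ^ i * L (Additive.ofMul ((⇑T)^[i] a))) (by
    show ξ ^ p * L (Additive.ofMul ((⇑T)^[p] a)) = ξ ^ 0 * L (Additive.ofMul ((⇑T)^[0] a))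
    rw [hξ, hT, pow_zero, Function.iterate_zero, id])
  rw [hL', hL', Finset.mul_sum, ← h4]
  refine Finset.sum_congr rfl fun j _ => ?_
  show ξ * (ξ ^ j * L (Additive.ofMul ((⇑T)^[j] (T a)))) =
    ξ ^ (j + 1) * L (Additive.ofMul ((⇑T)^[j + 1] a))
  rw [Function.iterate_succ_apply, pow_succ]
  ring

private theorem FL4_step {A : Type*} [CommGroup A] (T : A →* A) (L : Additive A →+ ℂ) (p : ℕ)
    (hp : 1 ≤ p) (w : A) (hw : L (Additive.ofMul w) ≠ 0) :
    ∃ (ξ : ℂ) (L' : Additive A →+ ℂ), ξ ^ p = 1 ∧ L' (Additive.ofMul w) ≠ 0 ∧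
      ∀ a : A, L' (Additive.ofMul a) =
        ∑ j ∈ range p, ξ ^ j * L (Additive.ofMul ((⇑T)^[j] a)) := by
  have hω := Complex.isPrimitiveRoot_exp p (by omega)
  set ω : ℂ := Complex.exp (2 * Real.pi * Complex.I / p) with hωdef
  choose L' hL' using fun k : ℕ => FL4_avg T L p (ω ^ k)
  have hsum : ∑ k ∈ range p, L' k (Additive.ofMul w) = (p : ℂ) * L (Additive.ofMul w) := by
    simp only [hL']
    rw [Finset.sum_comm]
    have h1 : ∀ j ∈ range p, j ≠ 0 →
        ∑ k ∈ range p, (ω ^ k) ^ j * L (Additive.ofMul ((⇑T)^[j] w)) = 0 := by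
      intro j hj hj0
      rw [← Finset.sum_mul]
      have h2 : ∑ k ∈ range p, (ω ^ k) ^ j = 0 := by
        have h3 : ω ^ j ≠ 1 := hω.pow_ne_one_of_pos_of_lt hj0 (Finset.mem_range.mp hj)
        have h4 : ∑ k ∈ range p, (ω ^ k) ^ j = ∑ k ∈ range p, (ω ^ j) ^ k := by
          refine Finset.sum_congr rfl fun k _ => ?_
          rw [← pow_mul, ← pow_mul, mul_comm]
        rw [h4, geom_sum_eq h3, ← pow_mul, mul_comm, pow_mul, hω.pow_eq_one, one_pow, sub_self,
          zero_div]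
      rw [h2, zero_mul]
    rw [Finset.sum_eq_single_of_mem 0 (Finset.mem_range.mpr (by omega)) h1]
    simp
  have hne : ∑ k ∈ range p, L' k (Additive.ofMul w) ≠ 0 := by
    rw [hsum]
    exact mul_ne_zero (Nat.cast_ne_zero.mpr (by omega)) hw
  obtain ⟨k, _, hk⟩ := Finset.exists_ne_zero_of_sum_ne_zero hne
  refine ⟨ω ^ k, L' k, ?_, hk, hL' k⟩
  rw [← pow_mul, mul_comm, pow_mul, hω.pow_eq_one, one_pow]

private theorem FL4_iter {A : Type*} [CommGroup A] (T S : A →* A) (h : ∀ a, T (S a) = S (T a))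
    (j : ℕ) (a : A) : (⇑T)^[j] (S a) = S ((⇑T)^[j] a) := by
  induction j generalizing a with
  | zero => rfl
  | succ j ih => rw [Function.iterate_succ_apply, Function.iterate_succ_apply, h, ih]

/-- A simultaneous eigenvector. Proof. Induction on the finset `PP`. Step for a new prime `p` (`T = T p`):
for every `p`-th root of unity `ζ` let `L_ζ (a) = p⁻¹ ∑_{j<p} ζ⁻ʲ L (T^j a)`. Then `L_ζ ∘ T = ζ L_ζ`
(`T^p = id`), `L_ζ` vanishes on `N` (`T N ⊆ N`), `∑_ζ L_ζ = L` (compare CI2), so some `L_ζ (w) ≠ 0`; the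
eigenvector property for the earlier primes is kept since the `T`'s commute. -/
theorem exists_eigenfunctional {A : Type*} [CommGroup A] (N : Subgroup A) (w : A)
    (hw : ∀ M : ℕ, 1 ≤ M → w ^ M ∉ N) (PP : Finset ℕ) (hPP : ∀ p ∈ PP, 1 ≤ p)
    (T : ℕ → A →* A) (hT : ∀ p ∈ PP, ∀ a, (⇑(T p))^[p] a = a)
    (hcomm : ∀ p ∈ PP, ∀ r ∈ PP, ∀ a, T p (T r a) = T r (T p a))
    (hN : ∀ p ∈ PP, ∀ n ∈ N, T p n ∈ N) :
    ∃ (L : Additive A →+ ℂ) (z : ℕ → ℂ), (∀ n ∈ N, L (Additive.ofMul n) = 0) ∧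
      L (Additive.ofMul w) ≠ 0 ∧ (∀ p ∈ PP, (z p) ^ p = 1) ∧
      ∀ p ∈ PP, ∀ a : A, L (Additive.ofMul (T p a)) = z p * L (Additive.ofMul a) := by
  classical
  induction PP using Finset.induction_on with
  | empty =>
    obtain ⟨L, h1, h2⟩ := exists_functional_ne_zero N w hw
    exact ⟨L, fun _ => 1, h1, h2, by simp, by simp⟩
  | insert p PP hp ih =>
    obtain ⟨L, z, h1, h2, h3, h4⟩ := ih (fun r hr => hPP r (Finset.mem_insert_of_mem hr))
      (fun r hr => hT r (Finset.mem_insert_of_mem hr))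
      (fun r hr s hs => hcomm r (Finset.mem_insert_of_mem hr) s (Finset.mem_insert_of_mem hs))
      (fun r hr => hN r (Finset.mem_insert_of_mem hr))
    have hpi := Finset.mem_insert_self p PP
    obtain ⟨ξ, L', hξ, hL'w, hL'⟩ := FL4_step (T p) L p (hPP p hpi) w h2
    have hp1 := hPP p hpi
    have hξ0 : ξ ≠ 0 := by
      intro h0
      rw [h0, zero_pow (by omega)] at hξ
      exact zero_ne_one hξ
    have heig := FL4_eig (T p) L L' p ξ hξ (hT p hpi) hL'
    refine ⟨L', Function.update z p ξ⁻¹, ?_, hL'w, ?_, ?_⟩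
    · intro n hn
      rw [hL']
      refine Finset.sum_eq_zero fun j _ => ?_
      have h5 : ∀ i : ℕ, (⇑(T p))^[i] n ∈ N := by
        intro i
        induction i with
        | zero => exact hn
        | succ i ihi =>
          rw [Function.iterate_succ_apply']
          exact hN p hpi _ ihi
      rw [h1 _ (h5 j), mul_zero]
    · intro r hr
      rcases Finset.mem_insert.mp hr with rfl | hr'
      · rw [Function.update_self, inv_pow, hξ, inv_one]
      · have hrp : r ≠ p := fun h => hp (h ▸ hr')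
        rw [Function.update_of_ne hrp]
        exact h3 r hr'
    · intro r hr a
      rcases Finset.mem_insert.mp hr with rfl | hr'
      · rw [Function.update_self, ← heig a, ← mul_assoc, inv_mul_cancel₀ hξ0, one_mul]
      · have hrp : r ≠ p := fun h => hp (h ▸ hr')
        rw [Function.update_of_ne hrp, hL', hL', Finset.mul_sum]
        refine Finset.sum_congr rfl fun j _ => ?_
        rw [FL4_iter (T p) (T r) (fun b => hcomm p hpi r hr b) j a, h4 r hr']
        ring

end Pool.Agent.Lib.H82OT
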