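import Pool.Agent.Lib.H82OT.FL3
import Pool.Agent.Lib.H82OT.FL4

/-!
# Project H82OT, chunk FL5: finitely many bad primes, abstract form
-/

open MeasureTheory Filter Topology Finset ProbabilityTheory
open scoped ENNReal ComplexConjugate Matrix

namespace Pool.Agent.Lib.H82OT

open Pool.Agent.Lib.H22M Pool.Agent.Lib.H82T

/-- Every element is a product of powers of the generators, seen by homomorphisms to `ℂ`. -/
private theorem fl5_repr {Γ : Type*} [CommGroup Γ] (s : Finset Γ)
    (hs : Subgroup.closure (s : Set Γ) = ⊤) (γ : Γ) :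
    ∃ n : s → ℤ, ∀ g : Additive Γ →+ ℂ,
      g (Additive.ofMul γ) = ∑ i : s, (n i : ℂ) * g (Additive.ofMul (i : Γ)) := by
  classical
  have hγ : γ ∈ Subgroup.closure (s : Set Γ) := by
    rw [hs]; exact Subgroup.mem_top γ
  refine Subgroup.closure_induction (p := fun γ _ => ∃ n : s → ℤ, ∀ g : Additive Γ →+ ℂ,
      g (Additive.ofMul γ) = ∑ i : s, (n i : ℂ) * g (Additive.ofMul (i : Γ))) ?_ ?_ ?_ ?_ hγ
  · intro x hx
    refine ⟨fun i => if (i : Γ) = x then 1 else 0, fun g => ?_⟩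
    rw [Finset.sum_eq_single (⟨x, hx⟩ : s)]
    · simp
    · intro j _ hj
      have hj' : (j : Γ) ≠ x := fun h => hj (Subtype.ext h)
      simp [hj']
    · intro h
      exact absurd (Finset.mem_univ _) h
  · refine ⟨fun _ => 0, fun g => ?_⟩
    simp
  · rintro x y _ _ ⟨n, hn⟩ ⟨m, hm⟩
    refine ⟨fun i => n i + m i, fun g => ?_⟩
    rw [ofMul_mul, map_add, hn g, hm g, ← Finset.sum_add_distrib]
    refine Finset.sum_congr rfl fun i _ => ?_
    push_cast
    ring
  · rintro x _ ⟨n, hn⟩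
    refine ⟨fun i => - n i, fun g => ?_⟩
    rw [ofMul_inv, map_neg, hn g, ← Finset.sum_neg_distrib]
    refine Finset.sum_congr rfl fun i _ => ?_
    push_cast
    ring

/-- One eigenfunctional handles few primes. -/
private theorem fl5_one {A Γ : Type*} [CommGroup A] [CommGroup Γ] (N : Subgroup A) (v : Γ →* A)
    (s : Finset Γ) (hs : Subgroup.closure (s : Set Γ) = ⊤) (PP : Finset ℕ)
    (hPP : ∀ p ∈ PP, p.Prime ∧ p ≠ 2) (T : ℕ → A →* A) (a b : ℕ → Γ)
    (hab : ∀ p ∈ PP, v (a p) * T p (v (b p)) ∈ N)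
    (L : Additive A →+ ℂ) (z : ℕ → ℂ) (hL : ∀ n ∈ N, L (Additive.ofMul n) = 0)
    (hz : ∀ p ∈ PP, (z p) ^ p = 1)
    (hLT : ∀ p ∈ PP, ∀ a : A, L (Additive.ofMul (T p a)) = z p * L (Additive.ofMul a))
    (hne : ∀ p ∈ PP, L (Additive.ofMul (v (a p * b p))) ≠ 0) :
    PP.card ≤ s.card * (s.card - 1) / 2 := by
  classical
  set F : Finset ℂ := s.image (fun γ => L (Additive.ofMul (v γ))) with hF
  set V : Submodule ℚ ℂ := Submodule.span ℚ (F : Set ℂ) with hV
  have hfin : FiniteDimensional ℚ V := FiniteDimensional.span_finset ℚ F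
  have hcard : Module.finrank ℚ V ≤ s.card :=
    (finrank_span_finset_le_card F).trans Finset.card_image_le
  have hmem : ∀ γ : Γ, L (Additive.ofMul (v γ)) ∈ V := by
    intro γ
    obtain ⟨n, hn⟩ := fl5_repr s hs γ
    have h1 := hn (L.comp (MonoidHom.toAdditive v))
    have h2 : (L.comp (MonoidHom.toAdditive v)) (Additive.ofMul γ) = L (Additive.ofMul (v γ)) := rfl
    rw [h2] at h1
    rw [h1]
    refine Submodule.sum_mem _ fun i _ => ?_
    have h3 : (L.comp (MonoidHom.toAdditive v)) (Additive.ofMul (i : Γ)) ∈ V := by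
      apply Submodule.subset_span
      rw [hF]
      exact Finset.mem_coe.2 (Finset.mem_image.2 ⟨(i : Γ), i.2, rfl⟩)
    have h4 := V.smul_mem (n i : ℚ) h3
    rw [Rat.smul_def] at h4
    push_cast at h4
    exact h4
  have h1 := ratio_lemma (Module.finrank ℚ V) V hfin rfl PP
    (fun p => - L (Additive.ofMul (v (b p)))) z (fun p hp => by
      obtain ⟨hpp, hp2⟩ := hPP p hp
      have e1 : L (Additive.ofMul (v (a p))) = z p * (- L (Additive.ofMul (v (b p)))) := by
        have h2 := hL _ (hab p hp)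
        rw [ofMul_mul, map_add, hLT p hp] at h2
        linear_combination h2
      have e2 : L (Additive.ofMul (v (a p * b p))) =
          (z p - 1) * (- L (Additive.ofMul (v (b p)))) := by
        rw [map_mul, ofMul_mul, map_add, e1]
        ring
      have h3 := hne p hp
      rw [e2] at h3
      have hz1 : z p ≠ 1 := by
        intro h4
        apply h3
        rw [h4, sub_self, zero_mul]
      have hx : - L (Additive.ofMul (v (b p))) ≠ 0 := right_ne_zero_of_mul h3
      refine ⟨hpp, hp2, ?_, V.neg_mem (hmem _), hx, ?_⟩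
      · haveI : Fact p.Prime := ⟨hpp⟩
        have h5 := orderOf_eq_prime (hz p hp) hz1
        have h6 := IsPrimitiveRoot.orderOf (z p)
        rw [h5] at h6
        exact h6
      · show z p * (- L (Additive.ofMul (v (b p)))) ∈ V
        rw [← e1]
        exact hmem _)
  refine h1.trans (Nat.div_le_div_right (Nat.mul_le_mul hcard (Nat.sub_le_sub_right hcard 1)))

/-- Proof. Let `ℒ` be the set of the pairs `(L, z)` of a functional `L` vanishing on `N` with
`L ∘ T p = z p L` and `(z p)^p = 1` for all `p ∈ PP`. Restrict to `Γ`: the functions `L ∘ v : Γ → ℂ` are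
determined by their values on the generators `s`, so they span a space of dimension at most `r = s.card`
(inject `span` into `s → ℂ`); choose `L_1, …, L_t`, `t ≤ r`, in `ℒ` such that the `L_i ∘ v` form a basis of
the span. For every `p ∈ PP` there is `L` in `ℒ` with `L (v (a p * b p)) ≠ 0` (`exists_eigenfunctional` for
`w = v (a p * b p)`), so there is `i` with `L_i (v (a p * b p)) ≠ 0`. For fixed `i`, let `V_i ⊂ ℂ` be the
`ℚ`-span of the `L_i (v γ)`, `γ ∈ s`, which contains all `L_i (v γ)`, `γ ∈ Γ`, of dimension `k ≤ r`. For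
`p` with `L_i (v (a p * b p)) ≠ 0` put `x p = - L_i (v (b p))`: from `v (a p) * T p (v (b p)) ∈ N`:
`L_i (v (a p)) = z p * x p` and `L_i (v (a p * b p)) = (z p - 1) * x p ≠ 0`, so `x p ≠ 0` and `z p ≠ 1` is a
primitive `p`-th root of unity (`p` prime). `ratio_lemma`: at most `k (k-1)/2 ≤ r (r-1)/2` such `p`. -/
theorem bad_card_le {A Γ : Type*} [CommGroup A] [CommGroup Γ] (N : Subgroup A) (v : Γ →* A)
    (s : Finset Γ) (hs : Subgroup.closure (s : Set Γ) = ⊤) (PP : Finset ℕ)
    (hPP : ∀ p ∈ PP, p.Prime ∧ p ≠ 2)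
    (T : ℕ → A →* A) (hT : ∀ p ∈ PP, ∀ a, (⇑(T p))^[p] a = a)
    (hcomm : ∀ p ∈ PP, ∀ r ∈ PP, ∀ a, T p (T r a) = T r (T p a))
    (hN : ∀ p ∈ PP, ∀ n ∈ N, T p n ∈ N) (a b : ℕ → Γ)
    (hab : ∀ p ∈ PP, v (a p) * T p (v (b p)) ∈ N)
    (hbad : ∀ p ∈ PP, ∀ M : ℕ, 1 ≤ M → (v (a p * b p)) ^ M ∉ N) :
    PP.card ≤ s.card * (s.card * (s.card - 1) / 2) := by
  classical
  choose n hn using fun γ => fl5_repr s hs γ
  -- the vectors of the eigenfunctionals
  let P : (Additive A →+ ℂ) → (ℕ → ℂ) → Prop := fun L z =>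
    (∀ n ∈ N, L (Additive.ofMul n) = 0) ∧ (∀ p ∈ PP, (z p) ^ p = 1) ∧
      ∀ p ∈ PP, ∀ a : A, L (Additive.ofMul (T p a)) = z p * L (Additive.ofMul a)
  let U : Set (s → ℂ) := {u | ∃ (L : Additive A →+ ℂ) (z : ℕ → ℂ), P L z ∧
    u = fun i : s => L (Additive.ofMul (v (i : Γ)))}
  obtain ⟨B, hBU, hspan, hli⟩ := exists_linearIndependent ℂ U
  have hBfin : B.Finite := hli.setFinite
  haveI : Fintype B := hBfin.fintype
  have hBcard : hBfin.toFinset.card ≤ s.card := by
    have h1 := hli.fintype_card_le_finrank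
    rw [Module.finrank_fintype_fun_eq_card, Fintype.card_coe] at h1
    have h2 : hBfin.toFinset.card = Fintype.card B := by
      rw [← Set.toFinset_card]
      refine Finset.card_bij (fun a _ => a) ?_ (fun _ _ _ _ h => h) ?_
      · intro a ha
        exact Set.mem_toFinset.2 (hBfin.mem_toFinset.1 ha)
      · intro a ha
        exact ⟨a, hBfin.mem_toFinset.2 (Set.mem_toFinset.1 ha), rfl⟩
    rw [h2]
    exact h1
  let φ : Γ → (s → ℂ) →ₗ[ℂ] ℂ := fun γ => ∑ i : s, (n γ i : ℂ) • LinearMap.proj i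
  have hφ : ∀ (γ : Γ) (L : Additive A →+ ℂ), φ γ (fun i : s => L (Additive.ofMul (v (i : Γ)))) =
      L (Additive.ofMul (v γ)) := by
    intro γ L
    have h1 := hn γ (L.comp (MonoidHom.toAdditive v))
    have h2 : (L.comp (MonoidHom.toAdditive v)) (Additive.ofMul γ) = L (Additive.ofMul (v γ)) := rfl
    rw [h2] at h1
    rw [h1]
    show (∑ i : s, (n γ i : ℂ) • LinearMap.proj i) (fun i : s => L (Additive.ofMul (v (i : Γ)))) = _
    rw [LinearMap.sum_apply]
    rfl
  have hcov : PP ⊆ hBfin.toFinset.biUnion (fun u => PP.filter (fun p => φ (a p * b p) u ≠ 0)) := by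
    intro p hp
    obtain ⟨L, z, hL0, hLw, hLz, hLT⟩ := exists_eigenfunctional N (v (a p * b p)) (hbad p hp) PP
      (fun p hp => (hPP p hp).1.one_le) T hT hcomm hN
    by_contra hcon
    have h1 : ∀ u ∈ B, φ (a p * b p) u = 0 := by
      intro u hu
      by_contra h2
      exact hcon (Finset.mem_biUnion.2 ⟨u, hBfin.mem_toFinset.2 hu, Finset.mem_filter.2 ⟨hp, h2⟩⟩)
    have h2 : Submodule.span ℂ B ≤ LinearMap.ker (φ (a p * b p)) :=
      Submodule.span_le.2 fun u hu => LinearMap.mem_ker.2 (h1 u hu)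
    have h3 : (fun i : s => L (Additive.ofMul (v (i : Γ)))) ∈ Submodule.span ℂ U :=
      Submodule.subset_span ⟨L, z, ⟨hL0, hLz, hLT⟩, rfl⟩
    rw [← hspan] at h3
    have h4 := LinearMap.mem_ker.1 (h2 h3)
    rw [hφ] at h4
    exact hLw h4
  refine (Finset.card_le_card hcov).trans ((Finset.card_biUnion_le_card_mul _ _
    (s.card * (s.card - 1) / 2) ?_).trans (Nat.mul_le_mul_right _ hBcard))
  intro u hu
  obtain ⟨L, z, ⟨hL0, hLz, hLT⟩, rfl⟩ := hBU (hBfin.mem_toFinset.1 hu)
  refine fl5_one N v s hs _ (fun p hp => hPP p (Finset.mem_filter.1 hp).1) T a b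
    (fun p hp => hab p (Finset.mem_filter.1 hp).1) L z hL0
    (fun p hp => hLz p (Finset.mem_filter.1 hp).1)
    (fun p hp => hLT p (Finset.mem_filter.1 hp).1) ?_
  intro p hp h
  refine (Finset.mem_filter.1 hp).2 ?_
  rw [hφ]
  exact h

end Pool.Agent.Lib.H82OT
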