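import Pool.Agent.Lib.H82OT.LT1
import Pool.Agent.Lib.H82T.AP

/-!
# Project H82OT, chunk FN1: approximation by products
-/

open MeasureTheory Filter Topology Finset ProbabilityTheory
open scoped ENNReal ComplexConjugate Matrix

namespace Pool.Agent.Lib.H82OT

open Pool.Agent.Lib.H22M Pool.Agent.Lib.H82T

section FN1aux

variable {Y M : Type*}

/-- Finite sums of products. -/
private def FN1_Q (ℬ : MeasurableSpace Y) [MeasurableSpace M] (v : Y → M) (g : Y → ℂ) : Prop :=
  ∃ (ι : Type) (_ : Fintype ι) (a : ι → Y → ℂ) (r : ι → M → ℂ),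
    (∀ k, Measurable[ℬ] (a k) ∧ ∃ C : ℝ, ∀ y, ‖a k y‖ ≤ C) ∧ (∀ k, BM (r k)) ∧
      ∀ y, g y = ∑ k, a k y * r k (v y)

private theorem FN1_add {ℬ : MeasurableSpace Y} [MeasurableSpace M] {v : Y → M} {g g' : Y → ℂ}
    (h : FN1_Q ℬ v g) (h' : FN1_Q ℬ v g') : FN1_Q ℬ v (fun y => g y + g' y) := by
  obtain ⟨ι, hι, a, r, h1, h2, h3⟩ := h
  obtain ⟨ι', hι', a', r', h1', h2', h3'⟩ := h'
  refine ⟨ι ⊕ ι', inferInstance, Sum.elim a a', Sum.elim r r', ?_, ?_, ?_⟩
  · rintro (k | k)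
    · exact h1 k
    · exact h1' k
  · rintro (k | k)
    · exact h2 k
    · exact h2' k
  · intro y
    show g y + g' y = _
    rw [Fintype.sum_sum_type, h3, h3']
    rfl

private theorem FN1_mul {ℬ : MeasurableSpace Y} [MeasurableSpace M] {v : Y → M} {g g' : Y → ℂ}
    (h : FN1_Q ℬ v g) (h' : FN1_Q ℬ v g') : FN1_Q ℬ v (fun y => g y * g' y) := by
  obtain ⟨ι, hι, a, r, h1, h2, h3⟩ := h
  obtain ⟨ι', hι', a', r', h1', h2', h3'⟩ := h'
  refine ⟨ι × ι', inferInstance, fun k y => a k.1 y * a' k.2 y,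
    fun k z => r k.1 z * r' k.2 z, ?_, ?_, ?_⟩
  · rintro ⟨k, k'⟩
    obtain ⟨m1, C, hC⟩ := h1 k
    obtain ⟨m2, C', hC'⟩ := h1' k'
    refine ⟨m1.mul m2, C * C', fun y => ?_⟩
    rw [norm_mul]
    exact mul_le_mul (hC y) (hC' y) (norm_nonneg _) ((norm_nonneg _).trans (hC y))
  · rintro ⟨k, k'⟩
    obtain ⟨m1, C, hC⟩ := h2 k
    obtain ⟨m2, C', hC'⟩ := h2' k'
    refine ⟨m1.mul m2, C * C', fun y => ?_⟩
    rw [norm_mul]
    exact mul_le_mul (hC y) (hC' y) (norm_nonneg _) ((norm_nonneg _).trans (hC y))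
  · intro y
    show g y * g' y = ∑ k : ι × ι', a k.1 y * a' k.2 y * (r k.1 (v y) * r' k.2 (v y))
    rw [h3, h3', Finset.sum_mul_sum, Fintype.sum_prod_type]
    refine Finset.sum_congr rfl fun k _ => Finset.sum_congr rfl fun k' _ => ?_
    ring

private theorem FN1_one {ℬ : MeasurableSpace Y} [MeasurableSpace M] {v : Y → M} (g : Y → ℂ)
    (r : M → ℂ) (hg : Measurable[ℬ] g) (hg' : ∃ C : ℝ, ∀ y, ‖g y‖ ≤ C) (hr : BM r) :
    FN1_Q ℬ v (fun y => g y * r (v y)) :=
  ⟨Unit, inferInstance, fun _ => g, fun _ => r, fun _ => ⟨hg, hg'⟩, fun _ => hr,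
    fun y => by simp⟩

private theorem FN1_const {ℬ : MeasurableSpace Y} [MeasurableSpace M] {v : Y → M} (c : ℂ) :
    FN1_Q ℬ v (fun _ => c) := by
  have h := FN1_one (ℬ := ℬ) (v := v) (fun _ => c) (fun _ => (1 : ℂ))
    (@measurable_const _ _ _ ℬ c) ⟨‖c‖, fun _ => le_rfl⟩
    ⟨measurable_const, 1, fun _ => by simp⟩
  simpa using h

private theorem FN1_sum {ℬ : MeasurableSpace Y} [MeasurableSpace M] {v : Y → M} (K : ℕ)
    (g : Fin K → Y → ℂ) (h : ∀ k, FN1_Q ℬ v (g k)) : FN1_Q ℬ v (fun y => ∑ k, g k y) := by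
  induction K with
  | zero =>
    have h1 := FN1_const (ℬ := ℬ) (v := v) 0
    simpa using h1
  | succ K ih =>
    have h1 := FN1_add (h 0) (ih (fun k => g k.succ) fun k => h k.succ)
    have h2 : (fun y => ∑ k, g k y) = fun y => g 0 y + ∑ k, g (Fin.succ k) y := by
      funext y
      rw [Fin.sum_univ_succ]
    rw [h2]
    exact h1

/-- The sets which are sums of products. -/
private def FN1_T (ℬ : MeasurableSpace Y) [mY : MeasurableSpace Y] [MeasurableSpace M]
    (v : Y → M) (B : Set Y) : Prop :=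
  MeasurableSet[mY] B ∧ FN1_Q ℬ v (B.indicator fun _ => (1 : ℂ))

private theorem FN1_compl {ℬ : MeasurableSpace Y} [mY : MeasurableSpace Y] [MeasurableSpace M]
    {v : Y → M} {B : Set Y} (h : FN1_T ℬ v B) : FN1_T ℬ v Bᶜ := by
  refine ⟨h.1.compl, ?_⟩
  have h1 := FN1_add (FN1_const (ℬ := ℬ) (v := v) 1)
    (FN1_mul (FN1_const (ℬ := ℬ) (v := v) (-1)) h.2)
  have h2 : (Bᶜ).indicator (fun _ => (1 : ℂ)) =
      fun y => 1 + (-1) * B.indicator (fun _ => (1 : ℂ)) y := by
    funext y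
    by_cases hy : y ∈ B <;> simp [Set.indicator, hy]
  rw [h2]
  exact h1

private theorem FN1_union {ℬ : MeasurableSpace Y} [mY : MeasurableSpace Y] [MeasurableSpace M]
    {v : Y → M} {B B' : Set Y} (h : FN1_T ℬ v B) (h' : FN1_T ℬ v B') :
    FN1_T ℬ v (B ∪ B') := by
  refine ⟨h.1.union h'.1, ?_⟩
  have h1 := FN1_add (FN1_add h.2 h'.2)
    (FN1_mul (FN1_const (ℬ := ℬ) (v := v) (-1)) (FN1_mul h.2 h'.2))
  have h2 : (B ∪ B').indicator (fun _ => (1 : ℂ)) =
      fun y => (B.indicator (fun _ => (1 : ℂ)) y + B'.indicator (fun _ => (1 : ℂ)) y) +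
        (-1) * (B.indicator (fun _ => (1 : ℂ)) y * B'.indicator (fun _ => (1 : ℂ)) y) := by
    funext y
    by_cases hy : y ∈ B <;> by_cases hy' : y ∈ B' <;> simp [Set.indicator, hy, hy']
  rw [h2]
  exact h1

private theorem FN1_ap_union {ℬ : MeasurableSpace Y} [mY : MeasurableSpace Y]
    [MeasurableSpace M] {v : Y → M} (m : Measure Y) [IsProbabilityMeasure m] (A A' : Set Y)
    (h1 : ∀ ε : ℝ, 0 < ε → ∃ B : Set Y, FN1_T ℬ v B ∧ (m (symmDiff A B)).toReal < ε)
    (h2 : ∀ ε : ℝ, 0 < ε → ∃ B : Set Y, FN1_T ℬ v B ∧ (m (symmDiff A' B)).toReal < ε) :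
    ∀ ε : ℝ, 0 < ε → ∃ B : Set Y, FN1_T ℬ v B ∧ (m (symmDiff (A ∪ A') B)).toReal < ε := by
  intro ε hε
  obtain ⟨B, hB, hB2⟩ := h1 (ε / 2) (by positivity)
  obtain ⟨B', hB', hB2'⟩ := h2 (ε / 2) (by positivity)
  refine ⟨B ∪ B', FN1_union hB hB', ?_⟩
  have hsub : symmDiff (A ∪ A') (B ∪ B') ⊆ symmDiff A B ∪ symmDiff A' B' := by
    intro x hx
    simp only [Set.mem_symmDiff, Set.mem_union] at hx ⊢
    tauto
  have hle : m (symmDiff (A ∪ A') (B ∪ B')) ≤ m (symmDiff A B) + m (symmDiff A' B') :=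
    (measure_mono hsub).trans (measure_union_le _ _)
  have hle2 : (m (symmDiff (A ∪ A') (B ∪ B'))).toReal
      ≤ (m (symmDiff A B)).toReal + (m (symmDiff A' B')).toReal := by
    rw [← ENNReal.toReal_add (measure_ne_top _ _) (measure_ne_top _ _)]
    exact ENNReal.toReal_mono (ENNReal.add_ne_top.2 ⟨measure_ne_top _ _, measure_ne_top _ _⟩) hle
  linarith

private theorem FN1_set (ℬ : MeasurableSpace Y) [mY : MeasurableSpace Y] [mM : MeasurableSpace M]
    (m : Measure Y) [IsProbabilityMeasure m] (hle : ℬ ≤ mY) (v : Y → M) (hv : Measurable v)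
    (A : Set Y) (hA : MeasurableSet[ℬ ⊔ MeasurableSpace.comap v mM] A) (ε : ℝ) (hε : 0 < ε) :
    ∃ B : Set Y, FN1_T ℬ v B ∧ (m (symmDiff A B)).toReal < ε := by
  have hcle : MeasurableSpace.comap v mM ≤ mY := hv.comap_le
  have hmeas : ∀ s : Set Y, MeasurableSpace.GenerateMeasurable
      {s | MeasurableSet[ℬ] s ∨ MeasurableSet[MeasurableSpace.comap v mM] s} s →
        MeasurableSet[mY] s := by
    intro s hs
    exact (sup_le hle hcle) s (MeasurableSpace.measurableSet_sup.2 hs)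
  have hA' : MeasurableSpace.GenerateMeasurable
      {s | MeasurableSet[ℬ] s ∨ MeasurableSet[MeasurableSpace.comap v mM] s} A :=
    MeasurableSpace.measurableSet_sup.1 hA
  clear hA
  suffices H : ∀ ε : ℝ, 0 < ε → ∃ B : Set Y, FN1_T ℬ v B ∧
      (m (symmDiff A B)).toReal < ε from H ε hε
  clear hε ε
  induction hA' with
  | basic u hu =>
    intro ε hε
    refine ⟨u, ?_, by simpa using hε⟩
    rcases hu with hu | hu
    · have hu' : MeasurableSet[ℬ] u := hu
      refine ⟨hle _ hu', ?_⟩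
      have h1 := FN1_one (ℬ := ℬ) (v := v) (u.indicator fun _ => (1 : ℂ)) (fun _ => (1 : ℂ))
        ((@measurable_const _ _ _ ℬ (1 : ℂ)).indicator hu')
        ⟨1, fun y => (norm_indicator_le_norm_self (fun _ => (1 : ℂ)) y).trans (by simp)⟩
        ⟨measurable_const, 1, fun _ => by simp⟩
      simpa using h1
    · have hu' : MeasurableSet[MeasurableSpace.comap v mM] u := hu
      refine ⟨hcle _ hu', ?_⟩
      obtain ⟨B, hB, rfl⟩ := hu'
      have h1 := FN1_one (ℬ := ℬ) (v := v) (fun _ => (1 : ℂ)) (B.indicator fun _ => (1 : ℂ))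
        (@measurable_const _ _ _ ℬ (1 : ℂ)) ⟨1, fun y => by simp⟩
        ⟨measurable_const.indicator hB, 1,
          fun y => (norm_indicator_le_norm_self (fun _ => (1 : ℂ)) y).trans (by simp)⟩
      have h2 : (v ⁻¹' B).indicator (fun _ => (1 : ℂ)) =
          fun y => 1 * B.indicator (fun _ => (1 : ℂ)) (v y) := by
        funext y
        by_cases hy : v y ∈ B <;> simp [Set.indicator, hy]
      rw [h2]
      exact h1
  | empty =>
    intro ε hε
    refine ⟨∅, ⟨MeasurableSet.empty, ?_⟩, by simpa using hε⟩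
    have h1 := FN1_const (ℬ := ℬ) (v := v) 0
    simpa using h1
  | compl t ht ih =>
    intro ε hε
    obtain ⟨B, hB, hB2⟩ := ih ε hε
    refine ⟨Bᶜ, FN1_compl hB, ?_⟩
    have h3 : symmDiff tᶜ Bᶜ = symmDiff t B := by
      ext x
      simp only [Set.mem_symmDiff, Set.mem_compl_iff]
      tauto
    rw [h3]
    exact hB2
  | iUnion f hf ih =>
    have hacc : ∀ N : ℕ, ∀ ε : ℝ, 0 < ε → ∃ B : Set Y, FN1_T ℬ v B ∧
        (m (symmDiff (Set.accumulate f N) B)).toReal < ε := by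
      intro N
      induction N with
      | zero =>
        have h0 : Set.accumulate f 0 = f 0 := by
          ext x
          simp [Set.accumulate]
        rw [h0]
        exact ih 0
      | succ N ihN =>
        rw [Set.accumulate_succ]
        exact FN1_ap_union m _ _ ihN (ih (N + 1))
    intro ε hε
    have hfm : ∀ n, MeasurableSet (f n) := fun n => hmeas _ (hf n)
    have haccm : ∀ N, MeasurableSet (Set.accumulate f N) := by
      intro N
      unfold Set.accumulate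
      exact MeasurableSet.iUnion fun n => MeasurableSet.iUnion fun _ => hfm n
    have hsubU : ∀ N, Set.accumulate f N ⊆ ⋃ n, f n := by
      intro N x hx
      simp only [Set.accumulate, Set.mem_iUnion] at hx ⊢
      obtain ⟨n, _, hn⟩ := hx
      exact ⟨n, hn⟩
    have ht := tendsto_measure_iUnion_accumulate (μ := m) (f := f)
    have ht2 : Tendsto (fun N => (m (Set.accumulate f N)).toReal) atTop
        (𝓝 (m (⋃ n, f n)).toReal) :=
      (ENNReal.tendsto_toReal (measure_ne_top _ _)).comp ht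
    have hev : ∀ᶠ N in atTop, (m (⋃ n, f n)).toReal - ε / 2 < (m (Set.accumulate f N)).toReal :=
      ht2.eventually (lt_mem_nhds (by linarith))
    obtain ⟨N, hN⟩ := hev.exists
    obtain ⟨B, hB, hB2⟩ := hacc N (ε / 2) (by positivity)
    refine ⟨B, hB, ?_⟩
    have hsub : symmDiff (⋃ n, f n) B ⊆ ((⋃ n, f n) \ Set.accumulate f N) ∪
        symmDiff (Set.accumulate f N) B := by
      intro x hx
      have h5 := @hsubU N x
      simp only [Set.mem_symmDiff, Set.mem_union, Set.mem_diff] at hx ⊢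
      tauto
    have h6 : (m ((⋃ n, f n) \ Set.accumulate f N)).toReal
        = (m (⋃ n, f n)).toReal - (m (Set.accumulate f N)).toReal := by
      rw [measure_diff (hsubU N) (haccm N).nullMeasurableSet (measure_ne_top _ _),
        ENNReal.toReal_sub_of_le (measure_mono (hsubU N)) (measure_ne_top _ _)]
    have h7 : (m (symmDiff (⋃ n, f n) B)).toReal
        ≤ (m ((⋃ n, f n) \ Set.accumulate f N)).toReal
          + (m (symmDiff (Set.accumulate f N) B)).toReal := by
      rw [← ENNReal.toReal_add (measure_ne_top _ _) (measure_ne_top _ _)]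
      exact ENNReal.toReal_mono (ENNReal.add_ne_top.2 ⟨measure_ne_top _ _, measure_ne_top _ _⟩)
        ((measure_mono hsub).trans (measure_union_le _ _))
    linarith

private theorem FN1_term (A B : Set Y) (c : ℂ) (y : Y) :
    ‖A.indicator (fun _ => c) y - B.indicator (fun _ => c) y‖ ≤
      ‖c‖ * (symmDiff A B).indicator (fun _ => (1 : ℝ)) y := by
  by_cases hA : y ∈ A <;> by_cases hB : y ∈ B <;>
    simp [Set.indicator, Set.mem_symmDiff, hA, hB]

private theorem FN1_net (f : Y → ℂ) {C : ℝ} (hC : ∀ y, ‖f y‖ ≤ C) {r : ℝ} (hr : 0 < r) :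
    ∃ (K : ℕ) (c : Fin K → ℂ), ∀ y, ∃ k, f y ∈ Metric.ball (c k) r := by
  have htb : TotallyBounded (Metric.closedBall (0 : ℂ) C) := (isCompact_closedBall _ _).totallyBounded
  obtain ⟨t, ht, htc⟩ := Metric.totallyBounded_iff.mp htb r hr
  refine ⟨ht.toFinset.card, fun k => (ht.toFinset.equivFin.symm k : ℂ), fun y => ?_⟩
  have h0 : f y ∈ Metric.closedBall (0 : ℂ) C := by
    rw [Metric.mem_closedBall, dist_zero_right]
    exact hC y
  have h1 := htc h0
  simp only [Set.mem_iUnion] at h1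
  obtain ⟨z, hz, hzy⟩ := h1
  refine ⟨ht.toFinset.equivFin ⟨z, ht.mem_toFinset.mpr hz⟩, ?_⟩
  simpa using hzy

/-- The pieces of the partition. -/
private def FN1_S {K : ℕ} (c : Fin K → ℂ) (r : ℝ) (k : Fin K) : Set ℂ :=
  Metric.ball (c k) r \ ⋃ l, ⋃ (_ : l < k), Metric.ball (c l) r

private theorem FN1_S_meas {K : ℕ} (c : Fin K → ℂ) (r : ℝ) (k : Fin K) :
    MeasurableSet (FN1_S c r k) :=
  Metric.isOpen_ball.measurableSet.diff
    (MeasurableSet.iUnion fun _ => MeasurableSet.iUnion fun _ => Metric.isOpen_ball.measurableSet)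

private theorem FN1_first {K : ℕ} (c : Fin K → ℂ) (r : ℝ) (z : ℂ)
    (h : ∃ k, z ∈ Metric.ball (c k) r) :
    ∃ k, z ∈ FN1_S c r k ∧ ∀ l, l ≠ k → z ∉ FN1_S c r l := by
  obtain ⟨k, hk, hmin⟩ := WellFounded.has_min (wellFounded_lt (α := Fin K))
    {k | z ∈ Metric.ball (c k) r} h
  refine ⟨k, ⟨hk, ?_⟩, fun l hl hz => ?_⟩
  · intro h1
    simp only [Set.mem_iUnion] at h1
    obtain ⟨l, hl, h2⟩ := h1
    exact hmin l h2 hl
  · rcases lt_or_gt_of_ne hl with h1 | h1
    · exact hmin l hz.1 h1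
    · refine hz.2 ?_
      simp only [Set.mem_iUnion]
      exact ⟨k, h1, hk⟩

private theorem FN1_main (ℬ : MeasurableSpace Y) [mY : MeasurableSpace Y]
    [mM : MeasurableSpace M] (m : Measure Y) [IsProbabilityMeasure m] (hle : ℬ ≤ mY)
    (v : Y → M) (hv : Measurable v) (f : Y → ℂ)
    (hf : Measurable[ℬ ⊔ MeasurableSpace.comap v mM] f)
    (hb : ∃ C : ℝ, ∀ y, ‖f y‖ ≤ C) (δ : ℝ) (hδ : 0 < δ) :
    ∃ f' : Y → ℂ, FN1_Q ℬ v f' ∧ l2 m (fun y => f y - f' y) ≤ δ := by
  obtain ⟨C, hC⟩ := hb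
  have hcle : ℬ ⊔ MeasurableSpace.comap v mM ≤ mY := sup_le hle hv.comap_le
  obtain ⟨K, c, hc⟩ := FN1_net f hC (half_pos hδ)
  obtain ⟨A, hA⟩ : ∃ A : Fin K → Set Y, A = fun k => f ⁻¹' FN1_S c (δ / 2) k := ⟨_, rfl⟩
  have hAm : ∀ k, MeasurableSet[ℬ ⊔ MeasurableSpace.comap v mM] (A k) := by
    intro k
    rw [hA]
    exact hf (FN1_S_meas c _ k)
  obtain ⟨T, hT⟩ : ∃ T : ℝ, T = ∑ k, ‖c k‖ := ⟨_, rfl⟩
  have hT0 : 0 ≤ T := by
    rw [hT]
    exact Finset.sum_nonneg fun k _ => norm_nonneg _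
  have hε : 0 < (δ / 2) ^ 2 / (T ^ 2 + 1) := by positivity
  choose B hB hAB using fun k => FN1_set ℬ m hle v hv (A k) (hAm k) _ hε
  have hAY : ∀ k, MeasurableSet (A k) := fun k => hcle _ (hAm k)
  have hBY : ∀ k, MeasurableSet (B k) := fun k => (hB k).1
  obtain ⟨f₁, hf₁⟩ : ∃ f₁ : Y → ℂ, f₁ = fun y => ∑ k, (A k).indicator (fun _ => c k) y := ⟨_, rfl⟩
  obtain ⟨f', hf'⟩ : ∃ f' : Y → ℂ, f' = fun y => ∑ k, (B k).indicator (fun _ => c k) y := ⟨_, rfl⟩
  have hb' : ∀ (D : Fin K → Set Y) (y : Y), ‖∑ k, (D k).indicator (fun _ => c k) y‖ ≤ T := by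
    intro D y
    rw [hT]
    refine (norm_sum_le _ _).trans (Finset.sum_le_sum fun k _ => ?_)
    exact norm_indicator_le_norm_self (fun _ => c k) y
  have hm₁ : Measurable f₁ := by
    rw [hf₁]
    exact Finset.measurable_fun_sum _ fun k _ => measurable_const.indicator (hAY k)
  have hmY' : Measurable f' := by
    rw [hf']
    exact Finset.measurable_fun_sum _ fun k _ => measurable_const.indicator (hBY k)
  have hQ : FN1_Q ℬ v f' := by
    rw [hf']
    refine FN1_sum K _ fun k => ?_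
    have h1 := FN1_mul (FN1_const (ℬ := ℬ) (v := v) (c k)) (hB k).2
    have h2 : (B k).indicator (fun _ => c k) =
        fun y => c k * (B k).indicator (fun _ => (1 : ℂ)) y := by
      funext y
      by_cases hy : y ∈ B k <;> simp [Set.indicator, hy]
    rw [h2]
    exact h1
  have hfY : Measurable f := hf.mono hcle le_rfl
  have hclose : ∀ y, ‖f y - f₁ y‖ ≤ δ / 2 := by
    intro y
    obtain ⟨k, hk, hl⟩ := FN1_first c (δ / 2) (f y) (hc y)
    have h1 : f₁ y = c k := by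
      rw [hf₁]
      show ∑ l, (A l).indicator (fun _ => c l) y = c k
      rw [Finset.sum_eq_single k]
      · exact Set.indicator_of_mem (by rw [hA]; exact hk) _
      · intro l _ hlk
        exact Set.indicator_of_notMem (by rw [hA]; exact hl l hlk) _
      · intro h2
        exact absurd (Finset.mem_univ k) h2
    rw [h1, ← dist_eq_norm]
    exact (Metric.mem_ball.mp hk.1).le
  refine ⟨f', hQ, ?_⟩
  have e1 : l2 m (fun y => f y - f₁ y) ≤ δ / 2 :=
    Pool.Agent.Lib.H22M.l2_le_of_bound _ (half_pos hδ).le (Filter.Eventually.of_forall hclose)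
  have e2 : l2 m (fun y => f₁ y - f' y) ≤ δ / 2 := by
    unfold l2
    rw [Real.sqrt_le_left (half_pos hδ).le]
    have h1 : ∀ y, ‖f₁ y - f' y‖ ≤
        ∑ k, ‖c k‖ * (symmDiff (A k) (B k)).indicator (fun _ => (1 : ℝ)) y := by
      intro y
      rw [hf₁, hf']
      show ‖(∑ k, (A k).indicator (fun _ => c k) y) - ∑ k, (B k).indicator (fun _ => c k) y‖ ≤ _
      rw [← Finset.sum_sub_distrib]
      exact (norm_sum_le _ _).trans (Finset.sum_le_sum fun k _ => FN1_term _ _ _ _)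
    have h2 : ∀ y, ∑ k, ‖c k‖ * (symmDiff (A k) (B k)).indicator (fun _ => (1 : ℝ)) y ≤ T := by
      intro y
      rw [hT]
      refine Finset.sum_le_sum fun k _ => ?_
      refine mul_le_of_le_one_right (norm_nonneg _) ?_
      exact Set.indicator_le_self' (fun _ _ => zero_le_one) y
    have h3 : ∀ y, ‖f₁ y - f' y‖ ^ 2 ≤
        T * ∑ k, ‖c k‖ * (symmDiff (A k) (B k)).indicator (fun _ => (1 : ℝ)) y := by
      intro y
      rw [sq]
      exact mul_le_mul ((h1 y).trans (h2 y)) (h1 y) (norm_nonneg _) hT0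
    have hsm : ∀ k, MeasurableSet (symmDiff (A k) (B k)) := fun k => (hAY k).symmDiff (hBY k)
    have hi : ∀ k, Integrable ((symmDiff (A k) (B k)).indicator (fun _ => (1 : ℝ))) m := fun k =>
      (integrable_const (1 : ℝ)).indicator (hsm k)
    have h4 : ∫ y, ‖f₁ y - f' y‖ ^ 2 ∂m ≤
        ∫ y, T * ∑ k, ‖c k‖ * (symmDiff (A k) (B k)).indicator (fun _ => (1 : ℝ)) y ∂m := by
      refine integral_mono_of_nonneg (Filter.Eventually.of_forall fun y => by positivity) ?_
        (Filter.Eventually.of_forall h3)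
      exact (integrable_finsetSum _ fun k _ => (hi k).const_mul _).const_mul _
    have h5 : ∫ y, T * ∑ k, ‖c k‖ * (symmDiff (A k) (B k)).indicator (fun _ => (1 : ℝ)) y ∂m =
        T * ∑ k, ‖c k‖ * (m (symmDiff (A k) (B k))).toReal := by
      rw [integral_const_mul, integral_finsetSum _ fun k _ => (hi k).const_mul _]
      congr 1
      refine Finset.sum_congr rfl fun k _ => ?_
      have h8 : ∫ y, (symmDiff (A k) (B k)).indicator (fun _ => (1 : ℝ)) y ∂m =
          (m (symmDiff (A k) (B k))).toReal := integral_indicator_one (hsm k)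
      rw [integral_const_mul, h8]
    have h6 : ∑ k, ‖c k‖ * (m (symmDiff (A k) (B k))).toReal ≤ T * ((δ / 2) ^ 2 / (T ^ 2 + 1)) := by
      have h7 : T * ((δ / 2) ^ 2 / (T ^ 2 + 1)) = ∑ k, ‖c k‖ * ((δ / 2) ^ 2 / (T ^ 2 + 1)) := by
        rw [← Finset.sum_mul, ← hT]
      rw [h7]
      exact Finset.sum_le_sum fun k _ => mul_le_mul_of_nonneg_left (hAB k).le (norm_nonneg _)
    calc ∫ y, ‖f₁ y - f' y‖ ^ 2 ∂m ≤ T * ∑ k, ‖c k‖ * (m (symmDiff (A k) (B k))).toReal := h4.trans_eq h5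
      _ ≤ T * (T * ((δ / 2) ^ 2 / (T ^ 2 + 1))) := mul_le_mul_of_nonneg_left h6 hT0
      _ = (δ / 2) ^ 2 * (T ^ 2 / (T ^ 2 + 1)) := by ring
      _ ≤ (δ / 2) ^ 2 * 1 := by
          refine mul_le_mul_of_nonneg_left ?_ (sq_nonneg _)
          rw [div_le_one (by positivity)]
          linarith
      _ = (δ / 2) ^ 2 := mul_one _
  have b1 : BM (fun y => f y - f₁ y) := by
    refine ⟨hfY.sub hm₁, C + T, fun y => (norm_sub_le _ _).trans (add_le_add (hC y) ?_)⟩
    rw [hf₁]
    exact hb' A y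
  have b2 : BM (fun y => f₁ y - f' y) := by
    refine ⟨hm₁.sub hmY', T + T, fun y => (norm_sub_le _ _).trans (add_le_add ?_ ?_)⟩
    · rw [hf₁]
      exact hb' A y
    · rw [hf']
      exact hb' B y
  have e3 := Pool.Agent.Lib.H22M.l2_add_le (m := m) b1 b2
  have e4 : (fun y => f y - f₁ y + (f₁ y - f' y)) = fun y => f y - f' y := by
    funext y
    ring
  rw [e4] at e3
  linarith

end FN1aux

/-- Proof. The sets `A ∩ v⁻¹ B`, `A` in `ℬ`, `B` measurable, form a π-system generating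
`ℬ ⊔ comap v`; finite disjoint unions of them form an algebra which is dense in measure (compare
`exists_approx_set` in `H82T/AP.lean`, or `MeasurableSpace.induction_on_inter`: the class of the sets `S` whose
indicator function can be approximated in `L²` by finite sums `∑ a_k r_k(v)` with `a_k` bounded
`ℬ`-measurable and `r_k` bounded measurable contains the π-system and is closed under complements and
countable disjoint unions). Then simple functions, and a uniform approximation of the bounded `f` by simple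
functions. -/
theorem exists_product_approx {Y M : Type*} (ℬ : MeasurableSpace Y) [mY : MeasurableSpace Y]
    [MeasurableSpace M] (m : Measure Y) [IsProbabilityMeasure m] (hle : ℬ ≤ mY) (v : Y → M)
    (hv : Measurable v) (f : Y → ℂ) (hf : Measurable[ℬ ⊔ MeasurableSpace.comap v inferInstance] f)
    (hb : ∃ C : ℝ, ∀ y, ‖f y‖ ≤ C) (δ : ℝ) (hδ : 0 < δ) :
    ∃ (n : ℕ) (a : Fin n → Y → ℂ) (r : Fin n → M → ℂ),
      (∀ k, Measurable[ℬ] (a k) ∧ ∃ C : ℝ, ∀ y, ‖a k y‖ ≤ C) ∧ (∀ k, BM (r k)) ∧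
      l2 m (fun y => f y - ∑ k, a k y * r k (v y)) ≤ δ := by
  obtain ⟨f', ⟨ι, hι, a, r, h1, h2, h3⟩, h4⟩ := FN1_main ℬ m hle v hv f hf hb δ hδ
  refine ⟨Fintype.card ι, fun k => a ((Fintype.equivFin ι).symm k),
    fun k => r ((Fintype.equivFin ι).symm k), fun k => h1 _, fun k => h2 _, ?_⟩
  have h5 : (fun y => f y - ∑ k, a ((Fintype.equivFin ι).symm k) y *
      r ((Fintype.equivFin ι).symm k) (v y)) = fun y => f y - f' y := by
    funext y
    rw [h3 y]
    congr 1
    exact Equiv.sum_comp (Fintype.equivFin ι).symm (fun k => a k y * r k (v y))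
  rw [h5]
  exact h4

end Pool.Agent.Lib.H82OT
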