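import Pool.Agent.Lib.H82OT.GR3
import Pool.Agent.Lib.H82OT.EV5

/-!
# Project H82OT, chunk GR4: QS for arbitrary finite rank modules
-/

open MeasureTheory Filter Topology Finset ProbabilityTheory
open scoped ENNReal ComplexConjugate Matrix

namespace Pool.Agent.Lib.H82OT

open Pool.Agent.Lib.H22M Pool.Agent.Lib.H82T

private theorem gr4_meas {Ω : Type*} [MeasurableSpace Ω] {d : ℕ} (a b : Fin d → Ω → ℂ)
    (ha : ∀ i, Measurable (a i)) (hb : ∀ i, Measurable (b i)) :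
    Measurable fun ω => ∑ i, a i ω * b i ω :=
  Finset.measurable_fun_sum _ fun i _ => (ha i).mul (hb i)

private theorem gr4_row {Y : Type*} {d : ℕ} (ℬ : MeasurableSpace Y) (F : Y → Fin d → ℂ)
    (hF : RowB ℬ F) (A : Y → Matrix (Fin d) (Fin d) ℂ) (hA : ∀ i j, Measurable[ℬ] fun y => A y i j)
    {C' : ℝ} (hb : ∀ y i j, ‖A y i j‖ ≤ C') : RowB ℬ fun y => F y ᵥ* A y := by
  obtain ⟨h1, C, hC⟩ := hF
  refine ⟨fun j => ?_, ∑ _i : Fin d, C * C', fun y j => ?_⟩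
  · exact @gr4_meas Y ℬ d (fun i y => F y i) (fun i y => A y i j) h1 (fun i => hA i j)
  · show ‖∑ i, F y i * A y i j‖ ≤ _
    refine (norm_sum_le _ _).trans (Finset.sum_le_sum fun i _ => ?_)
    rw [norm_mul]
    exact mul_le_mul (hC y i) (hb y i j) (norm_nonneg _) ((norm_nonneg _).trans (hC y i))

/-- Proof. `exists_normal_module`; `F ⬝ᵥ E = (F ᵥ* A) ⬝ᵥ E'` a.e. is in `ModV ℬ m E'`; `QS_mod`. -/
theorem QS_module {Y : Type*} {d : ℕ} (𝒵 ℬ : MeasurableSpace Y) [mY : MeasurableSpace Y]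
    [StandardBorelSpace Y] {m : Measure Y} [IsProbabilityMeasure m] (R : Y ≃ᵐ Y)
    (hR : Ergodic R m) (hk : KronAlg 𝒵 m R) (hgood : Good 𝒵 ℬ m R)
    (Φ : Y → Matrix (Fin d) (Fin d) ℂ) (hΦ : ∀ i j, Measurable[ℬ] fun y => Φ y i j)
    (hu : ∀ y, Φ y * (Φ y)ᴴ = 1) (E : Y → Fin d → ℂ) (hE : ∀ i, BM fun y => E y i)
    (hrel : ∀ᵐ y ∂m, E (R y) = Φ y *ᵥ E y) (F : Y → Fin d → ℂ) (hF : RowB ℬ F) :
    QS m R (fun y => F y ⬝ᵥ E y) := by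
  obtain ⟨Γ, A, E', hM, hA, ⟨C, hC⟩, hEA⟩ :=
    exists_normal_module ℬ hgood.le R hR hgood.inv Φ hΦ hu E hE hrel
  obtain ⟨hF1, CF, hCF⟩ := id hF
  have hbm : BM fun y => F y ⬝ᵥ E y :=
    BM.sum _ fun i _ => (bm_mono hgood.le (hF1 i) fun y => hCF y i).mul (hE i)
  refine QS_mod 𝒵 ℬ R hR hk hgood hM _
    ⟨hbm, fun y => F y ᵥ* A y, gr4_row ℬ F hF A hA hC, ?_⟩
  filter_upwards [hEA] with y hy
  rw [hy, Matrix.dotProduct_mulVec]

end Pool.Agent.Lib.H82OT
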