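import Pool.Agent.Lib.H82OT.FN2
import Pool.Agent.Lib.H82OT.GR4

/-!
# Project H82OT, chunk FN3: functions of the top step have the property QS
-/

open MeasureTheory Filter Topology Finset ProbabilityTheory
open scoped ENNReal ComplexConjugate Matrix

namespace Pool.Agent.Lib.H82OT

open Pool.Agent.Lib.H22M Pool.Agent.Lib.H82T

/-- Proof. `QS.approx` and `exists_finite_type`; for the finite type function apply `QS_module` (GR4) with
`E y i = G i (v y)`, `Φ y = Matrix.of (D (φ y))` (`ℬ`-measurable: `FTD.measD`, `hφ`; unitary: `FTD.unit`;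
`E (R y) i = G i (φ y • v y) = ∑_j D (φ y) i j * G j (v y)`: `FTD.rel`; `G i` is continuous on the compact
`M`, so bounded: `FTD.cont`). -/
theorem QS_top {Y K M : Type*} (𝒵 ℬ : MeasurableSpace Y) [mY : MeasurableSpace Y]
    [StandardBorelSpace Y] [Group K] [TopologicalSpace K]
    [IsTopologicalGroup K] [CompactSpace K] [T2Space K] [SecondCountableTopology K]
    [MeasurableSpace K] [BorelSpace K]
    [TopologicalSpace M] [CompactSpace M] [T2Space M] [SecondCountableTopology M]
    [MeasurableSpace M] [BorelSpace M]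
    [MulAction K M] [ContinuousSMul K M] [MulAction.IsPretransitive K M]
    (muM : Measure M) [IsProbabilityMeasure muM] [SMulInvariantMeasure K M muM]
    {m : Measure Y} [IsProbabilityMeasure m] (R : Y ≃ᵐ Y) (hR : Ergodic R m)
    (hk : KronAlg 𝒵 m R) (hgood : Good 𝒵 ℬ m R) (v : Y → M)
    (hv : MeasurePreserving v m muM) (φ : Y → K) (hφ : Measurable[ℬ] φ)
    (hvR : ∀ y, v (R y) = φ y • v y) (f : Y → ℂ)
    (hf : Measurable[ℬ ⊔ MeasurableSpace.comap v inferInstance] f)
    (hb : ∃ C : ℝ, ∀ y, ‖f y‖ ≤ C) : QS m R f := by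
  have hle : ℬ ≤ mY := hgood.le
  have hvm : Measurable v := hv.measurable
  have hfm : Measurable f := hf.mono (sup_le hle hvm.comap_le) le_rfl
  refine QS.approx f ⟨hfm, hb⟩ fun δ hδ => ?_
  obtain ⟨d, G, D, F, hD, hF, hl2⟩ := exists_finite_type (K := K) ℬ muM m hle v hv f hf hb δ hδ
  have hE : ∀ i, BM (fun y => G i (v y)) := by
    intro i
    refine ⟨(hD.cont i).measurable.comp hvm, ?_⟩
    obtain ⟨C, hC⟩ := (isCompact_range (hD.cont i)).isBounded.exists_norm_le
    exact ⟨C, fun y => hC _ ⟨v y, rfl⟩⟩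
  have hFm : ∀ i, Measurable fun y => F y i := fun i => (hF.1 i).mono hle le_rfl
  obtain ⟨CF, hCF⟩ := hF.2
  refine ⟨fun y => ∑ i, F y i * G i (v y), ⟨?_, ?_⟩, ?_, hl2⟩
  · exact Finset.measurable_fun_sum _ fun i _ => (hFm i).mul (hE i).1
  · choose C hC using fun i => (hE i).2
    refine ⟨∑ i, |CF| * |C i|, fun y => ?_⟩
    refine (norm_sum_le _ _).trans (Finset.sum_le_sum fun i _ => ?_)
    rw [norm_mul]
    exact mul_le_mul ((hCF y i).trans (le_abs_self _)) ((hC i y).trans (le_abs_self _))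
      (norm_nonneg _) (abs_nonneg _)
  · refine QS_module 𝒵 ℬ R hR hk hgood (fun y => Matrix.of (D (φ y)))
      (fun i j => (hD.measD i j).comp hφ) ?_ (fun y i => G i (v y)) hE
      (Eventually.of_forall fun y => ?_) F hF
    · intro y
      ext i j
      rw [Matrix.mul_apply, Matrix.one_apply]
      exact hD.unit (φ y) i j
    · funext i
      show G i (v (R y)) = ∑ j, D (φ y) i j * G j (v y)
      rw [hvR]
      exact hD.rel (φ y) (v y) i

end Pool.Agent.Lib.H82OT
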