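import Pool.Agent.Lib.H82OT.QS1
import Pool.Agent.Lib.H82T.F2

/-!
# Project H82OT, chunk FN4: all bounded functions have the property QS
-/

open MeasureTheory Filter Topology Finset ProbabilityTheory
open scoped ENNReal ComplexConjugate Matrix

namespace Pool.Agent.Lib.H82OT

open Pool.Agent.Lib.H22M Pool.Agent.Lib.H82T

/-- Proof. `QS.approx`: by `f2_approx` (`H82T/F2.lean`) for `𝒮 = Set.range 𝒞` (nonempty, directed,
`sSup (Set.range 𝒞) = ⨆ i, 𝒞 i`) every bounded measurable `F` is approximated in `l2 m` by bounded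
`𝒞 i`-measurable functions. -/
theorem QS_all {Y ι : Type*} [Nonempty ι] (𝒞 : ι → MeasurableSpace Y) [mY : MeasurableSpace Y]
    {m : Measure Y} [IsProbabilityMeasure m] {R : Y → Y} (hdir : Directed (· ≤ ·) 𝒞)
    (hle : ∀ i, 𝒞 i ≤ mY)
    (hgen : ∀ A : Set Y, MeasurableSet A → ∃ B, MeasurableSet[⨆ i, 𝒞 i] B ∧ m (symmDiff A B) = 0)
    (hQ : ∀ (i : ι) (f : Y → ℂ), Measurable[𝒞 i] f → (∃ C : ℝ, ∀ y, ‖f y‖ ≤ C) → QS m R f)
    (F : Y → ℂ) (hF : BM F) : QS m R F := by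
  refine QS.approx F hF fun δ hδ => ?_
  have hne : (Set.range 𝒞).Nonempty := Set.range_nonempty 𝒞
  have hdir' : DirectedOn (· ≤ ·) (Set.range 𝒞) := directedOn_range.2 hdir
  have hle' : ∀ ℬ ∈ Set.range 𝒞, ℬ ≤ mY := by
    rintro _ ⟨i, rfl⟩
    exact hle i
  obtain ⟨⟨_, i, rfl⟩, f', hf', hb', hd⟩ := f2_approx (Set.range 𝒞) m hne hdir' hle'
    (by
      rw [sSup_range]
      exact hgen) F hF.1 hF.2 δ hδ
  exact ⟨f', ⟨hf'.mono (hle i) le_rfl, hb'⟩, hQ i f' hf' hb', hd⟩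

end Pool.Agent.Lib.H82OT
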