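import Pool.Agent.Lib.H82OT.Defs
import Pool.Agent.Lib.H82T.S2

/-!
# Project H82OT, chunk SM1: module lemma for Small, almost everywhere version
-/

open MeasureTheory Filter Topology Finset ProbabilityTheory
open scoped ENNReal ComplexConjugate Matrix

namespace Pool.Agent.Lib.H82OT

open Pool.Agent.Lib.H22M Pool.Agent.Lib.H82T

/-- The version of `small_of_module` (`H82T/S2.lean`) in which the identity for `f ∘ R^n` holds almost
everywhere only. Proof. Let `N₀` be the exceptional null set (the union over `n` of the exceptional sets) and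
`N = ⋃_n (R^n)⁻¹ N₀`, a null set with `R⁻¹ N ⊆ N`... Simplest: repeat the proof of `small_of_module`, in which
the identity is only used under integrals with respect to self-couplings `ν`, whose marginals are `m`. Or:
put `f' = f` and `G' n x = G n x` off the null set `N' = {y | ∃ n, f (R^n y) ≠ ∑ ...}` and note that the
statement for `f` only needs the identity `ν`-a.e. -/
theorem small_of_module_ae {Y ι : Type*} [MeasurableSpace Y] {m : Measure Y}
    [IsProbabilityMeasure m] {R : Y → Y} (hR : Ergodic R m) [Fintype ι] (f : Y → ℂ) (hf : BM f)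
    (χ : ι → Y → ℂ) (hχ : ∀ x, Measurable (χ x)) (hχ1 : ∀ x y, ‖χ x y‖ ≤ 1)
    (G : ℕ → ι → Y → ℂ) (hG : ∀ n x, Measurable (G n x)) (C : ℝ) (hC : ∀ n x y, ‖G n x y‖ ≤ C)
    (hfG : ∀ n, ∀ᵐ y ∂m, f (R^[n] y) = ∑ x, χ x y * G n x y)
    (h : ∀ n j x, Small m R (fun y => G n x y * conj (G j x y))) : Small m R f := by
  classical
  intro g hg ε hε
  have hRm : Measurable R := hR.toMeasurePreserving.measurable
  have hRn : ∀ n, Measurable (R^[n]) := fun n => hRm.iterate n
  set d : ℕ := Fintype.card ι with hd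
  set ε' : ℝ := (ε / (d + 1)) ^ 2 / 2 with hε'
  have hε'0 : 0 < ε' := by positivity
  set δ : ℝ := ε' / (C ^ 2 + 1) with hδ
  have hδ0 : 0 < δ := by positivity
  obtain ⟨k, c, e, he, N, hN, hcorr⟩ := exists_uncorrelated hR g hg δ hδ0
  set g' : Y → ℂ := fun y => g y - ∫ x, g x ∂m - ∑ i, e i y with hg'
  have hBMe : BM fun y => ∑ i, e i y := BM.sum Finset.univ fun i _ => (he i).1
  have hBMg' : BM g' := (hg.sub (BM.const _)).sub hBMe
  have hb : ∀ n, BM fun y => g' (R^[n] y) := fun n => hBMg'.comp (hRn n)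
  have hGB : ∀ n x, BM (G n x) := fun n x => ⟨hG n x, C, hC n x⟩
  have hχB : ∀ x, BM (χ x) := fun x => ⟨hχ x, 1, hχ1 x⟩
  choose F hF1 hF using fun (n j : ℕ) (x : ι) =>
    h n j x (fun y => g' (R^[n] y) * conj (g' (R^[j] y))) ((hb n).mul (hb j).conj) ε' hε'0
  set FF : Finset ℂ := ((Finset.range N ×ˢ Finset.range N ×ˢ (Finset.univ : Finset ι)).biUnion
    fun t => F t.1 t.2.1 t.2.2) ∪ Finset.image c Finset.univ with hFF
  refine ⟨FF, ?_, ?_⟩
  · rw [hFF, Finset.mem_union, not_or]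
    constructor
    · rw [Finset.mem_biUnion]
      rintro ⟨t, _, ht⟩
      exact hF1 _ _ _ ht
    · rw [Finset.mem_image]
      rintro ⟨i, _, hi⟩
      exact (he i).2.1 hi
  intro ν hν hK
  have := hν.prob
  have hfst : MeasurePreserving (Prod.fst : Y × Y → Y) ν m := ⟨measurable_fst, hν.fst⟩
  have hKF : ∀ n ∈ Finset.range N, ∀ j ∈ Finset.range N, ∀ x, Kills m R (F n j x) ν := by
    intro n hn j hj x a ha
    refine hK a ?_
    rw [hFF, Finset.mem_union]
    left
    rw [Finset.mem_biUnion]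
    exact ⟨(n, j, x), by simp only [Finset.mem_product, Finset.mem_univ, and_true]; exact ⟨hn, hj⟩,
      ha⟩
  have hKc : ∀ i, ∫ z, f z.1 * e i z.2 ∂ν = 0 := by
    intro i
    refine (hK (c i) ?_ (he i).2.2.1 (e i) (he i).1 (he i).2.2.2 f hf).2
    rw [hFF, Finset.mem_union]
    right
    exact Finset.mem_image_of_mem _ (Finset.mem_univ i)
  -- step 1
  have hstep1 : ∫ z, f z.1 * g z.2 ∂ν - (∫ y, f y ∂m) * ∫ y, g y ∂m = ∫ z, f z.1 * g' z.2 ∂ν := by
    have i1 : Integrable (fun z : Y × Y => f z.1 * g z.2) ν :=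
      ((hf.comp measurable_fst).mul (hg.comp measurable_snd)).integrable
    have i2 : Integrable (fun z : Y × Y => f z.1 * ∫ y, g y ∂m) ν :=
      ((hf.comp measurable_fst).mul (BM.const _)).integrable
    have i3 : ∀ i ∈ (Finset.univ : Finset (Fin k)),
        Integrable (fun z : Y × Y => f z.1 * e i z.2) ν := fun i _ =>
      ((hf.comp measurable_fst).mul ((he i).1.comp measurable_snd)).integrable
    have e1 : ∀ z : Y × Y, f z.1 * g' z.2 =
        (f z.1 * g z.2 - f z.1 * ∫ y, g y ∂m) - ∑ i, f z.1 * e i z.2 := by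
      intro z
      rw [hg', ← Finset.mul_sum]
      ring
    simp_rw [e1]
    have i12 : Integrable (fun z : Y × Y => f z.1 * g z.2 - f z.1 * ∫ y, g y ∂m) ν := i1.sub i2
    have i4 : Integrable (fun z : Y × Y => ∑ i, f z.1 * e i z.2) ν := integrable_finsetSum _ i3
    rw [integral_sub i12 i4, integral_sub i1 i2, integral_finsetSum _ i3, Finset.sum_eq_zero (fun i _ => hKc i), sub_zero,
      integral_mul_const, hν.bm_fst hf]
  rw [hstep1]
  -- step 2
  set S : ι → Y × Y → ℂ := fun x z => ∑ n ∈ Finset.range N, G n x z.1 * g' (R^[n] z.2) with hS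
  have hSB : ∀ x, BM (S x) := fun x => BM.sum _ fun n _ =>
    ((hGB n x).comp measurable_fst).mul ((hb n).comp measurable_snd)
  have hstep2 : (N : ℂ) * ∫ z, f z.1 * g' z.2 ∂ν = ∑ x, ∫ z, χ x z.1 * S x z ∂ν := by
    have e1 : ∀ n : ℕ, ∫ z, f z.1 * g' z.2 ∂ν =
        ∑ x, ∫ z, χ x z.1 * (G n x z.1 * g' (R^[n] z.2)) ∂ν := by
      intro n
      rw [s2_iter hν hf.1 hBMg'.1 n, ← integral_finsetSum]
      · refine integral_congr_ae ?_
        filter_upwards [hfst.quasiMeasurePreserving.ae (hfG n)] with z hz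
        rw [hz, Finset.sum_mul]
        exact Finset.sum_congr rfl fun x _ => by ring
      · intro x _
        exact (((hχB x).comp measurable_fst).mul (((hGB n x).comp measurable_fst).mul
          ((hb n).comp measurable_snd))).integrable
    have e2 : (N : ℂ) * ∫ z, f z.1 * g' z.2 ∂ν =
        ∑ n ∈ Finset.range N, ∫ z, f z.1 * g' z.2 ∂ν := by
      rw [Finset.sum_const, Finset.card_range, nsmul_eq_mul]
    rw [e2, Finset.sum_congr rfl fun n _ => e1 n, Finset.sum_comm]
    refine Finset.sum_congr rfl fun x _ => ?_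
    rw [← integral_finsetSum]
    · refine integral_congr_ae (Eventually.of_forall fun z => ?_)
      simp only [hS]
      rw [Finset.mul_sum]
    · intro n _
      exact (((hχB x).comp measurable_fst).mul (((hGB n x).comp measurable_fst).mul
        ((hb n).comp measurable_snd))).integrable
  -- step 3
  have hN0 : (0 : ℝ) < N := by exact_mod_cast hN
  have hstep3 : ∀ x, l2 ν (S x) ≤ N * (ε / (d + 1)) := by
    intro x
    have hC0 : 0 ≤ C := by
      have : Nonempty Y := nonempty_of_isProbabilityMeasure m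
      exact (norm_nonneg _).trans (hC 0 x (Classical.arbitrary Y))
    have hterm : ∀ n ∈ Finset.range N, ∀ j ∈ Finset.range N,
        ‖∫ z, (G n x z.1 * conj (G j x z.1)) *
          ((fun n y => g' (R^[n] y)) n z.2 * conj ((fun n y => g' (R^[n] y)) j z.2)) ∂ν‖ ≤
        ε' + C ^ 2 * ‖∫ y, g' (R^[n] y) * conj (g' (R^[j] y)) ∂m‖ := by
      intro n hn j hj
      have h1 := hF n j x ν hν (hKF n hn j hj x)
      have h2 : ‖∫ y, G n x y * conj (G j x y) ∂m‖ ≤ C ^ 2 := by
        refine (norm_integral_le_of_norm_le_const (C := C ^ 2)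
          (Eventually.of_forall fun y => ?_)).trans ?_
        · rw [norm_mul, RCLike.norm_conj, sq]
          exact mul_le_mul (hC n x y) (hC j x y) (norm_nonneg _) hC0
        · simp
      have h3 : ‖(∫ y, G n x y * conj (G j x y) ∂m) *
          ∫ y, g' (R^[n] y) * conj (g' (R^[j] y)) ∂m‖ ≤
          C ^ 2 * ‖∫ y, g' (R^[n] y) * conj (g' (R^[j] y)) ∂m‖ := by
        rw [norm_mul]
        exact mul_le_mul_of_nonneg_right h2 (norm_nonneg _)
      have h4 := norm_add_le
        (∫ z, (G n x z.1 * conj (G j x z.1)) * (g' (R^[n] z.2) * conj (g' (R^[j] z.2))) ∂ν -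
          (∫ y, G n x y * conj (G j x y) ∂m) * ∫ y, g' (R^[n] y) * conj (g' (R^[j] y)) ∂m)
        ((∫ y, G n x y * conj (G j x y) ∂m) * ∫ y, g' (R^[n] y) * conj (g' (R^[j] y)) ∂m)
      rw [sub_add_cancel] at h4
      exact h4.trans (add_le_add h1 h3)
    have h5 := s2_sum (ν := ν) (Finset.range N) (fun n => G n x) (fun n y => g' (R^[n] y))
      (fun n => hGB n x) hb
      (fun n j => ε' + C ^ 2 * ‖∫ y, g' (R^[n] y) * conj (g' (R^[j] y)) ∂m‖) hterm
    have h6 : ∑ n ∈ Finset.range N, ∑ j ∈ Finset.range N,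
        (ε' + C ^ 2 * ‖∫ y, g' (R^[n] y) * conj (g' (R^[j] y)) ∂m‖) ≤
        (N : ℝ) ^ 2 * (ε' + C ^ 2 * δ) := by
      have e1 : ∑ n ∈ Finset.range N, ∑ j ∈ Finset.range N,
          (ε' + C ^ 2 * ‖∫ y, g' (R^[n] y) * conj (g' (R^[j] y)) ∂m‖) =
          (N : ℝ) ^ 2 * ε' + C ^ 2 * ∑ n ∈ Finset.range N, ∑ j ∈ Finset.range N,
            ‖∫ y, g' (R^[n] y) * conj (g' (R^[j] y)) ∂m‖ := by
        simp_rw [Finset.sum_add_distrib, Finset.mul_sum, Finset.sum_const, Finset.card_range,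
          nsmul_eq_mul]
        ring
      rw [e1]
      have e2 : C ^ 2 * ∑ n ∈ Finset.range N, ∑ j ∈ Finset.range N,
            ‖∫ y, g' (R^[n] y) * conj (g' (R^[j] y)) ∂m‖ ≤ C ^ 2 * (δ * (N : ℝ) ^ 2) :=
        mul_le_mul_of_nonneg_left hcorr (sq_nonneg C)
      linarith
    have h7 : C ^ 2 * δ ≤ ε' := by
      rw [hδ, ← mul_div_assoc, div_le_iff₀ (by positivity)]
      nlinarith [sq_nonneg C]
    have h8 : l2 ν (S x) ^ 2 ≤ (N * (ε / (d + 1))) ^ 2 := by
      refine (h5.trans h6).trans ?_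
      have h9 : ε' + C ^ 2 * δ ≤ (ε / (d + 1)) ^ 2 := by
        have : ε' + ε' = (ε / (d + 1)) ^ 2 := by rw [hε']; ring
        linarith
      rw [mul_pow]
      exact mul_le_mul_of_nonneg_left h9 (by positivity)
    exact le_of_sq_le_sq h8 (by positivity)
  have hstep4 : (N : ℝ) * ‖∫ z, f z.1 * g' z.2 ∂ν‖ ≤ d * (N * (ε / (d + 1))) := by
    have e1 : (N : ℝ) * ‖∫ z, f z.1 * g' z.2 ∂ν‖ = ‖(N : ℂ) * ∫ z, f z.1 * g' z.2 ∂ν‖ := by
      rw [norm_mul, Complex.norm_natCast]
    rw [e1, hstep2]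
    refine (norm_sum_le _ _).trans ?_
    refine (Finset.sum_le_sum fun x _ => (s2_cs (hχ x) (hχ1 x) (hSB x)).trans (hstep3 x)).trans ?_
    rw [Finset.sum_const, nsmul_eq_mul, Finset.card_univ]
  have hstep5 : ‖∫ z, f z.1 * g' z.2 ∂ν‖ ≤ d * (ε / (d + 1)) := by
    have : (N : ℝ) * ‖∫ z, f z.1 * g' z.2 ∂ν‖ ≤ N * (d * (ε / (d + 1))) := by
      calc _ ≤ _ := hstep4
        _ = _ := by ring
    exact le_of_mul_le_mul_left this hN0
  refine hstep5.trans ?_
  rw [← mul_div_assoc, div_le_iff₀ (by positivity)]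
  nlinarith

end Pool.Agent.Lib.H82OT
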