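import Pool.Agent.Lib.H82OT.Defs
import Pool.Agent.Lib.H82OT.SM1
import Pool.Agent.Lib.H82T.S4
import Pool.Agent.Lib.H82T.S1B

/-!
# Project H82OT, chunk NB8: functions of the base are Small
-/

open MeasureTheory Filter Topology Finset ProbabilityTheory
open scoped ENNReal ComplexConjugate Matrix

namespace Pool.Agent.Lib.H82OT

open Pool.Agent.Lib.H22M Pool.Agent.Lib.H82T

/-- Proof. As `small_base` in `H82T/S4.lean`, with the compact group `Z × G × W` (or `(Z × G) × W`): a bounded
function measurable for `comap (π, u) ⊔ comap P = comap (π, u, P)` is `F (π, u, P)`; trigonometric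
polynomials are dense in `L²` of the law of `(π, u, P)`, so by `small_of_approx`, `small_sum` it is enough to
treat a character `f y = χ₁ (π y) * χ₂ (u y) * χ₃ (P y)`. `f (R^n y) = χ₂ (u y) * G n y` for almost every `y`,
`G n y = χ₁ (α^n π y) χ₂ (φ_n (π y)) χ₃ (c^n P y)` with `φ_n z = ∏_{j<n} φ (α^j z)`, and
`G n conj (G j)` is a function of `π` alone up to a constant: `= const * χ₂ (φ_n (π y)) conj (χ₂ (φ_j (π y)))`
(the factors `χ₁ (π y)`, `χ₃ (P y)` cancel), which is `Small` by `small_rotation`. Apply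
`small_of_module_ae` (`SM1.lean`) with one index `x`, `χ x = χ₂ (u y)`. -/
theorem small_base_G {Y Z G W : Type*} [MeasurableSpace Y] {m : Measure Y}
    [IsProbabilityMeasure m] [MeasurableSpace Circle] [BorelSpace Circle]
    [CommGroup Z] [TopologicalSpace Z] [IsTopologicalGroup Z]
    [CompactSpace Z] [T2Space Z] [SecondCountableTopology Z] [MeasurableSpace Z] [BorelSpace Z]
    [CommGroup G] [TopologicalSpace G] [IsTopologicalGroup G]
    [CompactSpace G] [T2Space G] [SecondCountableTopology G] [MeasurableSpace G] [BorelSpace G]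
    [CommGroup W] [TopologicalSpace W] [IsTopologicalGroup W]
    [CompactSpace W] [T2Space W] [SecondCountableTopology W] [MeasurableSpace W] [BorelSpace W]
    {R : Y → Y} (hR : Ergodic R m) (π : Y → Z) (hπ : Measurable π) (α : Z)
    (hπR : ∀ y, π (R y) = α * π y)
    (u : Y → G) (hu : Measurable u) (φ : Z → G) (hφ : Measurable φ)
    (huR : ∀ y, u (R y) = φ (π y) * u y) (P : Y → W) (c : W) (hk : Kron m R P c)
    (f : Y → ℂ)
    (hf : Measurable[MeasurableSpace.comap (fun y => (π y, u y)) inferInstance ⊔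
      MeasurableSpace.comap P inferInstance] f)
    (hb : ∃ C : ℝ, ∀ y, ‖f y‖ ≤ C) : Small m R f := by
  classical
  have hPm : Measurable P := hk.meas
  rw [← MeasurableSpace.comap_prodMk] at hf
  obtain ⟨F₀, hF₀, hfF⟩ := hf.exists_eq_measurable_comp
  obtain ⟨C, hC⟩ := hb
  have hp : Measurable fun y => ((π y, u y), P y) := (hπ.prodMk hu).prodMk hPm
  have hset : MeasurableSet {w : (Z × G) × W | ‖F₀ w‖ ≤ C} :=
    measurableSet_le hF₀.norm measurable_const
  set F : (Z × G) × W → ℂ := fun w => if ‖F₀ w‖ ≤ C then F₀ w else 0 with hFdef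
  have hF : BM F := by
    refine ⟨Measurable.ite hset hF₀ measurable_const, |C|, fun w => ?_⟩
    simp only [hFdef]
    split_ifs with h
    · exact h.trans (le_abs_self C)
    · simp
  have hff : f = fun y => F ((π y, u y), P y) := by
    funext y
    have h1 : f y = F₀ ((π y, u y), P y) := by rw [hfF]; rfl
    have h2 : ‖F₀ ((π y, u y), P y)‖ ≤ C := h1 ▸ hC y
    simp only [hFdef]
    rw [if_pos h2, h1]
  rw [hff]
  -- iterates
  set φn : ℕ → Z → G := fun n z => ∏ j ∈ range n, φ (α ^ j * z) with hφn
  have hπn : ∀ n y, π (R^[n] y) = α ^ n * π y := by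
    intro n y
    induction n with
    | zero => simp
    | succ n ih => rw [Function.iterate_succ_apply', hπR, ih, pow_succ', mul_assoc]
  have hun : ∀ n y, u (R^[n] y) = φn n (π y) * u y := by
    intro n y
    induction n with
    | zero => simp [hφn]
    | succ n ih =>
      have e1 : φn (n + 1) (π y) = φn n (π y) * φ (α ^ n * π y) := by
        simp only [hφn]
        exact Finset.prod_range_succ _ _
      rw [Function.iterate_succ_apply', huR, ih, hπn, e1, ← mul_assoc,
        mul_comm (φn n (π y))]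
  have hRmp : MeasurePreserving R m m := hR.toMeasurePreserving
  have hPn : ∀ n, ∀ᵐ y ∂m, P (R^[n] y) = c ^ n * P y := by
    intro n
    induction n with
    | zero => exact Eventually.of_forall fun y => by simp
    | succ n ih =>
      have h1 : ∀ᵐ y ∂m, P (R (R^[n] y)) = c * P (R^[n] y) :=
        (hRmp.iterate n).quasiMeasurePreserving.ae hk.equi
      filter_upwards [ih, h1] with y hy1 hy2
      rw [Function.iterate_succ_apply', hy2, hy1, pow_succ', mul_assoc]
  have hφm : ∀ n, Measurable (φn n) := by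
    intro n
    refine Finset.measurable_prod _ fun j _ => ?_
    exact hφ.comp (continuous_const.mul continuous_id).measurable
  refine small_of_approx _ (hF.comp hp) fun δ hδ => ?_
  have hpr : IsProbabilityMeasure (m.map fun y => ((π y, u y), P y)) :=
    Measure.isProbabilityMeasure_map hp.aemeasurable
  obtain ⟨S, t, hS⟩ := tg_approx (m.map fun y => ((π y, u y), P y)) F hF δ hδ
  have hχ : ∀ χ : PontryaginDual ((Z × G) × W), BM fun y => ((χ ((π y, u y), P y) : Circle) : ℂ) :=
    fun χ => (s4_char χ).comp hp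
  refine ⟨fun y => ∑ χ ∈ S, t χ * ((χ ((π y, u y), P y) : Circle) : ℂ),
    BM.sum S fun χ _ => (BM.const (t χ)).mul (hχ χ), ?_, ?_⟩
  · refine small_sum S t (fun χ y => ((χ ((π y, u y), P y) : Circle) : ℂ)) (fun χ _ => hχ χ)
      fun χ _ => ?_
    have hχc := CompactAbelian.continuous_char χ
    have hg : ∀ n, BM fun y : Y => ((χ ((α ^ n * π y, φn n (π y)), c ^ n * P y) : Circle) : ℂ) :=
      fun n => (s4_char χ).comp
        ((((continuous_const.mul continuous_id).measurable.comp hπ).prodMk
          ((hφm n).comp hπ)).prodMk ((continuous_const.mul continuous_id).measurable.comp hPm))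
    refine small_of_module_ae (ι := Unit) hR _ (hχ χ)
      (fun _ y => ((χ ((1, u y), 1) : Circle) : ℂ))
      (fun _ => hχc.measurable.comp ((measurable_const.prodMk hu).prodMk measurable_const))
      (fun _ y => (Circle.norm_coe _).le)
      (fun n _ y => ((χ ((α ^ n * π y, φn n (π y)), c ^ n * P y) : Circle) : ℂ))
      (fun n _ => (hg n).1) 1 (fun n _ y => (Circle.norm_coe _).le) ?_ ?_
    · intro n
      filter_upwards [hPn n] with y hy
      have e : (((π (R^[n] y), u (R^[n] y)), P (R^[n] y)) : (Z × G) × W) =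
          ((1, u y), 1) * ((α ^ n * π y, φn n (π y)), c ^ n * P y) := by
        rw [hπn, hun, hy, Prod.mk_mul_mk, Prod.mk_mul_mk, one_mul, one_mul, mul_comm (u y)]
      simp only [Finset.univ_unique, Finset.sum_singleton]
      rw [e, map_mul, Circle.coe_mul]
    · intro n j _
      have hH : BM fun z : Z => ((χ ((α ^ n * (α ^ j)⁻¹, φn n z * (φn j z)⁻¹),
          c ^ n * (c ^ j)⁻¹) : Circle) : ℂ) :=
        (s4_char χ).comp ((measurable_const.prodMk ((hφm n).mul (hφm j).inv)).prodMk
          measurable_const)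
      have e : (fun y => ((χ ((α ^ n * π y, φn n (π y)), c ^ n * P y) : Circle) : ℂ) *
          conj ((χ ((α ^ j * π y, φn j (π y)), c ^ j * P y) : Circle) : ℂ)) =
          fun y => ((χ ((α ^ n * (α ^ j)⁻¹, φn n (π y) * (φn j (π y))⁻¹),
            c ^ n * (c ^ j)⁻¹) : Circle) : ℂ) := by
        funext y
        rw [← Circle.coe_inv_eq_conj, ← Circle.coe_mul, ← map_inv, ← map_mul]
        congr 2
        rw [Prod.inv_mk, Prod.inv_mk, Prod.mk_mul_mk, Prod.mk_mul_mk]
        refine Prod.ext (Prod.ext ?_ rfl) ?_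
        · show α ^ n * π y * (α ^ j * π y)⁻¹ = α ^ n * (α ^ j)⁻¹
          rw [mul_inv, mul_comm (α ^ j)⁻¹, ← mul_assoc, mul_assoc (α ^ n), mul_inv_cancel, mul_one]
        · show c ^ n * P y * (c ^ j * P y)⁻¹ = c ^ n * (c ^ j)⁻¹
          rw [mul_inv, mul_comm (c ^ j)⁻¹, ← mul_assoc, mul_assoc (c ^ n), mul_inv_cancel, mul_one]
      have := small_rotation hR π hπ α hπR
        (fun z => ((χ ((α ^ n * (α ^ j)⁻¹, φn n z * (φn j z)⁻¹), c ^ n * (c ^ j)⁻¹) : Circle) : ℂ))
        hH
      rw [← e] at this
      exact this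
  · exact s4_l2 hp F hF S t δ hδ hS

end Pool.Agent.Lib.H82OT
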