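import Pool.Agent.Lib.H82OT.NB7
import Pool.Agent.Lib.H82OT.NB8
import Pool.Agent.Lib.H82T.T1
import Pool.Agent.Lib.H82T.T2
import Pool.Agent.Lib.H82T.T3
import Pool.Agent.Lib.H82T.SC
import Pool.Agent.Lib.H82T.SC2

/-!
# Project H82OT, chunk NB9: towers are good levels
-/

open MeasureTheory Filter Topology Finset ProbabilityTheory
open scoped ENNReal ComplexConjugate Matrix

namespace Pool.Agent.Lib.H82OT

open Pool.Agent.Lib.H22M Pool.Agent.Lib.H82T

/-- Proof. Induction. Step: `(ℬ ⊔ σ(θ)) ⊔ 𝒵 = (ℬ ⊔ 𝒵) ⊔ σ(θ)` and `Φ` is `ℬ ⊔ 𝒵`-measurable. Suprema: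
`sSup 𝒮 ⊔ 𝒵 = sSup {ℬ ⊔ 𝒵 | ℬ ∈ 𝒮}` as `𝒮` is nonempty; the family is directed. -/
theorem tow_sup_right {Y : Type*} {mY : MeasurableSpace Y} {R : Y → Y} {D : ℕ}
    {ℬ₀ ℬ : MeasurableSpace Y} (𝒵 : MeasurableSpace Y) (h : Tow mY R D ℬ₀ ℬ) :
    Tow mY R D (ℬ₀ ⊔ 𝒵) (ℬ ⊔ 𝒵) := by
  induction h with
  | base => exact Tow.base
  | step ℬ h d hd θ hθ Φ hΦ hR ih =>
    have h1 := Tow.step (ℬ ⊔ 𝒵) ih d hd θ hθ Φ
      (fun s => (le_sup_left : ℬ ≤ ℬ ⊔ 𝒵) _ (hΦ s)) hR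
    rwa [sup_right_comm] at h1
  | sup 𝒮 hne hdir h ih =>
    have e : sSup 𝒮 ⊔ 𝒵 = sSup ((fun ℬ => ℬ ⊔ 𝒵) '' 𝒮) := by
      apply le_antisymm
      · refine sup_le (sSup_le fun a ha => le_sup_left.trans (le_sSup ⟨a, ha, rfl⟩)) ?_
        obtain ⟨a, ha⟩ := hne
        exact le_sup_right.trans (le_sSup ⟨a, ha, rfl⟩)
      · refine sSup_le ?_
        rintro _ ⟨a, ha, rfl⟩
        exact sup_le_sup_right (le_sSup ha) _
    rw [e]
    refine Tow.sup _ (hne.image _) ?_ ?_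
    · rintro _ ⟨a, ha, rfl⟩ _ ⟨b, hb, rfl⟩
      obtain ⟨c, hc, hac, hbc⟩ := hdir a ha b hb
      exact ⟨_, ⟨c, hc, rfl⟩, sup_le_sup_right hac _, sup_le_sup_right hbc _⟩
    · rintro _ ⟨a, ha, rfl⟩
      exact ih a ha

/-- Proof. With `ℬ₀ = comap (π, u)`, `𝒵 = comap P`: `ℬ ⊔ 𝒵` is a tower over `ℬ₀ ⊔ 𝒵` (`tow_sup_right`);
`ℬ₀ ⊔ 𝒵 ≤ mY` and `(ℬ₀ ⊔ 𝒵).comap R = ℬ₀ ⊔ 𝒵` (`base_comap` in `H82T/T1.lean`, `hk.inv`,
`MeasurableSpace.comap_sup`). `le`, `inv`: `Tow.le`, `Tow.comap_eq`; `kron`: `le_sup_right`;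
`small`: `Tow.small` and `small_base_G`; `noRoot`: `noRoot_base_G`, `avg_isSelf` (`H82T/SC.lean`),
`avg_torsion` (`H82T/SC2.lean`), `avg_inv`-type invariance (`IsSelf.inv`), `Tow.noRoot` (`H82T/T2.lean`) for
`q > max M₀ (D²)`. -/
theorem good_tower {Y Z G W : Type*} (ℬ : MeasurableSpace Y) [mY : MeasurableSpace Y] {m : Measure Y}
    [IsProbabilityMeasure m] [MeasurableSpace Circle] [BorelSpace Circle]
    [CommGroup Z] [TopologicalSpace Z] [IsTopologicalGroup Z]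
    [CompactSpace Z] [T2Space Z] [SecondCountableTopology Z] [MeasurableSpace Z] [BorelSpace Z]
    [CommGroup G] [TopologicalSpace G] [IsTopologicalGroup G]
    [CompactSpace G] [T2Space G] [SecondCountableTopology G] [MeasurableSpace G] [BorelSpace G]
    [CommGroup W] [TopologicalSpace W] [IsTopologicalGroup W]
    [CompactSpace W] [T2Space W] [SecondCountableTopology W] [MeasurableSpace W] [BorelSpace W]
    (lam : Measure Z) [lam.IsHaarMeasure] [IsProbabilityMeasure lam]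
    (R : Y ≃ᵐ Y) (hR : Ergodic R m)
    (hroot : ∀ c : ℂ, IsEigenvalue m R c → ∀ n : ℕ, 1 ≤ n → c ^ n = 1 → c = 1)
    (π : Y → Z) (hπ : MeasurePreserving π m lam) (α : Z) (hπR : ∀ y, π (R y) = α * π y)
    (u : Y → G) (hu : Measurable u) (φ : Z → G) (hφ : Measurable φ)
    (huR : ∀ y, u (R y) = φ (π y) * u y) (s : Finset (PontryaginDual G))
    (hs : Subgroup.closure (s : Set (PontryaginDual G)) = ⊤)
    (P : Y → W) (c : W) (hk : Kron m R P c) (D : ℕ)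
    (h : Tow mY R D (MeasurableSpace.comap (fun y => (π y, u y)) inferInstance) ℬ) :
    Good (MeasurableSpace.comap P inferInstance) (ℬ ⊔ MeasurableSpace.comap P inferInstance) m R := by
  have h' := tow_sup_right (MeasurableSpace.comap P inferInstance) h
  have hle₀ : MeasurableSpace.comap (fun y => (π y, u y)) inferInstance ⊔
      MeasurableSpace.comap P inferInstance ≤ mY :=
    sup_le (hπ.measurable.prodMk hu).comap_le hk.meas.comap_le
  have hinv₀ : (MeasurableSpace.comap (fun y => (π y, u y)) inferInstance ⊔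
      MeasurableSpace.comap P inferInstance).comap R =
      MeasurableSpace.comap (fun y => (π y, u y)) inferInstance ⊔
      MeasurableSpace.comap P inferInstance := by
    rw [MeasurableSpace.comap_sup, base_comap R π α hπR u φ hφ huR, hk.inv]
  refine ⟨h'.le hle₀, h'.comap_eq hinv₀, le_sup_right, ?_, ?_⟩
  · intro f hf hb
    exact Tow.small hR h' hle₀ hinv₀ (fun g hg hgb =>
      small_base_G hR π hπ.measurable α hπR u hu φ hφ huR P c hk g hg hgb) f hf hb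
  · obtain ⟨M₀, P0, hN⟩ := noRoot_base_G lam R hR hroot π hπ α hπR u hu φ hφ huR s hs P c hk
    refine ⟨max M₀ (D ^ 2), P0, fun p q hp hpP hq hqp hqM ρ σ hρ hσ => ?_⟩
    have hself := avg_isSelf hR.toMeasurePreserving hq.one_lt.le hσ
    have hprob := hself.prob
    exact h'.noRoot hle₀ hinv₀ _ hself.inv q hq (lt_of_le_of_lt (le_max_right _ _) hqM)
      (hN p q hp hpP hq hqp (lt_of_le_of_lt (le_max_left _ _) hqM) _ hself
        (avg_torsion hR.toMeasurePreserving hq.one_lt.le hσ π hπ.measurable α hπR))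

end Pool.Agent.Lib.H82OT
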