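import Pool.Agent.Lib.H82OT.FN3
import Pool.Agent.Lib.H82OT.FN4
import Pool.Agent.Lib.H82OT.FN5
import Pool.Agent.Lib.H82OT.NB9
import Pool.Agent.Lib.H82OT.KR2
import Pool.Agent.Lib.H82OT.KR3

/-!
# Project H82OT, chunk FN6: the main theorem
-/

open MeasureTheory Filter Topology Finset ProbabilityTheory
open scoped ENNReal ComplexConjugate Matrix

namespace Pool.Agent.Lib.H82OT

open Pool.Agent.Lib.H22M Pool.Agent.Lib.H82T

/-- The theorem for a compact abelian base fibre `G` with finitely generated dual group. `R` is ergodic with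
`(D)`, `π` a factor map onto a rotation, `u : Y → G`, `u ∘ R = φ(π) u`; for every `i` of a nonempty index set
`ℬ i` is a tower of finite extensions of bounded degree over `σ(π, u)` and `v i : Y → M i` an isometric step
over it: `v i ∘ R = f i · v i` with `f i : Y → K i` measurable for `ℬ i`, `v i` of law `muM i`. The family
`ℬ i ⊔ σ(v i)` is directed and generates. Proof. `hroot` as in `H82T/F3.lean` (`eq_one_of_root hD`);
`exists_kron` (KR2), `W = ℕ → Circle` (compact group with Borel σ-algebra), `Kron.kronAlg` (KR3),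
`good_tower` (NB9), `QS_top` (FN3) with `ℬ i ⊔ comap P` (a `ℬ i ⊔ comap (v i)`-measurable function is
`(ℬ i ⊔ comap P) ⊔ comap (v i)`-measurable, `f i` is `ℬ i ⊔ comap P`-measurable), `QS_all` (FN4),
`main_of_QS` (FN5). -/
theorem main_G {Y Z G X ι : Type*} [Nonempty ι] (ℬ : ι → MeasurableSpace Y)
    [mY : MeasurableSpace Y] [StandardBorelSpace Y] {m : Measure Y} [IsProbabilityMeasure m]
    [MeasurableSpace Circle] [BorelSpace Circle]
    [CommGroup Z] [TopologicalSpace Z] [IsTopologicalGroup Z]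
    [CompactSpace Z] [T2Space Z] [SecondCountableTopology Z] [MeasurableSpace Z] [BorelSpace Z]
    [CommGroup G] [TopologicalSpace G] [IsTopologicalGroup G]
    [CompactSpace G] [T2Space G] [SecondCountableTopology G] [MeasurableSpace G] [BorelSpace G]
    (lam : Measure Z) [lam.IsHaarMeasure] [IsProbabilityMeasure lam]
    (R : Y ≃ᵐ Y) (hR : Ergodic R m) (hD : ManyGoodPrimes m R)
    (π : Y → Z) (hπ : MeasurePreserving π m lam) (α : Z) (hπR : ∀ y, π (R y) = α * π y)
    (u : Y → G) (hu : Measurable u) (φ : Z → G) (hφ : Measurable φ)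
    (huR : ∀ y, u (R y) = φ (π y) * u y) (s : Finset (PontryaginDual G))
    (hs : Subgroup.closure (s : Set (PontryaginDual G)) = ⊤)
    (hT : ∀ i, ∃ D : ℕ,
      Tow mY R D (MeasurableSpace.comap (fun y => (π y, u y)) inferInstance) (ℬ i))
    {K M : ι → Type*} [∀ i, Group (K i)] [∀ i, TopologicalSpace (K i)]
    [∀ i, IsTopologicalGroup (K i)] [∀ i, CompactSpace (K i)] [∀ i, T2Space (K i)]
    [∀ i, SecondCountableTopology (K i)] [∀ i, MeasurableSpace (K i)] [∀ i, BorelSpace (K i)]
    [∀ i, TopologicalSpace (M i)] [∀ i, CompactSpace (M i)] [∀ i, T2Space (M i)]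
    [∀ i, SecondCountableTopology (M i)] [∀ i, MeasurableSpace (M i)] [∀ i, BorelSpace (M i)]
    [∀ i, MulAction (K i) (M i)] [∀ i, ContinuousSMul (K i) (M i)]
    [∀ i, MulAction.IsPretransitive (K i) (M i)]
    (muM : ∀ i, Measure (M i)) [∀ i, IsProbabilityMeasure (muM i)]
    [∀ i, SMulInvariantMeasure (K i) (M i) (muM i)]
    (v : ∀ i, Y → M i) (hv : ∀ i, MeasurePreserving (v i) m (muM i))
    (f : ∀ i, Y → K i) (hf : ∀ i, Measurable[ℬ i] (f i))
    (hvR : ∀ i y, v i (R y) = f i y • v i y)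
    (hdir : Directed (· ≤ ·) fun i => ℬ i ⊔ MeasurableSpace.comap (v i) inferInstance)
    (hgen : ∀ A : Set Y, MeasurableSet A → ∃ B,
      MeasurableSet[⨆ i, (ℬ i ⊔ MeasurableSpace.comap (v i) inferInstance)] B ∧
        m (symmDiff A B) = 0)
    [MetricSpace X] [CompactSpace X] [MeasurableSpace X] [BorelSpace X]
    (T : X ≃ₜ X) (ν : Measure X) (θ : X → Y) (ψ : Y → X)
    (hmodel : IsUEModel T ν m R θ ψ) (g : C(X, ℂ)) (x : X) :
    Tendsto (fun N : ℕ => (1 / (N : ℂ)) *
      ∑ n ∈ Icc 1 N, g ((⇑T)^[n] x) * (ArithmeticFunction.moebius n : ℂ)) atTop (𝓝 0) := by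
  have hroot : ∀ c : ℂ, IsEigenvalue m R c → ∀ n : ℕ, 1 ≤ n → c ^ n = 1 → c = 1 :=
    fun c hc n hn h => eq_one_of_root hD c hc n hn h
  have hsec : SecondCountableTopology Circle :=
    inferInstanceAs (SecondCountableTopology (Submonoid.unitSphere ℂ))
  obtain ⟨c, P, hkP⟩ := exists_kron (m := m) R hR
  have hkA : KronAlg (MeasurableSpace.comap P inferInstance) m R := hkP.kronAlg
  have h₀ : MeasurableSpace.comap (fun y => (π y, u y)) inferInstance ≤ mY :=
    (hπ.measurable.prodMk hu).comap_le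
  have hle : ∀ i, ℬ i ⊔ MeasurableSpace.comap (v i) inferInstance ≤ mY := fun i => by
    obtain ⟨D, hDi⟩ := hT i
    exact sup_le (hDi.le h₀) (hv i).measurable.comap_le
  refine main_of_QS R hR hD (fun F hF => QS_all
    (fun i => ℬ i ⊔ MeasurableSpace.comap (v i) inferInstance) hdir hle hgen ?_ F hF)
    T ν θ ψ hmodel g x
  intro i f' hf' hb
  obtain ⟨D, hDi⟩ := hT i
  have hgood := good_tower (ℬ i) lam R hR hroot π hπ α hπR u hu φ hφ huR s hs P c hkP D hDi
  exact QS_top (MeasurableSpace.comap P inferInstance)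
    (ℬ i ⊔ MeasurableSpace.comap P inferInstance) (muM i) R hR hkA hgood (v i) (hv i) (f i)
    ((hf i).mono le_sup_left le_rfl) (hvR i) f'
    (hf'.mono (sup_le_sup_right le_sup_left _) le_rfl) hb

end Pool.Agent.Lib.H82OT
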