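import Pool.Agent.Lib.H82OT.FN6

/-!
# Project H82OT, chunk FN7: the main theorem with complex valued circle coordinates
-/

open MeasureTheory Filter Topology Finset ProbabilityTheory
open scoped ENNReal ComplexConjugate Matrix

namespace Pool.Agent.Lib.H82OT

open Pool.Agent.Lib.H22M Pool.Agent.Lib.H82T

/-- The main theorem for a torus extension given by unimodular functions `u 0, …, u (r - 1)`. -/
theorem main_complex {Y Z X ι : Type*} [Nonempty ι] (ℬ : ι → MeasurableSpace Y)
    [mY : MeasurableSpace Y] [StandardBorelSpace Y] {m : Measure Y} [IsProbabilityMeasure m]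
    [CommGroup Z] [TopologicalSpace Z] [IsTopologicalGroup Z]
    [CompactSpace Z] [T2Space Z] [SecondCountableTopology Z] [MeasurableSpace Z] [BorelSpace Z]
    (lam : Measure Z) [lam.IsHaarMeasure] [IsProbabilityMeasure lam]
    (R : Y ≃ᵐ Y) (hR : Ergodic R m) (hD : ManyGoodPrimes m R)
    (π : Y → Z) (hπ : MeasurePreserving π m lam) (α : Z) (hπR : ∀ y, π (R y) = α * π y)
    (r : ℕ) (u : Fin r → Y → ℂ) (hu : ∀ j, Measurable (u j)) (hu1 : ∀ j y, ‖u j y‖ = 1)
    (φ : Fin r → Z → ℂ) (hφ : ∀ j, Measurable (φ j)) (hφ1 : ∀ j z, ‖φ j z‖ = 1)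
    (huR : ∀ j y, u j (R y) = φ j (π y) * u j y)
    (hT : ∀ i, ∃ D : ℕ,
      Tow mY R D (MeasurableSpace.comap (fun y => (π y, fun j => u j y)) inferInstance) (ℬ i))
    {K M : ι → Type*} [∀ i, Group (K i)] [∀ i, TopologicalSpace (K i)]
    [∀ i, IsTopologicalGroup (K i)] [∀ i, CompactSpace (K i)] [∀ i, T2Space (K i)]
    [∀ i, SecondCountableTopology (K i)] [∀ i, MeasurableSpace (K i)] [∀ i, BorelSpace (K i)]
    [∀ i, TopologicalSpace (M i)] [∀ i, CompactSpace (M i)] [∀ i, T2Space (M i)]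
    [∀ i, SecondCountableTopology (M i)] [∀ i, MeasurableSpace (M i)] [∀ i, BorelSpace (M i)]
    [∀ i, MulAction (K i) (M i)] [∀ i, ContinuousSMul (K i) (M i)]
    [∀ i, MulAction.IsPretransitive (K i) (M i)]
    (muM : ∀ i, Measure (M i)) [∀ i, IsProbabilityMeasure (muM i)]
    [∀ i, SMulInvariantMeasure (K i) (M i) (muM i)]
    (v : ∀ i, Y → M i) (hv : ∀ i, MeasurePreserving (v i) m (muM i))
    (f : ∀ i, Y → K i) (hf : ∀ i, Measurable[ℬ i] (f i))
    (hvR : ∀ i y, v i (R y) = f i y • v i y)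
    (hdir : Directed (· ≤ ·) fun i => ℬ i ⊔ MeasurableSpace.comap (v i) inferInstance)
    (hgen : ∀ A : Set Y, MeasurableSet A → ∃ B,
      MeasurableSet[⨆ i, (ℬ i ⊔ MeasurableSpace.comap (v i) inferInstance)] B ∧
        m (symmDiff A B) = 0)
    [MetricSpace X] [CompactSpace X] [MeasurableSpace X] [BorelSpace X]
    (T : X ≃ₜ X) (ν : Measure X) (θ : X → Y) (ψ : Y → X)
    (hmodel : IsUEModel T ν m R θ ψ) (g : C(X, ℂ)) (x : X) :
    Tendsto (fun N : ℕ => (1 / (N : ℂ)) *
      ∑ n ∈ Icc 1 N, g ((⇑T)^[n] x) * (ArithmeticFunction.moebius n : ℂ)) atTop (𝓝 0) := by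
  let _ : MeasurableSpace Circle := borel Circle
  have : BorelSpace Circle := ⟨rfl⟩
  have hsec : SecondCountableTopology Circle :=
    inferInstanceAs (SecondCountableTopology (Submonoid.unitSphere ℂ))
  have hcont : Continuous (fun c : Circle => (c : ℂ)) := by fun_prop
  have hemb : MeasurableEmbedding (fun c : Circle => (c : ℂ)) :=
    (hcont.isClosedEmbedding Circle.coe_injective).measurableEmbedding
  have hcontr : Continuous (fun (w : Fin r → Circle) (j : Fin r) => (w j : ℂ)) := by fun_prop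
  have hinjr : Function.Injective (fun (w : Fin r → Circle) (j : Fin r) => (w j : ℂ)) := by
    intro w w' h
    funext j
    exact Circle.coe_injective (congrFun h j)
  have hembr : MeasurableEmbedding (fun (w : Fin r → Circle) (j : Fin r) => (w j : ℂ)) :=
    (hcontr.isClosedEmbedding hinjr).measurableEmbedding
  set uC : Y → (Fin r → Circle) := fun y j => ⟨u j y, mem_sphere_zero_iff_norm.2 (hu1 j y)⟩
    with huC
  set φC : Z → (Fin r → Circle) := fun z j => ⟨φ j z, mem_sphere_zero_iff_norm.2 (hφ1 j z)⟩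
    with hφC
  have huCm : Measurable uC := measurable_pi_iff.2 fun j => hemb.measurable_comp_iff.1 (hu j)
  have hφCm : Measurable φC := measurable_pi_iff.2 fun j => hemb.measurable_comp_iff.1 (hφ j)
  have hcomap : MeasurableSpace.comap (fun y => (π y, fun j => u j y))
      (inferInstance : MeasurableSpace (Z × (Fin r → ℂ)))
      = MeasurableSpace.comap (fun y => (π y, uC y))
        (inferInstance : MeasurableSpace (Z × (Fin r → Circle))) := by
    have h1 : (fun y => (π y, fun j => u j y)) =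
        (Prod.map id (fun (w : Fin r → Circle) (j : Fin r) => (w j : ℂ))) ∘
        (fun y => (π y, uC y)) := rfl
    have h2 : MeasurableEmbedding
        (Prod.map (id : Z → Z) (fun (w : Fin r → Circle) (j : Fin r) => (w j : ℂ))) :=
      MeasurableEmbedding.id.prodMap hembr
    rw [h1, ← MeasurableSpace.comap_comp, h2.comap_eq]
  obtain ⟨s, -, hs⟩ := torus_dual_gen r
  refine main_G ℬ lam R hR hD π hπ α hπR uC huCm φC hφCm ?_ s hs ?_ muM v hv f hf hvR hdir hgen
    T ν θ ψ hmodel g x
  · intro y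
    funext j
    exact Subtype.ext (huR j y)
  · intro i
    obtain ⟨D, hDB⟩ := hT i
    refine ⟨D, ?_⟩
    rw [← hcomap]
    exact hDB

end Pool.Agent.Lib.H82OT
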