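import Pool.Agent.Lib.H82OT.FN7

/-!
# Project H82OT, chunk FN8: inverse limits of systems of order three
-/

open MeasureTheory Filter Topology Finset ProbabilityTheory
open scoped ENNReal ComplexConjugate Matrix

namespace Pool.Agent.Lib.H82OT

open Pool.Agent.Lib.H22M Pool.Agent.Lib.H82T

/-- One level: functions of the top step have the property `QS`. -/
theorem QS_level_G {Y Z G K M : Type*} (ℬ : MeasurableSpace Y)
    [mY : MeasurableSpace Y] [StandardBorelSpace Y] {m : Measure Y} [IsProbabilityMeasure m]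
    [MeasurableSpace Circle] [BorelSpace Circle]
    [CommGroup Z] [TopologicalSpace Z] [IsTopologicalGroup Z]
    [CompactSpace Z] [T2Space Z] [SecondCountableTopology Z] [MeasurableSpace Z] [BorelSpace Z]
    [CommGroup G] [TopologicalSpace G] [IsTopologicalGroup G]
    [CompactSpace G] [T2Space G] [SecondCountableTopology G] [MeasurableSpace G] [BorelSpace G]
    (lam : Measure Z) [lam.IsHaarMeasure] [IsProbabilityMeasure lam]
    (R : Y ≃ᵐ Y) (hR : Ergodic R m) (hD : ManyGoodPrimes m R)
    (π : Y → Z) (hπ : MeasurePreserving π m lam) (α : Z) (hπR : ∀ y, π (R y) = α * π y)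
    (u : Y → G) (hu : Measurable u) (φ : Z → G) (hφ : Measurable φ)
    (huR : ∀ y, u (R y) = φ (π y) * u y) (s : Finset (PontryaginDual G))
    (hs : Subgroup.closure (s : Set (PontryaginDual G)) = ⊤) (D : ℕ)
    (hT : Tow mY R D (MeasurableSpace.comap (fun y => (π y, u y)) inferInstance) ℬ)
    [Group K] [TopologicalSpace K] [IsTopologicalGroup K] [CompactSpace K] [T2Space K]
    [SecondCountableTopology K] [MeasurableSpace K] [BorelSpace K]
    [TopologicalSpace M] [CompactSpace M] [T2Space M] [SecondCountableTopology M]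
    [MeasurableSpace M] [BorelSpace M]
    [MulAction K M] [ContinuousSMul K M] [MulAction.IsPretransitive K M]
    (muM : Measure M) [IsProbabilityMeasure muM] [SMulInvariantMeasure K M muM]
    (v : Y → M) (hv : MeasurePreserving v m muM) (f : Y → K) (hf : Measurable[ℬ] f)
    (hvR : ∀ y, v (R y) = f y • v y) (F : Y → ℂ)
    (hF : Measurable[ℬ ⊔ MeasurableSpace.comap v inferInstance] F)
    (hb : ∃ C : ℝ, ∀ y, ‖F y‖ ≤ C) : QS m R F := by
  have hroot : ∀ c : ℂ, IsEigenvalue m R c → ∀ n : ℕ, 1 ≤ n → c ^ n = 1 → c = 1 :=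
    fun c hc n hn h => eq_one_of_root hD c hc n hn h
  have hsec : SecondCountableTopology Circle :=
    inferInstanceAs (SecondCountableTopology (Submonoid.unitSphere ℂ))
  obtain ⟨c, P, hkP⟩ := exists_kron (m := m) R hR
  have hkA : KronAlg (MeasurableSpace.comap P inferInstance) m R := hkP.kronAlg
  have hgood := good_tower ℬ lam R hR hroot π hπ α hπR u hu φ hφ huR s hs P c hkP D hT
  exact QS_top (MeasurableSpace.comap P inferInstance)
    (ℬ ⊔ MeasurableSpace.comap P inferInstance) muM R hR hkA hgood v hv f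
    (hf.mono le_sup_left le_rfl) hvR F
    (hF.mono (sup_le_sup_right le_sup_left _) le_rfl) hb

/-- The main theorem for inverse limits: every level has its own rotation factor and its own torus
coordinates. -/
theorem main_levels {Y X ι : Type*} [Nonempty ι] (ℬ : ι → MeasurableSpace Y)
    [mY : MeasurableSpace Y] [StandardBorelSpace Y] {m : Measure Y} [IsProbabilityMeasure m]
    (R : Y ≃ᵐ Y) (hR : Ergodic R m) (hD : ManyGoodPrimes m R)
    {Z K M : ι → Type*} [∀ i, CommGroup (Z i)] [∀ i, TopologicalSpace (Z i)]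
    [∀ i, IsTopologicalGroup (Z i)] [∀ i, CompactSpace (Z i)] [∀ i, T2Space (Z i)]
    [∀ i, SecondCountableTopology (Z i)] [∀ i, MeasurableSpace (Z i)] [∀ i, BorelSpace (Z i)]
    (lam : ∀ i, Measure (Z i)) [∀ i, (lam i).IsHaarMeasure] [∀ i, IsProbabilityMeasure (lam i)]
    (π : ∀ i, Y → Z i) (hπ : ∀ i, MeasurePreserving (π i) m (lam i)) (α : ∀ i, Z i)
    (hπR : ∀ i y, π i (R y) = α i * π i y)
    (r : ι → ℕ) (u : ∀ i, Fin (r i) → Y → ℂ) (hu : ∀ i j, Measurable (u i j))
    (hu1 : ∀ i j y, ‖u i j y‖ = 1)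
    (φ : ∀ i, Fin (r i) → Z i → ℂ) (hφ : ∀ i j, Measurable (φ i j))
    (hφ1 : ∀ i j z, ‖φ i j z‖ = 1)
    (huR : ∀ i j y, u i j (R y) = φ i j (π i y) * u i j y)
    (hT : ∀ i, ∃ D : ℕ,
      Tow mY R D (MeasurableSpace.comap (fun y => (π i y, fun j => u i j y)) inferInstance) (ℬ i))
    [∀ i, Group (K i)] [∀ i, TopologicalSpace (K i)]
    [∀ i, IsTopologicalGroup (K i)] [∀ i, CompactSpace (K i)] [∀ i, T2Space (K i)]
    [∀ i, SecondCountableTopology (K i)] [∀ i, MeasurableSpace (K i)] [∀ i, BorelSpace (K i)]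
    [∀ i, TopologicalSpace (M i)] [∀ i, CompactSpace (M i)] [∀ i, T2Space (M i)]
    [∀ i, SecondCountableTopology (M i)] [∀ i, MeasurableSpace (M i)] [∀ i, BorelSpace (M i)]
    [∀ i, MulAction (K i) (M i)] [∀ i, ContinuousSMul (K i) (M i)]
    [∀ i, MulAction.IsPretransitive (K i) (M i)]
    (muM : ∀ i, Measure (M i)) [∀ i, IsProbabilityMeasure (muM i)]
    [∀ i, SMulInvariantMeasure (K i) (M i) (muM i)]
    (v : ∀ i, Y → M i) (hv : ∀ i, MeasurePreserving (v i) m (muM i))
    (f : ∀ i, Y → K i) (hf : ∀ i, Measurable[ℬ i] (f i))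
    (hvR : ∀ i y, v i (R y) = f i y • v i y)
    (hdir : Directed (· ≤ ·) fun i => ℬ i ⊔ MeasurableSpace.comap (v i) inferInstance)
    (hgen : ∀ A : Set Y, MeasurableSet A → ∃ B,
      MeasurableSet[⨆ i, (ℬ i ⊔ MeasurableSpace.comap (v i) inferInstance)] B ∧
        m (symmDiff A B) = 0)
    [MetricSpace X] [CompactSpace X] [MeasurableSpace X] [BorelSpace X]
    (T : X ≃ₜ X) (ν : Measure X) (θ : X → Y) (ψ : Y → X)
    (hmodel : IsUEModel T ν m R θ ψ) (g : C(X, ℂ)) (x : X) :
    Tendsto (fun N : ℕ => (1 / (N : ℂ)) *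
      ∑ n ∈ Icc 1 N, g ((⇑T)^[n] x) * (ArithmeticFunction.moebius n : ℂ)) atTop (𝓝 0) := by
  let _ : MeasurableSpace Circle := borel Circle
  have : BorelSpace Circle := ⟨rfl⟩
  have hsec : SecondCountableTopology Circle :=
    inferInstanceAs (SecondCountableTopology (Submonoid.unitSphere ℂ))
  have hcont : Continuous (fun c : Circle => (c : ℂ)) := by fun_prop
  have hemb : MeasurableEmbedding (fun c : Circle => (c : ℂ)) :=
    (hcont.isClosedEmbedding Circle.coe_injective).measurableEmbedding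
  have hle : ∀ i, ℬ i ⊔ MeasurableSpace.comap (v i) inferInstance ≤ mY := fun i => by
    obtain ⟨D, hDi⟩ := hT i
    have h₀ : MeasurableSpace.comap (fun y => (π i y, fun j => u i j y)) inferInstance ≤ mY :=
      ((hπ i).measurable.prodMk (measurable_pi_iff.2 fun j => hu i j)).comap_le
    exact sup_le (hDi.le h₀) (hv i).measurable.comap_le
  refine main_of_QS R hR hD (fun F hF => QS_all
    (fun i => ℬ i ⊔ MeasurableSpace.comap (v i) inferInstance) hdir hle hgen ?_ F hF)
    T ν θ ψ hmodel g x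
  intro i f' hf' hb
  obtain ⟨D, hDi⟩ := hT i
  have hcontr : Continuous (fun (w : Fin (r i) → Circle) (j : Fin (r i)) => (w j : ℂ)) := by
    fun_prop
  have hinjr : Function.Injective
      (fun (w : Fin (r i) → Circle) (j : Fin (r i)) => (w j : ℂ)) := by
    intro w w' h
    funext j
    exact Circle.coe_injective (congrFun h j)
  have hembr : MeasurableEmbedding
      (fun (w : Fin (r i) → Circle) (j : Fin (r i)) => (w j : ℂ)) :=
    (hcontr.isClosedEmbedding hinjr).measurableEmbedding
  set uC : Y → (Fin (r i) → Circle) :=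
    fun y j => ⟨u i j y, mem_sphere_zero_iff_norm.2 (hu1 i j y)⟩ with huC
  set φC : Z i → (Fin (r i) → Circle) :=
    fun z j => ⟨φ i j z, mem_sphere_zero_iff_norm.2 (hφ1 i j z)⟩ with hφC
  have huCm : Measurable uC := measurable_pi_iff.2 fun j => hemb.measurable_comp_iff.1 (hu i j)
  have hφCm : Measurable φC := measurable_pi_iff.2 fun j => hemb.measurable_comp_iff.1 (hφ i j)
  have hcomap : MeasurableSpace.comap (fun y => (π i y, fun j => u i j y))
      (inferInstance : MeasurableSpace (Z i × (Fin (r i) → ℂ)))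
      = MeasurableSpace.comap (fun y => (π i y, uC y))
        (inferInstance : MeasurableSpace (Z i × (Fin (r i) → Circle))) := by
    have h1 : (fun y => (π i y, fun j => u i j y)) =
        (Prod.map id (fun (w : Fin (r i) → Circle) (j : Fin (r i)) => (w j : ℂ))) ∘
        (fun y => (π i y, uC y)) := rfl
    have h2 : MeasurableEmbedding
        (Prod.map (id : Z i → Z i)
          (fun (w : Fin (r i) → Circle) (j : Fin (r i)) => (w j : ℂ))) :=
      MeasurableEmbedding.id.prodMap hembr
    rw [h1, ← MeasurableSpace.comap_comp, h2.comap_eq]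
  obtain ⟨s, -, hs⟩ := torus_dual_gen (r i)
  refine QS_level_G (ℬ i) (lam i) R hR hD (π i) (hπ i) (α i) (hπR i) uC huCm φC hφCm ?_ s hs D ?_
    (muM i) (v i) (hv i) (f i) (hf i) (hvR i) f' hf' hb
  · intro y
    funext j
    exact Subtype.ext (huR i j y)
  · rw [← hcomap]
    exact hDi

end Pool.Agent.Lib.H82OT
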