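import Pool.Agent.Lib.H82OT.Defs

/-!
# Project H82OT, chunk GR1: functional calculus with fixed polynomials
-/

open MeasureTheory Filter Topology Finset ProbabilityTheory
open scoped ENNReal ComplexConjugate Matrix ComplexOrder

namespace Pool.Agent.Lib.H82OT

open Pool.Agent.Lib.H22M Pool.Agent.Lib.H82T

/-! ### Helper lemmas -/

private theorem GR1_aeval_conj {d : ℕ} (P : Polynomial ℂ) (G Φ : Matrix (Fin d) (Fin d) ℂ)
    (hu : Φ * Φᴴ = 1) : Polynomial.aeval (Φ * G * Φᴴ) P = Φ * Polynomial.aeval G P * Φᴴ := by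
  have hu' : Φᴴ * Φ = 1 := mul_eq_one_comm.mp hu
  have hpow : ∀ n : ℕ, (Φ * G * Φᴴ) ^ n = Φ * G ^ n * Φᴴ := by
    intro n
    induction n with
    | zero => simp [hu]
    | succ n ih =>
      rw [pow_succ, ih, pow_succ]
      calc Φ * G ^ n * Φᴴ * (Φ * G * Φᴴ) = Φ * G ^ n * (Φᴴ * Φ) * G * Φᴴ := by
            simp only [Matrix.mul_assoc]
        _ = Φ * (G ^ n * G) * Φᴴ := by rw [hu']; simp only [Matrix.mul_assoc, Matrix.one_mul]
  rw [Polynomial.aeval_eq_sum_range, Polynomial.aeval_eq_sum_range, Matrix.mul_sum, Matrix.sum_mul]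
  refine Finset.sum_congr rfl fun i _ => ?_
  rw [hpow, Matrix.mul_smul, Matrix.smul_mul]

private theorem GR1_aeval_diagonal {d : ℕ} (P : Polynomial ℂ) (v : Fin d → ℂ) :
    Polynomial.aeval (Matrix.diagonal v) P = Matrix.diagonal fun i => P.eval (v i) := by
  have hpow : ∀ n : ℕ, (Matrix.diagonal v) ^ n = Matrix.diagonal fun i => v i ^ n := by
    intro n
    rw [Matrix.diagonal_pow]
    rfl
  rw [Polynomial.aeval_eq_sum_range]
  ext i j
  rw [Matrix.sum_apply]
  by_cases hij : i = j
  · subst hij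
    simp only [hpow, Matrix.smul_apply, Matrix.diagonal_apply_eq, smul_eq_mul]
    rw [Polynomial.eval_eq_sum_range]
  · simp only [hpow, Matrix.smul_apply, Matrix.diagonal_apply_ne _ hij, smul_zero,
      Finset.sum_const_zero]

private theorem GR1_mul {d : ℕ} (U : Matrix (Fin d) (Fin d) ℂ) (hu' : Uᴴ * U = 1)
    (a b : Fin d → ℂ) :
    (U * Matrix.diagonal a * Uᴴ) * (U * Matrix.diagonal b * Uᴴ) =
      U * Matrix.diagonal (fun i => a i * b i) * Uᴴ := by
  calc (U * Matrix.diagonal a * Uᴴ) * (U * Matrix.diagonal b * Uᴴ)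
      = U * Matrix.diagonal a * (Uᴴ * U) * Matrix.diagonal b * Uᴴ := by
        simp only [Matrix.mul_assoc]
    _ = U * (Matrix.diagonal a * Matrix.diagonal b) * Uᴴ := by
        rw [hu']; simp only [Matrix.mul_assoc, Matrix.one_mul]
    _ = _ := by rw [Matrix.diagonal_mul_diagonal]

/-- Interpolating polynomials for the square root and its pseudo-inverse on the positive semidefinite
matrices with a given characteristic polynomial. Proof. Let `S = χ.roots.toFinset` (if `χ = 0` no matrix
qualifies), `A = Lagrange.interpolate S id (fun s => ((Real.sqrt s.re : ℝ) : ℂ))`,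
`B = Lagrange.interpolate S id (fun s => (((Real.sqrt s.re)⁻¹ : ℝ) : ℂ))` (`(Real.sqrt 0)⁻¹ = 0`). If `G` is
positive semidefinite with `G.charpoly = χ`, then `G = U diag(γ) Uᴴ` (`Matrix.IsHermitian.spectral_theorem`)
with real `γ i ≥ 0` which are roots of `χ`, so `aeval G A = U diag(√γ) Uᴴ`, `aeval G B = U diag(√γ⁻¹) Uᴴ`
(`Polynomial.aeval` commutes with conjugation by `U` and is computed on diagonal matrices entrywise, e.g.
`Polynomial.aeval` induction or `Matrix.aeval_diagonal`-like lemma proved by `Polynomial.induction_on`).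
All assertions are then identities of diagonal matrices. -/
theorem exists_sqrt_polys {d : ℕ} (χ : Polynomial ℂ) :
    ∃ A B : Polynomial ℂ, ∀ G : Matrix (Fin d) (Fin d) ℂ, G.PosSemidef → G.charpoly = χ →
      (Polynomial.aeval G B)ᴴ = Polynomial.aeval G B ∧
      Polynomial.aeval G B * G * Polynomial.aeval G B =
        Polynomial.aeval G A * Polynomial.aeval G B ∧
      (Polynomial.aeval G A * Polynomial.aeval G B) * (Polynomial.aeval G A * Polynomial.aeval G B) =
        Polynomial.aeval G A * Polynomial.aeval G B ∧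
      (Polynomial.aeval G A * Polynomial.aeval G B)ᴴ =
        Polynomial.aeval G A * Polynomial.aeval G B ∧
      (1 - Polynomial.aeval G A * Polynomial.aeval G B) * G = 0 := by
  classical
  set S : Finset ℂ := χ.roots.toFinset with hS
  set fa : ℂ → ℂ := fun s => ((Real.sqrt s.re : ℝ) : ℂ) with hfa
  set fb : ℂ → ℂ := fun s => (((Real.sqrt s.re)⁻¹ : ℝ) : ℂ) with hfb
  refine ⟨Lagrange.interpolate S id fa, Lagrange.interpolate S id fb, fun G hG hχ => ?_⟩
  have hH : G.IsHermitian := hG.isHermitian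
  set U : Matrix (Fin d) (Fin d) ℂ := (hH.eigenvectorUnitary : Matrix (Fin d) (Fin d) ℂ) with hU
  have hu : U * Uᴴ = 1 := by
    have := Unitary.coe_mul_star_self hH.eigenvectorUnitary
    rw [Unitary.coe_star, Matrix.star_eq_conjTranspose] at this
    exact this
  have hu' : Uᴴ * U = 1 := mul_eq_one_comm.mp hu
  set γ : Fin d → ℝ := hH.eigenvalues with hγ
  have hγ0 : ∀ i, 0 ≤ γ i := fun i => hG.eigenvalues_nonneg i
  have hGd : G = U * Matrix.diagonal (fun i => (γ i : ℂ)) * Uᴴ := by
    have h := hH.spectral_theorem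
    rw [Unitary.conjStarAlgAut_apply, Matrix.star_eq_conjTranspose] at h
    exact h
  have hroot : ∀ i, (γ i : ℂ) ∈ S := by
    intro i
    have h := hH.roots_charpoly_eq_eigenvalues
    rw [hχ] at h
    rw [hS, Multiset.mem_toFinset, h, Multiset.mem_map]
    exact ⟨i, Finset.mem_univ_val i, rfl⟩
  have hinj : Set.InjOn (id : ℂ → ℂ) (S : Set ℂ) := Set.injOn_id _
  have hA : Polynomial.aeval G (Lagrange.interpolate S id fa) =
      U * Matrix.diagonal (fun i => ((Real.sqrt (γ i) : ℝ) : ℂ)) * Uᴴ := by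
    conv_lhs => rw [hGd]
    rw [GR1_aeval_conj _ _ _ hu, GR1_aeval_diagonal]
    have : (fun i => (Lagrange.interpolate S id fa).eval ((γ i : ℝ) : ℂ)) =
        fun i => ((Real.sqrt (γ i) : ℝ) : ℂ) := by
      funext i
      have h := Lagrange.eval_interpolate_at_node fa hinj (hroot i)
      simp only [id] at h
      rw [h]
      simp [hfa]
    rw [this]
  have hB : Polynomial.aeval G (Lagrange.interpolate S id fb) =
      U * Matrix.diagonal (fun i => (((Real.sqrt (γ i))⁻¹ : ℝ) : ℂ)) * Uᴴ := by
    conv_lhs => rw [hGd]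
    rw [GR1_aeval_conj _ _ _ hu, GR1_aeval_diagonal]
    have : (fun i => (Lagrange.interpolate S id fb).eval ((γ i : ℝ) : ℂ)) =
        fun i => (((Real.sqrt (γ i))⁻¹ : ℝ) : ℂ) := by
      funext i
      have h := Lagrange.eval_interpolate_at_node fb hinj (hroot i)
      simp only [id] at h
      rw [h]
      simp [hfb]
    rw [this]
  rw [hA, hB]
  have hstar : ∀ a : Fin d → ℝ, (U * Matrix.diagonal (fun i => ((a i : ℝ) : ℂ)) * Uᴴ)ᴴ =
      U * Matrix.diagonal (fun i => ((a i : ℝ) : ℂ)) * Uᴴ := by
    intro a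
    rw [Matrix.conjTranspose_mul, Matrix.conjTranspose_mul, Matrix.conjTranspose_conjTranspose,
      Matrix.diagonal_conjTranspose, Matrix.mul_assoc]
    have : (star fun i => ((a i : ℝ) : ℂ)) = fun i => ((a i : ℝ) : ℂ) := by
      funext i
      simp
    rw [this]
  have hss : ∀ i, Real.sqrt (γ i) * Real.sqrt (γ i) = γ i := fun i => Real.mul_self_sqrt (hγ0 i)
  have hAB : (U * Matrix.diagonal (fun i => ((Real.sqrt (γ i) : ℝ) : ℂ)) * Uᴴ) *
      (U * Matrix.diagonal (fun i => (((Real.sqrt (γ i))⁻¹ : ℝ) : ℂ)) * Uᴴ) =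
      U * Matrix.diagonal (fun i => ((Real.sqrt (γ i) * (Real.sqrt (γ i))⁻¹ : ℝ) : ℂ)) * Uᴴ := by
    rw [GR1_mul U hu']
    congr 2
    congr 1
    funext i
    push_cast
    ring
  refine ⟨hstar _, ?_, ?_, ?_, ?_⟩
  · rw [hAB]
    conv_lhs => rw [hGd]
    rw [GR1_mul U hu', GR1_mul U hu']
    congr 2
    congr 1
    funext i
    rw [← Complex.ofReal_mul, ← Complex.ofReal_mul]
    congr 1
    by_cases h0 : Real.sqrt (γ i) = 0
    · simp [h0]
    · have := hss i
      field_simp
      nlinarith [this]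
  · rw [hAB, GR1_mul U hu']
    congr 2
    congr 1
    funext i
    rw [← Complex.ofReal_mul]
    congr 1
    by_cases h0 : Real.sqrt (γ i) = 0
    · simp [h0]
    · field_simp
  · rw [hAB]
    exact hstar _
  · rw [hAB, sub_mul, one_mul]
    conv_lhs => rw [hGd]
    rw [GR1_mul U hu']
    rw [sub_eq_zero]
    congr 2
    congr 1
    funext i
    rw [← Complex.ofReal_mul]
    congr 1
    by_cases h0 : Real.sqrt (γ i) = 0
    · have := hss i
      rw [h0] at this
      simp [← this]
    · field_simp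

/-- Proof. `Polynomial.induction_on` or the algebra automorphism `X ↦ Φ X Φᴴ` (with `Φ Φᴴ = 1 = Φᴴ Φ`) and
`Polynomial.aeval_algHom_apply`. -/
theorem aeval_conj {d : ℕ} (P : Polynomial ℂ) (G Φ : Matrix (Fin d) (Fin d) ℂ)
    (hu : Φ * Φᴴ = 1) : Polynomial.aeval (Φ * G * Φᴴ) P = Φ * Polynomial.aeval G P * Φᴴ := by
  exact GR1_aeval_conj P G Φ hu

/-- Proof. `Matrix.charpoly` is invariant under conjugation (`Matrix.charpoly_units_conj` or
`Matrix.charpoly_mul_comm`). -/
theorem charpoly_conj {d : ℕ} (G Φ : Matrix (Fin d) (Fin d) ℂ) (hu : Φ * Φᴴ = 1) :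
    (Φ * G * Φᴴ).charpoly = G.charpoly := by
  have hu' : Φᴴ * Φ = 1 := mul_eq_one_comm.mp hu
  rw [Matrix.charpoly_mul_comm, ← Matrix.mul_assoc, hu', Matrix.one_mul]

/-- The entries of `aeval (G y) P` are measurable and bounded if those of `G` are. Proof.
`Polynomial.induction_on` (or the sum `∑ coeff • G^n`): entries of powers are finite sums of products. -/
theorem aeval_entries {Y : Type*} {d : ℕ} (ℬ : MeasurableSpace Y)
    (G : Y → Matrix (Fin d) (Fin d) ℂ) (hG : ∀ i j, Measurable[ℬ] fun y => G y i j)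
    (hb : ∃ C : ℝ, ∀ y i j, ‖G y i j‖ ≤ C) (P : Polynomial ℂ) :
    (∀ i j, Measurable[ℬ] fun y => Polynomial.aeval (G y) P i j) ∧
      ∃ C : ℝ, ∀ y i j, ‖Polynomial.aeval (G y) P i j‖ ≤ C := by
  obtain ⟨C, hC⟩ := hb
  have hC' : ∀ y i j, ‖G y i j‖ ≤ max C 0 := fun y i j => (hC y i j).trans (le_max_left _ _)
  have hpow : ∀ n : ℕ, (∀ i j, Measurable[ℬ] fun y => ((G y) ^ n) i j) ∧
      ∃ C : ℝ, ∀ y i j, ‖((G y) ^ n) i j‖ ≤ C := by
    intro n
    induction n with
    | zero =>
      refine ⟨fun i j => ?_, 1, fun y i j => ?_⟩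
      · simp only [pow_zero]
        exact measurable_const
      · simp only [pow_zero, Matrix.one_apply]
        split_ifs <;> simp
    | succ n ih =>
      obtain ⟨ih1, D, ih2⟩ := ih
      refine ⟨fun i j => ?_, ∑ _k : Fin d, max D 0 * max C 0, fun y i j => ?_⟩
      · simp only [pow_succ, Matrix.mul_apply]
        exact Finset.measurable_fun_sum _ fun k _ => (ih1 i k).mul (hG k j)
      · simp only [pow_succ, Matrix.mul_apply]
        refine (norm_sum_le _ _).trans (Finset.sum_le_sum fun k _ => ?_)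
        rw [norm_mul]
        exact mul_le_mul ((ih2 y i k).trans (le_max_left _ _)) (hC' y k j) (norm_nonneg _)
          (le_max_right _ _)
  have hsum : ∀ y i j, Polynomial.aeval (G y) P i j =
      ∑ n ∈ Finset.range (P.natDegree + 1), P.coeff n * ((G y) ^ n) i j := by
    intro y i j
    rw [Polynomial.aeval_eq_sum_range, Matrix.sum_apply]
    rfl
  constructor
  · intro i j
    simp only [hsum]
    exact Finset.measurable_fun_sum _ fun n _ => measurable_const.mul ((hpow n).1 i j)
  · choose D hD using fun n => (hpow n).2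
    refine ⟨∑ n ∈ Finset.range (P.natDegree + 1), ‖P.coeff n‖ * D n, fun y i j => ?_⟩
    rw [hsum]
    refine (norm_sum_le _ _).trans (Finset.sum_le_sum fun n _ => ?_)
    rw [norm_mul]
    exact mul_le_mul_of_nonneg_left (hD n y i j) (norm_nonneg _)

/-- The coefficients of the characteristic polynomial are measurable. Proof. `Matrix.charpoly` is the
determinant of `X - G`, a finite sum over permutations of products of entries; the coefficient `n` is a
polynomial in the entries: e.g. `Matrix.charpoly.univ`/`Matrix.charpoly.univ_map_eval₂Hom`, or show by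
induction that coefficients of finite sums and products of polynomials with measurable coefficients are
measurable (`Polynomial.coeff_mul`, `Matrix.det_apply`). -/
theorem charpoly_meas {Y : Type*} {d : ℕ} (ℬ : MeasurableSpace Y)
    (G : Y → Matrix (Fin d) (Fin d) ℂ) (hG : ∀ i j, Measurable[ℬ] fun y => G y i j) (n : ℕ) :
    Measurable[ℬ] fun y => (G y).charpoly.coeff n := by
  classical
  have hprod : ∀ (s : Finset (Fin d)) (F : Fin d → Y → Polynomial ℂ),
      (∀ i n, Measurable[ℬ] fun y => (F i y).coeff n) →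
      ∀ n, Measurable[ℬ] fun y => (∏ i ∈ s, F i y).coeff n := by
    intro s F hF
    induction s using Finset.induction_on with
    | empty =>
      intro n
      simp only [Finset.prod_empty]
      exact measurable_const
    | insert a s ha ih =>
      intro n
      simp only [Finset.prod_insert ha, Polynomial.coeff_mul]
      exact Finset.measurable_fun_sum _ fun k _ => (hF a k.1).mul (ih k.2)
  simp only [Matrix.charpoly, Matrix.det_apply, Polynomial.finsetSum_coeff]
  refine Finset.measurable_fun_sum _ fun σ _ => ?_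
  have hc : ∀ n, Measurable[ℬ] fun y => (∏ i, (G y).charmatrix (σ i) i).coeff n := by
    refine hprod Finset.univ (fun i y => (G y).charmatrix (σ i) i) fun i n => ?_
    simp only [Matrix.charmatrix_apply, Polynomial.coeff_sub, Polynomial.coeff_C]
    refine measurable_const.sub ?_
    split_ifs
    · exact hG _ _
    · exact measurable_const
  have hsm : (fun y => (Equiv.Perm.sign σ • ∏ i, (G y).charmatrix (σ i) i).coeff n) =
      fun y => ((Equiv.Perm.sign σ : ℤ) : ℂ) * (∏ i, (G y).charmatrix (σ i) i).coeff n := by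
    funext y
    rw [Units.smul_def, Polynomial.coeff_smul, zsmul_eq_mul]
  rw [hsm]
  exact measurable_const.mul (hc n)

end Pool.Agent.Lib.H82OT
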