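import Pool.Agent.Lib.H82OT.GR1
import Pool.Agent.Lib.H82T.CV
import Pool.Agent.Lib.H22M.EG

/-!
# Project H82OT, chunk GR2: the Gram matrix
-/

open MeasureTheory Filter Topology Finset ProbabilityTheory
open scoped ENNReal ComplexConjugate Matrix ComplexOrder

namespace Pool.Agent.Lib.H82OT

open Pool.Agent.Lib.H22M Pool.Agent.Lib.H82T

private theorem GR2_lin {Y ι : Type*} [Fintype ι] (ℬ : MeasurableSpace Y)
    [mY : MeasurableSpace Y] {m : Measure Y} [IsProbabilityMeasure m] (hle : ℬ ≤ mY)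
    (c h g : ι → Y → ℂ) (hc : ∀ k, Measurable[ℬ] (c k))
    (hcb : ∀ k, ∃ C : ℝ, ∀ y, ‖c k y‖ ≤ C) (hh : ∀ k, BM (h k))
    (hg : ∀ k, m[h k|ℬ] =ᵐ[m] g k) :
    m[fun y => ∑ k, c k y * h k y|ℬ] =ᵐ[m] fun y => ∑ k, c k y * g k y := by
  have hfs : ∀ k, StronglyMeasurable[ℬ] (c k) := fun k => @cv_sm Y ℬ (c k) (hc k)
  have hhi : ∀ k, Integrable (h k) m := by
    intro k
    obtain ⟨hm, C, hC⟩ := hh k
    exact Integrable.of_bound hm.aestronglyMeasurable C (Eventually.of_forall hC)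
  have hint : ∀ k, Integrable (fun y => c k y * h k y) m := by
    intro k
    obtain ⟨hm, C, hC⟩ := hh k
    obtain ⟨C', hC'⟩ := hcb k
    refine Integrable.of_bound (((hc k).mono hle le_rfl).mul hm).aestronglyMeasurable (C' * C)
      (Eventually.of_forall fun y => ?_)
    rw [norm_mul]
    exact mul_le_mul (hC' y) (hC y) (norm_nonneg _) ((norm_nonneg _).trans (hC' y))
  have h1 : m[∑ k, (fun y => c k y * h k y)|ℬ] =ᵐ[m] ∑ k, m[fun y => c k y * h k y|ℬ] :=
    condExp_finsetSum (fun k _ => hint k) ℬ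
  have h2 : (∑ k, (fun y => c k y * h k y)) = fun y => ∑ k, c k y * h k y := by
    funext y
    rw [Finset.sum_apply]
  rw [h2] at h1
  have h3 : ∀ k, m[fun y => c k y * h k y|ℬ] =ᵐ[m] fun y => c k y * (m[h k|ℬ]) y := fun k =>
    condExp_bilin_of_stronglyMeasurable_left (ContinuousLinearMap.mul ℝ ℂ) (hfs k) (hint k)
      (hhi k)
  filter_upwards [h1, ae_all_iff.2 h3, ae_all_iff.2 hg] with y e1 e2 e3
  rw [e1, Finset.sum_apply]
  exact Finset.sum_congr rfl fun k _ => by rw [e2 k, e3 k]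

private theorem GR2_quad {d : ℕ} (M : Matrix (Fin d) (Fin d) ℂ) (x : Fin d → ℂ) :
    star x ⬝ᵥ (M *ᵥ x) = ∑ p : Fin d × Fin d, (conj (x p.1) * x p.2) * M p.1 p.2 := by
  rw [Fintype.sum_prod_type]
  simp only [dotProduct, Matrix.mulVec, Finset.mul_sum]
  refine Finset.sum_congr rfl fun i _ => Finset.sum_congr rfl fun j _ => ?_
  have h1 : (star x) i = conj (x i) := rfl
  rw [h1]
  ring

private theorem GR2_conj {d : ℕ} (M Φ : Matrix (Fin d) (Fin d) ℂ) (i j : Fin d) :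
    (Φ * M * Φᴴ) i j = ∑ p : Fin d × Fin d, (Φ i p.1 * conj (Φ j p.2)) * M p.1 p.2 := by
  rw [Fintype.sum_prod_type_right]
  simp only [Matrix.mul_apply, Finset.sum_mul]
  refine Finset.sum_congr rfl fun l _ => Finset.sum_congr rfl fun k _ => ?_
  rw [Matrix.conjTranspose_apply]
  have h1 : star (Φ j l) = conj (Φ j l) := rfl
  rw [h1]
  ring

private theorem GR2_psd {d : ℕ} (D : Set (Fin d → ℂ)) (hD : Dense D)
    (M : Matrix (Fin d) (Fin d) ℂ) :
    M.PosSemidef ↔ (∀ i j, conj (M j i) = M i j) ∧ ∀ x ∈ D, 0 ≤ star x ⬝ᵥ (M *ᵥ x) := by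
  rw [Matrix.posSemidef_iff_dotProduct_mulVec]
  constructor
  · rintro ⟨h1, h2⟩
    refine ⟨fun i j => ?_, fun x _ => h2 x⟩
    exact h1.apply i j
  · rintro ⟨h1, h2⟩
    refine ⟨?_, ?_⟩
    · ext i j
      exact h1 i j
    · have h3 : IsClosed {x : Fin d → ℂ | 0 ≤ star x ⬝ᵥ (M *ᵥ x)} := by
        refine isClosed_le continuous_const ?_
        have h4 : (fun x : Fin d → ℂ => star x ⬝ᵥ (M *ᵥ x)) =
            fun x => ∑ p : Fin d × Fin d, (conj (x p.1) * x p.2) * M p.1 p.2 := by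
          funext x
          exact GR2_quad M x
        rw [h4]
        refine continuous_finsetSum _ fun p _ => ?_
        exact ((Complex.continuous_conj.comp (continuous_apply p.1)).mul
          (continuous_apply p.2)).mul continuous_const
      have h5 : closure D ⊆ {x : Fin d → ℂ | 0 ≤ star x ⬝ᵥ (M *ᵥ x)} :=
        closure_minimal (fun x hx => h2 x hx) h3
      intro x
      have h6 : x ∈ closure D := by rw [hD.closure_eq]; exact Set.mem_univ x
      exact h5 h6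

private theorem GR2_meas {Y : Type*} {d : ℕ} [MeasurableSpace Y] (D : Set (Fin d → ℂ))
    (hDc : D.Countable) (hD : Dense D) (χ : Polynomial ℂ)
    (G : Y → Matrix (Fin d) (Fin d) ℂ) (hG : ∀ i j, Measurable fun y => G y i j) :
    MeasurableSet {y | (G y).PosSemidef ∧ (G y).charpoly = χ} := by
  have h1 : {y | (G y).PosSemidef ∧ (G y).charpoly = χ} =
      ((⋂ i : Fin d, ⋂ j : Fin d, {y | conj (G y j i) = G y i j}) ∩
        (⋂ x ∈ D, {y | 0 ≤ star x ⬝ᵥ (G y *ᵥ x)})) ∩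
        ⋂ n : ℕ, {y | (G y).charpoly.coeff n = χ.coeff n} := by
    ext y
    simp only [Set.mem_setOf_eq, Set.mem_inter_iff, Set.mem_iInter, GR2_psd D hD,
      Polynomial.ext_iff]
  rw [h1]
  refine MeasurableSet.inter (MeasurableSet.inter ?_ ?_) ?_
  · refine MeasurableSet.iInter fun i => MeasurableSet.iInter fun j => ?_
    exact measurableSet_eq_fun (Complex.continuous_conj.measurable.comp (hG j i)) (hG i j)
  · refine MeasurableSet.biInter hDc fun x _ => ?_
    refine measurableSet_le measurable_const ?_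
    have h4 : (fun y => star x ⬝ᵥ (G y *ᵥ x)) =
        fun y => ∑ p : Fin d × Fin d, (conj (x p.1) * x p.2) * G y p.1 p.2 := by
      funext y
      exact GR2_quad (G y) x
    rw [h4]
    exact Finset.measurable_sum _ fun p _ => (hG p.1 p.2).const_mul _
  · refine MeasurableSet.iInter fun n => ?_
    exact measurableSet_eq_fun (charpoly_meas _ G hG n) measurable_const

private theorem GR2_fix {Y : Type*} {d : ℕ} [MeasurableSpace Y] (B : Set Y)
    (hB : MeasurableSet B) (y₀ : Y) (G₀ : Y → Matrix (Fin d) (Fin d) ℂ)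
    (hG : ∀ i j, Measurable fun y => G₀ y i j) :
    ∃ G : Y → Matrix (Fin d) (Fin d) ℂ, (∀ i j, Measurable fun y => G y i j) ∧
      (∀ y ∈ B, G y = G₀ y) ∧ ∀ y, y ∉ B → G y = G₀ y₀ := by
  classical
  refine ⟨fun y => if y ∈ B then G₀ y else G₀ y₀, fun i j => ?_, fun y hy => if_pos hy,
    fun y hy => if_neg hy⟩
  have h1 : (fun y => (if y ∈ B then G₀ y else G₀ y₀) i j) =
      fun y => if y ∈ B then G₀ y i j else G₀ y₀ i j := by
    funext y
    split_ifs <;> rfl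
  rw [h1]
  exact Measurable.ite hB (hG i j) measurable_const

/-- The Gram matrix of `E` over `ℬ`: bounded, `ℬ`-measurable, positive semidefinite with constant
characteristic polynomial, equivariant. Proof. Let `G₀ y i j` be bounded `ℬ`-measurable versions of
`m[E_i conj E_j|ℬ]` (`exists_version` in `H82T/CV.lean`).
(1) `G₀ y` is positive semidefinite for almost every `y`: hermitian a.e. (conjugation); for `x ∈ ℂ^d` with
rational coordinates `star x ⬝ᵥ G₀ y *ᵥ x`-type expression is `m[|∑ conj x_i E_i|²|ℬ] ≥ 0` a.e.; countably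
many `x` (a countable dense set of `Fin d → ℂ`, `TopologicalSpace.exists_countable_dense`), continuity.
(2) `G₀ (R y) = Φ y G₀ y (Φ y)ᴴ` a.e.: `m[h|ℬ] ∘ R = m[h ∘ R|ℬ]` (`condExp_comp_equiv` in `H22M/CE.lean`),
`E_i ∘ R = ∑ Φ_ik E_k`, pull-out.
(3) By (2) and `charpoly_conj` the coefficients of `(G₀ y).charpoly` are invariant under `R` a.e., so
constant a.e. by ergodicity (`charpoly_meas`, `const_of_invariant` in `H22M/EG.lean`); all polynomials have
degree `d`, so `(G₀ y).charpoly = χ` a.e.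
(4) The set `B` of the `y` where `G₀ y` is positive semidefinite with characteristic polynomial `χ` is
`ℬ`-measurable (positivity tested on the countable dense set, coefficients `≤ d`) and of full measure; fix
`y₀ ∈ B` and put `G y = G₀ y` on `B`, `G y = G₀ y₀` outside. -/
theorem exists_gram {Y : Type*} {d : ℕ} (ℬ : MeasurableSpace Y) [mY : MeasurableSpace Y]
    {m : Measure Y} [IsProbabilityMeasure m] (hle : ℬ ≤ mY) (R : Y ≃ᵐ Y) (hR : Ergodic R m)
    (hinv : ℬ.comap R = ℬ) (Φ : Y → Matrix (Fin d) (Fin d) ℂ)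
    (hΦ : ∀ i j, Measurable[ℬ] fun y => Φ y i j) (hu : ∀ y, Φ y * (Φ y)ᴴ = 1)
    (E : Y → Fin d → ℂ) (hE : ∀ i, BM fun y => E y i)
    (hrel : ∀ᵐ y ∂m, E (R y) = Φ y *ᵥ E y) :
    ∃ (G : Y → Matrix (Fin d) (Fin d) ℂ) (χ : Polynomial ℂ),
      (∀ i j, Measurable[ℬ] fun y => G y i j) ∧ (∃ C : ℝ, ∀ y i j, ‖G y i j‖ ≤ C) ∧
      (∀ y, (G y).PosSemidef ∧ (G y).charpoly = χ) ∧
      (∀ i j, m[fun y => E y i * conj (E y j)|ℬ] =ᵐ[m] fun y => G y i j) ∧
      ∀ᵐ y ∂m, G (R y) = Φ y * G y * (Φ y)ᴴ := by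
  classical
  have hRm : MeasurePreserving R m m := hR.toMeasurePreserving
  -- products of coordinates
  have hBM : ∀ i j, BM fun y => E y i * conj (E y j) := by
    intro i j
    obtain ⟨hi, C, hC⟩ := hE i
    obtain ⟨hj, C', hC'⟩ := hE j
    refine ⟨hi.mul (Complex.continuous_conj.measurable.comp hj), C * C', fun y => ?_⟩
    rw [norm_mul, RCLike.norm_conj]
    exact mul_le_mul (hC y) (hC' y) (norm_nonneg _) ((norm_nonneg _).trans (hC y))
  have hint : ∀ i j, Integrable (fun y => E y i * conj (E y j)) m := by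
    intro i j
    obtain ⟨hi, C, hC⟩ := hBM i j
    exact Integrable.of_bound hi.aestronglyMeasurable C (Eventually.of_forall hC)
  -- versions
  have hver : ∀ i j, ∃ g : Y → ℂ, Measurable[ℬ] g ∧ (∃ C : ℝ, ∀ y, ‖g y‖ ≤ C) ∧
      m[fun y => E y i * conj (E y j)|ℬ] =ᵐ[m] g := by
    intro i j
    obtain ⟨hi, C, hC⟩ := hBM i j
    obtain ⟨g, g1, g2, g3, -⟩ := exists_version ℬ m hle _ hi (max C 0) (le_max_right _ _)
      (Eventually.of_forall fun y => (hC y).trans (le_max_left _ _))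
    exact ⟨g, g1, ⟨_, g2⟩, g3.symm⟩
  choose g g1 g2 g3 using hver
  choose Cg hCg using g2
  set G₀ : Y → Matrix (Fin d) (Fin d) ℂ := fun y => Matrix.of fun i j => g i j y with hG₀
  have hG₀m : ∀ i j, Measurable[ℬ] fun y => G₀ y i j := g1
  have hG₀g : ∀ i j, m[fun y => E y i * conj (E y j)|ℬ] =ᵐ[m] fun y => G₀ y i j := g3
  have hG₀b : ∃ C : ℝ, ∀ y i j, ‖G₀ y i j‖ ≤ C := by
    refine ⟨∑ i, ∑ j, |Cg i j|, fun y i j => ?_⟩
    calc ‖G₀ y i j‖ ≤ Cg i j := hCg i j y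
      _ ≤ |Cg i j| := le_abs_self _
      _ ≤ ∑ j, |Cg i j| := Finset.single_le_sum (f := fun j => |Cg i j|)
          (fun j _ => abs_nonneg _) (Finset.mem_univ j)
      _ ≤ ∑ i, ∑ j, |Cg i j| := Finset.single_le_sum (f := fun i => ∑ j, |Cg i j|)
          (fun i _ => Finset.sum_nonneg fun j _ => abs_nonneg _) (Finset.mem_univ i)
  obtain ⟨D, hDc, hD⟩ := TopologicalSpace.exists_countable_dense (Fin d → ℂ)
  -- hermitian
  have hherm : ∀ i j, ∀ᵐ y ∂m, conj (G₀ y j i) = G₀ y i j := by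
    intro i j
    have h1 := (Complex.conjCLE : ℂ →L[ℝ] ℂ).comp_condExp_comm (m := ℬ) (hint j i)
    have h2 : ((Complex.conjCLE : ℂ →L[ℝ] ℂ) : ℂ → ℂ) ∘ (fun y => E y j * conj (E y i)) =
        fun y => E y i * conj (E y j) := by
      funext y
      show conj (E y j * conj (E y i)) = _
      rw [map_mul, Complex.conj_conj, mul_comm]
    rw [h2] at h1
    filter_upwards [h1, hG₀g i j, hG₀g j i] with y e1 e2 e3
    rw [← e2, ← e3, ← e1]
    rfl
  -- positive
  have hpos : ∀ x : Fin d → ℂ, ∀ᵐ y ∂m, 0 ≤ star x ⬝ᵥ (G₀ y *ᵥ x) := by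
    intro x
    have h1 := GR2_lin (m := m) ℬ hle (fun (p : Fin d × Fin d) (_ : Y) => conj (x p.1) * x p.2)
      (fun p y => E y p.1 * conj (E y p.2)) (fun p y => G₀ y p.1 p.2)
      (fun p => measurable_const) (fun p => ⟨_, fun y => le_rfl⟩) (fun p => hBM p.1 p.2)
      (fun p => hG₀g p.1 p.2)
    have h2 : ∀ y, ∑ p : Fin d × Fin d, (conj (x p.1) * x p.2) * (E y p.1 * conj (E y p.2)) =
        ((‖∑ i, conj (x i) * E y i‖ ^ 2 : ℝ) : ℂ) := by
      intro y
      rw [Fintype.sum_prod_type, ← Complex.normSq_eq_norm_sq, ← Complex.mul_conj, map_sum,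
        Finset.sum_mul_sum]
      refine Finset.sum_congr rfl fun i _ => Finset.sum_congr rfl fun j _ => ?_
      rw [map_mul, Complex.conj_conj]
      ring
    have h3 : 0 ≤ᵐ[m] fun y => ∑ p : Fin d × Fin d,
        (conj (x p.1) * x p.2) * (E y p.1 * conj (E y p.2)) := by
      refine Eventually.of_forall fun y => ?_
      have h5 : (0 : ℂ) ≤ ((‖∑ i, conj (x i) * E y i‖ ^ 2 : ℝ) : ℂ) :=
        Complex.zero_le_real.2 (by positivity)
      rw [← h2 y] at h5
      exact h5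
    have h4 := condExp_nonneg (m := ℬ) h3
    filter_upwards [h1, h4] with y e1 e2
    rw [GR2_quad, ← e1]
    exact e2
  have hpsd : ∀ᵐ y ∂m, (G₀ y).PosSemidef := by
    have h1 : ∀ᵐ y ∂m, ∀ x ∈ D, 0 ≤ star x ⬝ᵥ (G₀ y *ᵥ x) :=
      (ae_ball_iff hDc).2 fun x _ => hpos x
    filter_upwards [h1, ae_all_iff.2 fun i => ae_all_iff.2 fun j => hherm i j] with y e1 e2
    exact (GR2_psd D hD _).2 ⟨e2, e1⟩
  -- equivariance
  have hΦb : ∀ y i j, ‖Φ y i j‖ ≤ 1 := by
    intro y i j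
    have h1 : (Φ y * (Φ y)ᴴ) i i = 1 := by rw [hu y]; simp
    rw [Matrix.mul_apply] at h1
    have h2 : ∑ k, ‖Φ y i k‖ ^ 2 = 1 := by
      have h3 : ((∑ k, ‖Φ y i k‖ ^ 2 : ℝ) : ℂ) = 1 := by
        rw [← h1, Complex.ofReal_sum]
        refine Finset.sum_congr rfl fun k _ => ?_
        rw [Matrix.conjTranspose_apply]
        have h4 : star (Φ y i k) = conj (Φ y i k) := rfl
        rw [h4, Complex.mul_conj, Complex.normSq_eq_norm_sq]
      exact_mod_cast h3
    have h5 : ‖Φ y i j‖ ^ 2 ≤ 1 := by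
      rw [← h2]
      exact Finset.single_le_sum (f := fun k => ‖Φ y i k‖ ^ 2) (fun k _ => by positivity)
        (Finset.mem_univ j)
    nlinarith [norm_nonneg (Φ y i j)]
  have hs1 : ∀ s, MeasurableSet[ℬ] s → MeasurableSet[ℬ] (R ⁻¹' s) := by
    intro s hs
    have h2 : MeasurableSet[ℬ.comap R] (R ⁻¹' s) := ⟨s, hs, rfl⟩
    rwa [hinv] at h2
  have hs2 : ∀ s, MeasurableSet[ℬ] s → MeasurableSet[ℬ] (R.symm ⁻¹' s) := by
    intro s hs
    have h3 : MeasurableSet[ℬ.comap R] s := by rwa [hinv]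
    obtain ⟨t, ht, rfl⟩ := h3
    have h4 : R.symm ⁻¹' (R ⁻¹' t) = t := by
      rw [← Set.preimage_comp]
      simp
    rwa [h4]
  have hrelij : ∀ i j, ∀ᵐ y ∂m, G₀ (R y) i j = (Φ y * G₀ y * (Φ y)ᴴ) i j := by
    intro i j
    have h5 := condExp_comp_equiv ℬ m hle R hRm hs1 hs2 _ (hint i j)
    have h6 : ∀ᵐ y ∂m, G₀ (R y) i j = (m[fun y => E y i * conj (E y j)|ℬ]) (R y) :=
      (hRm.quasiMeasurePreserving.ae (hG₀g i j)).mono fun y hy => hy.symm
    have h7 : (fun y => E (R y) i * conj (E (R y) j)) =ᵐ[m]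
        fun y => ∑ p : Fin d × Fin d, (Φ y i p.1 * conj (Φ y j p.2)) *
          (E y p.1 * conj (E y p.2)) := by
      filter_upwards [hrel] with y hy
      show E (R y) i * conj (E (R y) j) = _
      rw [hy, Fintype.sum_prod_type]
      simp only [Matrix.mulVec, dotProduct]
      rw [map_sum, Finset.sum_mul_sum]
      refine Finset.sum_congr rfl fun k _ => Finset.sum_congr rfl fun l _ => ?_
      rw [map_mul]
      ring
    have h8 : m[fun y => E (R y) i * conj (E (R y) j)|ℬ] =ᵐ[m]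
        m[fun y => ∑ p : Fin d × Fin d, (Φ y i p.1 * conj (Φ y j p.2)) *
          (E y p.1 * conj (E y p.2))|ℬ] := condExp_congr_ae h7
    have h9 := GR2_lin (m := m) ℬ hle
      (fun (p : Fin d × Fin d) (y : Y) => Φ y i p.1 * conj (Φ y j p.2))
      (fun p y => E y p.1 * conj (E y p.2)) (fun p y => G₀ y p.1 p.2)
      (fun p => (hΦ i p.1).mul (Complex.continuous_conj.measurable.comp (hΦ j p.2)))
      (fun p => ⟨1, fun y => by
        rw [norm_mul, RCLike.norm_conj]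
        exact mul_le_one₀ (hΦb y i p.1) (norm_nonneg _) (hΦb y j p.2)⟩) (fun p => hBM p.1 p.2)
      (fun p => hG₀g p.1 p.2)
    filter_upwards [h5, h6, h8, h9] with y e5 e6 e8 e9
    rw [e6, ← e5, e8, e9, GR2_conj]
  have hrel0 : ∀ᵐ y ∂m, G₀ (R y) = Φ y * G₀ y * (Φ y)ᴴ := by
    filter_upwards [ae_all_iff.2 fun i => ae_all_iff.2 fun j => hrelij i j] with y hy
    ext i j
    exact hy i j
  -- the characteristic polynomial
  have hcoef : ∀ n : ℕ, ∃ c : ℂ, ∀ᵐ y ∂m, (G₀ y).charpoly.coeff n = c := by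
    intro n
    refine const_of_invariant hR _ ((charpoly_meas ℬ G₀ hG₀m n).mono hle le_rfl) ?_
    filter_upwards [hrel0] with y hy
    rw [hy, charpoly_conj _ _ (hu y)]
  choose c hc using hcoef
  have hall : ∀ᵐ y ∂m, ∀ n, (G₀ y).charpoly.coeff n = c n := ae_all_iff.2 hc
  obtain ⟨y₀, hy₀p, hy₀c⟩ := (hpsd.and hall).exists
  set χ : Polynomial ℂ := (G₀ y₀).charpoly with hχ
  have hchi : ∀ᵐ y ∂m, (G₀ y).charpoly = χ := by
    filter_upwards [hall] with y hy
    ext n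
    rw [hy n, hy₀c n]
  set B : Set Y := {y | (G₀ y).PosSemidef ∧ (G₀ y).charpoly = χ} with hB
  have hBm : MeasurableSet[ℬ] B := @GR2_meas Y d ℬ D hDc hD χ G₀ hG₀m
  have hBf : ∀ᵐ y ∂m, y ∈ B := by
    filter_upwards [hpsd, hchi] with y e1 e2
    exact ⟨e1, e2⟩
  obtain ⟨G, hGm, hG1, hG2⟩ := @GR2_fix Y d ℬ B hBm y₀ G₀ hG₀m
  refine ⟨G, χ, hGm, ?_, ?_, ?_, ?_⟩
  · obtain ⟨C, hC⟩ := hG₀b
    refine ⟨C, fun y i j => ?_⟩
    by_cases hy : y ∈ B
    · rw [hG1 y hy]
      exact hC y i j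
    · rw [hG2 y hy]
      exact hC y₀ i j
  · intro y
    by_cases hy : y ∈ B
    · rw [hG1 y hy]
      exact hy
    · rw [hG2 y hy]
      exact ⟨hy₀p, rfl⟩
  · intro i j
    filter_upwards [hG₀g i j, hBf] with y e1 e2
    rw [e1, hG1 y e2]
  · have hBR : ∀ᵐ y ∂m, R y ∈ B := hRm.quasiMeasurePreserving.ae hBf
    filter_upwards [hrel0, hBf, hBR] with y e1 e2 e3
    rw [hG1 _ e3, hG1 _ e2, e1]

end Pool.Agent.Lib.H82OT
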