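import Pool.Agent.Lib.H82OT.KP3
import Pool.Agent.Lib.H82OT.KP2

/-!
# Project H82OT, chunk HT1: the measures tau and hat
-/

open MeasureTheory Filter Topology Finset ProbabilityTheory
open scoped ENNReal ComplexConjugate Matrix

namespace Pool.Agent.Lib.H82OT

open Pool.Agent.Lib.H22M Pool.Agent.Lib.H82T

variable {Y : Type*} {𝒵 : MeasurableSpace Y} [mY : MeasurableSpace Y] [StandardBorelSpace Y]

instance kap2_markov (m : Measure Y) [IsProbabilityMeasure m] (h𝒵 : 𝒵 ≤ mY) :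
    IsMarkovKernel (kap2 m h𝒵) := by
  unfold kap2
  infer_instance

instance tau_prob (m : Measure Y) [IsProbabilityMeasure m] (h𝒵 : 𝒵 ≤ mY) (σ : Measure (Y × Y))
    [IsProbabilityMeasure σ] : IsProbabilityMeasure (tau m h𝒵 σ) := by
  unfold tau
  infer_instance

instance hat_prob (m : Measure Y) [IsProbabilityMeasure m] (h𝒵 : 𝒵 ≤ mY) (σ : Measure (Y × Y))
    [IsProbabilityMeasure σ] : IsProbabilityMeasure (hat m h𝒵 σ) :=
  Measure.isProbabilityMeasure_map measurable_snd.aemeasurable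

/-- Proof. `Measure.integral_compProd` for `σ ⊗ₘ kap2`; `kap2 m h𝒵 (y, y')` is the product measure of
`kap m h𝒵 y` and `kap m h𝒵 y'` (`Kernel.prod_apply`, `Kernel.comap_apply`); `integral_prod_mul`. -/
theorem integral_tau (m : Measure Y) [IsProbabilityMeasure m] (h𝒵 : 𝒵 ≤ mY)
    (σ : Measure (Y × Y)) [IsProbabilityMeasure σ] (A B : Y × Y → ℂ) (hA : BM A) (hB : BM B) :
    ∫ w, A (w.1.1, w.2.1) * B (w.1.2, w.2.2) ∂(tau m h𝒵 σ) =
      ∫ z, (∫ x, A (z.1, x) ∂(kap m h𝒵 z.1)) * (∫ x, B (z.2, x) ∂(kap m h𝒵 z.2)) ∂σ := by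
  have hp : Measurable fun w : (Y × Y) × (Y × Y) => (w.1.1, w.2.1) :=
    (measurable_fst.comp measurable_fst).prodMk (measurable_fst.comp measurable_snd)
  have hq : Measurable fun w : (Y × Y) × (Y × Y) => (w.1.2, w.2.2) :=
    (measurable_snd.comp measurable_fst).prodMk (measurable_snd.comp measurable_snd)
  have hAB : BM fun w : (Y × Y) × (Y × Y) => A (w.1.1, w.2.1) * B (w.1.2, w.2.2) :=
    (hA.comp hp).mul (hB.comp hq)
  have hi : Integrable (fun w : (Y × Y) × (Y × Y) => A (w.1.1, w.2.1) * B (w.1.2, w.2.2))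
      (σ ⊗ₘ kap2 m h𝒵) := hAB.integrable
  have e1 : ∫ w, A (w.1.1, w.2.1) * B (w.1.2, w.2.2) ∂(tau m h𝒵 σ) =
      ∫ z, ∫ x, A (z.1, x.1) * B (z.2, x.2) ∂(kap2 m h𝒵 z) ∂σ :=
    Measure.integral_compProd hi
  rw [e1]
  refine integral_congr_ae (Filter.Eventually.of_forall fun z => ?_)
  have e2 : kap2 m h𝒵 z = (kap m h𝒵 z.1).prod (kap m h𝒵 z.2) := by
    unfold kap2
    rw [Kernel.prod_apply, Kernel.comap_apply, Kernel.comap_apply]
  show ∫ x, A (z.1, x.1) * B (z.2, x.2) ∂(kap2 m h𝒵 z) = _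
  rw [e2]
  exact integral_prod_mul (fun x => A (z.1, x)) (fun x => B (z.2, x))

/-- Proof. `integral_tau` with `A (y, x) = a y * K (y, x) * h x` and the same for `B`;
`Kop` is the inner integral (`integral_const_mul`). -/
theorem integral_tau_Kop (m : Measure Y) [IsProbabilityMeasure m] (h𝒵 : 𝒵 ≤ mY)
    (σ : Measure (Y × Y)) [IsProbabilityMeasure σ] (a b : Y → ℂ) (ha : BM a) (hb : BM b)
    (K K' : Y × Y → ℂ) (hK : BM K) (hK' : BM K') (h h' : Y → ℂ) (hh : BM h) (hh' : BM h') :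
    ∫ w, (a w.1.1 * (K (w.1.1, w.2.1) * h w.2.1)) * (b w.1.2 * (K' (w.1.2, w.2.2) * h' w.2.2))
        ∂(tau m h𝒵 σ) =
      ∫ z, (a z.1 * Kop m h𝒵 K h z.1) * (b z.2 * Kop m h𝒵 K' h' z.2) ∂σ := by
  have hA : BM fun z : Y × Y => a z.1 * (K z * h z.2) :=
    (ha.comp measurable_fst).mul (hK.mul (hh.comp measurable_snd))
  have hB : BM fun z : Y × Y => b z.1 * (K' z * h' z.2) :=
    (hb.comp measurable_fst).mul (hK'.mul (hh'.comp measurable_snd))
  have e1 := integral_tau m h𝒵 σ _ _ hA hB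
  refine e1.trans (integral_congr_ae (Filter.Eventually.of_forall fun z => ?_))
  show (∫ x, a z.1 * (K (z.1, x) * h x) ∂(kap m h𝒵 z.1)) *
    (∫ x, b z.2 * (K' (z.2, x) * h' x) ∂(kap m h𝒵 z.2)) = _
  rw [integral_const_mul, integral_const_mul]
  rfl

private theorem HT1_ae {α : Type*} [MeasurableSpace α] {μ ν : Measure α} (h : ν = μ)
    {p : α → Prop} (hp : ∀ᵐ y ∂μ, p y) : ∀ᵐ y ∂ν, p y := by
  rw [h]
  exact hp

/-- Proof. `hat` is the image under `snd` (`integral_map`), `integral_tau` and `kap_condExp` in both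
coordinates (`σ` has marginals `m`: an `m`-a.e. property of `z.1` or `z.2` holds `σ`-a.e.,
`ae_of_ae_map`). -/
theorem integral_hat (m : Measure Y) [IsProbabilityMeasure m] (h𝒵 : 𝒵 ≤ mY)
    (σ : Measure (Y × Y)) [IsProbabilityMeasure σ] (h1 : σ.map Prod.fst = m)
    (h2 : σ.map Prod.snd = m) (f g : Y → ℂ) (hf : BM f) (hg : BM g) :
    ∫ z, f z.1 * g z.2 ∂(hat m h𝒵 σ) = ∫ z, (m[f|𝒵]) z.1 * (m[g|𝒵]) z.2 ∂σ := by
  have hfg : BM fun z : Y × Y => f z.1 * g z.2 :=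
    (hf.comp measurable_fst).mul (hg.comp measurable_snd)
  have e0 : ∫ z, f z.1 * g z.2 ∂(hat m h𝒵 σ) = ∫ w, f w.2.1 * g w.2.2 ∂(tau m h𝒵 σ) := by
    unfold hat
    exact integral_map measurable_snd.aemeasurable hfg.1.aestronglyMeasurable
  have e1 := integral_tau m h𝒵 σ (fun z => f z.2) (fun z => g z.2) (hf.comp measurable_snd)
    (hg.comp measurable_snd)
  rw [e0]
  refine e1.trans (integral_congr_ae ?_)
  have k1 : ∀ᵐ z ∂σ, ∫ x, f x ∂(kap m h𝒵 z.1) = (m[f|𝒵]) z.1 := by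
    have h3 := kap_condExp m h𝒵 f hf
    have h4 := HT1_ae h1 h3
    exact ae_of_ae_map measurable_fst.aemeasurable h4
  have k2 : ∀ᵐ z ∂σ, ∫ x, g x ∂(kap m h𝒵 z.2) = (m[g|𝒵]) z.2 := by
    have h3 := kap_condExp m h𝒵 g hg
    have h4 := HT1_ae h2 h3
    exact ae_of_ae_map measurable_snd.aemeasurable h4
  filter_upwards [k1, k2] with z z1 z2
  show (∫ x, f x ∂(kap m h𝒵 z.1)) * (∫ x, g x ∂(kap m h𝒵 z.2)) = _
  rw [z1, z2]

end Pool.Agent.Lib.H82OT
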