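import Pool.Agent.Lib.H82OT.HT1
import Pool.Agent.Lib.H22M.CE

/-!
# Project H82OT, chunk HT2: marginals and invariance of tau
-/

open MeasureTheory Filter Topology Finset ProbabilityTheory
open scoped ENNReal ComplexConjugate Matrix

namespace Pool.Agent.Lib.H82OT

open Pool.Agent.Lib.H22M Pool.Agent.Lib.H82T

variable {Y : Type*} {𝒵 : MeasurableSpace Y} [mY : MeasurableSpace Y] [StandardBorelSpace Y]

/-- Proof. For measurable `A ⊆ Y × Y` and `A' ⊆ Y × Y`-rectangles it suffices (`prod_ext_of_BM` in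
`H22M/SQ.lean`) to compare `∫ a(w.1.1) h(w.2.1) dτ = ∫ a(z.1) m[h|𝒵](z.1) dσ = ∫ a m[h|𝒵] dm =
∫ a(z.1) h(z.2) dmh` (`integral_tau`, `kap_condExp`, `integral_mh_mul`). -/
theorem tau_map_left (m : Measure Y) [IsProbabilityMeasure m] (h𝒵 : 𝒵 ≤ mY)
    (σ : Measure (Y × Y)) [IsProbabilityMeasure σ] (h1 : σ.map Prod.fst = m) :
    (tau m h𝒵 σ).map (fun w => (w.1.1, w.2.1)) = mh m h𝒵 := by
  have hm : Measurable (fun w : (Y × Y) × (Y × Y) => (w.1.1, w.2.1)) := by fun_prop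
  have hp : IsProbabilityMeasure ((tau m h𝒵 σ).map (fun w => (w.1.1, w.2.1))) :=
    Measure.isProbabilityMeasure_map hm.aemeasurable
  refine prod_ext_of_BM _ _ (fun f g hf hg => ?_)
  have hA : BM (fun z : Y × Y => f z.1 * g z.2) :=
    (hf.comp measurable_fst).mul (hg.comp measurable_snd)
  rw [integral_map hm.aemeasurable hA.1.aestronglyMeasurable, integral_mh m h𝒵 _ hA]
  have h := integral_tau m h𝒵 σ (fun z => f z.1 * g z.2) (fun _ => 1) hA (BM.const 1)
  have hone : ∀ y, ∫ _x, (1 : ℂ) ∂(kap m h𝒵 y) = 1 := fun y => by simp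
  simp only [mul_one, hone] at h
  have hF : BM (fun y => ∫ x, f y * g x ∂(kap m h𝒵 y)) :=
    Kop_BM m h𝒵 (fun z => f z.1) g (hf.comp measurable_fst) hg
  have h2 := integral_map (μ := σ) measurable_fst.aemeasurable
    (f := fun y => ∫ x, f y * g x ∂(kap m h𝒵 y)) hF.1.aestronglyMeasurable
  rw [h1] at h2
  rw [h2]
  exact h

/-- Proof. As `tau_map_left`. -/
theorem tau_map_right (m : Measure Y) [IsProbabilityMeasure m] (h𝒵 : 𝒵 ≤ mY)
    (σ : Measure (Y × Y)) [IsProbabilityMeasure σ] (h2 : σ.map Prod.snd = m) :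
    (tau m h𝒵 σ).map (fun w => (w.1.2, w.2.2)) = mh m h𝒵 := by
  have hm : Measurable (fun w : (Y × Y) × (Y × Y) => (w.1.2, w.2.2)) := by fun_prop
  have hp : IsProbabilityMeasure ((tau m h𝒵 σ).map (fun w => (w.1.2, w.2.2))) :=
    Measure.isProbabilityMeasure_map hm.aemeasurable
  refine prod_ext_of_BM _ _ (fun f g hf hg => ?_)
  have hA : BM (fun z : Y × Y => f z.1 * g z.2) :=
    (hf.comp measurable_fst).mul (hg.comp measurable_snd)
  rw [integral_map hm.aemeasurable hA.1.aestronglyMeasurable, integral_mh m h𝒵 _ hA]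
  have h := integral_tau m h𝒵 σ (fun _ => 1) (fun z => f z.1 * g z.2) (BM.const 1) hA
  have hone : ∀ y, ∫ _x, (1 : ℂ) ∂(kap m h𝒵 y) = 1 := fun y => by simp
  simp only [one_mul, hone] at h
  have hF : BM (fun y => ∫ x, f y * g x ∂(kap m h𝒵 y)) :=
    Kop_BM m h𝒵 (fun z => f z.1) g (hf.comp measurable_fst) hg
  have h3 := integral_map (μ := σ) measurable_snd.aemeasurable
    (f := fun y => ∫ x, f y * g x ∂(kap m h𝒵 y)) hF.1.aestronglyMeasurable
  rw [h2] at h3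
  rw [h3]
  exact h

/-- Two probability measures on `(Y × Y) × (Y × Y)` with the same integrals of fourfold products of
bounded functions agree. Proof. The boxes `(A × B) × (C × D)` of measurable sets form a π-system
generating the product σ-algebra (`generateFrom_prod` twice; or apply `prod_ext_of_BM` and, for fixed
bounded `G` on the second factor, a second application of a uniqueness argument; or transport by the
measurable equivalence and use `Measure.pi`-like lemma). Alternatively: `ext_of_generate_finite` with the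
set of boxes: `isPiSystem_prod`-like argument and `generateFrom_prod_eq` (with the countable spanning
sets `univ`). -/
theorem quad_ext {Y₁ Y₂ Y₃ Y₄ : Type*} [MeasurableSpace Y₁] [MeasurableSpace Y₂]
    [MeasurableSpace Y₃] [MeasurableSpace Y₄] (τ τ' : Measure ((Y₁ × Y₂) × (Y₃ × Y₄)))
    [IsProbabilityMeasure τ] [IsProbabilityMeasure τ']
    (h : ∀ (f₁ : Y₁ → ℂ) (f₂ : Y₂ → ℂ) (f₃ : Y₃ → ℂ) (f₄ : Y₄ → ℂ), BM f₁ → BM f₂ → BM f₃ →
      BM f₄ → ∫ w, (f₁ w.1.1 * f₃ w.2.1) * (f₂ w.1.2 * f₄ w.2.2) ∂τ =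
        ∫ w, (f₁ w.1.1 * f₃ w.2.1) * (f₂ w.1.2 * f₄ w.2.2) ∂τ') : τ = τ' := by
  have hgen : MeasurableSpace.generateFrom (Set.image2 (· ×ˢ ·)
      (Set.image2 (· ×ˢ ·) {s : Set Y₁ | MeasurableSet s} {t : Set Y₂ | MeasurableSet t})
      (Set.image2 (· ×ˢ ·) {s : Set Y₃ | MeasurableSet s} {t : Set Y₄ | MeasurableSet t})) =
      (inferInstance : MeasurableSpace ((Y₁ × Y₂) × (Y₃ × Y₄))) :=
    generateFrom_eq_prod generateFrom_prod generateFrom_prod
      (isCountablySpanning_measurableSet.prod isCountablySpanning_measurableSet)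
      (isCountablySpanning_measurableSet.prod isCountablySpanning_measurableSet)
  refine MeasureTheory.ext_of_generate_finite _ hgen.symm
    (isPiSystem_prod.prod isPiSystem_prod) ?_ (by rw [measure_univ, measure_univ])
  rintro _ ⟨_, ⟨A, hA, B, hB, rfl⟩, _, ⟨C, hC, D, hD, rfl⟩, rfl⟩
  have key : ∀ ρ : Measure ((Y₁ × Y₂) × (Y₃ × Y₄)), IsProbabilityMeasure ρ →
      ∫ w, (A.indicator (fun _ => (1 : ℂ)) w.1.1 * C.indicator (fun _ => (1 : ℂ)) w.2.1) *
        (B.indicator (fun _ => (1 : ℂ)) w.1.2 * D.indicator (fun _ => (1 : ℂ)) w.2.2) ∂ρ =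
        ((ρ ((A ×ˢ B) ×ˢ (C ×ˢ D))).toReal : ℂ) := by
    intro ρ hρ
    have e1 : (fun w : (Y₁ × Y₂) × (Y₃ × Y₄) =>
        (A.indicator (fun _ => (1 : ℂ)) w.1.1 * C.indicator (fun _ => (1 : ℂ)) w.2.1) *
        (B.indicator (fun _ => (1 : ℂ)) w.1.2 * D.indicator (fun _ => (1 : ℂ)) w.2.2)) =
        ((A ×ˢ B) ×ˢ (C ×ˢ D)).indicator (fun _ => (1 : ℂ)) := by
      funext w
      by_cases h1 : w.1.1 ∈ A <;> by_cases h2 : w.1.2 ∈ B <;> by_cases h3 : w.2.1 ∈ C <;>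
        by_cases h4 : w.2.2 ∈ D <;> simp [h1, h2, h3, h4, Set.indicator]
    rw [e1, integral_indicator ((hA.prod hB).prod (hC.prod hD))]
    simp [Measure.real]
  have h1 := h _ _ _ _ (sq_bm_indicator hA) (sq_bm_indicator hB) (sq_bm_indicator hC)
    (sq_bm_indicator hD)
  rw [key τ inferInstance, key τ' inferInstance] at h1
  have h2 : (τ ((A ×ˢ B) ×ˢ (C ×ˢ D))).toReal = (τ' ((A ×ˢ B) ×ˢ (C ×ˢ D))).toReal := by
    exact_mod_cast h1
  exact (ENNReal.toReal_eq_toReal_iff' (measure_ne_top _ _) (measure_ne_top _ _)).1 h2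

/-- Proof. `quad_ext`. With `T = R^[q]`, which preserves `m` and `𝒵`, and `T × T` preserves `σ`:
`∫ f₁(T w.1.1) f₃(T w.2.1) f₂(T w.1.2) f₄(T w.2.2) dτ = ∫ (f₁ ∘ T)(z.1) m[f₃ ∘ T|𝒵](z.1)
(f₂ ∘ T)(z.2) m[f₄ ∘ T|𝒵](z.2) dσ` (`integral_tau`, `kap_condExp`) and `m[f ∘ T|𝒵] = m[f|𝒵] ∘ T` a.e.
(`condExp_comp_equiv` in `H22M/CE.lean` for a measurable equivalence `T' : Y ≃ᵐ Y` with
`⇑T' = R^[q]`; or use the hypothesis `hT` below which gives `T` as an equivalence), then the invariance of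
`σ`. -/
theorem tau_inv (m : Measure Y) [IsProbabilityMeasure m] (h𝒵 : 𝒵 ≤ mY)
    (σ : Measure (Y × Y)) [IsProbabilityMeasure σ] (h1 : σ.map Prod.fst = m)
    (h2 : σ.map Prod.snd = m) (T : Y ≃ᵐ Y) (hT : MeasurePreserving T m m)
    (hinv : 𝒵.comap T = 𝒵) (hσ : MeasurePreserving (Prod.map T T) σ σ) :
    MeasurePreserving (Prod.map (Prod.map T T) (Prod.map T T)) (tau m h𝒵 σ) (tau m h𝒵 σ) := by
  have hTm : Measurable (T : Y → Y) := T.measurable
  have hM : Measurable (Prod.map (Prod.map T T) (Prod.map T T)) :=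
    (hTm.prodMap hTm).prodMap (hTm.prodMap hTm)
  have hkap : ∀ f : Y → ℂ, BM f → ∀ᵐ y ∂m, ∫ x, f (T x) ∂(kap m h𝒵 y) =
      ∫ x, f x ∂(kap m h𝒵 (T y)) := by
    intro f hf
    have a1 := kap_condExp m h𝒵 (fun x => f (T x)) (hf.comp hTm)
    have a2 := condExp_comp_equiv 𝒵 m h𝒵 T hT
      (fun s hs => by rw [← hinv]; exact ⟨s, hs, rfl⟩)
      (fun s hs => by
        rw [← hinv] at hs
        obtain ⟨s', hs', rfl⟩ := hs
        have e : T.symm ⁻¹' (T ⁻¹' s') = s' := by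
          ext y
          simp
        rw [e]
        exact hs') f hf.integrable
    have a3 := hT.quasiMeasurePreserving.ae (kap_condExp m h𝒵 f hf)
    filter_upwards [a1, a2, a3] with y h1 h2 h3
    rw [h1, h2, h3]
  have hσ1 : ∀ P : Y → Prop, (∀ᵐ y ∂m, P y) → ∀ᵐ z ∂σ, P z.1 := by
    intro P hP
    rw [← h1] at hP
    exact ae_of_ae_map measurable_fst.aemeasurable hP
  have hσ2 : ∀ P : Y → Prop, (∀ᵐ y ∂m, P y) → ∀ᵐ z ∂σ, P z.2 := by
    intro P hP
    rw [← h2] at hP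
    exact ae_of_ae_map measurable_snd.aemeasurable hP
  refine ⟨hM, ?_⟩
  have hp : IsProbabilityMeasure
      ((tau m h𝒵 σ).map (Prod.map (Prod.map T T) (Prod.map T T))) :=
    Measure.isProbabilityMeasure_map hM.aemeasurable
  refine quad_ext _ _ (fun f₁ f₂ f₃ f₄ hf₁ hf₂ hf₃ hf₄ => ?_)
  have hA : BM (fun z : Y × Y => f₁ z.1 * f₃ z.2) :=
    (hf₁.comp measurable_fst).mul (hf₃.comp measurable_snd)
  have hB : BM (fun z : Y × Y => f₂ z.1 * f₄ z.2) :=
    (hf₂.comp measurable_fst).mul (hf₄.comp measurable_snd)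
  have hAT : BM (fun z : Y × Y => f₁ (T z.1) * f₃ (T z.2)) :=
    ((hf₁.comp hTm).comp measurable_fst).mul ((hf₃.comp hTm).comp measurable_snd)
  have hBT : BM (fun z : Y × Y => f₂ (T z.1) * f₄ (T z.2)) :=
    ((hf₂.comp hTm).comp measurable_fst).mul ((hf₄.comp hTm).comp measurable_snd)
  have hF : BM (fun w : (Y × Y) × (Y × Y) =>
      (f₁ w.1.1 * f₃ w.2.1) * (f₂ w.1.2 * f₄ w.2.2)) := by
    refine BM.mul (BM.mul ?_ ?_) (BM.mul ?_ ?_)
    · exact hf₁.comp (measurable_fst.comp measurable_fst)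
    · exact hf₃.comp (measurable_fst.comp measurable_snd)
    · exact hf₂.comp (measurable_snd.comp measurable_fst)
    · exact hf₄.comp (measurable_snd.comp measurable_snd)
  rw [integral_map hM.aemeasurable hF.1.aestronglyMeasurable]
  have e1 := integral_tau m h𝒵 σ _ _ hAT hBT
  have e2 := integral_tau m h𝒵 σ _ _ hA hB
  simp only [Prod.map_fst, Prod.map_snd]
  refine Eq.trans e1 (Eq.trans ?_ e2.symm)
  have hG1 : BM (fun y => ∫ x, f₁ y * f₃ x ∂(kap m h𝒵 y)) :=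
    Kop_BM m h𝒵 (fun z => f₁ z.1) f₃ (hf₁.comp measurable_fst) hf₃
  have hG2 : BM (fun y => ∫ x, f₂ y * f₄ x ∂(kap m h𝒵 y)) :=
    Kop_BM m h𝒵 (fun z => f₂ z.1) f₄ (hf₂.comp measurable_fst) hf₄
  have hG : BM (fun z : Y × Y => (∫ x, f₁ z.1 * f₃ x ∂(kap m h𝒵 z.1)) *
      (∫ x, f₂ z.2 * f₄ x ∂(kap m h𝒵 z.2))) :=
    (hG1.comp measurable_fst).mul (hG2.comp measurable_snd)
  have e3 := integral_map (μ := σ) hσ.measurable.aemeasurable
    (f := fun z : Y × Y => (∫ x, f₁ z.1 * f₃ x ∂(kap m h𝒵 z.1)) *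
      (∫ x, f₂ z.2 * f₄ x ∂(kap m h𝒵 z.2))) hG.1.aestronglyMeasurable
  rw [hσ.map_eq] at e3
  rw [e3]
  refine integral_congr_ae ?_
  filter_upwards [hσ1 _ (hkap f₃ hf₃), hσ2 _ (hkap f₄ hf₄)] with z h3 h4
  simp only [Prod.map_fst, Prod.map_snd]
  rw [integral_const_mul, integral_const_mul, integral_const_mul, integral_const_mul, h3, h4]

/-- The power of a measurable equivalence. -/
theorem exists_iterate_equiv {Y : Type*} [MeasurableSpace Y] (R : Y ≃ᵐ Y) (q : ℕ) :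
    ∃ T : Y ≃ᵐ Y, ⇑T = (⇑R)^[q] := by
  induction q with
  | zero => exact ⟨MeasurableEquiv.refl Y, rfl⟩
  | succ q ih =>
    obtain ⟨T, hT⟩ := ih
    refine ⟨R.trans T, ?_⟩
    funext y
    show T (R y) = _
    rw [hT, Function.iterate_succ_apply]

/-- Proof. Induction on `q`: `comap` of a composition (`MeasurableSpace.comap_comp`). -/
theorem comap_iterate {Y : Type*} (𝒵 : MeasurableSpace Y) (R : Y → Y) (h : 𝒵.comap R = 𝒵) (q : ℕ) :
    𝒵.comap (R^[q]) = 𝒵 := by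
  induction q with
  | zero =>
    rw [Function.iterate_zero]
    exact MeasurableSpace.comap_id
  | succ q ih =>
    rw [Function.iterate_succ, ← MeasurableSpace.comap_comp, ih, h]

end Pool.Agent.Lib.H82OT
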