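import Pool.Agent.Lib.H82OT.HT2
import Pool.Agent.Lib.H82OT.LT1

/-!
# Project H82OT, chunk HT3: hat depends only on p
-/

open MeasureTheory Filter Topology Finset ProbabilityTheory
open scoped ENNReal ComplexConjugate Matrix

namespace Pool.Agent.Lib.H82OT

open Pool.Agent.Lib.H22M Pool.Agent.Lib.H82T

variable {Y : Type*} {𝒵 : MeasurableSpace Y} [mY : MeasurableSpace Y] [StandardBorelSpace Y]

private theorem HT3_cs {Y : Type*} [MeasurableSpace Y] {m : Measure Y} {σ : Measure (Y × Y)}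
    [IsProbabilityMeasure σ] (h1 : σ.map Prod.fst = m) (h2 : σ.map Prod.snd = m) {f g : Y → ℂ}
    (hf : BM f) (hg : BM g) : ‖∫ z, f z.1 * g z.2 ∂σ‖ ≤ l2 m f * l2 m g := by
  have hf' : BM (fun z : Y × Y => f z.1) := hf.comp measurable_fst
  have hg' : BM (fun z : Y × Y => conj (g z.2)) := (hg.comp measurable_snd).conj
  have e1 := norm_integral_mul_conj_le (m := σ) hf' hg'
  have e2 : l2 σ (fun z : Y × Y => f z.1) = l2 m f := by
    rw [← h1, l2_map measurable_fst hf.1]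
  have e3 : l2 σ (fun z : Y × Y => conj (g z.2)) = l2 m g := by
    rw [← h2, l2_map measurable_snd hg.1]
    unfold l2
    simp only [RCLike.norm_conj]
  rw [e2, e3] at e1
  simpa only [Complex.conj_conj] using e1

private theorem HT3_int {Y : Type*} [MeasurableSpace Y] {σ : Measure (Y × Y)}
    [IsProbabilityMeasure σ] {f g : Y → ℂ} (hf : BM f) (hg : BM g) :
    Integrable (fun z : Y × Y => f z.1 * g z.2) σ :=
  ((hf.comp measurable_fst).mul (hg.comp measurable_snd)).integrable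

private theorem HT3_add {Y : Type*} [MeasurableSpace Y] {σ : Measure (Y × Y)}
    [IsProbabilityMeasure σ] {f f' g : Y → ℂ} (hf : BM f) (hf' : BM f') (hg : BM g) :
    ∫ z, (f z.1 + f' z.1) * g z.2 ∂σ = ∫ z, f z.1 * g z.2 ∂σ + ∫ z, f' z.1 * g z.2 ∂σ := by
  rw [← integral_add (HT3_int hf hg) (HT3_int hf' hg)]
  exact integral_congr_ae (Eventually.of_forall fun z => by ring)

/-- An additive functional bounded in `L²` which vanishes on eigenfunctions vanishes on the bounded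
`𝒵`-measurable functions. -/
private theorem HT3_dense {Y : Type*} {𝒵 : MeasurableSpace Y} [mY : MeasurableSpace Y]
    {m : Measure Y} {R : Y → Y} (hk : KronAlg 𝒵 m R) (J : (Y → ℂ) → ℂ) (K : ℝ) (hK : 0 ≤ K)
    (hadd : ∀ f g : Y → ℂ, BM f → BM g → J (fun y => f y + g y) = J f + J g)
    (hbd : ∀ f : Y → ℂ, BM f → ‖J f‖ ≤ K * l2 m f)
    (heig : ∀ (e : Y → ℂ) (l : ℂ), BM e → ‖l‖ = 1 → (∀ᵐ y ∂m, e (R y) = l * e y) → J e = 0)
    (f : Y → ℂ) (hf : Measurable[𝒵] f) (hfb : ∃ C : ℝ, ∀ y, ‖f y‖ ≤ C) : J f = 0 := by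
  have hbf : BM f := ⟨hf.mono hk.le le_rfl, hfb⟩
  have h0 : J (fun _ => 0) = 0 := by
    have h := hadd (fun _ => 0) (fun _ => 0) (BM.const 0) (BM.const 0)
    simp only [add_zero] at h
    exact (left_eq_add.1 h)
  have hsum : ∀ (k : ℕ) (e : Fin k → Y → ℂ), (∀ i, BM (e i) ∧ J (e i) = 0) →
      J (fun y => ∑ i, e i y) = 0 := by
    intro k
    induction k with
    | zero =>
      intro e _
      simp only [Finset.univ_eq_empty, Finset.sum_empty]
      exact h0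
    | succ k ih =>
      intro e he
      have h1 := hadd (fun y => ∑ i : Fin k, e i.castSucc y) (e (Fin.last k))
        (BM.sum Finset.univ fun i _ => (he i.castSucc).1) (he (Fin.last k)).1
      simp only [Fin.sum_univ_castSucc]
      rw [h1, ih _ fun i => he i.castSucc, (he (Fin.last k)).2, add_zero]
  have hall : ∀ δ : ℝ, 0 < δ → ‖J f‖ ≤ K * δ := by
    intro δ hδ
    obtain ⟨k, l, e, he, hd⟩ := hk.dense f hf hfb δ hδ
    have hS : BM (fun y => ∑ i, e i y) := BM.sum Finset.univ fun i _ => (he i).1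
    have hS0 := hsum k e fun i => ⟨(he i).1, heig (e i) (l i) (he i).1 (he i).2.1 (he i).2.2⟩
    have h1 := hadd (fun y => f y - ∑ i, e i y) (fun y => ∑ i, e i y) (hbf.sub hS) hS
    simp only [sub_add_cancel] at h1
    have h2 : J f = J (fun y => f y - ∑ i, e i y) := by
      have h3 : J (fun y => f y) = J f := rfl
      rw [h3, hS0, add_zero] at h1
      exact h1
    rw [h2]
    exact (hbd _ (hbf.sub hS)).trans (mul_le_mul_of_nonneg_left hd hK)
  have h1 : ‖J f‖ ≤ 0 := by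
    refine le_of_forall_pos_le_add fun ε hε => ?_
    have h2 := hall (ε / (K + 1)) (by positivity)
    have h3 : K * (ε / (K + 1)) ≤ 0 + ε := by
      rw [zero_add, mul_div_assoc', div_le_iff₀ (by positivity)]
      nlinarith
    exact h2.trans h3
  exact norm_eq_zero.1 (le_antisymm h1 (norm_nonneg _))

private theorem HT3_ver (m : Measure Y) [IsProbabilityMeasure m] (h𝒵 : 𝒵 ≤ mY) (f : Y → ℂ)
    (hf : BM f) : ∃ f₀ : Y → ℂ, Measurable[𝒵] f₀ ∧ (∃ C : ℝ, ∀ y, ‖f₀ y‖ ≤ C) ∧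
      f₀ =ᵐ[m] m[f|𝒵] := by
  obtain ⟨hm, C, hC⟩ := hf
  have hC' : ∀ y, ‖f y‖ ≤ |C| := fun y => (hC y).trans (le_abs_self C)
  obtain ⟨g, g1, g2, g3, -⟩ := exists_version 𝒵 m h𝒵 f hm |C| (abs_nonneg C)
    (Eventually.of_forall hC')
  exact ⟨g, g1, ⟨|C|, g2⟩, g3⟩

private theorem HT3_repl {σ : Measure (Y × Y)} {m : Measure Y} (h1 : σ.map Prod.fst = m)
    (h2 : σ.map Prod.snd = m) {a a' b b' : Y → ℂ} (ha : a =ᵐ[m] a') (hb : b =ᵐ[m] b') :
    ∫ z, a z.1 * b z.2 ∂σ = ∫ z, a' z.1 * b' z.2 ∂σ := by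
  have e1 : ∀ᵐ z ∂σ, a z.1 = a' z.1 := by
    have : ∀ᵐ y ∂(σ.map Prod.fst), a y = a' y := by rw [h1]; exact ha
    exact ae_of_ae_map measurable_fst.aemeasurable this
  have e2 : ∀ᵐ z ∂σ, b z.2 = b' z.2 := by
    have : ∀ᵐ y ∂(σ.map Prod.snd), b y = b' y := by rw [h2]; exact hb
    exact ae_of_ae_map measurable_snd.aemeasurable this
  refine integral_congr_ae ?_
  filter_upwards [e1, e2] with z hz1 hz2
  rw [hz1, hz2]

/-- Proof. If `l` is a `p`-th power of an eigenvalue both sides are `∫ e g dm` (`RelSq.eig_pow`),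
otherwise both are `0` (`RelSq.eig_zero`). -/
theorem eigen_same {m : Measure Y} {R : Y → Y} {p q q' : ℕ} {ρ σ ρ' σ' : Measure (Y × Y)}
    (hσ : RelSq m R p q ρ σ) (hσ' : RelSq m R p q' ρ' σ') (e : Y → ℂ) (l : ℂ) (he : BM e)
    (hl : ‖l‖ = 1) (h : ∀ᵐ y ∂m, e (R y) = l * e y) (g : Y → ℂ) (hg : BM g) :
    ∫ z, e z.1 * g z.2 ∂σ = ∫ z, e z.1 * g z.2 ∂σ' := by
  by_cases hp : ∃ l' : ℂ, IsEigenvalue m R l' ∧ l' ^ p = l
  · obtain ⟨l', hl', rfl⟩ := hp
    rw [hσ.eig_pow e l' he hl' h g hg, hσ'.eig_pow e l' he hl' h g hg]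
  · have hp' : ∀ l' : ℂ, IsEigenvalue m R l' → l' ^ p ≠ l := fun l' h1 h2 => hp ⟨l', h1, h2⟩
    rw [((hσ.eig_zero e l he hl h hp').2 g hg).1, ((hσ'.eig_zero e l he hl h hp').2 g hg).1]

/-- Proof. `prod_ext_of_BM` (`H22M/SQ.lean`) and `integral_hat`: let `f₀, g₀` be bounded `𝒵`-measurable
versions of `m[f|𝒵], m[g|𝒵]` (`exists_version` in `H82T/CV.lean`; the integrals do not change: marginals).
To show `∫ f₀(z.1) g₀(z.2) dσ = ∫ f₀(z.1) g₀(z.2) dσ'`: for `δ > 0` approximate `f₀` by a finite sum of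
eigenfunctions with error `δ` in `l2 m` (`KronAlg.dense`); for the sum the integrals agree by
`eigen_same`, and the error is at most `δ * l2 m g₀` for each measure (Cauchy-Schwarz,
`norm_integral_mul_le` for `σ` and the marginals: `l2 σ (fun z => f z.1) = l2 m f`). -/
theorem hat_eq (m : Measure Y) [IsProbabilityMeasure m] (h𝒵 : 𝒵 ≤ mY) {R : Y → Y}
    (hk : KronAlg 𝒵 m R) {p q q' : ℕ} {ρ σ ρ' σ' : Measure (Y × Y)}
    (hσ : RelSq m R p q ρ σ) (hσ' : RelSq m R p q' ρ' σ') : hat m h𝒵 σ = hat m h𝒵 σ' := by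
  have := hσ.prob
  have := hσ'.prob
  refine prod_ext_of_BM _ _ fun f g hf hg => ?_
  rw [integral_hat m h𝒵 σ hσ.fst hσ.snd f g hf hg, integral_hat m h𝒵 σ' hσ'.fst hσ'.snd f g hf hg]
  obtain ⟨f₀, hf1, hf2, hf3⟩ := HT3_ver m h𝒵 f hf
  obtain ⟨g₀, hg1, hg2, hg3⟩ := HT3_ver m h𝒵 g hg
  have hbg : BM g₀ := ⟨hg1.mono h𝒵 le_rfl, hg2⟩
  rw [HT3_repl hσ.fst hσ.snd hf3.symm hg3.symm, HT3_repl hσ'.fst hσ'.snd hf3.symm hg3.symm]
  have h := HT3_dense hk (fun a => ∫ z, a z.1 * g₀ z.2 ∂σ - ∫ z, a z.1 * g₀ z.2 ∂σ')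
    (2 * l2 m g₀) (by have := l2_nonneg m g₀; positivity) ?_ ?_ ?_ f₀ hf1 hf2
  · exact sub_eq_zero.1 h
  · intro a b ha hb
    simp only [HT3_add (σ := σ) ha hb hbg, HT3_add (σ := σ') ha hb hbg]
    ring
  · intro a ha
    refine (norm_sub_le _ _).trans ?_
    have h1 := HT3_cs hσ.fst hσ.snd ha hbg
    have h2 := HT3_cs hσ'.fst hσ'.snd ha hbg
    linarith
  · intro e l he hl h
    exact sub_eq_zero.2 (eigen_same hσ hσ' e l he hl h g₀ hbg)

/-- `hat σ` is a self-coupling. Proof. Marginals: `integral_hat` with `g = 1` and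
`∫ m[f|𝒵](z.1) dσ = ∫ m[f|𝒵] dm = ∫ f dm`. Invariance under `R × R`: `prod_ext_of_BM`; with versions
`f₀, g₀` of `m[f|𝒵], m[g|𝒵]`, `m[f ∘ R|𝒵] = f₀ ∘ R` a.e. (`condExp_comp_equiv`), so one has to show
`∫ f₀(R z.1) g₀(R z.2) dσ = ∫ f₀(z.1) g₀(z.2) dσ`. Approximate `f₀` and `g₀` by finite sums of
eigenfunctions (`KronAlg.dense`); for eigenfunctions `e, e'` with eigenvalues `l, l'` (modulus one):
`∫ e(R z.1) e'(R z.2) dσ = l l' ∫ e(z.1) e'(z.2) dσ`. If `l` is not a `p`-th power of an eigenvalue, the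
integral is `0` (`RelSq.eig_zero`). Otherwise `∫ e(z.1) e'(z.2) dσ = ∫ e e' dm` (`RelSq.eig_pow`), and
`l l' ∫ e e' dm = ∫ (e e') ∘ R dm = ∫ e e' dm` as `R` preserves `m`. -/
theorem hat_self (m : Measure Y) [IsProbabilityMeasure m] (h𝒵 : 𝒵 ≤ mY) (R : Y ≃ᵐ Y)
    (hR : MeasurePreserving R m m) (hk : KronAlg 𝒵 m R) {p q : ℕ} {ρ σ : Measure (Y × Y)}
    (hσ : RelSq m R p q ρ σ) : IsSelf m R (hat m h𝒵 σ) := by
  have := hσ.prob
  have hone : m[(fun _ : Y => (1 : ℂ))|𝒵] = fun _ => 1 := condExp_const h𝒵 1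
  have hind : ∀ A : Set Y, MeasurableSet A → BM (A.indicator fun _ => (1 : ℂ)) := fun A hA =>
    ⟨measurable_const.indicator hA, 1, fun y => by
      by_cases h : y ∈ A
      · simp [h]
      · simp [h]⟩
  have hmA : ∀ (μ : Measure Y), IsProbabilityMeasure μ → ∀ A : Set Y, MeasurableSet A →
      ∫ y, A.indicator (fun _ => (1 : ℂ)) y ∂μ = ((μ A).toReal : ℂ) := by
    intro μ _ A hA
    rw [integral_indicator hA, setIntegral_const]
    simp [Measure.real]
  have hmc : ∀ A : Set Y, MeasurableSet A →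
      ∫ y, (m[A.indicator (fun _ => (1 : ℂ))|𝒵]) y ∂m = ((m A).toReal : ℂ) := fun A hA => by
    rw [integral_condExp h𝒵, hmA m inferInstance A hA]
  have hfst : (hat m h𝒵 σ).map Prod.fst = m := by
    have : IsProbabilityMeasure ((hat m h𝒵 σ).map Prod.fst) :=
      Measure.isProbabilityMeasure_map measurable_fst.aemeasurable
    refine Measure.ext fun A hA => ?_
    have h1 := integral_hat m h𝒵 σ hσ.fst hσ.snd _ _ (hind A hA) (BM.const (1 : ℂ))
    simp only [hone, mul_one] at h1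
    have h2 : ∫ z, A.indicator (fun _ => (1 : ℂ)) z.1 ∂(hat m h𝒵 σ) =
        ((((hat m h𝒵 σ).map Prod.fst) A).toReal : ℂ) := by
      rw [← hmA _ inferInstance A hA, integral_map measurable_fst.aemeasurable
        (hind A hA).1.aestronglyMeasurable]
    have h3 : ∫ z, (m[A.indicator (fun _ => (1 : ℂ))|𝒵]) z.1 ∂σ = ((m A).toReal : ℂ) := by
      rw [← hmc A hA]
      have h4 : AEStronglyMeasurable (m[A.indicator (fun _ => (1 : ℂ))|𝒵]) (σ.map Prod.fst) := by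
        rw [hσ.fst]
        exact integrable_condExp.aestronglyMeasurable
      rw [← integral_map (μ := σ) measurable_fst.aemeasurable h4, hσ.fst]
    rw [h2, h3] at h1
    exact (ENNReal.toReal_eq_toReal_iff' (measure_ne_top _ _) (measure_ne_top _ _)).1
      (by exact_mod_cast h1)
  have hsnd : (hat m h𝒵 σ).map Prod.snd = m := by
    have : IsProbabilityMeasure ((hat m h𝒵 σ).map Prod.snd) :=
      Measure.isProbabilityMeasure_map measurable_snd.aemeasurable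
    refine Measure.ext fun A hA => ?_
    have h1 := integral_hat m h𝒵 σ hσ.fst hσ.snd _ _ (BM.const (1 : ℂ)) (hind A hA)
    simp only [hone, one_mul] at h1
    have h2 : ∫ z, A.indicator (fun _ => (1 : ℂ)) z.2 ∂(hat m h𝒵 σ) =
        ((((hat m h𝒵 σ).map Prod.snd) A).toReal : ℂ) := by
      rw [← hmA _ inferInstance A hA, integral_map measurable_snd.aemeasurable
        (hind A hA).1.aestronglyMeasurable]
    have h3 : ∫ z, (m[A.indicator (fun _ => (1 : ℂ))|𝒵]) z.2 ∂σ = ((m A).toReal : ℂ) := by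
      rw [← hmc A hA]
      have h4 : AEStronglyMeasurable (m[A.indicator (fun _ => (1 : ℂ))|𝒵]) (σ.map Prod.snd) := by
        rw [hσ.snd]
        exact integrable_condExp.aestronglyMeasurable
      rw [← integral_map (μ := σ) measurable_snd.aemeasurable h4, hσ.snd]
    rw [h2, h3] at h1
    exact (ENNReal.toReal_eq_toReal_iff' (measure_ne_top _ _) (measure_ne_top _ _)).1
      (by exact_mod_cast h1)
  refine ⟨inferInstance, hfst, hsnd, R.measurable.prodMap R.measurable, ?_⟩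
  have : IsProbabilityMeasure ((hat m h𝒵 σ).map (Prod.map R R)) :=
    Measure.isProbabilityMeasure_map (R.measurable.prodMap R.measurable).aemeasurable
  refine prod_ext_of_BM _ _ fun f g hf hg => ?_
  have e1 : ∫ z, f z.1 * g z.2 ∂((hat m h𝒵 σ).map (Prod.map R R)) =
      ∫ z, f (R z.1) * g (R z.2) ∂(hat m h𝒵 σ) := by
    rw [integral_map (R.measurable.prodMap R.measurable).aemeasurable
      ((hf.comp measurable_fst).mul (hg.comp measurable_snd)).1.aestronglyMeasurable]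
    rfl
  have hfR : BM (fun y => f (R y)) := hf.comp R.measurable
  have hgR : BM (fun y => g (R y)) := hg.comp R.measurable
  rw [e1, integral_hat m h𝒵 σ hσ.fst hσ.snd (fun y => f (R y)) (fun y => g (R y)) hfR hgR,
    integral_hat m h𝒵 σ hσ.fst hσ.snd f g hf hg]
  have hp1 : ∀ s, MeasurableSet[𝒵] s → MeasurableSet[𝒵] (R ⁻¹' s) := by
    intro s hs
    have h2 : MeasurableSet[𝒵.comap R] (R ⁻¹' s) := ⟨s, hs, rfl⟩
    rwa [hk.inv] at h2
  have hp2 : ∀ s, MeasurableSet[𝒵] s → MeasurableSet[𝒵] (R.symm ⁻¹' s) := by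
    intro s hs
    have h3 : MeasurableSet[𝒵.comap R] s := by rwa [hk.inv]
    obtain ⟨t, ht, rfl⟩ := h3
    have h4 : R.symm ⁻¹' (R ⁻¹' t) = t := by
      rw [← Set.preimage_comp]
      simp
    rwa [h4]
  have c1 := condExp_comp_equiv 𝒵 m h𝒵 R hR hp1 hp2 f hf.integrable
  have c2 := condExp_comp_equiv 𝒵 m h𝒵 R hR hp1 hp2 g hg.integrable
  obtain ⟨f₀, hf1, hf2, hf3⟩ := HT3_ver m h𝒵 f hf
  obtain ⟨g₀, hg1, hg2, hg3⟩ := HT3_ver m h𝒵 g hg
  have hbg : BM g₀ := ⟨hg1.mono h𝒵 le_rfl, hg2⟩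
  have hbgR : BM (fun y => g₀ (R y)) := hbg.comp R.measurable
  have c1' : m[fun y => f (R y)|𝒵] =ᵐ[m] fun y => f₀ (R y) := by
    filter_upwards [c1, hR.quasiMeasurePreserving.ae hf3] with y h1 h2
    rw [h1, h2]
  have c2' : m[fun y => g (R y)|𝒵] =ᵐ[m] fun y => g₀ (R y) := by
    filter_upwards [c2, hR.quasiMeasurePreserving.ae hg3] with y h1 h2
    rw [h1, h2]
  rw [HT3_repl hσ.fst hσ.snd c1' c2', HT3_repl hσ.fst hσ.snd hf3.symm hg3.symm]
  have hl2R : ∀ a : Y → ℂ, BM a → l2 m (fun y => a (R y)) = l2 m a := by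
    intro a ha
    have h1 := l2_map (ρ := m) (π := R) R.measurable ha.1
    rw [hR.map_eq] at h1
    exact h1.symm
  have h := HT3_dense hk
    (fun a => ∫ z, a (R z.1) * g₀ (R z.2) ∂σ - ∫ z, a z.1 * g₀ z.2 ∂σ)
    (2 * l2 m g₀) (by have := l2_nonneg m g₀; positivity) ?_ ?_ ?_ f₀ hf1 hf2
  · exact sub_eq_zero.1 h
  · intro a b ha hb
    have h1 := HT3_add (σ := σ) (ha.comp R.measurable) (hb.comp R.measurable) hbgR
    have h2 := HT3_add (σ := σ) ha hb hbg
    simp only [h1, h2]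
    ring
  · intro a ha
    refine (norm_sub_le _ _).trans ?_
    have h1 := HT3_cs hσ.fst hσ.snd (ha.comp R.measurable) hbgR
    have h2 := HT3_cs hσ.fst hσ.snd ha hbg
    rw [hl2R a ha, hl2R g₀ hbg] at h1
    linarith
  · intro e l he hl h
    refine sub_eq_zero.2 ?_
    have h1 : ∫ z, e (R z.1) * g₀ (R z.2) ∂σ = l * ∫ z, e z.1 * g₀ (R z.2) ∂σ := by
      rw [HT3_repl hσ.fst hσ.snd (a' := fun y => l * e y) (b' := fun y => g₀ (R y)) h
        (EventuallyEq.refl _ _), ← integral_const_mul]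
      refine integral_congr_ae (Eventually.of_forall fun z => ?_)
      simp only []
      ring
    rw [h1]
    by_cases hp : ∃ l' : ℂ, IsEigenvalue m R l' ∧ l' ^ p = l
    · obtain ⟨l', hl', rfl⟩ := hp
      rw [hσ.eig_pow e l' he hl' h g₀ hbg, hσ.eig_pow e l' he hl' h _ hbgR]
      have h2 : ∫ y, e (R y) * g₀ (R y) ∂m = ∫ y, e y * g₀ y ∂m := by
        have h3 := integral_map (μ := m) (φ := R) R.measurable.aemeasurable
          (f := fun y => e y * g₀ y) (by rw [hR.map_eq]; exact (he.mul hbg).1.aestronglyMeasurable)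
        rw [hR.map_eq] at h3
        exact h3.symm
      rw [← h2, ← integral_const_mul]
      refine integral_congr_ae ?_
      filter_upwards [h] with y hy
      rw [hy]
      ring
    · have hp' : ∀ l' : ℂ, IsEigenvalue m R l' → l' ^ p ≠ l := fun l' h1 h2 => hp ⟨l', h1, h2⟩
      rw [((hσ.eig_zero e l he hl h hp').2 _ hbgR).1, ((hσ.eig_zero e l he hl h hp').2 _ hbg).1,
        mul_zero]

/-- Proof. Let `e` be a bounded eigenfunction with eigenvalue `c ∈ F`, `g` bounded. A bounded version `e₀`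
of `m[e|𝒵]` satisfies `e₀ ∘ R = c e₀` a.e. (`condExp_comp_equiv`, `exists_eigen_version` in
`H82T/CV.lean`), so `∫ e(z.1) g(z.2) dhat = ∫ e₀(z.1) g₀(z.2) dσ = 0` by `RelSq.eig_zero`; the same for the
other order. -/
theorem hat_kills (m : Measure Y) [IsProbabilityMeasure m] (h𝒵 : 𝒵 ≤ mY) (R : Y ≃ᵐ Y)
    (hR : MeasurePreserving R m m) (hinv : 𝒵.comap R = 𝒵) {p q : ℕ} {ρ σ : Measure (Y × Y)}
    (hσ : RelSq m R p q ρ σ) (F : Finset ℂ)
    (hF : ∀ c ∈ F, ∀ e : ℂ, IsEigenvalue m R e → e ^ p ≠ c) :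
    Kills m R F (hat m h𝒵 σ) := by
  have := hσ.prob
  intro c hc hc1 e he hce g hg
  obtain ⟨hem, C, hC⟩ := id he
  have hC' : ∀ y, ‖e y‖ ≤ |C| := fun y => (hC y).trans (le_abs_self C)
  obtain ⟨e₀, e1, e2, e3, e4, -⟩ := exists_eigen_version 𝒵 m h𝒵 R hR hinv e hem |C| (abs_nonneg C)
    (Eventually.of_forall hC') c hce
  obtain ⟨g₀, hg1, hg2, hg3⟩ := HT3_ver m h𝒵 g hg
  have hbg : BM g₀ := ⟨hg1.mono h𝒵 le_rfl, hg2⟩
  have hbe : BM e₀ := ⟨e1.mono h𝒵 le_rfl, |C|, e2⟩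
  have hz := (hσ.eig_zero e₀ c hbe hc1 e4 fun l hl => hF c hc l hl).2 g₀ hbg
  constructor
  · rw [integral_hat m h𝒵 σ hσ.fst hσ.snd e g he hg, HT3_repl hσ.fst hσ.snd e3.symm hg3.symm]
    exact hz.1
  · rw [integral_hat m h𝒵 σ hσ.fst hσ.snd g e hg he, HT3_repl hσ.fst hσ.snd hg3.symm e3.symm]
    exact hz.2

end Pool.Agent.Lib.H82OT
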