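import Pool.Agent.Lib.H82OT.HT2
import Pool.Agent.Lib.H82OT.LT1
import Pool.Agent.Lib.H82T.DG

/-!
# Project H82OT, chunk HT4: the functional
-/

open MeasureTheory Filter Topology Finset ProbabilityTheory
open scoped ENNReal ComplexConjugate Matrix

namespace Pool.Agent.Lib.H82OT

open Pool.Agent.Lib.H22M Pool.Agent.Lib.H82T

variable {Y : Type*} {𝒵 : MeasurableSpace Y} [mY : MeasurableSpace Y] [StandardBorelSpace Y]

private theorem HT4_iter {α : Type*} [MeasurableSpace α] {ν : Measure α} {S : α → α}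
    (hS : MeasurePreserving S ν ν) {K : α → ℂ} (hK : ∀ᵐ z ∂ν, K (S z) = K z) (q : ℕ) :
    ∀ᵐ z ∂ν, K (S^[q] z) = K z := by
  induction q with
  | zero => exact Eventually.of_forall fun z => rfl
  | succ q ih =>
    have h1 := hS.quasiMeasurePreserving.ae ih
    filter_upwards [h1, hK] with z h2 h3
    rw [Function.iterate_succ_apply, h2, h3]

/-- The integrand of the functional. -/
private noncomputable def HT4_phi {Y : Type*} (K : Y × Y → ℂ) (c : Y × Y → ℂ)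
    (w : (Y × Y) × (Y × Y)) : ℂ :=
  K (w.1.1, w.2.1) * conj (K (w.1.2, w.2.2)) * c w.2

private theorem HT4_bound {Y : Type*} (K : Y × Y → ℂ) (c : Y × Y → ℂ) (C : ℝ) (hC0 : 0 ≤ C)
    (hC : ∀ z, ‖K z‖ ≤ C) (w : (Y × Y) × (Y × Y)) : ‖HT4_phi K c w‖ ≤ C ^ 2 * ‖c w.2‖ := by
  unfold HT4_phi
  rw [norm_mul, norm_mul, RCLike.norm_conj]
  refine mul_le_mul_of_nonneg_right ?_ (norm_nonneg _)
  rw [sq]
  exact mul_le_mul (hC _) (hC _) (norm_nonneg _) hC0

private theorem HT4_meas {Y : Type*} [MeasurableSpace Y] (K : Y × Y → ℂ) (hK : Measurable K)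
    (c : Y × Y → ℂ) (hc : Measurable c) : Measurable (HT4_phi K c) := by
  unfold HT4_phi
  have h1 : Measurable fun w : (Y × Y) × (Y × Y) => (w.1.1, w.2.1) := by fun_prop
  have h2 : Measurable fun w : (Y × Y) × (Y × Y) => (w.1.2, w.2.2) := by fun_prop
  exact ((hK.comp h1).mul (Complex.continuous_conj.measurable.comp (hK.comp h2))).mul
    (hc.comp measurable_snd)

/-- (`μ` is `hat m h𝒵 σ`: `subst hμ` first; the form with `μ` is convenient in HT7, where the measures `hat`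
of different `σ` agree.) The functional `l(c) = ∫ K(w.1.1, w.2.1) conj (K(w.1.2, w.2.2)) c(w.2) dτ` on `L²(hat σ)`.
Proof. `|l(c)| ≤ C² ∫ |c(w.2)| dτ = C² ‖c‖_{L¹(hat)} ≤ C² ‖c‖_{L²(hat)}` (`hat = tau.map snd`); linearity
from the almost everywhere linearity of the classes (pulled back by `snd`), `LinearMap.mkContinuous`; see
the proof of `exists_functional` in `H22M/LQ.lean`, which is the model. Invariance: let
`T = R^[q]` (`exists_iterate_equiv`), `U^[q] c = c ∘ (T × T)` a.e. (from `hU`, induction: `dg_iter` in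
`H82T/DG.lean` is the model); `K(T w.1.1, T w.2.1) = K(w.1.1, w.2.1)` for `tau`-almost every `w`
(`tau_map_left`, `IsKer` iterated: `K ∘ (R × R)^[q] = K` a.e. as `R × R` preserves `mh`, hypothesis
`hmh`), the same on the right (`tau_map_right`), so by `tau_inv`
`l(U^[q] c) = ∫ K conj K c(T w.2.1, T w.2.2) dτ = ∫ (K conj K c) ∘ (T × T) dτ = l(c)`. -/
theorem exists_hat_functional (m : Measure Y) [IsProbabilityMeasure m] (h𝒵 : 𝒵 ≤ mY)
    (R : Y ≃ᵐ Y) (hR : MeasurePreserving R m m) (hinv : 𝒵.comap R = 𝒵)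
    (hmh : MeasurePreserving (Prod.map R R) (mh m h𝒵) (mh m h𝒵)) (q : ℕ)
    (σ : Measure (Y × Y)) [IsProbabilityMeasure σ] (h1 : σ.map Prod.fst = m)
    (h2 : σ.map Prod.snd = m) (hσ : MeasurePreserving (Prod.map (R^[q]) (R^[q])) σ σ)
    (μ : Measure (Y × Y)) (hμ : hat m h𝒵 σ = μ)
    (hself : MeasurePreserving (Prod.map R R) μ μ)
    (K : Y × Y → ℂ) (hK : IsKer m h𝒵 R K) (C : ℝ) (hC0 : 0 ≤ C) (hC : ∀ z, ‖K z‖ ≤ C)
    (U : Lp ℂ 2 μ →ₗᵢ[ℂ] Lp ℂ 2 μ)
    (hU : ∀ x : Lp ℂ 2 μ, (U x : Y × Y → ℂ) =ᵐ[μ] fun z => (x : Y × Y → ℂ) (Prod.map R R z)) :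
    ∃ l : Lp ℂ 2 μ →L[ℂ] ℂ, ‖l‖ ≤ C ^ 2 ∧ (∀ c, l ((⇑U)^[q] c) = l c) ∧
      ∀ c, l c = ∫ w, K (w.1.1, w.2.1) * conj (K (w.1.2, w.2.2)) * c w.2 ∂(tau m h𝒵 σ) := by
  subst hμ
  have hτp : IsProbabilityMeasure (tau m h𝒵 σ) := inferInstance
  have hhp : IsProbabilityMeasure (hat m h𝒵 σ) := inferInstance
  have hpull : ∀ {P : Y × Y → Prop}, (∀ᵐ z ∂(hat m h𝒵 σ), P z) →
      ∀ᵐ w ∂(tau m h𝒵 σ), P w.2 := by
    intro P hP
    exact ae_of_ae_map measurable_snd.aemeasurable hP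
  have hmeas : ∀ c : Lp ℂ 2 (hat m h𝒵 σ), Measurable (HT4_phi K (⇑c)) :=
    fun c => HT4_meas K hK.1.1 _ (Lp.stronglyMeasurable c).measurable
  have hint0 : ∀ c : Lp ℂ 2 (hat m h𝒵 σ), Integrable (⇑c) (hat m h𝒵 σ) :=
    fun c => (Lp.memLp c).integrable (by norm_num)
  have hint1 : ∀ c : Lp ℂ 2 (hat m h𝒵 σ),
      Integrable (fun w : (Y × Y) × (Y × Y) => ‖c w.2‖) (tau m h𝒵 σ) := by
    intro c
    have h3 : Integrable (fun z => ‖c z‖) ((tau m h𝒵 σ).map Prod.snd) := (hint0 c).norm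
    exact h3.comp_measurable measurable_snd
  have hint : ∀ c : Lp ℂ 2 (hat m h𝒵 σ), Integrable (HT4_phi K (⇑c)) (tau m h𝒵 σ) := by
    intro c
    refine ((hint1 c).const_mul (C ^ 2)).mono' (hmeas c).aestronglyMeasurable
      (Eventually.of_forall fun w => ?_)
    exact HT4_bound K (⇑c) C hC0 hC w
  have hnorm : ∀ c : Lp ℂ 2 (hat m h𝒵 σ),
      ‖∫ w, HT4_phi K (⇑c) w ∂(tau m h𝒵 σ)‖ ≤ C ^ 2 * ‖c‖ := by
    intro c
    have h3 : ‖∫ w, HT4_phi K (⇑c) w ∂(tau m h𝒵 σ)‖ ≤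
        ∫ w : (Y × Y) × (Y × Y), C ^ 2 * ‖c w.2‖ ∂(tau m h𝒵 σ) := by
      refine norm_integral_le_of_norm_le ((hint1 c).const_mul (C ^ 2))
        (Eventually.of_forall fun w => ?_)
      exact HT4_bound K (⇑c) C hC0 hC w
    refine h3.trans ?_
    rw [integral_const_mul]
    refine mul_le_mul_of_nonneg_left ?_ (sq_nonneg C)
    have h4 : ∫ w : (Y × Y) × (Y × Y), ‖c w.2‖ ∂(tau m h𝒵 σ) =
        ∫ z, ‖c z‖ ∂(hat m h𝒵 σ) := by
      have h5 : AEStronglyMeasurable (fun z => ‖c z‖) ((tau m h𝒵 σ).map Prod.snd) :=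
        (Lp.stronglyMeasurable c).norm.aestronglyMeasurable
      exact (integral_map measurable_snd.aemeasurable h5).symm
    rw [h4, Lp.norm_def, integral_norm_eq_lintegral_enorm (Lp.aestronglyMeasurable c),
      ← eLpNorm_one_eq_lintegral_enorm]
    refine ENNReal.toReal_mono (Lp.eLpNorm_ne_top c) ?_
    exact eLpNorm_le_eLpNorm_of_exponent_le (by norm_num) (Lp.aestronglyMeasurable c)
  let l0 : Lp ℂ 2 (hat m h𝒵 σ) →ₗ[ℂ] ℂ :=
    { toFun := fun c => ∫ w, HT4_phi K (⇑c) w ∂(tau m h𝒵 σ)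
      map_add' := by
        intro c d
        rw [← integral_add (hint c) (hint d)]
        refine integral_congr_ae ?_
        filter_upwards [hpull (Lp.coeFn_add c d)] with w hw
        unfold HT4_phi
        rw [hw, Pi.add_apply]
        ring
      map_smul' := by
        intro a c
        rw [RingHom.id_apply, smul_eq_mul, ← integral_const_mul]
        refine integral_congr_ae ?_
        filter_upwards [hpull (Lp.coeFn_smul a c)] with w hw
        unfold HT4_phi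
        rw [hw, Pi.smul_apply, smul_eq_mul]
        ring }
  obtain ⟨T, hT⟩ := exists_iterate_equiv R q
  have hTm : MeasurePreserving T m m := by
    rw [hT]
    exact hR.iterate q
  have hTinv : 𝒵.comap T = 𝒵 := by
    rw [hT]
    exact comap_iterate 𝒵 R hinv q
  have hTσ : MeasurePreserving (Prod.map T T) σ σ := by
    rw [hT]
    exact hσ
  have hτ := tau_inv m h𝒵 σ h1 h2 T hTm hTinv hTσ
  have hK1 : ∀ᵐ z ∂(mh m h𝒵), K (Prod.map T T z) = K z := by
    have h3 := HT4_iter hmh hK.2 q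
    rw [Prod.map_iterate, ← hT] at h3
    exact h3
  have hKl : ∀ᵐ w ∂(tau m h𝒵 σ), K (T w.1.1, T w.2.1) = K (w.1.1, w.2.1) := by
    have h3 := hK1
    rw [← tau_map_left m h𝒵 σ h1] at h3
    exact ae_of_ae_map (by fun_prop) h3
  have hKr : ∀ᵐ w ∂(tau m h𝒵 σ), K (T w.1.2, T w.2.2) = K (w.1.2, w.2.2) := by
    have h3 := hK1
    rw [← tau_map_right m h𝒵 σ h2] at h3
    exact ae_of_ae_map (by fun_prop) h3
  refine ⟨l0.mkContinuous (C ^ 2) hnorm, l0.mkContinuous_norm_le (sq_nonneg C) hnorm,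
    fun c => ?_, fun c => rfl⟩
  show ∫ w, HT4_phi K (⇑((⇑U)^[q] c)) w ∂(tau m h𝒵 σ) = ∫ w, HT4_phi K (⇑c) w ∂(tau m h𝒵 σ)
  have h3 : ∫ w, HT4_phi K (⇑((⇑U)^[q] c)) w ∂(tau m h𝒵 σ) =
      ∫ w, HT4_phi K (⇑c) (Prod.map (Prod.map T T) (Prod.map T T) w) ∂(tau m h𝒵 σ) := by
    refine integral_congr_ae ?_
    have h4 := dg_iter hself U hU c (⇑c) (Eventually.of_forall fun z => rfl) q
    rw [Prod.map_iterate, ← hT] at h4
    filter_upwards [hpull h4, hKl, hKr] with w h5 h6 h7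
    unfold HT4_phi
    show K (w.1.1, w.2.1) * conj (K (w.1.2, w.2.2)) * ((⇑U)^[q] c) w.2 =
      K (T w.1.1, T w.2.1) * conj (K (T w.1.2, T w.2.2)) * c (Prod.map T T w.2)
    rw [h5, h6, h7]
  rw [h3, ← integral_map hτ.measurable.aemeasurable (hmeas c).aestronglyMeasurable, hτ.map_eq]

/-- Proof. `integral_tau_Kop` with `a = b = 1`, `K' = conj K`, `h' = conj h` and
`Kop (conj K) (conj h) = conj (Kop K h)` (`integral_conj`), and `RelSq.sq`. -/
theorem hat_functional_eval (m : Measure Y) [IsProbabilityMeasure m] (h𝒵 : 𝒵 ≤ mY)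
    {R : Y → Y} {p q : ℕ} {ρ σ : Measure (Y × Y)} (hσ : RelSq m R p q ρ σ) (K : Y × Y → ℂ)
    (hK : BM K) (h : Y → ℂ) (hh : BM h) :
    ∫ w, K (w.1.1, w.2.1) * conj (K (w.1.2, w.2.2)) * (h w.2.1 * conj (h w.2.2)) ∂(tau m h𝒵 σ) =
      ((qf σ (Kop m h𝒵 K h) ^ 2 : ℝ) : ℂ) := by
  have hp : IsProbabilityMeasure σ := hσ.prob
  have hKc : BM fun z => conj (K z) := hK.conj
  have hhc : BM fun y => conj (h y) := hh.conj
  have h1 := integral_tau_Kop m h𝒵 σ (fun _ => 1) (fun _ => 1) (BM.const 1) (BM.const 1) K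
    (fun z => conj (K z)) hK hKc h (fun y => conj (h y)) hh hhc
  have h2 : ∀ y, Kop m h𝒵 (fun z => conj (K z)) (fun y => conj (h y)) y =
      conj (Kop m h𝒵 K h y) := by
    intro y
    unfold Kop
    rw [← integral_conj]
    refine integral_congr_ae (Eventually.of_forall fun y' => ?_)
    show conj (K (y, y')) * conj (h y') = conj (K (y, y') * h y')
    rw [map_mul]
  have h3 : ∫ w, K (w.1.1, w.2.1) * conj (K (w.1.2, w.2.2)) * (h w.2.1 * conj (h w.2.2))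
      ∂(tau m h𝒵 σ) = ∫ w, (1 * (K (w.1.1, w.2.1) * h w.2.1)) *
        (1 * (conj (K (w.1.2, w.2.2)) * conj (h w.2.2))) ∂(tau m h𝒵 σ) := by
    refine integral_congr_ae (Eventually.of_forall fun w => ?_)
    show K (w.1.1, w.2.1) * conj (K (w.1.2, w.2.2)) * (h w.2.1 * conj (h w.2.2)) =
      (1 * (K (w.1.1, w.2.1) * h w.2.1)) * (1 * (conj (K (w.1.2, w.2.2)) * conj (h w.2.2)))
    ring
  rw [h3]
  refine h1.trans ?_
  rw [← hσ.sq (Kop m h𝒵 K h) (Kop_BM m h𝒵 K h hK hh)]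
  refine integral_congr_ae (Eventually.of_forall fun z => ?_)
  show (1 * Kop m h𝒵 K h z.1) * (1 * Kop m h𝒵 (fun z => conj (K z)) (fun y => conj (h y)) z.2) =
    Kop m h𝒵 K h z.1 * conj (Kop m h𝒵 K h z.2)
  rw [h2, one_mul, one_mul]

end Pool.Agent.Lib.H82OT
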