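import Pool.Agent.Lib.H82OT.LT1
import Pool.Agent.Lib.H82T.DG

/-!
# Project H82OT, chunk HT5: the averages in L2(hat)
-/

open MeasureTheory Filter Topology Finset ProbabilityTheory
open scoped ENNReal ComplexConjugate Matrix

namespace Pool.Agent.Lib.H82OT

open Pool.Agent.Lib.H22M Pool.Agent.Lib.H82T

/-- Proof. `(⇑U)^[n] v = v ∘ S^[n]` a.e. (as `dg_iter` in `H82T/DG.lean`), `S = Prod.map R R`. Expand
`‖∑ U^n v‖² = ∑_{n,j} ⟪U^j v, U^n v⟫`-type double sum and compute the inner products as integrals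
(`L2.inner_def`), with `h_n = h ∘ R^[n]`:
`v(S^n z) conj v(S^j z) = (h_n conj h_j)(z.1) * conj ((h_n conj h_j)(z.2))`. -/
theorem norm_sum_hat {Y : Type*} [MeasurableSpace Y] (μ : Measure (Y × Y))
    [IsProbabilityMeasure μ] (R : Y → Y) (hS : MeasurePreserving (Prod.map R R) μ μ)
    (U : Lp ℂ 2 μ →ₗᵢ[ℂ] Lp ℂ 2 μ)
    (hU : ∀ x : Lp ℂ 2 μ, (U x : Y × Y → ℂ) =ᵐ[μ] fun z => (x : Y × Y → ℂ) (Prod.map R R z))
    (h : Y → ℂ) (hh : BM h) (hR : Measurable R) (v : Lp ℂ 2 μ)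
    (hv : (v : Y × Y → ℂ) =ᵐ[μ] fun z => h z.1 * conj (h z.2)) (N : ℕ) :
    ‖∑ n ∈ range N, (⇑U)^[n] v‖ ^ 2 ≤ ∑ n ∈ range N, ∑ j ∈ range N,
      ‖∫ z, (h (R^[n] z.1) * conj (h (R^[j] z.1))) *
        conj (h (R^[n] z.2) * conj (h (R^[j] z.2))) ∂μ‖ := by
  have hint : ∀ n j : ℕ, inner ℂ ((⇑U)^[j] v) ((⇑U)^[n] v) =
      ∫ z, (h (R^[n] z.1) * conj (h (R^[j] z.1))) *
        conj (h (R^[n] z.2) * conj (h (R^[j] z.2))) ∂μ := by
    intro n j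
    rw [L2.inner_def]
    apply integral_congr_ae
    filter_upwards [dg_iter hS U hU v _ hv n, dg_iter hS U hU v _ hv j] with z e1 e2
    rw [RCLike.inner_apply, e1, e2]
    simp only [Prod.map_iterate, Prod.map_fst, Prod.map_snd, map_mul, Complex.conj_conj]
    ring
  have h1 : ‖∑ n ∈ range N, (⇑U)^[n] v‖ ^ 2 =
      ‖inner ℂ (∑ j ∈ range N, (⇑U)^[j] v) (∑ n ∈ range N, (⇑U)^[n] v)‖ := by
    rw [inner_self_eq_norm_sq_to_K, norm_pow]
    simp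
  rw [h1, inner_sum]
  refine (norm_sum_le _ _).trans (Finset.sum_le_sum fun n _ => ?_)
  rw [sum_inner]
  refine (norm_sum_le _ _).trans (Finset.sum_le_sum fun j _ => ?_)
  rw [hint n j]

end Pool.Agent.Lib.H82OT
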