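import Pool.Agent.Lib.H82OT.WN1
import Pool.Agent.Lib.H82OT.HT3

/-!
# Project H82OT, chunk HT6: small averages in L2(hat)
-/

open MeasureTheory Filter Topology Finset ProbabilityTheory
open scoped ENNReal ComplexConjugate Matrix

namespace Pool.Agent.Lib.H82OT

open Pool.Agent.Lib.H22M Pool.Agent.Lib.H82T

variable {Y : Type*} {𝒵 : MeasurableSpace Y} [mY : MeasurableSpace Y] [StandardBorelSpace Y]

private theorem HT6_one (m : Measure Y) [IsProbabilityMeasure m] (h𝒵 : 𝒵 ≤ mY) (R : Y ≃ᵐ Y)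
    (hR : Ergodic R m) (hk : KronAlg 𝒵 m R) (u : Y → ℂ) (hu : BM u) (C : ℝ) (hC0 : 0 ≤ C)
    (hC : ∀ y, ‖u y‖ ≤ C) (ε : ℝ) (hε : 0 < ε) :
    ∃ F : Finset ℂ, (1 : ℂ) ∉ F ∧ ∀ (p q : ℕ) (ρ σ : Measure (Y × Y)),
      (∀ c ∈ F, ∀ e : ℂ, IsEigenvalue m R e → e ^ p ≠ c) → RelSq m R p q ρ σ →
      ‖∫ z, u z.1 * conj (u z.2) ∂(hat m h𝒵 σ)‖ ≤ C * ‖∫ y, u y ∂m‖ + ε := by
  obtain ⟨g, hgm, hgb, hge, hgi⟩ := exists_version 𝒵 m h𝒵 u hu.1 C hC0 (Filter.Eventually.of_forall hC)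
  have hgBM : BM g := ⟨hgm.mono h𝒵 le_rfl, C, hgb⟩
  have hs : Small m R g := small_kron hR hk g hgm ⟨C, hgb⟩
  obtain ⟨F, hF1, hF⟩ := hs (fun y => conj (g y)) hgBM.conj ε hε
  refine ⟨F, hF1, ?_⟩
  intro p q ρ σ hpF hσ
  have := hσ.prob
  have hself := hat_self m h𝒵 R hR.toMeasurePreserving hk hσ
  have hkill := hat_kills m h𝒵 R hR.toMeasurePreserving hk.inv hσ F hpF
  have h1 := hF (hat m h𝒵 σ) hself hkill
  -- integrals
  have e1 := integral_hat m h𝒵 σ hσ.fst hσ.snd u (fun y => conj (u y)) hu hu.conj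
  have e2 := integral_hat m h𝒵 σ hσ.fst hσ.snd g (fun y => conj (g y)) hgBM hgBM.conj
  have c1 : m[(fun y => conj (u y))|𝒵] =ᵐ[m] fun y => conj (g y) := by
    refine (condExp_conj 𝒵 m h𝒵 u hu.integrable).trans ?_
    filter_upwards [hge] with y hy
    rw [← hy]
  have c2 : m[g|𝒵] =ᵐ[m] g := by
    rw [condExp_of_stronglyMeasurable h𝒵 hgm.stronglyMeasurable hgBM.integrable]
  have c3 : m[(fun y => conj (g y))|𝒵] =ᵐ[m] fun y => conj (g y) := by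
    refine (condExp_conj 𝒵 m h𝒵 g hgBM.integrable).trans ?_
    filter_upwards [c2] with y hy
    rw [hy]
  have a1 : ∀ {P : Y → Prop}, (∀ᵐ y ∂m, P y) → ∀ᵐ z ∂σ, P z.1 := by
    intro P hP
    refine ae_of_ae_map measurable_fst.aemeasurable ?_
    rw [hσ.fst]
    exact hP
  have a2 : ∀ {P : Y → Prop}, (∀ᵐ y ∂m, P y) → ∀ᵐ z ∂σ, P z.2 := by
    intro P hP
    refine ae_of_ae_map measurable_snd.aemeasurable ?_
    rw [hσ.snd]
    exact hP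
  have e3 : ∫ z, u z.1 * conj (u z.2) ∂(hat m h𝒵 σ) = ∫ z, g z.1 * conj (g z.2) ∂(hat m h𝒵 σ) := by
    rw [e1, e2]
    apply integral_congr_ae
    filter_upwards [a1 hge, a1 c2, a2 c1, a2 c3] with z z1 z2 z3 z4
    rw [← z1, z2, z3, z4]
  have e4 : ∫ y, g y ∂m = ∫ y, u y ∂m := by
    have := hgi (fun _ => 1) measurable_const ⟨1, Filter.Eventually.of_forall (fun _ => by simp)⟩
    simpa using this.symm
  have e5 : ∫ y, conj (g y) ∂m = conj (∫ y, g y ∂m) := integral_conj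
  have h2 : ‖(∫ y, g y ∂m) * ∫ y, conj (g y) ∂m‖ ≤ C * ‖∫ y, u y ∂m‖ := by
    rw [e5, norm_mul, RCLike.norm_conj, e4]
    have h3 : ‖∫ y, u y ∂m‖ ≤ C := by
      have := norm_integral_le_of_norm_le_const (μ := m) (Filter.Eventually.of_forall hC)
      simpa using this
    exact mul_le_mul_of_nonneg_right h3 (norm_nonneg _)
  rw [e3]
  have h4 := norm_sub_norm_le (∫ z, g z.1 * conj (g z.2) ∂(hat m h𝒵 σ))
    ((∫ y, g y ∂m) * ∫ y, conj (g y) ∂m)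
  linarith

/-- Proof. Let `C ≥ 0` bound `h`; choose `N` by `exists_small_corr` for `δ = η / (2 (C² + 1))`. For each pair
`n, j < N` let `A` be a bounded (by `C²`) `𝒵`-measurable version of `m[h_n conj h_j|𝒵]`
(`exists_version` in `H82T/CV.lean`), which is `Small` (`small_kron`); take the finite set for
`g = conj A` and `η / 2`; `F0` = the union. For `σ` with `p` good, `hat σ` is a self-coupling killing `F0`
(`hat_self`, `hat_kills`). By `integral_hat` (used for `h_n conj h_j` and for `A`; the conditional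
expectation of `A` is `A`) `∫ (h_n conj h_j)(z.1) conj ((h_n conj h_j)(z.2)) dhat =
∫ A(z.1) conj (A(z.2)) dhat`, within `η / 2` of `|∫ A dm|² = |∫ h_n conj h_j dm|² ≤
C² |∫ h_n conj h_j dm|`. Sum over the pairs. -/
theorem exists_hat_small (m : Measure Y) [IsProbabilityMeasure m] (h𝒵 : 𝒵 ≤ mY) (R : Y ≃ᵐ Y)
    (hR : Ergodic R m) (hk : KronAlg 𝒵 m R) (h : Y → ℂ) (hh : BM h)
    (ho : ∀ (e : Y → ℂ) (l : ℂ), BM e → (∀ᵐ y ∂m, e (R y) = l * e y) →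
      ∫ y, h y * conj (e y) ∂m = 0) (η : ℝ) (hη : 0 < η) :
    ∃ F0 : Finset ℂ, (1 : ℂ) ∉ F0 ∧ ∃ N : ℕ, 1 ≤ N ∧ ∀ p ∈ goodPrimes m R F0, ∀ q : ℕ,
      ∀ ρ σ : Measure (Y × Y), RelSq m R p q ρ σ →
        ∑ n ∈ range N, ∑ j ∈ range N,
          ‖∫ z, (h (R^[n] z.1) * conj (h (R^[j] z.1))) *
            conj (h (R^[n] z.2) * conj (h (R^[j] z.2))) ∂(hat m h𝒵 σ)‖ ≤ η * (N : ℝ) ^ 2 := by
  classical
  obtain ⟨hhm, C₀, hC₀⟩ := hh
  set C : ℝ := max C₀ 0 with hCdef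
  have hC0 : 0 ≤ C := le_max_right _ _
  have hC : ∀ y, ‖h y‖ ≤ C := fun y => (hC₀ y).trans (le_max_left _ _)
  have hh : BM h := ⟨hhm, C, hC⟩
  have hδ : 0 < η / (2 * (C ^ 2 + 1)) := by positivity
  obtain ⟨N, hN1, hN⟩ := exists_small_corr hR h hh ho _ hδ
  have hu : ∀ n j : ℕ, BM (fun y => h ((⇑R)^[n] y) * conj (h ((⇑R)^[j] y))) := by
    intro n j
    exact (hh.comp (R.measurable.iterate n)).mul (hh.comp (R.measurable.iterate j)).conj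
  have hub : ∀ (n j : ℕ) (y : Y), ‖h ((⇑R)^[n] y) * conj (h ((⇑R)^[j] y))‖ ≤ C ^ 2 := by
    intro n j y
    rw [norm_mul, RCLike.norm_conj, sq]
    exact mul_le_mul (hC _) (hC _) (norm_nonneg _) hC0
  choose F hF1 hF using fun n j => HT6_one m h𝒵 R hR hk _ (hu n j) (C ^ 2) (by positivity)
    (hub n j) (η / 2) (by positivity)
  refine ⟨(range N).biUnion fun n => (range N).biUnion fun j => F n j, ?_, N, hN1, ?_⟩
  · simp [hF1]
  intro p hp q ρ σ hσ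
  have hterm : ∀ n ∈ range N, ∀ j ∈ range N,
      ‖∫ z, (h ((⇑R)^[n] z.1) * conj (h ((⇑R)^[j] z.1))) *
            conj (h ((⇑R)^[n] z.2) * conj (h ((⇑R)^[j] z.2))) ∂(hat m h𝒵 σ)‖ ≤
      C ^ 2 * ‖∫ y, h ((⇑R)^[n] y) * conj (h ((⇑R)^[j] y)) ∂m‖ + η / 2 := by
    intro n hn j hj
    refine hF n j p q ρ σ ?_ hσ
    intro c hc e he
    exact hp.2 c (Finset.mem_biUnion.mpr ⟨n, hn, Finset.mem_biUnion.mpr ⟨j, hj, hc⟩⟩) e he
  refine (Finset.sum_le_sum fun n hn => Finset.sum_le_sum fun j hj => hterm n hn j hj).trans ?_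
  have e1 : ∑ n ∈ range N, ∑ j ∈ range N,
      (C ^ 2 * ‖∫ y, h ((⇑R)^[n] y) * conj (h ((⇑R)^[j] y)) ∂m‖ + η / 2) =
      C ^ 2 * (∑ n ∈ range N, ∑ j ∈ range N, ‖∫ y, h ((⇑R)^[n] y) * conj (h ((⇑R)^[j] y)) ∂m‖) +
        (N : ℝ) ^ 2 * (η / 2) := by
    simp only [Finset.sum_add_distrib, Finset.sum_const, Finset.card_range, nsmul_eq_mul,
      Finset.mul_sum]
    ring
  rw [e1]
  have h2 : C ^ 2 * (∑ n ∈ range N, ∑ j ∈ range N,
      ‖∫ y, h ((⇑R)^[n] y) * conj (h ((⇑R)^[j] y)) ∂m‖) ≤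
      C ^ 2 * (η / (2 * (C ^ 2 + 1)) * (N : ℝ) ^ 2) :=
    mul_le_mul_of_nonneg_left hN (by positivity)
  have h3 : C ^ 2 * (η / (2 * (C ^ 2 + 1))) ≤ η / 2 := by
    rw [mul_div_assoc', div_le_div_iff₀ (by positivity) (by positivity)]
    nlinarith [sq_nonneg C]
  have h4 : C ^ 2 * (η / (2 * (C ^ 2 + 1)) * (N : ℝ) ^ 2) ≤ η / 2 * (N : ℝ) ^ 2 := by
    rw [← mul_assoc]
    exact mul_le_mul_of_nonneg_right h3 (by positivity)
  linarith

end Pool.Agent.Lib.H82OT
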