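import Pool.Agent.Lib.H82OT.QS1
import Pool.Agent.Lib.H22M.EG

/-!
# Project H82OT, chunk QS2: eigenfunctions have the property QS
-/

open MeasureTheory Filter Topology Finset ProbabilityTheory
open scoped ENNReal ComplexConjugate Matrix

namespace Pool.Agent.Lib.H82OT

open Pool.Agent.Lib.H22M Pool.Agent.Lib.H82T

/-- Proof. If `c = 1`, `e` is invariant, so constant a.e. (`const_of_invariant` in `H22M/EG.lean` or
`Ergodic.ae_eq_const_of_ae_eq_comp_ae`), `e - ∫ e = 0` a.e. and `qf σ = 0` (`qf_congr`). If `c ≠ 1` take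
`F0 = {c}`, `P0 = ∅`, `m0 = 0`: for `p` in `goodPrimes m R {c}` no `p`-th power of an eigenvalue is `c`, so
`RelSq.eig_zero` gives `qf σ e = 0`, and `∫ e dm = 0` since `∫ e = ∫ e ∘ R = c ∫ e`. -/
theorem QS_eigen {Y : Type*} [MeasurableSpace Y] {m : Measure Y} [IsProbabilityMeasure m]
    {R : Y → Y} (hR : Ergodic R m) (e : Y → ℂ) (he : BM e) (c : ℂ) (hc : ‖c‖ = 1)
    (h : ∀ᵐ y ∂m, e (R y) = c * e y) : QS m R e := by
  intro ε hε
  by_cases hc1 : c = 1
  · subst hc1
    have h1 : e ∘ R =ᵐ[m] e := by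
      filter_upwards [h] with y hy
      show e (R y) = e y
      rw [hy, one_mul]
    obtain ⟨a, ha⟩ := hR.ae_eq_const_of_ae_eq_comp_ae he.1.aestronglyMeasurable h1
    have hint : ∫ x, e x ∂m = a := by
      rw [integral_congr_ae ha]
      simp
    refine ⟨∅, notMem_empty _, ∅, 0, fun p _ _ Q hQ => ?_⟩
    rw [Nat.le_zero, card_eq_zero, eq_empty_iff_forall_notMem]
    intro q hq
    obtain ⟨-, -, ρ, σ, -, hσ, hlt⟩ := hQ q hq
    have h2 : qf σ (fun y => e y - ∫ x, e x ∂m) = qf σ (fun _ => (0 : ℂ)) := by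
      refine qf_congr hσ _ _ ?_
      filter_upwards [ha] with y hy
      have hy' : e y = a := hy
      rw [hy', hint, sub_self]
    have h3 : qf σ (fun _ => (0 : ℂ)) = 0 := by
      unfold qf
      simp
    rw [h2, h3] at hlt
    linarith
  · have hint : ∫ x, e x ∂m = 0 := by
      have h1 : ∫ x, e (R x) ∂m = ∫ x, e x ∂m := by
        have h2 := integral_map (μ := m) (φ := R) (f := e) hR.measurable.aemeasurable
          (he.1.aestronglyMeasurable)
        rw [hR.toMeasurePreserving.map_eq] at h2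
        exact h2.symm
      have h2 : ∫ x, e (R x) ∂m = c * ∫ x, e x ∂m := by
        rw [integral_congr_ae h, integral_const_mul]
      rw [h1] at h2
      have h3 : (1 - c) * ∫ x, e x ∂m = 0 := by
        rw [sub_mul, one_mul, ← h2, sub_self]
      rcases mul_eq_zero.mp h3 with h4 | h4
      · exact absurd (sub_eq_zero.mp h4).symm hc1
      · exact h4
    refine ⟨{c}, ?_, ∅, 0, fun p hp _ Q hQ => ?_⟩
    · rw [mem_singleton]
      exact fun h' => hc1 h'.symm
    rw [Nat.le_zero, card_eq_zero, eq_empty_iff_forall_notMem]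
    intro q hq
    obtain ⟨-, -, ρ, σ, -, hσ, hlt⟩ := hQ q hq
    have h2 := (hσ.eig_zero e c he hc h
      (fun l hl => hp.2 c (mem_singleton_self c) l hl)).1
    rw [hint] at hlt
    simp only [sub_zero] at hlt
    have h3 : qf σ (fun y => e y) = 0 := h2
    rw [h3] at hlt
    linarith

end Pool.Agent.Lib.H82OT
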