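import Pool.Agent.Lib.H82OT.HT4
import Pool.Agent.Lib.H82OT.HT5
import Pool.Agent.Lib.H82OT.HT6
import Pool.Agent.Lib.H82OT.QS2
import Pool.Agent.Lib.H82OT.KP5
import Pool.Agent.Lib.H22M.HL

/-!
# Project H82OT, chunk HT7: the order two part
-/

open MeasureTheory Filter Topology Finset ProbabilityTheory
open scoped ENNReal ComplexConjugate Matrix

namespace Pool.Agent.Lib.H82OT

open Pool.Agent.Lib.H22M Pool.Agent.Lib.H82T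

variable {Y : Type*} {𝒵 : MeasurableSpace Y} [mY : MeasurableSpace Y] [StandardBorelSpace Y]

/-- For `h` orthogonal to the eigenfunctions. Proof. `QS_of_qf`. Let `C > 0` bound `K` and `C' > 0` bound
`h`, `η = ε²`. Take `F0, N` from `exists_hat_small` with a constant `η' < (η / (2 C²))²` (e.g.
`η' = (η / (2 C²))² / 2`), `P0 = ∅`, `m0 = ⌈4 C⁴ C'⁴ / η²⌉₊`. Let `p` be good, `Q` a finite set of primes
`q ≠ p` with `ρ_q, σ_q`, `ε < qf σ_q (Kop K h)` and suppose `m0 < Q.card`; `Q` is nonempty, fix `q₀ ∈ Q`;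
`μ = hat σ_{q₀}`, `= hat σ_q` for all `q ∈ Q` (`hat_eq`). `H = Lp ℂ 2 μ`, `U` = composition with `R × R`
(`Lp.compMeasurePreservingₗᵢ`; `hat_self`), `v` the class of `h(z.1) conj h(z.2)`, `‖v‖ ≤ C'²`. For
`q ∈ Q` take `l_q` from `exists_hat_functional` for `σ_q`, `μ` and `hμ = hat_eq ...`:
`‖l_q‖ ≤ C²`, invariant, `l_q v = qf σ_q (Kop K h)² ≥ η` (`hat_functional_eval`; the class `v` may be replaced by
the function `tau`-a.e. as `hat = tau.map snd`). `hilbert_bad` (`H22M/HL.lean`) with the constant `C²`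
gives `η N / (2 C²) ≤ ‖∑_{n<N} U^n v‖`, while `norm_sum_hat` and `exists_hat_small` give
`‖∑ U^n v‖² ≤ η' N² < (η N / (2 C²))²`. Contradiction. -/
theorem QS_Kop_orth (m : Measure Y) [IsProbabilityMeasure m] (h𝒵 : 𝒵 ≤ mY) (R : Y ≃ᵐ Y)
    (hR : Ergodic R m) (hk : KronAlg 𝒵 m R) (K : Y × Y → ℂ) (hK : IsKer m h𝒵 R K) (h : Y → ℂ)
    (hh : BM h)
    (ho : ∀ (e : Y → ℂ) (l : ℂ), BM e → (∀ᵐ y ∂m, e (R y) = l * e y) →
      ∫ y, h y * conj (e y) ∂m = 0) : QS m R (Kop m h𝒵 K h) := by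
  classical
  have hRm : MeasurePreserving R m m := hR.toMeasurePreserving
  refine QS_of_qf _ (Kop_BM m h𝒵 K h hK.1 hh) fun ε hε => ?_
  obtain ⟨C₀, hC₀⟩ := hK.1.2
  obtain ⟨C₁, hC₁⟩ := hh.2
  obtain ⟨C, hCpos, hC⟩ : ∃ C : ℝ, 0 < C ∧ ∀ z, ‖K z‖ ≤ C :=
    ⟨max C₀ 1, lt_max_of_lt_right one_pos, fun z => (hC₀ z).trans (le_max_left _ _)⟩
  obtain ⟨C', hC'pos, hC'⟩ : ∃ C' : ℝ, 0 < C' ∧ ∀ y, ‖h y‖ ≤ C' :=
    ⟨max C₁ 1, lt_max_of_lt_right one_pos, fun z => (hC₁ z).trans (le_max_left _ _)⟩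
  obtain ⟨η, hηdef⟩ : ∃ η : ℝ, η = ε ^ 2 := ⟨_, rfl⟩
  have hη : 0 < η := by
    rw [hηdef]
    positivity
  obtain ⟨F0, hF0, N, hN, hsmall⟩ := exists_hat_small m h𝒵 R hR hk h hh ho
    ((η / (2 * C ^ 2)) ^ 2 / 2) (by positivity)
  refine ⟨F0, hF0, ∅, ⌈4 * (C ^ 2) ^ 2 * (C' ^ 2) ^ 2 / η ^ 2⌉₊, fun p hp _ Q hQ => ?_⟩
  by_contra hcon
  push Not at hcon
  have hne : Q.Nonempty := Finset.card_pos.1 (by omega)
  obtain ⟨q₀, hq₀⟩ := hne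
  obtain ⟨-, -, ρ₀, σ₀, hρ₀, hσ₀, -⟩ := hQ q₀ hq₀
  obtain ⟨μ, hμ⟩ : ∃ μ : Measure (Y × Y), μ = hat m h𝒵 σ₀ := ⟨_, rfl⟩
  have hself : IsSelf m R μ := by
    rw [hμ]
    exact hat_self m h𝒵 R hRm hk hσ₀
  have hprob : IsProbabilityMeasure μ := hself.prob
  have hsm : ∑ n ∈ range N, ∑ j ∈ range N,
      ‖∫ z, (h (R^[n] z.1) * conj (h (R^[j] z.1))) *
        conj (h (R^[n] z.2) * conj (h (R^[j] z.2))) ∂μ‖ ≤
        (η / (2 * C ^ 2)) ^ 2 / 2 * (N : ℝ) ^ 2 := by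
    rw [hμ]
    exact hsmall p hp q₀ ρ₀ σ₀ hσ₀
  obtain ⟨U, hU⟩ : ∃ U : Lp ℂ 2 μ →ₗᵢ[ℂ] Lp ℂ 2 μ, ∀ x : Lp ℂ 2 μ,
      (U x : Y × Y → ℂ) =ᵐ[μ] fun z => (x : Y × Y → ℂ) (Prod.map R R z) :=
    ⟨Lp.compMeasurePreservingₗᵢ ℂ (Prod.map R R) hself.inv, fun x =>
      Lp.coeFn_compMeasurePreserving x hself.inv⟩
  have hvb : BM (fun z : Y × Y => h z.1 * conj (h z.2)) :=
    (hh.comp measurable_fst).mul (hh.comp measurable_snd).conj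
  obtain ⟨v, hv⟩ : ∃ v : Lp ℂ 2 μ, (v : Y × Y → ℂ) =ᵐ[μ] fun z => h z.1 * conj (h z.2) :=
    ⟨(hvb.memLp 2).toLp _, (hvb.memLp 2).coeFn_toLp⟩
  have hvn : ‖v‖ ≤ C' ^ 2 := by
    have h1 : ∀ᵐ z ∂μ, ‖(v : Y × Y → ℂ) z‖ ≤ C' ^ 2 := by
      filter_upwards [hv] with z hz
      rw [hz, norm_mul, RCLike.norm_conj, sq]
      exact mul_le_mul (hC' _) (hC' _) (norm_nonneg _) hC'pos.le
    have h2 := Lp.norm_le_of_ae_bound (by positivity : 0 ≤ C' ^ 2) h1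
    simpa [measureUnivNNReal] using h2
  have hex : ∀ q : ℕ, ∃ l : Lp ℂ 2 μ →L[ℂ] ℂ, q ∈ Q →
      ‖l‖ ≤ C ^ 2 ∧ (∀ c, l ((⇑U)^[q] c) = l c) ∧ η ≤ ‖l v‖ := by
    intro q
    by_cases hq : q ∈ Q
    · obtain ⟨-, -, ρ, σ, hρ, hσ, hlt⟩ := hQ q hq
      have hpσ : IsProbabilityMeasure σ := hσ.prob
      have hμσ : hat m h𝒵 σ = μ := by
        rw [hμ]
        exact hat_eq m h𝒵 hk hσ hσ₀
      obtain ⟨l, hl1, hl2, hl3⟩ := exists_hat_functional m h𝒵 R hRm hk.inv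
        (mh_inv m h𝒵 R hRm hk.inv) q σ hσ.fst hσ.snd hσ.inv μ hμσ hself.inv K hK C hCpos.le hC
        U hU
      refine ⟨l, fun _ => ⟨hl1, hl2, ?_⟩⟩
      have h1 : l v = ((qf σ (Kop m h𝒵 K h) ^ 2 : ℝ) : ℂ) := by
        rw [hl3, ← hat_functional_eval m h𝒵 hσ K hK.1 h hh]
        refine integral_congr_ae ?_
        have h2 : ∀ g : Y × Y → ℂ, (g =ᵐ[μ] fun z => h z.1 * conj (h z.2)) →
            ∀ᵐ w ∂(tau m h𝒵 σ), g w.2 = h w.2.1 * conj (h w.2.2) := by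
          intro g hg
          rw [← hμσ] at hg
          exact ae_of_ae_map measurable_snd.aemeasurable hg
        filter_upwards [h2 _ hv] with w hw
        rw [hw]
      rw [h1, Complex.norm_real, Real.norm_eq_abs, abs_of_nonneg (by positivity), hηdef]
      exact pow_le_pow_left₀ hε.le hlt.le 2
    · exact ⟨0, fun h => absurd h hq⟩
  choose l hl using hex
  have hcard : 4 * (C ^ 2) ^ 2 * ‖v‖ ^ 2 / η ^ 2 < (Q.card : ℝ) := by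
    have h1 : 4 * (C ^ 2) ^ 2 * ‖v‖ ^ 2 / η ^ 2 ≤ 4 * (C ^ 2) ^ 2 * (C' ^ 2) ^ 2 / η ^ 2 := by
      gcongr
    have h2 := Nat.le_ceil (4 * (C ^ 2) ^ 2 * (C' ^ 2) ^ 2 / η ^ 2)
    have h3 : ((⌈4 * (C ^ 2) ^ 2 * (C' ^ 2) ^ 2 / η ^ 2⌉₊ : ℕ) : ℝ) < (Q.card : ℝ) := by
      exact_mod_cast hcon
    linarith
  have hbad := hilbert_bad U v (C ^ 2) η (by positivity) hη Q (fun q hq => (hQ q hq).1) l
    (fun q hq => (hl q hq).1) (fun q hq => (hl q hq).2.1) (fun q hq => (hl q hq).2.2) hcard N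
  have hns := norm_sum_hat μ R hself.inv U hU h hh R.measurable v hv N
  have hN' : (1 : ℝ) ≤ (N : ℝ) := by exact_mod_cast hN
  have h1 : (η * N / (2 * C ^ 2)) ^ 2 ≤ ‖∑ n ∈ range N, (⇑U)^[n] v‖ ^ 2 :=
    pow_le_pow_left₀ (by positivity) hbad 2
  have h2 : (η * N / (2 * C ^ 2)) ^ 2 = (η / (2 * C ^ 2)) ^ 2 * (N : ℝ) ^ 2 := by
    rw [← mul_pow]
    ring
  have h3 : 0 < (η / (2 * C ^ 2)) ^ 2 * (N : ℝ) ^ 2 := by positivity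
  rw [h2] at h1
  linarith

end Pool.Agent.Lib.H82OT
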