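import Pool.Agent.Lib.H82OT.KP1

/-!
# Project H82OT, chunk KP3: the operators Kop: boundedness and pairing
-/

open MeasureTheory Filter Topology Finset ProbabilityTheory
open scoped ENNReal ComplexConjugate Matrix

namespace Pool.Agent.Lib.H82OT

open Pool.Agent.Lib.H22M Pool.Agent.Lib.H82T

variable {Y : Type*} {𝒵 : MeasurableSpace Y} [mY : MeasurableSpace Y] [StandardBorelSpace Y]

omit [StandardBorelSpace Y] in
private theorem KP3_sec {K : Y × Y → ℂ} {h : Y → ℂ} (hK : BM K) (hh : BM h) (y : Y) :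
    BM (fun x => K (y, x) * h x) :=
  (hK.comp measurable_prodMk_left).mul hh

/-- Proof. Measurability: `Measurable.integral_kernel_prod_right`-type lemma
(`MeasureTheory.StronglyMeasurable.integral_kernel_prod_right'` for `kap` and the function
`(y, x) ↦ K (y, x) * h x`), bound: `norm_integral_le_of_norm_le_const` (probability kernel). -/
theorem Kop_BM (m : Measure Y) [IsProbabilityMeasure m] (h𝒵 : 𝒵 ≤ mY) (K : Y × Y → ℂ)
    (h : Y → ℂ) (hK : BM K) (hh : BM h) : BM (Kop m h𝒵 K h) := by
  have hb : BM (fun z : Y × Y => K z * h z.2) := hK.mul (hh.comp measurable_snd)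
  obtain ⟨hm, C, hC⟩ := hb
  refine ⟨?_, C, fun y => ?_⟩
  · have h1 := StronglyMeasurable.integral_kernel_prod_right' (κ := kap m h𝒵)
      (f := fun z : Y × Y => K z * h z.2) hm.stronglyMeasurable
    exact h1.measurable
  · unfold Kop
    have h2 := norm_integral_le_of_norm_le_const (μ := kap m h𝒵 y)
      (f := fun y' => K (y, y') * h y') (C := C) (Eventually.of_forall fun x => hC (y, x))
    simpa using h2

/-- Proof. `integral_mh` for `F z = g z.1 * (K z * h z.2)` and `integral_const_mul`. -/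
theorem integral_Kop (m : Measure Y) [IsProbabilityMeasure m] (h𝒵 : 𝒵 ≤ mY) (K : Y × Y → ℂ)
    (h g : Y → ℂ) (hK : BM K) (hh : BM h) (hg : BM g) :
    ∫ y, g y * Kop m h𝒵 K h y ∂m = ∫ z, g z.1 * (K z * h z.2) ∂(mh m h𝒵) := by
  have hb : BM (fun z : Y × Y => g z.1 * (K z * h z.2)) :=
    (hg.comp measurable_fst).mul (hK.mul (hh.comp measurable_snd))
  rw [integral_mh m h𝒵 _ hb]
  refine integral_congr_ae (Eventually.of_forall fun y => ?_)
  change g y * Kop m h𝒵 K h y = ∫ x, g y * (K (y, x) * h x) ∂(kap m h𝒵 y)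
  rw [integral_const_mul]
  rfl

/-- Proof. `integral_add`, `integral_const_mul` for the kernel (all functions are bounded and
measurable: `BM.integrable`; for fixed `y` the function `x ↦ K (y, x)` is bounded and measurable). -/
theorem Kop_add_smul (m : Measure Y) [IsProbabilityMeasure m] (h𝒵 : 𝒵 ≤ mY) (K : Y × Y → ℂ)
    (h h' : Y → ℂ) (c c' : ℂ) (hK : BM K) (hh : BM h) (hh' : BM h') (y : Y) :
    Kop m h𝒵 K (fun x => c * h x + c' * h' x) y = c * Kop m h𝒵 K h y + c' * Kop m h𝒵 K h' y := by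
  unfold Kop
  rw [← integral_const_mul, ← integral_const_mul, ← integral_add
    (((BM.const c).mul (KP3_sec hK hh y)).integrable) (((BM.const c').mul (KP3_sec hK hh' y)).integrable)]
  refine integral_congr_ae (Eventually.of_forall fun x => ?_)
  change K (y, x) * (c * h x + c' * h' x) = c * (K (y, x) * h x) + c' * (K (y, x) * h' x)
  ring

/-- Proof. Induction on the finset, `Kop_add_smul`, or `integral_finset_sum`. -/
theorem Kop_sum (m : Measure Y) [IsProbabilityMeasure m] (h𝒵 : 𝒵 ≤ mY) (K : Y × Y → ℂ)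
    (hK : BM K) {ι : Type*} (s : Finset ι) (h : ι → Y → ℂ) (hh : ∀ i ∈ s, BM (h i)) (y : Y) :
    Kop m h𝒵 K (fun x => ∑ i ∈ s, h i x) y = ∑ i ∈ s, Kop m h𝒵 K (h i) y := by
  unfold Kop
  simp_rw [Finset.mul_sum]
  exact integral_finsetSum s fun i hi => (KP3_sec hK (hh i hi) y).integrable

/-- Additivity in the kernel. Proof. As `Kop_add_smul`. -/
theorem Kop_add_smul_left (m : Measure Y) [IsProbabilityMeasure m] (h𝒵 : 𝒵 ≤ mY)
    (K K' : Y × Y → ℂ) (h : Y → ℂ) (c c' : ℂ) (hK : BM K) (hK' : BM K') (hh : BM h) (y : Y) :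
    Kop m h𝒵 (fun z => c * K z + c' * K' z) h y =
      c * Kop m h𝒵 K h y + c' * Kop m h𝒵 K' h y := by
  unfold Kop
  rw [← integral_const_mul, ← integral_const_mul, ← integral_add
    (((BM.const c).mul (KP3_sec hK hh y)).integrable) (((BM.const c').mul (KP3_sec hK' hh y)).integrable)]
  refine integral_congr_ae (Eventually.of_forall fun x => ?_)
  change (c * K (y, x) + c' * K' (y, x)) * h x = c * (K (y, x) * h x) + c' * (K' (y, x) * h x)
  ring

end Pool.Agent.Lib.H82OT
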