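import Pool.Agent.Lib.H82OT.Defs
import Pool.Agent.Lib.H22M.EG

/-!
# Project H82OT, chunk KR1: enumeration of the eigenvalues
-/

open MeasureTheory Filter Topology Finset ProbabilityTheory
open scoped ENNReal ComplexConjugate Matrix

namespace Pool.Agent.Lib.H82OT

open Pool.Agent.Lib.H22M Pool.Agent.Lib.H82T

/-- The inclusion of the circle is continuous. -/
private theorem kr1_continuous_coe : Continuous (fun z : Circle => (z : ℂ)) :=
  continuous_subtype_val

/-- A map into the circle is measurable if it is so as a map into `ℂ`. -/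
private theorem kr1_measurable {Y : Type*} [MeasurableSpace Y] [MeasurableSpace Circle]
    [BorelSpace Circle] {h : Y → Circle} (hh : Measurable (fun y => ((h y : Circle) : ℂ))) :
    Measurable h := by
  have h1 : Topology.IsClosedEmbedding (fun z : Circle => (z : ℂ)) :=
    kr1_continuous_coe.isClosedEmbedding Circle.coe_injective
  exact h1.measurableEmbedding.measurable_comp_iff.1 hh

/-- For complex numbers of modulus one, `a conj b = 1` gives `a = b`. -/
private theorem kr1_eq_of_mul_conj {a b : ℂ} (hb : ‖b‖ = 1) (h : a * conj b = 1) : a = b := by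
  have h1 : b * conj b = 1 := by
    rw [Complex.mul_conj, Complex.normSq_eq_norm_sq, hb]
    simp
  have h2 : conj b ≠ 0 := fun h3 => by
    rw [h3, mul_zero] at h
    exact zero_ne_one h
  exact mul_right_cancel₀ h2 (h.trans h1.symm)

/-- Eigenfunctions of modulus one for different eigenvalues are orthogonal. -/
private theorem kr1_orth {Y : Type*} [MeasurableSpace Y] {m : Measure Y} [IsProbabilityMeasure m]
    (R : Y ≃ᵐ Y) (hR : Ergodic R m) {a b : ℂ} (hb : ‖b‖ = 1) (hab : a ≠ b) (f g : Y → ℂ)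
    (hfR : ∀ᵐ y ∂m, f (R y) = a * f y) (hgR : ∀ᵐ y ∂m, g (R y) = b * g y) :
    ∫ y, f y * conj (g y) ∂m = 0 := by
  have h1 : ∫ y, f (R y) * conj (g (R y)) ∂m = ∫ y, f y * conj (g y) ∂m :=
    hR.toMeasurePreserving.integral_comp' (fun y => f y * conj (g y))
  have h2 : ∫ y, f (R y) * conj (g (R y)) ∂m = (a * conj b) * ∫ y, f y * conj (g y) ∂m := by
    rw [← integral_const_mul]
    refine integral_congr_ae ?_
    filter_upwards [hfR, hgR] with y h3 h4
    rw [h3, h4, map_mul]
    ring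
  by_contra h5
  have h6 : a * conj b = 1 := by
    rw [h1] at h2
    have h7 : (a * conj b) * ∫ y, f y * conj (g y) ∂m = 1 * ∫ y, f y * conj (g y) ∂m := by
      rw [one_mul]
      exact h2.symm
    exact mul_right_cancel₀ h5 h7
  exact hab (kr1_eq_of_mul_conj hb h6)

/-- A measurable function of modulus one almost everywhere is in `L²`. -/
private theorem kr1_memLp {Y : Type*} [MeasurableSpace Y] {m : Measure Y} [IsProbabilityMeasure m]
    {f : Y → ℂ} (hf : Measurable f) (hf1 : ∀ᵐ y ∂m, ‖f y‖ = 1) : MemLp f 2 m :=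
  MemLp.of_bound hf.aestronglyMeasurable 1 (hf1.mono fun y hy => hy.le)

/-- Inner product of two classes in `L²`. -/
private theorem kr1_inner {Y : Type*} [MeasurableSpace Y] {m : Measure Y} [IsProbabilityMeasure m]
    {f g : Y → ℂ} (hf : MemLp f 2 m) (hg : MemLp g 2 m) :
    inner ℂ (hf.toLp f) (hg.toLp g) = ∫ y, g y * conj (f y) ∂m := by
  rw [MeasureTheory.L2.inner_def]
  refine integral_congr_ae ?_
  filter_upwards [hf.coeFn_toLp, hg.coeFn_toLp] with y h1 h2
  rw [h1, h2, RCLike.inner_apply]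

/-- The squared norm of a function of modulus one. -/
private theorem kr1_norm {Y : Type*} [MeasurableSpace Y] {m : Measure Y} [IsProbabilityMeasure m]
    {f : Y → ℂ} (hf : MemLp f 2 m) (hf1 : ∀ᵐ y ∂m, ‖f y‖ = 1) :
    ‖hf.toLp f‖ ^ 2 = 1 := by
  have h1 : ((‖hf.toLp f‖ : ℂ)) ^ 2 = 1 := by
    have h2 := inner_self_eq_norm_sq_to_K (𝕜 := ℂ) (hf.toLp f)
    rw [kr1_inner hf hf] at h2
    have h3 : ∫ y, f y * conj (f y) ∂m = 1 := by
      have h4 : ∫ y, f y * conj (f y) ∂m = ∫ _, (1 : ℂ) ∂m := by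
        refine integral_congr_ae ?_
        filter_upwards [hf1] with y hy
        rw [Complex.mul_conj, Complex.normSq_eq_norm_sq, hy]
        simp
      rw [h4]
      simp
    rw [h3] at h2
    exact h2.symm
  exact_mod_cast h1

/-- Distance at least one between eigenfunctions for different eigenvalues. -/
private theorem kr1_dist {Y : Type*} [MeasurableSpace Y] {m : Measure Y} [IsProbabilityMeasure m]
    (R : Y ≃ᵐ Y) (hR : Ergodic R m) {a b : ℂ} (hb : ‖b‖ = 1) (hab : a ≠ b) {f g : Y → ℂ}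
    (hf : MemLp f 2 m) (hg : MemLp g 2 m) (hf1 : ∀ᵐ y ∂m, ‖f y‖ = 1) (hg1 : ∀ᵐ y ∂m, ‖g y‖ = 1)
    (hfR : ∀ᵐ y ∂m, f (R y) = a * f y) (hgR : ∀ᵐ y ∂m, g (R y) = b * g y) :
    1 ≤ dist (hg.toLp g) (hf.toLp f) := by
  have h1 : inner ℂ (hg.toLp g) (hf.toLp f) = 0 := by
    rw [kr1_inner hg hf]
    exact kr1_orth R hR hb hab f g hfR hgR
  have h2 := norm_sub_sq (𝕜 := ℂ) (hg.toLp g) (hf.toLp f)
  rw [h1, kr1_norm hg hg1, kr1_norm hf hf1] at h2
  rw [dist_eq_norm]
  have h3 : ‖hg.toLp g - hf.toLp f‖ ^ 2 = 2 := by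
    rw [h2]
    simp
    norm_num
  by_contra h4
  push Not at h4
  have h5 : 0 ≤ ‖hg.toLp g - hf.toLp f‖ := norm_nonneg _
  have h6 : ‖hg.toLp g - hf.toLp f‖ ^ 2 < 2 := by nlinarith
  exact absurd h3 h6.ne

/-- The set of eigenvalues is countable. -/
private theorem kr1_countable {Y : Type*} [MeasurableSpace Y] [StandardBorelSpace Y]
    {m : Measure Y} [IsProbabilityMeasure m] (R : Y ≃ᵐ Y) (hR : Ergodic R m) :
    {l : ℂ | IsEigenvalue m R l}.Countable := by
  classical
  have hch : ∀ l : ℂ, ∃ f : Y → ℂ, Measurable f ∧ (∀ᵐ y ∂m, ‖f y‖ = 1) ∧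
      (IsEigenvalue m R l → ∀ᵐ y ∂m, f (R y) = l * f y) := by
    intro l
    by_cases h : IsEigenvalue m R l
    · obtain ⟨f, hf, hf1, hfe⟩ := h
      exact ⟨f, hf, hf1, fun _ => hfe⟩
    · exact ⟨fun _ => 1, measurable_const, Eventually.of_forall fun y => by simp,
        fun h' => absurd h' h⟩
  choose f hf hf1 hfe using hch
  have hfact : Fact ((2 : ℝ≥0∞) ≠ ∞) := ⟨by norm_num⟩
  have hM : ∀ l, MemLp (f l) 2 m := fun l => kr1_memLp (hf l) (hf1 l)
  have hdis : {l : ℂ | IsEigenvalue m R l}.PairwiseDisjoint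
      (fun l => Metric.ball ((hM l).toLp (f l)) (1 / 2)) := by
    intro a ha b hb hab
    have hb1 : ‖b‖ = 1 := IsEigenvalue.norm_eq hR.toMeasurePreserving hb
    have hd := kr1_dist R hR hb1 hab (hM a) (hM b) (hf1 a) (hf1 b) (hfe a ha) (hfe b hb)
    refine Metric.ball_disjoint_ball ?_
    rw [dist_comm]
    norm_num
    exact hd
  exact hdis.countable_of_isOpen (fun l _ => Metric.isOpen_ball)
    (fun l _ => ⟨_, Metric.mem_ball_self (by norm_num)⟩)

/-- Proof. Eigenfunctions `f, f'` of modulus one a.e. for different eigenvalues `c, c'` (of modulus one) are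
orthogonal: `∫ f conj f' dm = ∫ (f conj f') ∘ R dm = c conj c' ∫ f conj f' dm`. So their classes in
`Lp ℂ 2 m` have distance `√2`. `Lp ℂ 2 m` is separable (`StandardBorelSpace`: countably generated
σ-algebra, `Measure.IsSeparable`, `Lp.SecondCountableTopology`), so the set of eigenvalues is countable
(pairwise disjoint balls of radius `1/2`: `Set.PairwiseDisjoint.countable_of_isOpen` or
`Set.Countable.of_...` for separated sets), and nonempty (`1`). Enumerate it (`Set.Countable.exists_eq_range`).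
For every `n` let `f` be an eigenfunction and `e n y = f y` as an element of `Circle` if `‖f y‖ = 1` and `1`
otherwise. `‖c n‖ = 1` (`f ∘ R` and `f` have modulus one). -/
theorem exists_eigen_seq {Y : Type*} [MeasurableSpace Y] [StandardBorelSpace Y]
    {m : Measure Y} [IsProbabilityMeasure m] [MeasurableSpace Circle] [BorelSpace Circle]
    (R : Y ≃ᵐ Y) (hR : Ergodic R m) :
    ∃ (c : ℕ → Circle) (e : ℕ → Y → Circle), (∀ n, Measurable (e n)) ∧
      (∀ n, ∀ᵐ y ∂m, e n (R y) = c n * e n y) ∧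
      ∀ l : ℂ, IsEigenvalue m R l → ∃ n, ((c n : Circle) : ℂ) = l := by
  classical
  have h1 : IsEigenvalue m R 1 :=
    ⟨fun _ => 1, measurable_const, Eventually.of_forall fun y => by simp,
      Eventually.of_forall fun y => by simp⟩
  obtain ⟨l, hl⟩ := (kr1_countable R hR).exists_eq_range ⟨1, h1⟩
  have hev : ∀ n, IsEigenvalue m R (l n) := fun n => by
    have h2 : l n ∈ {l : ℂ | IsEigenvalue m R l} := by
      rw [hl]
      exact Set.mem_range_self n
    exact h2
  have hln : ∀ n, ‖l n‖ = 1 := fun n => IsEigenvalue.norm_eq hR.toMeasurePreserving (hev n)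
  choose f hf hf1 hfe using hev
  have hmem : ∀ z : ℂ, ‖z‖ = 1 → ∃ w : Circle, (w : ℂ) = z := fun z hz =>
    ⟨⟨z, mem_sphere_zero_iff_norm.2 hz⟩, rfl⟩
  -- the corrected functions
  let g : ℕ → Y → ℂ := fun n y => if ‖f n y‖ = 1 then f n y else 1
  have hg1 : ∀ n y, ‖g n y‖ = 1 := by
    intro n y
    by_cases h : ‖f n y‖ = 1
    · simp only [g, if_pos h, h]
    · simp only [g, if_neg h, norm_one]
  have hgm : ∀ n, Measurable (g n) := fun n =>
    Measurable.ite ((hf n).norm (measurableSet_singleton 1)) (hf n) measurable_const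
  have hgf : ∀ n, ∀ᵐ y ∂m, g n y = f n y := fun n => by
    filter_upwards [hf1 n] with y hy
    simp only [g, if_pos hy]
  have hgR : ∀ n, ∀ᵐ y ∂m, g n (R y) = l n * g n y := fun n => by
    have h2 : ∀ᵐ y ∂m, g n (R y) = f n (R y) :=
      hR.toMeasurePreserving.quasiMeasurePreserving.ae (hgf n)
    filter_upwards [hgf n, h2, hfe n] with y h3 h4 h5
    rw [h4, h5, h3]
  choose c hc using fun n => hmem (l n) (hln n)
  choose e hee using fun n y => hmem (g n y) (hg1 n y)
  refine ⟨c, e, ?_, ?_, ?_⟩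
  · intro n
    refine kr1_measurable ?_
    have h2 : (fun y => ((e n y : Circle) : ℂ)) = g n := funext fun y => hee n y
    rw [h2]
    exact hgm n
  · intro n
    filter_upwards [hgR n] with y hy
    refine Circle.ext ?_
    rw [Circle.coe_mul, hee, hee, hc]
    exact hy
  · intro a ha
    have h2 : a ∈ Set.range l := by
      rw [← hl]
      exact ha
    obtain ⟨n, hn⟩ := h2
    exact ⟨n, (hc n).trans hn⟩

/-- Proof. `‖e‖` is invariant under `R` if `‖l‖ = 1` (or `e = 0` a.e.: if `‖l‖ ≠ 1` then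
`∫ ‖e‖ = ‖l‖ ∫ ‖e‖` gives `e = 0` a.e.), so constant a.e. (`norm_const_of_eigen` in `H22M/EG.lean`). If the
constant is `0` take `κ = 0`, any `n`. Otherwise `e / ‖e‖` shows that `l` is an eigenvalue, `l = c n`, and
`e conj (e_n)` is invariant, so constant `κ` a.e. (`const_of_invariant`), `e = κ e_n` a.e. -/
theorem eigen_eq_smul {Y : Type*} [MeasurableSpace Y] {m : Measure Y} [IsProbabilityMeasure m]
    {R : Y → Y} (hR : Ergodic R m) (c : ℕ → Circle) (e : ℕ → Y → Circle)
    [MeasurableSpace Circle] [BorelSpace Circle] (he : ∀ n, Measurable (e n))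
    (heR : ∀ n, ∀ᵐ y ∂m, e n (R y) = c n * e n y)
    (hall : ∀ l : ℂ, IsEigenvalue m R l → ∃ n, ((c n : Circle) : ℂ) = l)
    (f : Y → ℂ) (l : ℂ) (hf : BM f) (hfR : ∀ᵐ y ∂m, f (R y) = l * f y) :
    ∃ (n : ℕ) (κ : ℂ), ∀ᵐ y ∂m, f y = κ * (e n y : ℂ) := by
  by_cases h0 : ∀ᵐ y ∂m, f y = 0
  · exact ⟨0, 0, h0.mono fun y hy => by rw [hy, zero_mul]⟩
  -- `l` has modulus one
  have hl : ‖l‖ = 1 := by
    have h1 : ∫ y, ‖f (R y)‖ ∂m = ∫ y, ‖f y‖ ∂m := by
      have h2 : ∫ y, ‖f y‖ ∂(m.map R) = ∫ y, ‖f (R y)‖ ∂m :=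
        integral_map hR.toMeasurePreserving.measurable.aemeasurable
          hf.1.norm.aestronglyMeasurable
      rw [hR.toMeasurePreserving.map_eq] at h2
      exact h2.symm
    have h3 : ∫ y, ‖f (R y)‖ ∂m = ‖l‖ * ∫ y, ‖f y‖ ∂m := by
      rw [← integral_const_mul]
      refine integral_congr_ae ?_
      filter_upwards [hfR] with y hy
      rw [hy, norm_mul]
    have h4 : ∫ y, ‖f y‖ ∂m ≠ 0 := by
      intro h5
      have h6 : (fun y => ‖f y‖) =ᵐ[m] 0 :=
        (integral_eq_zero_iff_of_nonneg (fun y => norm_nonneg (f y)) hf.integrable.norm).1 h5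
      exact h0 (h6.mono fun y hy => norm_eq_zero.1 hy)
    rw [h1] at h3
    have h7 : 1 * ∫ y, ‖f y‖ ∂m = ‖l‖ * ∫ y, ‖f y‖ ∂m := by
      rw [one_mul]
      exact h3
    exact (mul_right_cancel₀ h4 h7).symm
  obtain ⟨n, hn⟩ := hall l (isEigenvalue_of_eigen hR f hf.1 l hl hfR h0)
  have hcoe : Measurable (fun y => ((e n y : Circle) : ℂ)) :=
    kr1_continuous_coe.measurable.comp (he n)
  have hll : l * conj l = 1 := by
    rw [Complex.mul_conj, Complex.normSq_eq_norm_sq, hl]
    simp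
  obtain ⟨κ, hκ⟩ := const_of_invariant hR (fun y => f y * conj ((e n y : Circle) : ℂ))
    (hf.1.mul (Complex.continuous_conj.measurable.comp hcoe)) (by
      filter_upwards [hfR, heR n] with y h1 h2
      have h3 : ((e n (R y) : Circle) : ℂ) = l * (e n y : ℂ) := by
        rw [h2, Circle.coe_mul, hn]
      rw [h1, h3, map_mul]
      linear_combination (f y * conj ((e n y : Circle) : ℂ)) * hll)
  refine ⟨n, κ, ?_⟩
  filter_upwards [hκ] with y hy
  have h4 : conj ((e n y : Circle) : ℂ) * (e n y : ℂ) = 1 := by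
    rw [mul_comm, Complex.mul_conj, Complex.normSq_eq_norm_sq, Circle.norm_coe]
    simp
  rw [← hy]
  linear_combination (-(f y)) * h4

end Pool.Agent.Lib.H82OT
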