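import Pool.Agent.Lib.H82OT.Defs
import Pool.Agent.Lib.H22M.E0

/-!
# Project H82OT, chunk ME1: mean ergodic theorem with an invariant bounded limit
-/

open MeasureTheory Filter Topology Finset ProbabilityTheory
open scoped ENNReal ComplexConjugate Matrix

namespace Pool.Agent.Lib.H82OT

open Pool.Agent.Lib.H22M Pool.Agent.Lib.H82T

/-- Proof. Work in `H = Lp ℂ 2 ν` with the isometry `U` = composition with `S`
(`Lp.compMeasurePreservingₗᵢ`, see `H22M/E0.lean`, `H82T/DG.lean` (`dg_iter`)), `x` the class of `G`. The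
averages `N⁻¹ ∑_{n<N} U^n x` converge to the orthogonal projection `x₀` of `x` to the fixed vectors
(`ContinuousLinearMap.tendsto_birkhoffAverage_orthogonalProjection`, as in `H22M/E0.lean`);
`U x₀ = x₀`, `⟪x, x₀⟫ = ‖x₀‖²`. The functions `N⁻¹ ∑ G ∘ S^n` are bounded by `C`; a subsequence
converges almost everywhere to `x₀` (`tendstoInMeasure_of_tendsto_Lp`,
`TendstoInMeasure.exists_seq_tendsto_ae`; or: the set of `x` with `‖x‖ ≤ C` a.e. is closed), so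
`‖x₀‖ ≤ C` almost everywhere; let `K ω = x₀ ω` if `‖x₀ ω‖ ≤ C` and `0` otherwise. The norm in `H` is
`l2` (`H22M` has several such computations, e.g. `p4_l2` in `H22M/P4.lean`). -/
theorem exists_limit {Ω : Type*} [MeasurableSpace Ω] (ν : Measure Ω) [IsProbabilityMeasure ν]
    (S : Ω → Ω) (hS : MeasurePreserving S ν ν) (G : Ω → ℂ) (hG : Measurable G) (C : ℝ)
    (hC0 : 0 ≤ C) (hC : ∀ ω, ‖G ω‖ ≤ C) :
    ∃ K : Ω → ℂ, Measurable K ∧ (∀ ω, ‖K ω‖ ≤ C) ∧ (∀ᵐ ω ∂ν, K (S ω) = K ω) ∧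
      (∀ δ : ℝ, 0 < δ → ∃ N₀ : ℕ, ∀ N : ℕ, N₀ ≤ N →
        l2 ν (fun ω => (N : ℂ)⁻¹ * ∑ n ∈ range N, G (S^[n] ω) - K ω) ≤ δ) ∧
      ∫ ω, K ω * conj (G ω) ∂ν = ((l2 ν K ^ 2 : ℝ) : ℂ) := by
  have hBG : BM G := ⟨hG, C, hC⟩
  let V : Lp ℂ 2 ν →L[ℂ] Lp ℂ 2 ν :=
    (Lp.compMeasurePreservingₗᵢ ℂ S hS).toContinuousLinearMap
  have hV : ∀ g : Lp ℂ 2 ν, V g =ᵐ[ν] fun ω => g (S ω) := by
    intro g
    have h1 : V g = Lp.compMeasurePreserving S hS g := rfl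
    rw [h1]
    exact Lp.coeFn_compMeasurePreserving g hS
  have hVn : ‖V‖ ≤ 1 := LinearIsometry.norm_toContinuousLinearMap_le _
  let x : Lp ℂ 2 ν := (hBG.memLp 2).toLp G
  have hx : x =ᵐ[ν] G := (hBG.memLp 2).coeFn_toLp
  have hiter : ∀ n : ℕ, (V^[n] x) =ᵐ[ν] fun ω => G (S^[n] ω) := by
    intro n
    induction n with
    | zero =>
      filter_upwards [hx] with ω hω
      simp only [Function.iterate_zero, id_eq]
      exact hω
    | succ n ih =>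
      rw [Function.iterate_succ_apply']
      have h1 : ∀ᵐ ω ∂ν, (V^[n] x) (S ω) = G (S^[n] (S ω)) :=
        hS.quasiMeasurePreserving.ae ih
      filter_upwards [hV (V^[n] x), h1] with ω h2 h3
      rw [h2, h3, ← Function.iterate_succ_apply]
  have hlim := ContinuousLinearMap.tendsto_birkhoffAverage_orthogonalProjection V hVn x
  set u : V.eqLocus (1 : Lp ℂ 2 ν →L[ℂ] Lp ℂ 2 ν) :=
    (V.eqLocus (1 : Lp ℂ 2 ν →L[ℂ] Lp ℂ 2 ν)).orthogonalProjectionOnto x with hu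
  have hfix : V (u : Lp ℂ 2 ν) = u := u.2
  have hinner : inner ℂ x (u : Lp ℂ 2 ν) = inner ℂ (u : Lp ℂ 2 ν) (u : Lp ℂ 2 ν) := by
    have h1 := Submodule.inner_orthogonalProjectionOnto_eq_of_mem_right
      (K := V.eqLocus (1 : Lp ℂ 2 ν →L[ℂ] Lp ℂ 2 ν)) u x
    rw [← hu] at h1
    rw [← h1]
    rfl
  have hall : ∀ᵐ ω ∂ν, ∀ n : ℕ, (V^[n] x) ω = G (S^[n] ω) := ae_all_iff.2 hiter
  have hsum : ∀ N : ℕ, (⇑(∑ n ∈ range N, V^[n] x) : Ω → ℂ) =ᵐ[ν]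
      fun ω => ∑ n ∈ range N, (V^[n] x) ω := by
    intro N
    induction N with
    | zero =>
      simp only [range_zero, sum_empty]
      exact Lp.coeFn_zero ℂ 2 ν
    | succ N ih =>
      simp only [sum_range_succ]
      filter_upwards [Lp.coeFn_add (∑ n ∈ range N, V^[n] x) (V^[N] x), ih] with y h4 h5
      rw [h4, Pi.add_apply, h5]
  have havg : ∀ N : ℕ, (⇑(birkhoffAverage ℂ V _root_.id N x) : Ω → ℂ) =ᵐ[ν]
      fun ω => (N : ℂ)⁻¹ * ∑ n ∈ range N, G (S^[n] ω) := by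
    intro N
    have h1 : birkhoffAverage ℂ V _root_.id N x = (N : ℂ)⁻¹ • ∑ n ∈ range N, V^[n] x := rfl
    rw [h1]
    filter_upwards [Lp.coeFn_smul (N : ℂ)⁻¹ (∑ n ∈ range N, V^[n] x), hall, hsum N] with y h4 h5 h6
    rw [h4, Pi.smul_apply, h6, smul_eq_mul]
    congr 1
    exact sum_congr rfl fun n _ => h5 n
  have hbd : ∀ N : ℕ, ∀ ω, ‖(N : ℂ)⁻¹ * ∑ n ∈ range N, G (S^[n] ω)‖ ≤ C := by
    intro N ω
    rw [norm_mul, norm_inv, Complex.norm_natCast]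
    have h1 : ‖∑ n ∈ range N, G (S^[n] ω)‖ ≤ N * C := by
      refine (norm_sum_le _ _).trans ?_
      refine (sum_le_sum fun n _ => hC (S^[n] ω)).trans ?_
      rw [sum_const, card_range, nsmul_eq_mul]
    rcases Nat.eq_zero_or_pos N with h0 | h0
    · subst h0
      simpa using hC0
    · have h2 : (0 : ℝ) < N := by exact_mod_cast h0
      rw [inv_mul_le_iff₀ h2]
      exact h1
  have hbu : ∀ᵐ ω ∂ν, ‖(u : Lp ℂ 2 ν) ω‖ ≤ C := by
    have h1 := tendstoInMeasure_of_tendsto_Lp hlim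
    obtain ⟨ns, -, h2⟩ := h1.exists_seq_tendsto_ae
    have h3 : ∀ᵐ ω ∂ν, ∀ N : ℕ, (⇑(birkhoffAverage ℂ V _root_.id N x) : Ω → ℂ) ω =
      (N : ℂ)⁻¹ * ∑ n ∈ range N, G (S^[n] ω) := ae_all_iff.2 havg
    filter_upwards [h2, h3] with ω h4 h5
    refine le_of_tendsto h4.norm (Eventually.of_forall fun i => ?_)
    rw [h5 (ns i)]
    exact hbd _ _
  have hmeas : Measurable (⇑(u : Lp ℂ 2 ν) : Ω → ℂ) := (Lp.stronglyMeasurable _).measurable
  classical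
  let K : Ω → ℂ := fun ω => if ‖(u : Lp ℂ 2 ν) ω‖ ≤ C then (u : Lp ℂ 2 ν) ω else 0
  have hK : ∀ᵐ ω ∂ν, (u : Lp ℂ 2 ν) ω = K ω := by
    filter_upwards [hbu] with ω hω
    exact (if_pos hω).symm
  have hKm : Measurable K :=
    Measurable.ite (measurableSet_le hmeas.norm measurable_const) hmeas measurable_const
  have hKb : ∀ ω, ‖K ω‖ ≤ C := by
    intro ω
    show ‖if ‖(u : Lp ℂ 2 ν) ω‖ ≤ C then (u : Lp ℂ 2 ν) ω else 0‖ ≤ C
    split_ifs with h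
    · exact h
    · rw [norm_zero]
      exact hC0
  refine ⟨K, hKm, hKb, ?_, ?_, ?_⟩
  · have h1 : ∀ᵐ ω ∂ν, (u : Lp ℂ 2 ν) (S ω) = K (S ω) := hS.quasiMeasurePreserving.ae hK
    have h2 := hV (u : Lp ℂ 2 ν)
    rw [hfix] at h2
    filter_upwards [h1, h2, hK] with ω h3 h4 h5
    rw [← h3, ← h4, h5]
  · intro δ hδ
    have h1 : ∀ N : ℕ, l2 ν (fun ω => (N : ℂ)⁻¹ * ∑ n ∈ range N, G (S^[n] ω) - K ω) =
        ‖birkhoffAverage ℂ V _root_.id N x - (u : Lp ℂ 2 ν)‖ := by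
      intro N
      refine e0_norm _ _ ?_
      filter_upwards [Lp.coeFn_sub (birkhoffAverage ℂ V _root_.id N x) (u : Lp ℂ 2 ν), havg N,
        hK] with ω h2 h3 h4
      rw [h2, Pi.sub_apply, h3, h4]
    rw [tendsto_iff_norm_sub_tendsto_zero] at hlim
    have h2 := (hlim.eventually (gt_mem_nhds hδ))
    obtain ⟨N₀, hN₀⟩ := eventually_atTop.1 h2
    refine ⟨N₀, fun N hN => ?_⟩
    rw [h1 N]
    exact (hN₀ N hN).le
  · have h1 : l2 ν K = ‖(u : Lp ℂ 2 ν)‖ := e0_norm _ _ hK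
    have h2 : ∫ ω, K ω * conj (G ω) ∂ν = inner ℂ x (u : Lp ℂ 2 ν) := by
      rw [L2.inner_def]
      refine integral_congr_ae ?_
      filter_upwards [hx, hK] with ω h3 h4
      rw [h3, ← h4, RCLike.inner_apply]
    rw [h2, hinner, inner_self_eq_norm_sq_to_K, h1]
    push_cast
    rfl

end Pool.Agent.Lib.H82OT
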