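import Pool.Agent.Lib.H82OT.Defs
import Pool.Agent.Lib.H82T.B1

/-!
# Project H82OT, chunk NB1: eigenfunctions over a compact group base: conditional expectation
-/

open MeasureTheory Filter Topology Finset ProbabilityTheory
open scoped ENNReal ComplexConjugate Matrix

namespace Pool.Agent.Lib.H82OT

open Pool.Agent.Lib.H22M Pool.Agent.Lib.H82T

private theorem NB1_quad_char {Z G : Type*} [CommGroup Z] [TopologicalSpace Z]
    [IsTopologicalGroup Z] [CommGroup G] [TopologicalSpace G] [IsTopologicalGroup G]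
    (χ : PontryaginDual ((Z × G) × (Z × G))) :
    ∃ (χ₁ χ₂ : PontryaginDual Z) (a b : PontryaginDual G), ∀ (z z' : Z) (u u' : G),
      χ ((z, u), (z', u')) = χ₁ z * a u * (χ₂ z' * b u') := by
  let L : PontryaginDual (Z × G) :=
    ContinuousMonoidHom.comp χ (ContinuousMonoidHom.inl (Z × G) (Z × G))
  let R : PontryaginDual (Z × G) :=
    ContinuousMonoidHom.comp χ (ContinuousMonoidHom.inr (Z × G) (Z × G))
  let L1 : PontryaginDual Z := ContinuousMonoidHom.comp L (ContinuousMonoidHom.inl Z G)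
  let L2 : PontryaginDual G := ContinuousMonoidHom.comp L (ContinuousMonoidHom.inr Z G)
  let R1 : PontryaginDual Z := ContinuousMonoidHom.comp R (ContinuousMonoidHom.inl Z G)
  let R2 : PontryaginDual G := ContinuousMonoidHom.comp R (ContinuousMonoidHom.inr Z G)
  refine ⟨L1, R1, L2, R2, fun z z' u u' => ?_⟩
  have h1 : (((z, u), (z', u')) : (Z × G) × (Z × G)) =
      ((z, 1), (1, 1)) * ((1, u), (1, 1)) * (((1, 1), (z', 1)) * ((1, 1), (1, u'))) := by
    ext <;> simp
  rw [h1, map_mul, map_mul, map_mul]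
  rfl

/-- Port of `exists_base_function` in `H82T/B1.lean` from the circle to a compact abelian group `G`; the
characters `a, b` of `G` replace the integer powers. Proof. As there: `exists_char_ne_zero`
(`H82T/FM.lean`) for the group `(Z × G) × (Z × G)`; a character `χ` of it is
`χ ((z, g), (z', g')) = χ₁ z * a g * (χ₂ z' * b g')` with the restrictions to the four factors
(`MonoidHom.inl`-like continuous embeddings; multiplicativity), and `k z = h z * a (u z.1) * b (u z.2)`. -/
theorem exists_base_function_G {Y Z G : Type*} [MeasurableSpace Y] [MeasurableSpace Circle]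
    [BorelSpace Circle] [CommGroup Z] [TopologicalSpace Z] [IsTopologicalGroup Z]
    [CompactSpace Z] [T2Space Z] [SecondCountableTopology Z] [MeasurableSpace Z] [BorelSpace Z]
    [CommGroup G] [TopologicalSpace G] [IsTopologicalGroup G]
    [CompactSpace G] [T2Space G] [SecondCountableTopology G] [MeasurableSpace G] [BorelSpace G]
    (R : Y ≃ᵐ Y) (π : Y → Z) (hπ : Measurable π) (α : Z) (hπR : ∀ y, π (R y) = α * π y)
    (u : Y → G) (hu : Measurable u) (φ : Z → G) (hφ : Measurable φ)
    (huR : ∀ y, u (R y) = φ (π y) * u y) (ν : Measure (Y × Y)) [IsProbabilityMeasure ν]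
    (hν : MeasurePreserving (Prod.map R R) ν ν) (ζ : ℂ) (hζ : ‖ζ‖ = 1) (h : Y × Y → ℂ)
    (hh : Measurable[DD (MeasurableSpace.comap (fun y => (π y, u y)) inferInstance) ν R] h)
    (hb : ∃ C : ℝ, ∀ᵐ z ∂ν, ‖h z‖ ≤ C) (hR : ∀ᵐ z ∂ν, h (Prod.map R R z) = ζ * h z)
    (hne : ¬ ∀ᵐ z ∂ν, h z = 0) :
    ∃ (A : Set (Y × Y)) (a b : PontryaginDual G) (g : Z × Z → ℂ),
      MeasurableSet[aeInv ν (Prod.map R R)] A ∧
      ν A ≠ 0 ∧ Measurable g ∧ (∃ C : ℝ, ∀ x, ‖g x‖ ≤ C) ∧
      (∀ᵐ z ∂(cond ν A), g (α * π z.1, α * π z.2) =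
        ζ * ((a (φ (π z.1)) : Circle) : ℂ) * ((b (φ (π z.2)) : Circle) : ℂ) *
          g (π z.1, π z.2)) ∧
      ¬ ∀ᵐ z ∂(cond ν A), g (π z.1, π z.2) = 0 := by
  classical
  set v : Y → Z × G := fun y => (π y, u y) with hv
  have hvm : Measurable v := hπ.prodMk hu
  have hw : Measurable (fun z : Y × Y => (v z.1, v z.2)) :=
    (hvm.comp measurable_fst).prodMk (hvm.comp measurable_snd)
  have hh' : Measurable[MeasurableSpace.comap (fun z : Y × Y => (v z.1, v z.2)) inferInstance ⊔
        aeInv ν (Prod.map R R)] h := by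
    rw [← dd_comap_eq]
    exact hh
  obtain ⟨χ, A, hA, hint⟩ := exists_char_ne_zero (aeInv ν (Prod.map R R)) ν (aeInv_le _ _)
    (fun z : Y × Y => (v z.1, v z.2)) hw h hh' hb hne
  obtain ⟨χ₁, χ₂, a, b, hχ⟩ := NB1_quad_char χ
  have hνA : ν A ≠ 0 := by
    intro h0
    exact hint (Measure.restrict_eq_zero.2 h0 ▸ by simp)
  have hhm : Measurable h := hh'.mono (sup_le hw.comap_le (aeInv_le _ _)) le_rfl
  have hprob : IsProbabilityMeasure (cond ν A) := cond_isProbabilityMeasure hνA
  have hcond : MeasurePreserving (Prod.map R R) (cond ν A) (cond ν A) :=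
    cond_preserving ν _ hν A hA
  have hcac : cond ν A ≪ ν := cond_absolutelyContinuous
  obtain ⟨C₀, hC₀⟩ := hb
  obtain ⟨C, hCC, hC0⟩ : ∃ C : ℝ, C₀ ≤ C ∧ 0 ≤ C := ⟨max C₀ 0, le_max_left _ _, le_max_right _ _⟩
  have hcz : ∀ n : PontryaginDual G, Measurable fun c : G => ((n c : Circle) : ℂ) := by
    intro n
    have h1 : Continuous fun c : G => ((n c : Circle) : ℂ) :=
      continuous_subtype_val.comp (map_continuous n)
    exact h1.measurable
  have hcn : ∀ (n : PontryaginDual G) (c : G), ‖((n c : Circle) : ℂ)‖ = 1 := by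
    intro n c
    exact Circle.norm_coe _
  set k : Y × Y → ℂ := fun z => h z * ((a (u z.1) : Circle) : ℂ) * ((b (u z.2) : Circle) : ℂ) with hk
  have hkm : Measurable k :=
    (hhm.mul ((hcz a).comp (hu.comp measurable_fst))).mul ((hcz b).comp (hu.comp measurable_snd))
  have hkC : ∀ᵐ z ∂(cond ν A), ‖k z‖ ≤ C := by
    filter_upwards [hcac.ae_le hC₀] with z hz
    simp only [hk, norm_mul, hcn, mul_one]
    exact le_trans hz hCC
  have hkR : ∀ᵐ z ∂(cond ν A), k (Prod.map R R z) =
      ζ * ((a (φ (π z.1)) : Circle) : ℂ) * ((b (φ (π z.2)) : Circle) : ℂ) * k z := by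
    filter_upwards [hcac.ae_le hR] with z hz
    have e1 : ((a (u (Prod.map R R z).1) : Circle) : ℂ) =
        ((a (φ (π z.1)) : Circle) : ℂ) * ((a (u z.1) : Circle) : ℂ) := by
      rw [Prod.map_fst, huR, map_mul, Circle.coe_mul]
    have e2 : ((b (u (Prod.map R R z).2) : Circle) : ℂ) =
        ((b (φ (π z.2)) : Circle) : ℂ) * ((b (u z.2) : Circle) : ℂ) := by
      rw [Prod.map_snd, huR, map_mul, Circle.coe_mul]
    simp only [hk]
    rw [hz, e1, e2]
    ring
  set pr : Y × Y → Z × Z := fun z => (π z.1, π z.2) with hpr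
  have hprm : Measurable pr := (hπ.comp measurable_fst).prodMk (hπ.comp measurable_snd)
  have h𝒵 : MeasurableSpace.comap pr inferInstance ≤ (inferInstance : MeasurableSpace (Y × Y)) :=
    hprm.comap_le
  have hmz : ∀ F : Z × Z → ℂ, Measurable F →
      Measurable[MeasurableSpace.comap pr inferInstance] fun z => F (pr z) := fun F hF =>
    hF.comp (comap_measurable pr)
  obtain ⟨g₀, hg0m, hg0b, -, hg0int⟩ := exists_version (MeasurableSpace.comap pr inferInstance)
    (cond ν A) h𝒵 k hkm C hC0 hkC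
  obtain ⟨g₁, hg1m, hg1⟩ := Measurable.exists_eq_measurable_comp (f := pr) hg0m
  set g : Z × Z → ℂ := fun x => if ‖g₁ x‖ ≤ C then g₁ x else 0 with hg
  have hgm : Measurable g :=
    Measurable.ite (measurableSet_le hg1m.norm measurable_const) hg1m measurable_const
  have hgb : ∀ x, ‖g x‖ ≤ C := by
    intro x
    simp only [hg]
    split_ifs with h1
    · exact h1
    · simpa using hC0
  have hgpr : ∀ z, g (pr z) = g₀ z := by
    intro z
    have h1 : g₁ (pr z) = g₀ z := by rw [hg1]; rfl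
    simp only [hg, h1, hg0b z, if_true]
  have hφz : ∀ n : PontryaginDual G, Measurable fun x : Z => ((n (φ x) : Circle) : ℂ) :=
    fun n => (hcz n).comp hφ
  -- the eigenfunction relation
  have hrel : ∀ᵐ z ∂(cond ν A), g (α * π z.1, α * π z.2) -
      ζ * ((a (φ (π z.1)) : Circle) : ℂ) * ((b (φ (π z.2)) : Circle) : ℂ) * g (π z.1, π z.2) = 0 := by
    have hDm : Measurable fun x : Z × Z => g (α * x.1, α * x.2) -
        ζ * ((a (φ x.1) : Circle) : ℂ) * ((b (φ x.2) : Circle) : ℂ) * g x := by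
      refine (hgm.comp ?_).sub ((((measurable_const).mul ((hφz a).comp measurable_fst)).mul
        ((hφz b).comp measurable_snd)).mul hgm)
      exact (measurable_fst.const_mul α).prodMk (measurable_snd.const_mul α)
    have hmb : ∀ x : Z × Z, ‖ζ * ((a (φ x.1) : Circle) : ℂ) * ((b (φ x.2) : Circle) : ℂ)‖ = 1 := by
      intro x
      rw [norm_mul, norm_mul, hζ, hcn, hcn]
      norm_num
    refine ae_zero_of_int (MeasurableSpace.comap pr inferInstance) (cond ν A) h𝒵 _
      (hmz _ hDm) (2 * C) ?_ ?_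
    · intro z
      refine (norm_sub_le _ _).trans ?_
      have h0 : ‖ζ * ((a (φ (π z.1)) : Circle) : ℂ) * ((b (φ (π z.2)) : Circle) : ℂ)‖ = 1 := hmb (pr z)
      rw [norm_mul, h0]
      have h1 : ‖g (α * π z.1, α * π z.2)‖ ≤ C := hgb _
      have h2 : ‖g (π z.1, π z.2)‖ ≤ C := hgb _
      linarith
    · rintro f hfm ⟨C', hC'⟩
      obtain ⟨F, hFm, hF⟩ := Measurable.exists_eq_measurable_comp (f := pr) hfm
      have hFz : ∀ z, f z = F (pr z) := fun z => by rw [hF]; rfl
      -- the translate of f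
      have hf'm : Measurable[MeasurableSpace.comap pr inferInstance]
          fun z => F (α⁻¹ * (pr z).1, α⁻¹ * (pr z).2) :=
        hmz (fun x => F (α⁻¹ * x.1, α⁻¹ * x.2)) (hFm.comp
          ((measurable_fst.const_mul α⁻¹).prodMk (measurable_snd.const_mul α⁻¹)))
      have hprR : ∀ z, pr (Prod.map R R z) = (α * (pr z).1, α * (pr z).2) := by
        intro z
        simp only [hpr, Prod.map_fst, Prod.map_snd, hπR]
      have hf'S : ∀ z, F (α⁻¹ * (pr (sqE R z)).1, α⁻¹ * (pr (sqE R z)).2) = f z := by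
        intro z
        have e : pr (sqE R z) = (α * (pr z).1, α * (pr z).2) := hprR z
        rw [e, hFz]
        simp
      have hf'b : ∀ᵐ z ∂(cond ν A), ‖F (α⁻¹ * (pr z).1, α⁻¹ * (pr z).2)‖ ≤ C' := by
        refine Eventually.of_forall fun z => ?_
        have e := hf'S ((sqE R).symm z)
        rw [MeasurableEquiv.apply_symm_apply] at e
        rw [e]
        exact hC' _
      have hSν : MeasurePreserving (sqE R) (cond ν A) (cond ν A) := hcond
      have i1 : ∫ z, f z * g (α * (pr z).1, α * (pr z).2) ∂(cond ν A) =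
          ∫ z, F (α⁻¹ * (pr z).1, α⁻¹ * (pr z).2) * g₀ z ∂(cond ν A) := by
        rw [← hSν.integral_comp' (fun z => F (α⁻¹ * (pr z).1, α⁻¹ * (pr z).2) * g₀ z)]
        refine integral_congr_ae (Eventually.of_forall fun z => ?_)
        simp only
        rw [hf'S z, ← hgpr (sqE R z)]
        have e : pr (sqE R z) = (α * (pr z).1, α * (pr z).2) := hprR z
        rw [e]
      have i2 : ∫ z, F (α⁻¹ * (pr z).1, α⁻¹ * (pr z).2) * k z ∂(cond ν A) =
          ∫ z, F (α⁻¹ * (pr z).1, α⁻¹ * (pr z).2) * g₀ z ∂(cond ν A) :=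
        hg0int _ hf'm ⟨C', hf'b⟩
      have i3 : ∫ z, F (α⁻¹ * (pr z).1, α⁻¹ * (pr z).2) * k z ∂(cond ν A) =
          ∫ z, (f z * (ζ * ((a (φ (π z.1)) : Circle) : ℂ) * ((b (φ (π z.2)) : Circle) : ℂ))) * k z ∂(cond ν A) := by
        rw [← hSν.integral_comp' (fun z => F (α⁻¹ * (pr z).1, α⁻¹ * (pr z).2) * k z)]
        refine integral_congr_ae ?_
        filter_upwards [hkR] with z hz
        rw [hf'S z]
        have e : k (sqE R z) = k (Prod.map R R z) := rfl
        rw [e, hz]
        ring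
      have hf2m : Measurable[MeasurableSpace.comap pr inferInstance]
          fun z => f z * (ζ * ((a (φ (π z.1)) : Circle) : ℂ) * ((b (φ (π z.2)) : Circle) : ℂ)) := by
        refine Measurable.mul hfm ?_
        exact hmz (fun x => ζ * ((a (φ x.1) : Circle) : ℂ) * ((b (φ x.2) : Circle) : ℂ))
          (((measurable_const).mul ((hφz a).comp measurable_fst)).mul
          ((hφz b).comp measurable_snd))
      have i4 : ∫ z, (f z * (ζ * ((a (φ (π z.1)) : Circle) : ℂ) * ((b (φ (π z.2)) : Circle) : ℂ))) * k z ∂(cond ν A) =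
          ∫ z, (f z * (ζ * ((a (φ (π z.1)) : Circle) : ℂ) * ((b (φ (π z.2)) : Circle) : ℂ))) * g₀ z ∂(cond ν A) := by
        refine hg0int _ hf2m ⟨C', Eventually.of_forall fun z => ?_⟩
        rw [norm_mul, hmb (pr z), mul_one]
        exact hC' z
      have hfm' : Measurable f := hfm.mono h𝒵 le_rfl
      have hg0m' : Measurable g₀ := hg0m.mono h𝒵 le_rfl
      have hC'0 : 0 ≤ C' := by
        obtain ⟨z₀⟩ : Nonempty (Y × Y) := nonempty_of_isProbabilityMeasure ν
        exact (norm_nonneg _).trans (hC' z₀)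
      have j1 : Integrable (fun z => f z * g (α * (pr z).1, α * (pr z).2)) (cond ν A) := by
        refine Integrable.of_bound (hfm'.mul (hgm.comp ?_)).aestronglyMeasurable (C' * C)
          (Eventually.of_forall fun z => ?_)
        · exact ((measurable_fst.comp hprm).const_mul α).prodMk
            ((measurable_snd.comp hprm).const_mul α)
        · rw [norm_mul]
          exact mul_le_mul (hC' z) (hgb _) (norm_nonneg _) hC'0
      have j2 : Integrable (fun z => (f z * (ζ * ((a (φ (π z.1)) : Circle) : ℂ) * ((b (φ (π z.2)) : Circle) : ℂ))) *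
          g₀ z) (cond ν A) := by
        refine Integrable.of_bound ((hf2m.mono h𝒵 le_rfl).mul hg0m').aestronglyMeasurable (C' * C)
          (Eventually.of_forall fun z => ?_)
        rw [norm_mul, norm_mul, hmb (pr z), mul_one]
        exact mul_le_mul (hC' z) (hg0b _) (norm_nonneg _) hC'0
      have i5 : ∫ z, f z * (g (α * (pr z).1, α * (pr z).2) -
          ζ * ((a (φ (pr z).1) : Circle) : ℂ) * ((b (φ (pr z).2) : Circle) : ℂ) * g (pr z)) ∂(cond ν A) =
          ∫ z, f z * g (α * (pr z).1, α * (pr z).2) ∂(cond ν A) -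
          ∫ z, (f z * (ζ * ((a (φ (π z.1)) : Circle) : ℂ) * ((b (φ (π z.2)) : Circle) : ℂ))) * g₀ z ∂(cond ν A) := by
        rw [← integral_sub j1 j2]
        refine integral_congr_ae (Eventually.of_forall fun z => ?_)
        simp only
        rw [hgpr z]
        ring
      rw [i5, i1, ← i2, i3, i4, sub_self]
  refine ⟨A, a, b, g, hA, hνA, hgm, ⟨C, hgb⟩, ?_, ?_⟩
  · filter_upwards [hrel] with z hz
    exact sub_eq_zero.1 hz
  · intro h0
    have hχm : ∀ ψ : PontryaginDual Z, Measurable fun x : Z => ((ψ x : Circle) : ℂ) := by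
      intro ψ
      have h1 : Continuous fun x : Z => ((ψ x : Circle) : ℂ) :=
        continuous_subtype_val.comp (map_continuous ψ)
      exact h1.measurable
    have k1 : ∫ z, (((χ₁ (π z.1) : Circle) : ℂ) * ((χ₂ (π z.2) : Circle) : ℂ)) * k z ∂(cond ν A) =
        ∫ z, (((χ₁ (π z.1) : Circle) : ℂ) * ((χ₂ (π z.2) : Circle) : ℂ)) * g₀ z ∂(cond ν A) := by
      refine hg0int _ (hmz (fun x => ((χ₁ x.1 : Circle) : ℂ) * ((χ₂ x.2 : Circle) : ℂ))
        (((hχm χ₁).comp measurable_fst).mul ((hχm χ₂).comp measurable_snd)))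
        ⟨1, Eventually.of_forall fun z => ?_⟩
      rw [norm_mul, Circle.norm_coe, Circle.norm_coe, one_mul]
    have k2 : ∫ z, (((χ₁ (π z.1) : Circle) : ℂ) * ((χ₂ (π z.2) : Circle) : ℂ)) * g₀ z
        ∂(cond ν A) = 0 := by
      refine integral_eq_zero_of_ae ?_
      filter_upwards [h0] with z hz
      have e : g₀ z = 0 := by
        rw [← hgpr z]
        exact hz
      simp [e]
    have k3 : ∫ z, (((χ₁ (π z.1) : Circle) : ℂ) * ((χ₂ (π z.2) : Circle) : ℂ)) * k z
        ∂(cond ν A) = (ν A)⁻¹.toReal • ∫ z in A, h z * ((χ (v z.1, v z.2) : Circle) : ℂ) ∂ν := by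
      rw [ProbabilityTheory.cond, integral_smul_measure]
      congr 1
      refine integral_congr_ae (Eventually.of_forall fun z => ?_)
      simp only [hv, hk]
      rw [hχ]
      push_cast
      ring
    have k4 : (ν A)⁻¹.toReal ≠ 0 := by
      rw [ENNReal.toReal_ne_zero]
      exact ⟨ENNReal.inv_ne_zero.2 (measure_ne_top _ _), ENNReal.inv_ne_top.2 hνA⟩
    rw [k1, k2] at k3
    exact hint ((smul_eq_zero.1 k3.symm).resolve_left k4)

end Pool.Agent.Lib.H82OT
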