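import Pool.Agent.Lib.H82OT.NB1
import Pool.Agent.Lib.H82T.B2

/-!
# Project H82OT, chunk NB2: the relation for one translation
-/

open MeasureTheory Filter Topology Finset ProbabilityTheory
open scoped ENNReal ComplexConjugate Matrix

namespace Pool.Agent.Lib.H82OT

open Pool.Agent.Lib.H22M Pool.Agent.Lib.H82T

/-- Port of `exists_relation` in `H82T/B2.lean` (same proof with `a (φ x)` instead of `φ x ^ a`). -/
theorem exists_relation_G {Y Z G : Type*} [MeasurableSpace Y] [MeasurableSpace Circle]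
    [BorelSpace Circle] [CommGroup Z] [TopologicalSpace Z] [IsTopologicalGroup Z]
    [CompactSpace Z] [T2Space Z] [SecondCountableTopology Z] [MeasurableSpace Z] [BorelSpace Z]
    [CommGroup G] [TopologicalSpace G] [IsTopologicalGroup G]
    [CompactSpace G] [T2Space G] [SecondCountableTopology G] [MeasurableSpace G] [BorelSpace G]
    (lam : Measure Z) [lam.IsHaarMeasure] [IsProbabilityMeasure lam]
    (R : Y ≃ᵐ Y) (π : Y → Z) (hπ : Measurable π) (α : Z)
    (hα : Ergodic (fun z => α * z) lam)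
    (hα1 : ∀ χ : PontryaginDual Z, χ ≠ 1 → ((χ α : Circle) : ℂ) ≠ 1)
    (hπR : ∀ y, π (R y) = α * π y)
    (u : Y → G) (hu : Measurable u) (φ : Z → G) (hφ : Measurable φ)
    (huR : ∀ y, u (R y) = φ (π y) * u y) (ν : Measure (Y × Y)) [IsProbabilityMeasure ν]
    (hν : MeasurePreserving (Prod.map R R) ν ν) (p : ℕ)
    (hp : ∀ᵐ z ∂ν, (π z.2 / π z.1) ^ p = 1) (ζ : ℂ) (hζ : ‖ζ‖ = 1) (h : Y × Y → ℂ)
    (hh : Measurable[DD (MeasurableSpace.comap (fun y => (π y, u y)) inferInstance) ν R] h)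
    (hb : ∃ C : ℝ, ∀ᵐ z ∂ν, ‖h z‖ ≤ C) (hR : ∀ᵐ z ∂ν, h (Prod.map R R z) = ζ * h z)
    (hne : ¬ ∀ᵐ z ∂ν, h z = 0) :
    ∃ (a b : PontryaginDual G) (c₀ : Z) (β : Z → ℂ), c₀ ^ p = 1 ∧ Measurable β ∧
      (∀ᵐ z ∂lam, ‖β z‖ = 1) ∧
      ∀ᵐ z ∂lam, β (α * z) =
        ζ * ((a (φ z) : Circle) : ℂ) * ((b (φ (c₀ * z)) : Circle) : ℂ) * β z := by
  obtain ⟨A, a, b, g, hA, hA0, hg, ⟨C, hC⟩, hrel, hne'⟩ :=
    exists_base_function_G R π hπ α hπR u hu φ hφ huR ν hν ζ hζ h hh hb hR hne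
  have hP' : IsProbabilityMeasure (cond ν A) := cond_isProbabilityMeasure hA0
  have hS' : MeasurePreserving (Prod.map R R) (cond ν A) (cond ν A) :=
    cond_preserving ν (Prod.map R R) hν A hA
  have hac : cond ν A ≪ ν := cond_absolutelyContinuous
  have hx : Measurable (fun z : Y × Y => π z.1) := hπ.comp measurable_fst
  have hc : Measurable (fun z : Y × Y => π z.2 / π z.1) :=
    (hπ.comp measurable_snd).div (hπ.comp measurable_fst)
  have hxc : Measurable (fun z : Y × Y => (π z.1, π z.2 / π z.1)) := hx.prodMk hc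
  have hlaw := law_prod (cond ν A) (Prod.map R R) hS' lam α hα1
    (fun z : Y × Y => π z.1) (fun z : Y × Y => π z.2 / π z.1) hx hc
    (fun z => hπR z.1) (fun z => by
      show π (R z.2) / π (R z.1) = π z.2 / π z.1
      rw [hπR, hπR, mul_div_mul_left_eq_div])
  have hτ : IsProbabilityMeasure ((cond ν A).map (fun z : Y × Y => π z.2 / π z.1)) :=
    Measure.isProbabilityMeasure_map hc.aemeasurable
  generalize hτd : (cond ν A).map (fun z : Y × Y => π z.2 / π z.1) = τ at hlaw hτ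
  have hmα : Measurable (fun x : Z => α * x) := hα.measurable
  have hcc : Continuous (fun z : Circle => (z : ℂ)) := continuous_subtype_val
  have hcm : Measurable (fun z : Circle => (z : ℂ)) := hcc.measurable
  have hac' : Continuous (fun x : G => ((a x : Circle) : ℂ)) := hcc.comp (map_continuous a)
  have hbc' : Continuous (fun x : G => ((b x : Circle) : ℂ)) := hcc.comp (map_continuous b)
  have hφa : Measurable (fun x : Z => ((a (φ x) : Circle) : ℂ)) := hac'.measurable.comp hφ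
  have hφb : Measurable (fun x : Z => ((b (φ x) : Circle) : ℂ)) := hbc'.measurable.comp hφ
  -- the relation on `Z × Z`
  have hB : Measurable (fun w : Z × Z => g (w.1, w.2 * w.1)) :=
    hg.comp (measurable_fst.prodMk (measurable_snd.mul measurable_fst))
  have hPm : MeasurableSet {w : Z × Z | g (α * w.1, w.2 * (α * w.1)) =
      ζ * ((a (φ w.1) : Circle) : ℂ) * ((b (φ (w.2 * w.1)) : Circle) : ℂ) * g (w.1, w.2 * w.1)} := by
    refine measurableSet_eq_fun ?_ ?_
    · exact hg.comp ((hmα.comp measurable_fst).prodMk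
        (measurable_snd.mul (hmα.comp measurable_fst)))
    · exact ((measurable_const.mul (hφa.comp measurable_fst)).mul
        (hφb.comp (measurable_snd.mul measurable_fst))).mul hB
  have hPp : ∀ᵐ w ∂(lam.prod τ), g (α * w.1, w.2 * (α * w.1)) =
      ζ * ((a (φ w.1) : Circle) : ℂ) * ((b (φ (w.2 * w.1)) : Circle) : ℂ) * g (w.1, w.2 * w.1) := by
    rw [← hlaw]
    refine (ae_map_iff hxc.aemeasurable hPm).2 ?_
    filter_upwards [hrel] with z hz
    have e1 : π z.2 / π z.1 * π z.1 = π z.2 := div_mul_cancel _ _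
    have e2 : π z.2 / π z.1 * (α * π z.1) = α * π z.2 := by
      rw [mul_left_comm, e1]
    show g (α * π z.1, π z.2 / π z.1 * (α * π z.1)) =
      ζ * ((a (φ (π z.1)) : Circle) : ℂ) * ((b (φ (π z.2 / π z.1 * π z.1)) : Circle) : ℂ) *
        g (π z.1, π z.2 / π z.1 * π z.1)
    rw [e1, e2]
    exact hz
  have hP2 : ∀ᵐ c ∂τ, ∀ᵐ x ∂lam, g (α * x, c * (α * x)) =
      ζ * ((a (φ x) : Circle) : ℂ) * ((b (φ (c * x)) : Circle) : ℂ) * g (x, c * x) := by
    rw [← Measure.prod_swap] at hPp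
    exact Measure.ae_ae_of_ae_prod ((ae_map_iff measurable_swap.aemeasurable hPm).1 hPp)
  have hp2 : ∀ᵐ c ∂τ, c ^ p = 1 := by
    rw [← hτd]
    refine (ae_map_iff hc.aemeasurable
      (isClosed_eq (continuous_pow p) continuous_const).measurableSet).2 ?_
    exact hac.ae_le hp
  have hN2 : ¬ ∀ᵐ c ∂τ, ∀ᵐ x ∂lam, g (x, c * x) = 0 := by
    intro hall
    apply hne'
    have hBm : MeasurableSet {w : Z × Z | g (w.1, w.2 * w.1) = 0} :=
      measurableSet_eq_fun hB measurable_const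
    have hBm2 : MeasurableSet {w : Z × Z | g (w.2, w.1 * w.2) = 0} :=
      measurableSet_eq_fun (hB.comp measurable_swap) measurable_const
    have h1 : ∀ᵐ w ∂(τ.prod lam), g (w.2, w.1 * w.2) = 0 :=
      (Measure.ae_prod_iff_ae_ae hBm2).2 hall
    have h2 : ∀ᵐ w ∂(lam.prod τ), g (w.1, w.2 * w.1) = 0 := by
      rw [← Measure.prod_swap]
      exact (ae_map_iff measurable_swap.aemeasurable hBm).2 h1
    rw [← hlaw] at h2
    filter_upwards [(ae_map_iff hxc.aemeasurable hBm).1 h2] with z hz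
    have e1 : π z.2 / π z.1 * π z.1 = π z.2 := div_mul_cancel _ _
    have hz' : g (π z.1, π z.2 / π z.1 * π z.1) = 0 := hz
    rwa [e1] at hz'
  obtain ⟨c₀, hn0, hr0, hq0⟩ := ((not_eventually.1 hN2).and_eventually (hP2.and hp2)).exists
  have hG : Measurable (fun x : Z => g (x, c₀ * x)) :=
    hg.comp (measurable_id.prodMk (measurable_id.const_mul c₀))
  have hnorm : (fun x : Z => ‖g (x, c₀ * x)‖) ∘ (fun x => α * x) =ᵐ[lam]
      fun x : Z => ‖g (x, c₀ * x)‖ := by
    filter_upwards [hr0] with x hx0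
    show ‖g (α * x, c₀ * (α * x))‖ = ‖g (x, c₀ * x)‖
    rw [hx0]
    simp [hζ]
  obtain ⟨κ, hκ⟩ := hα.ae_eq_const_of_ae_eq_comp_ae hG.norm.aestronglyMeasurable hnorm
  have hκ0 : κ ≠ 0 := by
    intro h0
    apply hn0
    filter_upwards [hκ] with x hx0
    have : ‖g (x, c₀ * x)‖ = 0 := by rw [hx0, h0]; rfl
    exact norm_eq_zero.1 this
  refine ⟨a, b, c₀, fun x => ((κ : ℂ))⁻¹ * g (x, c₀ * x), hq0, hG.const_mul _, ?_, ?_⟩
  · filter_upwards [hκ] with x hx0
    have hx1 : ‖g (x, c₀ * x)‖ = κ := hx0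
    have hk : 0 ≤ κ := hx1 ▸ norm_nonneg _
    rw [norm_mul, norm_inv, hx1, Complex.norm_real, Real.norm_of_nonneg hk,
      inv_mul_cancel₀ hκ0]
  · filter_upwards [hr0] with x hx0
    show (κ : ℂ)⁻¹ * g (α * x, c₀ * (α * x)) =
      ζ * ((a (φ x) : Circle) : ℂ) * ((b (φ (c₀ * x)) : Circle) : ℂ) * ((κ : ℂ)⁻¹ * g (x, c₀ * x))
    rw [hx0]
    ring

end Pool.Agent.Lib.H82OT
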