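import Pool.Agent.Lib.H82OT.NB2
import Pool.Agent.Lib.H82T.D1
import Pool.Agent.Lib.H82T.T1
import Pool.Agent.Lib.H82T.B3

/-!
# Project H82OT, chunk NB3: the relation with the Kronecker map
-/

open MeasureTheory Filter Topology Finset ProbabilityTheory
open scoped ENNReal ComplexConjugate Matrix

namespace Pool.Agent.Lib.H82OT

open Pool.Agent.Lib.H22M Pool.Agent.Lib.H82T

/-- Proof. Generators: both sides are generated by the preimages under `fst` and `snd` of sets of `ℬ` and of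
sets `P ⁻¹' B`, and by the invariant sets (`MeasurableSpace.comap_sup`, `comap_prodMk`-like lemma, see
`dd_comap_eq` in `H82T/B1.lean`). -/
theorem dd_sup_comap {Y W : Type*} [MeasurableSpace Y] [MeasurableSpace W] (ℬ : MeasurableSpace Y)
    (P : Y → W) (ν : Measure (Y × Y)) (R : Y → Y) :
    DD (ℬ ⊔ MeasurableSpace.comap P inferInstance) ν R =
      MeasurableSpace.comap (fun z : Y × Y => (P z.1, P z.2)) inferInstance ⊔ DD ℬ ν R := by
  have h1 : MeasurableSpace.comap (fun z : Y × Y => (P z.1, P z.2)) inferInstance =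
      MeasurableSpace.comap (P ∘ Prod.fst) inferInstance ⊔
        MeasurableSpace.comap (P ∘ Prod.snd) inferInstance :=
    MeasurableSpace.comap_prodMk (P ∘ Prod.fst) (P ∘ Prod.snd)
  rw [h1]
  unfold DD CC
  rw [MeasurableSpace.comap_sup, MeasurableSpace.comap_sup, MeasurableSpace.comap_comp,
    MeasurableSpace.comap_comp]
  ac_rfl

/-- The same with the σ-algebra `ℬ` before the instance of `Y` (so that `ν` is a measure for the instance). -/
private theorem NB3_sup_comap {Y W : Type*} (ℬ : MeasurableSpace Y) [MeasurableSpace Y]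
    [MeasurableSpace W] (P : Y → W) (ν : Measure (Y × Y)) (R : Y → Y) :
    DD (ℬ ⊔ MeasurableSpace.comap P inferInstance) ν R =
      MeasurableSpace.comap (fun z : Y × Y => (P z.1, P z.2)) inferInstance ⊔ DD ℬ ν R := by
  have h1 : MeasurableSpace.comap (fun z : Y × Y => (P z.1, P z.2)) inferInstance =
      MeasurableSpace.comap (P ∘ Prod.fst) inferInstance ⊔
        MeasurableSpace.comap (P ∘ Prod.snd) inferInstance :=
    MeasurableSpace.comap_prodMk (P ∘ Prod.fst) (P ∘ Prod.snd)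
  rw [h1]
  unfold DD CC
  rw [MeasurableSpace.comap_sup, MeasurableSpace.comap_sup, MeasurableSpace.comap_comp,
    MeasurableSpace.comap_comp]
  ac_rfl

/-- Proof. By `dd_sup_comap` and `exists_char_ne_zero` (`H82T/FM.lean`, with the sub-σ-algebra
`DD (comap (π, u)) ν R` and `w z = (P z.1, P z.2) : W × W`) there are a character `χ` of `W × W` and
`A` in `DD ℬ₀` with `∫_A h χ(w) dν ≠ 0`. `h' = h * χ(w)` satisfies `h' ∘ (R × R) = ζ χ(c, c) h'` a.e.
(`hk.equi` and the marginals of `ν`). Let `g` be its version from `exists_eigen_version`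
(`H82T/CV.lean`, `𝒜 = DD ℬ₀ ν R`, invariant under `sqE R` by `DD_comap` and `base_comap`): bounded,
`DD ℬ₀`-measurable, `g ∘ (R × R) = ζ χ(c,c) g` a.e., and not a.e. `0` since `∫_A g = ∫_A h' ≠ 0`. Apply
`exists_relation_G` to `g` with `ζ χ(c, c)`. `l = χ(c, c)` is an eigenvalue of `R` with eigenfunction
`y ↦ χ (P y, P y)`. (`hα, hα1`: `ergodic_rotation`, `rotation_char_ne_one` in `H82T/B3.lean`.) -/
theorem exists_relation_kron {Y Z G W : Type*} [MeasurableSpace Y] {m : Measure Y}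
    [IsProbabilityMeasure m] [MeasurableSpace Circle] [BorelSpace Circle]
    [CommGroup Z] [TopologicalSpace Z] [IsTopologicalGroup Z]
    [CompactSpace Z] [T2Space Z] [SecondCountableTopology Z] [MeasurableSpace Z] [BorelSpace Z]
    [CommGroup G] [TopologicalSpace G] [IsTopologicalGroup G]
    [CompactSpace G] [T2Space G] [SecondCountableTopology G] [MeasurableSpace G] [BorelSpace G]
    [CommGroup W] [TopologicalSpace W] [IsTopologicalGroup W]
    [CompactSpace W] [T2Space W] [SecondCountableTopology W] [MeasurableSpace W] [BorelSpace W]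
    (lam : Measure Z) [lam.IsHaarMeasure] [IsProbabilityMeasure lam]
    (R : Y ≃ᵐ Y) (hR : Ergodic R m) (π : Y → Z) (hπ : MeasurePreserving π m lam) (α : Z)
    (hπR : ∀ y, π (R y) = α * π y)
    (u : Y → G) (hu : Measurable u) (φ : Z → G) (hφ : Measurable φ)
    (huR : ∀ y, u (R y) = φ (π y) * u y) (P : Y → W) (c : W) (hk : Kron m R P c)
    (ν : Measure (Y × Y)) (hν : IsSelf m R ν) (p : ℕ)
    (hp : ∀ᵐ z ∂ν, (π z.2 / π z.1) ^ p = 1) (ζ : ℂ) (hζ : ‖ζ‖ = 1) (h : Y × Y → ℂ)
    (hh : Measurable[DD (MeasurableSpace.comap (fun y => (π y, u y)) inferInstance ⊔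
      MeasurableSpace.comap P inferInstance) ν R] h)
    (hb : ∃ C : ℝ, ∀ᵐ z ∂ν, ‖h z‖ ≤ C) (hhR : ∀ᵐ z ∂ν, h (Prod.map R R z) = ζ * h z)
    (hne : ¬ ∀ᵐ z ∂ν, h z = 0) :
    ∃ (a b : PontryaginDual G) (c₀ : Z) (l : ℂ) (β : Z → ℂ), c₀ ^ p = 1 ∧ IsEigenvalue m R l ∧
      Measurable β ∧ (∀ᵐ z ∂lam, ‖β z‖ = 1) ∧
      ∀ᵐ z ∂lam, β (α * z) =
        ζ * l * ((a (φ z) : Circle) : ℂ) * ((b (φ (c₀ * z)) : Circle) : ℂ) * β z := by
  classical
  have hprob := hν.prob
  have hα : Ergodic (fun z => α * z) lam := ergodic_rotation hR hπ hπR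
  have hα1 : ∀ χ : PontryaginDual Z, χ ≠ 1 → ((χ α : Circle) : ℂ) ≠ 1 :=
    fun χ hχ => rotation_char_ne_one lam hα χ hχ
  have hπm := hπ.measurable
  have hvm : Measurable (fun y => (π y, u y)) := hπm.prodMk hu
  have hPm : Measurable P := hk.meas
  have hh' : Measurable[MeasurableSpace.comap (fun z : Y × Y => (P z.1, P z.2)) inferInstance ⊔
      DD (MeasurableSpace.comap (fun y => (π y, u y)) inferInstance) ν R] h := by
    rw [← NB3_sup_comap]
    exact hh
  have hDle : DD (MeasurableSpace.comap (fun y => (π y, u y)) inferInstance) ν R ≤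
      (inferInstance : MeasurableSpace (Y × Y)) := DD_le _ ν R hvm.comap_le
  have hPPm : Measurable (fun z : Y × Y => (P z.1, P z.2)) :=
    (hPm.comp measurable_fst).prodMk (hPm.comp measurable_snd)
  obtain ⟨χ, A, hA, hint⟩ := exists_char_ne_zero
    (DD (MeasurableSpace.comap (fun y => (π y, u y)) inferInstance) ν R) ν hDle
    (fun z : Y × Y => (P z.1, P z.2)) hPPm h hh' hb hne
  have hhm : Measurable h := hh'.mono (sup_le hPPm.comap_le hDle) le_rfl
  have hχm : Measurable fun x : W × W => ((χ x : Circle) : ℂ) :=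
    (continuous_subtype_val.comp (map_continuous χ)).measurable
  obtain ⟨C₀, hC₀⟩ := hb
  obtain ⟨C, hCC, hC0⟩ : ∃ C : ℝ, C₀ ≤ C ∧ 0 ≤ C := ⟨max C₀ 0, le_max_left _ _, le_max_right _ _⟩
  set k : Y × Y → ℂ := fun z => h z * ((χ (P z.1, P z.2) : Circle) : ℂ) with hk'
  have hkm : Measurable k := hhm.mul (hχm.comp hPPm)
  have hkC : ∀ᵐ z ∂ν, ‖k z‖ ≤ C := by
    filter_upwards [hC₀] with z hz
    simp only [hk', norm_mul, Circle.norm_coe, mul_one]
    exact hz.trans hCC
  have q1 : ∀ᵐ z ∂ν, P (R z.1) = c * P z.1 := by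
    refine ae_of_ae_map (f := Prod.fst) measurable_fst.aemeasurable
      (p := fun y => P (R y) = c * P y) ?_
    rw [hν.fst]
    exact hk.equi
  have q2 : ∀ᵐ z ∂ν, P (R z.2) = c * P z.2 := by
    refine ae_of_ae_map (f := Prod.snd) measurable_snd.aemeasurable
      (p := fun y => P (R y) = c * P y) ?_
    rw [hν.snd]
    exact hk.equi
  have hkR : ∀ᵐ z ∂ν, k (sqE R z) = (ζ * ((χ (c, c) : Circle) : ℂ)) * k z := by
    filter_upwards [hhR, q1, q2] with z hz h1 h2
    have e1 : k (sqE R z) = h (Prod.map R R z) * ((χ (P (R z.1), P (R z.2)) : Circle) : ℂ) := rfl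
    have e2 : ((c * P z.1, c * P z.2) : W × W) = (c, c) * (P z.1, P z.2) := rfl
    rw [e1, hz, h1, h2, e2, map_mul, Circle.coe_mul]
    simp only [hk']
    ring
  have hinv : (DD (MeasurableSpace.comap (fun y => (π y, u y)) inferInstance) ν R).comap (sqE R) =
      DD (MeasurableSpace.comap (fun y => (π y, u y)) inferInstance) ν R :=
    DD_comap _ ν R hν.inv (base_comap R π α hπR u φ hφ huR)
  obtain ⟨g, g1, g2, -, g3, g4⟩ := exists_eigen_version
    (DD (MeasurableSpace.comap (fun y => (π y, u y)) inferInstance) ν R) ν hDle (sqE R) hν.inv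
    hinv k hkm C hC0 hkC _ hkR
  have hζ' : ‖ζ * ((χ (c, c) : Circle) : ℂ)‖ = 1 := by
    rw [norm_mul, hζ, Circle.norm_coe, one_mul]
  have hAm : MeasurableSet A := hDle _ hA
  have hgne : ¬ ∀ᵐ z ∂ν, g z = 0 := by
    intro h0
    apply hint
    have i1 := g4 (A.indicator fun _ => (1 : ℂ)) ((measurable_const (a := (1 : ℂ))).indicator hA)
      ⟨1, Eventually.of_forall fun ω => by
        by_cases hω : ω ∈ A
        · simp [hω]
        · simp [hω]⟩
    have i2 : ∫ ω, A.indicator (fun _ => (1 : ℂ)) ω * g ω ∂ν = 0 := by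
      refine integral_eq_zero_of_ae ?_
      filter_upwards [h0] with ω hω
      rw [hω, mul_zero]
      rfl
    have i3 : ∫ ω, A.indicator (fun _ => (1 : ℂ)) ω * k ω ∂ν = ∫ ω in A, k ω ∂ν := by
      rw [← integral_indicator hAm]
      refine integral_congr_ae (Eventually.of_forall fun ω => ?_)
      by_cases hω : ω ∈ A
      · simp [hω]
      · simp [hω]
    rw [i2, i3] at i1
    exact i1
  obtain ⟨a, b, c₀, β, hc₀, hβ, hβ1, hrel⟩ := exists_relation_G lam R π hπm α hα hα1 hπR u hu φ hφ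
    huR ν hν.inv p hp (ζ * ((χ (c, c) : Circle) : ℂ)) hζ' g g1
    ⟨C, Eventually.of_forall g2⟩ g3 hgne
  refine ⟨a, b, c₀, ((χ (c, c) : Circle) : ℂ), β, hc₀, ?_, hβ, hβ1, hrel⟩
  refine ⟨fun y => ((χ (P y, P y) : Circle) : ℂ), hχm.comp (hPm.prodMk hPm),
    Eventually.of_forall fun y => Circle.norm_coe _, ?_⟩
  filter_upwards [hk.equi] with y hy
  have e2 : ((c * P y, c * P y) : W × W) = (c, c) * (P y, P y) := rfl
  rw [hy, e2, map_mul, Circle.coe_mul]

end Pool.Agent.Lib.H82OT
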