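import Pool.Agent.Lib.H82OT.Defs
import Pool.Agent.Lib.H82T.NR2

/-!
# Project H82OT, chunk NB4: no relation if the product character is cohomologous to a constant
-/

open MeasureTheory Filter Topology Finset ProbabilityTheory
open scoped ENNReal ComplexConjugate Matrix

namespace Pool.Agent.Lib.H82OT

open Pool.Agent.Lib.H22M Pool.Agent.Lib.H82T

/-- Reindexing a periodic product. -/
theorem nb4_reindex {C : Type*} [CommGroup C] (x : ℕ → C) (p : ℕ) (h : x p = x 0) :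
    ∏ i ∈ range p, x (i + 1) = ∏ i ∈ range p, x i := by
  have h1 := prod_range_succ x p
  rw [prod_range_succ' x p, h] at h1
  exact mul_right_cancel h1

/-- The algebraic identity behind `no_relation_coh_G`, one factor. -/
theorem nb4_alg (k l' x y β B : ℂ) (hx : x ≠ 0) (hy : y ≠ 0) (hl : l' ≠ 0) (M : ℕ) :
    (k * x * y * β) ^ M * (l' * (x * y) ^ M * B)⁻¹ =
      k ^ M * l'⁻¹ * (β ^ M * B⁻¹) := by
  have hx' : x ^ M ≠ 0 := pow_ne_zero _ hx
  have hy' : y ^ M ≠ 0 := pow_ne_zero _ hy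
  rw [mul_inv, mul_inv, mul_pow, mul_pow, mul_pow, mul_pow, mul_inv]
  have e1 : x ^ M * (x ^ M)⁻¹ = 1 := mul_inv_cancel₀ hx'
  have e2 : y ^ M * (y ^ M)⁻¹ = 1 := mul_inv_cancel₀ hy'
  generalize (x ^ M)⁻¹ = X' at *
  generalize (y ^ M)⁻¹ = Y' at *
  generalize x ^ M = X at *
  generalize y ^ M = Y at *
  generalize B⁻¹ = B' at *
  generalize l'⁻¹ = l1 at *
  linear_combination (k ^ M * β ^ M * l1 * B' * Y * Y') * e1 + (k ^ M * β ^ M * l1 * B') * e2

/-- Proof. Let `ψ = (a * b) ∘ φ` and `B` with `B (α z) = l' ψ(z)^M B z` (`Coh`). Put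
`β' z = ∏_{i<p} β(c₀^i z)`: by `hrel` at the points `c₀^i z` (Haar measure is invariant) and `c₀^p = 1`
(reindexing the product of the `b (φ (c₀^{i+1} z))`), `β' (α z) = (ζ l)^p ∏_{i<p} ψ(c₀^i z) β' z` a.e. (compare
`shift_prod` in `H82T/NR.lean`). Then `f z = β'(z)^M ∏_{i<p} (B (c₀^i z))⁻¹` has modulus one a.e. and
`f (α z) = (ζ l)^{pM} (l'⁻¹)^p f z`, so `(ζ l)^{pM} (l'⁻¹)^p` is an eigenvalue of the rotation, hence in `E`;
`E` is a group containing `l, l'`, so `ζ^{pM} ∈ E`, a root of unity (`ζ^q = 1`), hence `ζ^{pM} = 1`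
(`hroot`); `pM` is coprime to `q` (`q ≠ p`, `0 < M < q`), so `ζ = 1` (`eq_one_of_coprime` in
`H82T/NR.lean`), contradiction. -/
theorem no_relation_coh_G {Z G : Type*} [CommGroup Z] [MeasurableSpace Z] [MeasurableMul Z]
    [CommGroup G] [TopologicalSpace G] [MeasurableSpace G]
    (lam : Measure Z) [IsProbabilityMeasure lam] [lam.IsMulLeftInvariant] (α : Z)
    (φ : Z → G) (E : ℂ → Prop) (hE : ∀ c, IsEigenvalue lam (fun z => α * z) c → E c)
    (hEmul : ∀ c d, E c → E d → E (c * d)) (hEinv : ∀ c, E c → E c⁻¹)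
    (hroot : ∀ c, E c → ∀ n : ℕ, 1 ≤ n → c ^ n = 1 → c = 1)
    (a b : PontryaginDual G)
    (M : ℕ) (hM : 1 ≤ M) (l l' : ℂ) (hl : E l) (hl' : E l')
    (hcoh : Coh lam α (fun z => (a * b) (φ z)) M l')
    (p q : ℕ) (hp : p.Prime) (hq : q.Prime) (hqp : q ≠ p) (hqM : M < q)
    (c₀ : Z) (hc₀ : c₀ ^ p = 1) (ζ : ℂ) (hζ : ζ ^ q = 1) (hζ1 : ζ ≠ 1) (β : Z → ℂ)
    (hβ : Measurable β) (hβ1 : ∀ᵐ z ∂lam, ‖β z‖ = 1)
    (h : ∀ᵐ z ∂lam, β (α * z) =
      ζ * l * ((a (φ z) : Circle) : ℂ) * ((b (φ (c₀ * z)) : Circle) : ℂ) * β z) : False := by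
  obtain ⟨B, hB, hB1, hBe⟩ := hcoh
  have hl'0 : l' ≠ 0 := by
    intro hl0
    have hα : MeasurePreserving (fun z => α * z) lam lam := measurePreserving_mul_left lam α
    have hB1α := hα.quasiMeasurePreserving.ae hB1
    obtain ⟨z, h1, h2⟩ := (hB1α.and hBe).exists
    rw [h2, hl0] at h1
    simp at h1
  have hl0 : l ≠ 0 := by
    intro hl0
    have hα : MeasurePreserving (fun z => α * z) lam lam := measurePreserving_mul_left lam α
    have hβ1α := hα.quasiMeasurePreserving.ae hβ1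
    obtain ⟨z, h1, h2⟩ := (hβ1α.and h).exists
    rw [h2, hl0] at h1
    simp at h1
  have hcomm : ∀ (i : ℕ) (z : Z), c₀ ^ i * (α * z) = α * (c₀ ^ i * z) := fun i z =>
    mul_left_comm _ _ _
  have hmp : ∀ i : ℕ, MeasurePreserving (fun z => c₀ ^ i * z) lam lam := fun i =>
    measurePreserving_mul_left lam (c₀ ^ i)
  have hhi : ∀ᵐ z ∂lam, ∀ i : ℕ, β (c₀ ^ i * (α * z)) =
      ζ * l * ((a (φ (c₀ ^ i * z)) : Circle) : ℂ) * ((b (φ (c₀ ^ (i + 1) * z)) : Circle) : ℂ) *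
        β (c₀ ^ i * z) := by
    refine ae_all_iff.mpr fun i => ?_
    filter_upwards [(hmp i).quasiMeasurePreserving.ae h] with z hz
    have h4 : c₀ * (c₀ ^ i * z) = c₀ ^ (i + 1) * z := by
      rw [← mul_assoc, pow_succ' c₀ i]
    rw [hcomm, hz, h4]
  have hBi : ∀ᵐ z ∂lam, ∀ i : ℕ, B (c₀ ^ i * (α * z)) =
      l' * (((a (φ (c₀ ^ i * z)) : Circle) : ℂ) * ((b (φ (c₀ ^ i * z)) : Circle) : ℂ)) ^ M *
        B (c₀ ^ i * z) := by
    refine ae_all_iff.mpr fun i => ?_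
    filter_upwards [(hmp i).quasiMeasurePreserving.ae hBe] with z hz
    rw [hcomm, hz]
    rfl
  have hβ1i : ∀ᵐ z ∂lam, ∀ i : ℕ, ‖β (c₀ ^ i * z)‖ = 1 :=
    ae_all_iff.mpr fun i => (hmp i).quasiMeasurePreserving.ae hβ1
  have hB1i : ∀ᵐ z ∂lam, ∀ i : ℕ, ‖B (c₀ ^ i * z)‖ = 1 :=
    ae_all_iff.mpr fun i => (hmp i).quasiMeasurePreserving.ae hB1
  have hγ : IsEigenvalue lam (fun z => α * z) (((ζ * l) ^ M * l'⁻¹) ^ p) := by
    refine ⟨fun z => ∏ i ∈ range p, (β (c₀ ^ i * z) ^ M * (B (c₀ ^ i * z))⁻¹), ?_, ?_, ?_⟩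
    · refine Finset.measurable_prod _ fun i _ => ?_
      exact ((hβ.comp (measurable_const_mul _)).pow_const M).mul
        ((hB.comp (measurable_const_mul _)).inv)
    · filter_upwards [hβ1i, hB1i] with z h1 h2
      rw [norm_prod]
      refine prod_eq_one fun i _ => ?_
      rw [norm_mul, norm_pow, norm_inv, h1 i, h2 i]
      simp
    · filter_upwards [hhi, hBi] with z h1 h2
      have hre : ∏ i ∈ range p, ((b (φ (c₀ ^ (i + 1) * z)) : Circle) : ℂ) =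
          ∏ i ∈ range p, ((b (φ (c₀ ^ i * z)) : Circle) : ℂ) := by
        have h3 := nb4_reindex (fun i => b (φ (c₀ ^ i * z))) p (by
          show b (φ (c₀ ^ p * z)) = b (φ (c₀ ^ 0 * z))
          rw [hc₀, pow_zero])
        have h4 := congrArg (fun w : Circle => (w : ℂ)) h3
        have h5 : ∀ y : ℕ → Circle, ((∏ i ∈ range p, y i : Circle) : ℂ) =
            ∏ i ∈ range p, (y i : ℂ) := fun y => map_prod Circle.coeHom y (range p)
        simpa only [h5] using h4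
      show ∏ i ∈ range p, (β (c₀ ^ i * (α * z)) ^ M * (B (c₀ ^ i * (α * z)))⁻¹) = _
      rw [prod_mul_distrib, prod_pow, prod_inv_distrib]
      have e1 : ∏ i ∈ range p, β (c₀ ^ i * (α * z)) =
          ∏ i ∈ range p, (ζ * l * ((a (φ (c₀ ^ i * z)) : Circle) : ℂ) *
            ((b (φ (c₀ ^ i * z)) : Circle) : ℂ) * β (c₀ ^ i * z)) := by
        rw [prod_congr rfl fun i _ => h1 i, prod_mul_distrib, prod_mul_distrib, hre,
          ← prod_mul_distrib, ← prod_mul_distrib]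
      rw [e1, prod_congr rfl fun i _ => h2 i, ← prod_pow, ← prod_inv_distrib, ← prod_mul_distrib]
      have e2 : ∀ i ∈ range p, (ζ * l * ((a (φ (c₀ ^ i * z)) : Circle) : ℂ) *
            ((b (φ (c₀ ^ i * z)) : Circle) : ℂ) * β (c₀ ^ i * z)) ^ M *
          (l' * (((a (φ (c₀ ^ i * z)) : Circle) : ℂ) * ((b (φ (c₀ ^ i * z)) : Circle) : ℂ)) ^ M *
            B (c₀ ^ i * z))⁻¹ =
          ((ζ * l) ^ M * l'⁻¹) * (β (c₀ ^ i * z) ^ M * (B (c₀ ^ i * z))⁻¹) := fun i _ =>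
        nb4_alg _ _ _ _ _ _ (Circle.coe_ne_zero _) (Circle.coe_ne_zero _) hl'0 M
      rw [prod_congr rfl e2, prod_mul_distrib, prod_const, card_range]
  have hE1 : E 1 := by
    refine hE 1 ⟨fun _ => 1, measurable_const, ?_, ?_⟩
    · exact Eventually.of_forall fun _ => by simp
    · exact Eventually.of_forall fun _ => by simp
  have hEn : ∀ c : ℂ, E c → ∀ n : ℕ, E (c ^ n) := by
    intro c hc n
    induction n with
    | zero => simpa using hE1
    | succ n ih => rw [pow_succ]; exact hEmul _ _ ih hc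
  have hEζ : E (ζ ^ (M * p)) := by
    have h5 := hEmul _ _ (hEmul _ _ (hE _ hγ) (hEn _ hl' p)) (hEinv _ (hEn _ hl (M * p)))
    have h6 : ((ζ * l) ^ M * l'⁻¹) ^ p * l' ^ p * (l ^ (M * p))⁻¹ = ζ ^ (M * p) := by
      have h7 : l ^ (M * p) ≠ 0 := pow_ne_zero _ hl0
      have h8 : l' ^ p ≠ 0 := pow_ne_zero _ hl'0
      rw [mul_pow, ← pow_mul, mul_pow, inv_pow]
      field_simp
    rwa [h6] at h5
  have h7 : ζ ^ (M * p) = 1 := by
    refine hroot _ hEζ q hq.one_le ?_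
    rw [← pow_mul, mul_comm, pow_mul, hζ, one_pow]
  have h8 : orderOf ζ ∣ Nat.gcd q (M * p) :=
    Nat.dvd_gcd (orderOf_dvd_of_pow_eq_one hζ) (orderOf_dvd_of_pow_eq_one h7)
  have h9 : Nat.gcd q (M * p) = 1 := by
    have h10 : Nat.Coprime q M :=
      (Nat.Prime.coprime_iff_not_dvd hq).2 fun hd => absurd (Nat.le_of_dvd (by omega) hd) (by omega)
    exact Nat.Coprime.mul_right h10 ((Nat.coprime_primes hq hp).mpr hqp)
  rw [h9, Nat.dvd_one, orderOf_eq_one_iff] at h8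
  exact hζ1 h8

end Pool.Agent.Lib.H82OT
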