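import Pool.Agent.Lib.H82OT.Defs
import Pool.Agent.Lib.H82T.CR
import Pool.Agent.Lib.H82T.B3

/-!
# Project H82OT, chunk NB5: uniform exponent
-/

open MeasureTheory Filter Topology Finset ProbabilityTheory
open scoped ENNReal ComplexConjugate Matrix

namespace Pool.Agent.Lib.H82OT

open Pool.Agent.Lib.H22M Pool.Agent.Lib.H82T

/-- The coordinate characters of the torus. -/
private noncomputable def NB5_coord (r : ℕ) (i : Fin r) : PontryaginDual (Fin r → Circle) :=
  (⟨Pi.evalMonoidHom (fun _ : Fin r => Circle) i, continuous_apply i⟩ :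
    (Fin r → Circle) →ₜ* Circle)

/-- The restriction of a character of the torus to a coordinate circle. -/
private noncomputable def NB5_single (r : ℕ) (ψ : PontryaginDual (Fin r → Circle)) (i : Fin r) :
    PontryaginDual Circle :=
  (⟨(ψ : (Fin r → Circle) →* Circle).comp (MonoidHom.mulSingle (fun _ : Fin r => Circle) i),
    (map_continuous ψ).comp (continuous_mulSingle (A := fun _ : Fin r => Circle) i)⟩ :
      Circle →ₜ* Circle)

/-- Evaluation of characters. -/
private noncomputable def NB5_eval {A : Type*} [CommGroup A] [TopologicalSpace A] (w : A) :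
    PontryaginDual A →* Circle where
  toFun ψ := ψ w
  map_one' := rfl
  map_mul' _ _ := rfl

/-- Proof. A character `χ` of the torus `Fin r → Circle` is `χ w = ∏_i χ (Pi.mulSingle i (w i)) =
∏_i (w i) ^ k_i` (`circle_char` in `H82T/CR.lean` for the continuous homomorphism
`t ↦ χ (Pi.mulSingle i t)`), so the dual group is generated by the `r` coordinate characters
(`Subgroup.closure` of a finite set, e.g. `Group.FG` via a surjection from
`Multiplicative (Fin r → ℤ)`). -/
theorem torus_dual_gen (r : ℕ) : ∃ s : Finset (PontryaginDual (Fin r → Circle)),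
    s.card ≤ r ∧ Subgroup.closure (s : Set (PontryaginDual (Fin r → Circle))) = ⊤ := by
  classical
  refine ⟨Finset.univ.image (fun i : Fin r => NB5_coord r i), ?_, ?_⟩
  · exact Finset.card_image_le.trans (by simp)
  · rw [eq_top_iff]
    intro ψ _
    have h1 : ∀ i : Fin r, ∃ k : ℤ, ∀ t : Circle, ψ (Pi.mulSingle i t) = t ^ k := by
      intro i
      obtain ⟨k, hk⟩ := circle_char (NB5_single r ψ i)
      exact ⟨k, fun t => hk t⟩
    choose k hk using h1
    have h2 : ψ = ∏ i : Fin r, (NB5_coord r i) ^ (k i) := by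
      ext w
      have h3 : (∏ i : Fin r, (NB5_coord r i) ^ (k i)) w = ∏ i : Fin r, (w i) ^ (k i) := by
        have h4 := map_prod (NB5_eval w) (fun i : Fin r => (NB5_coord r i) ^ (k i)) Finset.univ
        have h5 : ∀ i : Fin r, NB5_eval w ((NB5_coord r i) ^ (k i)) = (w i) ^ (k i) := by
          intro i
          rw [map_zpow]
          rfl
        calc (∏ i : Fin r, (NB5_coord r i) ^ (k i)) w
            = NB5_eval w (∏ i : Fin r, (NB5_coord r i) ^ (k i)) := rfl
          _ = ∏ i : Fin r, NB5_eval w ((NB5_coord r i) ^ (k i)) := h4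
          _ = ∏ i : Fin r, (w i) ^ (k i) := Finset.prod_congr rfl fun i _ => h5 i
      rw [h3]
      conv_lhs => rw [← Finset.univ_prod_mulSingle w]
      rw [map_prod]
      congr 1
      exact Finset.prod_congr rfl fun i _ => hk i (w i)
    rw [h2]
    refine Subgroup.prod_mem _ fun i _ => Subgroup.zpow_mem _ (Subgroup.subset_closure ?_) _
    simp

/-- The constant is an eigenvalue of `R`. Proof. `f y = conj ((χ (u y))^M) * B (π y)`, as in the proof of
`noRoot_base` in `H82T/B3.lean`. -/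
theorem coh_eigenvalue {Y Z G : Type*} [MeasurableSpace Y] {m : Measure Y}
    [MeasurableSpace Circle] [BorelSpace Circle] [Mul Z] [MeasurableSpace Z]
    [CommGroup G] [TopologicalSpace G] [MeasurableSpace G] [BorelSpace G]
    (lam : Measure Z) {R : Y → Y} (π : Y → Z) (hπ : MeasurePreserving π m lam) (α : Z)
    (hπR : ∀ y, π (R y) = α * π y) (u : Y → G) (hu : Measurable u) (φ : Z → G)
    (huR : ∀ y, u (R y) = φ (π y) * u y) (χ : PontryaginDual G) (M : ℕ) (l : ℂ)
    (h : Coh lam α (fun z => χ (φ z)) M l) : IsEigenvalue m R l := by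
  obtain ⟨B, hB, hB1, hBe⟩ := h
  have hχu : Measurable fun y => χ (u y) := (map_continuous χ).measurable.comp hu
  refine ⟨fun y => conj ((χ (u y) : ℂ) ^ M) * B (π y), ?_, ?_, ?_⟩
  · have hcoe : Continuous fun c : Circle => (c : ℂ) := by fun_prop
    exact (Complex.continuous_conj.measurable.comp
      ((hcoe.measurable.comp hχu).pow_const M)).mul (hB.comp hπ.measurable)
  · filter_upwards [hπ.quasiMeasurePreserving.ae hB1] with y hy
    rw [norm_mul, RCLike.norm_conj, norm_pow, Circle.norm_coe, one_pow, one_mul, hy]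
  · filter_upwards [hπ.quasiMeasurePreserving.ae hBe] with y hy
    have hφ1 : conj (χ (φ (π y)) : ℂ) * (χ (φ (π y)) : ℂ) = 1 := by
      rw [mul_comm, Complex.mul_conj, Complex.normSq_eq_norm_sq, Circle.norm_coe]
      simp
    have hφM : conj (χ (φ (π y)) : ℂ) ^ M * (χ (φ (π y)) : ℂ) ^ M = 1 := by
      rw [← mul_pow, hφ1, one_pow]
    rw [huR, hπR, hy, map_mul, Circle.coe_mul, mul_pow, map_mul, map_pow, map_pow]
    linear_combination (l * conj (χ (u y) : ℂ) ^ M * B (π y)) * hφM

private theorem NB5_coh_one {Z G : Type*} [CommGroup Z] [MeasurableSpace Z]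
    [CommGroup G] [TopologicalSpace G] (lam : Measure Z) (α : Z) (φ : Z → G) (M : ℕ) :
    Coh lam α (fun z => (1 : PontryaginDual G) (φ z)) M 1 := by
  refine ⟨fun _ => 1, measurable_const, Eventually.of_forall fun z => by simp,
    Eventually.of_forall fun z => ?_⟩
  have h1 : (1 : PontryaginDual G) (φ z) = 1 := rfl
  simp [h1]

private theorem NB5_coh_mul {Z G : Type*} [CommGroup Z] [MeasurableSpace Z]
    [CommGroup G] [TopologicalSpace G] (lam : Measure Z) (α : Z) (φ : Z → G) {M : ℕ}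
    {a b : PontryaginDual G} {l l' : ℂ} (h : Coh lam α (fun z => a (φ z)) M l)
    (h' : Coh lam α (fun z => b (φ z)) M l') :
    Coh lam α (fun z => (a * b) (φ z)) M (l * l') := by
  obtain ⟨B, hB, hB1, hBe⟩ := h
  obtain ⟨B', hB', hB1', hBe'⟩ := h'
  refine ⟨fun z => B z * B' z, hB.mul hB', ?_, ?_⟩
  · filter_upwards [hB1, hB1'] with z h1 h2
    rw [norm_mul, h1, h2, one_mul]
  · filter_upwards [hBe, hBe'] with z h1 h2
    have h3 : (a * b) (φ z) = a (φ z) * b (φ z) := rfl
    rw [h1, h2, h3, Circle.coe_mul, mul_pow]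
    ring

private theorem NB5_coh_pow {Z G : Type*} [CommGroup Z] [MeasurableSpace Z]
    [CommGroup G] [TopologicalSpace G] (lam : Measure Z) (α : Z) (φ : Z → G) {M : ℕ} (k : ℕ)
    {a : PontryaginDual G} {l : ℂ} (h : Coh lam α (fun z => a (φ z)) M l) :
    Coh lam α (fun z => a (φ z)) (M * k) (l ^ k) := by
  obtain ⟨B, hB, hB1, hBe⟩ := h
  refine ⟨fun z => B z ^ k, hB.pow_const k, ?_, ?_⟩
  · filter_upwards [hB1] with z h1
    rw [norm_pow, h1, one_pow]
  · filter_upwards [hBe] with z h1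
    rw [h1, mul_pow, mul_pow, pow_mul]

private theorem NB5_coh_inv {Z G : Type*} [CommGroup Z] [MeasurableSpace Z]
    [CommGroup G] [TopologicalSpace G] (lam : Measure Z) (α : Z) (φ : Z → G) {M : ℕ}
    {a : PontryaginDual G} {l : ℂ} (h : Coh lam α (fun z => a (φ z)) M l) :
    Coh lam α (fun z => a⁻¹ (φ z)) M l⁻¹ := by
  obtain ⟨B, hB, hB1, hBe⟩ := h
  refine ⟨fun z => (B z)⁻¹, hB.inv, ?_, ?_⟩
  · filter_upwards [hB1] with z h1
    rw [norm_inv, h1, inv_one]
  · filter_upwards [hBe] with z h1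
    have h3 : a⁻¹ (φ z) = (a (φ z))⁻¹ := rfl
    rw [h1, h3, Circle.coe_inv, inv_pow, mul_inv, mul_inv]

/-- Proof. `N = {a | ∃ M ≥ 1, ∃ l, Coh (a ∘ φ) M l}` is a subgroup of the dual group (products: raise to the
powers `M' ` and `M`: `Coh ψ M l` implies `Coh ψ (M k) (l^k)` with `B^k`; inverses: `B⁻¹`, `l⁻¹`; here
`‖l‖ = 1` or at least `l ≠ 0` because `‖B‖ = 1` a.e.). The dual group is finitely generated abelian, so `N`
is finitely generated (`hs`; `Subgroup.fg` of a commutative finitely generated group: via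
`Module.Finite ℤ`, `IsNoetherian`, `Submodule.FG`), by `a_1, …, a_k` with exponents `M_i`; `M₁ = ∏ M_i`
works for all elements of `N`. -/
theorem exists_uniform_exponent {Z G : Type*} [CommGroup Z] [MeasurableSpace Z]
    [CommGroup G] [TopologicalSpace G] [MeasurableSpace G]
    (lam : Measure Z) [IsProbabilityMeasure lam] (α : Z) (φ : Z → G)
    (s : Finset (PontryaginDual G))
    (hs : Subgroup.closure (s : Set (PontryaginDual G)) = ⊤) :
    ∃ M₁ : ℕ, 1 ≤ M₁ ∧ ∀ a : PontryaginDual G,
      (∃ (M : ℕ) (l : ℂ), 1 ≤ M ∧ Coh lam α (fun z => a (φ z)) M l) →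
        ∃ l : ℂ, Coh lam α (fun z => a (φ z)) M₁ l := by
  classical
  -- the subgroup of all exponents
  let N : Subgroup (PontryaginDual G) :=
    { carrier := {a | ∃ (M : ℕ) (l : ℂ), 1 ≤ M ∧ Coh lam α (fun z => a (φ z)) M l}
      one_mem' := ⟨1, 1, le_refl 1, NB5_coh_one lam α φ 1⟩
      mul_mem' := by
        rintro a b ⟨M, l, hM, h⟩ ⟨M', l', hM', h'⟩
        refine ⟨M * M', l ^ M' * l' ^ M, Nat.mul_pos hM hM', ?_⟩
        exact NB5_coh_mul lam α φ (NB5_coh_pow lam α φ M' h)
          (by rw [Nat.mul_comm]; exact NB5_coh_pow lam α φ M h')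
      inv_mem' := by
        rintro a ⟨M, l, hM, h⟩
        exact ⟨M, l⁻¹, hM, NB5_coh_inv lam α φ h⟩ }
  have hfg : N.FG := by
    have h1 : Group.FG (PontryaginDual G) := ⟨⟨s, hs⟩⟩
    have h2 : AddGroup.FG (Additive (PontryaginDual G)) := inferInstance
    have h3 : Module.Finite ℤ (Additive (PontryaginDual G)) := Module.Finite.iff_addGroup_fg.2 h2
    have h4 : IsNoetherian ℤ (Additive (PontryaginDual G)) :=
      isNoetherian_of_isNoetherianRing_of_finite ℤ _
    rw [Subgroup.fg_iff_add_fg]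
    have h5 := h4.noetherian (AddSubgroup.toIntSubmodule N.toAddSubgroup)
    rw [Submodule.fg_iff_addSubgroup_fg] at h5
    exact h5
  obtain ⟨t, ht⟩ := hfg
  have h6 : ∀ a ∈ t, ∃ (M : ℕ) (l : ℂ), 1 ≤ M ∧ Coh lam α (fun z => a (φ z)) M l := by
    intro a ha
    have h7 : a ∈ N := by rw [← ht]; exact Subgroup.subset_closure ha
    exact h7
  choose! M l hM hMl using h6
  refine ⟨∏ a ∈ t, M a, Nat.one_le_iff_ne_zero.2 (Finset.prod_ne_zero_iff.2 fun a ha =>
    Nat.one_le_iff_ne_zero.1 (hM a ha)), ?_⟩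
  -- the subgroup with the common exponent
  let K : Subgroup (PontryaginDual G) :=
    { carrier := {a | ∃ l : ℂ, Coh lam α (fun z => a (φ z)) (∏ a ∈ t, M a) l}
      one_mem' := ⟨1, NB5_coh_one lam α φ _⟩
      mul_mem' := by
        rintro a b ⟨l, h⟩ ⟨l', h'⟩
        exact ⟨l * l', NB5_coh_mul lam α φ h h'⟩
      inv_mem' := by
        rintro a ⟨l, h⟩
        exact ⟨l⁻¹, NB5_coh_inv lam α φ h⟩ }
  have hNK : N ≤ K := by
    rw [← ht, Subgroup.closure_le]
    intro a ha
    obtain ⟨k, hk⟩ := Finset.dvd_prod_of_mem M ha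
    refine ⟨l a ^ k, ?_⟩
    rw [hk]
    exact NB5_coh_pow lam α φ k (hMl a ha)
  intro a ha
  exact hNK ha

end Pool.Agent.Lib.H82OT
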