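import Pool.Agent.Lib.H82OT.FL5
import Pool.Agent.Lib.H82OT.NB5

/-!
# Project H82OT, chunk NB6: finitely many bad primes
-/

open MeasureTheory Filter Topology Finset ProbabilityTheory
open scoped ENNReal ComplexConjugate Matrix

namespace Pool.Agent.Lib.H82OT

open Pool.Agent.Lib.H22M Pool.Agent.Lib.H82T

/-- The functions cohomologous to a constant form a subgroup. -/
private def NB6_sub {Z : Type*} [CommGroup Z] [MeasurableSpace Z]
    (lam : Measure Z) (α : Z) : Subgroup (Z → Circle) where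
  carrier := {ψ | ∃ l : ℂ, Coh lam α ψ 1 l}
  one_mem' := by
    refine ⟨1, fun _ => 1, measurable_const, ?_, ?_⟩
    · exact Eventually.of_forall fun _ => by simp
    · exact Eventually.of_forall fun _ => by simp
  mul_mem' := by
    rintro ψ χ ⟨l, B, hB, hB1, hBe⟩ ⟨l', B', hB', hB1', hBe'⟩
    refine ⟨l * l', fun z => B z * B' z, hB.mul hB', ?_, ?_⟩
    · filter_upwards [hB1, hB1'] with z h1 h2
      rw [norm_mul, h1, h2, one_mul]
    · filter_upwards [hBe, hBe'] with z h1 h2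
      rw [h1, h2, Pi.mul_apply, Circle.coe_mul]
      ring
  inv_mem' := by
    rintro ψ ⟨l, B, hB, hB1, hBe⟩
    refine ⟨l⁻¹, fun z => (B z)⁻¹, hB.inv, ?_, ?_⟩
    · filter_upwards [hB1] with z h1
      rw [norm_inv, h1, inv_one]
    · filter_upwards [hBe] with z h1
      rw [h1, Pi.inv_apply, Circle.coe_inv, mul_inv, mul_inv, pow_one, pow_one]

/-- Translation by `c` as a homomorphism. -/
private def NB6_tr {Z : Type*} [CommGroup Z] (c : Z) : (Z → Circle) →* (Z → Circle) where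
  toFun ψ := fun z => ψ (c * z)
  map_one' := rfl
  map_mul' _ _ := rfl

private theorem NB6_tr_iter {Z : Type*} [CommGroup Z] (c : Z) (n : ℕ) (ψ : Z → Circle) :
    (⇑(NB6_tr c))^[n] ψ = fun z => ψ (c ^ n * z) := by
  induction n generalizing ψ with
  | zero => funext z; simp
  | succ n ih =>
    rw [Function.iterate_succ_apply, ih]
    funext z
    show ψ (c * (c ^ n * z)) = ψ (c ^ (n + 1) * z)
    rw [pow_succ', mul_assoc]

/-- Composition with `φ` as a homomorphism. -/
private noncomputable def NB6_v {Z G : Type*} [CommGroup G] [TopologicalSpace G] (φ : Z → G) :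
    PontryaginDual G →* (Z → Circle) where
  toFun χ := fun z => χ (φ z)
  map_one' := rfl
  map_mul' _ _ := rfl

/-- Proof. Apply `bad_card_le` (FL5) to every finite set `PP` of such primes: `A = Z → Circle` (pointwise
multiplication), `Γ = PontryaginDual G`, `v χ = χ ∘ φ`, `T p ψ = ψ ∘ (c_p * ·)` (`c_p^p = 1`; they commute as
`Z` is commutative), `N` the subgroup of the `ψ` for which there are `l : ℂ` and a measurable `B` with
`‖B‖ = 1` a.e. and `B (α z) = l * ψ z * B z` a.e., i.e. `Coh lam α ψ 1 l` (closed under products and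
inverses; invariant under `T p` by translating `B`: left-invariance of `lam`). From `hrel`:
`β (α z) = l a(φ z) b(φ(c_p z)) β z` says `v (a p) * T p (v (b p)) ∈ N`; and `(v (a p * b p))^M ∈ N` would give
`Coh ((a b) ∘ φ) M l'`. So all finite sets of bad primes have at most `r (r (r - 1) / 2)` elements, and the
set of bad primes is finite (`Set.infinite_of_...`/`Set.Infinite.exists_subset_card_eq`). -/
theorem bad_primes_finite {Z G : Type*} [CommGroup Z] [MeasurableSpace Z] [MeasurableMul Z]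
    [CommGroup G] [TopologicalSpace G] [MeasurableSpace G]
    (lam : Measure Z) [IsProbabilityMeasure lam] [lam.IsMulLeftInvariant] (α : Z)
    (φ : Z → G) (s : Finset (PontryaginDual G))
    (hs : Subgroup.closure (s : Set (PontryaginDual G)) = ⊤) :
    {p : ℕ | p.Prime ∧ p ≠ 2 ∧ ∃ (c₀ : Z) (a b : PontryaginDual G) (l : ℂ) (β : Z → ℂ),
      c₀ ^ p = 1 ∧ Measurable β ∧ (∀ᵐ z ∂lam, ‖β z‖ = 1) ∧
      (∀ᵐ z ∂lam, β (α * z) =
        l * ((a (φ z) : Circle) : ℂ) * ((b (φ (c₀ * z)) : Circle) : ℂ) * β z) ∧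
      ∀ (M : ℕ) (l' : ℂ), 1 ≤ M → ¬ Coh lam α (fun z => (a * b) (φ z)) M l'}.Finite := by
  classical
  by_contra hinf
  obtain ⟨PP, hPPs, hPPc⟩ := Set.Infinite.exists_subset_card_eq hinf
    (s.card * (s.card * (s.card - 1) / 2) + 1)
  have hmem : ∀ p : ℕ, ∃ (c₀ : Z) (a b : PontryaginDual G), p ∈ PP →
      (p.Prime ∧ p ≠ 2) ∧ c₀ ^ p = 1 ∧ (∃ (l : ℂ) (β : Z → ℂ), Measurable β ∧
        (∀ᵐ z ∂lam, ‖β z‖ = 1) ∧ (∀ᵐ z ∂lam, β (α * z) =
        l * ((a (φ z) : Circle) : ℂ) * ((b (φ (c₀ * z)) : Circle) : ℂ) * β z)) ∧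
      ∀ (M : ℕ) (l' : ℂ), 1 ≤ M → ¬ Coh lam α (fun z => (a * b) (φ z)) M l' := by
    intro p
    by_cases hp : p ∈ PP
    · obtain ⟨h1, h2, c₀, a, b, l, β, h3, h4, h5, h6, h7⟩ := hPPs hp
      exact ⟨c₀, a, b, fun _ => ⟨⟨h1, h2⟩, h3, ⟨l, β, h4, h5, h6⟩, h7⟩⟩
    · exact ⟨1, 1, 1, fun h => absurd h hp⟩
  choose c a b h using hmem
  have hkey := bad_card_le (NB6_sub lam α) (NB6_v φ) s hs PP (fun p hp => (h p hp).1)
    (fun p => NB6_tr (c p)) ?_ ?_ ?_ a b ?_ ?_
  · rw [hPPc] at hkey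
    omega
  · intro p hp ψ
    rw [NB6_tr_iter, (h p hp).2.1]
    funext z
    rw [one_mul]
  · intro p _ r _ ψ
    funext z
    show ψ (c r * (c p * z)) = ψ (c p * (c r * z))
    rw [mul_left_comm]
  · rintro p hp ψ ⟨l, B, hB, hB1, hBe⟩
    have hc : MeasurePreserving (fun z => c p * z) lam lam := measurePreserving_mul_left lam (c p)
    refine ⟨l, fun z => B (c p * z), hB.comp (measurable_const_mul (c p)),
      hc.quasiMeasurePreserving.ae hB1, ?_⟩
    filter_upwards [hc.quasiMeasurePreserving.ae hBe] with z h1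
    show B (c p * (α * z)) = _
    rw [mul_left_comm, h1]
    rfl
  · intro p hp
    obtain ⟨l, β, h1, h2, h3⟩ := (h p hp).2.2.1
    refine ⟨l, β, h1, h2, ?_⟩
    filter_upwards [h3] with z hz
    rw [hz]
    show _ = l * (((a p (φ z) * b p (φ (c p * z)) : Circle) : ℂ)) ^ 1 * β z
    rw [Circle.coe_mul]
    ring
  · intro p hp M hM hN
    obtain ⟨l, B, hB, hB1, hBe⟩ := hN
    refine (h p hp).2.2.2 M l hM ⟨B, hB, hB1, ?_⟩
    filter_upwards [hBe] with z hz
    rw [hz, pow_one, Pi.pow_apply, Circle.coe_pow]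
    rfl

end Pool.Agent.Lib.H82OT
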