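import Pool.Agent.Lib.H82OT.NB3
import Pool.Agent.Lib.H82OT.NB4
import Pool.Agent.Lib.H82OT.NB5
import Pool.Agent.Lib.H82OT.NB6

/-!
# Project H82OT, chunk NB7: no roots of unity over the base
-/

open MeasureTheory Filter Topology Finset ProbabilityTheory
open scoped ENNReal ComplexConjugate Matrix

namespace Pool.Agent.Lib.H82OT

open Pool.Agent.Lib.H22M Pool.Agent.Lib.H82T

/-- Proof. `s` generates the dual of `G` (`hs`). Let `M₁` be as in `exists_uniform_exponent`, `P0` the finite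
set of `bad_primes_finite` together with `2`. Given `p, q, ν` and `ζ, h` with `h` not a.e. `0`,
`exists_relation_kron` gives `a, b, c₀, l, β`. As `p ∉ P0` the relation (with the constant `ζ * l`) shows
that `(a * b) ∘ φ` satisfies `Coh` for some `M ≥ 1`, `l'`, hence for `M₁` and some `l'`, which is an
eigenvalue of `R` (`coh_eigenvalue`). `no_relation_coh_G` (with `E = IsEigenvalue m R`, closed under
products and inverses: `IsEigenvalue.mul`, `IsEigenvalue.inv` used in `H82T/B3.lean`;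
`isEigenvalue_of_rotation`) gives a contradiction for `q > M₁`. -/
theorem noRoot_base_G {Y Z G W : Type*} [MeasurableSpace Y] {m : Measure Y}
    [IsProbabilityMeasure m] [MeasurableSpace Circle] [BorelSpace Circle]
    [CommGroup Z] [TopologicalSpace Z] [IsTopologicalGroup Z]
    [CompactSpace Z] [T2Space Z] [SecondCountableTopology Z] [MeasurableSpace Z] [BorelSpace Z]
    [CommGroup G] [TopologicalSpace G] [IsTopologicalGroup G]
    [CompactSpace G] [T2Space G] [SecondCountableTopology G] [MeasurableSpace G] [BorelSpace G]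
    [CommGroup W] [TopologicalSpace W] [IsTopologicalGroup W]
    [CompactSpace W] [T2Space W] [SecondCountableTopology W] [MeasurableSpace W] [BorelSpace W]
    (lam : Measure Z) [lam.IsHaarMeasure] [IsProbabilityMeasure lam]
    (R : Y ≃ᵐ Y) (hR : Ergodic R m)
    (hroot : ∀ c : ℂ, IsEigenvalue m R c → ∀ n : ℕ, 1 ≤ n → c ^ n = 1 → c = 1)
    (π : Y → Z) (hπ : MeasurePreserving π m lam) (α : Z) (hπR : ∀ y, π (R y) = α * π y)
    (u : Y → G) (hu : Measurable u) (φ : Z → G) (hφ : Measurable φ)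
    (huR : ∀ y, u (R y) = φ (π y) * u y) (s : Finset (PontryaginDual G))
    (hs : Subgroup.closure (s : Set (PontryaginDual G)) = ⊤)
    (P : Y → W) (c : W) (hk : Kron m R P c) :
    ∃ (M₀ : ℕ) (P0 : Finset ℕ), ∀ p q : ℕ, p.Prime → p ∉ P0 → q.Prime → q ≠ p → M₀ < q →
      ∀ ν : Measure (Y × Y), IsSelf m R ν → (∀ᵐ z ∂ν, (π z.2 / π z.1) ^ p = 1) →
        NoRoot (DD (MeasurableSpace.comap (fun y => (π y, u y)) inferInstance ⊔
          MeasurableSpace.comap P inferInstance) ν R) ν (Prod.map R R) q := by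
  classical
  have hRm : MeasurePreserving R m m := hR.toMeasurePreserving
  have hE : ∀ c, IsEigenvalue lam (fun z => α * z) c → IsEigenvalue m R c :=
    fun c hc => isEigenvalue_of_rotation hπ hπR hc
  obtain ⟨M₁, hM₁, hunif⟩ := exists_uniform_exponent lam α φ s hs
  have hfin := bad_primes_finite lam α φ s hs
  refine ⟨M₁, insert 2 hfin.toFinset, ?_⟩
  intro p q hp hpP hq hqp hqM ν hν hpν ζ hζ hζ1 h hh hb hhR
  by_contra hne
  have hζn : ‖ζ‖ = 1 := by
    have h1 : ‖ζ‖ ^ q = 1 := by rw [← norm_pow, hζ, norm_one]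
    exact (pow_eq_one_iff_of_nonneg (norm_nonneg ζ) hq.ne_zero).1 h1
  obtain ⟨a, b, c₀, l, β, hc₀, hl, hβ, hβ1, hrel⟩ := exists_relation_kron lam R hR π hπ α hπR u hu
    φ hφ huR P c hk ν hν p hpν ζ hζn h hh hb hhR hne
  have hcoh : ∃ (M : ℕ) (l' : ℂ), 1 ≤ M ∧ Coh lam α (fun z => (a * b) (φ z)) M l' := by
    by_contra hno
    push Not at hno
    apply hpP
    rw [Finset.mem_insert, Set.Finite.mem_toFinset]
    by_cases h2 : p = 2
    · left
      exact h2
    · right
      exact ⟨hp, h2, c₀, a, b, ζ * l, β, hc₀, hβ, hβ1, hrel, fun M l' hM => hno M l' hM⟩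
  obtain ⟨l', hl'⟩ := hunif (a * b) hcoh
  have hl'E : IsEigenvalue m R l' := coh_eigenvalue lam π hπ α hπR u hu φ huR (a * b) M₁ l' hl'
  exact no_relation_coh_G lam α φ (fun c => IsEigenvalue m R c) hE (fun c d hc hd => hc.mul hd)
    (fun c hc => hc.inv hRm) hroot a b M₁ hM₁ l l' hl hl'E hl' p q hp hq hqp hqM c₀ hc₀ ζ hζ hζ1
    β hβ hβ1 hrel

end Pool.Agent.Lib.H82OT
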